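import Pool.Agent.PTate.Defs

/-!
# The action of automorphisms on the classes of divisors
-/

set_option autoImplicit false

noncomputable section

namespace Pool.Agent.PTate

open Polynomial
open scoped Classical

variable {O : Type} [CommRing O]

theorem mv_asIdeal (e : O ≃+* O) (P : MaximalSpectrum O) :
    (mv e P).asIdeal = P.asIdeal.map (e : O →+* O) :=
  Ideal.comap_symm e

theorem mem_mv (e : O ≃+* O) (P : MaximalSpectrum O) (z : O) :
    e z ∈ (mv e P).asIdeal ↔ z ∈ P.asIdeal := by
  show e.symm (e z) ∈ P.asIdeal ↔ _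
  rw [e.symm_apply_apply]

theorem idl_mv (e : O ≃+* O) (s : Multiset (MaximalSpectrum O)) :
    idl (s.map (mv e)) = (idl s).map (e : O →+* O) := by
  unfold idl
  rw [Multiset.map_map]
  have h := map_multiset_prod (Ideal.mapHom (e : O →+* O)) (s.map MaximalSpectrum.asIdeal)
  rw [Multiset.map_map] at h
  refine Eq.trans ?_ h.symm
  congr 1
  refine Multiset.map_congr rfl fun P _ => ?_
  exact mv_asIdeal e P

theorem span_mv (e : O ≃+* O) {z : O} {s : Multiset (MaximalSpectrum O)}
    (h : Ideal.span {z} = idl s) : Ideal.span {e z} = idl (s.map (mv e)) := by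
  rw [idl_mv, ← h, Ideal.map_span, Set.image_singleton]
  rfl

private lemma prin_mv (e : O ≃+* O) {s : Multiset (MaximalSpectrum O)} (hs : Prin s) :
    Prin (s.map (mv e)) := by
  obtain ⟨α, hα⟩ := hs
  exact ⟨e α, span_mv e hα⟩

private lemma dv_mv (g : MaximalSpectrum O → MaximalSpectrum O)
    (s : Multiset (MaximalSpectrum O)) : Finsupp.mapDomain g (dv s) = dv (s.map g) := by
  unfold dv
  induction s using Multiset.induction_on with
  | empty => simp
  | cons P s ih =>
    rw [Multiset.map_cons, Multiset.sum_cons, Finsupp.mapDomain_add, ih, Multiset.map_cons,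
      Multiset.map_cons, Multiset.sum_cons, Finsupp.mapDomain_single]

/-- The action of an automorphism on the classes of divisors. -/
def J.map (e : O ≃+* O) : J O →+ J O :=
  QuotientAddGroup.map _ _ (Finsupp.mapDomain.addMonoidHom (mv e)) (by
    rw [AddSubgroup.closure_le]
    rintro D ⟨s, hs, rfl⟩
    exact AddSubgroup.subset_closure ⟨s.map (mv e), prin_mv e hs, dv_mv _ s⟩)

theorem J.map_cl (e : O ≃+* O) (P : MaximalSpectrum O) : J.map e (cl P) = cl (mv e P) := by
  unfold cl J.map
  rw [QuotientAddGroup.map_mk]
  congr 1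
  exact Finsupp.mapDomain_single

theorem J.map_sum (e : O ≃+* O) (s : Multiset (MaximalSpectrum O)) :
    J.map e (s.map cl).sum = ((s.map (mv e)).map cl).sum := by
  rw [map_multiset_sum, Multiset.map_map, Multiset.map_map]
  congr 1
  exact Multiset.map_congr rfl fun P _ => J.map_cl e P

theorem mv_refl (P : MaximalSpectrum O) : mv (RingEquiv.refl O) P = P := rfl

theorem mv_trans (e e' : O ≃+* O) (P : MaximalSpectrum O) :
    mv (e.trans e') P = mv e' (mv e P) := rfl

theorem J.map_refl (c : J O) : J.map (RingEquiv.refl O) c = c := by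
  induction c using QuotientAddGroup.induction_on with
  | H D =>
    unfold J.map
    rw [QuotientAddGroup.map_mk]
    congr 1
    exact Finsupp.mapDomain_id

theorem J.map_trans (e e' : O ≃+* O) (c : J O) :
    J.map (e.trans e') c = J.map e' (J.map e c) := by
  induction c using QuotientAddGroup.induction_on with
  | H D =>
    unfold J.map
    rw [QuotientAddGroup.map_mk, QuotientAddGroup.map_mk, QuotientAddGroup.map_mk]
    congr 1
    exact Finsupp.mapDomain_comp (f := mv e) (g := mv e')

end Pool.Agent.PTate
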