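import Mathlib

/-!
# An element is a norm from a cyclic extension if its Kummer generator is a norm
-/

set_option autoImplicit false

noncomputable section

namespace Pool.Agent.PTate

open Polynomial
open scoped Classical

theorem alg_prod_add {E : Type} [Field E] {p : ℕ} [Fact p.Prime] (hp : p ≠ 2) {ζ : E}
    (hζ : IsPrimitiveRoot ζ p) {A : Type} [CommRing A] [Algebra E A] (u : A) (r : E) :
    ∏ j ∈ Finset.range p, (algebraMap E A ζ ^ j * u + algebraMap E A r) =
      u ^ p + algebraMap E A r ^ p := by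
  have hpp : p.Prime := Fact.out
  have hodd : Odd p := hpp.odd_of_ne_two hp
  have hζ' : IsPrimitiveRoot (C ζ : E[X]) p := hζ.map_of_injective C_injective
  have h1 := X_pow_sub_C_eq_prod hζ' (α := (X : E[X])) hpp.pos rfl
  have h2 := congrArg (Polynomial.eval (-(C r : E[X]))) h1
  simp only [eval_sub, eval_pow, eval_X, eval_C, eval_prod] at h2
  have h3 : ∏ i ∈ Finset.range p, (-(C r : E[X]) - C ζ ^ i * X) =
      -∏ i ∈ Finset.range p, (C ζ ^ i * X + C r) := by
    have : ∀ i ∈ Finset.range p, (-(C r : E[X]) - C ζ ^ i * X) =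
        (-1) * (C ζ ^ i * X + C r) := by
      intros
      ring
    rw [Finset.prod_congr rfl this, Finset.prod_mul_distrib, Finset.prod_const,
      Finset.card_range, hodd.neg_one_pow]
    ring
  rw [h3, hodd.neg_pow] at h2
  have h4 : ∏ i ∈ Finset.range p, (C ζ ^ i * X + C r) = (X : E[X]) ^ p + C r ^ p := by
    linear_combination h2
  have h5 := congrArg (aeval u) h4
  simpa using h5

/-- Let `y ^ p` be the norm of `∏ (u + ρ i) ^ (m i)`, `u ^ p = g`. Then `g` is a norm from the
field `E`. -/
theorem exists_norm_cyclic {E : Type} [Field E] (σ : E ≃+* E) {p : ℕ} [Fact p.Prime]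
    (hp : p ≠ 2) {ζ : E} (hζ : IsPrimitiveRoot ζ p) (hσζ : σ ζ = ζ) {y g : E} (hy : y ≠ 0)
    (hσy : σ y = ζ * y) (hg : σ g = g) (hg0 : g ≠ 0) {ι : Type} (S : Finset ι) (ρ : ι → E)
    (m : ι → ℕ) (hρ : ∀ i ∈ S, σ (ρ i) = ρ i)
    (hf : ∏ i ∈ S, (g + ρ i ^ p) ^ m i = y ^ p) :
    ∃ w : E, ∏ i ∈ Finset.range p, σ^[i] w = g := by
  have hpp : p.Prime := Fact.out
  have hpE : (p : E) ≠ 0 := by
    intro h0
    have : CharP E p := by
      rcases CharP.exists E with ⟨q, hq⟩
      have hdvd : q ∣ p := (CharP.cast_eq_zero_iff E q p).1 h0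
      rcases (Nat.dvd_prime hpp).1 hdvd with h1 | h1
      · subst h1
        exact absurd (CharP.char_ne_one E 1) (by simp)
      · subst h1
        exact hq
    have h1 : ζ ^ p = 1 := hζ.pow_eq_one
    have h2 : (ζ - 1) ^ p = 0 := by
      rw [sub_pow_char, h1, one_pow, sub_self]
    have h3 : ζ = 1 := sub_eq_zero.1 (pow_eq_zero_iff hpp.ne_zero |>.1 h2)
    exact hpp.one_lt.ne' (hζ.unique (h3 ▸ IsPrimitiveRoot.one))
  set f : E[X] := X ^ p - C g with hfdef
  have hmon : f.Monic := monic_X_pow_sub_C g hpp.ne_zero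
  let A := AdjoinRoot f
  let u : A := AdjoinRoot.root f
  have hu : u ^ p = algebraMap E A g := by
    have h := AdjoinRoot.eval₂_root f
    simp only [hfdef, eval₂_sub, eval₂_X_pow, eval₂_C] at h
    exact sub_eq_zero.1 h
  have hη : IsPrimitiveRoot ζ⁻¹ p := hζ.inv
  set η : E := ζ⁻¹ with hηdef
  -- the automorphism u ↦ η u
  have hθ0 : aeval (algebraMap E A η * u) f = 0 := by
    simp only [hfdef, map_sub, map_pow, aeval_X, aeval_C, mul_pow, hu]
    rw [← map_pow, hη.pow_eq_one, map_one, one_mul, sub_self]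
  let θ : A →ₐ[E] A := AdjoinRoot.liftAlgHom f (Algebra.ofId E A) (algebraMap E A η * u)
    (by simpa [aeval_def] using hθ0)
  have hθu : θ u = algebraMap E A η * u := AdjoinRoot.liftAlgHom_root _ _ _ _
  have hθpow : ∀ j : ℕ, (θ ^ j) u = algebraMap E A η ^ j * u := by
    intro j
    induction j with
    | zero => simp
    | succ j ih =>
      rw [pow_succ', AlgHom.mul_apply, ih, map_mul, map_pow, AlgHom.commutes, hθu]
      ring
  have hθp : ∀ a : A, (θ ^ p) a = a := by
    have : θ ^ p = AlgHom.id E A := by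
      apply AdjoinRoot.algHom_ext
      rw [show AdjoinRoot.root f = u from rfl, hθpow p, ← map_pow, hη.pow_eq_one, map_one,
        one_mul]
      rfl
    intro a
    rw [this]
    rfl
  let h : A := ∏ i ∈ S, (u + algebraMap E A (ρ i)) ^ m i
  have hθh : ∀ j : ℕ, (θ ^ j) h = ∏ i ∈ S, (algebraMap E A η ^ j * u +
      algebraMap E A (ρ i)) ^ m i := by
    intro j
    simp only [h, map_prod, map_pow, map_add, hθpow, AlgHom.commutes]
  have hprod : ∏ j ∈ Finset.range p, (θ ^ j) h = algebraMap E A y ^ p := by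
    simp only [hθh]
    rw [Finset.prod_comm]
    have : ∀ i ∈ S, ∏ j ∈ Finset.range p, (algebraMap E A η ^ j * u +
        algebraMap E A (ρ i)) ^ m i = algebraMap E A ((g + ρ i ^ p) ^ m i) := by
      intro i _
      rw [Finset.prod_pow, alg_prod_add hp hη u (ρ i), hu]
      simp
    rw [Finset.prod_congr rfl this, ← map_prod, hf, map_pow]
  -- the operator T
  let T : Module.End E A :=
    (LinearMap.mulLeft E (h * algebraMap E A y⁻¹)).comp θ.toLinearMap
  have hT : ∀ a : A, T a = h * algebraMap E A y⁻¹ * θ a := fun a => rfl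
  have hTn : ∀ (n : ℕ) (a : A), (T ^ n) a =
      algebraMap E A y⁻¹ ^ n * (∏ j ∈ Finset.range n, (θ ^ j) h) * (θ ^ n) a := by
    intro n
    induction n with
    | zero => intro a; simp
    | succ n ih =>
      intro a
      rw [pow_succ', Module.End.mul_apply, ih, hT, map_mul, map_mul, map_pow, AlgHom.commutes,
        map_prod, Finset.prod_range_succ', pow_succ' θ n, AlgHom.mul_apply]
      have : ∀ j ∈ Finset.range n, θ ((θ ^ j) h) = (θ ^ (j + 1)) h := by
        intro j _
        rw [pow_succ', AlgHom.mul_apply]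
      rw [Finset.prod_congr rfl this]
      simp only [pow_zero, AlgHom.one_apply]
      ring
  have hTp : ∀ a : A, (T ^ p) a = a := by
    intro a
    rw [hTn, hprod, hθp, ← map_pow, ← map_pow, ← map_mul, ← mul_pow, inv_mul_cancel₀ hy]
    simp
  have huT : ∀ (j : ℕ) (a : A), T (u ^ j * a) = η ^ j • (u ^ j * T a) := by
    intro j a
    rw [hT, hT, map_mul, map_pow, hθu, mul_pow, Algebra.smul_def, map_pow]
    ring
  have hTuj : ∀ (n j : ℕ) (a : A), (T ^ n) (u ^ j * a) = (η ^ j) ^ n • (u ^ j * (T ^ n) a) := by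
    intro n j
    induction n with
    | zero => intro a; simp
    | succ n ih =>
      intro a
      rw [pow_succ', Module.End.mul_apply, ih, map_smul, huT, smul_smul, Module.End.mul_apply,
        ← pow_succ]
  have huu : IsUnit u := by
    have h1 : IsUnit (u ^ p) := by
      rw [hu]
      exact (IsUnit.mk0 g hg0).map _
    exact (isUnit_pow_iff hpp.ne_zero).1 h1
  have : Nontrivial A := AdjoinRoot.nontrivial f (by
    rw [hfdef, degree_X_pow_sub_C hpp.pos]
    exact_mod_cast hpp.ne_zero)
  -- the power basis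
  let pb := AdjoinRoot.powerBasis' hmon
  have hdim : pb.dim = p := by
    rw [AdjoinRoot.powerBasis'_dim, hfdef, natDegree_X_pow_sub_C]
  have hfin : Module.finrank E A = p := by
    rw [PowerBasis.finrank pb, hdim]
  -- an eigenvector
  obtain ⟨a0, ha0⟩ : ∃ a : A, ∑ i ∈ Finset.range p, (T ^ i) a ≠ 0 := by
    by_contra hcon
    push Not at hcon
    have h1 : ∀ j : ℕ, ∑ i ∈ Finset.range p, (η ^ j) ^ i • (T ^ i) (1 : A) = 0 := by
      intro j
      have h2 := hcon (u ^ j * 1)
      simp only [hTuj] at h2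
      have h3 : u ^ j * ∑ i ∈ Finset.range p, (η ^ j) ^ i • (T ^ i) (1 : A) = 0 := by
        rw [Finset.mul_sum, ← h2]
        refine Finset.sum_congr rfl fun i _ => ?_
        rw [mul_smul_comm]
      exact (huu.pow j).mul_right_eq_zero.1 h3
    have h2 : ∑ j ∈ Finset.range p, ∑ i ∈ Finset.range p, (η ^ j) ^ i • (T ^ i) (1 : A) = 0 :=
      Finset.sum_eq_zero fun j _ => h1 j
    rw [Finset.sum_comm] at h2
    have h3 : ∀ i ∈ Finset.range p, ∑ j ∈ Finset.range p, (η ^ j) ^ i • (T ^ i) (1 : A) =
        if i = 0 then (p : E) • (1 : A) else 0 := by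
      intro i hi
      rw [← Finset.sum_smul]
      split_ifs with h0
      · subst h0
        simp
      · have h4 : ∑ j ∈ Finset.range p, (η ^ j) ^ i = 0 := by
          have h5 : (η ^ i) ^ p = 1 := by rw [← pow_mul, mul_comm, pow_mul, hη.pow_eq_one, one_pow]
          have h6 : η ^ i ≠ 1 := hη.pow_ne_one_of_pos_of_lt (Nat.pos_of_ne_zero h0).ne'
            (Finset.mem_range.1 hi)
          have h7 := geom_sum_mul (η ^ i) p
          rw [h5, sub_self] at h7
          rcases mul_eq_zero.1 h7 with h8 | h8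
          · rw [← h8]
            refine Finset.sum_congr rfl fun j _ => ?_
            rw [← pow_mul, ← pow_mul, mul_comm]
          · exact absurd (sub_eq_zero.1 h8) h6
        rw [h4, zero_smul]
    rw [Finset.sum_congr rfl h3, Finset.sum_ite_eq' (Finset.range p) 0, if_pos
      (Finset.mem_range.2 hpp.pos), Algebra.smul_def, mul_one] at h2
    exact hpE ((algebraMap E A).injective (by rw [h2, map_zero]))
  set v0 : A := ∑ i ∈ Finset.range p, (T ^ i) a0 with hv0
  have hTv0 : T v0 = v0 := by
    rw [hv0, map_sum]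
    have h1 : ∀ i ∈ Finset.range p, T ((T ^ i) a0) = (T ^ (i + 1)) a0 := by
      intro i _
      rw [pow_succ', Module.End.mul_apply]
    rw [Finset.sum_congr rfl h1]
    have h2 := Finset.sum_range_succ (fun i => (T ^ i) a0) p
    have h3 := Finset.sum_range_succ' (fun i => (T ^ i) a0) p
    rw [h2, hTp] at h3
    simp only [pow_zero, Module.End.one_apply] at h3
    exact (add_right_cancel h3).symm
  obtain ⟨j0, hj0⟩ : ∃ j, pb.basis.repr v0 j ≠ 0 := by
    by_contra hcon
    push Not at hcon
    apply ha0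
    have : pb.basis.repr v0 = 0 := Finsupp.ext hcon
    exact pb.basis.repr.map_eq_zero_iff.1 this
  set v : A := (pb.basis.repr v0 j0)⁻¹ • v0 with hv
  have hTv : T v = v := by rw [hv, map_smul, hTv0]
  have hvj : pb.basis.repr v j0 = 1 := by
    rw [hv, map_smul, Finsupp.smul_apply, smul_eq_mul, inv_mul_cancel₀ hj0]
  have hv0' : v ≠ 0 := by
    intro h0
    rw [h0] at hvj
    simp at hvj
  -- the eigenspace is a line
  have hline : ∀ v' : A, T v' = v' → ∃ c : E, v' = c • v := by
    intro v' hv'
    let x : Fin p → A := fun i => u ^ (i : ℕ) * v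
    have hx : ∀ i, T (x i) = η ^ (i : ℕ) • x i := by
      intro i
      rw [huT, hTv]
    have hlin : LinearIndependent E x := by
      apply Module.End.eigenvectors_linearIndependent' T (fun i : Fin p => η ^ (i : ℕ))
      · intro i j hij
        exact Fin.ext (hη.pow_inj i.2 j.2 hij)
      · intro i
        refine ⟨Module.End.mem_eigenspace_iff.2 (hx i), ?_⟩
        intro h0
        exact hv0' ((huu.pow _).mul_right_eq_zero.1 h0)
    have : Nonempty (Fin p) := ⟨⟨0, hpp.pos⟩⟩
    let b := basisOfLinearIndependentOfCardEqFinrank hlin (by rw [Fintype.card_fin, hfin])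
    have hb : ∀ i, b i = x i := fun i => by
      simp [b]
    have h1 : v' = ∑ i, b.repr v' i • x i := by
      conv_lhs => rw [← b.sum_repr v']
      simp only [hb]
    have h2 : ∑ i, (b.repr v' i * (η ^ (i : ℕ) - 1)) • x i = 0 := by
      have h3 : T v' = ∑ i, b.repr v' i • (η ^ (i : ℕ) • x i) := by
        conv_lhs => rw [h1]
        rw [map_sum]
        refine Finset.sum_congr rfl fun i _ => ?_
        rw [map_smul, hx]
      have h4 : ∑ i, (b.repr v' i * (η ^ (i : ℕ) - 1)) • x i =
          (∑ i, b.repr v' i • (η ^ (i : ℕ) • x i)) - ∑ i, b.repr v' i • x i := by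
        rw [← Finset.sum_sub_distrib]
        refine Finset.sum_congr rfl fun i _ => ?_
        rw [mul_sub, mul_one, sub_smul, mul_smul]
      rw [h4, ← h3, ← h1, hv', sub_self]
    have h5 := Fintype.linearIndependent_iff.1 hlin _ h2
    have h6 : ∀ i : Fin p, i ≠ ⟨0, hpp.pos⟩ → b.repr v' i = 0 := by
      intro i hi
      rcases mul_eq_zero.1 (h5 i) with h7 | h7
      · exact h7
      · exfalso
        have h8 : (i : ℕ) ≠ 0 := fun h => hi (Fin.ext h)
        exact hη.pow_ne_one_of_pos_of_lt h8 i.2 (sub_eq_zero.1 h7)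
    refine ⟨b.repr v' ⟨0, hpp.pos⟩, ?_⟩
    conv_lhs => rw [h1]
    rw [Finset.sum_eq_single ⟨0, hpp.pos⟩]
    · simp [x]
    · intro i _ hi
      rw [h6 i hi, zero_smul]
    · intro h
      exact absurd (Finset.mem_univ _) h
  -- the semilinear operator
  have hs0 : eval₂ ((algebraMap E A).comp (σ : E →+* E)) u f = 0 := by
    simp only [hfdef, eval₂_sub, eval₂_X_pow, eval₂_C, RingHom.comp_apply]
    rw [show (σ : E →+* E) g = g from hg, hu, sub_self]
  let s : A →+* A := AdjoinRoot.lift ((algebraMap E A).comp (σ : E →+* E)) u hs0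
  have hsu : s u = u := AdjoinRoot.lift_root _
  have hsE : ∀ c : E, s (algebraMap E A c) = algebraMap E A (σ c) := fun c =>
    AdjoinRoot.lift_of _
  have hsh : s h = h := by
    simp only [h, map_prod, map_pow, map_add, hsu, hsE]
    exact Finset.prod_congr rfl fun i hi => by rw [hρ i hi]
  have hση : σ η = η := by rw [hηdef, map_inv₀, hσζ]
  have hsθ : ∀ a : A, s (θ a) = θ (s a) := by
    have : s.comp (θ : A →+* A) = (θ : A →+* A).comp s := by
      apply AdjoinRoot.ringHom_ext
      · ext c
        change s (θ (algebraMap E A c)) = θ (s (algebraMap E A c))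
        rw [AlgHom.commutes, hsE, AlgHom.commutes]
      · change s (θ u) = θ (s u)
        rw [hθu, map_mul, hsE, hsu, hθu, hση]
    intro a
    exact congrArg (fun φ : A →+* A => φ a) this
  have hrepr : ∀ (a : A) (j : Fin pb.dim), pb.basis.repr (s a) j = σ (pb.basis.repr a j) := by
    intro a j
    have h1 : s a = ∑ i, σ (pb.basis.repr a i) • pb.basis i := by
      conv_lhs => rw [← pb.basis.sum_repr a]
      rw [map_sum]
      refine Finset.sum_congr rfl fun i _ => ?_
      rw [Algebra.smul_def, map_mul, hsE, PowerBasis.coe_basis, map_pow, Algebra.smul_def]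
      rw [show pb.gen = u from rfl, hsu]
    rw [h1, Module.Basis.repr_sum_self]
  have hΦT : T (u * s v) = u * s v := by
    have h1 : s v = h * algebraMap E A (ζ * y)⁻¹ * θ (s v) := by
      have h2 := congrArg s hTv
      rw [hT, map_mul, map_mul, hsh, hsE, hsθ, map_inv₀, hσy] at h2
      exact h2.symm
    have h3 : T (u * s v) = h * algebraMap E A y⁻¹ * (algebraMap E A η * u * θ (s v)) := by
      rw [hT, map_mul, hθu]
    rw [h3]
    conv_rhs => rw [h1]
    rw [mul_inv, map_mul, hηdef]
    ring
  obtain ⟨w, hw⟩ := hline _ hΦT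
  refine ⟨w, ?_⟩
  have hA : ∀ n : ℕ, u ^ n * s^[n] v = (∏ i ∈ Finset.range n, σ^[i] w) • v := by
    intro n
    induction n with
    | zero => simp
    | succ n ih =>
      have h1 : u ^ (n + 1) * s^[n + 1] v = u * s (u ^ n * s^[n] v) := by
        rw [map_mul, map_pow, hsu, Function.iterate_succ_apply', pow_succ']
        ring
      rw [h1, ih, Algebra.smul_def, map_mul, hsE, Finset.prod_range_succ', map_prod]
      have h2 : ∀ i ∈ Finset.range n, σ (σ^[i] w) = σ^[i + 1] w := by
        intro i _
        rw [Function.iterate_succ_apply']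
      rw [Finset.prod_congr rfl h2, Function.iterate_zero_apply, mul_smul, ← hw,
        Algebra.smul_def]
      ring
  have hsn : ∀ n : ℕ, pb.basis.repr (s^[n] v) j0 = 1 := by
    intro n
    induction n with
    | zero => exact hvj
    | succ n ih => rw [Function.iterate_succ_apply', hrepr, ih, map_one]
  have h1 := congrArg (fun a => pb.basis.repr a j0) (hA p)
  simp only [map_smul, Finsupp.smul_apply, hvj, smul_eq_mul, mul_one] at h1
  rw [← h1, hu, ← Algebra.smul_def, map_smul, Finsupp.smul_apply, hsn, smul_eq_mul, mul_one]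

end Pool.Agent.PTate
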