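import Pool.Agent.PTate.Defs

/-!
# Regular functions as a free module over the polynomials in one of them
-/

set_option autoImplicit false

noncomputable section

namespace Pool.Agent.PTate

open Polynomial
open scoped Classical

variable {k O : Type} [Field k] [CommRing O] [Algebra k O]

/-- `ω r`, `r < ord a`, is a basis of `O` over `k[a]`; the pole order of `ω r` is congruent to `r`
modulo `ord a`. -/
structure Bas (I : Infty k O) (a : O) (ω : Fin (I.ord a) → O) : Prop where
  ne : ∀ r, ω r ≠ 0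
  lc : ∀ r, I.lc (ω r) = 1
  res : ∀ r, I.ord (ω r) % I.ord a = r
  span : ∀ z, ∃ P : Fin (I.ord a) → k[X], z = ∑ r, aeval a (P r) * ω r
  top : ∀ P : Fin (I.ord a) → k[X], P ≠ 0 → (∑ r, aeval a (P r) * ω r) ≠ 0 ∧
    (∃ r, P r ≠ 0 ∧ I.ord a * (P r).natDegree + I.ord (ω r) =
      I.ord (∑ r, aeval a (P r) * ω r) ∧
      (P r).leadingCoeff = I.lc (∑ r, aeval a (P r) * ω r)) ∧
    ∀ r, P r ≠ 0 → I.ord a * (P r).natDegree + I.ord (ω r) ≤
      I.ord (∑ r, aeval a (P r) * ω r)

theorem Infty.isDomain (I : Infty k O) : IsDomain O := by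
  have h1 : I.lc 1 = 1 := by
    have h := I.lc_c 1
    rwa [map_one] at h
  have h10 : (1 : O) ≠ 0 := by
    intro h
    rw [h, I.lc_zero] at h1
    exact zero_ne_one h1
  have : Nontrivial O := ⟨⟨1, 0, h10⟩⟩
  have : NoZeroDivisors O := ⟨by
    intro z w h
    by_contra hcon
    push Not at hcon
    have h2 := I.lc_mul z w
    rw [h, I.lc_zero] at h2
    rcases mul_eq_zero.1 h2.symm with h3 | h3
    · exact I.lc_ne z hcon.1 h3
    · exact I.lc_ne w hcon.2 h3⟩
  exact NoZeroDivisors.to_isDomain O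

private lemma bas_c_ne (I : Infty k O) {c : k} (hc : c ≠ 0) : algebraMap k O c ≠ 0 := by
  intro h
  have h1 := I.lc_c c
  rw [h, I.lc_zero] at h1
  exact hc h1.symm

private lemma bas_smul_ne (I : Infty k O) {c : k} (hc : c ≠ 0) {z : O} (hz : z ≠ 0) :
    algebraMap k O c * z ≠ 0 := by
  have _ := I.isDomain
  exact mul_ne_zero (bas_c_ne I hc) hz

private lemma bas_smul_ord (I : Infty k O) {c : k} (hc : c ≠ 0) {z : O} (hz : z ≠ 0) :
    I.ord (algebraMap k O c * z) = I.ord z := by
  rw [I.ord_mul _ _ (bas_c_ne I hc) hz, I.ord_c, zero_add]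

private lemma bas_smul_lc (I : Infty k O) (c : k) (z : O) :
    I.lc (algebraMap k O c * z) = c * I.lc z := by
  rw [I.lc_mul, I.lc_c]

private lemma bas_neg_ord (I : Infty k O) {z : O} (hz : z ≠ 0) : I.ord (-z) = I.ord z := by
  have h := bas_smul_ord I (neg_ne_zero.2 (one_ne_zero : (1 : k) ≠ 0)) hz
  rwa [map_neg, map_one, neg_one_mul] at h

/-- The order and the leading coefficient of a sum with a dominating term. -/
theorem Infty.dominant (I : Infty k O) {z w : O} (hz : z ≠ 0) (h : w = 0 ∨ I.ord w < I.ord z) :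
    z + w ≠ 0 ∧ I.ord (z + w) = I.ord z ∧ I.lc (z + w) = I.lc z := by
  have _ := I.isDomain
  by_cases hw : w = 0
  · subst hw
    rw [add_zero]
    exact ⟨hz, rfl, rfl⟩
  have hlt : I.ord w < I.ord z := h.resolve_left hw
  have hnw : -w ≠ 0 := neg_ne_zero.2 hw
  have hne : z + w ≠ 0 := by
    intro h1
    have h2 : z = -w := eq_neg_of_add_eq_zero_left h1
    rw [h2, bas_neg_ord I hw] at hlt
    exact lt_irrefl _ hlt
  have hord : I.ord (z + w) = I.ord z := by
    have h1 := I.ord_add z w hz hw hne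
    rw [max_eq_left hlt.le] at h1
    rcases h1.lt_or_eq with h2 | h2
    · exfalso
      have h3 := I.ord_add (z + w) (-w) hne hnw (by rwa [add_neg_cancel_right])
      rw [add_neg_cancel_right, bas_neg_ord I hw] at h3
      have h4 := max_lt h2 hlt
      omega
    · exact h2
  refine ⟨hne, hord, ?_⟩
  by_contra hlc
  have hlz := I.lc_ne z hz
  have hlzw := I.lc_ne _ hne
  set c : k := I.lc (z + w) / I.lc z with hc
  have hc0 : c ≠ 0 := div_ne_zero hlzw hlz
  have hc1 : c ≠ 1 := by
    intro h1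
    rw [hc, div_eq_one_iff_eq hlz] at h1
    exact hlc h1
  have hc1' : 1 - c ≠ 0 := sub_ne_zero.2 hc1.symm
  have hvo := bas_smul_ord I hc0 hz
  have hvl := bas_smul_lc I c z
  rw [hc, div_mul_cancel₀ _ hlz, ← hc] at hvl
  have hord2 := bas_smul_ord I hc1' hz
  have hne2 := bas_smul_ne I hc1' hz
  by_cases huv : z + w = algebraMap k O c * z
  · have h1 : algebraMap k O (1 - c) * z = -w := by
      rw [map_sub, map_one]
      linear_combination huv
    rw [h1, bas_neg_ord I hw] at hord2
    omega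
  · have h1 := I.ord_sub (z + w) (algebraMap k O c * z) hne (bas_smul_ne I hc0 hz) huv
      (by rw [hord, hvo]) hvl.symm
    have h2 : algebraMap k O (1 - c) * z = (z + w - algebraMap k O c * z) + (-w) := by
      rw [map_sub, map_one]
      ring
    have h3 := I.ord_add (z + w - algebraMap k O c * z) (-w) (sub_ne_zero.2 huv) hnw
      (by rw [← h2]; exact hne2)
    rw [← h2, hord2, bas_neg_ord I hw] at h3
    rw [hord] at h1
    have h4 := max_lt h1 hlt
    omega

private lemma bas_pow (I : Infty k O) {a : O} (ha0 : a ≠ 0) (h1 : I.lc a = 1) (n : ℕ) :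
    a ^ n ≠ 0 ∧ I.ord (a ^ n) = I.ord a * n ∧ I.lc (a ^ n) = 1 := by
  have _ := I.isDomain
  induction n with
  | zero =>
    rw [pow_zero]
    refine ⟨one_ne_zero, ?_, ?_⟩
    · have h := I.ord_c 1
      rwa [map_one] at h
    · have h := I.lc_c 1
      rwa [map_one] at h
  | succ n ih =>
    refine ⟨pow_ne_zero _ ha0, ?_, ?_⟩
    · rw [pow_succ, I.ord_mul _ _ ih.1 ha0, ih.2.1]
      ring
    · rw [pow_succ, I.lc_mul, ih.2.2, h1, one_mul]

private lemma bas_mono (I : Infty k O) {a : O} (ha0 : a ≠ 0) (h1 : I.lc a = 1) (n : ℕ) {c : k}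
    (hc : c ≠ 0) : aeval a (monomial n c) ≠ 0 ∧ I.ord (aeval a (monomial n c)) = I.ord a * n ∧
      I.lc (aeval a (monomial n c)) = c := by
  obtain ⟨h2, h3, h4⟩ := bas_pow I ha0 h1 n
  rw [aeval_monomial]
  exact ⟨bas_smul_ne I hc h2, by rw [bas_smul_ord I hc h2, h3], by
    rw [bas_smul_lc, h4, mul_one]⟩

private lemma bas_poly (I : Infty k O) {a : O} (ha : 0 < I.ord a) (ha0 : a ≠ 0)
    (h1 : I.lc a = 1) (N : ℕ) : ∀ P : k[X], P.natDegree = N → P ≠ 0 → aeval a P ≠ 0 ∧
      I.ord (aeval a P) = I.ord a * P.natDegree ∧ I.lc (aeval a P) = P.leadingCoeff := by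
  induction N using Nat.strong_induction_on with
  | _ N ih =>
    intro P hN hP
    have hl : P.leadingCoeff ≠ 0 := leadingCoeff_ne_zero.2 hP
    obtain ⟨h2, h3, h4⟩ := bas_mono I ha0 h1 P.natDegree hl
    have h5 : aeval a P = aeval a (monomial P.natDegree P.leadingCoeff) +
        aeval a P.eraseLead := by
      rw [← map_add, add_comm, eraseLead_add_monomial_natDegree_leadingCoeff]
    have h6 : aeval a P.eraseLead = 0 ∨
        I.ord (aeval a P.eraseLead) < I.ord (aeval a (monomial P.natDegree P.leadingCoeff)) := by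
      by_cases h7 : P.eraseLead = 0
      · left
        rw [h7, map_zero]
      · right
        have h8 : P.eraseLead.natDegree < P.natDegree :=
          (eraseLead_natDegree_lt_or_eraseLead_eq_zero P).resolve_right h7
        rw [(ih _ (by omega) P.eraseLead rfl h7).2.1, h3]
        exact Nat.mul_lt_mul_of_pos_left h8 ha
    obtain ⟨h7, h8, h9⟩ := I.dominant h2 h6
    rw [← h5] at h7 h8 h9
    exact ⟨h7, by rw [h8, h3], by rw [h9, h4]⟩

private lemma bas_small (I : Infty k O) {ι : Type} (n : ℕ) (s : Finset ι) (T : ι → O)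
    (h : ∀ r ∈ s, T r = 0 ∨ I.ord (T r) < n) :
    ∑ r ∈ s, T r = 0 ∨ I.ord (∑ r ∈ s, T r) < n := by
  induction s using Finset.induction_on with
  | empty => exact Or.inl rfl
  | insert x s hx ih =>
    rw [Finset.sum_insert hx]
    have h1 := ih fun r hr => h r (Finset.mem_insert_of_mem hr)
    have h2 := h x (Finset.mem_insert_self x s)
    by_cases h3 : ∑ r ∈ s, T r = 0
    · rw [h3, add_zero]
      exact h2
    by_cases h4 : T x = 0
    · rw [h4, zero_add]
      exact h1
    by_cases h5 : T x + ∑ r ∈ s, T r = 0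
    · exact Or.inl h5
    · right
      exact lt_of_le_of_lt (I.ord_add _ _ h4 h3 h5)
        (max_lt (h2.resolve_left h4) (h1.resolve_left h3))

theorem exists_bas (I : Infty k O) {a : O} (ha : 0 < I.ord a) (h1 : I.lc a = 1) :
    ∃ ω, Bas I a ω := by
  have _ := I.isDomain
  have ha0 : a ≠ 0 := by
    rintro rfl
    rw [I.lc_zero] at h1
    exact zero_ne_one h1
  -- the minimal orders
  have hex : ∀ r : Fin (I.ord a), ∃ w : O, w ≠ 0 ∧ I.lc w = 1 ∧ I.ord w % I.ord a = r ∧
      ∀ z, z ≠ 0 → I.ord z % I.ord a = r → I.ord w ≤ I.ord z := by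
    intro r
    have h2 : ∃ n, ∃ z : O, z ≠ 0 ∧ I.ord z = n ∧ n % I.ord a = r := by
      obtain ⟨N, hN⟩ := I.large
      obtain ⟨z, hz, hzo⟩ := hN (I.ord a * N + r) (by
        have := Nat.le_mul_of_pos_left N ha
        omega)
      refine ⟨_, z, hz, hzo, ?_⟩
      rw [Nat.mul_add_mod, Nat.mod_eq_of_lt r.2]
    obtain ⟨z, hz, hzo, hzr⟩ := Nat.find_spec h2
    have hl := I.lc_ne z hz
    refine ⟨algebraMap k O (I.lc z)⁻¹ * z, bas_smul_ne I (inv_ne_zero hl) hz, ?_, ?_, ?_⟩
    · rw [bas_smul_lc, inv_mul_cancel₀ hl]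
    · rw [bas_smul_ord I (inv_ne_zero hl) hz, hzo]
      exact hzr
    · intro z' hz' hr
      rw [bas_smul_ord I (inv_ne_zero hl) hz, hzo]
      exact Nat.find_min' h2 ⟨z', hz', rfl, hr⟩
  choose ω hne hlc hres hmin using hex
  refine ⟨ω, hne, hlc, hres, ?_, ?_⟩
  · -- the span
    have key : ∀ N : ℕ, ∀ z : O, z ≠ 0 → I.ord z = N →
        ∃ P : Fin (I.ord a) → k[X], z = ∑ r, aeval a (P r) * ω r := by
      intro N
      induction N using Nat.strong_induction_on with
      | _ N ih =>
        intro z hz hN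
        set r : Fin (I.ord a) := ⟨I.ord z % I.ord a, Nat.mod_lt _ ha⟩ with hr
        have h2 : I.ord (ω r) ≤ I.ord z := hmin r z hz rfl
        have h3 : I.ord (ω r) % I.ord a = I.ord z % I.ord a := hres r
        obtain ⟨q, hq⟩ : ∃ q, I.ord z = I.ord a * q + I.ord (ω r) := by
          have h4 : I.ord a ∣ I.ord z - I.ord (ω r) := (Nat.modEq_iff_dvd' h2).1 h3
          obtain ⟨q, hq⟩ := h4
          exact ⟨q, by omega⟩
        have hl := I.lc_ne z hz
        obtain ⟨m1, m2, m3⟩ := bas_mono I ha0 h1 q hl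
        have ht0 : aeval a (monomial q (I.lc z)) * ω r ≠ 0 := mul_ne_zero m1 (hne r)
        have hto : I.ord (aeval a (monomial q (I.lc z)) * ω r) = I.ord z := by
          rw [I.ord_mul _ _ m1 (hne r), m2, hq]
        have htl : I.lc (aeval a (monomial q (I.lc z)) * ω r) = I.lc z := by
          rw [I.lc_mul, m3, hlc, mul_one]
        have hsingle : aeval a (monomial q (I.lc z)) * ω r =
            ∑ j, aeval a ((Pi.single r (monomial q (I.lc z)) : Fin (I.ord a) → k[X]) j) *
              ω j := by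
          rw [Finset.sum_eq_single r]
          · rw [Pi.single_eq_same]
          · intro j _ hj
            rw [Pi.single_eq_of_ne hj, map_zero, zero_mul]
          · intro h
            exact absurd (Finset.mem_univ r) h
        by_cases hzt : z = aeval a (monomial q (I.lc z)) * ω r
        · exact ⟨_, hzt.trans hsingle⟩
        · have h4 := I.ord_sub z _ hz ht0 hzt hto.symm htl.symm
          obtain ⟨P, hP⟩ := ih _ (by omega) _ (sub_ne_zero.2 hzt) rfl
          refine ⟨fun j => P j + (Pi.single r (monomial q (I.lc z)) : Fin (I.ord a) → k[X]) j,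
            ?_⟩
          simp only [map_add, add_mul, Finset.sum_add_distrib]
          rw [← hP, ← hsingle]
          ring
    intro z
    by_cases hz : z = 0
    · exact ⟨0, by simp [hz]⟩
    · exact key _ z hz rfl
  · intro P hP
    have hpoly := fun r (hr : P r ≠ 0) => bas_poly I ha ha0 h1 _ (P r) rfl hr
    have hTne : ∀ r, P r ≠ 0 → aeval a (P r) * ω r ≠ 0 := fun r hr =>
      mul_ne_zero (hpoly r hr).1 (hne r)
    have hTo : ∀ r, P r ≠ 0 → I.ord (aeval a (P r) * ω r) =
        I.ord a * (P r).natDegree + I.ord (ω r) := by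
      intro r hr
      rw [I.ord_mul _ _ (hpoly r hr).1 (hne r), (hpoly r hr).2.1]
    have hTl : ∀ r, P r ≠ 0 → I.lc (aeval a (P r) * ω r) = (P r).leadingCoeff := by
      intro r hr
      rw [I.lc_mul, (hpoly r hr).2.2, hlc, mul_one]
    obtain ⟨r₁, hr₁⟩ : ∃ r, P r ≠ 0 := by
      by_contra h
      push Not at h
      exact hP (funext h)
    obtain ⟨r₀, hr₀, hmax⟩ := Finset.exists_max_image
      (Finset.univ.filter fun r => P r ≠ 0) (fun r => I.ord (aeval a (P r) * ω r))
      ⟨r₁, by simp [hr₁]⟩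
    have hr₀' : P r₀ ≠ 0 := (Finset.mem_filter.1 hr₀).2
    have hmax' : ∀ r, P r ≠ 0 → I.ord (aeval a (P r) * ω r) ≤ I.ord (aeval a (P r₀) * ω r₀) :=
      fun r hr => hmax r (by simp [hr])
    have hsmall := bas_small I (I.ord (aeval a (P r₀) * ω r₀)) (Finset.univ.erase r₀)
      (fun r => aeval a (P r) * ω r) (by
        intro r hr
        by_cases hPr : P r = 0
        · left
          rw [hPr, map_zero, zero_mul]
        · right
          refine lt_of_le_of_ne (hmax' r hPr) fun h => ?_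
          rw [hTo r hPr, hTo r₀ hr₀'] at h
          have h2 : (I.ord a * (P r).natDegree + I.ord (ω r)) % I.ord a =
            (I.ord a * (P r₀).natDegree + I.ord (ω r₀)) % I.ord a := by rw [h]
          rw [Nat.mul_add_mod, Nat.mul_add_mod, hres, hres] at h2
          exact (Finset.mem_erase.1 hr).1 (Fin.ext h2))
    have hsum : aeval a (P r₀) * ω r₀ + ∑ r ∈ Finset.univ.erase r₀, aeval a (P r) * ω r =
        ∑ r, aeval a (P r) * ω r := 
      Finset.add_sum_erase Finset.univ (fun r => aeval a (P r) * ω r) (Finset.mem_univ r₀)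
    obtain ⟨d1, d2, d3⟩ := I.dominant (hTne r₀ hr₀') hsmall
    rw [hsum] at d1 d2 d3
    refine ⟨d1, ⟨r₀, hr₀', ?_, ?_⟩, ?_⟩
    · rw [d2, hTo r₀ hr₀']
    · rw [d3, hTl r₀ hr₀']
    · intro r hr
      rw [d2, ← hTo r hr]
      exact hmax' r hr

end Pool.Agent.PTate
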