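import Pool.Agent.PTate.Cyc

/-!
# Cyclic coverings from their equation
-/

set_option autoImplicit false

noncomputable section

namespace Pool.Agent.PTate

open Polynomial
open scoped Classical

variable {k O : Type} [Field k] [CommRing O] [Algebra k O] {p : ℕ} {ζ : k}
  [IsDedekindDomain O] [IsAlgClosed k]

omit [IsDedekindDomain O] [IsAlgClosed k] in
private theorem build_one (I : Infty k O) : I.ord 1 = 0 ∧ I.lc 1 = 1 := by
  have h1 := I.ord_c 1
  have h2 := I.lc_c 1
  rw [map_one] at h1 h2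
  exact ⟨h1, h2⟩

omit [IsAlgClosed k] in
private theorem build_pow (I : Infty k O) {z : O} (hz : z ≠ 0) (n : ℕ) :
    I.ord (z ^ n) = n * I.ord z ∧ I.lc (z ^ n) = I.lc z ^ n := by
  induction n with
  | zero =>
    rw [pow_zero, pow_zero, zero_mul]
    exact build_one I
  | succ n ih =>
    rw [pow_succ, I.ord_mul _ _ (pow_ne_zero n hz) hz, I.lc_mul, ih.1, ih.2, pow_succ]
    exact ⟨by ring, rfl⟩

omit [IsDedekindDomain O] [IsAlgClosed k] in
private theorem build_sub (I : Infty k O) {x : O} (hx : 0 < I.ord x) (c : k) :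
    x - algebraMap k O c ≠ 0 ∧ I.ord (x - algebraMap k O c) = I.ord x := by
  have hx0 : x ≠ 0 := by
    rintro rfl
    have h := I.ord_c 0
    rw [map_zero] at h
    omega
  have h1 : -algebraMap k O c = 0 ∨ I.ord (-algebraMap k O c) < I.ord x := by
    right
    rw [← map_neg, I.ord_c]
    exact hx
  have h2 := I.dominant hx0 h1
  rw [← sub_eq_add_neg] at h2
  exact ⟨h2.1, h2.2.1⟩

omit [IsDedekindDomain O] [IsAlgClosed k] in
private theorem build_mem_C (P : MaximalSpectrum O) {c : k} (h : algebraMap k O c ∈ P.asIdeal) :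
    c = 0 := by
  by_contra hc
  apply P.isMaximal.ne_top
  rw [Ideal.eq_top_iff_one]
  have h1 := P.asIdeal.mul_mem_left (algebraMap k O c⁻¹) h
  rwa [← map_mul, inv_mul_cancel₀ hc, map_one] at h1

omit [IsDedekindDomain O] [IsAlgClosed k] in
private theorem build_idl_sum {ι : Type} (S : Finset ι) (s : ι → Multiset (MaximalSpectrum O)) :
    idl (∑ i ∈ S, s i) = ∏ i ∈ S, idl (s i) := by
  induction S using Finset.induction_on with
  | empty =>
    rw [Finset.sum_empty, Finset.prod_empty, idl_zero, Ideal.one_eq_top]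
  | insert i S hi ih =>
    rw [Finset.sum_insert hi, Finset.prod_insert hi, idl_add, ih]

/-- There is exactly one point over `x = b i`, and `y` has a zero of the order `m i` there. -/
theorem exists_points (I : Infty k O) [Fact p.Prime] {x y : O} (hx : I.ord x = p) {ι : Type}
    (S : Finset ι) (b : ι → k) (m : ι → ℕ) (hb : Set.InjOn b S)
    (hm : ∀ i ∈ S, (m i).Coprime p)
    (hy : y ^ p = ∏ i ∈ S, (x - algebraMap k O (b i)) ^ m i) :
    ∃ P : ι → MaximalSpectrum O,
      (∀ i ∈ S, Ideal.span {x - algebraMap k O (b i)} = idl (p • {P i})) ∧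
      Set.InjOn P S ∧ Ideal.span {y} = idl (∑ i ∈ S, m i • {P i}) := by
  have hp : p.Prime := Fact.out
  have hx0 : 0 < I.ord x := by
    rw [hx]
    exact hp.pos
  have h1 : ∀ i, ∃ s : Multiset (MaximalSpectrum O),
      idl s = Ideal.span {x - algebraMap k O (b i)} := fun i =>
    exists_idl I (by
      rw [Ne, Ideal.span_singleton_eq_bot]
      exact (build_sub I hx0 (b i)).1)
  choose s hs using h1
  have hcard : ∀ i, Multiset.card (s i) = p := by
    intro i
    rw [card_eq I (hs i).symm, (build_sub I hx0 (b i)).2, hx]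
  have hdis : ∀ i ∈ S, ∀ j ∈ S, ∀ P, P ∈ s i → P ∈ s j → i = j := by
    intro i hi j hj P h2 h3
    rw [mem_iff I (hs i).symm] at h2
    rw [mem_iff I (hs j).symm] at h3
    have h4 := P.asIdeal.sub_mem h2 h3
    rw [sub_sub_sub_cancel_left, ← map_sub] at h4
    have h5 := build_mem_C P h4
    exact (hb hj hi (sub_eq_zero.1 h5)).symm
  have hy0 : y ≠ 0 := by
    rintro rfl
    rw [zero_pow hp.ne_zero] at hy
    obtain ⟨i, -, hi⟩ := Finset.prod_eq_zero_iff.1 hy.symm
    exact (build_sub I hx0 (b i)).1 (eq_zero_of_pow_eq_zero hi)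
  obtain ⟨t, ht⟩ := exists_idl I (A := Ideal.span {y}) (by
    rw [Ne, Ideal.span_singleton_eq_bot]
    exact hy0)
  have hpt : p • t = ∑ i ∈ S, m i • s i := by
    apply idl_injective I
    rw [idl_nsmul, ht, Ideal.span_singleton_pow, hy, build_idl_sum, ← Ideal.prod_span_singleton]
    refine Finset.prod_congr rfl fun i _ => ?_
    rw [idl_nsmul, hs, Ideal.span_singleton_pow]
  have hcount : ∀ i ∈ S, ∀ P ∈ s i, p * t.count P = m i * (s i).count P := by
    intro i hi P hP
    have h2 := congrArg (Multiset.count P) hpt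
    rw [Multiset.count_nsmul, Multiset.count_sum', Finset.sum_eq_single i] at h2
    · rw [h2, Multiset.count_nsmul]
    · intro j hj hne
      rw [Multiset.count_nsmul, Multiset.count_eq_zero_of_notMem, mul_zero]
      intro h3
      exact hne (hdis j hj i hi P h3 hP)
    · intro h3
      exact absurd hi h3
  have hex : ∀ i, ∃ P : MaximalSpectrum O, i ∈ S → s i = p • {P} := by
    intro i
    obtain ⟨P, hP⟩ : ∃ P, P ∈ s i := Multiset.card_pos_iff_exists_mem.1 (by
      rw [hcard]
      exact hp.pos)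
    refine ⟨P, fun hi => ?_⟩
    have h2 : p ∣ m i * (s i).count P := ⟨_, (hcount i hi P hP).symm⟩
    have h3 : p ∣ (s i).count P := Nat.Coprime.dvd_of_dvd_mul_left (hm i hi).symm h2
    have h4 : p ≤ (s i).count P := Nat.le_of_dvd (Multiset.count_pos.2 hP) h3
    rw [Multiset.nsmul_singleton]
    have h5 : Multiset.replicate p P ≤ s i := Multiset.le_count_iff_replicate_le.1 h4
    exact (Multiset.eq_of_le_of_card_le h5 (by rw [hcard, Multiset.card_replicate])).symm
  choose P hP using hex
  refine ⟨P, fun i hi => ?_, fun i hi j hj h => ?_, ?_⟩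
  · rw [← hs, hP i hi]
  · have h2 : ∀ l ∈ S, P l ∈ s l := by
      intro l hl
      rw [hP l hl, Multiset.nsmul_singleton]
      exact Multiset.mem_replicate.2 ⟨hp.ne_zero, rfl⟩
    have h3 := h2 i hi
    rw [h] at h3
    exact hdis i hi j hj (P j) h3 (h2 j hj)
  · rw [← ht]
    congr 1
    have h2 : p • t = p • ∑ i ∈ S, m i • ({P i} : Multiset (MaximalSpectrum O)) := by
      rw [hpt, Finset.smul_sum]
      refine Finset.sum_congr rfl fun i hi => ?_
      rw [hP i hi, smul_comm]
    ext Q
    have h3 := congrArg (Multiset.count Q) h2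
    rw [Multiset.count_nsmul, Multiset.count_nsmul] at h3
    exact Nat.eq_of_mul_eq_mul_left hp.pos h3

theorem exists_cyc_of (I : Infty k O) [Fact p.Prime] (hζ : IsPrimitiveRoot ζ p) {x y : O}
    (hx : I.ord x = p) (lx : I.lc x = 1) (ly : I.lc y = 1) (hxy : (I.ord y).Coprime p)
    (σ : O ≃ₐ[k] O) (hσx : σ x = x) (hσy : σ y = algebraMap k O ζ * y)
    (hσ : ∀ z, σ^[p] z = z) (hinv : ∀ z, σ z = z → ∃ h : k[X], aeval x h = z) {ι : Type}
    (S : Finset ι) (b : ι → k) (m : ι → ℕ) (hb : Set.InjOn b S)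
    (hm : ∀ i ∈ S, (m i).Coprime p)
    (hy : y ^ p = ∏ i ∈ S, (x - algebraMap k O (b i)) ^ m i) :
    ∃ C : Cyc k O p ζ, C.I = I ∧ C.x = x ∧ C.y = y ∧ C.σ = σ ∧
      ∃ P : ι → MaximalSpectrum O, C.F = S.image P ∧ Set.InjOn P S ∧
        ∀ i ∈ S, C.m (P i) = m i ∧ C.xc (P i) = b i := by
  have hp : p.Prime := Fact.out
  obtain ⟨P, hP1, hP2, hP3⟩ := exists_points I hx S b m hb hm hy
  obtain ⟨e, -, he⟩ := Nat.exists_mul_mod_eq_one_of_coprime hxy hp.one_lt
  have hy0 : y ≠ 0 := ne_zero_of_span I hP3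
  have hx0 : x ≠ 0 := by
    rintro rfl
    rw [I.lc_zero] at lx
    exact zero_ne_one lx
  have hmem : ∀ i ∈ S, x - algebraMap k O (b i) ∈ (P i).asIdeal := by
    intro i hi
    rw [← mem_iff I (hP1 i hi), Multiset.nsmul_singleton]
    exact Multiset.mem_replicate.2 ⟨hp.ne_zero, rfl⟩
  let m' : MaximalSpectrum O → ℕ := fun Q => if h : ∃ i ∈ S, P i = Q then m h.choose else 0
  have hm' : ∀ i ∈ S, m' (P i) = m i := by
    intro i hi
    have h : ∃ j ∈ S, P j = P i := ⟨i, hi, rfl⟩
    simp only [m']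
    rw [dif_pos h, hP2 h.choose_spec.1 hi h.choose_spec.2]
  have hord : ∀ z, I.ord (σ z) = I.ord z := by
    intro z
    by_cases hz : z = 0
    · rw [hz, map_zero]
    obtain ⟨s, hs⟩ := exists_idl I (A := Ideal.span {z}) (by
      rw [Ne, Ideal.span_singleton_eq_bot]
      exact hz)
    have h1 := span_mv (σ : O ≃+* O) hs.symm
    have h2 := card_eq I h1
    have h3 := card_eq I hs.symm
    rw [Multiset.card_map] at h2
    exact h2.symm.trans h3
  have hlc : ∀ z, I.lc (σ z) = ζ ^ (e * I.ord z) * I.lc z := by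
    intro z
    by_cases hz : z = 0
    · rw [hz, map_zero, I.lc_zero, mul_zero]
    obtain ⟨n, hn⟩ : ∃ n, I.ord z = n := ⟨_, rfl⟩
    obtain ⟨d, hd⟩ : ∃ d, I.ord y = d := ⟨_, rfl⟩
    have hd0 : 0 < d := by
      rw [← hd]
      rcases Nat.eq_zero_or_pos (I.ord y) with h | h
      · rw [h, Nat.coprime_zero_left] at hxy
        exact absurd hxy hp.ne_one
      · exact h
    have hdvd : p ∣ d * (e * n + p * n) - n := by
      rw [hd] at he
      have h1 : n ≤ d * (e * n + p * n) := by
        calc n ≤ p * n := Nat.le_mul_of_pos_left n hp.pos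
          _ ≤ e * n + p * n := Nat.le_add_left _ _
          _ ≤ d * (e * n + p * n) := Nat.le_mul_of_pos_left _ hd0
      have h2 : d * (e * n + p * n) ≡ n [MOD p] := by
        have h3 : d * e ≡ 1 [MOD p] := by
          show (d * e) % p = 1 % p
          rw [he, Nat.mod_eq_of_lt hp.one_lt]
        have h4 : d * (e * n + p * n) = d * e * n + p * (d * n) := by ring
        rw [h4]
        have h5 : d * e * n + p * (d * n) ≡ 1 * n + 0 [MOD p] :=
          Nat.ModEq.add (Nat.ModEq.mul_right n h3) ((Nat.modEq_zero_iff_dvd).2 ⟨_, rfl⟩)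
        rwa [one_mul, add_zero] at h5
      exact (Nat.modEq_iff_dvd' h1).1 h2.symm
    obtain ⟨a, ha⟩ := hdvd
    have hab : n + p * a = (e * n + p * n) * d := by
      have h1 : n ≤ d * (e * n + p * n) := by
        calc n ≤ p * n := Nat.le_mul_of_pos_left n hp.pos
          _ ≤ e * n + p * n := Nat.le_add_left _ _
          _ ≤ d * (e * n + p * n) := Nat.le_mul_of_pos_left _ hd0
      rw [← ha, Nat.add_sub_cancel' h1, mul_comm]
    obtain ⟨B, hB⟩ : ∃ B, e * n + p * n = B := ⟨_, rfl⟩
    rw [hB] at hab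
    have hxa := pow_ne_zero a hx0
    have hyB := pow_ne_zero B hy0
    -- the two functions
    have hCn : ∀ c : k, c ≠ 0 → algebraMap k O c ≠ 0 := by
      intro c hc h0
      have h1 := I.lc_c c
      rw [h0, I.lc_zero] at h1
      exact hc h1.symm
    have o1 : I.ord (z * x ^ a) = n + p * a := by
      rw [I.ord_mul _ _ hz hxa, (build_pow I hx0 a).1, hn, hx, mul_comm a p]
    have l1 : I.lc (z * x ^ a) = I.lc z := by
      rw [I.lc_mul, (build_pow I hx0 a).2, lx, one_pow, mul_one]
    have o2 : ∀ c : k, c ≠ 0 → I.ord (algebraMap k O c * y ^ B) = n + p * a := by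
      intro c hc
      rw [I.ord_mul _ _ (hCn c hc) hyB, I.ord_c, (build_pow I hy0 B).1, hd, hab, zero_add]
    have l2 : ∀ c : k, I.lc (algebraMap k O c * y ^ B) = c := by
      intro c
      rw [I.lc_mul, I.lc_c, (build_pow I hy0 B).2, ly, one_pow, mul_one]
    have hlz := I.lc_ne z hz
    have hζ0 : ζ ≠ 0 := hζ.ne_zero hp.ne_zero
    have hzx := mul_ne_zero hz hxa
    have hcy := mul_ne_zero (hCn _ hlz) hyB
    have hu : z * x ^ a - algebraMap k O (I.lc z) * y ^ B = 0 ∨
        I.ord (z * x ^ a - algebraMap k O (I.lc z) * y ^ B) < n + p * a := by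
      by_cases h0 : z * x ^ a = algebraMap k O (I.lc z) * y ^ B
      · left
        rw [h0, sub_self]
      · right
        rw [← o1]
        exact I.ord_sub _ _ hzx hcy h0 (by rw [o1, o2 _ hlz]) (by rw [l1, l2])
    have hσB : algebraMap k O (I.lc z * ζ ^ B) * y ^ B =
        σ (algebraMap k O (I.lc z) * y ^ B) := by
      rw [map_mul σ, map_pow σ, AlgEquiv.commutes, hσy, mul_pow, map_mul, map_pow]
      ring
    have hc' : I.lc z * ζ ^ B ≠ 0 := mul_ne_zero hlz (pow_ne_zero _ hζ0)
    have hdom := I.dominant (z := algebraMap k O (I.lc z * ζ ^ B) * y ^ B)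
      (w := σ (z * x ^ a - algebraMap k O (I.lc z) * y ^ B))
      (mul_ne_zero (hCn _ hc') hyB) (by
        rw [hord, o2 _ hc']
        rcases hu with h | h
        · left
          rw [h, map_zero]
        · exact Or.inr h)
    have h3 : algebraMap k O (I.lc z * ζ ^ B) * y ^ B +
        σ (z * x ^ a - algebraMap k O (I.lc z) * y ^ B) = σ z * x ^ a := by
      rw [hσB, map_sub, map_mul σ z, map_pow, hσx]
      ring
    rw [h3, l2, I.lc_mul, (build_pow I hx0 a).2, lx, one_pow, mul_one] at hdom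
    rw [hdom.2.2, hn, ← hB, pow_add, pow_mul ζ p n, hζ.pow_eq_one, one_pow, mul_one, mul_comm]
  have hmF : ∀ Q, Q ∈ S.image P ↔ mv (σ : O ≃+* O) Q = Q := by
    intro Q
    constructor
    · intro hQ
      obtain ⟨i, hi, rfl⟩ := Finset.mem_image.1 hQ
      have h1 := span_mv (σ : O ≃+* O) (hP1 i hi)
      have h2 : (σ : O ≃+* O) (x - algebraMap k O (b i)) = x - algebraMap k O (b i) := by
        show σ _ = _
        rw [map_sub, hσx, AlgEquiv.commutes]
      rw [h2, hP1 i hi] at h1
      have h3 := idl_injective I h1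
      rw [Multiset.map_nsmul, Multiset.map_singleton, Multiset.nsmul_singleton,
        Multiset.nsmul_singleton] at h3
      have h4 : P i ∈ Multiset.replicate p (P i) := Multiset.mem_replicate.2 ⟨hp.ne_zero, rfl⟩
      rw [h3] at h4
      exact (Multiset.eq_of_mem_replicate h4).symm
    · intro hQ
      have h1 : ∀ z, σ z ∈ Q.asIdeal ↔ z ∈ Q.asIdeal := by
        intro z
        have h2 := mem_mv (σ : O ≃+* O) Q z
        rwa [hQ] at h2
      have h2 : y - algebraMap k O (pv I Q y) ∈ Q.asIdeal := by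
        rw [← pv_eq_zero I, map_sub, AlgHom.commutes]
        exact sub_self _
      have h3 := (h1 _).2 h2
      rw [map_sub, hσy, AlgEquiv.commutes, ← pv_eq_zero I, map_sub, map_mul, AlgHom.commutes,
        AlgHom.commutes] at h3
      have h4 : (ζ - 1) * pv I Q y = 0 := by
        have h5 : (algebraMap k k) ζ * pv I Q y - (algebraMap k k) (pv I Q y) = 0 := h3
        simp only [Algebra.algebraMap_self, RingHom.id_apply] at h5
        linear_combination h5
      have h5 : pv I Q y = 0 :=
        (mul_eq_zero.1 h4).resolve_left (sub_ne_zero.2 (hζ.ne_one hp.one_lt))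
      rw [pv_eq_zero, ← mem_iff I hP3, Multiset.mem_sum] at h5
      obtain ⟨i, hi, h6⟩ := h5
      have h7 := Multiset.mem_of_mem_nsmul h6
      rw [Multiset.mem_singleton] at h7
      exact Finset.mem_image.2 ⟨i, hi, h7.symm⟩
  refine ⟨{ I := I, x := x, y := y, σ := σ, e := e, F := S.image P, m := m', prim := hζ,
            pow := hσ, inv := hinv, σx := hσx, σy := hσy, ord_x := hx, lc_x := lx, lc_y := ly,
            span_y := ?_, cop := ?_, mem_F := hmF, ord_σ := hord, lc_σ := hlc,
            he := by rw [mul_comm]; exact he }, rfl, rfl, rfl, rfl, P, rfl, hP2,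
            fun i hi => ⟨hm' i hi, ?_⟩⟩
  · rw [hP3, Finset.sum_image hP2]
    congr 1
    exact Finset.sum_congr rfl fun i hi => by rw [hm' i hi]
  · intro Q hQ
    obtain ⟨i, hi, rfl⟩ := Finset.mem_image.1 hQ
    rw [hm' i hi]
    exact hm i hi
  · show pv I (P i) x = b i
    have h1 := (pv_eq_zero I (P i) _).2 (hmem i hi)
    rw [map_sub, AlgHom.commutes] at h1
    exact sub_eq_zero.1 h1

end Pool.Agent.PTate
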