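import Mathlib

/-!
# The cokernel of a matrix of polynomials
-/

set_option autoImplicit false

noncomputable section

namespace Pool.Agent.PTate

open Polynomial
open scoped Classical

variable {k : Type} [Field k]

/-- The row space of a matrix of polynomials. -/
abbrev rows {α : ℕ} (N : Matrix (Fin α) (Fin α) k[X]) : Submodule k[X] (Fin α → k[X]) :=
  LinearMap.range N.vecMulLinear

/-- The multiplication by `X` on the quotient by the row space. -/
def mulX {α : ℕ} (N : Matrix (Fin α) (Fin α) k[X]) :
    ((Fin α → k[X]) ⧸ rows N) →ₗ[k] ((Fin α → k[X]) ⧸ rows N) where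
  toFun v := (X : k[X]) • v
  map_add' := by intro v w; rw [smul_add]
  map_smul' := by
    intro c v
    simp only [RingHom.id_apply]
    rw [smul_comm]

/-- multiplication by `X` on a cyclic module -/
private def Coker_mul (a : k[X]) :
    (k[X] ⧸ (Ideal.span {a} : Ideal k[X])) →ₗ[k] (k[X] ⧸ (Ideal.span {a} : Ideal k[X])) where
  toFun v := (X : k[X]) • v
  map_add' := by intro v w; rw [smul_add]
  map_smul' := by
    intro c v
    simp only [RingHom.id_apply]
    rw [smul_comm]

private lemma Coker_one (a : k[X]) (ha : a ≠ 0) :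
    Module.Finite k (k[X] ⧸ (Ideal.span {a} : Ideal k[X])) ∧
    Module.finrank k (k[X] ⧸ (Ideal.span {a} : Ideal k[X])) = a.natDegree ∧
    LinearMap.det (Coker_mul a) * a.leadingCoeff = (-1) ^ a.natDegree * a.coeff 0 := by
  have hfin : Module.Finite k (AdjoinRoot a) := (AdjoinRoot.powerBasis ha).finite
  refine ⟨hfin, ?_, ?_⟩
  · have h1 := (AdjoinRoot.powerBasis ha).finrank
    rw [AdjoinRoot.powerBasis_dim] at h1
    exact h1
  · have h1 := Algebra.PowerBasis.norm_gen_eq_coeff_zero_minpoly (AdjoinRoot.powerBasis ha)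
    rw [AdjoinRoot.powerBasis_dim, AdjoinRoot.powerBasis_gen, AdjoinRoot.minpoly_root ha,
      Algebra.norm_apply, coeff_mul_C] at h1
    have h2 : Coker_mul a = Algebra.lmul k (AdjoinRoot a) (AdjoinRoot.root a) :=
      LinearMap.ext fun v => by
        refine Submodule.Quotient.induction_on _ v fun b => ?_
        show Submodule.Quotient.mk (X • b) = AdjoinRoot.mk a X * AdjoinRoot.mk a b
        rw [← map_mul, smul_eq_mul]
        rfl
    have h4 : LinearMap.det (Coker_mul a) =
        (-1) ^ a.natDegree * (a.coeff 0 * a.leadingCoeff⁻¹) :=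
      (congrArg (LinearMap.det (M := AdjoinRoot a)) h2).trans h1
    have h3 : a.leadingCoeff ≠ 0 := leadingCoeff_ne_zero.2 ha
    rw [h4, mul_assoc, mul_assoc, inv_mul_cancel₀ h3, mul_one]

/-- determinant of a diagonal map on a product -/
private lemma Coker_pi : ∀ (n : ℕ) (V : Fin n → Type) [∀ i, AddCommGroup (V i)]
    [∀ i, Module k (V i)] [∀ i, Module.Finite k (V i)] (f : ∀ i, V i →ₗ[k] V i),
    LinearMap.det (LinearMap.pi fun i => f i ∘ₗ LinearMap.proj i) = ∏ i, LinearMap.det (f i) := by
  intro n
  induction n with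
  | zero =>
    intro V _ _ _ f
    rw [Fin.prod_univ_zero]
    haveI : Subsingleton (∀ i : Fin 0, V i) := inferInstance
    exact LinearMap.det_eq_one_of_subsingleton _
  | succ n ih =>
    intro V _ _ _ f
    rw [Fin.prod_univ_succ, ← ih (fun i => V i.succ) (fun i => f i.succ), ← LinearMap.det_prodMap,
      ← LinearMap.det_conj _ (Fin.consLinearEquiv k V)]
    congr 1
    refine LinearMap.ext fun v => funext fun i => ?_
    refine Fin.cases ?_ (fun i => ?_) i
    · rfl
    · rfl

/-- The quotient of `k[X] ^ α` by the rows of `N` has the dimension `deg det N`, and the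
determinant of the multiplication by `X` is, up to the sign, the value of `det N` at `0` divided by
its leading coefficient. -/
theorem det_coker {α : ℕ} (N : Matrix (Fin α) (Fin α) k[X]) (hN : N.det ≠ 0) :
    Module.Finite k ((Fin α → k[X]) ⧸ rows N) ∧
    Module.finrank k ((Fin α → k[X]) ⧸ rows N) = N.det.natDegree ∧
    LinearMap.det (mulX N) * N.det.leadingCoeff = (-1) ^ N.det.natDegree * N.det.coeff 0 := by
  have hinj : Function.Injective N.vecMulLinear := by
    rw [injective_iff_map_eq_zero]
    intro v hv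
    exact Matrix.eq_zero_of_vecMul_eq_zero hN hv
  set e0 : (Fin α → k[X]) ≃ₗ[k[X]] rows N := LinearEquiv.ofInjective N.vecMulLinear hinj with he0
  have h : Module.finrank k[X] (rows N) = Module.finrank k[X] (Fin α → k[X]) :=
    e0.symm.finrank_eq
  set b := Pi.basisFun k[X] (Fin α) with hb
  set a := Submodule.smithNormalFormCoeffs b h with ha
  set b' := Submodule.smithNormalFormTopBasis b h with hb'
  set ab := Submodule.smithNormalFormBotBasis b h with hab
  have ab_eq : ∀ i, ((ab i : rows N) : Fin α → k[X]) = a i • b' i :=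
    Submodule.smithNormalFormBotBasis_def b h
  have ha0 : ∀ i, a i ≠ 0 := Submodule.smithNormalFormCoeffs_ne_zero b h
  set e' : (Fin α → k[X]) ≃ₗ[k[X]] rows N := b'.equiv ab (Equiv.refl _) with he'
  have hdet0 : LinearMap.det ((rows N).subtype ∘ₗ (e0 : (Fin α → k[X]) →ₗ[k[X]] rows N)) =
      N.det := by
    have h1 : (rows N).subtype ∘ₗ (e0 : (Fin α → k[X]) →ₗ[k[X]] rows N) = N.vecMulLinear :=
      LinearMap.ext fun v => rfl
    rw [h1, ← Matrix.mulVecLin_transpose, ← Matrix.toLin'_apply', LinearMap.det_toLin',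
      Matrix.det_transpose]
  have hdet1 : LinearMap.det ((rows N).subtype ∘ₗ (e' : (Fin α → k[X]) →ₗ[k[X]] rows N)) =
      ∏ i, a i := by
    rw [← LinearMap.det_toMatrix b', ← Matrix.det_diagonal]
    congr 1
    ext1 i j
    have h1 : ((rows N).subtype ∘ₗ (e' : (Fin α → k[X]) →ₗ[k[X]] rows N)) (b' j) = a j • b' j := by
      show ((e' (b' j) : rows N) : Fin α → k[X]) = _
      rw [he', Module.Basis.equiv_apply, Equiv.refl_apply]
      exact ab_eq j
    rw [LinearMap.toMatrix_apply, h1, map_smul, Module.Basis.repr_self, Finsupp.smul_single,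
      smul_eq_mul, mul_one]
    by_cases hij : i = j
    · rw [hij, Matrix.diagonal_apply_eq, Finsupp.single_eq_same]
    · rw [Matrix.diagonal_apply_ne _ hij, Finsupp.single_eq_of_ne hij]
  have hass : Associated (∏ i, a i) N.det := by
    have h1 := LinearMap.associated_det_comp_equiv (rows N).subtype e' e0
    rwa [hdet0, hdet1] at h1
  obtain ⟨u, hu⟩ := hass
  obtain ⟨c, hc, hcu⟩ := Polynomial.isUnit_iff.1 u.isUnit
  have hc0 : c ≠ 0 := hc.ne_zero
  rw [← hcu] at hu
  set E := ((rows N).quotientEquivPiSpan b h).restrictScalars k with hE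
  have hfin : ∀ i, Module.Finite k (k[X] ⧸ (Ideal.span {a i} : Ideal k[X])) := fun i =>
    (Coker_one (a i) (ha0 i)).1
  have hdegN : N.det.natDegree = ∑ i, (a i).natDegree := by
    rw [← hu, natDegree_mul_C hc0, natDegree_prod _ _ fun i _ => ha0 i]
  refine ⟨Module.Finite.equiv E.symm, ?_, ?_⟩
  · rw [hdegN, E.finrank_eq, Module.finrank_pi_fintype]
    exact Finset.sum_congr rfl fun i _ => (Coker_one (a i) (ha0 i)).2.1
  · have h1 : LinearMap.det (mulX N) = ∏ i, LinearMap.det (Coker_mul (a i)) := by
      rw [← Coker_pi α _ fun i => Coker_mul (a i), ← LinearMap.det_conj (mulX N) E]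
      congr 1
      refine LinearMap.ext fun v => ?_
      show E ((X : k[X]) • E.symm v) = _
      have h2 : ∀ w, E ((X : k[X]) • w) = (X : k[X]) • E w := fun w =>
        ((rows N).quotientEquivPiSpan b h).map_smul X w
      rw [h2, LinearEquiv.apply_symm_apply]
      rfl
    have h3 : ∏ i, (LinearMap.det (Coker_mul (a i)) * (a i).leadingCoeff) =
        ∏ i, ((-1) ^ (a i).natDegree * (a i).coeff 0) :=
      Finset.prod_congr rfl fun i _ => (Coker_one (a i) (ha0 i)).2.2
    rw [Finset.prod_mul_distrib, Finset.prod_mul_distrib, Finset.prod_pow_eq_pow_sum,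
      ← hdegN] at h3
    have h4 : N.det.leadingCoeff = (∏ i, (a i).leadingCoeff) * c := by
      rw [← hu, leadingCoeff_mul, leadingCoeff_prod, leadingCoeff_C]
    have h5 : N.det.coeff 0 = (∏ i, (a i).coeff 0) * c := by
      rw [← hu, coeff_mul_C, coeff_zero_prod]
    rw [h1, h4, h5, ← mul_assoc, h3, mul_assoc]

end Pool.Agent.PTate
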