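import Pool.Agent.PTate.Cyc

/-!
# The norm to the polynomials in `x`
-/

set_option autoImplicit false

noncomputable section

namespace Pool.Agent.PTate

open Polynomial
open scoped Classical

variable {k O : Type} [Field k] [CommRing O] [Algebra k O] {p : ℕ} {ζ : k}

private theorem cy1_lc_one (C : Cyc k O p ζ) : C.I.lc 1 = 1 := by
  have h := C.I.lc_c 1
  rwa [map_one] at h

private theorem cy1_ord_one (C : Cyc k O p ζ) : C.I.ord 1 = 0 := by
  have h := C.I.ord_c 1
  rwa [map_one] at h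

private theorem cy1_ne {I : Infty k O} {z : O} (h : I.lc z ≠ 0) : z ≠ 0 := by
  rintro rfl
  exact h I.lc_zero

private theorem cy1_xpow (C : Cyc k O p ζ) (n : ℕ) :
    C.x ^ n ≠ 0 ∧ C.I.ord (C.x ^ n) = p * n ∧ C.I.lc (C.x ^ n) = 1 := by
  induction n with
  | zero =>
    rw [pow_zero, cy1_ord_one, cy1_lc_one]
    exact ⟨cy1_ne (I := C.I) (by rw [cy1_lc_one]; exact one_ne_zero), by simp, rfl⟩
  | succ n ih =>
    obtain ⟨h1, h2, h3⟩ := ih
    have hx : C.x ≠ 0 := cy1_ne (I := C.I) (by rw [C.lc_x]; exact one_ne_zero)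
    have hl : C.I.lc (C.x ^ (n + 1)) = 1 := by
      rw [pow_succ, C.I.lc_mul, h3, C.lc_x, one_mul]
    refine ⟨cy1_ne (I := C.I) (by rw [hl]; exact one_ne_zero), ?_, hl⟩
    rw [pow_succ, C.I.ord_mul _ _ h1 hx, h2, C.ord_x]
    ring

private theorem cy1_mono (C : Cyc k O p ζ) (n : ℕ) {c : k} (hc : c ≠ 0) :
    aeval C.x (monomial n c) ≠ 0 ∧ C.I.ord (aeval C.x (monomial n c)) = p * n ∧
      C.I.lc (aeval C.x (monomial n c)) = c := by
  obtain ⟨h1, h2, h3⟩ := cy1_xpow C n
  rw [aeval_monomial]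
  have hl : C.I.lc (algebraMap k O c * C.x ^ n) = c := by
    rw [C.I.lc_mul, C.I.lc_c, h3, mul_one]
  have hc' : algebraMap k O c ≠ 0 := cy1_ne (I := C.I) (by rw [C.I.lc_c]; exact hc)
  refine ⟨cy1_ne (I := C.I) (by rw [hl]; exact hc), ?_, hl⟩
  rw [C.I.ord_mul _ _ hc' h1, C.I.ord_c, h2, zero_add]

theorem Cyc.aeval_ord (C : Cyc k O p ζ) [Fact p.Prime] {h : k[X]} (hh : h ≠ 0) :
    aeval C.x h ≠ 0 ∧ C.I.ord (aeval C.x h) = p * h.natDegree ∧
      C.I.lc (aeval C.x h) = h.leadingCoeff := by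
  have hp : 0 < p := (Fact.out : p.Prime).pos
  induction hn : h.natDegree using Nat.strong_induction_on generalizing h with
  | _ n ih =>
    have hlc : h.leadingCoeff ≠ 0 := leadingCoeff_ne_zero.2 hh
    obtain ⟨m1, m2, m3⟩ := cy1_mono C h.natDegree hlc
    have hsum : aeval C.x h = aeval C.x (monomial h.natDegree h.leadingCoeff) +
        aeval C.x h.eraseLead := by
      rw [← map_add, add_comm, eraseLead_add_monomial_natDegree_leadingCoeff]
    have hw : aeval C.x h.eraseLead = 0 ∨ C.I.ord (aeval C.x h.eraseLead) <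
        C.I.ord (aeval C.x (monomial h.natDegree h.leadingCoeff)) := by
      by_cases he : h.eraseLead = 0
      · left
        rw [he, map_zero]
      · right
        have hlt : h.eraseLead.natDegree < h.natDegree := by
          rcases h.eraseLead_natDegree_lt_or_eraseLead_eq_zero with h1 | h1
          · exact h1
          · exact absurd h1 he
        have h2 := (ih _ (hn ▸ hlt) he rfl).2.1
        rw [h2, m2]
        exact Nat.mul_lt_mul_of_pos_left hlt hp
    obtain ⟨d1, d2, d3⟩ := C.I.dominant m1 hw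
    rw [hsum, d2, d3, m2, m3]
    exact ⟨d1, by rw [hn], rfl⟩

theorem Cyc.N_mul (C : Cyc k O p ζ) (z w : O) : C.N (z * w) = C.N z * C.N w := by
  unfold Cyc.N
  rw [← Finset.prod_mul_distrib]
  exact Finset.prod_congr rfl fun i _ => iterate_map_mul C.σ i z w

private theorem cy1_iter_zero (C : Cyc k O p ζ) (i : ℕ) : C.σ^[i] 0 = 0 :=
  iterate_map_zero C.σ i

theorem Cyc.N_σ (C : Cyc k O p ζ) (z : O) : C.N (C.σ z) = C.N z := by
  have := C.I.isDomain
  by_cases hz : z = 0
  · rw [hz, map_zero]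
  · have h1 := Finset.prod_range_succ (fun i => C.σ^[i] z) p
    have h2 := Finset.prod_range_succ' (fun i => C.σ^[i] z) p
    rw [h1, C.pow] at h2
    simp only [Function.iterate_zero, id_eq, Function.iterate_succ, Function.comp_apply] at h2
    exact (mul_right_cancel₀ hz h2).symm

theorem Cyc.N_pow (C : Cyc k O p ζ) (z : O) (n : ℕ) : C.N (z ^ n) = C.N z ^ n := by
  induction n with
  | zero =>
    rw [pow_zero, pow_zero]
    unfold Cyc.N
    exact Finset.prod_eq_one fun i _ => iterate_map_one C.σ i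
  | succ n ih => rw [pow_succ, C.N_mul, ih, pow_succ]

private theorem cy1_iter_ne (C : Cyc k O p ζ) {z : O} (hz : z ≠ 0) (i : ℕ) : C.σ^[i] z ≠ 0 := by
  intro h
  apply hz
  apply C.σ.injective.iterate i
  rw [h, cy1_iter_zero]

theorem Cyc.N_ne_zero (C : Cyc k O p ζ) {z : O} (hz : z ≠ 0) : C.N z ≠ 0 := by
  have := C.I.isDomain
  exact Finset.prod_ne_zero_iff.2 fun i _ => cy1_iter_ne C hz i

theorem Cyc.σ_aeval (C : Cyc k O p ζ) (h : k[X]) : C.σ (aeval C.x h) = aeval C.x h := by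
  have h1 := Polynomial.aeval_algHom_apply (C.σ : O →ₐ[k] O) C.x h
  have h2 : (C.σ : O →ₐ[k] O) C.x = C.x := C.σx
  rw [h2] at h1
  exact h1.symm

theorem Cyc.N_aeval (C : Cyc k O p ζ) (h : k[X]) : C.N (aeval C.x h) = aeval C.x h ^ p := by
  unfold Cyc.N
  rw [Finset.prod_congr rfl fun i _ => Function.iterate_fixed (C.σ_aeval h) i,
    Finset.prod_const, Finset.card_range]

private theorem cy1_ord_iter (C : Cyc k O p ζ) (z : O) (i : ℕ) :
    C.I.ord (C.σ^[i] z) = C.I.ord z := by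
  induction i with
  | zero => rfl
  | succ i ih => rw [Function.iterate_succ_apply', C.ord_σ, ih]

private theorem cy1_lc_iter (C : Cyc k O p ζ) (z : O) (i : ℕ) :
    C.I.lc (C.σ^[i] z) = ζ ^ (C.e * C.I.ord z * i) * C.I.lc z := by
  induction i with
  | zero => simp
  | succ i ih =>
    rw [Function.iterate_succ_apply', C.lc_σ, cy1_ord_iter, ih, ← mul_assoc, ← pow_add]
    congr 2
    ring

private theorem cy1_ord_prod (C : Cyc k O p ζ) {z : O} (hz : z ≠ 0) (n : ℕ) :
    C.I.ord (∏ i ∈ Finset.range n, C.σ^[i] z) = n * C.I.ord z := by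
  have := C.I.isDomain
  induction n with
  | zero => simp [cy1_ord_one]
  | succ n ih =>
    rw [Finset.prod_range_succ, C.I.ord_mul _ _
      (Finset.prod_ne_zero_iff.2 fun i _ => cy1_iter_ne C hz i) (cy1_iter_ne C hz n), ih,
      cy1_ord_iter]
    ring

private theorem cy1_lc_prod (C : Cyc k O p ζ) (z : O) (n : ℕ) :
    C.I.lc (∏ i ∈ Finset.range n, C.σ^[i] z) =
      ζ ^ (C.e * C.I.ord z * ∑ i ∈ Finset.range n, i) * C.I.lc z ^ n := by
  induction n with
  | zero => simp [cy1_lc_one]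
  | succ n ih =>
    rw [Finset.prod_range_succ, C.I.lc_mul, ih, cy1_lc_iter, Finset.sum_range_succ, mul_add,
      pow_add, pow_succ]
    ring

theorem Cyc.exists_N (C : Cyc k O p ζ) [Fact p.Prime] (hp : p ≠ 2) {z : O} (hz : z ≠ 0) :
    ∃ h : k[X], h ≠ 0 ∧ aeval C.x h = C.N z ∧ h.natDegree = C.I.ord z ∧
      h.leadingCoeff = C.I.lc z ^ p := by
  have hpp : p.Prime := Fact.out
  have hfix : C.σ (C.N z) = C.N z := by
    have h1 : C.σ (C.N z) = C.N (C.σ z) := by
      unfold Cyc.N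
      rw [map_prod]
      refine Finset.prod_congr rfl fun i _ => ?_
      rw [← Function.iterate_succ_apply, Function.iterate_succ_apply']
    rw [h1, C.N_σ]
  obtain ⟨h, hh⟩ := C.inv _ hfix
  have hN := C.N_ne_zero hz
  have h0 : h ≠ 0 := by
    rintro rfl
    rw [map_zero] at hh
    exact hN hh.symm
  obtain ⟨-, a2, a3⟩ := C.aeval_ord h0
  rw [hh] at a2 a3
  have o1 : C.I.ord (C.N z) = p * C.I.ord z := cy1_ord_prod C hz p
  have l1 : C.I.lc (C.N z) = C.I.lc z ^ p := by
    have h1 := cy1_lc_prod C z p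
    have h2 : ∑ i ∈ Finset.range p, i = p * ((p - 1) / 2) := by
      rw [Finset.sum_range_id, Nat.mul_div_assoc]
      have h3 := hpp.eq_two_or_odd'
      rcases h3 with h3 | ⟨m, hm⟩
      · exact absurd h3 hp
      · exact ⟨m, by omega⟩
    rw [h2, show C.e * C.I.ord z * (p * ((p - 1) / 2)) =
      p * (C.e * C.I.ord z * ((p - 1) / 2)) by ring, pow_mul, C.prim.pow_eq_one, one_pow,
      one_mul] at h1
    exact h1
  refine ⟨h, h0, hh, ?_, ?_⟩
  · rw [o1] at a2
    exact (Nat.eq_of_mul_eq_mul_left hpp.pos a2).symm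
  · rw [← a3, l1]

end Pool.Agent.PTate
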