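import Pool.Agent.PTate.Cy1

/-!
# The fibres of the covering
-/

set_option autoImplicit false

noncomputable section

namespace Pool.Agent.PTate

open Polynomial
open scoped Classical

variable {k O : Type} [Field k] [CommRing O] [Algebra k O] {p : ℕ} {ζ : k}
  [IsDedekindDomain O] [IsAlgClosed k]

omit [IsDedekindDomain O] [IsAlgClosed k] in
theorem Cyc.mem_iterate (C : Cyc k O p ζ) (i : ℕ) (z : O) (P : MaximalSpectrum O) :
    C.σ^[i] z ∈ (C.act^[i] P).asIdeal ↔ z ∈ P.asIdeal := by
  induction i with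
  | zero => rfl
  | succ i ih =>
    rw [Function.iterate_succ_apply', Function.iterate_succ_apply', ← ih]
    exact mem_mv C.s (C.act^[i] P) (C.σ^[i] z)

omit [IsDedekindDomain O] [IsAlgClosed k] in
theorem Cyc.act_pow (C : Cyc k O p ζ) (P : MaximalSpectrum O) : C.act^[p] P = P := by
  apply MaximalSpectrum.ext
  ext z
  have h := C.mem_iterate p z P
  rwa [C.pow z] at h

theorem Cyc.pv_act (C : Cyc k O p ζ) (P : MaximalSpectrum O) (z : O) :
    pv C.I (C.act P) (C.σ z) = pv C.I P z := by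
  set c := pv C.I P z with hc
  have h1 : z - algebraMap k O c ∈ P.asIdeal := by
    rw [← pv_eq_zero C.I, map_sub, AlgHom.commutes, ← hc]
    exact sub_self _
  have h2 : C.σ (z - algebraMap k O c) ∈ (C.act P).asIdeal := (mem_mv C.s P _).2 h1
  rw [map_sub, AlgEquiv.commutes, ← pv_eq_zero C.I, map_sub, AlgHom.commutes] at h2
  exact sub_eq_zero.1 h2

theorem Cyc.xc_act (C : Cyc k O p ζ) (P : MaximalSpectrum O) : C.xc (C.act P) = C.xc P := by
  unfold Cyc.xc
  have h := C.pv_act P C.x
  rwa [C.σx] at h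

private theorem Cyc.xc_iterate (C : Cyc k O p ζ) (i : ℕ) (P : MaximalSpectrum O) :
    C.xc (C.act^[i] P) = C.xc P := by
  induction i with
  | zero => rfl
  | succ i ih => rw [Function.iterate_succ_apply', C.xc_act, ih]

/-- the value of `x` at `P` is `c` if and only if `x - c` is in `P` -/
theorem Cyc.xc_eq_iff (C : Cyc k O p ζ) (P : MaximalSpectrum O) (c : k) :
    C.xc P = c ↔ C.x - algebraMap k O c ∈ P.asIdeal := by
  rw [← pv_eq_zero C.I, map_sub, AlgHom.commutes]
  unfold Cyc.xc
  exact sub_eq_zero.symm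

/-- the group of the covering is transitive on the fibres -/
theorem Cyc.exists_act (C : Cyc k O p ζ) [Fact p.Prime] {P Q : MaximalSpectrum O}
    (h : C.xc P = C.xc Q) : ∃ i < p, C.act^[i] P = Q := by
  by_contra hne
  push Not at hne
  have hp : 0 < p := (Fact.out : p.Prime).pos
  obtain ⟨z, hzQ, hz⟩ : ∃ z ∈ Q.asIdeal, ∀ i < p, z ∉ (C.act^[i] P).asIdeal := by
    by_contra hcon
    push Not at hcon
    have hsub : (Q.asIdeal : Set O) ⊆
        ⋃ i ∈ (↑(Finset.range p) : Set ℕ), ((C.act^[i] P).asIdeal : Set O) := by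
      intro z hz
      obtain ⟨i, hi, hzi⟩ := hcon z hz
      exact Set.mem_biUnion (Finset.mem_coe.2 (Finset.mem_range.2 hi)) hzi
    obtain ⟨i, hi, hle⟩ := (Ideal.subset_union_prime (f := fun i => (C.act^[i] P).asIdeal)
      0 0 (fun i _ _ _ => (C.act^[i] P).isMaximal.isPrime)).1 hsub
    refine hne i (Finset.mem_range.1 hi) (MaximalSpectrum.ext ?_)
    exact (Q.isMaximal.eq_of_le (C.act^[i] P).isMaximal.ne_top hle).symm
  -- the norm
  have hinv : C.σ (C.N z) = C.N z := by
    conv_rhs => rw [← C.N_σ z]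
    unfold Cyc.N
    rw [map_prod]
    refine Finset.prod_congr rfl fun i _ => ?_
    rw [← Function.iterate_succ_apply' (⇑C.σ) i z, Function.iterate_succ_apply]
  obtain ⟨f, hf⟩ := C.inv _ hinv
  have hval : ∀ R : MaximalSpectrum O, pv C.I R (aeval C.x f) = f.eval (C.xc R) := by
    intro R
    have := Polynomial.aeval_algHom_apply (pv C.I R) C.x f
    rw [← this, Polynomial.coe_aeval_eq_eval]
    rfl
  have hQ : C.N z ∈ Q.asIdeal := by
    unfold Cyc.N
    exact Ideal.mem_of_dvd _ (Finset.dvd_prod_of_mem (fun i => C.σ^[i] z) (Finset.mem_range.2 hp)) hzQ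
  have hP : C.N z ∈ P.asIdeal := by
    rw [← pv_eq_zero C.I, ← hf, hval, h, ← hval, hf, pv_eq_zero C.I]
    exact hQ
  have := P.isMaximal.isPrime
  unfold Cyc.N at hP
  obtain ⟨i, hi, hiP⟩ := (Ideal.IsPrime.prod_mem_iff).1 hP
  rw [Finset.mem_range] at hi
  have hback : z ∈ (C.act^[p - i] P).asIdeal := by
    rw [← C.mem_iterate i, ← Function.iterate_add_apply, Nat.add_sub_cancel' hi.le, C.act_pow]
    exact hiP
  rcases Nat.eq_zero_or_pos i with h0 | h0
  · subst h0
    rw [Nat.sub_zero, C.act_pow] at hback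
    exact hz 0 hp hback
  · exact hz (p - i) (by omega) hback

omit [IsDedekindDomain O] [IsAlgClosed k] in
private theorem Cyc.aeval_X_sub (C : Cyc k O p ζ) (c : k) :
    aeval C.x (X - Polynomial.C c : k[X]) = C.x - algebraMap k O c := by
  rw [map_sub, aeval_X, aeval_C]

private theorem Cyc.ord_x_sub (C : Cyc k O p ζ) [Fact p.Prime] (c : k) :
    C.x - algebraMap k O c ≠ 0 ∧ C.I.ord (C.x - algebraMap k O c) = p ∧
      C.I.lc (C.x - algebraMap k O c) = 1 := by
  obtain ⟨h1, h2, h3⟩ := C.aeval_ord (X_sub_C_ne_zero c)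
  rw [C.aeval_X_sub] at h1 h2 h3
  rw [natDegree_X_sub_C, mul_one] at h2
  rw [leadingCoeff_X_sub_C] at h3
  exact ⟨h1, h2, h3⟩

theorem Cyc.exists_point (C : Cyc k O p ζ) [Fact p.Prime] (c : k) : ∃ P, C.xc P = c := by
  obtain ⟨h1, h2, h3⟩ := C.ord_x_sub c
  have hp : 0 < p := (Fact.out : p.Prime).pos
  have hu : ¬ IsUnit (C.x - algebraMap k O c) := by
    intro hu
    obtain ⟨v, hv⟩ := hu.exists_right_inv
    have hv0 : v ≠ 0 := by
      rintro rfl
      rw [mul_zero] at hv
      apply h1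
      rw [← mul_one (C.x - algebraMap k O c), ← hv, mul_zero]
    have h4 := C.I.ord_mul _ _ h1 hv0
    have h5 := C.I.ord_c 1
    rw [map_one] at h5
    rw [hv, h5, h2] at h4
    omega
  obtain ⟨M, hM, hle⟩ := exists_max_ideal_of_mem_nonunits hu
  exact ⟨⟨M, hM⟩, (C.xc_eq_iff _ _).2 hle⟩

omit [IsDedekindDomain O] [IsAlgClosed k] in
private theorem Cyc.eq_replicate (C : Cyc k O p ζ) {P : MaximalSpectrum O}
    (hP : C.act P = P) :
    ((Multiset.range p).map fun i => C.act^[i] P) = Multiset.replicate p P := by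
  rw [Multiset.eq_replicate]
  refine ⟨by simp, ?_⟩
  intro Q hQ
  obtain ⟨i, -, rfl⟩ := Multiset.mem_map.1 hQ
  exact Function.iterate_fixed hP i

theorem Cyc.span_fibre (C : Cyc k O p ζ) [Fact p.Prime] (P : MaximalSpectrum O) :
    Ideal.span {C.x - algebraMap k O (C.xc P)} =
      idl ((Multiset.range p).map fun i => C.act^[i] P) := by
  obtain ⟨h1, h2, h3⟩ := C.ord_x_sub (C.xc P)
  have hp : 0 < p := (Fact.out : p.Prime).pos
  obtain ⟨t, ht⟩ := exists_idl C.I (A := Ideal.span {C.x - algebraMap k O (C.xc P)})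
    (by rwa [Ne, Ideal.span_singleton_eq_bot])
  have hcard : Multiset.card t = p := by
    rw [card_eq C.I ht.symm, h2]
  have hmem : ∀ Q ∈ t, ∃ i < p, C.act^[i] P = Q := by
    intro Q hQ
    have h4 := (mem_iff C.I ht.symm Q).1 hQ
    exact C.exists_act ((C.xc_eq_iff Q _).2 h4).symm
  rw [← ht]
  congr 1
  by_cases hfix : C.act P = P
  · rw [C.eq_replicate hfix, Multiset.eq_replicate]
    refine ⟨hcard, ?_⟩
    intro Q hQ
    obtain ⟨i, -, rfl⟩ := hmem Q hQ
    exact Function.iterate_fixed hfix i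
  · have hper : Function.IsPeriodicPt C.act p P := C.act_pow P
    have hmin : Function.minimalPeriod C.act P = p := by
      rcases (Nat.dvd_prime (Fact.out : p.Prime)).1 hper.minimalPeriod_dvd with h | h
      · exact absurd (Function.minimalPeriod_eq_one_iff_isFixedPt.1 h) hfix
      · exact h
    have hnd : (((Multiset.range p).map fun i => C.act^[i] P)).Nodup := by
      refine Multiset.Nodup.map_on ?_ (Multiset.nodup_range p)
      intro i hi j hj hij
      rw [Multiset.mem_range] at hi hj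
      exact Function.iterate_injOn_Iio_minimalPeriod (f := C.act) (x := P)
        (by rw [hmin]; exact hi) (by rw [hmin]; exact hj) hij
    have hle : ((Multiset.range p).map fun i => C.act^[i] P) ≤ t := by
      rw [Multiset.le_iff_subset hnd]
      intro Q hQ
      obtain ⟨i, -, rfl⟩ := Multiset.mem_map.1 hQ
      rw [mem_iff C.I ht.symm, ← C.xc_eq_iff]
      exact C.xc_iterate i P
    refine (Multiset.eq_of_le_of_card_le hle ?_).symm
    rw [hcard, Multiset.card_map, Multiset.card_range]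

theorem Cyc.span_fix (C : Cyc k O p ζ) [Fact p.Prime] {P : MaximalSpectrum O} (hP : P ∈ C.F) :
    Ideal.span {C.x - algebraMap k O (C.xc P)} = idl (p • {P}) := by
  rw [C.span_fibre P, C.eq_replicate ((C.mem_F P).1 hP), Multiset.nsmul_singleton]

theorem Cyc.eq_of_xc (C : Cyc k O p ζ) [Fact p.Prime] {P Q : MaximalSpectrum O} (hP : P ∈ C.F)
    (h : C.xc Q = C.xc P) : Q = P := by
  obtain ⟨i, -, rfl⟩ := C.exists_act h.symm
  exact Function.iterate_fixed ((C.mem_F P).1 hP) i

omit [IsAlgClosed k] [Field k] [Algebra k O] [IsDedekindDomain O] in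
private theorem cy2_idl_sum {ι : Type} (F : Finset ι) (f : ι → Multiset (MaximalSpectrum O)) :
    idl (∑ i ∈ F, f i) = ∏ i ∈ F, idl (f i) := by
  induction F using Finset.induction_on with
  | empty => rw [Finset.sum_empty, Finset.prod_empty, idl_zero, Ideal.one_eq_top]
  | insert a F ha ih => rw [Finset.sum_insert ha, Finset.prod_insert ha, idl_add, ih]

omit [IsDedekindDomain O] [IsAlgClosed k] in
private theorem cy2_lc_one (I : Infty k O) : I.lc 1 = 1 := by
  have := I.lc_c 1
  rwa [map_one] at this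

omit [IsDedekindDomain O] [IsAlgClosed k] in
private theorem cy2_lc_pow (I : Infty k O) (z : O) (n : ℕ) : I.lc (z ^ n) = I.lc z ^ n := by
  induction n with
  | zero => rw [pow_zero, pow_zero, cy2_lc_one]
  | succ n ih => rw [pow_succ, pow_succ, I.lc_mul, ih]

omit [IsDedekindDomain O] [IsAlgClosed k] in
private theorem cy2_lc_prod (I : Infty k O) {ι : Type} (F : Finset ι) (f : ι → O) :
    I.lc (∏ i ∈ F, f i) = ∏ i ∈ F, I.lc (f i) := by
  induction F using Finset.induction_on with
  | empty => rw [Finset.prod_empty, Finset.prod_empty, cy2_lc_one]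
  | insert a F ha ih => rw [Finset.prod_insert ha, Finset.prod_insert ha, I.lc_mul, ih]

/-- the equation of the covering -/
theorem Cyc.y_pow (C : Cyc k O p ζ) [Fact p.Prime] :
    C.y ^ p = ∏ P ∈ C.F, (C.x - algebraMap k O (C.xc P)) ^ C.m P := by
  refine eq_of_span_eq C.I ?_ ?_
  · rw [← Ideal.span_singleton_pow, C.span_y, ← Ideal.prod_span_singleton, cy2_idl_sum,
      ← Finset.prod_pow]
    refine Finset.prod_congr rfl fun P hP => ?_
    rw [← Ideal.span_singleton_pow, C.span_fix hP, idl_nsmul, idl_nsmul, ← pow_mul, ← pow_mul,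
      mul_comm]
  · rw [cy2_lc_pow, cy2_lc_prod, C.lc_y, one_pow]
    refine (Finset.prod_eq_one fun P _ => ?_).symm
    rw [cy2_lc_pow, (C.ord_x_sub (C.xc P)).2.2, one_pow]

end Pool.Agent.PTate
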