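import Pool.Agent.PTate.Cy2

/-!
# The zeros of norms; divisors of norm zero; invariant divisors
-/

set_option autoImplicit false

noncomputable section

namespace Pool.Agent.PTate

open Polynomial
open scoped Classical

variable {k O : Type} [Field k] [CommRing O] [Algebra k O] {p : ℕ} {ζ : k}
  [IsDedekindDomain O] [IsAlgClosed k]

omit [IsDedekindDomain O] [IsAlgClosed k] in
private lemma cy3_span_iter (C : Cyc k O p ζ) {z : O} {s : Multiset (MaximalSpectrum O)}
    (hs : Ideal.span {z} = idl s) (i : ℕ) :
    Ideal.span {C.σ^[i] z} = idl (s.map C.act^[i]) := by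
  induction i with
  | zero =>
    rw [Function.iterate_zero, Function.iterate_zero, id_eq, Multiset.map_id, hs]
  | succ i ih =>
    rw [Function.iterate_succ_apply', Function.iterate_succ', ← Multiset.map_map]
    exact span_mv C.s ih

omit [IsDedekindDomain O] [IsAlgClosed k] in
private lemma cy3_S_iter (C : Cyc k O p ζ) (s : Multiset (MaximalSpectrum O)) (i : ℕ) :
    C.S^[i] (s.map cl).sum = ((s.map C.act^[i]).map cl).sum := by
  induction i with
  | zero =>
    rw [Function.iterate_zero, Function.iterate_zero, id_eq, Multiset.map_id]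
  | succ i ih =>
    rw [Function.iterate_succ_apply', ih, Function.iterate_succ', ← Multiset.map_map C.act]
    exact J.map_sum C.s _

omit [IsDedekindDomain O] [IsAlgClosed k] in
private lemma cy3_S_cl (C : Cyc k O p ζ) (P : MaximalSpectrum O) (i : ℕ) :
    C.S^[i] (cl P) = cl (C.act^[i] P) := by
  have h := cy3_S_iter C {P} i
  rwa [Multiset.map_singleton, Multiset.sum_singleton, Multiset.map_singleton,
    Multiset.map_singleton, Multiset.sum_singleton] at h

omit [IsDedekindDomain O] in
private lemma cy3_idl_sum (f : ℕ → Multiset (MaximalSpectrum O)) (n : ℕ) :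
    idl (∑ i ∈ Finset.range n, f i) = ∏ i ∈ Finset.range n, idl (f i) := by
  induction n with
  | zero => rw [Finset.sum_range_zero, Finset.prod_range_zero, idl_zero, Ideal.one_eq_top]
  | succ n ih => rw [Finset.sum_range_succ, Finset.prod_range_succ, idl_add, ih]

private lemma cy3_range {A : Type} (f : ℕ → A) (n : ℕ) :
    (Multiset.range n).map f = ∑ i ∈ Finset.range n, {f i} := by
  induction n with
  | zero => rw [Finset.sum_range_zero, Multiset.range_zero, Multiset.map_zero]
  | succ n ih =>
    rw [Finset.sum_range_succ, Multiset.range_succ, Multiset.map_cons, ih,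
      ← Multiset.singleton_add, add_comm]

/-- the divisor of the norm of a divisor -/
theorem Cyc.span_xc (C : Cyc k O p ζ) [Fact p.Prime] (s : Multiset (MaximalSpectrum O)) :
    Ideal.span {aeval C.x (s.map fun P => X - Polynomial.C (C.xc P)).prod} =
      idl (∑ i ∈ Finset.range p, s.map C.act^[i]) := by
  induction s using Multiset.induction_on with
  | empty =>
    simp only [Multiset.map_zero, Multiset.prod_zero, map_one, Finset.sum_const_zero, idl_zero]
    exact Ideal.span_singleton_one
  | cons P s ih =>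
    have h1 : ∑ i ∈ Finset.range p, (P ::ₘ s).map C.act^[i] =
        (Multiset.range p).map (fun i => C.act^[i] P) + ∑ i ∈ Finset.range p, s.map C.act^[i] := by
      have h2 : (Multiset.range p).map (fun i => C.act^[i] P) =
          ∑ i ∈ Finset.range p, {C.act^[i] P} := by
        exact cy3_range _ p
      rw [h2, ← Finset.sum_add_distrib]
      refine Finset.sum_congr rfl fun i _ => ?_
      rw [Multiset.map_cons, Multiset.singleton_add]
    rw [h1, idl_add, ← ih, ← C.span_fibre P, Multiset.map_cons, Multiset.prod_cons, map_mul,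
      Ideal.span_singleton_mul_span_singleton, map_sub, aeval_X, aeval_C]

theorem Cyc.roots_N (C : Cyc k O p ζ) [Fact p.Prime] {z : O}
    {s : Multiset (MaximalSpectrum O)} (hs : Ideal.span {z} = idl s) {h : k[X]}
    (hh : aeval C.x h = C.N z) : h.roots = s.map C.xc := by
  have hz : z ≠ 0 := ne_zero_of_span C.I hs
  have hN : C.N z ≠ 0 := C.N_ne_zero hz
  have hh0 : h ≠ 0 := by
    rintro rfl
    rw [map_zero] at hh
    exact hN hh.symm
  set g : k[X] := (s.map fun P => X - Polynomial.C (C.xc P)).prod with hg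
  have hgm : g.Monic := monic_multiset_prod_of_monic _ _ fun P _ => monic_X_sub_C _
  have h1 : Ideal.span {aeval C.x h} = Ideal.span {aeval C.x g} := by
    rw [hh, hg, C.span_xc, cy3_idl_sum, Cyc.N, ← Ideal.prod_span_singleton]
    exact Finset.prod_congr rfl fun i _ => cy3_span_iter C hs i
  set c : k := h.leadingCoeff with hc
  have hc0 : c ≠ 0 := leadingCoeff_ne_zero.2 hh0
  have hcg : Polynomial.C c * g ≠ 0 := mul_ne_zero (C_ne_zero.2 hc0) hgm.ne_zero
  have h2 : Ideal.span {aeval C.x h} = Ideal.span {aeval C.x (Polynomial.C c * g)} := by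
    rw [h1, map_mul, aeval_C]
    refine (Ideal.span_singleton_mul_left_unit ?_ _).symm
    exact (hc0.isUnit).map (algebraMap k O)
  have h3 : aeval C.x h = aeval C.x (Polynomial.C c * g) := by
    refine eq_of_span_eq C.I h2 ?_
    rw [(C.aeval_ord hh0).2.2, (C.aeval_ord hcg).2.2, leadingCoeff_mul, leadingCoeff_C,
      hgm.leadingCoeff, mul_one]
  have h4 : h = Polynomial.C c * g := by
    by_contra hne
    have h5 := (C.aeval_ord (sub_ne_zero.2 hne)).1
    rw [map_sub, h3, sub_self] at h5
    exact h5 rfl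
  rw [h4, roots_C_mul _ hc0, hg]
  have h5 : (s.map fun P => X - Polynomial.C (C.xc P)) =
      (s.map C.xc).map fun a => X - Polynomial.C a := by
    rw [Multiset.map_map]
    rfl
  rw [h5, roots_multiset_prod_X_sub_C]

omit [IsAlgClosed k] [IsDedekindDomain O] in
private lemma cy3_map_sum (f : ℕ → Multiset (MaximalSpectrum O)) (n : ℕ) :
    ((∑ i ∈ Finset.range n, f i).map cl).sum = ∑ i ∈ Finset.range n, ((f i).map cl).sum := by
  induction n with
  | zero => rw [Finset.sum_range_zero, Finset.sum_range_zero, Multiset.map_zero, Multiset.sum_zero]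
  | succ n ih =>
    rw [Finset.sum_range_succ, Finset.sum_range_succ, Multiset.map_add, Multiset.sum_add, ih]

theorem Cyc.sum_act (C : Cyc k O p ζ) [Fact p.Prime] (c : J O) :
    ∑ i ∈ Finset.range p, C.S^[i] c = 0 := by
  obtain ⟨s, rfl⟩ := exists_multiset C.I c
  have h1 : ((∑ i ∈ Finset.range p, s.map C.act^[i]).map cl).sum = 0 := by
    rw [sum_cl_eq_zero_iff C.I]
    exact ⟨_, C.span_xc s⟩
  rw [← h1, cy3_map_sum]
  exact Finset.sum_congr rfl fun i _ => cy3_S_iter C s i

/-- two effective divisors with the same norm differ by an element of `(1 - σ) J` -/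
theorem Cyc.exists_sub (C : Cyc k O p ζ) [Fact p.Prime] {s t : Multiset (MaximalSpectrum O)}
    (h : s.map C.xc = t.map C.xc) : ∃ c : J O, (s.map cl).sum - (t.map cl).sum = c - C.S c := by
  induction s using Multiset.induction_on generalizing t with
  | empty =>
    rw [Multiset.map_zero] at h
    have h1 : t = 0 := Multiset.map_eq_zero.1 h.symm
    refine ⟨0, ?_⟩
    rw [h1, map_zero, sub_self, sub_self]
  | cons P s ih =>
    have hP : C.xc P ∈ t.map C.xc := by
      rw [← h, Multiset.map_cons]
      exact Multiset.mem_cons_self _ _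
    obtain ⟨Q, hQ, hQP⟩ := Multiset.mem_map.1 hP
    obtain ⟨t', rfl⟩ := Multiset.exists_cons_of_mem hQ
    rw [Multiset.map_cons, Multiset.map_cons, hQP, Multiset.cons_inj_right] at h
    obtain ⟨c, hc⟩ := ih h
    obtain ⟨i, -, hi⟩ := C.exists_act hQP.symm
    refine ⟨c + ∑ l ∈ Finset.range i, C.S^[l] (cl P), ?_⟩
    rw [Multiset.map_cons, Multiset.map_cons, Multiset.sum_cons, Multiset.sum_cons, map_add,
      map_sum]
    have h1 : ∑ l ∈ Finset.range i, C.S (C.S^[l] (cl P)) =
        ∑ l ∈ Finset.range i, C.S^[l + 1] (cl P) :=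
      Finset.sum_congr rfl fun l _ => (Function.iterate_succ_apply' _ _ _).symm
    have h2 := Finset.sum_range_succ (fun l => C.S^[l] (cl P)) i
    rw [Finset.sum_range_succ'] at h2
    have h3 : C.S^[i] (cl P) = cl Q := by rw [cy3_S_cl, hi]
    rw [h3, Function.iterate_zero, id_eq] at h2
    rw [h1]
    have h4 : ∑ l ∈ Finset.range i, C.S^[l + 1] (cl P) =
        ∑ l ∈ Finset.range i, C.S^[l] (cl P) + cl Q - cl P := eq_sub_of_add_eq h2
    rw [h4]
    have h5 : (s.map cl).sum = (t'.map cl).sum + (c - C.S c) := by rw [← hc]; abel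
    rw [h5]
    abel

/-- the projection to the classes -/
private def cy3q (O : Type) [CommRing O] : (MaximalSpectrum O →₀ ℤ) →+ J O :=
  QuotientAddGroup.mk' _

omit [IsDedekindDomain O] [IsAlgClosed k] in
private lemma cy3q_single (P : MaximalSpectrum O) : cy3q O (Finsupp.single P 1) = cl P := rfl

omit [IsDedekindDomain O] [IsAlgClosed k] in
private lemma cy3q_dv (s : Multiset (MaximalSpectrum O)) : cy3q O (dv s) = (s.map cl).sum := by
  rw [dv, map_multiset_sum, Multiset.map_map]
  rfl

omit [IsDedekindDomain O] [IsAlgClosed k] in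
private lemma cy3_dv_apply (s : Multiset (MaximalSpectrum O)) (P : MaximalSpectrum O) :
    dv s P = s.count P := by
  unfold dv
  induction s using Multiset.induction_on with
  | empty => simp
  | cons Q s ih =>
    rw [Multiset.map_cons, Multiset.sum_cons, Finsupp.add_apply, ih, Multiset.count_cons,
      Finsupp.single_apply]
    push_cast
    rw [add_comm]
    congr 1
    by_cases h : Q = P
    · rw [if_pos h, if_pos h.symm]
    · rw [if_neg h, if_neg (Ne.symm h)]

omit [IsDedekindDomain O] [IsAlgClosed k] in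
private lemma cy3_orbit (C : Cyc k O p ζ) [Fact p.Prime] {P : MaximalSpectrum O} (hP : P ∉ C.F) :
    Set.InjOn (fun i => C.act^[i] P) (Finset.range p : Set ℕ) := by
  have h1 : Function.IsPeriodicPt C.act p P := C.act_pow P
  have h2 : Function.minimalPeriod C.act P ∣ p := h1.minimalPeriod_dvd
  rcases (Nat.dvd_prime Fact.out).1 h2 with h3 | h3
  · exfalso
    rw [Function.minimalPeriod_eq_one_iff_isFixedPt] at h3
    exact hP ((C.mem_F P).2 h3)
  · have h4 := Function.iterate_injOn_Iio_minimalPeriod (f := C.act) (x := P)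
    rw [h3] at h4
    intro i hi j hj hij
    rw [Finset.coe_range] at hi hj
    exact h4 hi hj hij

private lemma cy3_inv (C : Cyc k O p ζ) [Fact p.Prime] (n : ℕ) :
    ∀ D : MaximalSpectrum O →₀ ℤ, D.support.card = n → (∀ Q, D (C.act Q) = D Q) →
      (∀ Q ∈ C.F, D Q = 0) → cy3q O D = 0 := by
  induction n using Nat.strong_induction_on with
  | _ n ih =>
    intro D hn hD hF
    by_cases hD0 : D = 0
    · rw [hD0, map_zero]
    obtain ⟨P, hP⟩ := Finsupp.ne_iff.1 hD0
    rw [Finsupp.zero_apply] at hP
    have hPF : P ∉ C.F := fun h => hP (hF P h)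
    set orb : Finset (MaximalSpectrum O) := (Finset.range p).image fun i => C.act^[i] P with horb
    have hp : 0 < p := (Fact.out : p.Prime).pos
    have h1 : Function.IsPeriodicPt C.act p P := C.act_pow P
    have hmem : ∀ Q, Q ∈ orb ↔ ∃ i, C.act^[i] P = Q := by
      intro Q
      rw [horb, Finset.mem_image]
      constructor
      · rintro ⟨i, -, hi⟩
        exact ⟨i, hi⟩
      · rintro ⟨i, hi⟩
        exact ⟨i % p, Finset.mem_range.2 (Nat.mod_lt _ hp), by rw [h1.iterate_mod_apply, hi]⟩
    have hact : ∀ Q, C.act Q ∈ orb ↔ Q ∈ orb := by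
      intro Q
      rw [hmem, hmem]
      constructor
      · rintro ⟨i, hi⟩
        refine ⟨(p - 1) + i, ?_⟩
        rw [Function.iterate_add_apply, hi, ← Function.iterate_succ_apply,
          Nat.succ_eq_add_one, Nat.sub_add_cancel hp]
        exact C.act_pow Q
      · rintro ⟨i, hi⟩
        exact ⟨i + 1, by rw [Function.iterate_succ_apply', hi]⟩
    have hval : ∀ Q ∈ orb, D Q = D P := by
      intro Q hQ
      obtain ⟨i, rfl⟩ := (hmem Q).1 hQ
      clear hQ
      induction i with
      | zero => rfl
      | succ i ih' => rw [Function.iterate_succ_apply', hD, ih']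
    have hsplit := Finsupp.filter_add_filter_not D (fun Q => Q ∈ orb)
    have hz : cy3q O (D.filter fun Q => Q ∈ orb) = 0 := by
      have h2 : (D.filter fun Q => Q ∈ orb) = D P • ∑ Q ∈ orb, Finsupp.single Q (1 : ℤ) := by
        ext Q
        rw [Finsupp.smul_apply, Finsupp.finsetSum_apply]
        by_cases hQ : Q ∈ orb
        · rw [Finsupp.filter_apply_pos (fun Q => Q ∈ orb) D hQ, hval Q hQ,
            Finset.sum_eq_single Q]
          · rw [Finsupp.single_eq_same, smul_eq_mul, mul_one]
          · intro R _ hR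
            rw [Finsupp.single_apply, if_neg hR]
          · exact fun h => absurd hQ h
        · rw [Finsupp.filter_apply_neg (fun Q => Q ∈ orb) D hQ, Finset.sum_eq_zero, smul_zero]
          intro R hR
          rw [Finsupp.single_apply, if_neg]
          rintro rfl
          exact hQ hR
      rw [h2, map_zsmul, map_sum, horb, Finset.sum_image (cy3_orbit C hPF)]
      have h3 : ∑ i ∈ Finset.range p, cy3q O (Finsupp.single (C.act^[i] P) 1) =
          ∑ i ∈ Finset.range p, C.S^[i] (cl P) :=
        Finset.sum_congr rfl fun i _ => by rw [cy3q_single, cy3_S_cl]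
      rw [h3, C.sum_act, smul_zero]
    rw [← hsplit, map_add, hz, zero_add]
    have hPo : P ∈ orb := (hmem P).2 ⟨0, rfl⟩
    refine ih (D.filter fun Q => ¬ Q ∈ orb).support.card ?_ _ rfl ?_ ?_
    · rw [← hn, Finsupp.support_filter]
      refine Finset.card_lt_card (Finset.filter_ssubset.2 ⟨P, Finsupp.mem_support_iff.2 hP, ?_⟩)
      exact not_not.2 hPo
    · intro Q
      by_cases hQ : Q ∈ orb
      · rw [Finsupp.filter_apply_neg (fun Q => ¬ Q ∈ orb) D (not_not.2 hQ),
          Finsupp.filter_apply_neg (fun Q => ¬ Q ∈ orb) D (not_not.2 ((hact Q).2 hQ))]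
      · rw [Finsupp.filter_apply_pos (fun Q => ¬ Q ∈ orb) D hQ,
          Finsupp.filter_apply_pos (fun Q => ¬ Q ∈ orb) D (fun h => hQ ((hact Q).1 h)), hD]
    · intro Q hQ
      by_cases hQo : Q ∈ orb
      · rw [Finsupp.filter_apply_neg (fun Q => ¬ Q ∈ orb) D (not_not.2 hQo)]
      · rw [Finsupp.filter_apply_pos (fun Q => ¬ Q ∈ orb) D hQo, hF Q hQ]

/-- the class of an invariant divisor -/
theorem Cyc.inv_sum (C : Cyc k O p ζ) [Fact p.Prime] {s t : Multiset (MaximalSpectrum O)}
    (h : s.map C.act + t = t.map C.act + s) : (s.map cl).sum - (t.map cl).sum =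
      ∑ P ∈ C.F, ((s.count P : ℤ) - t.count P) • cl P := by
  have hinj : Function.Injective C.act := by
    intro P Q hPQ
    have h1 := congrArg (C.act^[p - 1]) hPQ
    have hp : 0 < p := (Fact.out : p.Prime).pos
    rw [← Function.iterate_succ_apply, ← Function.iterate_succ_apply, Nat.succ_eq_add_one,
      Nat.sub_add_cancel hp, C.act_pow, C.act_pow] at h1
    exact h1
  set D : MaximalSpectrum O →₀ ℤ := dv s - dv t -
    ∑ P ∈ C.F, ((s.count P : ℤ) - t.count P) • Finsupp.single P (1 : ℤ) with hD
  have hsum : ∀ Q, (∑ P ∈ C.F, ((s.count P : ℤ) - t.count P) • Finsupp.single P (1 : ℤ)) Q =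
      if Q ∈ C.F then (s.count Q : ℤ) - t.count Q else 0 := by
    intro Q
    rw [Finsupp.finsetSum_apply]
    by_cases hQ : Q ∈ C.F
    · rw [if_pos hQ, Finset.sum_eq_single Q]
      · rw [Finsupp.smul_apply, Finsupp.single_eq_same, smul_eq_mul, mul_one]
      · intro R _ hR
        rw [Finsupp.smul_apply, Finsupp.single_apply, if_neg hR, smul_zero]
      · exact fun h => absurd hQ h
    · rw [if_neg hQ]
      refine Finset.sum_eq_zero fun R hR => ?_
      rw [Finsupp.smul_apply, Finsupp.single_apply, if_neg, smul_zero]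
      rintro rfl
      exact hQ hR
  have hDv : ∀ Q, D Q = if Q ∈ C.F then 0 else (s.count Q : ℤ) - t.count Q := by
    intro Q
    rw [hD, Finsupp.sub_apply, Finsupp.sub_apply, hsum, cy3_dv_apply, cy3_dv_apply]
    by_cases hQ : Q ∈ C.F
    · rw [if_pos hQ, if_pos hQ, sub_self]
    · rw [if_neg hQ, if_neg hQ, sub_zero]
  have hcount : ∀ Q, ((s.count (C.act Q) : ℤ) - t.count (C.act Q)) = s.count Q - t.count Q := by
    intro Q
    have h1 := congrArg (Multiset.count (C.act Q)) h
    rw [Multiset.count_add, Multiset.count_add, Multiset.count_map_eq_count' _ _ hinj,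
      Multiset.count_map_eq_count' _ _ hinj] at h1
    omega
  have hF : ∀ Q, C.act Q ∈ C.F ↔ Q ∈ C.F := by
    intro Q
    rw [C.mem_F, C.mem_F]
    exact ⟨fun h => hinj h, fun h => congrArg C.act h⟩
  have key := cy3_inv C D.support.card D rfl (fun Q => by
    rw [hDv, hDv, hcount]
    by_cases hQ : Q ∈ C.F
    · rw [if_pos hQ, if_pos ((hF Q).2 hQ)]
    · rw [if_neg hQ, if_neg (fun h => hQ ((hF Q).1 h))]) (fun Q hQ => by
    rw [hDv, if_pos hQ])
  rw [hD, map_sub, map_sub, cy3q_dv, cy3q_dv, map_sum, sub_eq_zero] at key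
  rw [key]
  exact Finset.sum_congr rfl fun P _ => by rw [map_zsmul, cy3q_single]

end Pool.Agent.PTate
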