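import Pool.Agent.PTate.WeilProp

/-!
# Cyclic coverings of the line of prime degree: definitions
-/

set_option autoImplicit false

noncomputable section

namespace Pool.Agent.PTate

open Polynomial
open scoped Classical

/-- A cyclic covering `x` of the line of degree `p`, totally ramified over infinity. The
automorphism `σ` generates the group of the covering, `σ y = ζ y`; the finite set `F` consists of
the fixed points of `σ`, and `m P` is the order of the zero `P` of `y`. The leading coefficient
of a function with the pole order `n` is multiplied by `ζ ^ (e n)`. -/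
structure Cyc (k O : Type) [Field k] [CommRing O] [Algebra k O] (p : ℕ) (ζ : k) where
  I : Infty k O
  x : O
  y : O
  σ : O ≃ₐ[k] O
  e : ℕ
  F : Finset (MaximalSpectrum O)
  m : MaximalSpectrum O → ℕ
  prim : IsPrimitiveRoot ζ p
  pow : ∀ z, σ^[p] z = z
  inv : ∀ z, σ z = z → ∃ h : k[X], aeval x h = z
  σx : σ x = x
  σy : σ y = algebraMap k O ζ * y
  ord_x : I.ord x = p
  lc_x : I.lc x = 1
  lc_y : I.lc y = 1
  span_y : Ideal.span {y} = idl (∑ P ∈ F, m P • {P})
  cop : ∀ P ∈ F, (m P).Coprime p
  mem_F : ∀ P, P ∈ F ↔ mv (σ : O ≃+* O) P = P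
  ord_σ : ∀ z, I.ord (σ z) = I.ord z
  lc_σ : ∀ z, I.lc (σ z) = ζ ^ (e * I.ord z) * I.lc z
  he : (e * I.ord y) % p = 1

variable {k O : Type} [Field k] [CommRing O] [Algebra k O] {p : ℕ} {ζ : k}

/-- The generator of the group of the covering. -/
abbrev Cyc.s (C : Cyc k O p ζ) : O ≃+* O := (C.σ : O ≃+* O)

/-- Its action on the points. -/
abbrev Cyc.act (C : Cyc k O p ζ) (P : MaximalSpectrum O) : MaximalSpectrum O := mv C.s P

/-- Its action on the classes of divisors. -/
abbrev Cyc.S (C : Cyc k O p ζ) : J O →+ J O := J.map C.s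

/-- The norm to the polynomials in `x`. -/
def Cyc.N (C : Cyc k O p ζ) (z : O) : O := ∏ i ∈ Finset.range p, C.σ^[i] z

/-- The value of `x` at a point. -/
def Cyc.xc (C : Cyc k O p ζ) [IsDedekindDomain O] [IsAlgClosed k] (P : MaximalSpectrum O) : k :=
  pv C.I P C.x

end Pool.Agent.PTate
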