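import Pool.Agent.PTate.Recip

/-!
# Norms modulo products of ideals
-/

set_option autoImplicit false

noncomputable section

namespace Pool.Agent.PTate

open Polynomial
open scoped Classical

variable {k O : Type} [Field k] [CommRing O] [Algebra k O] [IsDedekindDomain O]

/-- determinants and dimensions in an exact sequence -/
private theorem ded_exact {k U V Q : Type} [Field k] [AddCommGroup U] [AddCommGroup V]
    [AddCommGroup Q] [Module k U] [Module k V] [Module k Q] [Module.Finite k V]
    (i : U →ₗ[k] V) (π : V →ₗ[k] Q) (hi : Function.Injective i) (hπ : Function.Surjective π)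
    (hex : LinearMap.range i = LinearMap.ker π) (eU : U →ₗ[k] U) (eV : V →ₗ[k] V)
    (eQ : Q →ₗ[k] Q) (h1 : ∀ u, eV (i u) = i (eU u)) (h2 : ∀ v, π (eV v) = eQ (π v)) :
    LinearMap.det eV = LinearMap.det eU * LinearMap.det eQ ∧
      Module.finrank k V = Module.finrank k U + Module.finrank k Q := by
  set W := LinearMap.range i with hW
  have he : W ≤ W.comap eV := by
    rintro _ ⟨u, rfl⟩
    rw [Submodule.mem_comap, h1]
    exact ⟨eU u, rfl⟩
  let ψ : U ≃ₗ[k] W := LinearEquiv.ofInjective i hi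
  let φ : (V ⧸ W) ≃ₗ[k] Q :=
    (Submodule.quotEquivOfEq W (LinearMap.ker π) hex).trans (π.quotKerEquivOfSurjective hπ)
  have hψ : ∀ u, ((ψ u : W) : V) = i u := fun u => rfl
  have hφ : ∀ v, φ (Submodule.Quotient.mk v) = π v := fun v => rfl
  constructor
  · rw [LinearMap.det_eq_det_mul_det W eV he]
    congr 1
    · rw [← LinearMap.det_conj eU ψ]
      congr 1
      ext w
      obtain ⟨u, rfl⟩ := ψ.surjective w
      simp only [LinearMap.coe_restrict_apply, LinearMap.comp_apply, LinearEquiv.coe_coe,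
        LinearEquiv.symm_apply_apply, hψ]
      exact h1 u
    · rw [← LinearMap.det_conj eQ φ.symm]
      congr 1
      apply LinearMap.ext
      intro q
      obtain ⟨v, rfl⟩ := Submodule.Quotient.mk_surjective W q
      apply φ.injective
      simp only [LinearMap.comp_apply, LinearEquiv.coe_coe, LinearEquiv.symm_symm,
        LinearEquiv.apply_symm_apply, Submodule.mapQ_apply, hφ]
      exact h2 v
  · rw [← Submodule.finrank_quotient_add_finrank W, φ.finrank_eq, ← ψ.finrank_eq, add_comm]

theorem finite_quot (I : Infty k O) {A : Ideal O} (hA : A ≠ ⊥) : Module.Finite k (O ⧸ A) := by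
  obtain ⟨a, ha, ha0⟩ := Submodule.exists_mem_ne_zero_of_ne_bot hA
  have h1 := (finrank_span I ha0).1
  have h2 : Ideal.span {a} ≤ A := (Ideal.span_singleton_le_iff_mem A).2 ha
  exact Module.Finite.of_surjective (Ideal.Quotient.factorₐ k h2).toLinearMap
    (Ideal.Quotient.factor_surjective h2)

theorem nrm_mul (I : Infty k O) {A B : Ideal O} (hA : A ≠ ⊥) (hB : B ≠ ⊥) (z : O) :
    nrm k (A * B) z = nrm k A z * nrm k B z ∧
      Module.finrank k (O ⧸ A * B) = Module.finrank k (O ⧸ A) + Module.finrank k (O ⧸ B) := by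
  have hAB : A * B ≠ ⊥ := mul_ne_zero hA hB
  have hle : A * B ≤ A := Ideal.mul_le_left
  obtain ⟨α, hα⟩ := IsDedekindDomain.exists_sup_span_eq hle hAB
  have hαA : α ∈ A := by
    rw [← hα]
    exact Ideal.mem_sup_right (Ideal.mem_span_singleton_self α)
  have hfin := finite_quot I hAB
  -- the projection
  let π : (O ⧸ A * B) →ₗ[k] (O ⧸ A) := (Ideal.Quotient.factorₐ k hle).toLinearMap
  have hπ : ∀ x : O, π (Ideal.Quotient.mk _ x) = Ideal.Quotient.mk _ x := fun x => rfl
  have hπs : Function.Surjective π := Ideal.Quotient.factor_surjective hle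
  -- the multiplication by `α`
  let i0 : O →ₗ[k] (O ⧸ A * B) :=
    (Ideal.Quotient.mkₐ k (A * B)).toLinearMap ∘ₗ LinearMap.mulLeft k α
  have hi0 : ∀ x, i0 x = Ideal.Quotient.mk _ (α * x) := fun x => rfl
  let i : (O ⧸ B) →ₗ[k] (O ⧸ A * B) :=
    Submodule.liftQ (B.restrictScalars k) i0 (by
      intro x hx
      rw [LinearMap.mem_ker, hi0, Ideal.Quotient.eq_zero_iff_mem]
      exact Ideal.mul_mem_mul hαA hx)
  have hi : ∀ x : O, i (Ideal.Quotient.mk _ x) = Ideal.Quotient.mk _ (α * x) := fun x => rfl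
  have hker : ∀ x : O, α * x ∈ A * B → x ∈ B := by
    intro x hx
    have h1 : A * Ideal.span {x} ≤ A * B := by
      rw [← hα]
      nth_rewrite 1 [hα]
      rw [Ideal.mul_le]
      intro a ha y hy
      rw [← hα] at ha
      obtain ⟨c, rfl⟩ := Ideal.mem_span_singleton'.1 hy
      obtain ⟨s, hs, t, ht, rfl⟩ := Submodule.mem_sup.1 ha
      obtain ⟨d, rfl⟩ := Ideal.mem_span_singleton'.1 ht
      have h2 : (s + d * α) * (c * x) = s * (c * x) + (d * c) * (α * x) := by ring
      rw [hα, h2]
      exact add_mem (Ideal.mul_mem_right _ _ hs) (Ideal.mul_mem_left _ _ hx)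
    have h2 := Ideal.dvd_iff_le.2 h1
    have h3 := (mul_dvd_mul_iff_left hA).1 h2
    rw [Ideal.dvd_span_singleton] at h3
    exact h3
  have hinj : Function.Injective i := by
    rw [injective_iff_map_eq_zero]
    intro q hq
    obtain ⟨x, rfl⟩ := Ideal.Quotient.mk_surjective q
    rw [hi, Ideal.Quotient.eq_zero_iff_mem] at hq
    rw [Ideal.Quotient.eq_zero_iff_mem]
    exact hker x hq
  have hex : LinearMap.range i = LinearMap.ker π := by
    ext v
    rw [LinearMap.mem_range, LinearMap.mem_ker]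
    constructor
    · rintro ⟨q, rfl⟩
      obtain ⟨x, rfl⟩ := Ideal.Quotient.mk_surjective q
      rw [hi, hπ, Ideal.Quotient.eq_zero_iff_mem]
      exact Ideal.mul_mem_right _ _ hαA
    · intro hv
      obtain ⟨x, rfl⟩ := Ideal.Quotient.mk_surjective v
      rw [hπ, Ideal.Quotient.eq_zero_iff_mem, ← hα] at hv
      obtain ⟨s, hs, t, ht, rfl⟩ := Submodule.mem_sup.1 hv
      obtain ⟨d, rfl⟩ := Ideal.mem_span_singleton'.1 ht
      refine ⟨Ideal.Quotient.mk _ d, ?_⟩
      rw [hi, Ideal.Quotient.eq]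
      have h2 : α * d - (s + d * α) = -s := by ring
      rw [h2]
      exact neg_mem hs
  obtain ⟨h1, h2⟩ := ded_exact i π hinj hπs hex
    (Algebra.lmul k (O ⧸ B) (Ideal.Quotient.mk B z))
    (Algebra.lmul k (O ⧸ A * B) (Ideal.Quotient.mk (A * B) z))
    (Algebra.lmul k (O ⧸ A) (Ideal.Quotient.mk A z))
    (by
      intro q
      obtain ⟨x, rfl⟩ := Ideal.Quotient.mk_surjective q
      change Ideal.Quotient.mk (A * B) z * i (Ideal.Quotient.mk B x) =
        i (Ideal.Quotient.mk B z * Ideal.Quotient.mk B x)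
      rw [← map_mul, hi, hi, ← map_mul]
      congr 1
      ring)
    (by
      intro q
      obtain ⟨x, rfl⟩ := Ideal.Quotient.mk_surjective q
      rfl)
  refine ⟨?_, ?_⟩
  · unfold nrm
    rw [Algebra.norm_apply, Algebra.norm_apply, Algebra.norm_apply, h1, mul_comm]
  · rw [h2, add_comm]

end Pool.Agent.PTate
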