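import Mathlib

/-!
# Smooth affine curves with one point at infinity: divisor classes, values, the Weil pairing

`O` is the coordinate ring, a Dedekind domain over the algebraically closed field `k`. The points
of the affine curve are the maximal ideals of `O`; the group `J O` of the classes of divisors is
also the group of the points of the Jacobian, as the only point at infinity is rational.
-/

set_option autoImplicit false

noncomputable section

namespace Pool.Agent.PTate

open Polynomial
open scoped Classical

section Ring

variable {O : Type} [CommRing O]

/-- The product of the maximal ideals of a multiset. -/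
def idl (s : Multiset (MaximalSpectrum O)) : Ideal O := (s.map MaximalSpectrum.asIdeal).prod

/-- The divisor `∑ P`, the sum over the maximal ideals of a multiset. -/
def dv (s : Multiset (MaximalSpectrum O)) : MaximalSpectrum O →₀ ℤ :=
  (s.map fun P => Finsupp.single P 1).sum

/-- `s` is the multiset of the zeros of a regular function. -/
def Prin (s : Multiset (MaximalSpectrum O)) : Prop := ∃ α : O, Ideal.span {α} = idl s

/-- The group of the classes of divisors: divisors modulo zeros of regular functions. -/
abbrev J (O : Type) [CommRing O] : Type :=
  (MaximalSpectrum O →₀ ℤ) ⧸ AddSubgroup.closure {D | ∃ s : Multiset (MaximalSpectrum O),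
    Prin s ∧ D = dv s}

/-- The class of a point. -/
def cl (P : MaximalSpectrum O) : J O := QuotientAddGroup.mk (Finsupp.single P 1)

/-- The image of a point under an automorphism. -/
def mv (e : O ≃+* O) (P : MaximalSpectrum O) : MaximalSpectrum O :=
  ⟨P.asIdeal.comap (e.symm : O →+* O), Ideal.comap_isMaximal_of_equiv e.symm⟩

end Ring

section Algebra

variable {O : Type} [CommRing O] (k : Type) [Field k] [Algebra k O]

/-- The norm of the residue of `z` modulo `I`: the determinant of the multiplication by `z` on the
vector space `O / I` over `k`. -/
def nrm (I : Ideal O) (z : O) : k := Algebra.norm k (Ideal.Quotient.mk I z)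

/-- The product of the values of a function at the points of a multiset (the residue field of a
point is `k`, so that the norm of the residue is the value). -/
def ev (z : O) (s : Multiset (MaximalSpectrum O)) : k := (s.map fun P => nrm k P.asIdeal z).prod

end Algebra

/-- The pole order and the leading coefficient of regular functions at the only point at
infinity. -/
structure Infty (k O : Type) [Field k] [CommRing O] [Algebra k O] where
  ord : O → ℕ
  lc : O → k
  lc_zero : lc 0 = 0
  lc_ne : ∀ z, z ≠ 0 → lc z ≠ 0
  lc_mul : ∀ z w, lc (z * w) = lc z * lc w
  ord_mul : ∀ z w, z ≠ 0 → w ≠ 0 → ord (z * w) = ord z + ord w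
  ord_add : ∀ z w, z ≠ 0 → w ≠ 0 → z + w ≠ 0 → ord (z + w) ≤ max (ord z) (ord w)
  ord_sub : ∀ z w, z ≠ 0 → w ≠ 0 → z ≠ w → ord z = ord w → lc z = lc w → ord (z - w) < ord z
  ord_c : ∀ c : k, ord (algebraMap k O c) = 0
  lc_c : ∀ c : k, lc (algebraMap k O c) = c
  const : ∀ z, ord z = 0 → ∃ c, algebraMap k O c = z
  large : ∃ N, ∀ n, N ≤ n → ∃ z, z ≠ 0 ∧ ord z = n

variable {k O : Type} [Field k] [CommRing O] [Algebra k O]

/-- `w` is the value at `(c, c')` of the Weil pairing on the classes killed by `n`: the classes
contain disjoint effective divisors `s` and `s'`, `n s` and `n s'` are the divisors of zeros of the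
regular functions `a` and `b` with leading coefficient `1`, and `w = ± a(s') / b(s)`. -/
def IsWeil (I : Infty k O) (n : ℕ) (c c' : J O) (w : k) : Prop :=
  ∃ (s s' : Multiset (MaximalSpectrum O)) (a b : O), Disjoint s s' ∧
    (s.map cl).sum = c ∧ (s'.map cl).sum = c' ∧ Ideal.span {a} = idl (n • s) ∧
    Ideal.span {b} = idl (n • s') ∧ I.lc a = 1 ∧ I.lc b = 1 ∧
    w = (-1) ^ (n * (Multiset.card s * Multiset.card s')) * (ev k a s' / ev k b s)

/-- The Weil pairing on the classes killed by `n`. -/
def weil (I : Infty k O) (n : ℕ) (c c' : J O) : k :=
  if h : ∃ w, IsWeil I n c c' w then h.choose else 1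

end Pool.Agent.PTate
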