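import Pool.Agent.PTate.Stm

/-!
# Tate classes on powers of products of Jacobians of cyclic coverings: the definitions

`L` is an algebraically closed field, `f` a polynomial over `L` whose degree is prime to `p`. The
curve `y ^ p = f(x)` has exactly one point at infinity. The points of the affine curve are the
maximal ideals of the ring of the regular functions. The group `J O` of the classes of divisors is
defined in `Pool.Agent.PTate.Defs`, its automorphisms `J.map e` in `Pool.Agent.PTate.Act`, the
Weil pairing `Stm.IsWeil` in `Pool.Agent.PTate.Stm`.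
-/

set_option autoImplicit false

noncomputable section

namespace Pool.Agent.PTate.Out

open Polynomial
open scoped Classical

/-- The equation `y ^ p = f(x)` as a polynomial in `y`. -/
def poly (L : Type) [Field L] (p : ℕ) (f : L[X]) : (RatFunc L)[X] :=
  X ^ p - C (algebraMap L[X] (RatFunc L) f)

/-- The function field `L(x)[y] / (y ^ p - f(x))`. -/
def Fn (L : Type) [Field L] (p : ℕ) (f : L[X]) : Type := AdjoinRoot (poly L p f)

instance instFn (L : Type) [Field L] (p : ℕ) (f : L[X]) : CommRing (Fn L p f) :=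
  AdjoinRoot.instCommRing (poly L p f)

instance instFnX (L : Type) [Field L] (p : ℕ) (f : L[X]) : Algebra L[X] (Fn L p f) :=
  AdjoinRoot.instAlgebra (poly L p f)

instance instFnL (L : Type) [Field L] (p : ℕ) (f : L[X]) : Algebra L (Fn L p f) :=
  AdjoinRoot.instAlgebra (poly L p f)

instance instTower (L : Type) [Field L] (p : ℕ) (f : L[X]) :
    IsScalarTower L L[X] (Fn L p f) :=
  (inferInstance : IsScalarTower L L[X] (AdjoinRoot (poly L p f)))

/-- The elements of the function field which are integral over `L[x]`. -/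
def reg (L : Type) [Field L] (p : ℕ) (f : L[X]) : Subalgebra L[X] (Fn L p f) :=
  integralClosure L[X] (Fn L p f)

/-- The ring of the regular functions on the affine curve `y ^ p = f(x)`. -/
def Crv (L : Type) [Field L] (p : ℕ) (f : L[X]) : Type := reg L p f

instance instRing (L : Type) [Field L] (p : ℕ) (f : L[X]) : CommRing (Crv L p f) :=
  (reg L p f).toCommRing

instance instAlg (L : Type) [Field L] (p : ℕ) (f : L[X]) : Algebra L (Crv L p f) :=
  (reg L p f).algebra'

/-- The function `x`. -/
def fx (L : Type) [Field L] (p : ℕ) (f : L[X]) : Crv L p f := algebraMap L[X] (reg L p f) X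

/-- `z` is the function `y`. -/
def IsY {L : Type} [Field L] {p : ℕ} {f : L[X]} (z : Crv L p f) : Prop :=
  Subtype.val z = AdjoinRoot.root (poly L p f)

/-- `e` is an automorphism of the ring of regular functions over the automorphism `g` of `L`, which
fixes `x` and multiplies `y` by `c`. -/
def IsAuto {L : Type} [Field L] {p : ℕ} {f : L[X]} (g : L ≃+* L) (c : L)
    (e : Crv L p f ≃+* Crv L p f) : Prop :=
  (∀ t : L, e (algebraMap L _ t) = algebraMap L _ (g t)) ∧ e (fx L p f) = fx L p f ∧
    ∀ y : Crv L p f, IsY y → e y = algebraMap L _ c * y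

/-- The group of the points of the Jacobian: the classes of divisors. -/
def Jac (O : Type) [CommRing O] : Type := J O

instance instJac (O : Type) [CommRing O] : AddCommGroup (Jac O) :=
  QuotientAddGroup.Quotient.addCommGroup _

/-- The action of an automorphism of the ring of regular functions on the classes of divisors. -/
def Jac.act {O : Type} [CommRing O] (e : O ≃+* O) (c : Jac O) : Jac O := J.map e c

/-- An element of the p-adic Tate module of the Jacobian: points `pt n` with `pt 0 = 0` and
`p pt (n + 1) = pt n`. -/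
structure Tate (p : ℕ) (O : Type) [CommRing O] where
  pt : ℕ → Jac O
  zero : pt 0 = 0
  mul : ∀ n, p • pt (n + 1) = pt n

/-- The Tate module of the Jacobian of the curve `y ^ p = ∏ (x - a i) ^ (m i)`, `i ∈ S`. -/
abbrev T {K : Type} [Field K] (L : Type) [Field L] [Algebra K L] (p : ℕ) {ι : Type} (a : ι → K)
    (S : Finset ι) (m : ι → ℕ) : Type := Tate p (Crv L p (Stm.eqn L a S m))

/-- The Weil pairing of two elements of the Tate module: the p-adic integer `z` with
`e_(p ^ n) (t n, u n) = (ξ n) ^ z`. -/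
def pairing {L : Type} [Field L] {O : Type} [CommRing O] [Algebra L O] {p : ℕ} [Fact p.Prime]
    (x : O) (ξ : ℕ → L) (t u : Tate p O) : ℤ_[p] :=
  if h : ∃ z : ℤ_[p], ∀ n, 1 ≤ n →
    Stm.IsWeil x (p ^ n) (t.pt n) (u.pt n) (ξ n ^ (PadicInt.toZModPow n z).val) then h.choose
  else 0

/-- The Tate module of the `n`-th power of the product of the Jacobians of the curves
`y ^ p = ∏ (x - a i) ^ (m s i)`, `i ∈ S s`. -/
abbrev Vec {K : Type} [Field K] (L : Type) [Field L] [Algebra K L] (p : ℕ) {ι σ : Type}
    (a : ι → K) (S : σ → Finset ι) (m : σ → ι → ℕ) (n : ℕ) : Type :=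
  Fin n → ∀ s, T L p a (S s) (m s)

variable {K : Type} [Field K] {L : Type} [Field L] [Algebra K L] {p : ℕ} [Fact p.Prime]
  {ι σ : Type} {a : ι → K} {S : σ → Finset ι} {m : σ → ι → ℕ} {n r : ℕ}

/-- `F` is additive in each variable and linear over the p-adic integers. -/
structure IsForm (F : (Fin r → Vec L p a S m n) → ℚ_[p]) : Prop where
  add : ∀ (i : Fin r) (v w w' : Fin r → Vec L p a S m n),
    (∀ l, l ≠ i → w l = v l ∧ w' l = v l) →
    (∀ b s k, (v i b s).pt k = (w i b s).pt k + (w' i b s).pt k) → F v = F w + F w'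
  smul : ∀ (z : ℤ_[p]) (i : Fin r) (v w : Fin r → Vec L p a S m n), (∀ l, l ≠ i → w l = v l) →
    (∀ b s k, (v i b s).pt k = (PadicInt.toZModPow k z).val • (w i b s).pt k) →
      F v = (z : ℚ_[p]) * F w

/-- `F` is multiplied by the `j`-th power of the cyclotomic character under a subgroup of finite
index of the Galois group. -/
def IsTate (j : ℕ) (F : (Fin r → Vec L p a S m n) → ℚ_[p]) : Prop :=
  ∃ U : Subgroup (L ≃ₐ[K] L), U.FiniteIndex ∧ ∀ g ∈ U,
    ∀ e : ∀ s, Crv L p (Stm.eqn L a (S s) (m s)) ≃+* Crv L p (Stm.eqn L a (S s) (m s)),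
      (∀ s, IsAuto (g : L ≃+* L) 1 (e s)) → ∀ v w : Fin r → Vec L p a S m n,
        (∀ i b s k, (w i b s).pt k = ((v i b s).pt k).act (e s)) →
          F w = (((cyclotomicCharacter L p (g : L ≃+* L) : ℤ_[p]) ^ j : ℤ_[p]) : ℚ_[p]) * F v

/-- `X` is an operator on the Tate module which is skew for the Weil pairing and commutes with the
automorphism `y ↦ ζ y` of the curve. -/
def IsSkew {f : L[X]} (ξ : ℕ → L) (X : Tate p (Crv L p f) → Tate p (Crv L p f)) : Prop :=
  (∀ t u, pairing (fx L p f) ξ (X t) u + pairing (fx L p f) ξ t (X u) = 0) ∧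
  ∀ e : Crv L p f ≃+* Crv L p f, IsAuto (RingEquiv.refl L) (ξ 1) e → ∀ t u : Tate p (Crv L p f),
    (∀ k, u.pt k = (t.pt k).act e) → ∀ k, (X u).pt k = ((X t).pt k).act e

/-- `w = X Y v - Y X v`, for families `X` and `Y` of operators on the Tate modules. -/
def IsBracket (X Y : ∀ s, T L p a (S s) (m s) → T L p a (S s) (m s))
    (v w : Vec L p a S m n) : Prop :=
  ∀ b s k, (w b s).pt k = (X s (Y s (v b s))).pt k - (Y s (X s (v b s))).pt k

/-- The hypothesis on the branch points and the exponents. -/
structure Generic (p : ℕ) (ζ : K) (a : ι → K) (S : σ → Finset ι) (m : σ → ι → ℕ) : Prop where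
  inj : ∀ s, Set.InjOn a (S s)
  two : ∀ s, 2 ≤ (S s).card
  exponent : ∀ s, ∀ i ∈ S s, (m s i).Coprime p
  degree : ∀ s, (∑ i ∈ S s, m s i).Coprime p
  connected : ∀ s, ∀ i ∈ S s, ∀ j ∈ S s,
    Relation.ReflTransGen (fun u v => u ∈ S s ∧ v ∈ S s ∧ Free p ζ a S u v) i j
  nonzero : ∀ s, 4 ≤ (S s).card → ∃ i ∈ S s, ∃ j ∈ S s, Free p ζ a S i j ∧
    (m s i + m s j).Coprime p
  separated : ∀ s t, s ≠ t → S s = S t → 3 ≤ (S s).card → ∃ i ∈ S s, ∃ j ∈ S s, ∃ k ∈ S s,
    ∃ l ∈ S s, Free p ζ a S i j ∧ Free p ζ a S k l ∧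
      ¬ ((m s i + m s j) * (m t k + m t l)) ^ 2 ≡
        ((m t i + m t j) * (m s k + m s l)) ^ 2 [MOD p]

end Pool.Agent.PTate.Out
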