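import Pool.Agent.HTate.DensC
import Pool.Agent.PTate.Out

/-!
# The hypothesis on the branch points holds for almost all tuples of integers
-/

set_option autoImplicit false

noncomputable section

namespace Pool.Agent.PTate

open scoped Classical
open Pool.Agent.HTate (GoodAt goodRes goodRes_card bad_le)

private theorem dens_val_one {q : ℕ} (hq : q.Prime) {m : ℤ} (h1 : (q : ℤ) ∣ m)
    (h2 : ¬ (q : ℤ) ^ 2 ∣ m) : padicValRat q (m : ℚ) = 1 := by
  have : Fact q.Prime := ⟨hq⟩
  have hm : m ≠ 0 := by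
    rintro rfl
    exact h2 (dvd_zero _)
  rw [padicValRat.of_int]
  have h3 : 1 ≤ padicValInt q m := by
    have := (padicValInt_dvd_iff 1 m).1 (by simpa using h1)
    rcases this with h | h
    · exact absurd h hm
    · exact h
  have h4 : ¬ 2 ≤ padicValInt q m := by
    intro h
    exact h2 ((padicValInt_dvd_iff 2 m).2 (Or.inr h))
  have h5 : padicValInt q m = 1 := by omega
  rw [h5]
  rfl

private theorem dens_val_zero {q : ℕ} {m : ℤ} (h : ¬ (q : ℤ) ∣ m) :
    (m : ℚ) ≠ 0 ∧ padicValRat q (m : ℚ) = 0 := by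
  refine ⟨?_, ?_⟩
  · intro h0
    have : m = 0 := by exact_mod_cast h0
    rw [this] at h
    exact h (dvd_zero _)
  · rw [padicValRat.of_int, padicValInt.eq_zero_of_not_dvd h]
    rfl

/-- A difference which is exactly divisible by a prime number which divides no other difference is
free over every number field whose degree is prime to `p`. -/
theorem free_of_good {p : ℕ} (hp : p.Prime) {K : Type} [Field K] [NumberField K]
    (hd : (Module.finrank ℚ K).Coprime p) {ζ : K} (hζ : IsPrimitiveRoot ζ p) {n : ℕ}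
    {a : Fin n → ℤ} {i j : Fin n} {q : ℕ} (hq : q.Prime) (h : GoodAt a i j q) {σ : Type}
    (S : σ → Finset (Fin n)) : Free p ζ (fun u => (a u : K)) S i j := by
  have : Fact q.Prime := ⟨hq⟩
  obtain ⟨h1, h2, h3⟩ := h
  intro R e c l hR hE
  have hint : ∀ u v : Fin n, Algebra.norm ℚ ((a u : K) - (a v : K)) =
      ((a u - a v : ℤ) : ℚ) ^ Module.finrank ℚ K := by
    intro u v
    have e1 : (a u : K) - (a v : K) = algebraMap ℚ K ((a u - a v : ℤ) : ℚ) := by
      rw [map_intCast]
      push_cast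
      rfl
    rw [e1, Algebra.norm_algebraMap]
  have hL : padicValRat q ((a i - a j : ℤ) : ℚ) = 1 := dens_val_one hq h1 h2
  have hL0 : ((a i - a j : ℤ) : ℚ) ≠ 0 := by
    intro h0
    rw [h0] at hL
    simp at hL
  have hN := congrArg (Algebra.norm ℚ) hE
  rw [hint, map_mul, map_mul, map_pow, map_pow, map_prod] at hN
  have hz0 : ζ ≠ 0 := hζ.ne_zero hp.ne_zero
  have hzN : Algebra.norm ℚ ζ ≠ 0 := Algebra.norm_ne_zero_iff.2 hz0
  have hzv : padicValRat q (Algebra.norm ℚ ζ) = 0 := by
    have e1 : (Algebra.norm ℚ ζ) ^ p = 1 := by rw [← map_pow, hζ.pow_eq_one, map_one]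
    have e2 := congrArg (padicValRat q) e1
    rw [padicValRat.pow, padicValRat.one] at e2
    have e3 : (p : ℤ) ≠ 0 := by exact_mod_cast hp.ne_zero
    rcases mul_eq_zero.1 e2 with h | h
    · exact absurd h e3
    · exact h
  have hd0 : 0 < Module.finrank ℚ K := Module.finrank_pos
  have hprod : ∀ q' ∈ R, ((Algebra.norm ℚ) (((a q'.1 : K) - (a q'.2 : K)) ^ e q') : ℚ) ≠ 0 ∧
      padicValRat q ((Algebra.norm ℚ) (((a q'.1 : K) - (a q'.2 : K)) ^ e q')) = 0 := by
    intro q' hq'
    obtain ⟨r1, r2, r3, -⟩ := hR q' hq'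
    obtain ⟨v1, v2⟩ := dens_val_zero (h3 q'.1 q'.2 r1 r2 r3)
    rw [map_pow, hint]
    refine ⟨pow_ne_zero _ (pow_ne_zero _ v1), ?_⟩
    rw [padicValRat.pow, padicValRat.pow, v2, mul_zero, mul_zero]
  have hc0 : Algebra.norm ℚ c ≠ 0 := by
    intro h0
    rw [h0, zero_pow hp.ne_zero, mul_zero, zero_mul] at hN
    exact pow_ne_zero _ hL0 hN
  have hPne : ∏ q' ∈ R, (Algebra.norm ℚ) (((a q'.1 : K) - (a q'.2 : K)) ^ e q') ≠ 0 :=
    Finset.prod_ne_zero_iff.2 fun q' hq' => (hprod q' hq').1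
  have hPv : padicValRat q
      (∏ q' ∈ R, (Algebra.norm ℚ) (((a q'.1 : K) - (a q'.2 : K)) ^ e q')) = 0 := by
    have key : ∀ T : Finset (Fin n × Fin n), T ⊆ R →
        padicValRat q (∏ q' ∈ T, (Algebra.norm ℚ) (((a q'.1 : K) - (a q'.2 : K)) ^ e q')) = 0 := by
      intro T
      induction T using Finset.induction_on with
      | empty => intro _; simp
      | insert x T hx ih =>
        intro hT
        rw [Finset.prod_insert hx, padicValRat.mul (hprod x (hT (Finset.mem_insert_self _ _))).1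
          (Finset.prod_ne_zero_iff.2 fun q' hq' =>
            (hprod q' (hT (Finset.mem_insert_of_mem hq'))).1),
          (hprod x (hT (Finset.mem_insert_self _ _))).2,
          ih fun y hy => hT (Finset.mem_insert_of_mem hy), add_zero]
    exact key R (Finset.Subset.refl _)
  have hv := congrArg (padicValRat q) hN
  rw [padicValRat.pow, hL, padicValRat.mul (mul_ne_zero (pow_ne_zero _ hzN)
    (pow_ne_zero _ hc0)) hPne, hPv, padicValRat.mul (pow_ne_zero _ hzN) (pow_ne_zero _ hc0),
    padicValRat.pow, hzv, padicValRat.pow] at hv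
  have hdvd : (p : ℤ) ∣ (Module.finrank ℚ K : ℤ) :=
    ⟨padicValRat q (Algebra.norm ℚ c), by linear_combination hv⟩
  have hdvd' : p ∣ Module.finrank ℚ K := by exact_mod_cast hdvd
  have h5 := hd.symm.eq_one_of_dvd hdvd'
  exact hp.one_lt.ne' h5

/-- the product over many primes is small -/
private theorem dc_small (B : ℕ) {ε : ℝ} (hε : 0 < ε) :
    ∃ Q : Finset ℕ, (∀ q ∈ Q, q.Prime) ∧ (∀ q ∈ Q, B ≤ q) ∧
      ∏ q ∈ Q, (1 - 1 / (4 * (q : ℝ))) < ε := by
  have h1 := not_summable_one_div_on_primes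
  rw [not_summable_iff_tendsto_nat_atTop_of_nonneg] at h1
  swap
  · intro m
    exact Set.indicator_nonneg (fun a _ => by positivity) m
  set S : ℝ := ∑ m ∈ Finset.range B, Set.indicator {p : ℕ | p.Prime} (fun m : ℕ => (1 : ℝ) / m) m
    with hS
  obtain ⟨m, hm1, hm2⟩ := ((h1.eventually_gt_atTop (S + 4 * (-Real.log ε))).and
    (Filter.eventually_ge_atTop B)).exists
  refine ⟨(Finset.Ico B m).filter Nat.Prime, fun q hq => (Finset.mem_filter.1 hq).2,
    fun q hq => (Finset.mem_Ico.1 (Finset.mem_filter.1 hq).1).1, ?_⟩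
  have h2 : ∑ q ∈ (Finset.Ico B m).filter Nat.Prime, (1 : ℝ) / q > 4 * (-Real.log ε) := by
    rw [Finset.sum_filter]
    have h3 : ∑ q ∈ Finset.Ico B m, (if q.Prime then (1 : ℝ) / q else 0) =
        ∑ q ∈ Finset.Ico B m,
          Set.indicator {p : ℕ | p.Prime} (fun m : ℕ => (1 : ℝ) / m) q := by
      refine Finset.sum_congr rfl fun q _ => ?_
      rw [Set.indicator_apply]
      rfl
    rw [h3, Finset.sum_Ico_eq_sub _ hm2]
    linarith
  have h4 : ∏ q ∈ (Finset.Ico B m).filter Nat.Prime, (1 - 1 / (4 * (q : ℝ))) ≤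
      Real.exp (-∑ q ∈ (Finset.Ico B m).filter Nat.Prime, 1 / (4 * (q : ℝ))) := by
    rw [← Finset.sum_neg_distrib, Real.exp_sum]
    refine Finset.prod_le_prod (fun q hq => ?_) fun q hq => ?_
    · have h5 : (1 : ℝ) ≤ q := by exact_mod_cast (Finset.mem_filter.1 hq).2.one_lt.le
      have h6 : 1 / (4 * (q : ℝ)) ≤ 1 := by
        rw [div_le_one (by positivity)]
        linarith
      linarith
    · exact Real.one_sub_le_exp_neg _
  refine h4.trans_lt ?_
  have h5 : ∑ q ∈ (Finset.Ico B m).filter Nat.Prime, 1 / (4 * (q : ℝ)) =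
      (1 / 4) * ∑ q ∈ (Finset.Ico B m).filter Nat.Prime, (1 : ℝ) / q := by
    rw [Finset.mul_sum]
    refine Finset.sum_congr rfl fun q _ => ?_
    rw [div_mul_div_comm, one_mul]
  rw [h5, ← Real.lt_log_iff_exp_lt hε]
  linarith

private theorem goodRes_le {n : ℕ} (i j : Fin n) {q : ℕ} (hq : q.Prime) :
    ((goodRes i j q).card : ℝ) / (q : ℝ) ^ (2 * n) ≤ 1 := by
  have hq0 : (0 : ℝ) < q := Nat.cast_pos.2 hq.pos
  rw [div_le_one (by positivity)]
  have h1 : (goodRes i j q).card ≤ (q ^ 2) ^ n := by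
    refine (Finset.card_le_univ _).trans ?_
    rw [Fintype.card_fun, Fintype.card_fin, Fintype.card_fin]
  have h2 : ((goodRes i j q).card : ℝ) ≤ ((q ^ 2) ^ n : ℕ) := by exact_mod_cast h1
  refine h2.trans (le_of_eq ?_)
  push_cast
  rw [← pow_mul]

/-- almost all tuples are free at a given pair -/
private theorem dc_pair {p : ℕ} (hp : p.Prime) {K : Type} [Field K] [NumberField K]
    (hd : (Module.finrank ℚ K).Coprime p) {ζ : K} (hζ : IsPrimitiveRoot ζ p) {n : ℕ} {i j : Fin n}
    (hij : i ≠ j) {ε : ℝ} (hε : 0 < ε) :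
    ∀ᶠ N : ℕ in Filter.atTop,
      (Nat.card {b : Fin n → Fin N // ¬ Free p ζ (fun u => ((b u : ℕ) : K))
        (fun _ : Unit => (Finset.univ : Finset (Fin n))) i j} : ℝ) ≤ ε * (N : ℝ) ^ n := by
  obtain ⟨Q, hQ1, hQ2, hQ3⟩ := dc_small (2 * n ^ 2 + 2) (half_pos hε)
  filter_upwards [bad_le i j Q hQ1 (half_pos hε)] with N hN
  have h1 : Nat.card {b : Fin n → Fin N // ¬ Free p ζ (fun u => ((b u : ℕ) : K))
        (fun _ : Unit => (Finset.univ : Finset (Fin n))) i j} ≤
      Nat.card {b : Fin n → Fin N // ∀ q ∈ Q, ¬ GoodAt (fun u => ((b u : ℕ) : ℤ)) i j q} := by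
    refine Nat.card_le_card_of_injective (fun b => ⟨b.1, fun q hq hg => b.2 ?_⟩) ?_
    · have h2 := free_of_good hp hd hζ (hQ1 q hq) hg (fun _ : Unit => (Finset.univ : Finset (Fin n)))
      simpa using h2
    · intro b b' h
      apply Subtype.ext
      exact congrArg (fun c => c.1) h
  have h2 : (Nat.card {b : Fin n → Fin N // ¬ Free p ζ (fun u => ((b u : ℕ) : K))
        (fun _ : Unit => (Finset.univ : Finset (Fin n))) i j} : ℝ) ≤
      Nat.card {b : Fin n → Fin N // ∀ q ∈ Q, ¬ GoodAt (fun u => ((b u : ℕ) : ℤ)) i j q} := by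
    exact_mod_cast h1
  refine (h2.trans hN).trans (mul_le_mul_of_nonneg_right ?_ (by positivity))
  have h3 : ∏ q ∈ Q, (1 - (goodRes i j q).card / (q : ℝ) ^ (2 * n)) ≤
      ∏ q ∈ Q, (1 - 1 / (4 * (q : ℝ))) := by
    refine Finset.prod_le_prod (fun q hq => ?_) fun q hq => ?_
    · have h7 := goodRes_le i j (hQ1 q hq)
      linarith
    · have h4 := goodRes_card hij (hQ1 q hq) (hQ2 q hq)
      have h5 : (0 : ℝ) < q := Nat.cast_pos.2 (hQ1 q hq).pos
      have h6 : 1 / (4 * (q : ℝ)) ≤ (goodRes i j q).card / (q : ℝ) ^ (2 * n) := by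
        rw [le_div_iff₀ (by positivity), div_mul_eq_mul_div, one_mul]
        exact h4
      linarith
  linarith

private theorem dens_card_fun (n M : ℕ) : Nat.card (Fin n → Fin M) = M ^ n := by
  rw [Nat.card_eq_fintype_card, Fintype.card_fun, Fintype.card_fin, Fintype.card_fin]

/-- **100 percent**: the proportion of the tuples of integers `0 ≤ a i < N` for which all pairs
are free tends to one -/
theorem density {p : ℕ} (hp : p.Prime) {K : Type} [Field K] [NumberField K]
    (hd : (Module.finrank ℚ K).Coprime p) {ζ : K} (hζ : IsPrimitiveRoot ζ p) (n : ℕ) : Filter.Tendsto (fun N : ℕ =>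
    (Nat.card {b : Fin n → Fin N // ∀ i j, i ≠ j → Free p ζ (fun u => ((b u : ℕ) : K))
      (fun _ : Unit => (Finset.univ : Finset (Fin n))) i j} : ℝ) / (N : ℝ) ^ n)
    Filter.atTop (nhds 1) := by
  rw [Metric.tendsto_nhds]
  intro ε hε
  set δ : ℝ := ε / (n ^ 2 + 1) with hδ
  have hδ0 : 0 < δ := by positivity
  have h1 : ∀ᶠ N : ℕ in Filter.atTop, ∀ i j : Fin n, i ≠ j →
      (Nat.card {b : Fin n → Fin N // ¬ Free p ζ (fun u => ((b u : ℕ) : K))
        (fun _ : Unit => (Finset.univ : Finset (Fin n))) i j} : ℝ) ≤ δ * (N : ℝ) ^ n := by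
    rw [Filter.eventually_all]
    intro i
    rw [Filter.eventually_all]
    intro j
    by_cases hij : i = j
    · exact Filter.Eventually.of_forall fun N h => absurd hij h
    · filter_upwards [dc_pair hp hd hζ hij hδ0] with N hN _
      exact hN
  filter_upwards [h1, Filter.eventually_gt_atTop 0] with N hN hN0
  have hN1 : (0 : ℝ) < N := Nat.cast_pos.2 hN0
  have hNn : (0 : ℝ) < (N : ℝ) ^ n := by positivity
  set F : (Fin n → Fin N) → Fin n → Fin n → Prop := fun b i j =>
    Free p ζ (fun u => ((b u : ℕ) : K)) (fun _ : Unit => (Finset.univ : Finset (Fin n))) i j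
    with hF
  have e1 : Nat.card {b : Fin n → Fin N // ∀ i j, i ≠ j → F b i j} =
      (Finset.univ.filter fun b : Fin n → Fin N => ∀ i j, i ≠ j → F b i j).card := by
    rw [Nat.card_eq_fintype_card, Fintype.card_subtype]
  have e2 : (Finset.univ.filter fun b : Fin n → Fin N => ∀ i j, i ≠ j → F b i j).card +
      (Finset.univ.filter fun b : Fin n → Fin N => ¬ ∀ i j, i ≠ j → F b i j).card = N ^ n := by
    rw [Finset.card_filter_add_card_filter_not, Finset.card_univ, ← Nat.card_eq_fintype_card,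
      dens_card_fun]
  have e3 : ((Finset.univ.filter fun b : Fin n → Fin N => ¬ ∀ i j, i ≠ j → F b i j).card : ℝ) ≤
      (n : ℝ) ^ 2 * (δ * (N : ℝ) ^ n) := by
    have e4 : (Finset.univ.filter fun b : Fin n → Fin N => ¬ ∀ i j, i ≠ j → F b i j) ⊆
        (Finset.univ.filter fun p : Fin n × Fin n => p.1 ≠ p.2).biUnion fun p =>
          Finset.univ.filter fun b : Fin n → Fin N => ¬ F b p.1 p.2 := by
      intro b hb
      have hb2 := (Finset.mem_filter.1 hb).2
      push Not at hb2
      obtain ⟨i, j, hij, hb3⟩ := hb2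
      rw [Finset.mem_biUnion]
      exact ⟨(i, j), Finset.mem_filter.2 ⟨Finset.mem_univ _, hij⟩,
        Finset.mem_filter.2 ⟨Finset.mem_univ _, hb3⟩⟩
    have e5 := (Finset.card_le_card e4).trans Finset.card_biUnion_le
    have e6 : ((Finset.univ.filter fun b : Fin n → Fin N =>
        ¬ ∀ i j, i ≠ j → F b i j).card : ℝ) ≤
        ∑ p : Fin n × Fin n with p.1 ≠ p.2,
          ((Finset.univ.filter fun b : Fin n → Fin N => ¬ F b p.1 p.2).card : ℝ) := by
      exact_mod_cast e5
    refine e6.trans ?_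
    have e7 : ∀ p ∈ (Finset.univ.filter fun p : Fin n × Fin n => p.1 ≠ p.2),
        ((Finset.univ.filter fun b : Fin n → Fin N => ¬ F b p.1 p.2).card : ℝ) ≤
          δ * (N : ℝ) ^ n := by
      intro p hp
      have := hN p.1 p.2 (Finset.mem_filter.1 hp).2
      rw [Nat.card_eq_fintype_card, Fintype.card_subtype] at this
      exact this
    refine (Finset.sum_le_sum e7).trans ?_
    rw [Finset.sum_const, nsmul_eq_mul]
    refine mul_le_mul_of_nonneg_right ?_ (by positivity)
    have e8 : (Finset.univ.filter fun p : Fin n × Fin n => p.1 ≠ p.2).card ≤ n ^ 2 := by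
      refine (Finset.card_filter_le _ _).trans ?_
      rw [Finset.card_univ, Fintype.card_prod, Fintype.card_fin, pow_two]
    exact_mod_cast e8
  have e4 : ((Finset.univ.filter fun b : Fin n → Fin N => ∀ i j, i ≠ j → F b i j).card : ℝ) +
      (Finset.univ.filter fun b : Fin n → Fin N => ¬ ∀ i j, i ≠ j → F b i j).card =
        (N : ℝ) ^ n := by exact_mod_cast e2
  rw [e1, Real.dist_eq]
  have e5 : ((Finset.univ.filter fun b : Fin n → Fin N => ∀ i j, i ≠ j → F b i j).card : ℝ) /
      (N : ℝ) ^ n - 1 = -(((Finset.univ.filter fun b : Fin n → Fin N =>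
        ¬ ∀ i j, i ≠ j → F b i j).card : ℝ) / (N : ℝ) ^ n) := by
    rw [div_sub_one hNn.ne', ← neg_div]
    congr 1
    linarith
  rw [e5, abs_neg, abs_of_nonneg (by positivity), div_lt_iff₀ hNn]
  refine e3.trans_lt ?_
  rw [← mul_assoc]
  refine mul_lt_mul_of_pos_right ?_ hNn
  rw [hδ, mul_div_assoc', div_lt_iff₀ (by positivity)]
  nlinarith

theorem Free.mono {p : ℕ} {K : Type} [Field K] {ζ : K} {n : ℕ} {a : Fin n → K} {σ : Type}
    (S : σ → Finset (Fin n)) {i j : Fin n}
    (h : Free p ζ a (fun _ : Unit => (Finset.univ : Finset (Fin n))) i j) : Free p ζ a S i j := by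
  intro R e c l hR
  refine h R e c l fun q hq => ?_
  obtain ⟨h1, h2, h3, -⟩ := hR q hq
  exact ⟨h1, h2, h3, (), Finset.mem_univ _, Finset.mem_univ _⟩

/-- If all pairs are free then the hypothesis of the theorems on Tate classes holds, for all sets
`S s` and all exponents which satisfy the obvious conditions. -/
theorem generic_of_free {p : ℕ} (hp : p.Prime) (hp2 : p ≠ 2) {K : Type} [Field K] {ζ : K} {n : ℕ}
    {a : Fin n → K} {σ : Type} {S : σ → Finset (Fin n)} {m : σ → Fin n → ℕ}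
    (htwo : ∀ s, 2 ≤ (S s).card) (hm : ∀ s, ∀ i ∈ S s, (m s i).Coprime p)
    (hM : ∀ s, (∑ i ∈ S s, m s i).Coprime p)
    (hsep : ∀ s t, s ≠ t → S s = S t → 3 ≤ (S s).card → ∃ i ∈ S s, ∃ j ∈ S s, ∃ k ∈ S s,
      ∃ l ∈ S s, i ≠ j ∧ k ≠ l ∧ ¬ ((m s i + m s j) * (m t k + m t l)) ^ 2 ≡
        ((m t i + m t j) * (m s k + m s l)) ^ 2 [MOD p])
    (h : ∀ i j, i ≠ j → Free p ζ a (fun _ : Unit => (Finset.univ : Finset (Fin n))) i j) :
    Out.Generic p ζ a S m where
  inj s i hi j hj hij := by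
    by_contra hne
    refine h i j hne ∅ (fun _ => 0) 0 0 (fun q hq => absurd hq (Finset.notMem_empty q)) ?_
    rw [hij, sub_self, zero_pow hp.ne_zero, mul_zero, zero_mul]
  two := htwo
  exponent := hm
  degree := hM
  connected s i hi j hj := by
    by_cases hij : i = j
    · rw [hij]
    · exact Relation.ReflTransGen.single ⟨hi, hj, (h i j hij).mono S⟩
  nonzero s hs := by
    obtain ⟨i, hi, j, hj, k, hk, hij, hik, hjk⟩ := Finset.two_lt_card.1 (by omega : 2 < (S s).card)
    by_contra hcon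
    push Not at hcon
    have h0 : ∀ u ∈ S s, ∀ v ∈ S s, u ≠ v → p ∣ m s u + m s v := by
      intro u hu v hv huv
      by_contra hd
      exact hcon u hu v hv ((h u v huv).mono S) ((Nat.Prime.coprime_iff_not_dvd hp).2 hd).symm
    have h1 := h0 i hi j hj hij
    have h2 := h0 i hi k hk hik
    have h3 := h0 j hj k hk hjk
    have h4 : p ∣ 2 * m s i := by
      have h5 : p ∣ (m s i + m s j) + (m s i + m s k) := dvd_add h1 h2
      have h6 : (m s i + m s j) + (m s i + m s k) = 2 * m s i + (m s j + m s k) := by ring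
      rw [h6] at h5
      exact (Nat.dvd_add_left h3).1 h5
    rcases hp.dvd_mul.1 h4 with h5 | h5
    · exact hp2 ((Nat.prime_dvd_prime_iff_eq hp Nat.prime_two).1 h5)
    · exact ((Nat.Prime.coprime_iff_not_dvd hp).1 (hm s i hi).symm) h5
  separated s t hst hS h3 := by
    obtain ⟨i, hi, j, hj, k, hk, l, hl, hij, hkl, h5⟩ := hsep s t hst hS h3
    exact ⟨i, hi, j, hj, k, hk, l, hl, (h i j hij).mono S, (h k l hkl).mono S, h5⟩

/-- **100 percent**: for fixed sets `S s` and fixed exponents the proportion of the tuples of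
integers `0 ≤ a i < N` for which the hypothesis of the theorems on Tate classes holds over `K`, a
number field of degree prime to `p` (for example the field of the roots of unity of order `p`),
tends to one. -/
theorem generic_density {p : ℕ} (hp : p.Prime) (hp2 : p ≠ 2) {K : Type} [Field K] [NumberField K]
    (hd : (Module.finrank ℚ K).Coprime p) {ζ : K} (hζ : IsPrimitiveRoot ζ p) (n : ℕ) {σ : Type}
    {S : σ → Finset (Fin n)} {m : σ → Fin n → ℕ}
    (htwo : ∀ s, 2 ≤ (S s).card) (hm : ∀ s, ∀ i ∈ S s, (m s i).Coprime p)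
    (hM : ∀ s, (∑ i ∈ S s, m s i).Coprime p)
    (hsep : ∀ s t, s ≠ t → S s = S t → 3 ≤ (S s).card → ∃ i ∈ S s, ∃ j ∈ S s, ∃ k ∈ S s,
      ∃ l ∈ S s, i ≠ j ∧ k ≠ l ∧ ¬ ((m s i + m s j) * (m t k + m t l)) ^ 2 ≡
        ((m t i + m t j) * (m s k + m s l)) ^ 2 [MOD p]) :
    Filter.Tendsto (fun N : ℕ => (Nat.card {b : Fin n → Fin N //
      Out.Generic p ζ (fun u => ((b u : ℕ) : K)) S m} : ℝ) / (N : ℝ) ^ n) Filter.atTop
        (nhds 1) := by
  have h1 := density hp hd hζ n
  refine tendsto_of_tendsto_of_tendsto_of_le_of_le' h1 tendsto_const_nhds ?_ ?_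
  · refine Filter.Eventually.of_forall fun N => ?_
    refine div_le_div_of_nonneg_right ?_ (by positivity)
    have h2 : Nat.card {b : Fin n → Fin N // ∀ i j, i ≠ j →
        Free p ζ (fun u => ((b u : ℕ) : K)) (fun _ : Unit => (Finset.univ : Finset (Fin n))) i j} ≤
        Nat.card {b : Fin n → Fin N // Out.Generic p ζ (fun u => ((b u : ℕ) : K)) S m} := by
      refine Nat.card_le_card_of_injective
        (fun b => ⟨b.1, generic_of_free hp hp2 htwo hm hM hsep b.2⟩) ?_
      intro b b' h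
      apply Subtype.ext
      exact congrArg (fun c => c.1) h
    exact_mod_cast h2
  · filter_upwards [Filter.eventually_gt_atTop 0] with N hN
    have hN1 : (0 : ℝ) < N := Nat.cast_pos.2 hN
    rw [div_le_one (by positivity)]
    have h2 : Nat.card {b : Fin n → Fin N // Out.Generic p ζ (fun u => ((b u : ℕ) : K)) S m} ≤
        Nat.card (Fin n → Fin N) := Nat.card_le_card_of_injective (fun b => b.1) fun b b' h =>
      Subtype.ext h
    rw [dens_card_fun] at h2
    exact_mod_cast h2

end Pool.Agent.PTate
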