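import Mathlib

/-!
# The determinant of a matrix of polynomials with dominating entries
-/

set_option autoImplicit false

noncomputable section

namespace Pool.Agent.PTate

open Polynomial
open scoped Classical

variable {k : Type} [Field k]

private lemma DetW_rot (m β : ℕ) (i : Fin (m + 1)) :
    ((((finRotate (m + 1)) ^ β) i : Fin (m + 1)) : ℕ) = (β + i) % (m + 1) := by
  induction β with
  | zero =>
    rw [pow_zero, Equiv.Perm.one_apply, Nat.zero_add, Nat.mod_eq_of_lt i.2]
  | succ β ih =>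
    rw [pow_succ', Equiv.Perm.mul_apply, finRotate_succ_apply, Fin.val_add, ih]
    have h1 : ((1 : Fin (m + 1)) : ℕ) = 1 % (m + 1) := rfl
    rw [h1, ← Nat.add_mod]
    congr 1
    omega

/-- the degree of a term of the Leibniz formula -/
private lemma DetW_term {α β : ℕ} (hα : 0 < α) (γ : Fin α → ℕ)
    (N : Matrix (Fin α) (Fin α) k[X])
    (h : ∀ r r', N r r' ≠ 0 → α * (N r r').natDegree + γ r' ≤ β + γ r)
    (σ : Equiv.Perm (Fin α)) (h0 : ∀ i, N i (σ i) ≠ 0) :
    (∏ i, N i (σ i)).natDegree ≤ β ∧ ((∏ i, N i (σ i)).natDegree = β →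
      ∀ i, α * (N i (σ i)).natDegree + γ (σ i) = β + γ i) := by
  have h1 : ∀ i ∈ Finset.univ, α * (N i (σ i)).natDegree + γ (σ i) ≤ β + γ i :=
    fun i _ => h i (σ i) (h0 i)
  have h2 := Finset.sum_le_sum h1
  have hsum : ∑ i, γ (σ i) = ∑ i, γ i := Equiv.sum_comp σ γ
  have hl : ∑ i, (α * (N i (σ i)).natDegree + γ (σ i)) =
      α * ∑ i, (N i (σ i)).natDegree + ∑ i, γ i := by
    rw [Finset.sum_add_distrib, ← Finset.mul_sum, hsum]
  have hr : ∑ i : Fin α, (β + γ i) = α * β + ∑ i, γ i := by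
    rw [Finset.sum_add_distrib, Finset.sum_const, Finset.card_univ, Fintype.card_fin,
      smul_eq_mul]
  have hdeg : (∏ i, N i (σ i)).natDegree = ∑ i, (N i (σ i)).natDegree :=
    natDegree_prod _ _ fun i _ => h0 i
  rw [hl, hr] at h2
  rw [hdeg]
  refine ⟨Nat.le_of_mul_le_mul_left (by omega) hα, fun he i => ?_⟩
  have h3 := (Finset.sum_eq_sum_iff_of_le h1).1 (by rw [hl, hr, he])
  exact h3 i (Finset.mem_univ i)

/-- The entries `N r r'` with `r' = r + β` modulo `α` dominate; the determinant has the degree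
`β` and the sign of the leading coefficient is the sign of the permutation `r ↦ r + β` of the
residues modulo `α`. -/
theorem det_weight {α β : ℕ} (hα : 0 < α) (γ : Fin α → ℕ) (hγ : ∀ r, γ r % α = r)
    (N : Matrix (Fin α) (Fin α) k[X]) {c : k} (hc : c ≠ 0)
    (h : ∀ r r', N r r' ≠ 0 → α * (N r r').natDegree + γ r' ≤ β + γ r)
    (h' : ∀ r r' : Fin α, (r' : ℕ) = (β + r) % α →
      N r r' ≠ 0 ∧ α * (N r r').natDegree + γ r' = β + γ r ∧ (N r r').leadingCoeff = c) :
    N.det.natDegree = β ∧ N.det.leadingCoeff = (-1) ^ ((α - 1) * β) * c ^ α := by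
  obtain ⟨m, rfl⟩ : ∃ m, α = m + 1 := ⟨α - 1, by omega⟩
  set π : Equiv.Perm (Fin (m + 1)) := (finRotate (m + 1)) ^ β with hπ
  have hπ' : ∀ i : Fin (m + 1), ((π i : Fin (m + 1)) : ℕ) = (β + i) % (m + 1) := DetW_rot m β
  have hdet : N.det = ∑ σ : Equiv.Perm (Fin (m + 1)),
      Equiv.Perm.sign σ • ∏ i, N i (σ i) := by
    rw [← Matrix.det_transpose, Matrix.det_apply]
    rfl
  -- the terms
  have hterm : ∀ σ : Equiv.Perm (Fin (m + 1)), (∏ i, N i (σ i)).natDegree ≤ β ∧
      (σ ≠ π → (∏ i, N i (σ i)).coeff β = 0) := by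
    intro σ
    by_cases h0 : ∀ i, N i (σ i) ≠ 0
    · obtain ⟨k1, k2⟩ := DetW_term hα γ N h σ h0
      refine ⟨k1, fun hne => ?_⟩
      apply coeff_eq_zero_of_natDegree_lt
      refine lt_of_le_of_ne k1 fun he => hne ?_
      ext i
      rw [hπ' i]
      have h3 := k2 he i
      have h4 := congrArg (· % (m + 1)) h3
      simp only [Nat.mul_add_mod] at h4
      rw [hγ] at h4
      rw [h4, Nat.add_mod, hγ i, ← Nat.add_mod_right, Nat.add_mod β i (m + 1)]
      simp
    · push Not at h0
      obtain ⟨i, hi⟩ := h0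
      have : ∏ i, N i (σ i) = 0 := Finset.prod_eq_zero (Finset.mem_univ i) hi
      rw [this]
      exact ⟨by simp, fun _ => by simp⟩
  have hπt : (∏ i, N i (π i)).coeff β = c ^ (m + 1) := by
    have h0 : ∀ i, N i (π i) ≠ 0 := fun i => (h' i (π i) (hπ' i)).1
    have hdeg : (∏ i, N i (π i)).natDegree = β := by
      rw [natDegree_prod _ _ fun i _ => h0 i]
      have h1 : (m + 1) * ∑ i, (N i (π i)).natDegree + ∑ i, γ (π i) =
          (m + 1) * β + ∑ i, γ i := by
        rw [Finset.mul_sum, ← Finset.sum_add_distrib,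
          Finset.sum_congr rfl fun i _ => (h' i (π i) (hπ' i)).2.1, Finset.sum_add_distrib,
          Finset.sum_const, Finset.card_univ, Fintype.card_fin, smul_eq_mul]
      rw [Equiv.sum_comp π γ] at h1
      exact Nat.eq_of_mul_eq_mul_left hα (by omega)
    have h2 : (∏ i, N i (π i)).leadingCoeff = c ^ (m + 1) := by
      rw [leadingCoeff_prod, Finset.prod_congr rfl fun i _ => (h' i (π i) (hπ' i)).2.2,
        Finset.prod_const, Finset.card_univ, Fintype.card_fin]
    rw [leadingCoeff, hdeg] at h2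
    exact h2
  have hsign : ((Equiv.Perm.sign π : ℤˣ) : ℤ) = (-1) ^ (m * β) := by
    rw [hπ, map_pow, sign_finRotate, ← pow_mul]
    simp
  have hcoeff : N.det.coeff β = (-1) ^ (m * β) * c ^ (m + 1) := by
    rw [hdet, finset_sum_coeff, Finset.sum_eq_single π]
    · rw [Units.smul_def, coeff_smul, hπt, hsign, zsmul_eq_mul]
      push_cast
      rfl
    · intro σ _ hne
      rw [Units.smul_def, coeff_smul, (hterm σ).2 hne, smul_zero]
    · intro hn
      exact absurd (Finset.mem_univ _) hn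
  have hne : N.det.coeff β ≠ 0 := by
    rw [hcoeff]
    exact mul_ne_zero (pow_ne_zero _ (neg_ne_zero.2 one_ne_zero)) (pow_ne_zero _ hc)
  have hle : N.det.natDegree ≤ β := by
    rw [hdet]
    refine natDegree_sum_le_of_forall_le _ _ fun σ _ => ?_
    rw [Units.smul_def]
    exact (natDegree_smul_le _ _).trans (hterm σ).1
  have hdeg : N.det.natDegree = β := le_antisymm hle (le_natDegree_of_ne_zero hne)
  refine ⟨hdeg, ?_⟩
  rw [leadingCoeff, hdeg, hcoeff, Nat.add_sub_cancel]

end Pool.Agent.PTate
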