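import Mathlib

/-!
# The ring `ℤ[t] / (1 + t + … + t ^ (p - 1))`
-/

set_option autoImplicit false

noncomputable section

namespace Pool.Agent.PTate

open Polynomial

/-- a polynomial which is zero modulo `p` is a multiple of `p` -/
private theorem polyZ_of_map {p : ℕ} {f : ℤ[X]} (h : f.map (Int.castRingHom (ZMod p)) = 0) :
    ∃ v : ℤ[X], f = (p : ℤ[X]) * v := by
  have h1 : C (p : ℤ) ∣ f := by
    rw [C_dvd_iff_dvd_coeff]
    intro i
    have h2 : (f.map (Int.castRingHom (ZMod p))).coeff i = 0 := by rw [h, coeff_zero]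
    rw [coeff_map, eq_intCast, ZMod.intCast_zmod_eq_zero_iff_dvd] at h2
    exact h2
  obtain ⟨v, hv⟩ := h1
  refine ⟨v, ?_⟩
  rw [hv]
  simp

/-- `(1 - t) ^ (p - 1) = 1 + t + … + t ^ (p - 1)` modulo `p` -/
private theorem polyZ_mod (p : ℕ) [Fact p.Prime] :
    (1 - X : (ZMod p)[X]) ^ (p - 1) = ∑ i ∈ Finset.range p, X ^ i := by
  have hne : (1 - X : (ZMod p)[X]) ≠ 0 := by
    intro h
    have h1 := congrArg (fun f => coeff f 1) h
    simp only [coeff_sub, coeff_one, coeff_X_one, coeff_zero] at h1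
    norm_num at h1
  have hp : p - 1 + 1 = p := Nat.sub_add_cancel (Fact.out : p.Prime).one_le
  refine mul_left_cancel₀ hne ?_
  rw [mul_neg_geom_sum, ← pow_succ', hp, sub_pow_char, one_pow]

/-- `(1 - t) ^ (p - 1)` is divisible by `p` modulo `1 + t + … + t ^ (p - 1)`. -/
theorem exists_poly_one {p : ℕ} [Fact p.Prime] : ∃ q v : ℤ[X],
    (1 - X : ℤ[X]) ^ (p - 1) = (p : ℤ[X]) * q + (∑ i ∈ Finset.range p, X ^ i) * v := by
  have h1 : ((1 - X : ℤ[X]) ^ (p - 1) - ∑ i ∈ Finset.range p, X ^ i).map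
      (Int.castRingHom (ZMod p)) = 0 := by
    rw [Polynomial.map_sub, Polynomial.map_pow, Polynomial.map_sub, Polynomial.map_one, map_X,
      Polynomial.map_sum]
    simp only [Polynomial.map_pow, map_X]
    rw [polyZ_mod, sub_self]
  obtain ⟨v, hv⟩ := polyZ_of_map h1
  exact ⟨v, 1, by rw [← hv]; ring⟩

/-- `p` is divisible by `(1 - t) ^ (p - 1)` modulo `1 + t + … + t ^ (p - 1)`. -/
theorem exists_poly_two {p : ℕ} [Fact p.Prime] : ∃ q v : ℤ[X],
    (p : ℤ[X]) = (1 - X : ℤ[X]) ^ (p - 1) * q + (∑ i ∈ Finset.range p, X ^ i) * v := by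
  have hp := (Fact.out : p.Prime)
  have hp1 : p - 1 + 1 = p := Nat.sub_add_cancel hp.one_le
  set ζ : ℂ := Complex.exp (2 * Real.pi * Complex.I / p) with hζ
  have hprim : IsPrimitiveRoot ζ p := Complex.isPrimitiveRoot_exp p hp.ne_zero
  set q : ℤ[X] := ∏ k ∈ Finset.range (p - 1), ∑ j ∈ Finset.range (k + 1), X ^ j with hq
  have h1 : aeval ζ ((p : ℤ[X]) - (1 - X) ^ (p - 1) * q) = 0 := by
    have h2 : ∏ k ∈ Finset.range (p - 1), (1 - ζ ^ (k + 1)) = (p : ℂ) := by
      have h3 : IsPrimitiveRoot ζ (p - 1 + 1) := by rwa [hp1]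
      rw [h3.prod_one_sub_pow_eq_order]
      conv_rhs => rw [← hp1]
      push_cast
      rfl
    have h3 : ∏ k ∈ Finset.range (p - 1), (1 - ζ ^ (k + 1)) =
        (1 - ζ) ^ (p - 1) * ∏ k ∈ Finset.range (p - 1), ∑ j ∈ Finset.range (k + 1), ζ ^ j := by
      have h4 : ∀ k ∈ Finset.range (p - 1), 1 - ζ ^ (k + 1) =
          (1 - ζ) * ∑ j ∈ Finset.range (k + 1), ζ ^ j := fun k _ =>
        (mul_neg_geom_sum ζ (k + 1)).symm
      rw [Finset.prod_congr rfl h4, Finset.prod_mul_distrib, Finset.prod_const, Finset.card_range]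
    rw [map_sub, map_natCast, map_mul, map_pow, map_sub, map_one, aeval_X, hq, map_prod]
    simp only [map_sum, map_pow, aeval_X]
    rw [← h3, h2, sub_self]
  have h2 := minpoly.isIntegrallyClosed_dvd (hprim.isIntegral hp.pos) h1
  rw [← cyclotomic_eq_minpoly hprim hp.pos, cyclotomic_prime] at h2
  obtain ⟨v, hv⟩ := h2
  exact ⟨q, v, by rw [← hv]; ring⟩

/-- `p - (1 + t + … + t ^ (p - 1)) = (1 - t) θ`, and `θ = - (1 - t) ^ (p - 2)` modulo `p`. -/
theorem poly_theta {p : ℕ} [Fact p.Prime] :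
    (p : ℤ[X]) - ∑ i ∈ Finset.range p, X ^ i =
      (1 - X) * ∑ l ∈ Finset.range (p - 1), ((p - 1 - l : ℕ) : ℤ[X]) * X ^ l ∧
    ∃ v : ℤ[X], ∑ l ∈ Finset.range (p - 1), ((p - 1 - l : ℕ) : ℤ[X]) * X ^ l =
      -(1 - X) ^ (p - 2) + (p : ℤ[X]) * v := by
  have hp := (Fact.out : p.Prime)
  have hp1 : p - 1 + 1 = p := Nat.sub_add_cancel hp.one_le
  have key : ∀ n : ℕ, ((n + 1 : ℕ) : ℤ[X]) - ∑ i ∈ Finset.range (n + 1), X ^ i =
      (1 - X) * ∑ l ∈ Finset.range n, ((n - l : ℕ) : ℤ[X]) * X ^ l := by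
    intro n
    induction n with
    | zero => simp
    | succ n ih =>
      have h1 : ∑ l ∈ Finset.range (n + 1), ((n + 1 - l : ℕ) : ℤ[X]) * X ^ l =
          (∑ l ∈ Finset.range n, ((n - l : ℕ) : ℤ[X]) * X ^ l) +
            ∑ l ∈ Finset.range (n + 1), X ^ l := by
        have h2 : ∑ l ∈ Finset.range n, ((n - l : ℕ) : ℤ[X]) * X ^ l =
            ∑ l ∈ Finset.range (n + 1), ((n - l : ℕ) : ℤ[X]) * X ^ l := by
          rw [Finset.sum_range_succ, Nat.sub_self, Nat.cast_zero, zero_mul, add_zero]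
        rw [h2, ← Finset.sum_add_distrib]
        refine Finset.sum_congr rfl fun l hl => ?_
        have h3 : l ≤ n := Nat.lt_succ_iff.1 (Finset.mem_range.1 hl)
        rw [Nat.sub_add_comm h3]
        push_cast
        ring
      rw [h1, mul_add, ← ih, mul_neg_geom_sum, Finset.sum_range_succ _ (n + 1)]
      push_cast
      ring
  have hθ := key (p - 1)
  rw [hp1] at hθ
  refine ⟨hθ, ?_⟩
  have h1 : (∑ l ∈ Finset.range (p - 1), ((p - 1 - l : ℕ) : ℤ[X]) * X ^ l +
      (1 - X) ^ (p - 2)).map (Int.castRingHom (ZMod p)) = 0 := by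
    have hne : (1 - X : (ZMod p)[X]) ≠ 0 := by
      intro h
      have h1 := congrArg (fun f => coeff f 1) h
      simp only [coeff_sub, coeff_one, coeff_X_one, coeff_zero] at h1
      norm_num at h1
    have h2 := congrArg (Polynomial.map (Int.castRingHom (ZMod p))) hθ
    rw [Polynomial.map_sub, Polynomial.map_natCast, Polynomial.map_sum, Polynomial.map_mul,
      Polynomial.map_sub, Polynomial.map_one, map_X] at h2
    simp only [Polynomial.map_pow, map_X] at h2
    rw [← polyZ_mod, CharP.cast_eq_zero, zero_sub] at h2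
    refine mul_left_cancel₀ hne ?_
    rw [mul_zero, Polynomial.map_add, mul_add, ← h2, Polynomial.map_pow, Polynomial.map_sub,
      Polynomial.map_one, map_X, ← pow_succ']
    have h3 : p - 2 + 1 = p - 1 := by
      have := hp.two_le
      omega
    rw [h3]
    ring
  obtain ⟨v, hv⟩ := polyZ_of_map h1
  exact ⟨v, by rw [← hv]; ring⟩

end Pool.Agent.PTate
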