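import Pool.Agent.PTate.Rep
import Pool.Agent.PTate.PolyZ

/-!
# The pairings are nondegenerate
-/

set_option autoImplicit false

noncomputable section

namespace Pool.Agent.PTate

open scoped Classical

section Gen

open Polynomial

variable {p : ℕ} [Fact p.Prime] {N : Type} [AddCommGroup N] [Module ℤ_[p] N]
  {z : Module.End ℤ_[p] N}

private theorem nondeg_phi (hz : ∀ x, ∑ i ∈ Finset.range p, (z ^ i) x = 0) :
    aeval z (∑ i ∈ Finset.range p, (X : ℤ[X]) ^ i) = 0 := by
  rw [map_sum]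
  refine LinearMap.ext fun x => ?_
  simp only [map_pow, aeval_X, LinearMap.sum_apply, LinearMap.zero_apply]
  exact hz x

private theorem nondeg_lam (n : ℕ) : aeval z ((1 - X : ℤ[X]) ^ n) = lam z ^ n := by
  rw [map_pow, map_sub, map_one, aeval_X]
  rfl

private theorem nondeg_one (hz : ∀ x, ∑ i ∈ Finset.range p, (z ^ i) x = 0) :
    ∃ q : Module.End ℤ_[p] N, lam z ^ (p - 1) = (p : ℤ_[p]) • q := by
  obtain ⟨q, v, hqv⟩ := exists_poly_one (p := p)
  refine ⟨aeval z q, ?_⟩
  rw [← nondeg_lam, hqv, map_add, map_mul _ (∑ i ∈ Finset.range p, X ^ i), nondeg_phi hz,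
    zero_mul, add_zero, map_mul, map_natCast]
  refine LinearMap.ext fun x => ?_
  rw [Module.End.mul_apply, LinearMap.smul_apply, Module.End.natCast_apply, Nat.cast_smul_eq_nsmul]

private theorem nondeg_two (hz : ∀ x, ∑ i ∈ Finset.range p, (z ^ i) x = 0) (x : N) :
    ∃ y, (p : ℤ_[p]) • x = lam z y := by
  obtain ⟨q, v, hqv⟩ := exists_poly_two (p := p)
  have h1 : ((p : ℕ) : Module.End ℤ_[p] N) = lam z ^ (p - 1) * aeval z q := by
    rw [← nondeg_lam, ← map_mul, ← map_natCast (aeval z : ℤ[X] →ₐ[ℤ] Module.End ℤ_[p] N), hqv,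
      map_add, map_mul _ (∑ i ∈ Finset.range p, X ^ i), nondeg_phi hz, zero_mul, add_zero]
  have hp := (Fact.out : p.Prime).two_le
  obtain ⟨n, hn⟩ : ∃ n, p - 1 = n + 1 := ⟨p - 2, by omega⟩
  rw [hn, pow_succ', mul_assoc] at h1
  refine ⟨(lam z ^ n * aeval z q) x, ?_⟩
  have h2 := LinearMap.congr_fun h1 x
  rw [Module.End.natCast_apply, Module.End.mul_apply] at h2
  rw [Nat.cast_smul_eq_nsmul, h2]

end Gen

/-- The Weil pairing of a Tate module is nondegenerate. -/
theorem RepP.nondeg {p : ℕ} [Fact p.Prime] {σ ι G : Type} [Group G] {M : σ → Type}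
    [∀ s, AddCommGroup (M s)] [∀ s, Module ℤ_[p] (M s)]
    [∀ s, Module.Finite ℤ_[p] (M s)] [∀ s, Module.IsTorsionFree ℤ_[p] (M s)] (hp : p ≠ 2)
    {S : σ → Finset ι} {m : σ → ι → ℕ}
    {z : ∀ s, Module.End ℤ_[p] (M s)} {e : ∀ s, M s →ₗ[ℤ_[p]] M s →ₗ[ℤ_[p]] ℤ_[p]}
    {P : ∀ s, ι → M s} {adj : ι → ι → Prop} {ρ : ∀ s, G →* Module.End ℤ_[p] (M s)}
    {χ : G →* ℤ_[p]ˣ} (h : RepP S m z e P adj ρ χ) (s : σ) {x : M s}
    (hx : ∀ y, e s x y = 0) : x = 0 := by
  have hpp : p.Prime := Fact.out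
  have hp0 : (p : ℤ_[p]) ≠ 0 := by exact_mod_cast hpp.ne_zero
  have hz := h.zeta s
  obtain ⟨q, hq⟩ := nondeg_one hz
  -- the first step
  have step1 : ∀ x : M s, (∀ y, ∃ w, e s ((lam (z s) ^ (p - 2)) x) y = p * w) →
      ∃ y, x = lam (z s) y := by
    intro x hx
    obtain ⟨c, u, hcu⟩ := h.gen s x
    obtain ⟨n', -, hn'⟩ := Nat.exists_mul_mod_eq_one_of_coprime (h.copM s) hpp.one_lt
    have hm' : ∀ i, ∃ m' : ℕ, i ∈ S s → (m s i * m') % p = 1 := by
      intro i
      by_cases hi : i ∈ S s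
      · obtain ⟨m', -, hm'⟩ := Nat.exists_mul_mod_eq_one_of_coprime (h.cop s i hi) hpp.one_lt
        exact ⟨m', fun _ => hm'⟩
      · exact ⟨0, fun h => absurd h hi⟩
    choose m' hm' using hm'
    have hcj : ∀ j, ∃ w : ℤ_[p], j ∈ S s →
        (c j : ℤ_[p]) = (m s j : ℤ_[p]) * n' * (∑ i ∈ S s, (c i : ℤ_[p])) + p * w := by
      intro j
      by_cases hj : j ∈ S s
      swap
      · exact ⟨0, fun h => absurd h hj⟩
      obtain ⟨w, hw⟩ := hx (P s j)
      have h1 : ∀ i, ∃ w, i ∈ S s → e s ((lam (z s) ^ (p - 2)) (P s i)) (P s j) =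
          (if i = j then (m' i : ℤ_[p]) else 0) - n' + p * w := by
        intro i
        by_cases hi : i ∈ S s
        · obtain ⟨w, hw⟩ := h.pair s i hi j hj (m' i) n' (hm' i hi) hn'
          exact ⟨w, fun _ => hw⟩
        · exact ⟨0, fun h => absurd h hi⟩
      choose w1 hw1 using h1
      have h2 : (lam (z s) ^ (p - 2)) (lam (z s) u) = (p : ℤ_[p]) • q u := by
        rw [← Module.End.mul_apply, ← pow_succ, show p - 2 + 1 = p - 1 by
          have := hpp.two_le
          omega, hq]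
        rfl
      have h3 : e s ((lam (z s) ^ (p - 2)) x) (P s j) =
          (c j : ℤ_[p]) * m' j - n' * ∑ i ∈ S s, (c i : ℤ_[p]) +
            p * (∑ i ∈ S s, (c i : ℤ_[p]) * w1 i + e s (q u) (P s j)) := by
        rw [hcu, map_add, map_sum, h2, map_add, map_sum, LinearMap.add_apply,
          LinearMap.sum_apply, map_smul, LinearMap.smul_apply, smul_eq_mul, mul_add, ← add_assoc]
        congr 1
        have h4 : ∀ i ∈ S s, (e s ((lam (z s) ^ (p - 2)) (c i • P s i))) (P s j) =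
            (c i : ℤ_[p]) * (if i = j then (m' i : ℤ_[p]) else 0) - n' * c i +
              p * ((c i : ℤ_[p]) * w1 i) := by
          intro i hi
          rw [map_nsmul, map_nsmul, LinearMap.smul_apply, hw1 i hi, nsmul_eq_mul]
          ring
        rw [Finset.sum_congr rfl h4, Finset.sum_add_distrib, Finset.sum_sub_distrib,
          Finset.mul_sum, Finset.mul_sum]
        congr 2
        simp only [mul_ite, mul_zero]
        rw [Finset.sum_ite_eq' (S s) j, if_pos hj]
      rw [h3] at hw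
      obtain ⟨t, ht⟩ : ∃ t : ℕ, m s j * m' j = 1 + p * t := by
        refine ⟨m s j * m' j / p, ?_⟩
        have := Nat.mod_add_div (m s j * m' j) p
        rw [hm' j hj] at this
        exact this.symm
      have ht' : (m s j : ℤ_[p]) * m' j = 1 + p * t := by exact_mod_cast ht
      refine ⟨m s j * (w - (∑ i ∈ S s, (c i : ℤ_[p]) * w1 i + e s (q u) (P s j))) - c j * t,
        fun _ => ?_⟩
      linear_combination (m s j : ℤ_[p]) * hw - (c j : ℤ_[p]) * ht'
    choose w hw using hcj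
    obtain ⟨y0, hy0⟩ := h.rel s
    obtain ⟨y1, hy1⟩ := nondeg_two hz (∑ j ∈ S s, w j • P s j)
    refine ⟨((n' : ℤ_[p]) * ∑ i ∈ S s, (c i : ℤ_[p])) • y0 + y1 + u, ?_⟩
    rw [hcu, map_add, map_add, map_smul, ← hy0, ← hy1]
    congr 1
    rw [Finset.smul_sum, Finset.smul_sum, ← Finset.sum_add_distrib]
    refine Finset.sum_congr rfl fun j hj => ?_
    rw [← Nat.cast_smul_eq_nsmul ℤ_[p], hw j hj, ← Nat.cast_smul_eq_nsmul ℤ_[p], smul_smul,
      smul_smul, ← add_smul]
    congr 1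
    ring
  -- the kernel
  have hlam : ∀ a b : M s, e s (lam (z s) a) (z s b) = -e s a (lam (z s) b) := by
    intro a b
    show e s (a - z s a) (z s b) = -e s a (b - z s b)
    rw [map_sub, LinearMap.sub_apply, h.inv, map_sub]
    ring
  have hsurj : ∀ y : M s, ∃ y', z s y' = y := by
    intro y
    have h1 : ∑ i ∈ Finset.range p, z s ^ i = 0 := by
      refine LinearMap.ext fun x => ?_
      rw [LinearMap.sum_apply]
      exact hz x
    have h2 := mul_geom_sum (z s) p
    rw [h1, mul_zero] at h2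
    have h3 : z s ^ p = 1 := (sub_eq_zero.1 h2.symm)
    refine ⟨(z s ^ (p - 1)) y, ?_⟩
    rw [← Module.End.mul_apply, ← pow_succ', Nat.sub_add_cancel hpp.one_le, h3]
    rfl
  have hker : ∀ x : M s, (∀ y, e s x y = 0) → ∀ n : ℕ, ∀ y, e s ((lam (z s) ^ n) x) y = 0 := by
    intro x hx n
    induction n with
    | zero => exact hx
    | succ n ih =>
      intro y
      obtain ⟨y', rfl⟩ := hsurj y
      rw [pow_succ', Module.End.mul_apply, hlam, ih, neg_zero]
  have step2 : ∀ x : M s, (∀ y, e s x y = 0) → ∃ x', x = lam (z s) x' ∧ ∀ y, e s x' y = 0 := by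
    intro x hx
    obtain ⟨x', hx'⟩ := step1 x fun y => ⟨0, by rw [hker x hx, mul_zero]⟩
    refine ⟨x', hx', fun y => ?_⟩
    obtain ⟨y', hy'⟩ := nondeg_two hz y
    have h1 : e s x' (lam (z s) y') = 0 := by
      rw [← neg_eq_zero, ← hlam, ← hx']
      exact hx _
    rw [← hy', map_smul, smul_eq_mul] at h1
    exact (mul_eq_zero.1 h1).resolve_left hp0
  have step3 : ∀ n : ℕ, ∀ x : M s, (∀ y, e s x y = 0) → ∃ x', x = (lam (z s) ^ n) x' := by
    intro n
    induction n with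
    | zero => exact fun x _ => ⟨x, rfl⟩
    | succ n ih =>
      intro x hx
      obtain ⟨x1, hx1, hx1'⟩ := step2 x hx
      obtain ⟨x2, hx2⟩ := ih x1 hx1'
      refine ⟨x2, ?_⟩
      rw [pow_succ', Module.End.mul_apply, ← hx2]
      exact hx1
  have hne : Ideal.span {(p : ℤ_[p])} ≠ ⊤ := by
    rw [← PadicInt.maximalIdeal_eq_span_p]
    exact Ideal.IsPrime.ne_top inferInstance
  have hinf := Ideal.iInf_pow_smul_eq_bot_of_isLocalRing (M := M s) _ hne
  have hmem : x ∈ (⨅ i : ℕ, Ideal.span {(p : ℤ_[p])} ^ i • ⊤ : Submodule ℤ_[p] (M s)) := by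
    rw [Submodule.mem_iInf]
    intro i
    obtain ⟨x', hx'⟩ := step3 ((p - 1) * i) x hx
    rw [pow_mul, hq, smul_pow] at hx'
    rw [Ideal.span_singleton_pow, hx', LinearMap.smul_apply]
    exact Submodule.smul_mem_smul (Ideal.mem_span_singleton_self _) Submodule.mem_top
  rw [hinf] at hmem
  exact (Submodule.mem_bot _).1 hmem

end Pool.Agent.PTate
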