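import Pool.Agent.PTate.RedForms

/-!
# Reduction modulo `1 - z`: the data of the curves
-/

set_option autoImplicit false

noncomputable section

namespace Pool.Agent.PTate

open scoped Classical

variable {p : ℕ} [Fact p.Prime] {σ ι G : Type} [Group G] {M : σ → Type}
  [∀ s, AddCommGroup (M s)] [∀ s, Module ℤ_[p] (M s)] [∀ s, Module.IsTorsionFree ℤ_[p] (M s)]

omit [∀ s, AddCommGroup (M s)] [∀ s, Module ℤ_[p] (M s)]
  [∀ s, Module.IsTorsionFree ℤ_[p] (M s)] [Group G] in
private theorem redLin_ne {n : ℕ} (h : n.Coprime p) : (n : ZMod p) ≠ 0 := by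
  intro h0
  rw [ZMod.natCast_eq_zero_iff] at h0
  exact (Fact.out : p.Prime).one_lt.ne' (Nat.Coprime.eq_one_of_dvd h.symm h0)

private theorem redLin_inv {n : ℕ} (h : n.Coprime p) :
    (n * ((n : ZMod p)⁻¹).val) % p = 1 := by
  have h1 : ((n * ((n : ZMod p)⁻¹).val : ℕ) : ZMod p) = ((1 : ℕ) : ZMod p) := by
    rw [Nat.cast_mul, ZMod.natCast_zmod_val, Nat.cast_one]
    exact mul_inv_cancel₀ (redLin_ne h)
  have h2 := (ZMod.natCast_eq_natCast_iff _ _ p).1 h1
  rw [Nat.ModEq, Nat.mod_eq_of_lt (Fact.out : p.Prime).one_lt] at h2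
  exact h2

private theorem redLin_mk {N : Type} [AddCommGroup N] [Module ℤ_[p] N] (z : Module.End ℤ_[p] N)
    (y : N) : mk z (lam z y) = 0 := by
  rw [mk_eq_zero_iff]
  exact Submodule.mem_sup_left ⟨y, rfl⟩

private theorem redLin_sum {N : Type} [AddCommGroup N] [Module ℤ_[p] N] (z : Module.End ℤ_[p] N)
    (T : Finset ι) (c : ι → ℕ) (P : ι → N) :
    mk z (∑ i ∈ T, c i • P i) = ∑ i ∈ T, (c i : ZMod p) • mk z (P i) := by
  rw [map_sum]
  refine Finset.sum_congr rfl fun i _ => ?_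
  rw [map_nsmul, Nat.cast_smul_eq_nsmul]

theorem exists_lin (hp : p ≠ 2) {S : σ → Finset ι} {m : σ → ι → ℕ}
    {z : ∀ s, Module.End ℤ_[p] (M s)} {e : ∀ s, M s →ₗ[ℤ_[p]] M s →ₗ[ℤ_[p]] ℤ_[p]}
    {P : ∀ s, ι → M s} {adj : ι → ι → Prop} {ρ : ∀ s, G →* Module.End ℤ_[p] (M s)}
    {χ : G →* ℤ_[p]ˣ} (h : RepP S m z e P adj ρ χ) :
    ∃ B : ∀ s, Vr (z s) →ₗ[ZMod p] Vr (z s) →ₗ[ZMod p] ZMod p,
      (∀ s, RedForm (z s) (e s) (B s)) ∧
      LinP S (fun s i => (m s i : ZMod p)) B (fun s i => mk (z s) (P s i)) adj := by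
  choose B hB using fun s => exists_redForm (h.zeta s) (h.inv s)
  refine ⟨B, hB, fun s => ?_, ?_⟩
  · refine
      { two := h.two s
        ne := fun i hi => redLin_ne (h.cop s i hi)
        neM := ?_
        nz := fun h4 => ?_
        bsymm := fun x y => (hB s).symm hp (h.zeta s) (h.inv s) (h.skew s) x y
        span := fun x => ?_
        rel := ?_
        pair := fun i hi j hj => ?_
        irr := fun i j hij => (h.edge i j hij).1
        symm := h.symm
        conn := h.conn s }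
    · have h1 := redLin_ne (h.copM s)
      rwa [Nat.cast_sum] at h1
    · obtain ⟨i, hi, j, hj, hij, hc⟩ := h.nz s h4
      refine ⟨i, hi, j, hj, hij, ?_⟩
      have h1 := redLin_ne hc
      rwa [Nat.cast_add] at h1
    · obtain ⟨x, rfl⟩ := mk_surjective (z s) x
      obtain ⟨c, y, rfl⟩ := h.gen s x
      refine ⟨fun i => (c i : ZMod p), ?_⟩
      rw [map_add, redLin_mk, add_zero, redLin_sum]
    · obtain ⟨y, hy⟩ := h.rel s
      have h1 := congrArg (mk (z s)) hy
      rw [redLin_mk, redLin_sum] at h1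
      exact h1
    · obtain ⟨w, hw⟩ := h.pair s i hi j hj _ _ (redLin_inv (h.cop s i hi)) (redLin_inv (h.copM s))
      rw [hB s (P s i) (P s j), hw, map_add, map_sub, map_mul, map_natCast, map_natCast,
        ZMod.natCast_self, zero_mul, add_zero, ZMod.natCast_zmod_val, Nat.cast_sum]
      congr 1
      by_cases hij : i = j
      · rw [if_pos hij, if_pos hij, map_natCast, ZMod.natCast_zmod_val]
      · rw [if_neg hij, if_neg hij, map_zero]
  · intro s t hst hS h3
    obtain ⟨i, hi, j, hj, k, hk, l, hl, hij, hkl, hne⟩ := h.sep s t hst hS h3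
    refine ⟨i, hi, j, hj, k, hk, l, hl, hij, hkl, fun heq => hne ?_⟩
    refine (ZMod.natCast_eq_natCast_iff _ _ p).1 ?_
    push_cast
    exact heq

end Pool.Agent.PTate
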