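import Pool.Agent.PTate.RedB

/-!
# Reduction modulo `1 - z`: the trace
-/

set_option autoImplicit false

noncomputable section

namespace Pool.Agent.PTate

open scoped Classical

variable {p : ℕ} [Fact p.Prime] {M : Type} [AddCommGroup M] [Module ℤ_[p] M]
  [Module.Finite ℤ_[p] M] [Module.IsTorsionFree ℤ_[p] M] {z : Module.End ℤ_[p] M}

private theorem redT_dvd {c : ℤ_[p]} : PadicInt.toZMod c = 0 ↔ (p : ℤ_[p]) ∣ c := by
  rw [← RingHom.mem_ker, PadicInt.ker_toZMod, PadicInt.maximalIdeal_eq_span_p,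
    Ideal.mem_span_singleton]

omit [Module.Finite ℤ_[p] M] [Module.IsTorsionFree ℤ_[p] M] in
private theorem redT_finite [Module.Finite ℤ_[p] M] : Module.Finite (ZMod p) (Vr z) := by
  let f : M →ₛₗ[(PadicInt.toZMod : ℤ_[p] →+* ZMod p)] Vr z :=
    { toFun := mk z
      map_add' := map_add _
      map_smul' := fun c x => mk_smul c x }
  exact Module.Finite.of_surjective f (mk_surjective z)

private theorem redT_p1 : 1 ≤ p - 1 := by
  have := (Fact.out : p.Prime).two_le
  omega

omit [Module.Finite ℤ_[p] M] in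
/-- `p M` is contained in `(1 - z) ^ n M` for `n ≤ p - 1` -/
private theorem redT_p_mem (hz : ∀ x, ∑ i ∈ Finset.range p, (z ^ i) x = 0) {n : ℕ}
    (hn : n ≤ p - 1) (x : M) : (p : ℤ_[p]) • x ∈ LinearMap.range (lam z ^ n) := by
  obtain ⟨q, q', h1, h2⟩ := exists_unit (p := p) hz
  obtain ⟨m, hm⟩ := Nat.exists_eq_add_of_le hn
  refine ⟨(lam z ^ m * Polynomial.aeval z q) x, ?_⟩
  have h3 := LinearMap.congr_fun h2 x
  rw [LinearMap.smul_apply, Module.End.one_apply] at h3
  rw [h3, hm, pow_add, mul_assoc, Module.End.mul_apply (lam z ^ n)]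

omit [Module.Finite ℤ_[p] M] in
/-- `(1 - z) ^ (p - 1) M` is contained in `p M` -/
private theorem redT_mem_p (hz : ∀ x, ∑ i ∈ Finset.range p, (z ^ i) x = 0) {n : ℕ}
    (hn : p - 1 ≤ n) (x : M) : ∃ y, (lam z ^ n) x = (p : ℤ_[p]) • y := by
  obtain ⟨q, q', h1, h2⟩ := exists_unit (p := p) hz
  obtain ⟨m, rfl⟩ := Nat.exists_eq_add_of_le hn
  have h4 : lam z ^ (p - 1) = (p : ℤ_[p]) • Polynomial.aeval z q' := by
    calc lam z ^ (p - 1) = lam z ^ (p - 1) * (Polynomial.aeval z q * Polynomial.aeval z q') := by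
          rw [h1, mul_one]
      _ = (p : ℤ_[p]) • Polynomial.aeval z q' := by
          rw [← mul_assoc, ← h2, smul_mul_assoc, one_mul]
  exact ⟨Polynomial.aeval z q' ((lam z ^ m) x), by
    rw [pow_add, h4, smul_mul_assoc, LinearMap.smul_apply, Module.End.mul_apply]⟩

omit [Module.Finite ℤ_[p] M] [Module.IsTorsionFree ℤ_[p] M] in
private theorem redT_range_le {n m : ℕ} (h : n ≤ m) (x : M) :
    (lam z ^ m) x ∈ LinearMap.range (lam z ^ n) := by
  obtain ⟨r, rfl⟩ := Nat.exists_eq_add_of_le h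
  exact ⟨(lam z ^ r) x, by rw [pow_add, Module.End.mul_apply]⟩

private theorem redT_zero {x : ℤ_[p]} (h : ∀ n : ℕ, (p : ℤ_[p]) ^ n ∣ x) : x = 0 := by
  have hb : ∀ n : ℕ, ‖x‖ ≤ (p : ℝ) ^ (-(n : ℤ)) := fun n =>
    (PadicInt.norm_le_pow_iff_mem_span_pow x n).2 (Ideal.mem_span_singleton.2 (h n))
  have hp : (1 : ℝ) < p := by exact_mod_cast (Fact.out : p.Prime).one_lt
  have ht : Filter.Tendsto (fun n : ℕ => (p : ℝ) ^ (-(n : ℤ))) Filter.atTop (nhds 0) := by
    have h1 : (fun n : ℕ => (p : ℝ) ^ (-(n : ℤ))) = fun n : ℕ => ((p : ℝ)⁻¹) ^ n := by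
      funext n
      rw [zpow_neg, zpow_natCast, inv_pow]
    rw [h1]
    exact tendsto_pow_atTop_nhds_zero_of_lt_one (by positivity) (inv_lt_one_of_one_lt₀ hp)
  have h2 : ‖x‖ ≤ 0 := ge_of_tendsto' ht hb
  exact norm_le_zero_iff.1 h2

omit [Module.Finite ℤ_[p] M] in
private theorem redT_exp (hz : ∀ x, ∑ i ∈ Finset.range p, (z ^ i) x = 0) {d : ℕ}
    (b : Module.Basis (Fin d) (ZMod p) (Vr z)) (β : Fin d → M) (hβ : ∀ j, mk z (β j) = b j)
    (x : M) : ∃ (c : Fin d → ℤ_[p]) (w : M), (∀ j, PadicInt.toZMod (c j) = b.repr (mk z x) j) ∧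
      x = ∑ j, c j • β j + lam z w := by
  have hsurj := ZMod.ringHom_surjective (PadicInt.toZMod : ℤ_[p] →+* ZMod p)
  choose c hc using fun j => hsurj (b.repr (mk z x) j)
  have h1 : mk z (x - ∑ j, c j • β j) = 0 := by
    rw [map_sub, map_sum]
    simp only [mk_smul, hβ, hc]
    rw [b.sum_repr, sub_self]
  obtain ⟨w, hw⟩ := (mk_eq_zero hz _).1 h1
  exact ⟨c, w, hc, by rw [← hw]; abel⟩

/-- the adapted basis -/
private theorem redT_basis (hz : ∀ x, ∑ i ∈ Finset.range p, (z ^ i) x = 0) {d : ℕ}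
    (b : Module.Basis (Fin d) (ZMod p) (Vr z)) (β : Fin d → M) (hβ : ∀ j, mk z (β j) = b j) :
    ∃ v : Module.Basis (Fin (p - 1) × Fin d) ℤ_[p] M,
      ∀ i j, v (i, j) = (lam z ^ (i : ℕ)) (β j) := by
  let v : Fin (p - 1) × Fin d → M := fun i => (lam z ^ (i.1 : ℕ)) (β i.2)
  -- the span
  have hspan : ⊤ ≤ Submodule.span ℤ_[p] (Set.range v) := by
    have h1 : ∀ n : ℕ, n ≤ p - 1 → ∀ x : M, ∃ s ∈ Submodule.span ℤ_[p] (Set.range v),
        ∃ y, x = s + (lam z ^ n) y := by
      intro n
      induction n with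
      | zero => exact fun _ x => ⟨0, zero_mem _, x, by simp⟩
      | succ n ih =>
        intro hn x
        obtain ⟨s, hs, y, hy⟩ := ih (by omega) x
        obtain ⟨c, w, -, hw⟩ := redT_exp hz b β hβ y
        refine ⟨s + ∑ j, c j • (lam z ^ n) (β j), add_mem hs (sum_mem fun j _ =>
          Submodule.smul_mem _ _ (Submodule.subset_span ⟨(⟨n, by omega⟩, j), rfl⟩)), w, ?_⟩
        rw [hy, hw, map_add, map_sum, pow_succ, Module.End.mul_apply]
        simp only [map_smul]
        abel
    have h2 : (⊤ : Submodule ℤ_[p] M) ≤ Submodule.span ℤ_[p] (Set.range v) ⊔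
        IsLocalRing.maximalIdeal ℤ_[p] • ⊤ := by
      intro x _
      obtain ⟨s, hs, y, hy⟩ := h1 (p - 1) le_rfl x
      obtain ⟨y', hy'⟩ := redT_mem_p hz le_rfl y
      rw [hy, hy']
      refine Submodule.add_mem_sup hs (Submodule.smul_mem_smul ?_ trivial)
      rw [PadicInt.maximalIdeal_eq_span_p]
      exact Ideal.mem_span_singleton_self _
    exact Submodule.le_of_le_smul_of_le_jacobson_bot Module.Finite.fg_top
      (IsLocalRing.maximalIdeal_le_jacobson _) h2
  -- divisibility of the coefficients of a relation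
  have hdvd : ∀ g : Fin (p - 1) × Fin d → ℤ_[p], ∑ i, g i • v i = 0 → ∀ i, (p : ℤ_[p]) ∣ g i := by
    intro g hg
    rw [Fintype.sum_prod_type] at hg
    have key : ∀ n : ℕ, ∀ i : Fin (p - 1), (i : ℕ) = n → ∀ j, (p : ℤ_[p]) ∣ g (i, j) := by
      intro n
      induction n using Nat.strong_induction_on with
      | _ n ih =>
        intro i hi j
        have h1 : (lam z ^ n) (∑ j, g (i, j) • β j) ∈ LinearMap.range (lam z ^ (n + 1)) := by
          have h2 : (lam z ^ n) (∑ j, g (i, j) • β j) = ∑ j, g (i, j) • v (i, j) := by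
            rw [map_sum]
            refine Finset.sum_congr rfl fun j _ => ?_
            rw [map_smul]
            simp only [v, hi]
          have h3 := (Finset.add_sum_erase Finset.univ (fun i => ∑ j, g (i, j) • v (i, j))
              (Finset.mem_univ i)).trans hg
          rw [h2, add_eq_zero_iff_eq_neg.1 h3]
          refine neg_mem (sum_mem fun i' hi' => sum_mem fun j' _ => ?_)
          have hne : (i' : ℕ) ≠ n := fun h => Finset.ne_of_mem_erase hi' (Fin.ext (h.trans hi.symm))
          rcases lt_or_gt_of_ne hne with hlt | hgt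
          · obtain ⟨c, hc⟩ := ih _ hlt i' rfl j'
            rw [hc, mul_smul]
            exact redT_p_mem hz (by have := i.2; omega) _
          · exact Submodule.smul_mem _ _ (redT_range_le (show n + 1 ≤ (i' : ℕ) by omega) _)
        obtain ⟨w, hw⟩ := h1
        rw [pow_succ, Module.End.mul_apply] at hw
        have hinj : Function.Injective (lam z ^ n) := by
          rw [Module.End.coe_pow]
          exact (lam_injective hz).iterate n
        have h4 : mk z (∑ j, g (i, j) • β j) = 0 := (mk_eq_zero hz _).2 ⟨w, (hinj hw).symm⟩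
        rw [map_sum] at h4
        simp only [mk_smul, hβ] at h4
        exact redT_dvd.1 (Fintype.linearIndependent_iff.1 b.linearIndependent _ h4 j)
    rintro ⟨i, j⟩
    exact key _ i rfl j
  have hpow : ∀ (n : ℕ) (g : Fin (p - 1) × Fin d → ℤ_[p]), ∑ i, g i • v i = 0 →
      ∀ i, (p : ℤ_[p]) ^ n ∣ g i := by
    intro n
    induction n with
    | zero => exact fun g _ i => by simp
    | succ n ih =>
      intro g hg i
      choose g' hg' using hdvd g hg
      have hp0 : (p : ℤ_[p]) ≠ 0 := by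
        exact_mod_cast (Fact.out : p.Prime).ne_zero
      have h1 : ∑ i, g' i • v i = 0 := by
        have h2 : (p : ℤ_[p]) • ∑ i, g' i • v i = 0 := by
          rw [← hg, Finset.smul_sum]
          exact Finset.sum_congr rfl fun i _ => by rw [hg' i, mul_smul]
        exact (smul_eq_zero.1 h2).resolve_left hp0
      rw [hg' i, pow_succ']
      exact mul_dvd_mul_left _ (ih g' h1 i)
  have hli : LinearIndependent ℤ_[p] v :=
    Fintype.linearIndependent_iff.2 fun g hg i => redT_zero fun n => hpow n g hg i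
  refine ⟨Module.Basis.mk hli hspan, fun i j => ?_⟩
  rw [Module.Basis.mk_apply]

omit [Module.Finite ℤ_[p] M] in
private theorem redT_coord (hz : ∀ x, ∑ i ∈ Finset.range p, (z ^ i) x = 0) {d : ℕ}
    {β : Fin d → M} (v : Module.Basis (Fin (p - 1) × Fin d) ℤ_[p] M)
    (hv : ∀ i j, v (i, j) = (lam z ^ (i : ℕ)) (β j)) {n : ℕ} (x : M) (i : Fin (p - 1))
    (hi : (i : ℕ) < n) (j : Fin d) :
    PadicInt.toZMod (v.repr ((lam z ^ n) x) (i, j)) = 0 := by
  have h1 : ∀ y : M, PadicInt.toZMod (v.repr ((p : ℤ_[p]) • y) (i, j)) = 0 := by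
    intro y
    rw [map_smul, Finsupp.smul_apply, smul_eq_mul, map_mul, map_natCast, ZMod.natCast_self,
      zero_mul]
  rw [← v.sum_repr x, map_sum, map_sum, Finsupp.finsetSum_apply, map_sum]
  refine Finset.sum_eq_zero fun ij _ => ?_
  obtain ⟨i', j'⟩ := ij
  rw [map_smul, map_smul, Finsupp.smul_apply, smul_eq_mul, map_mul, hv, ← Module.End.mul_apply,
    ← pow_add]
  by_cases h : n + (i' : ℕ) < p - 1
  · have h2 : (lam z ^ (n + (i' : ℕ))) (β j') = v (⟨n + i', h⟩, j') := (hv ⟨n + i', h⟩ j').symm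
    rw [h2, v.repr_self, Finsupp.single_apply, if_neg, map_zero, mul_zero]
    intro h3
    have h4 := congrArg (fun q : Fin (p - 1) × Fin d => (q.1 : ℕ)) h3
    simp only at h4
    omega
  · obtain ⟨y, hy⟩ := redT_mem_p hz (not_lt.1 h) (β j')
    rw [hy, h1, mul_zero]

/-- the trace of an operator which commutes with `z` -/
theorem Red.trace (hz : ∀ x, ∑ i ∈ Finset.range p, (z ^ i) x = 0) {A : Module.End ℤ_[p] M}
    {a : Module.End (ZMod p) (Vr z)} (h : Red z A a) :
    PadicInt.toZMod (LinearMap.trace ℤ_[p] M A) = -LinearMap.trace (ZMod p) (Vr z) a := by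
  have hfin : Module.Finite (ZMod p) (Vr z) := redT_finite
  let b := Module.finBasis (ZMod p) (Vr z)
  choose β hβ using fun j => mk_surjective z (b j)
  obtain ⟨v, hv⟩ := redT_basis hz b β hβ
  rw [LinearMap.trace_eq_matrix_trace _ v, LinearMap.trace_eq_matrix_trace _ b, Matrix.trace,
    Matrix.trace, map_sum, Fintype.sum_prod_type]
  have h1 : ∀ (i : Fin (p - 1)) (j), PadicInt.toZMod ((LinearMap.toMatrix v v A).diag (i, j)) =
      (LinearMap.toMatrix b b a).diag j := by
    intro i j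
    rw [Matrix.diag_apply, Matrix.diag_apply, LinearMap.toMatrix_apply, LinearMap.toMatrix_apply,
      hv]
    obtain ⟨c, w, hc, hw⟩ := redT_exp hz b β hβ (A (β j))
    have hA : Commute A (lam z ^ (i : ℕ)) := by
      have h2 : Commute A z := LinearMap.ext h.1
      exact ((Commute.one_right A).sub_right h2).pow_right _
    have h3 : A ((lam z ^ (i : ℕ)) (β j)) =
        ∑ k, c k • v (i, k) + (lam z ^ ((i : ℕ) + 1)) w := by
      rw [← Module.End.mul_apply, hA.eq, Module.End.mul_apply, hw, map_add, map_sum, pow_succ,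
        Module.End.mul_apply]
      congr 1
      exact Finset.sum_congr rfl fun k _ => by rw [map_smul, hv]
    rw [h3, map_add, Finsupp.add_apply, map_add, redT_coord hz v hv w i (Nat.lt_succ_self _) j,
      add_zero, map_sum, Finsupp.finsetSum_apply, Finset.sum_eq_single j]
    · rw [map_smul, v.repr_self, Finsupp.smul_apply, Finsupp.single_eq_same, smul_eq_mul, mul_one,
        hc, ← h.2, hβ]
    · intro k _ hk
      rw [map_smul, v.repr_self, Finsupp.smul_apply, Finsupp.single_apply, if_neg, smul_zero]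
      intro h4
      exact hk (congrArg Prod.snd h4)
    · intro h4
      exact absurd (Finset.mem_univ j) h4
  simp only [h1]
  rw [Finset.sum_const, Finset.card_univ, Fintype.card_fin, nsmul_eq_mul]
  have h2 : ((p - 1 : ℕ) : ZMod p) = -1 := by
    have h3 : ((p - 1 : ℕ) : ZMod p) + 1 = 0 := by
      have h4 : ((p - 1 + 1 : ℕ) : ZMod p) = 0 := by
        rw [Nat.sub_add_cancel (Fact.out : p.Prime).one_le, ZMod.natCast_self]
      exact_mod_cast h4
    exact eq_neg_of_add_eq_zero_left h3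
  rw [h2, neg_one_mul]

/-- operators `Y` such that all `z ^ i Y` have trace zero -/
theorem Red.trace_zero (hz : ∀ x, ∑ i ∈ Finset.range p, (z ^ i) x = 0)
    {Y A : Module.End ℤ_[p] M} (hY : ∀ i, LinearMap.trace ℤ_[p] M (z ^ i * Y) = 0) {k : ℕ}
    (hYA : Y = lam z ^ k * A) {a : Module.End (ZMod p) (Vr z)} (h : Red z A a) :
    LinearMap.trace (ZMod p) (Vr z) a = 0 := by
  have hp0 : (p : ℤ_[p]) ≠ 0 := by
    exact_mod_cast (Fact.out : p.Prime).ne_zero
  obtain ⟨q, q', h1, h2⟩ := exists_unit (p := p) hz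
  have hT : ∀ r : Polynomial ℤ, LinearMap.trace ℤ_[p] M (Polynomial.aeval z r * Y) = 0 := by
    intro r
    induction r using Polynomial.induction_on' with
    | add r r' hr hr' => rw [map_add, add_mul, map_add, hr, hr', add_zero]
    | monomial n c =>
      have h3 : Polynomial.aeval z (Polynomial.monomial n c) = (c : ℤ_[p]) • z ^ n := by
        rw [Polynomial.aeval_monomial, Algebra.smul_def, eq_intCast]
        congr 1
        exact (map_intCast (algebraMap ℤ_[p] (Module.End ℤ_[p] M)) c).symm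
      rw [h3, smul_mul_assoc, map_smul, hY, smul_zero]
  set Q : Module.End ℤ_[p] M := Polynomial.aeval z q with hQ
  have hQz : Commute Q z := by
    have := aeval_comm (z := z) (A := z) (fun _ => rfl) q
    exact this.symm
  have hQl : ∀ n, Commute Q (lam z ^ n) := fun n =>
    ((Commute.one_right Q).sub_right hQz).pow_right n
  have hkj : (p - 2) * k + k = (p - 1) * k := by
    obtain ⟨r, rfl⟩ := Nat.exists_eq_add_of_le (Fact.out : p.Prime).two_le
    have e1 : 2 + r - 2 = r := by omega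
    have e2 : 2 + r - 1 = r + 1 := by omega
    rw [e1, e2]
    ring
  have h3 : Polynomial.aeval z (q ^ k * (1 - Polynomial.X) ^ ((p - 2) * k)) * Y =
      (p : ℤ_[p]) ^ k • A := by
    have h4 : Polynomial.aeval z (q ^ k * (1 - Polynomial.X) ^ ((p - 2) * k)) =
        Q ^ k * lam z ^ ((p - 2) * k) := by
      rw [map_mul, map_pow, map_pow, map_sub, map_one, Polynomial.aeval_X]
      rfl
    have h5 : (p : ℤ_[p]) ^ k • (1 : Module.End ℤ_[p] M) = Q ^ k * (lam z ^ (p - 1)) ^ k := by
      rw [← (hQl (p - 1)).mul_pow, (hQl (p - 1)).eq, ← h2, smul_pow, one_pow]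
    rw [h4, hYA, mul_assoc, ← mul_assoc (lam z ^ ((p - 2) * k)), ← pow_add, hkj, pow_mul,
      ← mul_assoc, ← h5, smul_mul_assoc, one_mul]
  have h6 := hT (q ^ k * (1 - Polynomial.X) ^ ((p - 2) * k))
  rw [h3, map_smul, smul_eq_mul] at h6
  have h7 := (mul_eq_zero.1 h6).resolve_left (pow_ne_zero _ hp0)
  have h8 := h.trace hz
  rw [h7, map_zero] at h8
  exact neg_eq_zero.1 h8.symm

end Pool.Agent.PTate
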