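import Pool.Agent.PTate.OpA
import Pool.Agent.PTate.RedLin
import Pool.Agent.PTate.RedTrace

/-!
# Tate forms are killed by the special unitary Lie algebras
-/

set_option autoImplicit false

noncomputable section

namespace Pool.Agent.PTate

open scoped Classical

variable {p : ℕ} [Fact p.Prime] {σ ι G : Type} [Group G] {M : σ → Type}
  [∀ s, AddCommGroup (M s)] [∀ s, Module ℤ_[p] (M s)]

private theorem tateSu_lam_z {N : Type} [AddCommGroup N] [Module ℤ_[p] N]
    (z : Module.End ℤ_[p] N) (n : ℕ) : Commute (lam z ^ n) z := by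
  have h : Commute (lam z) z := (Commute.one_left z).sub_left (Commute.refl z)
  exact h.pow_left n

private theorem tateSu_start {N : Type} [AddCommGroup N] [Module ℤ_[p] N]
    [Module.IsTorsionFree ℤ_[p] N] {z : Module.End ℤ_[p] N}
    (hz : ∀ x, ∑ i ∈ Finset.range p, (z ^ i) x = 0) {X : Module.End ℤ_[p] N}
    (hX : ∀ x, X (z x) = z (X x)) (k : ℕ) :
    ∃ A : Module.End ℤ_[p] N, (∀ x, A (z x) = z (A x)) ∧
      (p : ℤ_[p]) ^ k • X = lam z ^ k * A := by
  obtain ⟨q, q', h1, h2⟩ := exists_unit (p := p) hz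
  set Q : Module.End ℤ_[p] N := Polynomial.aeval z q with hQ
  have hp : 1 ≤ p - 1 := by
    have := (Fact.out : p.Prime).two_le
    omega
  obtain ⟨d, hd⟩ := Nat.exists_eq_add_of_le hp
  have hQz : Commute Q z := by
    have := aeval_comm (z := z) (A := z) (fun _ => rfl) q
    exact this.symm
  have hlz := tateSu_lam_z (p := p) z
  have hQl : Commute Q (lam z) := (Commute.one_right Q).sub_right hQz
  have hXz : Commute X z := LinearMap.ext hX
  refine ⟨(lam z ^ d * Q) ^ k * X, ?_, ?_⟩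
  · have h3 : Commute ((lam z ^ d * Q) ^ k * X) z :=
      (((hlz d).mul_left hQz).pow_left k).mul_left hXz
    exact fun x => LinearMap.congr_fun h3 x
  · have h4 : (p : ℤ_[p]) ^ k • (1 : Module.End ℤ_[p] N) = lam z ^ k * (lam z ^ d * Q) ^ k := by
      have h5 : Commute (lam z) (lam z ^ d * Q) :=
        ((Commute.refl (lam z)).pow_right d).mul_right hQl.symm
      rw [← h5.mul_pow, ← mul_assoc, ← pow_succ', add_comm d 1, ← hd, ← h2, smul_pow, one_pow]
    rw [← mul_assoc, ← h4, smul_mul_assoc, one_mul]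

private theorem tateSu_end {N : Type} [AddCommGroup N] [Module ℤ_[p] N]
    [Module.IsTorsionFree ℤ_[p] N] {z : Module.End ℤ_[p] N}
    (hz : ∀ x, ∑ i ∈ Finset.range p, (z ^ i) x = 0) (n k : ℕ) (A : Module.End ℤ_[p] N) :
    ∃ R : Module.End ℤ_[p] N, lam z ^ (k + n * (p - 1)) * A = (p : ℤ_[p]) ^ n • R := by
  obtain ⟨q, q', h1, h2⟩ := exists_unit (p := p) hz
  have h3 : lam z ^ (p - 1) = (p : ℤ_[p]) • Polynomial.aeval z q' := by
    calc lam z ^ (p - 1) = lam z ^ (p - 1) * (Polynomial.aeval z q * Polynomial.aeval z q') := by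
          rw [h1, mul_one]
      _ = (p : ℤ_[p]) • Polynomial.aeval z q' := by
          rw [← mul_assoc, ← h2, smul_mul_assoc, one_mul]
  refine ⟨(Polynomial.aeval z q') ^ n * (lam z ^ k * A), ?_⟩
  rw [add_comm, pow_add, mul_comm n, pow_mul, h3, smul_pow, smul_mul_assoc, smul_mul_assoc,
    mul_assoc]

/-- A Tate form is killed by the product of the special unitary Lie algebras. -/
theorem tate_su [Fintype σ] [Fintype ι] [∀ s, Module.Finite ℤ_[p] (M s)]
    [∀ s, Module.IsTorsionFree ℤ_[p] (M s)] (hp : p ≠ 2) {S : σ → Finset ι} {m : σ → ι → ℕ}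
    {z : ∀ s, Module.End ℤ_[p] (M s)} {e : ∀ s, M s →ₗ[ℤ_[p]] M s →ₗ[ℤ_[p]] ℤ_[p]}
    {P : ∀ s, ι → M s} {adj : ι → ι → Prop} {ρ : ∀ s, G →* Module.End ℤ_[p] (M s)}
    {χ : G →* ℤ_[p]ˣ} (h : RepP S m z e P adj ρ χ) {n r j : ℕ}
    (F : MultilinearMap ℤ_[p] (fun _ : Fin r => Fin n → ∀ s, M s) ℚ_[p])
    (hF : IsTateForm ρ χ j F) (X : ∀ s, Module.End ℤ_[p] (M s))
    (h1 : ∀ s x, X s (z s x) = z s (X s x))
    (h2 : ∀ s x y, e s (X s x) y + e s x (X s y) = 0)
    (h3 : ∀ s i, LinearMap.trace ℤ_[p] (M s) (z s ^ i * X s) = 0)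
    (v : Fin r → Fin n → ∀ s, M s) :
    ∑ l, F (Function.update v l fun a s => X s (v l a s)) = 0 := by
  obtain ⟨B, hB, hL⟩ := exists_lin hp h
  obtain ⟨k₀, hk⟩ := exists_op_trace hp h hB hL hF
  have key : ∀ N : ℕ, ∃ Y : ∀ s, Module.End ℤ_[p] (M s), IsOp z e F Y ∧
      (∀ s i, LinearMap.trace ℤ_[p] (M s) (z s ^ i * Y s) = 0) ∧
      ∀ s, ∃ A : Module.End ℤ_[p] (M s), (∀ x, A (z s x) = z s (A x)) ∧
        (p : ℤ_[p]) ^ k₀ • X s - Y s = lam (z s) ^ (k₀ + N) * A := by
    intro N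
    induction N with
    | zero =>
      refine ⟨0, ⟨fun s x => ?_, fun s x y => ?_, fun w => ?_⟩, fun s i => ?_, fun s => ?_⟩
      · simp
      · simp
      · refine Finset.sum_eq_zero fun l _ => ?_
        refine F.map_update_zero w l
      · simp
      · obtain ⟨A, hA, hA'⟩ := tateSu_start (p := p) (h.zeta s) (h1 s) k₀
        exact ⟨A, hA, by rw [Pi.zero_apply, sub_zero, hA', add_zero]⟩
    | succ N ih =>
      obtain ⟨Y, hY, hYt, hYA⟩ := ih
      choose A hAz hA using hYA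
      choose a ha using fun s => exists_red (p := p) (hAz s)
      have hD : ∀ s x y, e s (((p : ℤ_[p]) ^ k₀ • X s - Y s) x) y +
          e s x (((p : ℤ_[p]) ^ k₀ • X s - Y s) y) = 0 := by
        intro s x y
        have e1 := h2 s x y
        have e2 := hY.skew s x y
        simp only [LinearMap.sub_apply, LinearMap.smul_apply, map_sub, map_smul, smul_eq_mul]
        linear_combination (p : ℤ_[p]) ^ k₀ * e1 - e2
      have hDt : ∀ s i, LinearMap.trace ℤ_[p] (M s)
          (z s ^ i * ((p : ℤ_[p]) ^ k₀ • X s - Y s)) = 0 := by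
        intro s i
        rw [mul_sub, mul_smul_comm, map_sub, map_smul, h3, hYt, smul_zero, sub_zero]
      obtain ⟨X', hX', hXt, hXA⟩ := hk (k₀ + N) (Nat.le_add_right _ _) a fun s =>
        ⟨(hB s).ty (h.zeta s) (h.inv s) (hD s) (hA s) (ha s),
          Red.trace_zero (h.zeta s) (hDt s) (hA s) (ha s)⟩
      choose A' hA' hXA' using hXA
      refine ⟨Y + X', hY.add hX', fun s i => ?_, fun s => ?_⟩
      · rw [Pi.add_apply, mul_add, map_add, hYt, hXt, add_zero]
      · have h4 := (ha s).sub (hA' s)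
        rw [sub_self] at h4
        obtain ⟨A'', h5, h6⟩ := h4.eq_zero (h.zeta s)
        refine ⟨A'', h5, ?_⟩
        rw [Pi.add_apply, ← sub_sub, hA s, hXA' s, ← mul_sub, h6, ← mul_assoc, ← pow_succ,
          add_assoc]
  refine der_limit F (X := big n X) k₀ (fun n' => ?_) v
  obtain ⟨Y, hY, -, hYA⟩ := key (n' * (p - 1))
  choose A hAz hA using hYA
  choose R hR using fun s => tateSu_end (p := p) (h.zeta s) n' k₀ (A s)
  refine ⟨big n Y, big n R, hY.der, ?_⟩
  rw [← big_smul, ← big_smul, ← big_add]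
  congr 1
  funext s
  rw [Pi.add_apply, Pi.smul_apply, Pi.smul_apply, ← hR s, ← hA s]
  abel

end Pool.Agent.PTate
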