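import Pool.Agent.PTate.Geo
import Pool.Agent.PTate.Nondeg
import Pool.Agent.PTate.TateSu

/-!
# Tate classes on powers of products of Jacobians of cyclic coverings
-/

set_option autoImplicit false

noncomputable section

namespace Pool.Agent.PTate

open Polynomial
open scoped Classical

/-- The Tate module of the statement and the Tate module of the proof. -/
def toTM {p : ℕ} {O : Type} [CommRing O] : Stm.Tate p O ≃ TM p (J O) where
  toFun t := ⟨t.pt, t.zero, t.mul⟩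
  invFun t := ⟨t, t.2.1, t.2.2⟩
  left_inv _ := rfl
  right_inv _ := rfl

private theorem Final_toTM_apply {p : ℕ} {O : Type} [CommRing O] (t : Stm.Tate p O) (n : ℕ) :
    ((toTM t : TM p (J O)) : ℕ → J O) n = t.pt n := rfl

private theorem Final_symm_pt {p : ℕ} {O : Type} [CommRing O] (t : TM p (J O)) (n : ℕ) :
    (toTM.symm t).pt n = (t : ℕ → J O) n := rfl

private theorem Final_ext {p : ℕ} {O : Type} [CommRing O] {t u : Stm.Tate p O}
    (h : ∀ n, t.pt n = u.pt n) : t = u := by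
  cases t
  cases u
  congr
  exact funext h

private theorem Final_auto {L : Type} [Field L] {p : ℕ} [Fact p.Prime] {f : L[X]} {g : L ≃+* L}
    {c : L} {e : Co L p f ≃+* Co L p f} (h1 : ∀ t : L, e (algebraMap L _ t) = algebraMap L _ (g t))
    (h2 : e (Co.x L p f) = Co.x L p f) (h3 : e (Co.y L p f) = algebraMap L _ c * Co.y L p f) :
    Stm.IsAuto g c e := by
  refine ⟨h1, h2, fun y hy => ?_⟩
  have h4 : y = Co.y L p f := Subtype.ext hy
  rw [h4]
  exact h3

/-- the Weil pairing of the statement -/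
private theorem Final_pairing {L : Type} [Field L] {O : Type} [CommRing O] [Algebra L O] {p : ℕ}
    [Fact p.Prime] {x : O} {ξ : ℕ → L} (hξ : IsRoots p ξ)
    {e : TM p (J O) →ₗ[ℤ_[p]] TM p (J O) →ₗ[ℤ_[p]] ℤ_[p]}
    (he : ∀ (t u : TM p (J O)) (n : ℕ), 1 ≤ n →
      Stm.IsWeil x (p ^ n) ((t : ℕ → J O) n) ((u : ℕ → J O) n)
        (ξ n ^ (PadicInt.toZModPow n (e t u)).val))
    (hu : ∀ (n : ℕ) (c c' : J O) (w w' : L), p ∣ n → Stm.IsWeil x n c c' w →
      Stm.IsWeil x n c c' w' → w = w') (t u : Stm.Tate p O) :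
    Stm.pairing x ξ t u = e (toTM t) (toTM u) := by
  have h : ∃ z : ℤ_[p], ∀ n, 1 ≤ n →
      Stm.IsWeil x (p ^ n) (t.pt n) (u.pt n) (ξ n ^ (PadicInt.toZModPow n z).val) :=
    ⟨e (toTM t) (toTM u), fun n hn => he (toTM t) (toTM u) n hn⟩
  unfold Stm.pairing
  rw [dif_pos h]
  refine eq_of_roots hξ fun n hn => ?_
  exact hu (p ^ n) _ _ _ _ (dvd_pow_self p (by omega)) (h.choose_spec n hn)
    (he (toTM t) (toTM u) n hn)

/-- an operator which is skew for a nondegenerate form is linear -/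
private theorem Final_linear {p : ℕ} [Fact p.Prime] {M : Type} [AddCommGroup M] [Module ℤ_[p] M]
    {e : M →ₗ[ℤ_[p]] M →ₗ[ℤ_[p]] ℤ_[p]} (hn : ∀ x, (∀ y, e x y = 0) → x = 0) {X : M → M}
    (hX : ∀ x y, e (X x) y + e x (X y) = 0) : ∃ X' : Module.End ℤ_[p] M, ∀ x, X' x = X x := by
  have hX' : ∀ x y, e (X x) y = -e x (X y) := fun x y => eq_neg_of_add_eq_zero_left (hX x y)
  refine ⟨{ toFun := X, map_add' := fun x y => ?_, map_smul' := fun c x => ?_ }, fun x => rfl⟩
  · rw [← sub_eq_zero]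
    refine hn _ fun u => ?_
    rw [map_sub, map_add, LinearMap.sub_apply, LinearMap.add_apply, hX', hX', hX', map_add,
      LinearMap.add_apply]
    ring
  · rw [← sub_eq_zero]
    refine hn _ fun u => ?_
    rw [map_sub, RingHom.id_apply, map_smul, LinearMap.sub_apply, LinearMap.smul_apply, hX', hX',
      map_smul, LinearMap.smul_apply, smul_neg, sub_neg_eq_add, neg_add_cancel]

/-- the form on the Tate modules -/
private theorem Final_form {p : ℕ} [Fact p.Prime] {σ : Type} {O : σ → Type}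
    [∀ s, CommRing (O s)] {n r : ℕ} {F : (Fin r → Fin n → ∀ s, Stm.Tate p (O s)) → ℚ_[p]}
    (hadd : ∀ (i : Fin r) (v w w' : Fin r → Fin n → ∀ s, Stm.Tate p (O s)),
      (∀ l, l ≠ i → w l = v l ∧ w' l = v l) →
      (∀ b s k, (v i b s).pt k = (w i b s).pt k + (w' i b s).pt k) → F v = F w + F w')
    (hsmul : ∀ (z : ℤ_[p]) (i : Fin r) (v w : Fin r → Fin n → ∀ s, Stm.Tate p (O s)),
      (∀ l, l ≠ i → w l = v l) →
      (∀ b s k, (v i b s).pt k = (PadicInt.toZModPow k z).val • (w i b s).pt k) →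
        F v = (z : ℚ_[p]) * F w) :
    ∃ F' : MultilinearMap ℤ_[p] (fun _ : Fin r => Fin n → ∀ s, TM p (J (O s))) ℚ_[p],
      ∀ v, F' v = F fun i b s => toTM.symm (v i b s) := by
  have hne : ∀ (v : Fin r → Fin n → ∀ s, TM p (J (O s))) (i : Fin r) x y,
      ∀ l, l ≠ i → (fun b s => toTM.symm (Function.update v i x l b s)) =
        fun b s => toTM.symm (Function.update v i y l b s) := by
    intro v i x y l hl
    rw [Function.update_of_ne hl, Function.update_of_ne hl]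
  refine ⟨{
    toFun := fun v => F fun i b s => toTM.symm (v i b s)
    map_update_add' := ?_
    map_update_smul' := ?_ }, fun v => rfl⟩
  · intro hdec v i x y
    have hdec' : hdec = instDecidableEqFin r := Subsingleton.elim _ _
    subst hdec'
    refine hadd i _ _ _ (fun l hl => ⟨hne v i _ _ l hl, hne v i _ _ l hl⟩) fun b s k => ?_
    rw [Function.update_self, Function.update_self, Function.update_self]
    rfl
  · intro hdec v i c x
    have hdec' : hdec = instDecidableEqFin r := Subsingleton.elim _ _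
    subst hdec'
    refine hsmul c i _ _ (fun l hl => hne v i _ _ l hl) fun b s k => ?_
    rw [Function.update_self, Function.update_self]
    rfl

/-- the abstract main theorem -/
private theorem Final_core {p : ℕ} [Fact p.Prime] {σ ι G : Type} [Group G] [Fintype σ]
    [Fintype ι] {O : σ → Type} [∀ s, CommRing (O s)]
    [∀ s, Module.Finite ℤ_[p] (TM p (J (O s)))] (hp : p ≠ 2) {S : σ → Finset ι}
    {m : σ → ι → ℕ} {z : ∀ s, Module.End ℤ_[p] (TM p (J (O s)))}
    {e : ∀ s, TM p (J (O s)) →ₗ[ℤ_[p]] TM p (J (O s)) →ₗ[ℤ_[p]] ℤ_[p]}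
    {P : ∀ s, ι → TM p (J (O s))} {adj : ι → ι → Prop}
    {ρ : ∀ s, G →* Module.End ℤ_[p] (TM p (J (O s)))} {χ : G →* ℤ_[p]ˣ}
    (hrep : RepP S m z e P adj ρ χ) {n r j : ℕ}
    (F : (Fin r → Fin n → ∀ s, Stm.Tate p (O s)) → ℚ_[p])
    (hadd : ∀ (i : Fin r) (v w w' : Fin r → Fin n → ∀ s, Stm.Tate p (O s)),
      (∀ l, l ≠ i → w l = v l ∧ w' l = v l) →
      (∀ b s k, (v i b s).pt k = (w i b s).pt k + (w' i b s).pt k) → F v = F w + F w')
    (hsmul : ∀ (z : ℤ_[p]) (i : Fin r) (v w : Fin r → Fin n → ∀ s, Stm.Tate p (O s)),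
      (∀ l, l ≠ i → w l = v l) →
      (∀ b s k, (v i b s).pt k = (PadicInt.toZModPow k z).val • (w i b s).pt k) →
        F v = (z : ℚ_[p]) * F w)
    (hT : ∃ U : Subgroup G, U.FiniteIndex ∧ ∀ g ∈ U,
      ∀ v w : Fin r → Fin n → ∀ s, Stm.Tate p (O s),
        (∀ i b s k, (w i b s).pt k = (ρ s g (toTM (v i b s)) : ℕ → J (O s)) k) →
          F w = (((χ g : ℤ_[p]) ^ j : ℤ_[p]) : ℚ_[p]) * F v)
    (X Y : ∀ s, Stm.Tate p (O s) → Stm.Tate p (O s))
    (hX : ∀ s t u, e s (toTM (X s t)) (toTM u) + e s (toTM t) (toTM (X s u)) = 0)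
    (hY : ∀ s t u, e s (toTM (Y s t)) (toTM u) + e s (toTM t) (toTM (Y s u)) = 0)
    (hXz : ∀ s t k, (X s (toTM.symm (z s (toTM t)))).pt k =
      (z s (toTM (X s t)) : ℕ → J (O s)) k)
    (hYz : ∀ s t k, (Y s (toTM.symm (z s (toTM t)))).pt k =
      (z s (toTM (Y s t)) : ℕ → J (O s)) k)
    (v w : Fin r → Fin n → ∀ s, Stm.Tate p (O s))
    (hw : ∀ l b s k, (w l b s).pt k = (X s (Y s (v l b s))).pt k - (Y s (X s (v l b s))).pt k) :
    ∑ l, F (Function.update v l (w l)) = 0 := by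
  have hnd : ∀ s x, (∀ y, e s x y = 0) → x = 0 := fun s x hx => hrep.nondeg hp s hx
  -- the operators
  have hlin : ∀ (Z : ∀ s, Stm.Tate p (O s) → Stm.Tate p (O s)),
      (∀ s t u, e s (toTM (Z s t)) (toTM u) + e s (toTM t) (toTM (Z s u)) = 0) →
      (∀ s t k, (Z s (toTM.symm (z s (toTM t)))).pt k =
        (z s (toTM (Z s t)) : ℕ → J (O s)) k) →
      ∃ Z' : ∀ s, Module.End ℤ_[p] (TM p (J (O s))),
        (∀ s t, Z' s (toTM t) = toTM (Z s t)) ∧ (∀ s x, Z' s (z s x) = z s (Z' s x)) ∧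
          ∀ s x y, e s (Z' s x) y + e s x (Z' s y) = 0 := by
    intro Z hZ hZz
    have h1 : ∀ s (x y : TM p (J (O s))), e s (toTM (Z s (toTM.symm x))) y +
        e s x (toTM (Z s (toTM.symm y))) = 0 := by
      intro s x y
      have h2 := hZ s (toTM.symm x) (toTM.symm y)
      simpa only [Equiv.apply_symm_apply] using h2
    have h3 : ∀ s, ∃ Z' : Module.End ℤ_[p] (TM p (J (O s))),
        ∀ x, Z' x = toTM (Z s (toTM.symm x)) := fun s => Final_linear (hnd s) (h1 s)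
    choose Z' hZ' using h3
    refine ⟨Z', fun s t => ?_, fun s x => ?_, fun s x y => ?_⟩
    · rw [hZ', Equiv.symm_apply_apply]
    · rw [hZ', hZ']
      refine Subtype.ext (funext fun k => ?_)
      have h9 := hZz s (toTM.symm x) k
      rw [Equiv.apply_symm_apply] at h9
      exact h9
    · rw [hZ', hZ']
      exact h1 s x y
  obtain ⟨X', hX1, hX2, hX3⟩ := hlin X hX hXz
  obtain ⟨Y', hY1, hY2, hY3⟩ := hlin Y hY hYz
  obtain ⟨F', hF'⟩ := Final_form hadd hsmul
  have hTate : IsTateForm ρ χ j F' := by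
    obtain ⟨U, hU, hT⟩ := hT
    refine ⟨U, hU, fun g hg v => ?_⟩
    rw [hF', hF']
    exact hT g hg _ _ fun i b s k => rfl
  -- the commutators
  let W : ∀ s, Module.End ℤ_[p] (TM p (J (O s))) := fun s => X' s * Y' s - Y' s * X' s
  have hW : ∀ s x, W s x = X' s (Y' s x) - Y' s (X' s x) := fun _ _ => rfl
  have hcX : ∀ s, Commute (z s) (X' s) := fun s => LinearMap.ext fun x => (hX2 s x).symm
  have hcY : ∀ s, Commute (z s) (Y' s) := fun s => LinearMap.ext fun x => (hY2 s x).symm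
  have hW1 : ∀ s x, W s (z s x) = z s (W s x) := by
    intro s x
    rw [hW, hW, hY2, hX2, hX2, hY2, map_sub]
  have hW2 : ∀ s x y, e s (W s x) y + e s x (W s y) = 0 := by
    intro s x y
    rw [hW, hW, map_sub, map_sub, LinearMap.sub_apply]
    have e1 := hX3 s (Y' s x) y
    have e2 := hY3 s x (X' s y)
    have e3 := hY3 s (X' s x) y
    have e4 := hX3 s x (Y' s y)
    linear_combination e1 - e2 - e3 + e4
  have hW3 : ∀ s (i : ℕ), LinearMap.trace ℤ_[p] (TM p (J (O s))) (z s ^ i * W s) = 0 := by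
    intro s i
    have h1 : z s ^ i * W s = (z s ^ i * X' s) * Y' s - Y' s * (z s ^ i * X' s) := by
      show z s ^ i * (X' s * Y' s - Y' s * X' s) = _
      rw [mul_sub, ← mul_assoc, ← mul_assoc, ← mul_assoc, ((hcY s).pow_left i).eq]
    rw [h1, map_sub, LinearMap.trace_mul_comm, sub_self]
  have key := tate_su (M := fun s => TM p (J (O s))) hp hrep F' hTate W hW1 hW2 hW3
    (fun l b s => toTM (v l b s))
  rw [← key]
  refine Finset.sum_congr rfl fun l _ => ?_
  rw [hF']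
  congr 1
  funext i b s
  refine Final_ext fun k => ?_
  rw [Final_symm_pt]
  by_cases hi : i = l
  · subst hi
    rw [Function.update_self, Function.update_self, hw, hW, hY1, hX1, hX1, hY1]
    rfl
  · rw [Function.update_of_ne hi, Function.update_of_ne hi]
    rfl

/-- **Main theorem**: a Tate form of a power of the product of the Jacobians of the curves
`y ^ p = ∏ (x - a i) ^ (m s i)` is killed by the commutators of the operators which are skew for
the Weil pairings and commute with the automorphisms of the curves. -/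
theorem main {K : Type} [Field K] {L : Type} [Field L] [Algebra K L] [Algebra.IsAlgebraic K L]
    [IsAlgClosed L] {p : ℕ} [Fact p.Prime] (hp : p ≠ 2) {ζ : K} (hζ : IsPrimitiveRoot ζ p)
    {ι σ : Type} [Fintype ι] [Fintype σ] (a : ι → K) (S : σ → Finset ι) (m : σ → ι → ℕ)
    (ha : ∀ s, Set.InjOn a (S s)) (htwo : ∀ s, 2 ≤ (S s).card)
    (hm : ∀ s, ∀ i ∈ S s, (m s i).Coprime p) (hM : ∀ s, (∑ i ∈ S s, m s i).Coprime p)
    (hnz : ∀ s, 4 ≤ (S s).card → ∃ i ∈ S s, ∃ j ∈ S s, Free p ζ a S i j ∧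
      (m s i + m s j).Coprime p)
    (hsep : ∀ s t, s ≠ t → S s = S t → 3 ≤ (S s).card → ∃ i ∈ S s, ∃ j ∈ S s, ∃ k ∈ S s,
      ∃ l ∈ S s, Free p ζ a S i j ∧ Free p ζ a S k l ∧
        ¬ ((m s i + m s j) * (m t k + m t l)) ^ 2 ≡
          ((m t i + m t j) * (m s k + m s l)) ^ 2 [MOD p])
    (hconn : ∀ s, ∀ i ∈ S s, ∀ j ∈ S s,
      Relation.ReflTransGen (fun u v => u ∈ S s ∧ v ∈ S s ∧ Free p ζ a S u v) i j)
    {ξ : ℕ → L} (hξ : Stm.IsRoots p ξ) (hξ1 : ξ 1 = algebraMap K L ζ) {n r j : ℕ}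
    (F : (Fin r → Stm.Vec L p a S m n) → ℚ_[p]) (hF : Stm.IsForm F) (hT : Stm.IsTate j F)
    (X Y : ∀ s, Stm.Tate p (Co L p (Stm.eqn L a (S s) (m s))) →
      Stm.Tate p (Co L p (Stm.eqn L a (S s) (m s))))
    (hX : ∀ s, Stm.IsSkew ξ (X s)) (hY : ∀ s, Stm.IsSkew ξ (Y s))
    (v w : Fin r → Stm.Vec L p a S m n)
    (hw : ∀ l b s k, (w l b s).pt k = (X s (Y s (v l b s))).pt k - (Y s (X s (v l b s))).pt k) :
    ∑ l, F (Function.update v l (w l)) = 0 := by
  have hξ' : IsRoots p ξ := ⟨hξ.prim, hξ.pow⟩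
  obtain ⟨hfin, z, e, P, ρ, hz, hρ, he, hu, hrep⟩ :=
    repP hp hζ a ha htwo hm hM hnz hsep hconn hξ' hξ1
  have hpair : ∀ s t u, Stm.pairing (algebraMap L[X] _ Polynomial.X) ξ t u =
      e s (toTM t) (toTM u) := fun s t u => Final_pairing hξ' (he s) (hu s) t u
  have hskew : ∀ (Z : ∀ s, Stm.Tate p (Co L p (Stm.eqn L a (S s) (m s))) →
      Stm.Tate p (Co L p (Stm.eqn L a (S s) (m s)))), (∀ s, Stm.IsSkew ξ (Z s)) →
      ∀ s t u, e s (toTM (Z s t)) (toTM u) + e s (toTM t) (toTM (Z s u)) = 0 := by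
    intro Z hZ s t u
    rw [← hpair s, ← hpair s]
    exact (hZ s).1 t u
  have hcomm : ∀ (Z : ∀ s, Stm.Tate p (Co L p (Stm.eqn L a (S s) (m s))) →
      Stm.Tate p (Co L p (Stm.eqn L a (S s) (m s)))), (∀ s, Stm.IsSkew ξ (Z s)) →
      ∀ s t k, (Z s (toTM.symm (z s (toTM t)))).pt k =
        (z s (toTM (Z s t)) : ℕ → J (Co L p (Stm.eqn L a (S s) (m s)))) k := by
    intro Z hZ s t k
    obtain ⟨τ, h4, h5, h6, h7⟩ := hz s
    rw [h7]
    exact (hZ s).2 τ (Final_auto (g := RingEquiv.refl L) h4 h5 h6) t _ (fun k => rfl) k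
  refine Final_core (O := fun s => Co L p (Stm.eqn L a (S s) (m s))) (j := j) hp hrep F hF.add
    hF.smul ?_ X Y (hskew X hX) (hskew Y hY) (hcomm X hX) (hcomm Y hY) v w hw
  obtain ⟨U, hU, hT⟩ := hT
  refine ⟨U, hU, fun g hg v w hvw => ?_⟩
  choose τ h1 h2 h3 h4 using fun s => hρ s g
  refine hT g hg τ (fun s => Final_auto (h1 s) (h2 s) (by rw [map_one, one_mul]; exact h3 s))
    v w fun i b s k => ?_
  rw [hvw, h4]
  rfl

end Pool.Agent.PTate
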