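import Pool.Agent.PTate.Cy1

/-!
# Hilbert 90
-/

set_option autoImplicit false

noncomputable section

namespace Pool.Agent.PTate

open Polynomial
open scoped Classical

variable {k O : Type} [Field k] [CommRing O] [Algebra k O] {p : ℕ} {ζ : k}

/-- the powers of `σ` as homomorphisms of monoids -/
private def hilb_it (C : Cyc k O p ζ) (i : ℕ) : O →* O where
  toFun := C.σ^[i]
  map_one' := iterate_map_one C.σ i
  map_mul' := iterate_map_mul C.σ i

private theorem hilb_y (C : Cyc k O p ζ) (i : ℕ) :
    C.σ^[i] C.y = algebraMap k O (ζ ^ i) * C.y := by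
  induction i with
  | zero => simp
  | succ i ih =>
    rw [Function.iterate_succ_apply', ih, map_mul, C.σy, AlgEquiv.commutes, pow_succ, map_mul]
    ring

private theorem hilb_y_ne (C : Cyc k O p ζ) : C.y ≠ 0 := by
  intro h
  have h1 := C.lc_y
  rw [h, C.I.lc_zero] at h1
  exact zero_ne_one h1

/-- Hilbert 90: if `a` and `b` have the same norm, then `a / b = z / σ z` for some `z`. -/
theorem Cyc.hilbert (C : Cyc k O p ζ) [Fact p.Prime] {a b : O} (ha : a ≠ 0) (hb : b ≠ 0)
    (h : C.N a = C.N b) : ∃ z : O, z ≠ 0 ∧ a * C.σ z = b * z := by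
  have := C.I.isDomain
  let A : ℕ → O := fun i => ∏ j ∈ Finset.range i, C.σ^[j] a
  let B : ℕ → O := fun i => ∏ j ∈ Finset.Ico i p, C.σ^[j] b
  have hA : ∀ i, a * C.σ (A i) = A (i + 1) := by
    intro i
    simp only [A]
    rw [Finset.prod_range_succ', map_prod, mul_comm]
    congr 1
    refine Finset.prod_congr rfl fun j _ => ?_
    rw [Function.iterate_succ_apply']
  have hB : ∀ i, i < p → C.σ (B i) = B (i + 1) * b := by
    intro i hi
    simp only [B]
    have h1 : C.σ (∏ j ∈ Finset.Ico i p, C.σ^[j] b) = ∏ j ∈ Finset.Ico i p, C.σ^[j + 1] b := by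
      rw [map_prod]
      refine Finset.prod_congr rfl fun j _ => ?_
      rw [Function.iterate_succ_apply']
    rw [h1, Finset.prod_Ico_add' (fun j => C.σ^[j] b) i p 1, Finset.prod_Ico_succ_top (by omega),
      C.pow]
  have key : ∀ θ : O, a * C.σ (∑ i ∈ Finset.range p, A i * B i * C.σ^[i] θ) =
      b * ∑ i ∈ Finset.range p, A i * B i * C.σ^[i] θ := by
    intro θ
    have h1 : a * C.σ (∑ i ∈ Finset.range p, A i * B i * C.σ^[i] θ) =
        b * ∑ i ∈ Finset.range p, A (i + 1) * B (i + 1) * C.σ^[i + 1] θ := by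
      rw [map_sum, Finset.mul_sum, Finset.mul_sum]
      refine Finset.sum_congr rfl fun i hi => ?_
      rw [Finset.mem_range] at hi
      rw [map_mul, map_mul, hB i hi, Function.iterate_succ_apply', ← hA i]
      ring
    rw [h1]
    congr 1
    have h2 := Finset.sum_range_succ' (fun i => A i * B i * C.σ^[i] θ) p
    have h3 := Finset.sum_range_succ (fun i => A i * B i * C.σ^[i] θ) p
    have h4 : A p * B p * C.σ^[p] θ = A 0 * B 0 * C.σ^[0] θ := by
      have e1 : A p = C.N a := rfl
      have e2 : B p = 1 := by simp [B]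
      have e3 : A 0 = 1 := by simp [A]
      have e4 : B 0 = C.N b := by
        simp only [B, Cyc.N]
        rw [Finset.range_eq_Ico]
      rw [e1, e2, e3, e4, C.pow, h]
      simp
    rw [h3, h4] at h2
    exact (add_right_cancel h2).symm
  have hne : ∃ θ : O, (∑ i ∈ Finset.range p, A i * B i * C.σ^[i] θ) ≠ 0 := by
    by_contra hcon
    push Not at hcon
    have hinj : Function.Injective (fun i : Fin p => hilb_it C i) := by
      intro i j hij
      have h1 : C.σ^[(i : ℕ)] C.y = C.σ^[(j : ℕ)] C.y := congrArg (fun f : O →* O => f C.y) hij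
      rw [hilb_y, hilb_y] at h1
      have h2 := mul_right_cancel₀ (hilb_y_ne C) h1
      have h3 := congrArg C.I.lc h2
      rw [C.I.lc_c, C.I.lc_c] at h3
      exact Fin.ext (C.prim.pow_inj i.isLt j.isLt h3)
    have hlin := (linearIndependent_monoidHom O O).comp (fun i : Fin p => hilb_it C i) hinj
    rw [Fintype.linearIndependent_iff] at hlin
    have hp : 0 < p := (Fact.out : p.Prime).pos
    have h1 := hlin (fun i => A i * B i) (by
      funext θ
      have h2 := hcon θ
      rw [Finset.sum_range] at h2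
      rw [Finset.sum_apply, Pi.zero_apply, ← h2]
      refine Finset.sum_congr rfl fun i _ => ?_
      rfl) ⟨0, hp⟩
    have e3 : A 0 = 1 := by simp [A]
    have e4 : B 0 = C.N b := by
      simp only [B, Cyc.N]
      rw [Finset.range_eq_Ico]
    have h2 : A 0 * B 0 = 0 := h1
    rw [e3, e4, one_mul] at h2
    exact C.N_ne_zero hb h2
  obtain ⟨θ, hθ⟩ := hne
  exact ⟨_, hθ, key θ⟩

end Pool.Agent.PTate
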