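import Pool.Agent.PTate.Cy3
import Pool.Agent.PTate.Hilb

/-!
# The classes fixed by the group of the covering
-/

set_option autoImplicit false

noncomputable section

namespace Pool.Agent.PTate

open Polynomial
open scoped Classical

variable {k O : Type} [Field k] [CommRing O] [Algebra k O] {p : ℕ} {ζ : k}
  [IsDedekindDomain O] [IsAlgClosed k]

omit [IsDedekindDomain O] [IsAlgClosed k] in
theorem Cyc.S_cl (C : Cyc k O p ζ) {P : MaximalSpectrum O} (hP : P ∈ C.F) :
    C.S (cl P) = cl P := by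
  show J.map C.s (cl P) = cl P
  rw [J.map_cl]
  exact congrArg cl ((C.mem_F P).1 hP)

theorem Cyc.nsmul_cl (C : Cyc k O p ζ) [Fact p.Prime] {P : MaximalSpectrum O} (hP : P ∈ C.F) :
    p • cl P = 0 := by
  have h := (sum_cl_eq_zero_iff C.I (p • {P})).2 ⟨_, C.span_fix hP⟩
  rw [Multiset.map_nsmul, Multiset.sum_nsmul, Multiset.map_singleton,
    Multiset.sum_singleton] at h
  exact h

omit [IsAlgClosed k] in
theorem Cyc.sum_F (C : Cyc k O p ζ) [Fact p.Prime] : ∑ P ∈ C.F, C.m P • cl P = 0 := by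
  have h := (sum_cl_eq_zero_iff C.I (∑ P ∈ C.F, C.m P • {P})).2 ⟨_, C.span_y⟩
  have e : ((∑ P ∈ C.F, C.m P • ({P} : Multiset (MaximalSpectrum O))).map cl).sum =
      ∑ P ∈ C.F, C.m P • cl P := by
    have h1 := map_sum ((Multiset.sumAddMonoidHom : Multiset (J O) →+ J O).comp
      (Multiset.mapAddMonoidHom (cl : MaximalSpectrum O → J O)))
      (fun P => C.m P • ({P} : Multiset (MaximalSpectrum O))) C.F
    refine Eq.trans h1 (Finset.sum_congr rfl fun P _ => ?_)
    rw [map_nsmul]
    congr 1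
    show ((({P} : Multiset (MaximalSpectrum O))).map cl).sum = cl P
    rw [Multiset.map_singleton, Multiset.sum_singleton]
  rw [← e]
  exact h

theorem Cyc.exists_fixed (C : Cyc k O p ζ) [Fact p.Prime] (hp : p ≠ 2) {c : J O}
    (h : C.S c = c) : ∃ n : MaximalSpectrum O → ℕ, c = ∑ P ∈ C.F, n P • cl P := by
  obtain ⟨s, rfl⟩ := exists_multiset C.I c
  have hS : ((s.map C.act).map cl).sum = (s.map cl).sum := by
    rw [← h]
    exact (J.map_sum C.s s).symm
  obtain ⟨α₀, β₀, hα₀, hβ₀, hαβ₀⟩ := (sum_cl_eq_iff C.I _ _).1 hS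
  obtain ⟨α, hα1, hα2⟩ := exists_monic C.I hα₀
  obtain ⟨β, hβ1, hβ2⟩ := exists_monic C.I hβ₀
  rw [← hα1, ← hβ1] at hαβ₀
  have hα : α ≠ 0 := by
    rintro rfl
    apply hα₀
    rw [← Ideal.span_singleton_eq_bot, ← hα1, Ideal.span_singleton_eq_bot]
  have hβ : β ≠ 0 := by
    rintro rfl
    apply hβ₀
    rw [← Ideal.span_singleton_eq_bot, ← hβ1, Ideal.span_singleton_eq_bot]
  obtain ⟨u, hu⟩ := exists_idl C.I (A := Ideal.span {α}) (by
    rwa [Ne, Ideal.span_singleton_eq_bot])
  obtain ⟨v, hv⟩ := exists_idl C.I (A := Ideal.span {β}) (by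
    rwa [Ne, Ideal.span_singleton_eq_bot])
  have huv : u + s.map C.act = v + s := by
    apply idl_injective C.I
    rw [idl_add, idl_add, hu, hv, hαβ₀]
  have hxc : u.map C.xc = v.map C.xc := by
    have h1 := congrArg (Multiset.map C.xc) huv
    rw [Multiset.map_add, Multiset.map_add, Multiset.map_map] at h1
    have h2 : s.map (C.xc ∘ C.act) = s.map C.xc := Multiset.map_congr rfl fun P _ => C.xc_act P
    rw [h2] at h1
    exact add_right_cancel h1
  obtain ⟨f, hf0, hf1, hf2, hf3⟩ := C.exists_N hp hα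
  obtain ⟨g, hg0, hg1, hg2, hg3⟩ := C.exists_N hp hβ
  have hfm : f.Monic := by
    show f.leadingCoeff = 1
    rw [hf3, hα2, one_pow]
  have hgm : g.Monic := by
    show g.leadingCoeff = 1
    rw [hg3, hβ2, one_pow]
  have hfg : f = g := by
    rw [(IsAlgClosed.splits f).eq_prod_roots_of_monic hfm,
      (IsAlgClosed.splits g).eq_prod_roots_of_monic hgm, C.roots_N hu.symm hf1,
      C.roots_N hv.symm hg1, hxc]
  have hN : C.N α = C.N β := by
    rw [← hf1, ← hg1, hfg]
  obtain ⟨z, hz, hz1⟩ := C.hilbert hα hβ hN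
  obtain ⟨t, ht⟩ := exists_idl C.I (A := Ideal.span {z}) (by
    rwa [Ne, Ideal.span_singleton_eq_bot])
  have hσz : Ideal.span {C.σ z} = idl (t.map C.act) := span_mv C.s ht.symm
  have h1 : Ideal.span {z} * idl (s.map C.act) = Ideal.span {C.σ z} * idl s := by
    have h2 : Ideal.span {β} * (Ideal.span {z} * idl (s.map C.act)) =
        Ideal.span {β} * (Ideal.span {C.σ z} * idl s) := by
      calc Ideal.span {β} * (Ideal.span {z} * idl (s.map C.act)) =
            Ideal.span {β * z} * idl (s.map C.act) := by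
              rw [← mul_assoc, Ideal.span_singleton_mul_span_singleton]
        _ = Ideal.span {α} * idl (s.map C.act) * Ideal.span {C.σ z} := by
              rw [← hz1, ← Ideal.span_singleton_mul_span_singleton]
              ring
        _ = Ideal.span {β} * (Ideal.span {C.σ z} * idl s) := by
              rw [hαβ₀]
              ring
    exact mul_left_cancel₀ (by rwa [Ne, Ideal.zero_eq_bot, Ideal.span_singleton_eq_bot]) h2
  have hst : s.map C.act + t = t.map C.act + s := by
    apply idl_injective C.I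
    rw [idl_add, idl_add, ht, ← hσz, mul_comm, h1]
  have h3 := C.inv_sum hst
  have ht0 : (t.map cl).sum = 0 := (sum_cl_eq_zero_iff C.I t).2 ⟨z, ht.symm⟩
  rw [ht0, sub_zero] at h3
  refine ⟨fun P => (((s.count P : ℤ) - t.count P) % p).toNat, ?_⟩
  rw [h3]
  refine Finset.sum_congr rfl fun P hP => ?_
  have hp0 : (p : ℤ) ≠ 0 := by
    exact_mod_cast (Fact.out : p.Prime).ne_zero
  dsimp only
  generalize ((s.count P : ℤ) - t.count P) = d
  have h4 : ((d % p).toNat : ℤ) = d % p := Int.toNat_of_nonneg (Int.emod_nonneg _ hp0)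
  rw [← natCast_zsmul, h4]
  conv_lhs => rw [← Int.mul_ediv_add_emod d p]
  have h5 : ((p : ℤ) * (d / p)) • cl P = 0 := by
    have h6 : ((p : ℤ) * (d / p)) • cl P = (d / p) • ((p : ℤ) • cl P) := by
      rw [← mul_zsmul, mul_comm]
    rw [h6, natCast_zsmul, C.nsmul_cl hP, zsmul_zero]
  rw [add_zsmul, h5, zero_add]

end Pool.Agent.PTate
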