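import Pool.Agent.PTate.RatC
import Pool.Agent.PTate.Fixed

/-!
# The action of automorphisms of the base field on the classes killed by `(1 - σ) ^ 2`
-/

set_option autoImplicit false

noncomputable section

namespace Pool.Agent.PTate

open Polynomial
open scoped Classical

variable {k O : Type} [Field k] [CommRing O] [Algebra k O] {p : ℕ} {ζ : k}
  [IsDedekindDomain O] [IsAlgClosed k]

private theorem gal_fixed_aux (C : Cyc k O p ζ) [Fact p.Prime] (e : O ≃+* O) (g : k ≃+* k)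
    (hg : ∀ c, e (algebraMap k O c) = algebraMap k O (g c)) (hx : e C.x = C.x)
    (hgx : ∀ P ∈ C.F, g (C.xc P) = C.xc P) {P : MaximalSpectrum O} (hP : P ∈ C.F) :
    mv e P = P := by
  apply C.eq_of_xc hP
  rw [C.xc_eq_iff]
  have h1 := (C.xc_eq_iff P (C.xc P)).1 rfl
  have h2 := (mem_mv e P _).2 h1
  rwa [map_sub, hx, hg, hgx P hP] at h2

omit [IsDedekindDomain O] [IsAlgClosed k] in
private theorem gal_y_ne (C : Cyc k O p ζ) : C.y ≠ 0 := by
  intro h
  have h1 := C.lc_y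
  rw [h, C.I.lc_zero] at h1
  exact zero_ne_one h1

omit [IsDedekindDomain O] [IsAlgClosed k] in
private theorem gal_inj (C : Cyc k O p ζ) : Function.Injective (algebraMap k O) := by
  have : Nontrivial O := ⟨⟨C.y, 0, gal_y_ne C⟩⟩
  exact (algebraMap k O).injective

omit [IsAlgClosed k] in
private theorem gal_zeta (C : Cyc k O p ζ) (e : O ≃+* O) (g : k ≃+* k)
    (hg : ∀ c, e (algebraMap k O c) = algebraMap k O (g c))
    (hy : e C.y = C.y) (hσ : ∀ z, e (C.σ z) = C.σ (e z)) : g ζ = ζ := by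
  have h1 := hσ C.y
  rw [hy, C.σy, map_mul, hy, hg] at h1
  exact gal_inj C (mul_right_cancel₀ (gal_y_ne C) h1)

omit [IsDedekindDomain O] [IsAlgClosed k] in
private theorem gal_lc_N (C : Cyc k O p ζ) [Fact p.Prime] (hp : p ≠ 2) {z : O} (hz : z ≠ 0) :
    C.I.lc (C.N z) = C.I.lc z ^ p := by
  obtain ⟨h, h0, h1, -, h3⟩ := C.exists_N hp hz
  rw [← h1, (C.aeval_ord h0).2.2, h3]

omit [IsAlgClosed k] [IsDedekindDomain O] in
private theorem gal_span_iter (C : Cyc k O p ζ) {z : O} {s : Multiset (MaximalSpectrum O)}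
    (h : Ideal.span {z} = idl s) (i : ℕ) :
    Ideal.span {C.σ^[i] z} = idl (s.map C.act^[i]) := by
  induction i with
  | zero => simpa using h
  | succ i ih =>
    rw [Function.iterate_succ_apply', Function.iterate_succ', ← Multiset.map_map]
    exact span_mv C.s ih

omit [IsDedekindDomain O] [IsAlgClosed k] in
private theorem gal_span_N (C : Cyc k O p ζ) {z : O} {s : Multiset (MaximalSpectrum O)}
    (h : Ideal.span {z} = idl s) :
    Ideal.span {C.N z} = idl (∑ i ∈ Finset.range p, s.map C.act^[i]) := by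
  unfold Cyc.N
  have h1 : ∀ t : Finset ℕ, Ideal.span {∏ i ∈ t, C.σ^[i] z} =
      idl (∑ i ∈ t, s.map C.act^[i]) := by
    intro t
    induction t using Finset.induction_on with
    | empty => simp [idl_zero]
    | insert a t ha ih =>
      rw [Finset.prod_insert ha, Finset.sum_insert ha, idl_add, ← ih, ← gal_span_iter C h a,
        Ideal.span_singleton_mul_span_singleton]
  exact h1 _

omit [IsDedekindDomain O] [IsAlgClosed k] in
private theorem gal_iter_e (C : Cyc k O p ζ) (e : O ≃+* O)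
    (hσ : ∀ z, e (C.σ z) = C.σ (e z)) (i : ℕ) (z : O) : e (C.σ^[i] z) = C.σ^[i] (e z) := by
  induction i with
  | zero => rfl
  | succ i ih =>
    rw [Function.iterate_succ_apply', Function.iterate_succ_apply', hσ, ih]

omit [IsDedekindDomain O] [IsAlgClosed k] in
private theorem gal_N_e (C : Cyc k O p ζ) (e : O ≃+* O)
    (hσ : ∀ z, e (C.σ z) = C.σ (e z)) (z : O) : e (C.N z) = C.N (e z) := by
  unfold Cyc.N
  rw [map_prod]
  exact Finset.prod_congr rfl fun i _ => gal_iter_e C e hσ i z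

omit [IsDedekindDomain O] [IsAlgClosed k] in
private theorem gal_act_e (C : Cyc k O p ζ) (e : O ≃+* O)
    (hσ : ∀ z, e (C.σ z) = C.σ (e z)) (P : MaximalSpectrum O) :
    mv e (C.act P) = C.act (mv e P) := by
  show mv e (mv C.s P) = mv C.s (mv e P)
  rw [← mv_trans, ← mv_trans]
  congr 1
  ext z
  exact hσ z

omit [IsDedekindDomain O] [IsAlgClosed k] in
private theorem gal_sum_act (C : Cyc k O p ζ) (s : Multiset (MaximalSpectrum O)) :
    ∑ i ∈ Finset.range p, (s.map C.act).map C.act^[i] = ∑ i ∈ Finset.range p, s.map C.act^[i] := by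
  have h1 : ∀ i, (s.map C.act).map C.act^[i] = s.map C.act^[i + 1] := by
    intro i
    rw [Multiset.map_map, Function.iterate_succ]
  simp only [h1]
  have h2 := Finset.sum_range_succ (fun i => s.map C.act^[i]) p
  have h3 := Finset.sum_range_succ' (fun i => s.map C.act^[i]) p
  rw [h2] at h3
  have h4 : s.map C.act^[p] = s.map C.act^[0] :=
    Multiset.map_congr rfl fun P _ => C.act_pow P
  rw [h4] at h3
  exact (add_right_cancel h3).symm

omit [IsDedekindDomain O] [IsAlgClosed k] in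
private theorem gal_lin (C : Cyc k O p ζ) [Fact p.Prime] (c : k) :
    aeval C.x (X - Polynomial.C c) = C.x - algebraMap k O c := by
  simp

/-- the norm of `α` -/
private theorem gal_norm (C : Cyc k O p ζ) [Fact p.Prime] (hp : p ≠ 2) {P₀ : MaximalSpectrum O}
    (h₀ : P₀ ∈ C.F) {s A B : Multiset (MaximalSpectrum O)} {α β : O}
    (hA : Ideal.span {α} = idl A) (hB : Ideal.span {β} = idl B) (hα : C.I.lc α = 1)
    (hβ : C.I.lc β = 1) (h : A + s = B + (P₀ ::ₘ s.map C.act)) :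
    C.N α = C.N β * (C.x - algebraMap k O (C.xc P₀)) := by
  have hα0 := ne_zero_of_span C.I hA
  have hβ0 := ne_zero_of_span C.I hB
  apply eq_of_span_eq C.I
  · rw [← Ideal.span_singleton_mul_span_singleton, gal_span_N C hA, gal_span_N C hB,
      C.span_fix h₀, ← idl_add]
    congr 1
    have h1 : ∑ i ∈ Finset.range p, (A + s).map C.act^[i] =
        ∑ i ∈ Finset.range p, (B + (P₀ ::ₘ s.map C.act)).map C.act^[i] := by rw [h]
    simp only [Multiset.map_add, Multiset.map_cons, Finset.sum_add_distrib] at h1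
    have h2 : ∀ i, C.act^[i] P₀ = P₀ := by
      intro i
      exact Function.iterate_fixed ((C.mem_F P₀).1 h₀) i
    have h3 : ∀ i, (C.act^[i] P₀ ::ₘ (s.map C.act).map C.act^[i]) =
        {P₀} + (s.map C.act).map C.act^[i] := by
      intro i
      rw [h2, Multiset.singleton_add]
    simp only [h3, Finset.sum_add_distrib, Finset.sum_const, Finset.card_range] at h1
    rw [gal_sum_act, ← add_assoc] at h1
    exact add_right_cancel h1
  · rw [C.I.lc_mul, gal_lc_N C hp hα0, gal_lc_N C hp hβ0, hα, hβ, ← gal_lin C,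
      (C.aeval_ord (X_sub_C_ne_zero _)).2.2, leadingCoeff_X_sub_C]
    ring

omit [IsAlgClosed k] in
/-- a representation of the class -/
private theorem gal_choice (C : Cyc k O p ζ) {P₀ : MaximalSpectrum O} {c : J O}
    (hc : c - C.S c = cl P₀) : ∃ (s A B : Multiset (MaximalSpectrum O)) (α β : O),
      (∀ P ∈ s, P ∉ C.F) ∧ (s.map cl).sum = c ∧ Ideal.span {α} = idl A ∧
      Ideal.span {β} = idl B ∧ C.I.lc α = 1 ∧ C.I.lc β = 1 ∧
      A + s = B + (P₀ ::ₘ s.map C.act) := by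
  obtain ⟨s, hs1, hs2⟩ := exists_avoid C.I c C.F
  have h1 : (s.map cl).sum = ((P₀ ::ₘ s.map C.act).map cl).sum := by
    rw [Multiset.map_cons, Multiset.sum_cons, ← J.map_sum, hs2, ← hc, sub_add_cancel]
  obtain ⟨α₀, β₀, hα₀, hβ₀, h2⟩ := (sum_cl_eq_iff C.I _ _).1 h1
  obtain ⟨α, hα, hα1⟩ := exists_monic C.I hα₀
  obtain ⟨β, hβ, hβ1⟩ := exists_monic C.I hβ₀
  obtain ⟨A, hA⟩ := exists_idl C.I (A := Ideal.span {α}) (by
    rw [hα, Ne, Ideal.span_singleton_eq_bot]
    exact hα₀)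
  obtain ⟨B, hB⟩ := exists_idl C.I (A := Ideal.span {β}) (by
    rw [hβ, Ne, Ideal.span_singleton_eq_bot]
    exact hβ₀)
  refine ⟨s, A, B, α, β, hs1, hs2, hA.symm, hB.symm, hα1, hβ1, idl_injective C.I ?_⟩
  rw [idl_add, idl_add, hA, hB, hα, hβ]
  exact h2

omit [IsDedekindDomain O] [IsAlgClosed k] in
private theorem gal_mv_inj (e : O ≃+* O) : Function.Injective (mv e) := by
  intro P Q h
  have h1 := congrArg (mv e.symm) h
  rwa [← mv_trans, ← mv_trans, RingEquiv.self_trans_symm, mv_refl, mv_refl] at h1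

omit [IsDedekindDomain O] [IsAlgClosed k] [Field k] [Algebra k O] in
private theorem gal_count_map {e : O ≃+* O} {P : MaximalSpectrum O}
    (hP : mv e P = P) (s : Multiset (MaximalSpectrum O)) : (s.map (mv e)).count P = s.count P := by
  conv_lhs => rw [← hP]
  exact Multiset.count_map_eq_count' _ _ (gal_mv_inj e) _

omit [IsAlgClosed k] in
private theorem gal_span_ex (C : Cyc k O p ζ) {z : O} (hz : z ≠ 0) :
    ∃ A : Multiset (MaximalSpectrum O), Ideal.span {z} = idl A := by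
  obtain ⟨A, hA⟩ := exists_idl C.I (A := Ideal.span {z}) (by
    rwa [Ne, Ideal.span_singleton_eq_bot])
  exact ⟨A, hA.symm⟩

/-- the function `z` -/
private theorem gal_z (C : Cyc k O p ζ) [Fact p.Prime] (hp : p ≠ 2) (e : O ≃+* O) (g : k ≃+* k)
    (hg : ∀ c, e (algebraMap k O c) = algebraMap k O (g c)) (hx : e C.x = C.x)
    (hσ : ∀ z, e (C.σ z) = C.σ (e z)) (hgx : ∀ P ∈ C.F, g (C.xc P) = C.xc P)
    {P₀ : MaximalSpectrum O} (h₀ : P₀ ∈ C.F) {s A B : Multiset (MaximalSpectrum O)} {α β : O}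
    (hs : ∀ P ∈ s, P ∉ C.F)
    (hA : Ideal.span {α} = idl A) (hB : Ideal.span {β} = idl B) (hα : C.I.lc α = 1)
    (hβ : C.I.lc β = 1) (h : A + s = B + (P₀ ::ₘ s.map C.act)) :
    ∃ z, z ≠ 0 ∧ e α * β * C.σ z = e β * α * z ∧
      J.map e (s.map cl).sum - (s.map cl).sum = ∑ P ∈ C.F, vp P z • cl P := by
  have hα0 := ne_zero_of_span C.I hA
  have hβ0 := ne_zero_of_span C.I hB
  have heα0 : e α ≠ 0 := (map_ne_zero_iff e e.injective).2 hα0
  have heβ0 : e β ≠ 0 := (map_ne_zero_iff e e.injective).2 hβ0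
  have hN := gal_norm C hp h₀ hA hB hα hβ h
  have hN2 : C.N (e α) = C.N (e β) * (C.x - algebraMap k O (C.xc P₀)) := by
    rw [← gal_N_e C e hσ, ← gal_N_e C e hσ, hN, map_mul, map_sub, hx, hg, hgx P₀ h₀]
  have hN3 : C.N (e α * β) = C.N (e β * α) := by
    rw [C.N_mul, C.N_mul, hN, hN2]
    ring
  obtain ⟨z, hz, hz2⟩ := C.hilbert (mul_ne_zero heα0 hβ0) (mul_ne_zero heβ0 hα0) hN3
  refine ⟨z, hz, hz2, ?_⟩
  obtain ⟨D, hD⟩ := gal_span_ex C hz
  have hσD : Ideal.span {C.σ z} = idl (D.map C.act) := span_mv C.s hD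
  have heA := span_mv e hA
  have heB := span_mv e hB
  have h1 : A.map (mv e) + B + D.map C.act = B.map (mv e) + A + D := by
    apply idl_injective C.I
    rw [idl_add, idl_add, idl_add, idl_add, ← heA, ← heB, ← hA, ← hB, ← hD, ← hσD,
      Ideal.span_singleton_mul_span_singleton, Ideal.span_singleton_mul_span_singleton,
      Ideal.span_singleton_mul_span_singleton, Ideal.span_singleton_mul_span_singleton, hz2]
  have h2 : A.map (mv e) + s.map (mv e) =
      B.map (mv e) + (P₀ ::ₘ (s.map (mv e)).map C.act) := by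
    have h3 := congrArg (Multiset.map (mv e)) h
    rw [Multiset.map_add, Multiset.map_add, Multiset.map_cons, Multiset.map_map,
      gal_fixed_aux C e g hg hx hgx h₀] at h3
    rw [h3, Multiset.map_map]
    congr 2
    exact Multiset.map_congr rfl fun P _ => gal_act_e C e hσ P
  have h4 : (D + s.map (mv e)).map C.act + s = s.map C.act + (D + s.map (mv e)) := by
    rw [← Multiset.singleton_add] at h h2
    rw [Multiset.map_add]
    ext Q
    have i1 := congrArg (Multiset.count Q) h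
    have i2 := congrArg (Multiset.count Q) h1
    have i3 := congrArg (Multiset.count Q) h2
    simp only [Multiset.count_add] at i1 i2 i3 ⊢
    omega
  have h5 := C.inv_sum h4
  have h6 : (D.map cl).sum = 0 := (sum_cl_eq_zero_iff C.I D).2 ⟨z, hD⟩
  rw [Multiset.map_add, Multiset.sum_add, h6, zero_add, ← J.map_sum] at h5
  rw [h5]
  refine Finset.sum_congr rfl fun P hP => ?_
  have h7 : s.count P = 0 := Multiset.count_eq_zero.2 fun hs' => hs P hs' hP
  rw [Multiset.count_add, gal_count_map (gal_fixed_aux C e g hg hx hgx hP), h7,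
    vp_eq C.I hD P]
  simp

omit [IsDedekindDomain O] [IsAlgClosed k] in
/-- comparison of two roots -/
private theorem gal_root (C : Cyc k O p ζ) [Fact p.Prime] {κ r : k} (hκ : κ ≠ 0)
    (h : κ ^ p = r ^ p) : r ≠ 0 ∧ ∃ j, κ = ζ ^ j * r := by
  have hp0 : p ≠ 0 := (Fact.out : p.Prime).ne_zero
  have hr : r ≠ 0 := by
    rintro rfl
    rw [zero_pow hp0] at h
    exact hκ ((pow_eq_zero_iff hp0).1 h)
  refine ⟨hr, ?_⟩
  have h1 : (κ / r) ^ p = 1 := by
    rw [div_pow, h, div_self (pow_ne_zero _ hr)]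
  obtain ⟨j, -, hj⟩ := C.prim.eq_pow_of_pow_eq_one h1
  exact ⟨j, by rw [hj, div_mul_cancel₀ _ hr]⟩

/-- the value of `1` -/
private theorem gal_one (C : Cyc k O p ζ) (P : MaximalSpectrum O) (w : O) :
    Rat C.I P w w 1 := by
  have h1 : (1 : O) ∉ P.asIdeal := P.isMaximal.ne_top ∘ (Ideal.eq_top_iff_one _).2
  exact ⟨1, 1, h1, h1, rfl, by rw [one_mul]⟩

omit [IsAlgClosed k] in
private theorem gal_zeta_pow (C : Cyc k O p ζ) {e : O ≃+* O} {g : k ≃+* k}
    (hg : ∀ c, e (algebraMap k O c) = algebraMap k O (g c))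
    (hy : e C.y = C.y) (hσ : ∀ z, e (C.σ z) = C.σ (e z)) (j : ℕ) : g (ζ ^ j) = ζ ^ j := by
  rw [map_pow, gal_zeta C e g hg hy hσ]

/-- the fixed points different from `P₀` -/
private theorem gal_at (C : Cyc k O p ζ) [Fact p.Prime] (e : O ≃+* O) (g : k ≃+* k)
    (hg : ∀ c, e (algebraMap k O c) = algebraMap k O (g c)) (hx : e C.x = C.x)
    (hy : e C.y = C.y)
    (hσ : ∀ z, e (C.σ z) = C.σ (e z)) (hgx : ∀ P ∈ C.F, g (C.xc P) = C.xc P)
    {P₀ P : MaximalSpectrum O} (hP : P ∈ C.F) {α β z : O} (hα : α ≠ 0) (hβ : β ≠ 0) (hz : z ≠ 0)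
    (hN : C.N α = C.N β * (C.x - algebraMap k O (C.xc P₀))) (hv : vp P α = vp P β)
    (h : e α * β * C.σ z = e β * α * z) {r : k} {ε : ℕ} (hr : r ^ p = C.xc P - C.xc P₀)
    (hgr : g r = ζ ^ ε * r) : ζ ^ (vp P z + C.m P * ε) = 1 := by
  obtain ⟨κ, hκ, hR⟩ := Rat.exists C.I hα hβ hv
  have h1 : κ ^ p = r ^ p := by
    rw [hr]
    have := C.rat_N hP hα hβ (h := X - Polynomial.C (C.xc P₀)) (by rw [gal_lin, hN]) hR
    simpa using this
  obtain ⟨hr0, j, hj⟩ := gal_root C hκ h1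
  have h2 : g κ = ζ ^ ε * κ := by
    rw [hj, map_mul, gal_zeta_pow C hg hy hσ, hgr]
    ring
  have hR2 := hR.map e g hg (gal_fixed_aux C e g hg hx hgx hP)
  obtain ⟨ρ, hρ, hρ1, -⟩ := C.rat_σ hP hz
  have hR3 := (hρ.mul hR2).mul hR.inv
  have h3 : z * e β * α = C.σ z * e α * β := by
    linear_combination (-1) * h
  have heβ0 : e β ≠ 0 := (map_ne_zero_iff e e.injective).2 hβ
  have hw : z * e β * α ≠ 0 := mul_ne_zero (mul_ne_zero hz heβ0) hα
  rw [← h3] at hR3
  have h4 := hR3.unique hw (gal_one C P _)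
  rw [h2] at h4
  have h5 : ρ * ζ ^ ε = 1 := by
    rw [← h4]
    field_simp
  calc ζ ^ (vp P z + C.m P * ε) = (ρ * ζ ^ ε) ^ C.m P := by
        rw [pow_add, ← hρ1, mul_pow, ← pow_mul, mul_comm ε]
    _ = 1 := by rw [h5, one_pow]

omit [IsDedekindDomain O] [IsAlgClosed k] in
/-- the norm of `y` -/
private theorem gal_N_y (C : Cyc k O p ζ) [Fact p.Prime] (hp : p ≠ 2) : C.N C.y = C.y ^ p := by
  have h1 : ∀ i, C.σ^[i] C.y = algebraMap k O (ζ ^ i) * C.y := by
    intro i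
    induction i with
    | zero => simp
    | succ i ih =>
      rw [Function.iterate_succ_apply', ih, map_mul, C.σy, pow_succ, map_mul, AlgEquiv.commutes]
      ring
  unfold Cyc.N
  simp only [h1]
  rw [Finset.prod_mul_distrib, Finset.prod_const, Finset.card_range, ← map_prod,
    Finset.prod_pow_eq_pow_sum, Finset.sum_range_id]
  have h2 : ζ ^ (p * (p - 1) / 2) = 1 := by
    have hodd : Odd p := (Fact.out : p.Prime).odd_of_ne_two hp
    obtain ⟨m, hm⟩ := hodd
    have h3 : p * (p - 1) / 2 = p * m := by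
      have h4 : p - 1 = 2 * m := by omega
      rw [h4]
      have h5 : p * (2 * m) = 2 * (p * m) := by ring
      rw [h5, Nat.mul_div_cancel_left _ (by norm_num)]
    rw [h3, pow_mul, C.prim.pow_eq_one, one_pow]
  rw [h2, map_one, one_mul]

/-- the fixed point `P₀` -/
private theorem gal_at0 (C : Cyc k O p ζ) [Fact p.Prime] (hp : p ≠ 2) (e : O ≃+* O) (g : k ≃+* k)
    (hg : ∀ c, e (algebraMap k O c) = algebraMap k O (g c)) (hx : e C.x = C.x)
    (hy : e C.y = C.y)
    (hσ : ∀ z, e (C.σ z) = C.σ (e z)) (hgx : ∀ P ∈ C.F, g (C.xc P) = C.xc P)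
    {P₀ : MaximalSpectrum O} (h₀ : P₀ ∈ C.F) {α β z : O} (hα : α ≠ 0) (hβ : β ≠ 0) (hz : z ≠ 0)
    (hN : C.N α = C.N β * (C.x - algebraMap k O (C.xc P₀))) (hv : vp P₀ α = vp P₀ β + 1)
    (h : e α * β * C.σ z = e β * α * z) {r : MaximalSpectrum O → k} {ε : MaximalSpectrum O → ℕ}
    (hr : ∀ P ∈ C.F, P ≠ P₀ → r P ^ p = C.xc P - C.xc P₀)
    (hgr : ∀ P ∈ C.F, P ≠ P₀ → g (r P) = ζ ^ ε P * r P) :
    ζ ^ (vp P₀ z) = ζ ^ (∑ P ∈ C.F.erase P₀, C.m P * ε P) := by
  have hy0 := gal_y_ne C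
  have hyβ : C.y * β ^ C.m P₀ ≠ 0 := mul_ne_zero hy0 (pow_ne_zero _ hβ)
  have hαm : α ^ C.m P₀ ≠ 0 := pow_ne_zero _ hα
  have hv2 : vp P₀ (C.y * β ^ C.m P₀) = vp P₀ (α ^ C.m P₀) := by
    rw [vp_mul C.I hy0 (pow_ne_zero _ hβ), vp_pow C.I hβ, vp_pow C.I hα, hv, C.vp_y h₀]
    ring
  obtain ⟨κ, hκ, hR⟩ := Rat.exists C.I hyβ hαm hv2
  have hodd : Odd p := (Fact.out : p.Prime).odd_of_ne_two hp
  have hpow : C.y ^ p = (C.x - algebraMap k O (C.xc P₀)) ^ C.m P₀ *
      ∏ P ∈ C.F.erase P₀, (C.x - algebraMap k O (C.xc P)) ^ C.m P := by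
    rw [C.y_pow, Finset.mul_prod_erase C.F
      (fun P => (C.x - algebraMap k O (C.xc P)) ^ C.m P) h₀]
  have h1 : κ ^ p = (∏ P ∈ C.F.erase P₀, (-r P) ^ C.m P) ^ p := by
    have h2 := C.rat_N h₀ hyβ hαm
      (h := ∏ P ∈ C.F.erase P₀, (X - Polynomial.C (C.xc P)) ^ C.m P) (by
        rw [C.N_mul, C.N_pow, C.N_pow, gal_N_y C hp, hN, hpow, map_prod, mul_pow]
        simp only [map_pow, gal_lin]
        ring) hR
    rw [h2, ← Finset.prod_pow, eval_prod]
    refine Finset.prod_congr rfl fun P hP => ?_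
    have hPF := Finset.mem_of_mem_erase hP
    have hP0 := Finset.ne_of_mem_erase hP
    rw [← pow_mul, mul_comm (C.m P), pow_mul, hodd.neg_pow, hr P hPF hP0]
    simp
  obtain ⟨hr0, j, hj⟩ := gal_root C hκ h1
  have h2 : g κ = ζ ^ (∑ P ∈ C.F.erase P₀, C.m P * ε P) * κ := by
    have h3 : g (∏ P ∈ C.F.erase P₀, (-r P) ^ C.m P) =
        ζ ^ (∑ P ∈ C.F.erase P₀, C.m P * ε P) * ∏ P ∈ C.F.erase P₀, (-r P) ^ C.m P := by
      rw [map_prod, ← Finset.prod_pow_eq_pow_sum, ← Finset.prod_mul_distrib]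
      refine Finset.prod_congr rfl fun P hP => ?_
      rw [map_pow, map_neg, hgr P (Finset.mem_of_mem_erase hP) (Finset.ne_of_mem_erase hP),
        mul_comm (C.m P), pow_mul, ← mul_pow]
      congr 1
      ring
    rw [hj, map_mul, gal_zeta_pow C hg hy hσ, h3]
    ring
  have hR2 := hR.map e g hg (gal_fixed_aux C e g hg hx hgx h₀)
  rw [map_mul, map_pow, map_pow, hy] at hR2
  obtain ⟨ρ, hρ, hρ1, -⟩ := C.rat_σ h₀ hz
  -- `(σ z) ^ m / z ^ m` times `(y β ^ m / α ^ m)` divided by `y (e β) ^ m / (e α) ^ m`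
  have hR3 := ((hρ.pow (C.m P₀)).mul hR2.inv).mul hR
  have heα0 : e α ≠ 0 := (map_ne_zero_iff e e.injective).2 hα
  have heβ0 : e β ≠ 0 := (map_ne_zero_iff e e.injective).2 hβ
  have h3 : C.σ z ^ C.m P₀ * e α ^ C.m P₀ * (C.y * β ^ C.m P₀) =
      z ^ C.m P₀ * (C.y * e β ^ C.m P₀) * α ^ C.m P₀ := by
    have h4 := congrArg (fun t => C.y * t ^ C.m P₀) h
    simp only [mul_pow] at h4
    linear_combination h4
  have hw : z ^ C.m P₀ * (C.y * e β ^ C.m P₀) * α ^ C.m P₀ ≠ 0 :=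
    mul_ne_zero (mul_ne_zero (pow_ne_zero _ hz) (mul_ne_zero hy0 (pow_ne_zero _ heβ0))) hαm
  rw [h3] at hR3
  have h4 := hR3.unique hw (gal_one C P₀ _)
  rw [h2, hρ1] at h4
  have hζ0 : ζ ≠ 0 := by
    rintro rfl
    have h6 := C.prim.pow_eq_one
    rw [zero_pow (Fact.out : p.Prime).ne_zero] at h6
    exact zero_ne_one h6
  field_simp at h4
  exact h4

private theorem gal_nsmul (C : Cyc k O p ζ) [Fact p.Prime] {P : MaximalSpectrum O} (hP : P ∈ C.F)
    {n m : ℕ} (h : ζ ^ n = ζ ^ m) : n • cl P = m • cl P := by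
  wlog hnm : n ≤ m generalizing n m
  · exact (this h.symm (by omega)).symm
  obtain ⟨t, rfl⟩ := Nat.exists_eq_add_of_le hnm
  have hζ0 : ζ ≠ 0 := by
    rintro rfl
    have h6 := C.prim.pow_eq_one
    rw [zero_pow (Fact.out : p.Prime).ne_zero] at h6
    exact zero_ne_one h6
  have h1 : ζ ^ t = 1 := by
    rw [pow_add] at h
    have h2 := pow_ne_zero n hζ0
    exact mul_left_cancel₀ h2 (by rw [← h, mul_one])
  obtain ⟨q, rfl⟩ := (C.prim.pow_eq_one_iff_dvd t).1 h1
  rw [add_nsmul, mul_comm p q, mul_nsmul', C.nsmul_cl hP, nsmul_zero, add_zero]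

/-- Let `e` be an automorphism of `O` over the automorphism `g` of `k`, which fixes `x`, `y` and
commutes with `σ`, and let `g` fix the coordinates of the fixed points. If `g` multiplies a `p`-th
root of the difference `x(P) - x(P₀)` by `ζ ^ (ε P)`, then `e c - c = ∑ (m P) (ε P) (P₀ - P)` for
all classes `c` with `c - σ c = P₀`. -/
theorem Cyc.gal (C : Cyc k O p ζ) [Fact p.Prime] (hp : p ≠ 2) (e : O ≃+* O) (g : k ≃+* k)
    (hg : ∀ c, e (algebraMap k O c) = algebraMap k O (g c)) (hx : e C.x = C.x)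
    (hy : e C.y = C.y) (hσ : ∀ z, e (C.σ z) = C.σ (e z)) (hgx : ∀ P ∈ C.F, g (C.xc P) = C.xc P)
    {P₀ : MaximalSpectrum O} (h₀ : P₀ ∈ C.F) (r : MaximalSpectrum O → k)
    (ε : MaximalSpectrum O → ℕ) (hr : ∀ P ∈ C.F, P ≠ P₀ → r P ^ p = C.xc P - C.xc P₀)
    (hgr : ∀ P ∈ C.F, P ≠ P₀ → g (r P) = ζ ^ ε P * r P) {c : J O} (hc : c - C.S c = cl P₀) :
    J.map e c - c = ∑ P ∈ C.F.erase P₀, (C.m P * ε P) • (cl P₀ - cl P) := by
  obtain ⟨s, A, B, α, β, hs, hsc, hA, hB, hα, hβ, h⟩ := gal_choice C hc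
  obtain ⟨z, hz, hz1, hz2⟩ := gal_z C hp e g hg hx hσ hgx h₀ hs hA hB hα hβ h
  have hα0 := ne_zero_of_span C.I hA
  have hβ0 := ne_zero_of_span C.I hB
  have hN := gal_norm C hp h₀ hA hB hα hβ h
  have hcount : ∀ P ∈ C.F, vp P α = vp P β + if P = P₀ then 1 else 0 := by
    intro P hP
    rw [vp_eq C.I hA, vp_eq C.I hB]
    have h1 := congrArg (Multiset.count P) h
    have h2 : s.count P = 0 := Multiset.count_eq_zero.2 fun h3 => hs P h3 hP
    have h3 : (s.map C.act).count P = s.count P := gal_count_map ((C.mem_F P).1 hP) s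
    rw [Multiset.count_add, Multiset.count_add, Multiset.count_cons, h3, h2] at h1
    omega
  rw [← hsc, hz2]
  have key : ∀ P ∈ C.F.erase P₀, vp P z • cl P = -((C.m P * ε P) • cl P) := by
    intro P hP
    have hPF := Finset.mem_of_mem_erase hP
    have hP0 := Finset.ne_of_mem_erase hP
    have h1 := hcount P hPF
    rw [if_neg hP0, add_zero] at h1
    have h2 := gal_at C e g hg hx hy hσ hgx hPF hα0 hβ0 hz hN h1 hz1 (hr P hPF hP0)
      (hgr P hPF hP0)
    rw [← pow_zero ζ] at h2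
    have h3 := gal_nsmul C hPF h2
    rw [add_nsmul, zero_nsmul] at h3
    exact eq_neg_of_add_eq_zero_left h3
  have key0 : vp P₀ z • cl P₀ = (∑ P ∈ C.F.erase P₀, C.m P * ε P) • cl P₀ := by
    have h1 := hcount P₀ h₀
    rw [if_pos rfl] at h1
    exact gal_nsmul C h₀ (gal_at0 C hp e g hg hx hy hσ hgx h₀ hα0 hβ0 hz hN h1 hz1 hr hgr)
  rw [← Finset.add_sum_erase C.F (fun P => vp P z • cl P) h₀]
  simp only [key0, Finset.sum_congr rfl key]
  rw [Finset.sum_smul, ← Finset.sum_add_distrib]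
  refine Finset.sum_congr rfl fun P _ => ?_
  rw [nsmul_sub, sub_eq_add_neg]

/-- Under the same assumptions the classes fixed by `σ` are fixed by `e`. -/
theorem Cyc.gal_fixed (C : Cyc k O p ζ) [Fact p.Prime] (e : O ≃+* O) (g : k ≃+* k)
    (hg : ∀ c, e (algebraMap k O c) = algebraMap k O (g c)) (hx : e C.x = C.x)
    (hgx : ∀ P ∈ C.F, g (C.xc P) = C.xc P) {P : MaximalSpectrum O} (hP : P ∈ C.F) :
    mv e P = P :=
  gal_fixed_aux C e g hg hx hgx hP

end Pool.Agent.PTate
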