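import Pool.Agent.PTate.Cy3
import Pool.Agent.PTate.Alg

/-!
# Divisibility by `1 - σ`
-/

set_option autoImplicit false

noncomputable section

namespace Pool.Agent.PTate

open Polynomial
open scoped Classical

variable {k O : Type} [Field k] [CommRing O] [Algebra k O] {p : ℕ} {ζ : k}
  [IsDedekindDomain O] [IsAlgClosed k]

theorem Cyc.exists_N_eq (C : Cyc k O p ζ) [Fact p.Prime] (hp : p ≠ 2) (c : k) :
    ∃ (a : O) (h : k[X]), a ≠ 0 ∧ h ≠ 0 ∧
      C.N a = (C.x - algebraMap k O c) * aeval C.x h ^ p := by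
  have hp1 : p.Prime := Fact.out
  have hx0 : C.x - algebraMap k O c ≠ 0 := by
    have h := (C.aeval_ord (X_sub_C_ne_zero c)).1
    rwa [map_sub, aeval_X, aeval_C] at h
  have hdom : IsDomain O := inferInstance
  let E := FractionRing O
  have hinj : Function.Injective (algebraMap O E) := IsFractionRing.injective O E
  let σE : E ≃+* E := IsFractionRing.ringEquivOfRingEquiv C.s
  have hσE : ∀ z : O, σE (algebraMap O E z) = algebraMap O E (C.σ z) := fun z =>
    IsFractionRing.ringEquivOfRingEquiv_algebraMap C.s z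
  have hσi : ∀ (i : ℕ) (z : O), σE^[i] (algebraMap O E z) = algebraMap O E (C.σ^[i] z) := by
    intro i
    induction i with
    | zero => intro z; rfl
    | succ i ih =>
      intro z
      rw [Function.iterate_succ_apply, Function.iterate_succ_apply, hσE, ih]
  have hN : ∀ z : O, ∏ i ∈ Finset.range p, σE^[i] (algebraMap O E z) =
      algebraMap O E (C.N z) := by
    intro z
    unfold Cyc.N
    rw [map_prod]
    exact Finset.prod_congr rfl fun i _ => hσi i z
  choose r hr using fun P : MaximalSpectrum O =>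
    IsAlgClosed.exists_pow_nat_eq (c - C.xc P) hp1.pos
  have hy0 : C.y ≠ 0 := ne_zero_of_span C.I C.span_y
  have hconst : ∀ a : k, σE (algebraMap O E (algebraMap k O a)) =
      algebraMap O E (algebraMap k O a) := by
    intro a
    rw [hσE, AlgEquiv.commutes]
  obtain ⟨w, hw⟩ := exists_norm_cyclic σE hp (ζ := algebraMap O E (algebraMap k O ζ))
    (C.prim.map_of_injective (f := (algebraMap O E).comp (algebraMap k O))
      ((algebraMap O E).comp (algebraMap k O)).injective) (hconst ζ)
    (y := algebraMap O E C.y) (g := algebraMap O E (C.x - algebraMap k O c))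
    ((map_ne_zero_iff _ hinj).2 hy0) (by rw [hσE, C.σy, map_mul])
    (by rw [hσE, map_sub, C.σx, AlgEquiv.commutes]) ((map_ne_zero_iff _ hinj).2 hx0) C.F
    (fun P => algebraMap O E (algebraMap k O (r P))) C.m (fun P _ => hconst (r P)) (by
      rw [← map_pow, C.y_pow, map_prod]
      refine Finset.prod_congr rfl fun P _ => ?_
      rw [← map_pow, ← map_pow, hr, ← map_add, map_pow]
      congr 2
      rw [map_sub]
      ring)
  obtain ⟨a, b, hb, rfl⟩ := IsFractionRing.div_surjective (A := O) w
  have hb0 : b ≠ 0 := nonZeroDivisors.ne_zero hb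
  have h1 : C.N a = (C.x - algebraMap k O c) * C.N b := by
    apply hinj
    rw [map_mul, ← hN, ← hN, ← hw, ← Finset.prod_mul_distrib]
    refine Finset.prod_congr rfl fun i _ => ?_
    have h2 : ∀ (i : ℕ) (u v : E), σE^[i] (u * v) = σE^[i] u * σE^[i] v := by
      intro i
      induction i with
      | zero => intro u v; rfl
      | succ i ih =>
        intro u v
        rw [Function.iterate_succ_apply, map_mul, ih, Function.iterate_succ_apply,
          Function.iterate_succ_apply]
    rw [← h2, div_mul_cancel₀ _ ((map_ne_zero_iff _ hinj).2 hb0)]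
  have hNb : C.N b ≠ 0 := C.N_ne_zero hb0
  obtain ⟨h, hh0, hh1, -, -⟩ := C.exists_N hp hb0
  have ha0 : a ≠ 0 := by
    rintro rfl
    have h2 : C.N (0 : O) = 0 := by
      unfold Cyc.N
      refine Finset.prod_eq_zero (Finset.mem_range.2 hp1.pos) ?_
      rfl
    rw [h2] at h1
    exact mul_ne_zero hx0 hNb h1.symm
  refine ⟨a * b ^ (p - 1), h, mul_ne_zero ha0 (pow_ne_zero _ hb0), hh0, ?_⟩
  rw [C.N_mul, C.N_pow, h1, hh1, mul_assoc]
  congr 1
  rw [← pow_succ', Nat.sub_add_cancel hp1.one_le]

private theorem la_fibres (C : Cyc k O p ζ) [Fact p.Prime] (R : Multiset k) :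
    ∃ t : Multiset (MaximalSpectrum O), Prin t ∧ t.map C.xc = p • R := by
  induction R using Multiset.induction_on with
  | empty =>
    refine ⟨0, ⟨1, ?_⟩, ?_⟩
    · rw [idl_zero, Ideal.span_singleton_one]
    · rw [Multiset.map_zero, smul_zero]
  | cons r R ih =>
    obtain ⟨t, ⟨z, hz⟩, ht⟩ := ih
    obtain ⟨P, hP⟩ := C.exists_point r
    refine ⟨(Multiset.range p).map (fun i => C.act^[i] P) + t,
      ⟨(C.x - algebraMap k O (C.xc P)) * z, ?_⟩, ?_⟩
    · rw [idl_add, ← C.span_fibre P, ← hz, Ideal.span_singleton_mul_span_singleton]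
    · have h1 : ∀ i : ℕ, C.xc (C.act^[i] P) = r := by
        intro i
        induction i with
        | zero => exact hP
        | succ i ih => rw [Function.iterate_succ_apply', C.xc_act, ih]
      rw [Multiset.map_add, ht, Multiset.map_map]
      have h2 : (Multiset.range p).map (C.xc ∘ fun i => C.act^[i] P) = p • {r} := by
        rw [Multiset.nsmul_singleton, Multiset.eq_replicate]
        refine ⟨by rw [Multiset.card_map, Multiset.card_range], ?_⟩
        intro b hb
        obtain ⟨i, -, rfl⟩ := Multiset.mem_map.1 hb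
        exact h1 i
      rw [h2, ← smul_add, Multiset.singleton_add]

private theorem la_pt (C : Cyc k O p ζ) [Fact p.Prime] (hp : p ≠ 2) (P : MaximalSpectrum O) :
    ∃ c' : J O, cl P = c' - C.S c' := by
  obtain ⟨a, h, ha, hh, hN⟩ := C.exists_N_eq hp (C.xc P)
  obtain ⟨s, hs⟩ := exists_idl C.I (A := Ideal.span {a}) (by
    rwa [Ne, Ideal.span_singleton_eq_bot])
  have h1 : aeval C.x ((X - Polynomial.C (C.xc P)) * h ^ p) = C.N a := by
    rw [hN, map_mul, map_sub, aeval_X, aeval_C, map_pow]
  have h2 := C.roots_N hs.symm h1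
  have h3 : ((X - Polynomial.C (C.xc P)) * h ^ p).roots = {C.xc P} + p • h.roots := by
    rw [roots_mul (mul_ne_zero (X_sub_C_ne_zero _) (pow_ne_zero _ hh)), roots_X_sub_C, roots_pow]
  obtain ⟨t, htp, ht⟩ := la_fibres C h.roots
  have h4 : s.map C.xc = ({P} + t).map C.xc := by
    rw [← h2, h3, Multiset.map_add, ht, Multiset.map_singleton]
  obtain ⟨c, hc⟩ := C.exists_sub h4
  have h5 : (s.map cl).sum = 0 := (sum_cl_eq_zero_iff C.I s).2 ⟨a, hs.symm⟩
  have h6 : (t.map cl).sum = 0 := (sum_cl_eq_zero_iff C.I t).2 htp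
  rw [Multiset.map_add, Multiset.sum_add, Multiset.map_singleton, Multiset.sum_singleton, h5, h6,
    add_zero, zero_sub] at hc
  refine ⟨-c, ?_⟩
  rw [map_neg, ← neg_sub', ← hc, neg_neg]

/-- the group `J` is divisible by `1 - σ` -/
theorem Cyc.exists_lambda (C : Cyc k O p ζ) [Fact p.Prime] (hp : p ≠ 2) (c : J O) :
    ∃ c', c = c' - C.S c' := by
  obtain ⟨s, rfl⟩ := exists_multiset C.I c
  induction s using Multiset.induction_on with
  | empty =>
    refine ⟨0, ?_⟩
    rw [Multiset.map_zero, Multiset.sum_zero, map_zero, sub_zero]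
  | cons P s ih =>
    obtain ⟨c₁, hc₁⟩ := ih
    obtain ⟨c₂, hc₂⟩ := la_pt C hp P
    refine ⟨c₂ + c₁, ?_⟩
    rw [Multiset.map_cons, Multiset.sum_cons, hc₁, map_add]
    nth_rewrite 1 [hc₂]
    abel

end Pool.Agent.PTate
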