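import Pool.Agent.PTate.Gal
import Pool.Agent.PTate.Lam

/-!
# The action on the classes killed by `(1 - σ) ^ 2`
-/

set_option autoImplicit false

noncomputable section

namespace Pool.Agent.PTate

open Polynomial
open scoped Classical

variable {k O : Type} [Field k] [CommRing O] [Algebra k O] {p : ℕ} {ζ : k}
  [IsDedekindDomain O] [IsAlgClosed k]

/-- Let `g` multiply the `p`-th root `r P Q` of the difference `x(P) - x(Q)` by `ζ ^ (ε P Q)`. If
`C - σ C = ∑ (c P) P`, then `e C - C = ∑ (c P) (m Q) (ε P Q) (P - Q)`. -/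
theorem Cyc.gal_sum (C : Cyc k O p ζ) [Fact p.Prime] (hp : p ≠ 2) (e : O ≃+* O) (g : k ≃+* k)
    (hg : ∀ c, e (algebraMap k O c) = algebraMap k O (g c)) (hx : e C.x = C.x)
    (hy : e C.y = C.y) (hσ : ∀ z, e (C.σ z) = C.σ (e z)) (hgx : ∀ P ∈ C.F, g (C.xc P) = C.xc P)
    (r : MaximalSpectrum O → MaximalSpectrum O → k)
    (ε : MaximalSpectrum O → MaximalSpectrum O → ℕ)
    (hr : ∀ P ∈ C.F, ∀ Q ∈ C.F, r P Q ^ p = C.xc P - C.xc Q)
    (hε : ∀ P Q, ε P Q = ε Q P)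
    (hgr : ∀ P ∈ C.F, ∀ Q ∈ C.F, g (r P Q) = ζ ^ ε P Q * r P Q) {c : J O}
    {n : MaximalSpectrum O → ℕ} (hc : c - C.S c = ∑ P ∈ C.F, n P • cl P) :
    J.map e c - c =
      ∑ P ∈ C.F, n P • ∑ Q ∈ C.F.erase P, (C.m Q * ε P Q) • (cl P - cl Q) := by
  have h1 : ∀ P : MaximalSpectrum O, ∃ c' : J O, cl P = c' - C.S c' := fun P =>
    C.exists_lambda hp (cl P)
  choose d hd using h1
  have h2 : ∀ P ∈ C.F, J.map e (d P) - d P =
      ∑ Q ∈ C.F.erase P, (C.m Q * ε P Q) • (cl P - cl Q) := by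
    intro P hP
    have h3 := C.gal hp e g hg hx hy hσ hgx hP (fun Q => r Q P) (fun Q => ε Q P)
      (fun Q hQ _ => hr Q hQ P hP) (fun Q hQ _ => hgr Q hQ P hP) (hd P).symm
    rw [h3]
    refine Finset.sum_congr rfl fun Q _ => ?_
    rw [hε Q P]
  have h3 : C.S (c - ∑ P ∈ C.F, n P • d P) = c - ∑ P ∈ C.F, n P • d P := by
    rw [map_sub, map_sum]
    have e1 : ∑ P ∈ C.F, C.S (n P • d P) = ∑ P ∈ C.F, n P • d P - ∑ P ∈ C.F, n P • cl P := by
      rw [← Finset.sum_sub_distrib]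
      refine Finset.sum_congr rfl fun P _ => ?_
      rw [map_nsmul, hd P, nsmul_sub, sub_sub_cancel]
    rw [e1, ← hc]
    abel
  obtain ⟨n', hn'⟩ := C.exists_fixed hp h3
  have h4 : J.map e (c - ∑ P ∈ C.F, n P • d P) = c - ∑ P ∈ C.F, n P • d P := by
    rw [hn', map_sum]
    refine Finset.sum_congr rfl fun P hP => ?_
    rw [map_nsmul, J.map_cl, C.gal_fixed e g hg hx hgx hP]
  rw [map_sub, map_sum] at h4
  have h5 : J.map e c - c = ∑ P ∈ C.F, n P • (J.map e (d P) - d P) := by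
    have e1 : ∑ P ∈ C.F, n P • (J.map e (d P) - d P) =
        ∑ P ∈ C.F, J.map e (n P • d P) - ∑ P ∈ C.F, n P • d P := by
      rw [← Finset.sum_sub_distrib]
      refine Finset.sum_congr rfl fun P _ => ?_
      rw [map_nsmul, nsmul_sub]
    rw [e1, sub_eq_sub_iff_add_eq_add]
    have h6 := sub_eq_sub_iff_add_eq_add.1 h4
    rw [h6]
    abel
  rw [h5]
  exact Finset.sum_congr rfl fun P hP => by rw [h2 P hP]

end Pool.Agent.PTate
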