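import Pool.Agent.PTate.GeoA

/-!
# The data of the Galois representations of the coverings
-/

set_option autoImplicit false

noncomputable section

namespace Pool.Agent.PTate

open Polynomial
open scoped Classical

variable {K : Type} [Field K] {L : Type} [Field L] [Algebra K L] {p : ℕ} [Fact p.Prime]
  {ι σ : Type}

section Weil

variable {O : Type} [CommRing O] [Algebra L O]

private lemma geo_lc_pow (I : Infty L O) {x : O} (lx : I.lc x = 1) (r : ℕ) :
    I.lc (x ^ r) = 1 := by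
  induction r with
  | zero =>
    rw [pow_zero]
    have h := I.lc_c (1 : L)
    rwa [map_one] at h
  | succ r ih => rw [pow_succ, I.lc_mul, ih, lx, one_mul]

private lemma geo_ord_pow (I : Infty L O) {x : O} (lx : I.lc x = 1) (r : ℕ) :
    x ^ r ≠ 0 ∧ I.ord (x ^ r) = r * I.ord x := by
  have hne : ∀ r, x ^ r ≠ 0 := by
    intro r h
    have h1 := geo_lc_pow I lx r
    rw [h, I.lc_zero] at h1
    exact zero_ne_one h1
  refine ⟨hne r, ?_⟩
  induction r with
  | zero =>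
    rw [pow_zero, Nat.zero_mul]
    have h := I.ord_c (1 : L)
    rwa [map_one] at h
  | succ r ih =>
    have h1 := hne 1
    rw [pow_one] at h1
    rw [pow_succ, I.ord_mul _ _ (hne r) h1, ih, Nat.succ_mul]

private lemma geo_ord_neg (I : Infty L O) {w : O} (hw : w ≠ 0) : I.ord (-w) = I.ord w := by
  have h1 : -w = algebraMap L O (-1) * w := by rw [map_neg, map_one, neg_one_mul]
  have h2 : algebraMap L O (-1) ≠ 0 := by
    intro h
    have h3 := I.lc_c (-1 : L)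
    rw [h, I.lc_zero] at h3
    exact (neg_ne_zero.2 one_ne_zero) h3.symm
  rw [h1, I.ord_mul _ _ h2 hw, I.ord_c, Nat.zero_add]

omit [Fact p.Prime] in
private lemma geo_monic (I : Infty L O) {x z : O} (hx : I.ord x = p) (lx : I.lc x = 1)
    (hz : z ≠ 0) (hd : p ∣ I.ord z) : Stm.IsMonic L x z ↔ I.lc z = 1 := by
  have hord : ∀ w : O, w ≠ 0 → Stm.ord L w = I.ord w := fun w hw => (finrank_span I hw).2
  constructor
  · rintro ⟨r, h | h⟩
    · rw [h]
      exact geo_lc_pow I lx r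
    · by_cases h0 : z - x ^ r = 0
      · rw [sub_eq_zero] at h0
        rw [h0]
        exact geo_lc_pow I lx r
      · rw [hord _ h0, hord _ hz] at h
        have h1 := (I.dominant hz (w := -(z - x ^ r)) (Or.inr (by rwa [geo_ord_neg I h0]))).2.2
        rw [← h1]
        have h2 : z + -(z - x ^ r) = x ^ r := by ring
        rw [h2]
        exact geo_lc_pow I lx r
  · intro h
    obtain ⟨r, hr⟩ := hd
    refine ⟨r, ?_⟩
    by_cases h0 : z = x ^ r
    · exact Or.inl h0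
    · right
      obtain ⟨h1, h2⟩ := geo_ord_pow I lx r
      rw [hord _ (sub_ne_zero.2 h0), hord _ hz]
      refine I.ord_sub z (x ^ r) hz h1 h0 ?_ ?_
      · rw [h2, hr, hx, Nat.mul_comm]
      · rw [h, geo_lc_pow I lx r]

private lemma geo_weil [IsDedekindDomain O] [IsAlgClosed L] (I : Infty L O) {x : O}
    (hx : I.ord x = p) (lx : I.lc x = 1) {n : ℕ} (hn : p ∣ n) (c c' : J O) (w : L) :
    Stm.IsWeil x n c c' w ↔ IsWeil I n c c' w := by
  have key : ∀ (a : O) (s : Multiset (MaximalSpectrum O)), Ideal.span {a} = idl (n • s) →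
      (Stm.IsMonic L x a ↔ I.lc a = 1) := by
    intro a s h
    refine geo_monic I hx lx (ne_zero_of_span I h) ?_
    rw [← card_eq I h, Multiset.card_nsmul]
    exact Dvd.dvd.mul_right hn _
  constructor
  · rintro ⟨s, s', a, b, h1, h2, h3, h4, h5, h6, h7, h8⟩
    exact ⟨s, s', a, b, h1, h2, h3, h4, h5, (key a s h4).1 h6, (key b s' h5).1 h7, h8⟩
  · rintro ⟨s, s', a, b, h1, h2, h3, h4, h5, h6, h7, h8⟩
    exact ⟨s, s', a, b, h1, h2, h3, h4, h5, (key a s h4).2 h6, (key b s' h5).2 h7, h8⟩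

end Weil

section Chi

private lemma geo_mod {x : ℤ_[p]} {n : ℕ} (h : PadicInt.toZModPow n x = 1) :
    ∃ w, x = 1 + (p : ℤ_[p]) ^ n * w := by
  have h1 : x - 1 ∈ RingHom.ker (PadicInt.toZModPow n : ℤ_[p] →+* ZMod (p ^ n)) := by
    rw [RingHom.mem_ker, map_sub, map_one, h, sub_self]
  rw [PadicInt.ker_toZModPow, Ideal.mem_span_singleton] at h1
  obtain ⟨z, hz⟩ := h1
  exact ⟨z, by linear_combination hz⟩

private lemma geo_spec {ξ : ℕ → L} (hξ : IsRoots p ξ) (g : L ≃ₐ[K] L) (n : ℕ) :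
    g (ξ n) = ξ n ^ (PadicInt.toZModPow n ((chi L p g : ℤ_[p]ˣ) : ℤ_[p])).val := by
  have : ∀ i, HasEnoughRootsOfUnity L (p ^ i) := fun i =>
    ⟨⟨ξ i, hξ.prim i⟩, rootsOfUnity.isCyclic _ _⟩
  exact cyclotomicCharacter.spec p (g : L ≃+* L) (ξ n) (hξ.prim n).pow_eq_one

private lemma geo_chi {ξ : ℕ → L} (hξ : IsRoots p ξ) {g : L ≃ₐ[K] L} {n : ℕ} (hn : 1 ≤ n)
    (hg : g (ξ n) = ξ n) :
    ∃ w, ((chi L p g : ℤ_[p]ˣ) : ℤ_[p]) = 1 + (p : ℤ_[p]) ^ n * w := by
  apply geo_mod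
  have h1 := geo_spec hξ g n
  rw [hg] at h1
  have h2 : ξ n ^ 1 = ξ n ^ (PadicInt.toZModPow n ((chi L p g : ℤ_[p]ˣ) : ℤ_[p])).val := by
    rw [pow_one]; exact h1
  have : NeZero (p ^ n) := ⟨pow_ne_zero _ (Fact.out : p.Prime).ne_zero⟩
  have h3 := (hξ.prim n).pow_inj (Nat.one_lt_pow (by omega) (Fact.out : p.Prime).one_lt)
    (ZMod.val_lt _) h2
  have h4 := ZMod.natCast_zmod_val (PadicInt.toZModPow n ((chi L p g : ℤ_[p]ˣ) : ℤ_[p]))
  rw [← h3, Nat.cast_one] at h4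
  exact h4.symm

end Chi

section Curve

variable {O : Type} [CommRing O] [Algebra L O] [IsDedekindDomain O] [IsAlgClosed L] {ζ : L}

private lemma geo_sum {N : Type} [AddCommMonoid N] (C : Cyc L O p ζ) {S : Finset ι}
    {P : ι → MaximalSpectrum O} (hF : C.F = S.image P) (hinj : Set.InjOn P S)
    (f : MaximalSpectrum O → N) : ∑ Q ∈ C.F, f Q = ∑ i ∈ S, f (P i) := by
  rw [hF, Finset.sum_image hinj]

private lemma geo_ord_y (C : Cyc L O p ζ) {S : Finset ι} {m : ι → ℕ}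
    {P : ι → MaximalSpectrum O} (hF : C.F = S.image P) (hinj : Set.InjOn P S)
    (hm : ∀ i ∈ S, C.m (P i) = m i) : C.I.ord C.y = ∑ i ∈ S, m i := by
  rw [← card_eq C.I C.span_y]
  have h1 : Multiset.card (∑ Q ∈ C.F, C.m Q • ({Q} : Multiset (MaximalSpectrum O))) =
      ∑ Q ∈ C.F, C.m Q := by
    rw [Multiset.card_sum]
    refine Finset.sum_congr rfl fun Q _ => ?_
    rw [Multiset.card_nsmul, Multiset.card_singleton, mul_one]
  rw [h1, geo_sum C hF hinj]
  exact Finset.sum_congr rfl hm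

/-- the automorphism over `g` respects the leading coefficients -/
private lemma geo_lc (C : Cyc L O p ζ) {M : ℕ} (hM : M.Coprime p) (hy : C.I.ord C.y = M)
    {τ : O ≃+* O} {g : L ≃+* L} (hg : ∀ c, τ (algebraMap L O c) = algebraMap L O (g c))
    (hx : τ C.x = C.x) (hy' : τ C.y = C.y) (z : O) : C.I.lc (τ z) = g (C.I.lc z) := by
  refine (ord_map C.I C.lc_x C.lc_y ?_ ?_ τ g hg hx hy' z).2
  · rw [C.ord_x]
    exact (Fact.out : p.Prime).pos
  · rw [hy, C.ord_x]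
    exact hM

private lemma geo_xc (C : Cyc L O p ζ) {S : Finset ι} {a : ι → K}
    {P : ι → MaximalSpectrum O} (hF : C.F = S.image P)
    (hx : ∀ i ∈ S, C.xc (P i) = algebraMap K L (a i)) (g : L ≃ₐ[K] L) :
    ∀ Q ∈ C.F, (g : L ≃+* L) (C.xc Q) = C.xc Q := by
  intro Q hQ
  rw [hF, Finset.mem_image] at hQ
  obtain ⟨i, hi, rfl⟩ := hQ
  rw [hx i hi]
  exact g.commutes (a i)

private lemma geo_inv {M e n' : ℕ} (he : (e * M) % p = 1) (hn : (M * n') % p = 1) :
    ∃ w : ℤ_[p], (e : ℤ_[p]) = n' + p * w := by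
  have hp := (Fact.out : p.Prime)
  have h1 : ((e : ZMod p)) * M = 1 := by
    have h : (((e * M : ℕ)) : ZMod p) = ((1 : ℕ) : ZMod p) := by
      rw [ZMod.natCast_eq_natCast_iff]
      show _ % _ = _ % _
      rw [he, Nat.mod_eq_of_lt hp.one_lt]
    push_cast at h
    exact h
  have h2 : (M : ZMod p) * n' = 1 := by
    have h : (((M * n' : ℕ)) : ZMod p) = ((1 : ℕ) : ZMod p) := by
      rw [ZMod.natCast_eq_natCast_iff]
      show _ % _ = _ % _
      rw [hn, Nat.mod_eq_of_lt hp.one_lt]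
    push_cast at h
    exact h
  have h3 : ((e : ZMod p)) = n' := by
    calc (e : ZMod p) = e * (M * n') := by rw [h2, mul_one]
      _ = (e * M) * n' := by ring
      _ = n' := by rw [h1, one_mul]
  have h4 : (((e : ℤ) - n' : ℤ) : ZMod p) = 0 := by
    push_cast
    rw [h3, sub_self]
  rw [ZMod.intCast_zmod_eq_zero_iff_dvd] at h4
  obtain ⟨w, hw⟩ := h4
  refine ⟨(w : ℤ_[p]), ?_⟩
  have h5 : (((e : ℤ) - n' : ℤ) : ℤ_[p]) = ((p * w : ℤ) : ℤ_[p]) := by rw [hw]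
  push_cast at h5
  linear_combination h5

end Curve

section One

variable [IsAlgClosed L]

private lemma geo_cop {a : ι → K} {S : Finset ι} {m : ι → ℕ}
    (hM : (∑ i ∈ S, m i).Coprime p) : (Stm.eqn L a S m).natDegree.Coprime p := by
  have h : (Stm.eqn L a S m).natDegree = ∑ i ∈ S, m i := by
    unfold Stm.eqn
    rw [natDegree_prod_of_monic _ _ fun i _ => (monic_X_sub_C _).pow _]
    refine Finset.sum_congr rfl fun i _ => ?_
    rw [(monic_X_sub_C _).natDegree_pow, natDegree_X_sub_C, mul_one]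
  rw [h]
  exact hM

/-- the automorphism over `g` commutes with `σ` -/
private lemma geo_comm {ζ : K} (hζ0 : ζ ≠ 0) {f : L[X]} (hf : f.natDegree.Coprime p)
    (C : Cyc L (Co L p f) p (algebraMap K L ζ)) (hCx : C.x = Co.x L p f)
    (hCy : C.y = Co.y L p f) {g : L ≃ₐ[K] L} {τ : Co L p f ≃+* Co L p f}
    (h1 : ∀ c, τ (algebraMap L _ c) = algebraMap L _ (g c)) (h2 : τ (Co.x L p f) = Co.x L p f)
    (h3 : τ (Co.y L p f) = Co.y L p f) (z : Co L p f) : τ (C.σ z) = C.σ (τ z) := by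
  have hζL : algebraMap K L ζ ≠ 0 := (_root_.map_ne_zero _).2 hζ0
  have hc : ∀ c, C.s.symm (algebraMap L _ c) = algebraMap L _ c := fun c =>
    C.s.symm_apply_eq.2 (C.σ.commutes c).symm
  have hx : C.s.symm (Co.x L p f) = Co.x L p f := by
    rw [C.s.symm_apply_eq, ← hCx]
    exact C.σx.symm
  have hy : C.s.symm (Co.y L p f) = algebraMap L _ (algebraMap K L ζ)⁻¹ * Co.y L p f := by
    rw [C.s.symm_apply_eq, map_mul, ← hCy]
    have h4 : C.s C.y = algebraMap L _ (algebraMap K L ζ) * C.y := C.σy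
    have h5 : C.s (algebraMap L _ (algebraMap K L ζ)⁻¹) = algebraMap L _ (algebraMap K L ζ)⁻¹ :=
      C.σ.commutes _
    rw [h4, h5, ← mul_assoc, ← map_mul, inv_mul_cancel₀ hζL, map_one, one_mul]
  have key : ((C.s.symm.trans τ).trans C.s) = τ := by
    refine auto_unique (g := (g : L ≃+* L)) hf ?_ ?_ ?_ h1 h2 h3
    · intro c
      show C.s (τ (C.s.symm (algebraMap L _ c))) = _
      rw [hc, h1]
      exact C.σ.commutes _
    · show C.s (τ (C.s.symm _)) = _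
      rw [hx, h2, ← hCx]
      exact C.σx
    · show C.s (τ (C.s.symm _)) = _
      rw [hy, map_mul, h3, h1, map_mul, ← hCy]
      have h4 : C.s C.y = algebraMap L _ (algebraMap K L ζ) * C.y := C.σy
      have h5 : g (algebraMap K L ζ)⁻¹ = (algebraMap K L ζ)⁻¹ := by
        rw [map_inv₀, g.commutes]
      have h6 : C.s (algebraMap L _ (algebraMap K L ζ)⁻¹) = algebraMap L _ (algebraMap K L ζ)⁻¹ :=
        C.σ.commutes _
      rw [h4, h5, h6, ← mul_assoc, ← map_mul, inv_mul_cancel₀ hζL, map_one, one_mul]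
  have h7 := RingEquiv.congr_fun key (C.s z)
  have h8 : ((C.s.symm.trans τ).trans C.s) (C.s z) = C.s (τ z) := by
    show C.s (τ (C.s.symm (C.s z))) = _
    rw [C.s.symm_apply_apply]
  rw [h8] at h7
  exact h7.symm

end One

section Main

variable [IsAlgClosed L]

private lemma geo_curve (hp : p ≠ 2) {ζ : K} (hζ : IsPrimitiveRoot ζ p) (a : ι → K)
    {S : Finset ι} {m : ι → ℕ} (ha : Set.InjOn a S) (hm : ∀ i ∈ S, (m i).Coprime p)
    (hM : (∑ i ∈ S, m i).Coprime p) {ξ : ℕ → L} (hξ : IsRoots p ξ)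
    (hξ1 : ξ 1 = algebraMap K L ζ) :
    ∃ (_ : Module.Finite ℤ_[p] (Tm L p a S m))
      (z : Module.End ℤ_[p] (Tm L p a S m))
      (e : Tm L p a S m →ₗ[ℤ_[p]] Tm L p a S m →ₗ[ℤ_[p]] ℤ_[p])
      (P : ι → Tm L p a S m)
      (ρ : (L ≃ₐ[K] L) →* Module.End ℤ_[p] (Tm L p a S m)),
      (∃ τ : Co L p (Stm.eqn L a S m) ≃+* Co L p (Stm.eqn L a S m),
        (∀ c, τ (algebraMap L _ c) = algebraMap L _ c) ∧ τ (Co.x L p _) = Co.x L p _ ∧
          τ (Co.y L p _) = algebraMap L _ (ξ 1) * Co.y L p _ ∧ z = TM.map (J.map τ)) ∧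
      (∀ g, ∃ τ : Co L p (Stm.eqn L a S m) ≃+* Co L p (Stm.eqn L a S m),
        (∀ c, τ (algebraMap L _ c) = algebraMap L _ (g c)) ∧ τ (Co.x L p _) = Co.x L p _ ∧
          τ (Co.y L p _) = Co.y L p _ ∧ ρ g = TM.map (J.map τ)) ∧
      (∀ (t u : Tm L p a S m) (n : ℕ), 1 ≤ n →
        Stm.IsWeil (Co.x L p (Stm.eqn L a S m)) (p ^ n)
          ((t : ℕ → J (Co L p (Stm.eqn L a S m))) n)
          ((u : ℕ → J (Co L p (Stm.eqn L a S m))) n)
          (ξ n ^ (PadicInt.toZModPow n (e t u)).val)) ∧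
      (∀ (n : ℕ) (c c' : J (Co L p (Stm.eqn L a S m))) (w w' : L), p ∣ n →
        Stm.IsWeil (Co.x L p _) n c c' w → Stm.IsWeil (Co.x L p _) n c c' w' → w = w') ∧
      (∀ x, ∑ i ∈ Finset.range p, (z ^ i) x = 0) ∧
      (∀ x y, e (z x) (z y) = e x y) ∧ (∀ x y, e x y = -e y x) ∧
      (∀ x, ∃ (c : ι → ℕ) (y : Tm L p a S m), x = ∑ i ∈ S, c i • P i + lam z y) ∧
      (∃ y, ∑ i ∈ S, m i • P i = lam z y) ∧
      (∀ i ∈ S, ∀ j ∈ S, ∀ m' n' : ℕ, (m i * m') % p = 1 → ((∑ l ∈ S, m l) * n') % p = 1 →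
        ∃ w, e ((lam z ^ (p - 2)) (P i)) (P j) =
          (if i = j then (m' : ℤ_[p]) else 0) - n' + p * w) ∧
      (∀ g x y, e (ρ g x) (ρ g y) = ((chi L p g : ℤ_[p]ˣ) : ℤ_[p]) * e x y) ∧
      (∀ g x, ρ g (z x) = z (ρ g x)) ∧
      (∀ g x, ∃ y, ρ g x = x + lam z y) ∧
      (∀ (i j : ι) (g : L ≃ₐ[K] L) (r : ι → ι → L), i ≠ j →
        (∀ u v, r u v ^ p = algebraMap K L (a u - a v)) →
        (∀ u ∈ S, ∀ v ∈ S, g (r u v) = if (u = i ∧ v = j) ∨ (u = j ∧ v = i) then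
          algebraMap K L ζ * r u v else r u v) →
        ∀ x, ∃ y, ρ g x = x + (if i ∈ S ∧ j ∈ S then
          lam z ((m i * m j) • nop p z e (P i - P j) x) else 0) + (lam z ^ 2) y) := by
  have hζL : IsPrimitiveRoot (algebraMap K L ζ) p := hζ.map_of_injective (algebraMap K L).injective
  have hf := geo_cop (L := L) (a := a) hM
  obtain ⟨hD, C, hCx, hCy, Pt, hF, hinj, hPt⟩ := exists_cyc hζL a ha hm hM
  obtain ⟨e, he, hskew⟩ := exists_pairing C.I hξ
  obtain ⟨PP, hP, hgen, hrel⟩ := C.exists_P hp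
  obtain ⟨ρ, hρ⟩ := exists_rho hζL a hM
  have hmem : ∀ i ∈ S, Pt i ∈ C.F := fun i hi => by
    rw [hF]
    exact Finset.mem_image_of_mem _ hi
  have hyM := geo_ord_y C hF hinj fun i hi => (hPt i hi).1
  have hxc := fun g : L ≃ₐ[K] L => geo_xc C hF (fun i hi => (hPt i hi).2) g
  have hox : C.I.ord (Co.x L p (Stm.eqn L a S m)) = p := by rw [← hCx]; exact C.ord_x
  have hlx : C.I.lc (Co.x L p (Stm.eqn L a S m)) = 1 := by rw [← hCx]; exact C.lc_x
  have hcomm : ∀ (g : L ≃ₐ[K] L) (τ : Co L p (Stm.eqn L a S m) ≃+* Co L p (Stm.eqn L a S m)),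
      (∀ c, τ (algebraMap L _ c) = algebraMap L _ (g c)) → τ (Co.x L p _) = Co.x L p _ →
        τ (Co.y L p _) = Co.y L p _ → ∀ w, τ (C.σ w) = C.σ (τ w) := fun g τ h1 h2 h3 w =>
    geo_comm (hζ.ne_zero (Fact.out : p.Prime).ne_zero) hf C hCx hCy h1 h2 h3 w
  refine ⟨C.finite_T hp, C.z, e, fun i => PP (Pt i), ρ, ?_, hρ, ?_, ?_, fun x => C.zeta_T x,
    fun x y => C.form_inv hξ he x y, hskew, ?_, ?_, ?_, ?_, ?_, ?_, ?_⟩
  · refine ⟨C.s, fun c => C.σ.commutes c, ?_, ?_, rfl⟩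
    · rw [← hCx]
      exact C.σx
    · rw [← hCy, hξ1]
      exact C.σy
  · intro t u n hn
    rw [geo_weil C.I hox hlx (dvd_pow_self p (by omega)), ← he t u n hn]
    exact isWeil_weil C.I (TM.pow_smul t n) (TM.pow_smul u n)
  · intro n c c' w w' hn h1 h2
    rw [geo_weil C.I hox hlx hn] at h1 h2
    exact isWeil_unique C.I h1 h2
  · intro x
    obtain ⟨c, u, h⟩ := hgen x
    refine ⟨fun i => c (Pt i), u, ?_⟩
    rw [h, geo_sum C hF hinj]
  · obtain ⟨u, h⟩ := hrel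
    refine ⟨u, ?_⟩
    rw [← h, geo_sum C hF hinj]
    exact Finset.sum_congr rfl fun i hi => by rw [(hPt i hi).1]
  · intro i hi j hj m' n' h1 h2
    have h3 : (C.m (Pt i) * m') % p = 1 := by rw [(hPt i hi).1]; exact h1
    obtain ⟨w, hw⟩ := C.form_P hp hξ hξ1 he hP (hmem i hi) (hmem j hj) h3
    have h4 := C.he
    rw [hyM] at h4
    obtain ⟨w', hw'⟩ := geo_inv h4 h2
    refine ⟨w - w', ?_⟩
    rw [hw, hw']
    have h5 : (Pt i = Pt j) = (i = j) := propext ⟨fun h => hinj hi hj h, fun h => by rw [h]⟩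
    simp only [h5]
    ring
  · intro g x y
    obtain ⟨τ, h1, h2, h3, h4⟩ := hρ g
    rw [h4]
    refine form_act C.I hξ he τ (g : L ≃+* L) h1 (fun w _ => ?_) (fun n _ => geo_spec hξ g n) x y
    exact geo_lc C hM hyM (g := (g : L ≃+* L)) h1 (by rw [hCx]; exact h2) (by rw [hCy]; exact h3) w
  · intro g x
    obtain ⟨τ, h1, h2, h3, h4⟩ := hρ g
    rw [h4]
    refine Subtype.ext (funext fun n => ?_)
    show J.map τ (J.map C.s _) = J.map C.s (J.map τ _)
    rw [← J.map_trans, ← J.map_trans]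
    congr 2
    exact RingEquiv.ext fun w => hcomm g τ h1 h2 h3 w
  · intro g x
    obtain ⟨τ, h1, h2, h3, h4⟩ := hρ g
    rw [h4]
    exact C.T_mod hp τ (g : L ≃+* L) h1 (by rw [hCx]; exact h2) (hcomm g τ h1 h2 h3) (hxc g) x
  · intro i j g r hij hr hgr x
    obtain ⟨τ, h1, h2, h3, h4⟩ := hρ g
    rw [h4]
    have : Nonempty ι := ⟨i⟩
    set I := Function.invFunOn Pt S with hI
    have hIl : ∀ u ∈ S, I (Pt u) = u := fun u hu => hinj.leftInvOn_invFunOn hu
    have hr' : ∀ P ∈ C.F, ∀ Q ∈ C.F, r (I P) (I Q) ^ p = C.xc P - C.xc Q := by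
      intro P hP' Q hQ'
      rw [hF, Finset.mem_image] at hP' hQ'
      obtain ⟨u, hu, rfl⟩ := hP'
      obtain ⟨v, hv, rfl⟩ := hQ'
      rw [hIl u hu, hIl v hv, hr, (hPt u hu).2, (hPt v hv).2, map_sub]
    by_cases hc : i ∈ S ∧ j ∈ S
    · rw [if_pos hc]
      have h5 := C.T_edge hp hξ hξ1 he hP hgen τ (g : L ≃+* L) h1 (by rw [hCx]; exact h2)
        (by rw [hCy]; exact h3) (hcomm g τ h1 h2 h3) (hxc g) (fun P Q => r (I P) (I Q)) hr'
        (hmem i hc.1) (hmem j hc.2) (fun h => hij (hinj hc.1 hc.2 h)) ?_ x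
      · obtain ⟨u, hu⟩ := h5
        refine ⟨u, ?_⟩
        rw [(hPt i hc.1).1, (hPt j hc.2).1] at hu
        exact hu
      · intro P hP' Q hQ'
        rw [hF, Finset.mem_image] at hP' hQ'
        obtain ⟨u, hu, rfl⟩ := hP'
        obtain ⟨v, hv, rfl⟩ := hQ'
        have h6 : ∀ u ∈ S, ∀ l ∈ S, (Pt u = Pt l) = (u = l) := fun u hu l hl =>
          propext ⟨fun h => hinj hu hl h, fun h => by rw [h]⟩
        rw [h6 u hu i hc.1, h6 v hv j hc.2, h6 u hu j hc.2, h6 v hv i hc.1, hIl u hu, hIl v hv]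
        exact hgr u hu v hv
    · rw [if_neg hc]
      obtain ⟨u, hu⟩ := C.T_triv hp τ (g : L ≃+* L) h1 (by rw [hCx]; exact h2)
        (by rw [hCy]; exact h3) (hcomm g τ h1 h2 h3) (hxc g) (fun P Q => r (I P) (I Q)) hr' (by
          intro P hP' Q hQ'
          rw [hF, Finset.mem_image] at hP' hQ'
          obtain ⟨u, hu, rfl⟩ := hP'
          obtain ⟨v, hv, rfl⟩ := hQ'
          rw [hIl u hu, hIl v hv]
          have h7 := hgr u hu v hv
          rw [if_neg (by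
            rintro (⟨rfl, rfl⟩ | ⟨rfl, rfl⟩)
            · exact hc ⟨hu, hv⟩
            · exact hc ⟨hv, hu⟩)] at h7
          exact h7) x
      refine ⟨u, ?_⟩
      rw [hu, add_zero]

end Main

/-- all the data of the abstract theorem -/
theorem repP [Fintype ι] [Algebra.IsAlgebraic K L] [IsAlgClosed L] (hp : p ≠ 2) {ζ : K}
    (hζ : IsPrimitiveRoot ζ p) (a : ι → K) {S : σ → Finset ι} {m : σ → ι → ℕ}
    (ha : ∀ s, Set.InjOn a (S s)) (htwo : ∀ s, 2 ≤ (S s).card)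
    (hm : ∀ s, ∀ i ∈ S s, (m s i).Coprime p) (hM : ∀ s, (∑ i ∈ S s, m s i).Coprime p)
    (hnz : ∀ s, 4 ≤ (S s).card → ∃ i ∈ S s, ∃ j ∈ S s, Free p ζ a S i j ∧
      (m s i + m s j).Coprime p)
    (hsep : ∀ s t, s ≠ t → S s = S t → 3 ≤ (S s).card → ∃ i ∈ S s, ∃ j ∈ S s, ∃ k ∈ S s,
      ∃ l ∈ S s, Free p ζ a S i j ∧ Free p ζ a S k l ∧
        ¬ ((m s i + m s j) * (m t k + m t l)) ^ 2 ≡
          ((m t i + m t j) * (m s k + m s l)) ^ 2 [MOD p])
    (hconn : ∀ s, ∀ i ∈ S s, ∀ j ∈ S s,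
      Relation.ReflTransGen (fun u v => u ∈ S s ∧ v ∈ S s ∧ Free p ζ a S u v) i j)
    {ξ : ℕ → L} (hξ : IsRoots p ξ) (hξ1 : ξ 1 = algebraMap K L ζ) :
    ∃ (_ : ∀ s, Module.Finite ℤ_[p] (Tm L p a (S s) (m s)))
      (z : ∀ s, Module.End ℤ_[p] (Tm L p a (S s) (m s)))
      (e : ∀ s, Tm L p a (S s) (m s) →ₗ[ℤ_[p]] Tm L p a (S s) (m s) →ₗ[ℤ_[p]] ℤ_[p])
      (P : ∀ s, ι → Tm L p a (S s) (m s))
      (ρ : ∀ s, (L ≃ₐ[K] L) →* Module.End ℤ_[p] (Tm L p a (S s) (m s))),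
      (∀ s, ∃ τ : Co L p (Stm.eqn L a (S s) (m s)) ≃+* Co L p (Stm.eqn L a (S s) (m s)),
        (∀ c, τ (algebraMap L _ c) = algebraMap L _ c) ∧ τ (Co.x L p _) = Co.x L p _ ∧
          τ (Co.y L p _) = algebraMap L _ (ξ 1) * Co.y L p _ ∧ z s = TM.map (J.map τ)) ∧
      (∀ s g, ∃ τ : Co L p (Stm.eqn L a (S s) (m s)) ≃+* Co L p (Stm.eqn L a (S s) (m s)),
        (∀ c, τ (algebraMap L _ c) = algebraMap L _ (g c)) ∧ τ (Co.x L p _) = Co.x L p _ ∧
          τ (Co.y L p _) = Co.y L p _ ∧ ρ s g = TM.map (J.map τ)) ∧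
      (∀ s (t u : Tm L p a (S s) (m s)) (n : ℕ), 1 ≤ n →
        Stm.IsWeil (Co.x L p (Stm.eqn L a (S s) (m s))) (p ^ n)
          ((t : ℕ → J (Co L p (Stm.eqn L a (S s) (m s)))) n)
          ((u : ℕ → J (Co L p (Stm.eqn L a (S s) (m s)))) n)
          (ξ n ^ (PadicInt.toZModPow n (e s t u)).val)) ∧
      (∀ s (n : ℕ) (c c' : J (Co L p (Stm.eqn L a (S s) (m s)))) (w w' : L), p ∣ n →
        Stm.IsWeil (Co.x L p _) n c c' w → Stm.IsWeil (Co.x L p _) n c c' w' → w = w') ∧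
      RepP S m z e P (Free p ζ a S) ρ (chi L p) := by
  have h := fun s => geo_curve hp hζ a (ha s) (hm s) (hM s) hξ hξ1
  choose hfin z e P ρ h1 h2 h3 h4 h5 h6 h7 h8 h9 h10 h11 h12 h13 h14 using h
  refine ⟨hfin, z, e, P, ρ, h1, h2, h3, h4, ?_⟩
  exact
    { two := htwo
      cop := hm
      copM := hM
      nz := hnz
      sep := hsep
      zeta := h5
      inv := h6
      skew := h7
      gen := h8
      rel := h9
      pair := h10
      symm := fun i j h => h.symm ((Fact.out : p.Prime).odd_of_ne_two hp)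
      conn := hconn
      sim := fun g s x y => h11 s g x y
      comm := fun g s x => h12 s g x
      mod1 := fun g s x => h13 s g x
      chi1 := by
        intro g
        obtain ⟨w, hw⟩ := geo_chi hξ (g := g) le_rfl (by rw [hξ1]; exact g.commutes ζ)
        exact ⟨w, by rw [hw, pow_one]⟩
      edge := by
        intro i j hij
        have hp0 := (Fact.out : p.Prime).pos
        have hne : i ≠ j := by
          rintro rfl
          apply hij ∅ (fun _ => 0) 0 0 (by simp)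
          rw [sub_self, zero_pow hp0.ne']
          simp
        refine ⟨hne, ?_⟩
        have hroot : ∀ x : L, ∃ r : L, r ^ p = x := fun x =>
          IsAlgClosed.exists_pow_nat_eq x hp0
        choose r hr using hroot
        have hw : ξ 2 ^ p = algebraMap K L ζ := by rw [← hξ1]; exact hξ.pow 1
        obtain ⟨g, hg1, hg2⟩ := exists_galois (L := L) hp hζ a S
          (fun u v => r (algebraMap K L (a u - a v))) (fun u v => hr _) hw hij
        refine ⟨g, geo_chi hξ (by norm_num) hg1, ?_⟩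
        intro s x
        exact h14 s i j g (fun u v => r (algebraMap K L (a u - a v))) hne (fun u v => hr _)
          (fun u hu v hv => hg2 u v ⟨s, hu, hv⟩) x }

end Pool.Agent.PTate
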