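import Pool.Agent.PTate.Model

/-!
# Automorphisms of the coverings `y ^ p = f(x)`
-/

set_option autoImplicit false
set_option linter.unusedSectionVars false

noncomputable section

namespace Pool.Agent.PTate

open Polynomial
open scoped Classical

variable {k : Type} [Field k] {p : ℕ} [Fact p.Prime] {f : k[X]}

/-- the automorphism of `k(x)` -/
private def ModelAut_G (g : k ≃+* k) : RatFunc k ≃+* RatFunc k :=
  IsFractionRing.ringEquivOfRingEquiv (Polynomial.mapEquiv g)

private theorem ModelAut_G_alg (g : k ≃+* k) (q : k[X]) :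
    ModelAut_G g (algebraMap k[X] (RatFunc k) q) =
      algebraMap k[X] (RatFunc k) (q.map (g : k →+* k)) := by
  unfold ModelAut_G
  rw [IsFractionRing.ringEquivOfRingEquiv_algebraMap]
  rfl


private theorem ModelAut_P (g : k ≃+* k) (hg : f.map (g : k →+* k) = f) :
    (X ^ p - C (algebraMap k[X] (RatFunc k) f) : (RatFunc k)[X]).map
      (ModelAut_G g : RatFunc k →+* RatFunc k) =
    (X ^ p - C (algebraMap k[X] (RatFunc k) f) : (RatFunc k)[X]) := by
  rw [Polynomial.map_sub, Polynomial.map_pow, Polynomial.map_X, Polynomial.map_C]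
  congr 2
  have h := ModelAut_G_alg g f
  rw [hg] at h
  exact h

/-- the automorphism of the algebra -/
private def ModelAut_E (g : k ≃+* k) (hg : f.map (g : k →+* k) = f) : Fn k p f ≃+* Fn k p f :=
  AdjoinRoot.mapRingEquiv (ModelAut_G g) _ _ (by rw [ModelAut_P g hg])

private theorem ModelAut_E_alg (g : k ≃+* k) (hg : f.map (g : k →+* k) = f) (q : k[X]) :
    ModelAut_E (p := p) g hg (algebraMap k[X] (Fn k p f) q) =
      algebraMap k[X] (Fn k p f) (q.map (g : k →+* k)) := by
  rw [IsScalarTower.algebraMap_apply k[X] (RatFunc k) (Fn k p f),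
    IsScalarTower.algebraMap_apply k[X] (RatFunc k) (Fn k p f), ← ModelAut_G_alg]
  unfold ModelAut_E
  rw [AdjoinRoot.coe_mapRingEquiv, AdjoinRoot.algebraMap_eq, AdjoinRoot.map_of]
  rfl

private theorem ModelAut_E_root (g : k ≃+* k) (hg : f.map (g : k →+* k) = f) :
    ModelAut_E (p := p) g hg (AdjoinRoot.root _) = AdjoinRoot.root _ := by
  unfold ModelAut_E
  rw [AdjoinRoot.coe_mapRingEquiv, AdjoinRoot.map_root]

private theorem ModelAut_int (g : k ≃+* k) (hg : f.map (g : k →+* k) = f) {z : Fn k p f}
    (hz : IsIntegral k[X] z) : IsIntegral k[X] (ModelAut_E (p := p) g hg z) := by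
  refine IsIntegral.map_of_comp_eq (mapRingHom (g : k →+* k))
    (ModelAut_E (p := p) g hg : Fn k p f →+* Fn k p f) ?_ hz
  refine RingHom.ext fun q => ?_
  exact (ModelAut_E_alg g hg q).symm

private theorem ModelAut_int' (g : k ≃+* k) (hg : f.map (g : k →+* k) = f) {z : Fn k p f}
    (hz : IsIntegral k[X] z) : IsIntegral k[X] ((ModelAut_E (p := p) g hg).symm z) := by
  refine IsIntegral.map_of_comp_eq (mapRingHom (g.symm : k →+* k))
    ((ModelAut_E (p := p) g hg).symm : Fn k p f →+* Fn k p f) ?_ hz
  refine RingHom.ext fun q => ?_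
  show algebraMap k[X] (Fn k p f) (q.map (g.symm : k →+* k)) =
    (ModelAut_E (p := p) g hg).symm (algebraMap k[X] (Fn k p f) q)
  rw [RingEquiv.eq_symm_apply, ModelAut_E_alg, Polynomial.map_map]
  congr 1
  convert Polynomial.map_id
  ext c
  simp

/-- an automorphism of `k` which fixes the coefficients of `f` extends -/
theorem exists_auto (g : k ≃+* k) (hg : f.map (g : k →+* k) = f) :
    ∃ e : Co k p f ≃+* Co k p f, (∀ c, e (algebraMap k _ c) = algebraMap k _ (g c)) ∧
      e (Co.x k p f) = Co.x k p f ∧ e (Co.y k p f) = Co.y k p f := by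
  refine ⟨{
    toFun := fun z => ⟨ModelAut_E (p := p) g hg z, ModelAut_int g hg z.2⟩
    invFun := fun z => ⟨(ModelAut_E (p := p) g hg).symm z, ModelAut_int' g hg z.2⟩
    left_inv := fun z => Subtype.ext ((ModelAut_E (p := p) g hg).symm_apply_apply _)
    right_inv := fun z => Subtype.ext ((ModelAut_E (p := p) g hg).apply_symm_apply _)
    map_mul' := fun a b => Subtype.ext (map_mul (ModelAut_E (p := p) g hg) _ _)
    map_add' := fun a b => Subtype.ext (map_add (ModelAut_E (p := p) g hg) _ _) }, ?_, ?_, ?_⟩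
  · intro c
    refine Subtype.ext ?_
    show ModelAut_E (p := p) g hg (algebraMap k (Fn k p f) c) = algebraMap k (Fn k p f) (g c)
    rw [IsScalarTower.algebraMap_apply k k[X] (Fn k p f),
      IsScalarTower.algebraMap_apply k k[X] (Fn k p f), ModelAut_E_alg]
    congr 1
    show (C c).map (g : k →+* k) = C (g c)
    rw [Polynomial.map_C]
    rfl
  · refine Subtype.ext ?_
    show ModelAut_E (p := p) g hg (algebraMap k[X] (Fn k p f) X) = algebraMap k[X] (Fn k p f) X
    rw [ModelAut_E_alg, Polynomial.map_X]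
  · exact Subtype.ext (ModelAut_E_root g hg)

/-- the extension is unique -/
theorem auto_unique (hf : f.natDegree.Coprime p) {g : k ≃+* k} {e e' : Co k p f ≃+* Co k p f}
    (h : ∀ c, e (algebraMap k _ c) = algebraMap k _ (g c)) (hx : e (Co.x k p f) = Co.x k p f)
    (hy : e (Co.y k p f) = Co.y k p f) (h' : ∀ c, e' (algebraMap k _ c) = algebraMap k _ (g c))
    (hx' : e' (Co.x k p f) = Co.x k p f) (hy' : e' (Co.y k p f) = Co.y k p f) : e = e' := by
  have : Fact (Irreducible (X ^ p - C (algebraMap k[X] (RatFunc k) f) : (RatFunc k)[X])) :=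
    ⟨irreducible_f hf⟩
  -- the two automorphisms agree on `k[x]`
  have hpoly : (e : Co k p f →+* Co k p f).comp (algebraMap k[X] (Co k p f)) =
      (e' : Co k p f →+* Co k p f).comp (algebraMap k[X] (Co k p f)) := by
    refine Polynomial.ringHom_ext ?_ ?_
    · intro c
      have h1 : algebraMap k[X] (Co k p f) (C c) = algebraMap k (Co k p f) c :=
        (IsScalarTower.algebraMap_apply k k[X] (Co k p f) c).symm
      show e (algebraMap k[X] (Co k p f) (C c)) = e' (algebraMap k[X] (Co k p f) (C c))
      rw [h1, h, h']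
    · show e (Co.x k p f) = e' (Co.x k p f)
      rw [hx, hx']
  -- and on `k[x][y]`
  have hpoly2 : ((e : Co k p f →+* Co k p f)).comp
      (eval₂RingHom (algebraMap k[X] (Co k p f)) (Co.y k p f)) =
      ((e' : Co k p f →+* Co k p f)).comp
      (eval₂RingHom (algebraMap k[X] (Co k p f)) (Co.y k p f)) := by
    refine Polynomial.ringHom_ext' ?_ ?_
    · rw [RingHom.comp_assoc, RingHom.comp_assoc]
      have h2 : (eval₂RingHom (algebraMap k[X] (Co k p f)) (Co.y k p f)).comp C =
          algebraMap k[X] (Co k p f) := by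
        ext q
        · simp
        · simp
      rw [h2]
      exact hpoly
    · simp [hy, hy']
  refine RingEquiv.ext fun z => ?_
  -- a common denominator
  obtain ⟨P, hP⟩ := AdjoinRoot.mk_surjective (z : Fn k p f)
  obtain ⟨b, hb0, hb⟩ := IsLocalization.integerNormalization_spec (nonZeroDivisors k[X]) P
  set Q := IsLocalization.integerNormalization (nonZeroDivisors k[X]) P with hQ
  have hz : algebraMap k[X] (Co k p f) b * z =
      eval₂RingHom (algebraMap k[X] (Co k p f)) (Co.y k p f) Q := by
    refine Subtype.ext ?_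
    have e1 : ((eval₂RingHom (algebraMap k[X] (Co k p f)) (Co.y k p f) Q : Co k p f) : Fn k p f) =
        AdjoinRoot.mk _ (Q.map (algebraMap k[X] (RatFunc k))) := by
      rw [← AdjoinRoot.aeval_eq, aeval_def, eval₂_map]
      show (integralClosure k[X] (Fn k p f)).val.toRingHom (eval₂ _ _ Q) = _
      rw [Polynomial.hom_eval₂]
      rfl
    rw [e1, hb, Algebra.smul_def]
    show algebraMap k[X] (Fn k p f) b * (z : Fn k p f) = _
    rw [map_mul, hP, IsScalarTower.algebraMap_apply k[X] (RatFunc k) (Fn k p f),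
      AdjoinRoot.algebraMap_eq]
    rfl
  have h1 := congrArg (fun φ : k[X][X] →+* Co k p f => φ Q) hpoly2
  have h2 : e (algebraMap k[X] (Co k p f) b) * e z = e' (algebraMap k[X] (Co k p f) b) * e' z := by
    rw [← map_mul, ← map_mul, hz]
    exact h1
  have h3 : e' (algebraMap k[X] (Co k p f) b) = e (algebraMap k[X] (Co k p f) b) :=
    (congrArg (fun φ : k[X] →+* Co k p f => φ b) hpoly).symm
  rw [h3] at h2
  refine mul_left_cancel₀ ?_ h2
  intro h0
  have h4 : algebraMap k[X] (Co k p f) b = 0 := by
    apply e.injective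
    rw [h0, map_zero]
  have h5 : algebraMap k[X] (Fn k p f) b = 0 := congrArg Subtype.val h4
  rw [IsScalarTower.algebraMap_apply k[X] (RatFunc k) (Fn k p f)] at h5
  have h6 : algebraMap k[X] (RatFunc k) b = 0 := by
    exact (map_eq_zero_iff _ (algebraMap (RatFunc k) (Fn k p f)).injective).1 h5
  exact nonZeroDivisors.ne_zero hb0 ((map_eq_zero_iff _ (RatFunc.algebraMap_injective k)).1 h6)

end Pool.Agent.PTate
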