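import Pool.Agent.PTate.Model

/-!
# The pole order of the functions on the coverings `y ^ p = f(x)`

The functions are embedded into the field of the Laurent series in `t`: `x = t ^ (-p)`,
`y = t ^ (-M) g(t)`, where `M` is the degree of `f` and `g ^ p` is the power series
`t ^ (p M) f(t ^ (-p))`.
-/

set_option autoImplicit false

noncomputable section

namespace Pool.Agent.PTate

open Polynomial
open scoped Classical

private theorem modelInf_complete (k : Type) [Field k] :
    IsAdicComplete (Ideal.span {(PowerSeries.X : PowerSeries k)}) (PowerSeries k) where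
  haus' := by
    intro x hx
    ext n
    have h := hx (n + 1)
    rw [SModEq.zero, smul_eq_mul, Ideal.mul_top, Ideal.span_singleton_pow,
      Ideal.mem_span_singleton, PowerSeries.X_pow_dvd_iff] at h
    simpa using h n (Nat.lt_succ_self n)
  prec' := by
    intro f hf
    refine ⟨PowerSeries.mk fun n => PowerSeries.coeff n (f (n + 1)), fun n => ?_⟩
    rw [SModEq.sub_mem, smul_eq_mul, Ideal.mul_top, Ideal.span_singleton_pow,
      Ideal.mem_span_singleton, PowerSeries.X_pow_dvd_iff]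
    intro m hm
    have h := hf (m := m + 1) (n := n) hm
    rw [SModEq.sub_mem, smul_eq_mul, Ideal.mul_top, Ideal.span_singleton_pow,
      Ideal.mem_span_singleton, PowerSeries.X_pow_dvd_iff] at h
    have h1 := h m (Nat.lt_succ_self m)
    rw [map_sub] at h1
    rw [map_sub, PowerSeries.coeff_mk]
    linear_combination -h1

/-- roots of power series -/
private theorem modelInf_root {k : Type} [Field k] {p : ℕ} (hp0 : p ≠ 0) (hp : (p : k) ≠ 0)
    (h : PowerSeries k) (h1 : PowerSeries.constantCoeff h = 1) :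
    ∃ g : PowerSeries k, g ^ p = h ∧ PowerSeries.constantCoeff g = 1 := by
  have := modelInf_complete k
  set I : Ideal (PowerSeries k) := Ideal.span {PowerSeries.X} with hI
  have hmem : ∀ z : PowerSeries k, z ∈ I ↔ PowerSeries.constantCoeff z = 0 := by
    intro z
    rw [hI, Ideal.mem_span_singleton, PowerSeries.X_dvd_iff]
  obtain ⟨a, ha, hb⟩ := HenselianRing.is_henselian (I := I)
    (X ^ p - C h : (PowerSeries k)[X]) (monic_X_pow_sub_C h hp0) 1 (by
      rw [hmem]
      simp [h1]) (by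
      have e : eval 1 (derivative (X ^ p - C h : (PowerSeries k)[X])) =
          algebraMap k (PowerSeries k) p := by
        simp [derivative_X_pow]
      rw [e]
      exact ((isUnit_iff_ne_zero.2 hp).map (algebraMap k (PowerSeries k))).map _)
  refine ⟨a, ?_, ?_⟩
  · rw [IsRoot.def, eval_sub, eval_pow, eval_X, eval_C, sub_eq_zero] at ha
    exact ha
  · rw [hmem, map_sub, map_one, sub_eq_zero] at hb
    exact hb

private theorem modelInf_ld {k : Type} [Field k] {z : HahnSeries ℤ k} {n : ℤ} {c : k}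
    (hc : c ≠ 0) (h1 : z.coeff n = c) (h2 : ∀ m < n, z.coeff m = 0) :
    z ≠ 0 ∧ z.order = n ∧ z.leadingCoeff = c := by
  have hz : z ≠ 0 := by
    rintro rfl
    exact hc (by rw [← h1]; rfl)
  have ho : z.order = n := by
    apply le_antisymm
    · exact HahnSeries.order_le_of_coeff_ne_zero (by rw [h1]; exact hc)
    · rw [HahnSeries.le_order_iff_forall hz]
      exact h2
  exact ⟨hz, ho, by rw [HahnSeries.leadingCoeff_eq, ho, h1]⟩

private theorem modelInf_sum {k : Type} [Field k] {ι : Type*} (A : Finset ι)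
    (u : ι → HahnSeries ℤ k) (i₀ : ι) (hi : i₀ ∈ A) (hu : u i₀ ≠ 0)
    (hlt : ∀ i ∈ A, i ≠ i₀ → u i ≠ 0 → (u i₀).order < (u i).order) :
    ∑ i ∈ A, u i ≠ 0 ∧ (∑ i ∈ A, u i).order = (u i₀).order ∧
      (∑ i ∈ A, u i).leadingCoeff = (u i₀).leadingCoeff := by
  refine modelInf_ld (HahnSeries.leadingCoeff_ne_zero.2 hu) ?_ ?_
  · rw [HahnSeries.coeff_sum, Finset.sum_eq_single_of_mem i₀ hi, HahnSeries.leadingCoeff_eq]
    intro i hiA hne
    by_cases h0 : u i = 0
    · rw [h0]
      rfl
    · exact HahnSeries.coeff_eq_zero_of_lt_order (hlt i hiA hne h0)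
  · intro m hm
    rw [HahnSeries.coeff_sum]
    refine Finset.sum_eq_zero fun i hiA => ?_
    by_cases h0 : u i = 0
    · rw [h0]
      rfl
    · by_cases hne : i = i₀
      · rw [hne]
        exact HahnSeries.coeff_eq_zero_of_lt_order hm
      · exact HahnSeries.coeff_eq_zero_of_lt_order (hm.trans (hlt i hiA hne h0))

/-- the variable `t ^ (-p)` -/
private def mit (k : Type) [Field k] (p : ℕ) : HahnSeries ℤ k := HahnSeries.single (-(p : ℤ)) 1

private theorem modelInf_tpow (k : Type) [Field k] (p i : ℕ) :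
    mit k p ^ i = HahnSeries.single (-((p : ℤ) * i)) (1 : k) := by
  unfold mit
  rw [HahnSeries.single_pow, one_pow, nsmul_eq_mul, mul_neg, mul_comm (p : ℤ)]

/-- the homomorphism from the polynomials -/
private def mipsi (k : Type) [Field k] (p : ℕ) : k[X] →+* HahnSeries ℤ k :=
  eval₂RingHom HahnSeries.C (mit k p)

/-- the polynomials in `t ^ (-p)` -/
private theorem modelInf_poly {k : Type} [Field k] {p : ℕ} (hp : 0 < p) {q : k[X]} (hq : q ≠ 0) :
    mipsi k p q ≠ 0 ∧ (mipsi k p q).order = -((p : ℤ) * q.natDegree) ∧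
    (mipsi k p q).leadingCoeff = q.leadingCoeff := by
  have e : mipsi k p q =
      ∑ i ∈ q.support, HahnSeries.single (-((p : ℤ) * i)) (q.coeff i) := by
    show eval₂ HahnSeries.C (mit k p) q = _
    rw [eval₂_eq_sum, sum_def]
    refine Finset.sum_congr rfl fun i _ => ?_
    rw [modelInf_tpow, HahnSeries.C_apply, HahnSeries.single_mul_single, zero_add, mul_one]
  rw [e]
  have hq0 : q.coeff q.natDegree ≠ 0 := by rwa [coeff_natDegree, leadingCoeff_ne_zero]
  have h := modelInf_sum q.support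
    (fun i => (HahnSeries.single (-((p : ℤ) * i)) (q.coeff i) : HahnSeries ℤ k)) q.natDegree
    (natDegree_mem_support_of_nonzero hq) (HahnSeries.single_ne_zero hq0) ?_
  · obtain ⟨h1, h2, h3⟩ := h
    refine ⟨h1, ?_, ?_⟩
    · rw [h2, HahnSeries.order_single hq0]
    · rw [h3, HahnSeries.leadingCoeff_of_single, coeff_natDegree]
  · intro i hi hne _
    rw [HahnSeries.order_single hq0, HahnSeries.order_single (mem_support_iff.1 hi)]
    have h1 : i < q.natDegree := lt_of_le_of_ne (le_natDegree_of_mem_supp i hi) hne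
    have h2 : (0 : ℤ) < p := by exact_mod_cast hp
    have h3 : (i : ℤ) < q.natDegree := by exact_mod_cast h1
    nlinarith

/-- the root of `f` -/
private theorem modelInf_y {k : Type} [Field k] {p : ℕ} (hp0 : p ≠ 0) (hp : (p : k) ≠ 0)
    {f : k[X]} (hm : f.Monic) : ∃ Y : HahnSeries ℤ k, Y ^ p = mipsi k p f ∧ Y ≠ 0 ∧
      Y.order = -(f.natDegree : ℤ) ∧ Y.leadingCoeff = 1 := by
  set h : PowerSeries k := eval₂ (PowerSeries.C) (PowerSeries.X ^ p) f.reverse with hh
  have h1 : PowerSeries.constantCoeff h = 1 := by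
    rw [hh, hom_eval₂, map_pow, PowerSeries.constantCoeff_X, zero_pow hp0]
    have e : (PowerSeries.constantCoeff : PowerSeries k →+* k).comp PowerSeries.C =
        RingHom.id k := by
      ext
      simp
    rw [e, eval₂_id, ← coeff_zero_eq_eval_zero, coeff_zero_reverse, hm.leadingCoeff]
  obtain ⟨g, hg, hg1⟩ := modelInf_root hp0 hp h h1
  set G : HahnSeries ℤ k := HahnSeries.ofPowerSeries ℤ k g with hG
  have hGl : G ≠ 0 ∧ G.order = 0 ∧ G.leadingCoeff = 1 := by
    refine modelInf_ld one_ne_zero ?_ ?_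
    · have h2 := HahnSeries.ofPowerSeries_apply_coeff (Γ := ℤ) (R := k) g 0
      rw [Nat.cast_zero] at h2
      rw [hG, h2, PowerSeries.coeff_zero_eq_constantCoeff_apply, hg1]
    · intro m hm
      rw [hG, HahnSeries.ofPowerSeries_apply]
      refine HahnSeries.embDomain_of_notMem_range ?_
      rintro ⟨i, hi⟩
      have h3 : (i : ℤ) = m := hi
      omega
  have hM : (HahnSeries.single (-(f.natDegree : ℤ)) (1 : k) : HahnSeries ℤ k) ≠ 0 :=
    HahnSeries.single_ne_zero one_ne_zero
  refine ⟨HahnSeries.single (-(f.natDegree : ℤ)) 1 * G, ?_, mul_ne_zero hM hGl.1, ?_, ?_⟩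
  · rw [mul_pow, hG, ← map_pow (HahnSeries.ofPowerSeries ℤ k), hg, HahnSeries.single_pow,
      one_pow]
    have hmul : (HahnSeries.single (p : ℤ) (1 : k) : HahnSeries ℤ k) * mit k p = 1 := by
      unfold mit
      rw [HahnSeries.single_mul_single, add_neg_cancel, one_mul]
      rfl
    let _ : Invertible (mit k p) := ⟨HahnSeries.single (p : ℤ) 1, hmul, by rw [mul_comm, hmul]⟩
    have h2 := eval₂_reverse_mul_pow (HahnSeries.C : k →+* HahnSeries ℤ k) (mit k p) f
    have h3 : (⅟(mit k p)) = HahnSeries.single (p : ℤ) 1 := rfl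
    rw [h3] at h2
    show _ = eval₂ HahnSeries.C (mit k p) f
    rw [← h2, mul_comm]
    congr 1
    · rw [hh, hom_eval₂]
      congr 1
      · ext x : 1
        simp
      · rw [map_pow, HahnSeries.ofPowerSeries_X, HahnSeries.single_pow, one_pow, nsmul_eq_mul,
          mul_one]
    · rw [modelInf_tpow, nsmul_eq_mul, mul_neg]
  · rw [HahnSeries.order_mul hM hGl.1, HahnSeries.order_single one_ne_zero, hGl.2.1, add_zero]
  · rw [HahnSeries.leadingCoeff_mul, HahnSeries.leadingCoeff_of_single, hGl.2.2, one_mul]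

variable {k : Type} [Field k] {p : ℕ} [Fact p.Prime]

omit [Fact p.Prime] in
private theorem modelInf_inj (hp : 0 < p) : Function.Injective (mipsi k p) := by
  rw [injective_iff_map_eq_zero]
  intro q hq
  by_contra h
  exact (modelInf_poly hp h).1 hq

/-- the embedding into the field of series -/
private theorem modelInf_hom {f : k[X]} (hf : f.natDegree.Coprime p) (hp : (p : k) ≠ 0)
    (hm : f.Monic) : ∃ φ : Co k p f →+* HahnSeries ℤ k, Function.Injective φ ∧
      (∀ q : k[X], φ (algebraMap k[X] _ q) = mipsi k p q) ∧ φ (Co.y k p f) ≠ 0 ∧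
      (φ (Co.y k p f)).order = -(f.natDegree : ℤ) ∧ (φ (Co.y k p f)).leadingCoeff = 1 := by
  have hp0 : p ≠ 0 := (Fact.out : p.Prime).ne_zero
  obtain ⟨Y, hY, hY1, hY2, hY3⟩ := modelInf_y hp0 hp hm
  have hinj := modelInf_inj (k := k) (p := p) (Nat.pos_of_ne_zero hp0)
  let ψ : RatFunc k →+* HahnSeries ℤ k := IsFractionRing.lift hinj
  have hψ : ∀ q : k[X], ψ (algebraMap k[X] (RatFunc k) q) = mipsi k p q := fun q =>
    IsFractionRing.lift_algebraMap hinj q
  have hroot : eval₂ ψ Y (X ^ p - C (algebraMap k[X] (RatFunc k) f) : (RatFunc k)[X]) = 0 := by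
    rw [eval₂_sub, eval₂_X_pow, eval₂_C, hψ, hY, sub_self]
  let φ : Fn k p f →+* HahnSeries ℤ k := AdjoinRoot.lift ψ Y hroot
  have : Fact (Irreducible (X ^ p - C (algebraMap k[X] (RatFunc k) f) : (RatFunc k)[X])) :=
    ⟨irreducible_f hf⟩
  have hφr : φ (AdjoinRoot.root _) = Y := AdjoinRoot.lift_root hroot
  have hφq : ∀ q : k[X], φ (algebraMap k[X] (Fn k p f) q) = mipsi k p q := by
    intro q
    rw [← hψ, IsScalarTower.algebraMap_apply k[X] (RatFunc k) (Fn k p f)]
    exact AdjoinRoot.lift_of hroot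
  refine ⟨φ.comp (algebraMap (Co k p f) (Fn k p f)), ?_, ?_, ?_, ?_, ?_⟩
  · rw [RingHom.coe_comp]
    exact φ.injective.comp Subtype.coe_injective
  · intro q
    exact hφq q
  · show φ (AdjoinRoot.root _) ≠ 0
    rw [hφr]
    exact hY1
  · show (φ (AdjoinRoot.root _)).order = _
    rw [hφr]
    exact hY2
  · show (φ (AdjoinRoot.root _)).leadingCoeff = _
    rw [hφr]
    exact hY3

/-- the elements are fractions -/
private theorem modelInf_rep {f : k[X]} (z : Co k p f) : ∃ (b : k[X]) (a : ℕ → k[X]), b ≠ 0 ∧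
    algebraMap k[X] (Co k p f) b * z =
      ∑ j ∈ Finset.range p, algebraMap k[X] (Co k p f) (a j) * Co.y k p f ^ j := by
  have hp0 : p ≠ 0 := (Fact.out : p.Prime).ne_zero
  set P : (RatFunc k)[X] := X ^ p - C (algebraMap k[X] (RatFunc k) f) with hP
  have hPm : P.Monic := monic_X_pow_sub_C _ hp0
  obtain ⟨g, hg⟩ := AdjoinRoot.mk_surjective (g := P) z.1
  set g' := g %ₘ P with hg'
  have hmk : AdjoinRoot.mk P g' = z.1 := by
    rw [← hg, AdjoinRoot.mk_eq_mk, hg']
    refine ⟨-(g /ₘ P), ?_⟩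
    have h := modByMonic_add_div g P
    linear_combination h
  have hdeg : g'.natDegree < p := by
    have h1 : P.natDegree = p := natDegree_X_pow_sub_C
    have h2 := natDegree_modByMonic_lt g hPm (by
      intro h
      rw [h, natDegree_one] at h1
      exact hp0 h1.symm)
    rwa [h1] at h2
  obtain ⟨b, hb⟩ := IsLocalization.exist_integer_multiples (nonZeroDivisors k[X])
    (Finset.range p) (fun j => g'.coeff j)
  have hb' : ∀ j, ∃ a : k[X], j ∈ Finset.range p →
      algebraMap k[X] (RatFunc k) a = (b : k[X]) • g'.coeff j := by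
    intro j
    by_cases hj : j ∈ Finset.range p
    · obtain ⟨a, ha⟩ := hb j hj
      exact ⟨a, fun _ => ha⟩
    · exact ⟨0, fun h => absurd h hj⟩
  choose a ha using hb'
  refine ⟨b, a, nonZeroDivisors.coe_ne_zero b, ?_⟩
  apply Subtype.ext
  have e1 : z.1 = ∑ j ∈ Finset.range p, g'.coeff j • (AdjoinRoot.root P) ^ j := by
    rw [← hmk, ← AdjoinRoot.aeval_eq, aeval_eq_sum_range' hdeg]
  show algebraMap k[X] (Fn k p f) b * z.1 = ((∑ j ∈ Finset.range p,
    algebraMap k[X] (Co k p f) (a j) * Co.y k p f ^ j : Co k p f) : Fn k p f)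
  rw [e1, Finset.mul_sum]
  rw [AddSubmonoidClass.coe_finsetSum]
  refine Finset.sum_congr rfl fun j hj => ?_
  show _ = algebraMap k[X] (Fn k p f) (a j) * (AdjoinRoot.root P) ^ j
  rw [IsScalarTower.algebraMap_apply k[X] (RatFunc k) (Fn k p f) (a j), ha j hj,
    Algebra.smul_def, Algebra.smul_def, map_mul, ← IsScalarTower.algebraMap_apply, mul_assoc]

/-- the order of a sum and of its conjugates -/
private theorem modelInf_ord {f : k[X]} (hf : f.natDegree.Coprime p) {Y : HahnSeries ℤ k}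
    (hY : Y ≠ 0) (hY1 : Y.order = -(f.natDegree : ℤ)) (a : ℕ → k[X])
    (hne : ∃ j < p, a j ≠ 0) : ∃ n : ℤ, ∀ c : ℕ → k, (∀ j, c j ≠ 0) →
      (∑ j ∈ Finset.range p, mipsi k p (a j) * (HahnSeries.C (c j) * Y ^ j)).order = n := by
  have hp0 : 0 < p := (Fact.out : p.Prime).pos
  set A := (Finset.range p).filter fun j => a j ≠ 0 with hA
  have hAn : A.Nonempty := by
    obtain ⟨j, hj, hj1⟩ := hne
    exact ⟨j, Finset.mem_filter.2 ⟨Finset.mem_range.2 hj, hj1⟩⟩
  set e : ℕ → ℤ := fun j => -((p : ℤ) * (a j).natDegree) + -((f.natDegree : ℤ) * j) with he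
  obtain ⟨j₀, hj₀, hmin⟩ := Finset.exists_min_image A e hAn
  refine ⟨e j₀, fun c hc => ?_⟩
  have hCn : ∀ j, (HahnSeries.C (c j) : HahnSeries ℤ k) ≠ 0 := fun j =>
    (_root_.map_ne_zero _).2 (hc j)
  have hord : ∀ j, a j ≠ 0 →
      mipsi k p (a j) * (HahnSeries.C (c j) * Y ^ j) ≠ 0 ∧
      (mipsi k p (a j) * (HahnSeries.C (c j) * Y ^ j)).order = e j := by
    intro j hj
    obtain ⟨h1, h2, -⟩ := modelInf_poly hp0 hj
    have h3 : (HahnSeries.C (c j) * Y ^ j : HahnSeries ℤ k) ≠ 0 :=
      mul_ne_zero (hCn j) (pow_ne_zero j hY)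
    refine ⟨mul_ne_zero h1 h3, ?_⟩
    rw [HahnSeries.order_mul h1 h3, h2, HahnSeries.order_mul (hCn j) (pow_ne_zero j hY),
      HahnSeries.order_C, HahnSeries.order_pow, hY1, zero_add, nsmul_eq_mul, he]
    ring
  obtain ⟨hj1, hj2⟩ := Finset.mem_filter.1 hj₀
  obtain ⟨h1, h2⟩ := hord j₀ hj2
  have h := modelInf_sum (Finset.range p)
    (fun j => mipsi k p (a j) * (HahnSeries.C (c j) * Y ^ j)) j₀ hj1 h1 ?_
  · rw [h.2.1, h2]
  · intro j hj hjne hu
    have haj : a j ≠ 0 := by
      intro h0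
      apply hu
      rw [h0, map_zero, zero_mul]
    rw [h2, (hord j haj).2]
    have h3 := hmin j (Finset.mem_filter.2 ⟨hj, haj⟩)
    refine lt_of_le_of_ne h3 fun heq => hjne ?_
    have h4 : (p : ℤ) ∣ (f.natDegree : ℤ) * ((j : ℤ) - j₀) := by
      refine ⟨((a j₀).natDegree : ℤ) - (a j).natDegree, ?_⟩
      simp only [he] at heq
      linear_combination heq
    have h5 : IsCoprime (p : ℤ) (f.natDegree : ℤ) := by
      rw [Nat.isCoprime_iff_coprime]
      exact hf.symm
    have h6 := h5.dvd_of_dvd_mul_left h4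
    have h7 := Finset.mem_range.1 hj
    have h8 := Finset.mem_range.1 hj1
    have h9 : (j : ℤ) - j₀ = 0 := by
      apply Int.eq_zero_of_abs_lt_dvd h6
      rw [abs_lt]
      constructor <;> omega
    omega

omit [Fact p.Prime] in
private theorem modelInf_map_x {f : k[X]} (q : k[X]) :
    algebraMap k[X] (Co k p f) q = aeval (Co.x k p f) q := by
  unfold Co.x
  rw [aeval_algebraMap_apply, aeval_X_left_apply]

omit [Fact p.Prime] in
private theorem modelInf_map_c {f : k[X]} {φ : Co k p f →+* HahnSeries ℤ k}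
    (hφ : ∀ q : k[X], φ (algebraMap k[X] _ q) = mipsi k p q) (c : k) :
    φ (algebraMap k (Co k p f) c) = HahnSeries.C c := by
  rw [IsScalarTower.algebraMap_apply k k[X] (Co k p f), hφ]
  exact eval₂_C _ _

/-- the order of the conjugates -/
private theorem modelInf_sigma {f : k[X]} (hf : f.natDegree.Coprime p)
    {φ : Co k p f →+* HahnSeries ℤ k} (hi : Function.Injective φ)
    (hφ : ∀ q : k[X], φ (algebraMap k[X] _ q) = mipsi k p q) (hY : φ (Co.y k p f) ≠ 0)
    (hY1 : (φ (Co.y k p f)).order = -(f.natDegree : ℤ)) {ζ : k} (hζ : ζ ≠ 0)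
    {σ : Co k p f ≃ₐ[k] Co k p f} (hσ : σ (Co.x k p f) = Co.x k p f)
    (hσy : σ (Co.y k p f) = algebraMap k _ ζ * Co.y k p f) {z : Co k p f} (hz : z ≠ 0) :
    (φ (σ z)).order = (φ z).order := by
  have hp0 : 0 < p := (Fact.out : p.Prime).pos
  obtain ⟨b, a, hb, hba⟩ := modelInf_rep z
  obtain ⟨hb1, -, -⟩ := modelInf_poly hp0 hb
  have hφz : φ z ≠ 0 := by
    rw [Ne, map_eq_zero_iff φ hi]
    exact hz
  have hφσ : φ (σ z) ≠ 0 := by
    rw [Ne, map_eq_zero_iff φ hi, map_eq_zero_iff σ σ.injective]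
    exact hz
  have hσq : ∀ q : k[X], σ (algebraMap k[X] (Co k p f) q) = algebraMap k[X] (Co k p f) q := by
    intro q
    rw [modelInf_map_x]
    have h := aeval_algHom_apply (σ : Co k p f →ₐ[k] Co k p f) (Co.x k p f) q
    rw [show (σ : Co k p f →ₐ[k] Co k p f) (Co.x k p f) = Co.x k p f from hσ] at h
    exact h.symm
  have h1 : mipsi k p b * φ z =
      ∑ j ∈ Finset.range p, mipsi k p (a j) * (HahnSeries.C 1 * φ (Co.y k p f) ^ j) := by
    rw [← hφ, ← map_mul, hba, map_sum]
    refine Finset.sum_congr rfl fun j _ => ?_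
    rw [map_mul, map_pow, hφ, map_one, one_mul]
  have h2 : mipsi k p b * φ (σ z) =
      ∑ j ∈ Finset.range p, mipsi k p (a j) * (HahnSeries.C (ζ ^ j) * φ (Co.y k p f) ^ j) := by
    rw [← hφ, ← map_mul]
    have e : algebraMap k[X] (Co k p f) b * σ z = σ (algebraMap k[X] (Co k p f) b * z) := by
      rw [map_mul, hσq]
    rw [e, hba, map_sum, map_sum]
    refine Finset.sum_congr rfl fun j _ => ?_
    rw [map_mul, map_pow, hσq, hσy, map_mul, map_pow, map_mul, hφ, modelInf_map_c hφ, mul_pow,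
      map_pow]
  have hne : ∃ j < p, a j ≠ 0 := by
    by_contra hcon
    push Not at hcon
    apply mul_ne_zero hb1 hφz
    rw [h1]
    refine Finset.sum_eq_zero fun j hj => ?_
    rw [hcon j (Finset.mem_range.1 hj), map_zero, zero_mul]
  obtain ⟨n, hn⟩ := modelInf_ord hf hY hY1 a hne
  have h3 := hn (fun _ => 1) (fun _ => one_ne_zero)
  have h4 := hn (fun j => ζ ^ j) (fun j => pow_ne_zero j hζ)
  rw [← h1, HahnSeries.order_mul hb1 hφz] at h3
  rw [← h2, HahnSeries.order_mul hb1 hφσ] at h4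
  omega

private theorem modelInf_nonpos {f : k[X]} (hf : f.natDegree.Coprime p)
    {φ : Co k p f →+* HahnSeries ℤ k} (hi : Function.Injective φ)
    (hφ : ∀ q : k[X], φ (algebraMap k[X] _ q) = mipsi k p q) (hY : φ (Co.y k p f) ≠ 0)
    (hY1 : (φ (Co.y k p f)).order = -(f.natDegree : ℤ)) {ζ : k} (hζ : IsPrimitiveRoot ζ p)
    {z : Co k p f} (hz : z ≠ 0) : (φ z).order ≤ 0 := by
  have hp0 : 0 < p := (Fact.out : p.Prime).pos
  have : IsDomain (Co k p f) := by
    have : Fact (Irreducible (X ^ p - C (algebraMap k[X] (RatFunc k) f) : (RatFunc k)[X])) :=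
      ⟨irreducible_f hf⟩
    infer_instance
  obtain ⟨σ, hσx, hσy, hσp, hσ⟩ := exists_σ (f := f) hf hζ
  have hζ0 : ζ ≠ 0 := hζ.ne_zero hp0.ne'
  have hit : ∀ i : ℕ, σ^[i] z ≠ 0 ∧ (φ (σ^[i] z)).order = (φ z).order := by
    intro i
    induction i with
    | zero => exact ⟨hz, rfl⟩
    | succ i ih =>
      rw [Function.iterate_succ_apply']
      refine ⟨?_, ?_⟩
      · rw [Ne, map_eq_zero_iff σ σ.injective]
        exact ih.1
      · rw [modelInf_sigma hf hi hφ hY hY1 hζ0 hσx hσy ih.1, ih.2]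
  have hφ0 : ∀ w : Co k p f, w ≠ 0 → φ w ≠ 0 := by
    intro w hw
    rw [Ne, map_eq_zero_iff φ hi]
    exact hw
  have hprod : ∀ m : ℕ, ∏ i ∈ Finset.range m, σ^[i] z ≠ 0 ∧
      (φ (∏ i ∈ Finset.range m, σ^[i] z)).order = m * (φ z).order := by
    intro m
    induction m with
    | zero =>
      rw [Finset.prod_range_zero, map_one, HahnSeries.order_one]
      exact ⟨one_ne_zero, by simp⟩
    | succ m ih =>
      rw [Finset.prod_range_succ]
      refine ⟨mul_ne_zero ih.1 (hit m).1, ?_⟩
      rw [map_mul, HahnSeries.order_mul (hφ0 _ ih.1) (hφ0 _ (hit m).1), ih.2, (hit m).2]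
      push_cast
      ring
  set N := ∏ i ∈ Finset.range p, σ^[i] z with hN
  have hσN : σ N = N := by
    have h1 : σ N = ∏ i ∈ Finset.range p, σ^[i + 1] z := by
      rw [hN, map_prod]
      exact Finset.prod_congr rfl fun i _ => (Function.iterate_succ_apply' σ i z).symm
    have h2 := Finset.prod_range_succ (fun i => σ^[i] z) p
    have h3 := Finset.prod_range_succ' (fun i => σ^[i] z) p
    rw [h2] at h3
    simp only [Function.iterate_zero, id_eq, hσp z] at h3
    rw [h1]
    exact (mul_right_cancel₀ hz h3).symm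
  obtain ⟨h, hh⟩ := hσ N hσN
  have hN0 := hprod p
  have hh0 : h ≠ 0 := by
    rintro rfl
    apply hN0.1
    rw [← hN, ← hh, map_zero]
  have h1 := (modelInf_poly hp0 hh0).2.1
  have h2 : φ N = mipsi k p h := by
    rw [← hh, ← modelInf_map_x, hφ]
  rw [← h2, hN0.2] at h1
  have h3 : (0 : ℤ) < p := by exact_mod_cast hp0
  have h4 : (0 : ℤ) ≤ (p : ℤ) * h.natDegree := by positivity
  by_contra hcon
  push Not at hcon
  nlinarith

/-- the pole order and the leading coefficient -/
theorem exists_infty {f : k[X]} (hf : f.natDegree.Coprime p) {ζ : k} (hζ : IsPrimitiveRoot ζ p)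
    (hm : f.Monic) : ∃ I : Infty k (Co k p f),
      I.ord (Co.x k p f) = p ∧ I.lc (Co.x k p f) = 1 ∧ I.ord (Co.y k p f) = f.natDegree ∧
        I.lc (Co.y k p f) = 1 := by
  have hp0 : 0 < p := (Fact.out : p.Prime).pos
  have hpk : (p : k) ≠ 0 := by
    have : NeZero p := ⟨hp0.ne'⟩
    exact hζ.neZero'.ne
  obtain ⟨φ, hi, hφ, hY, hY1, hY2⟩ := modelInf_hom hf hpk hm
  have hnp : ∀ z : Co k p f, z ≠ 0 → (φ z).order ≤ 0 := fun z hz =>
    modelInf_nonpos hf hi hφ hY hY1 hζ hz
  have hφ0 : ∀ w : Co k p f, w ≠ 0 → φ w ≠ 0 := by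
    intro w hw
    rw [Ne, map_eq_zero_iff φ hi]
    exact hw
  have hx := modelInf_poly (k := k) hp0 (X_ne_zero (R := k))
  have hxe : φ (Co.x k p f) = mipsi k p X := hφ X
  have hsub : ∀ z w : Co k p f, z ≠ 0 → w ≠ 0 → z ≠ w → (φ z).order = (φ w).order →
      (φ z).leadingCoeff = (φ w).leadingCoeff → (φ z).order < (φ (z - w)).order := by
    intro z w hz hw hzw h1 h2
    have h3 := hφ0 _ (sub_ne_zero.2 hzw)
    by_contra hcon
    push Not at hcon
    have h4 : (φ (z - w)).coeff (φ (z - w)).order ≠ 0 := by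
      rw [Ne, HahnSeries.coeff_order_eq_zero]
      exact h3
    apply h4
    rw [map_sub, HahnSeries.coeff_sub]
    rcases lt_or_eq_of_le hcon with h | h
    · rw [map_sub] at h
      rw [HahnSeries.coeff_eq_zero_of_lt_order h,
        HahnSeries.coeff_eq_zero_of_lt_order (h1 ▸ h), sub_zero]
    · rw [map_sub] at h
      rw [h]
      rw [HahnSeries.leadingCoeff_eq, HahnSeries.leadingCoeff_eq, ← h1] at h2
      rw [h2, sub_self]
  refine ⟨{
    ord := fun z => (-(φ z).order).toNat
    lc := fun z => (φ z).leadingCoeff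
    lc_zero := by rw [map_zero, HahnSeries.leadingCoeff_zero]
    lc_ne := fun z hz => HahnSeries.leadingCoeff_ne_zero.2 (hφ0 z hz)
    lc_mul := fun z w => by rw [map_mul, HahnSeries.leadingCoeff_mul]
    ord_mul := ?_
    ord_add := ?_
    ord_sub := ?_
    ord_c := ?_
    lc_c := ?_
    const := ?_
    large := ?_ }, ?_, ?_, ?_, ?_⟩
  · intro z w hz hw
    have h1 := hnp z hz
    have h2 := hnp w hw
    rw [map_mul, HahnSeries.order_mul (hφ0 z hz) (hφ0 w hw)]
    omega
  · intro z w hz hw hzw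
    have h1 := HahnSeries.min_order_le_order_add (x := φ z) (y := φ w)
      (by rw [← map_add]; exact hφ0 _ hzw)
    rw [map_add]
    omega
  · intro z w hz hw hzw h1 h2
    have h3 := hnp z hz
    have h4 := hnp w hw
    have h5 := hnp _ (sub_ne_zero.2 hzw)
    have h6 := hsub z w hz hw hzw (by omega) h2
    omega
  · intro c
    rw [modelInf_map_c hφ, HahnSeries.order_C]
    rfl
  · intro c
    rw [modelInf_map_c hφ]
    exact HahnSeries.leadingCoeff_of_single
  · intro z hz
    by_cases hz0 : z = 0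
    · exact ⟨0, by rw [hz0, map_zero]⟩
    have h1 := hnp z hz0
    have h2 : (φ z).order = 0 := by omega
    refine ⟨(φ z).leadingCoeff, ?_⟩
    by_contra hne
    have hc0 : (φ z).leadingCoeff ≠ 0 := HahnSeries.leadingCoeff_ne_zero.2 (hφ0 z hz0)
    have hw0 : algebraMap k (Co k p f) (φ z).leadingCoeff ≠ 0 := by
      intro h0
      have h3 := modelInf_map_c hφ (φ z).leadingCoeff
      rw [h0, map_zero] at h3
      exact hc0 ((_root_.map_eq_zero (HahnSeries.C : k →+* HahnSeries ℤ k)).1 h3.symm)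
    have h3 := hsub z _ hz0 hw0 (Ne.symm hne) (by
      rw [modelInf_map_c hφ, HahnSeries.order_C, h2]) (by
      rw [modelInf_map_c hφ]
      exact HahnSeries.leadingCoeff_of_single.symm)
    have h4 := hnp _ (sub_ne_zero.2 (Ne.symm hne))
    omega
  · refine ⟨p * f.natDegree, fun n hn => ?_⟩
    obtain ⟨j, hjn, i, hi'⟩ : ∃ j, f.natDegree * j ≤ n ∧ p ∣ n - f.natDegree * j := by
      obtain ⟨m, -, hm1⟩ := Nat.exists_mul_mod_eq_one_of_coprime hf
        (Fact.out : p.Prime).one_lt
      have h1 : f.natDegree * m ≡ 1 [MOD p] := by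
        unfold Nat.ModEq
        rw [hm1, Nat.mod_eq_of_lt (Fact.out : p.Prime).one_lt]
      have h2 : f.natDegree * (m * n % p) ≡ n [MOD p] := by
        have h3 : f.natDegree * (m * n % p) ≡ f.natDegree * (m * n) [MOD p] :=
          (Nat.ModEq.refl _).mul (Nat.mod_modEq _ _)
        have h4 : f.natDegree * (m * n) ≡ n [MOD p] := by
          have h5 := h1.mul (Nat.ModEq.refl n)
          rwa [one_mul, mul_assoc] at h5
        exact h3.trans h4
      have h3 : f.natDegree * (m * n % p) ≤ n := by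
        have h4 := Nat.mod_lt (m * n) hp0
        calc f.natDegree * (m * n % p) ≤ f.natDegree * p := Nat.mul_le_mul_left _ h4.le
          _ = p * f.natDegree := mul_comm _ _
          _ ≤ n := hn
      exact ⟨m * n % p, h3, (Nat.modEq_iff_dvd' h3).1 h2⟩
    have hx0 : φ (Co.x k p f) ≠ 0 := by
      rw [hxe]
      exact hx.1
    refine ⟨Co.x k p f ^ i * Co.y k p f ^ j, ?_, ?_⟩
    · intro h0
      have h1 : φ (Co.x k p f ^ i * Co.y k p f ^ j) = 0 := by rw [h0, map_zero]
      rw [map_mul, map_pow, map_pow] at h1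
      exact mul_ne_zero (pow_ne_zero i hx0) (pow_ne_zero j hY) h1
    · show (-(φ (Co.x k p f ^ i * Co.y k p f ^ j)).order).toNat = n
      rw [map_mul, map_pow, map_pow, HahnSeries.order_mul (pow_ne_zero i hx0)
        (pow_ne_zero j hY), HahnSeries.order_pow, HahnSeries.order_pow, hY1, hxe, hx.2.1,
        natDegree_X, nsmul_eq_mul, nsmul_eq_mul]
      have h1 : (n : ℤ) = p * i + f.natDegree * j := by
        have h2 : n = p * i + f.natDegree * j := by omega
        exact_mod_cast h2
      have h2 : -((i : ℤ) * -((p : ℤ) * ((1 : ℕ) : ℤ)) + (j : ℤ) * -(f.natDegree : ℤ)) = n := by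
        rw [h1]
        push_cast
        ring
      rw [h2, Int.toNat_natCast]
  · show (-(φ (Co.x k p f)).order).toNat = p
    rw [hxe, hx.2.1, natDegree_X]
    simp
  · show (φ (Co.x k p f)).leadingCoeff = 1
    rw [hxe, hx.2.2, leadingCoeff_X]
  · show (-(φ (Co.y k p f)).order).toNat = f.natDegree
    rw [hY1]
    simp
  · exact hY2

end Pool.Agent.PTate
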