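import Pool.Agent.PTate.Zeros
import Pool.Agent.PTate.Act

/-!
# The pole order and automorphisms
-/

set_option autoImplicit false

noncomputable section

namespace Pool.Agent.PTate

open Polynomial
open scoped Classical

variable {k O : Type} [Field k] [CommRing O] [Algebra k O] [IsDedekindDomain O] [IsAlgClosed k]

omit [IsDedekindDomain O] [IsAlgClosed k] in
private theorem ordMap_pow (I : Infty k O) {x : O} (lx : I.lc x = 1) (n : ℕ) :
    I.lc (x ^ n) = 1 ∧ I.ord (x ^ n) = n * I.ord x ∧ x ^ n ≠ 0 := by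
  have hne : ∀ w : O, I.lc w = 1 → w ≠ 0 := by
    rintro w h rfl
    rw [I.lc_zero] at h
    exact zero_ne_one h
  induction n with
  | zero =>
    have h1 : I.lc (1 : O) = 1 := by
      have h := I.lc_c 1
      rwa [map_one] at h
    have h2 : I.ord (1 : O) = 0 := by
      have h := I.ord_c 1
      rwa [map_one] at h
    rw [pow_zero]
    exact ⟨h1, by rw [h2, zero_mul], hne _ h1⟩
  | succ n ih =>
    obtain ⟨h1, h2, h3⟩ := ih
    have h4 : I.lc (x ^ (n + 1)) = 1 := by rw [pow_succ, I.lc_mul, h1, lx, one_mul]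
    refine ⟨h4, ?_, hne _ h4⟩
    rw [pow_succ, I.ord_mul _ _ h3 (hne _ lx), h2]
    ring

/-- The pole order and the leading coefficient are compatible with automorphisms over `g` which
fix `x` and `y`. -/
theorem ord_map (I : Infty k O) {x y : O} (lx : I.lc x = 1) (ly : I.lc y = 1) (h0 : 0 < I.ord x)
    (hxy : (I.ord y).Coprime (I.ord x)) (e : O ≃+* O) (g : k ≃+* k)
    (hg : ∀ c, e (algebraMap k O c) = algebraMap k O (g c)) (hx : e x = x) (hy : e y = y)
    (z : O) : I.ord (e z) = I.ord z ∧ I.lc (e z) = g (I.lc z) := by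
  have hord : ∀ w : O, I.ord (e w) = I.ord w := by
    intro w
    by_cases hw : w = 0
    · rw [hw, map_zero]
    · have hb : Ideal.span {w} ≠ ⊥ := by
        rw [Ne, Ideal.span_singleton_eq_bot]
        exact hw
      obtain ⟨s, hs⟩ := exists_idl I hb
      rw [← card_eq I hs.symm, ← card_eq I (span_mv e hs.symm), Multiset.card_map]
  refine ⟨hord z, ?_⟩
  by_cases hz : z = 0
  · rw [hz, map_zero, I.lc_zero, map_zero]
  -- exponents
  obtain ⟨a, b, a', b', hab⟩ : ∃ a b a' b' : ℕ,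
      I.ord z + a * I.ord x + b * I.ord y = a' * I.ord x + b' * I.ord y := by
    have h1 : IsCoprime (I.ord x : ℤ) (I.ord y : ℤ) :=
      Nat.isCoprime_iff_coprime.2 hxy.symm
    obtain ⟨u, v, huv⟩ := h1
    refine ⟨(-(I.ord z * u)).toNat, (-(I.ord z * v)).toNat, (I.ord z * u : ℤ).toNat,
      (I.ord z * v : ℤ).toNat, ?_⟩
    have h2 : ∀ m : ℤ, ((m.toNat : ℕ) : ℤ) - (((-m).toNat : ℕ) : ℤ) = m := fun m =>
      Int.toNat_sub_toNat_neg m
    have h3 := h2 (I.ord z * u)
    have h4 := h2 (I.ord z * v)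
    zify
    linear_combination (-(I.ord z : ℤ)) * huv - (I.ord x : ℤ) * h3 - (I.ord y : ℤ) * h4
  obtain ⟨lxa, oxa, nxa⟩ := ordMap_pow I lx a
  obtain ⟨lyb, oyb, nyb⟩ := ordMap_pow I ly b
  obtain ⟨lxa', oxa', nxa'⟩ := ordMap_pow I lx a'
  obtain ⟨lyb', oyb', nyb'⟩ := ordMap_pow I ly b'
  have : IsDomain O := I.isDomain
  have hc : I.lc z ≠ 0 := I.lc_ne z hz
  set M : O := x ^ a * y ^ b with hM
  set T : O := x ^ a' * y ^ b' with hT
  have hM0 : M ≠ 0 := mul_ne_zero nxa nyb
  have hT0 : T ≠ 0 := mul_ne_zero nxa' nyb'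
  have lM : I.lc M = 1 := by rw [hM, I.lc_mul, lxa, lyb, one_mul]
  have lT : I.lc T = 1 := by rw [hT, I.lc_mul, lxa', lyb', one_mul]
  have oM : I.ord M = a * I.ord x + b * I.ord y := by rw [hM, I.ord_mul _ _ nxa nyb, oxa, oyb]
  have oT : I.ord T = a' * I.ord x + b' * I.ord y := by
    rw [hT, I.ord_mul _ _ nxa' nyb', oxa', oyb']
  have heM : e M = M := by rw [hM, map_mul, map_pow, map_pow, hx, hy]
  have heT : e T = T := by rw [hT, map_mul, map_pow, map_pow, hx, hy]
  clear_value M T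
  -- a constant multiple
  have hcst : ∀ c : k, c ≠ 0 → algebraMap k O c * T ≠ 0 ∧
      I.ord (algebraMap k O c * T) = I.ord T ∧ I.lc (algebraMap k O c * T) = c := by
    intro c hc
    have h1 : algebraMap k O c ≠ 0 := by
      intro h
      have h2 := I.lc_c c
      rw [h, I.lc_zero] at h2
      exact hc h2.symm
    refine ⟨mul_ne_zero h1 hT0, ?_, ?_⟩
    · rw [I.ord_mul _ _ h1 hT0, I.ord_c, zero_add]
    · rw [I.lc_mul, I.lc_c, lT, mul_one]
  obtain ⟨n1, o1, l1⟩ := hcst _ hc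
  have hgc : g (I.lc z) ≠ 0 := (map_ne_zero_iff g g.injective).2 hc
  obtain ⟨n2, o2, l2⟩ := hcst _ hgc
  set D : O := z * M - algebraMap k O (I.lc z) * T with hD
  have hD1 : e D = 0 ∨ I.ord (e D) < I.ord (algebraMap k O (g (I.lc z)) * T) := by
    by_cases hD0 : D = 0
    · left
      rw [hD0, map_zero]
    · right
      rw [hord, o2, hD]
      have h1 : I.ord (z * M) = I.ord T := by
        rw [I.ord_mul _ _ hz hM0, oM, oT, ← hab]
        ring
      rw [← h1]
      refine I.ord_sub _ _ (mul_ne_zero hz hM0) n1 (fun h => hD0 (by rw [hD, h, sub_self])) ?_ ?_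
      · rw [h1, o1]
      · rw [I.lc_mul, lM, mul_one, l1]
  obtain ⟨-, -, h3⟩ := I.dominant n2 hD1
  have h4 : algebraMap k O (g (I.lc z)) * T + e D = e z * M := by
    rw [hD, map_sub, map_mul, map_mul, heM, heT, hg]
    ring
  rw [h4, I.lc_mul, lM, mul_one, l2] at h3
  exact h3

end Pool.Agent.PTate
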