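import Mathlib

/-!
# Kummer theory: automorphisms which change one root
-/

set_option autoImplicit false

noncomputable section

namespace Pool.Agent.PTate

open scoped Classical

variable {K : Type} [Field K] {ι σ : Type}

/-- The pair `{i, j}` is free: the difference `a i - a j` is not, up to a root of unity and a
`p`-th power in `K`, a product of powers of differences `a u - a v` of other pairs `{u, v}`
contained in some `S s`. -/
def Free (p : ℕ) (ζ : K) (a : ι → K) (S : σ → Finset ι) (i j : ι) : Prop :=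
  ∀ (R : Finset (ι × ι)) (n : ι × ι → ℕ) (c : K) (l : ℕ),
    (∀ q ∈ R, q.1 ≠ q.2 ∧ q ≠ (i, j) ∧ q ≠ (j, i) ∧ ∃ s, q.1 ∈ S s ∧ q.2 ∈ S s) →
      a i - a j ≠ ζ ^ l * c ^ p * ∏ q ∈ R, (a q.1 - a q.2) ^ n q

theorem Free.symm {p : ℕ} (hp : Odd p) {ζ : K} {a : ι → K} {S : σ → Finset ι} {i j : ι}
    (h : Free p ζ a S i j) : Free p ζ a S j i := by
  intro R n c l hR h1
  refine h R n (-c) l (fun q hq => ?_) ?_
  · obtain ⟨q1, q2, q3, q4⟩ := hR q hq
    exact ⟨q1, q3, q2, q4⟩
  · rw [hp.neg_pow]
    linear_combination (-1) * h1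

/-- two elements with the same `p`-th power differ by a root of unity -/
private theorem kummer_root {p : ℕ} [Fact p.Prime] {F : Type} [Field F] {ζ : F}
    (hζ : IsPrimitiveRoot ζ p) {y r : F} (hr : r ≠ 0) (h : y ^ p = r ^ p) :
    ∃ j < p, y = ζ ^ j * r := by
  have : NeZero p := ⟨(Fact.out : p.Prime).ne_zero⟩
  obtain ⟨j, hj, hj'⟩ := hζ.eq_pow_of_pow_eq_one (ξ := y / r) (by
    rw [div_pow, h, div_self (pow_ne_zero _ hr)])
  exact ⟨j, hj, by rw [hj', div_mul_cancel₀ _ hr]⟩

/-- the minimal polynomial of a `p`-th root -/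
private theorem kummer_minpoly {p : ℕ} [Fact p.Prime] {K : Type} [Field K] {ζ : K}
    (hζ : IsPrimitiveRoot ζ p) {L : Type} [Field L] [Algebra K L] (M : IntermediateField K L)
    {t : L} {b : K} (ht : t ^ p = algebraMap K L b) (htM : t ∉ M) :
    minpoly M t = Polynomial.X ^ p - Polynomial.C (algebraMap K M b) := by
  have hp : p.Prime := Fact.out
  have ht0 : t ≠ 0 := by
    rintro rfl
    exact htM M.zero_mem
  have hirr : Irreducible (Polynomial.X ^ p - Polynomial.C (algebraMap K M b)) := by
    apply X_pow_sub_C_irreducible_of_prime hp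
    intro m hm
    have hm' : t ^ p = (m : L) ^ p := by
      rw [ht]
      have := congrArg (algebraMap M L) hm
      rw [map_pow] at this
      exact this.symm
    have hm0 : (m : L) ≠ 0 := by
      intro h0
      rw [h0, zero_pow hp.ne_zero] at hm'
      exact ht0 (pow_eq_zero_iff hp.ne_zero |>.1 hm')
    obtain ⟨j, -, hj⟩ := kummer_root (hζ.map_of_injective (algebraMap K L).injective) hm0 hm'
    apply htM
    rw [hj]
    exact M.mul_mem (pow_mem (M.algebraMap_mem ζ) j) m.2
  symm
  apply minpoly.eq_of_irreducible_of_monic hirr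
  · rw [map_sub, map_pow, Polynomial.aeval_X, Polynomial.aeval_C, ht, sub_eq_zero]
    rfl
  · exact Polynomial.monic_X_pow_sub_C _ hp.ne_zero

/-- one step: an element of `M(t)` whose `p`-th power is in `K` -/
private theorem kummer_step {p : ℕ} [Fact p.Prime] {K : Type} [Field K] {ζ : K}
    (hζ : IsPrimitiveRoot ζ p) {L : Type} [Field L] [Algebra K L] (M : IntermediateField K L)
    {t : L} {b : K} (ht : t ^ p = algebraMap K L b) (htM : t ∉ M) (s : Set L) (hs : s ⊆ M)
    {r : L} {x : K} (hr : r ^ p = algebraMap K L x) (hx : x ≠ 0)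
    (h : r ∈ IntermediateField.adjoin K (insert t s)) : ∃ m ∈ M, ∃ j : ℕ, r = m * t ^ j := by
  have hp : p.Prime := Fact.out
  have hmin := kummer_minpoly hζ M ht htM
  have hmon : (minpoly M t).Monic := by
    rw [hmin]
    exact Polynomial.monic_X_pow_sub_C _ hp.ne_zero
  have hdeg : (minpoly M t).degree = p := by
    rw [hmin]
    exact Polynomial.degree_X_pow_sub_C hp.pos _
  have hint : IsIntegral M t := by
    refine ⟨Polynomial.X ^ p - Polynomial.C (algebraMap K M b),
      Polynomial.monic_X_pow_sub_C _ hp.ne_zero, ?_⟩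
    rw [← Polynomial.aeval_def, map_sub, map_pow, Polynomial.aeval_X, Polynomial.aeval_C, ht,
      sub_eq_zero]
    rfl
  have hr0 : r ≠ 0 := by
    rintro rfl
    rw [zero_pow hp.ne_zero, eq_comm, map_eq_zero] at hr
    exact hx hr
  -- the element as a value of a polynomial
  have h1 : r ∈ IntermediateField.adjoin M {t} := by
    have h2 : IntermediateField.adjoin K (insert t s) ≤
        (IntermediateField.adjoin M {t}).restrictScalars K := by
      rw [IntermediateField.adjoin_le_iff]
      rintro y (rfl | hy)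
      · exact IntermediateField.subset_adjoin M _ (Set.mem_singleton _)
      · exact (IntermediateField.adjoin M {t}).algebraMap_mem (⟨y, hs hy⟩ : M)
    exact h2 h
  obtain ⟨f, hf⟩ : ∃ f : Polynomial M, Polynomial.aeval t f = r := by
    rw [← IntermediateField.mem_toSubalgebra,
      IntermediateField.adjoin_simple_toSubalgebra_of_isAlgebraic hint.isAlgebraic,
      Algebra.adjoin_singleton_eq_range_aeval] at h1
    exact h1
  set g := f %ₘ minpoly M t with hg
  have hgr : Polynomial.aeval t g = r := by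
    rw [hg, Polynomial.aeval_modByMonic_eq_self_of_root (minpoly.aeval M t), hf]
  have hgdeg : g.degree < p := by
    rw [← hdeg]
    exact Polynomial.degree_modByMonic_lt _ hmon
  -- the conjugate
  set z : L := algebraMap K L ζ with hz
  have hzp : IsPrimitiveRoot z p := hζ.map_of_injective (algebraMap K L).injective
  have hroot : Polynomial.aeval (z * t) (minpoly M t) = 0 := by
    rw [hmin, map_sub, map_pow, Polynomial.aeval_X, Polynomial.aeval_C, mul_pow, hzp.pow_eq_one,
      one_mul, ht, sub_eq_zero]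
    rfl
  have hdvd : minpoly M t ∣ g ^ p - Polynomial.C (algebraMap K M x) := by
    apply minpoly.dvd
    rw [map_sub, map_pow, hgr, Polynomial.aeval_C, hr, sub_eq_zero]
    rfl
  obtain ⟨q, hq⟩ := hdvd
  have hconj : (Polynomial.aeval (z * t) g) ^ p = r ^ p := by
    have h2 := congrArg (Polynomial.aeval (z * t)) hq
    rw [map_mul, hroot, zero_mul, map_sub, map_pow, Polynomial.aeval_C, sub_eq_zero] at h2
    rw [h2, hr]
    rfl
  obtain ⟨j, hj, hj'⟩ := kummer_root hzp hr0 hconj
  -- the polynomial `g (ζ X) - ζ ^ j g (X)` vanishes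
  set ζM : M := algebraMap K M ζ with hζM
  have hζMp : IsPrimitiveRoot ζM p := hζ.map_of_injective (algebraMap K M).injective
  have hzM : algebraMap M L ζM = z := rfl
  have hcomp : Polynomial.aeval t (g.comp (Polynomial.C ζM * Polynomial.X)) =
      Polynomial.aeval (z * t) g := by
    rw [Polynomial.aeval_comp, map_mul, Polynomial.aeval_C, Polynomial.aeval_X, hzM]
  set u : Polynomial M := g.comp (Polynomial.C ζM * Polynomial.X) - Polynomial.C (ζM ^ j) * g
    with hu
  have hut : Polynomial.aeval t u = 0 := by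
    rw [hu, map_sub, hcomp, hj', map_mul, Polynomial.aeval_C, hgr, map_pow, hzM, sub_self]
  have hucoeff : ∀ n, u.coeff n = g.coeff n * (ζM ^ n - ζM ^ j) := by
    intro n
    rw [hu, Polynomial.coeff_sub, Polynomial.comp_C_mul_X_coeff, Polynomial.coeff_C_mul]
    ring
  have hudeg : u.degree < (minpoly M t).degree := by
    rw [hdeg, Polynomial.degree_lt_iff_coeff_zero]
    intro n hn
    rw [hucoeff, Polynomial.coeff_eq_zero_of_degree_lt (lt_of_lt_of_le hgdeg (by exact_mod_cast hn)),
      zero_mul]
  have hu0 : u = 0 := by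
    by_contra h2
    exact absurd (minpoly.degree_le_of_ne_zero M t h2 hut) (not_le.2 hudeg)
  have hgcoeff : ∀ n, n ≠ j → g.coeff n = 0 := by
    intro n hn
    rcases le_or_gt p n with h2 | h2
    · exact Polynomial.coeff_eq_zero_of_degree_lt (lt_of_lt_of_le hgdeg (by exact_mod_cast h2))
    · have h3 := hucoeff n
      rw [hu0, Polynomial.coeff_zero, eq_comm, mul_eq_zero] at h3
      rcases h3 with h3 | h3
      · exact h3
      · exact absurd (hζMp.pow_inj h2 hj (sub_eq_zero.1 h3)) hn
  have hgmon : g = Polynomial.monomial j (g.coeff j) := by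
    ext n
    rw [Polynomial.coeff_monomial]
    split_ifs with h2
    · rw [h2]
    · rw [hgcoeff n (fun h3 => h2 h3.symm)]
  refine ⟨(g.coeff j : L), (g.coeff j).2, j, ?_⟩
  rw [← hgr]
  conv_lhs => rw [hgmon]
  rw [Polynomial.aeval_monomial]
  rfl

/-- **Kummer theory** -/
theorem kummer {p : ℕ} [Fact p.Prime] {ζ : K} (hζ : IsPrimitiveRoot ζ p) {L : Type} [Field L]
    [Algebra K L] (T : Finset L) (hT : ∀ t ∈ T, ∃ b : K, t ^ p = algebraMap K L b) {r : L} {x : K}
    (hr : r ^ p = algebraMap K L x) (hx : x ≠ 0)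
    (h : r ∈ IntermediateField.adjoin K (T : Set L)) :
    ∃ (n : L → ℕ) (c : K), r = algebraMap K L c * ∏ t ∈ T, t ^ n t := by
  have hp : p.Prime := Fact.out
  induction T using Finset.induction_on generalizing r x with
  | empty =>
    rw [Finset.coe_empty, IntermediateField.adjoin_empty, IntermediateField.mem_bot] at h
    obtain ⟨c, rfl⟩ := h
    exact ⟨fun _ => 0, c, by simp⟩
  | insert t T ht ih =>
    have hT' : ∀ t ∈ T, ∃ b : K, t ^ p = algebraMap K L b := fun u hu =>
      hT u (Finset.mem_insert_of_mem hu)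
    have hprod : ∀ (n : L → ℕ) (j : ℕ),
        ∏ u ∈ insert t T, u ^ (Function.update n t j) u = t ^ j * ∏ u ∈ T, u ^ n u := by
      intro n j
      rw [Finset.prod_insert ht, Function.update_self]
      congr 1
      refine Finset.prod_congr rfl fun u hu => ?_
      rw [Function.update_of_ne]
      rintro rfl
      exact ht hu
    rw [Finset.coe_insert] at h
    by_cases htM : t ∈ IntermediateField.adjoin K (T : Set L)
    · have h' : r ∈ IntermediateField.adjoin K (T : Set L) := by
        have hle : IntermediateField.adjoin K (insert t (T : Set L)) ≤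
            IntermediateField.adjoin K (T : Set L) := by
          rw [IntermediateField.adjoin_le_iff]
          rintro y (rfl | hy)
          · exact htM
          · exact IntermediateField.subset_adjoin K _ hy
        exact hle h
      obtain ⟨n, c, hn⟩ := ih hT' hr hx h'
      refine ⟨Function.update n t 0, c, ?_⟩
      rw [hprod, pow_zero, one_mul, hn]
    · obtain ⟨b, hb⟩ := hT t (Finset.mem_insert_self _ _)
      obtain ⟨m, hm, j, hrm⟩ := kummer_step hζ (IntermediateField.adjoin K (T : Set L)) hb htM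
        (T : Set L) (IntermediateField.subset_adjoin K _) hr hx h
      have ht0 : t ≠ 0 := by
        rintro rfl
        exact htM (IntermediateField.zero_mem _)
      have hb0 : b ≠ 0 := by
        rintro rfl
        rw [map_zero] at hb
        exact ht0 (pow_eq_zero_iff hp.ne_zero |>.1 hb)
      have hr' : m ^ p = algebraMap K L (x / b ^ j) := by
        have h0 : t ^ j ≠ 0 := pow_ne_zero _ ht0
        rw [map_div₀, ← hr, map_pow, ← hb, hrm, mul_pow, ← pow_mul, ← pow_mul, mul_comm j p,
          mul_div_assoc, div_self (pow_ne_zero _ ht0), mul_one]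
      obtain ⟨n, c, hn⟩ := ih hT' hr' (div_ne_zero hx (pow_ne_zero _ hb0)) hm
      refine ⟨Function.update n t j, c, ?_⟩
      rw [hprod, hrm, hn]
      ring

/-- a free pair gives an automorphism which changes only one root -/
theorem exists_galois [Fintype ι] {p : ℕ} [Fact p.Prime] (hp : p ≠ 2) {ζ : K}
    (hζ : IsPrimitiveRoot ζ p) (a : ι → K) (S : σ → Finset ι) {L : Type} [Field L] [Algebra K L]
    [Algebra.IsAlgebraic K L] [IsAlgClosed L] (ρ : ι → ι → L)
    (hρ : ∀ u v, ρ u v ^ p = algebraMap K L (a u - a v)) {w : L}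
    (hw : w ^ p = algebraMap K L ζ) {i j : ι} (h : Free p ζ a S i j) :
    ∃ g : L ≃ₐ[K] L, g w = w ∧ ∀ u v, (∃ s, u ∈ S s ∧ v ∈ S s) →
      g (ρ u v) = if (u = i ∧ v = j) ∨ (u = j ∧ v = i) then algebraMap K L ζ * ρ u v
        else ρ u v := by
  have hpp : p.Prime := Fact.out
  have hodd : Odd p := hpp.odd_of_ne_two hp
  have hd0 : a i - a j ≠ 0 := by
    have h1 := h ∅ (fun _ => 0) 0 0 (by simp)
    rw [zero_pow hpp.ne_zero, mul_zero, zero_mul] at h1
    exact h1
  have hij : i ≠ j := by
    rintro rfl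
    exact hd0 (sub_self _)
  have hρ0 : ρ i j ≠ 0 := by
    intro h0
    have h1 := hρ i j
    rw [h0, zero_pow hpp.ne_zero, eq_comm, map_eq_zero] at h1
    exact hd0 h1
  set z : L := algebraMap K L ζ with hz
  have hzp : IsPrimitiveRoot z p := hζ.map_of_injective (algebraMap K L).injective
  set P : Finset (ι × ι) := Finset.univ.filter (fun q =>
    q.1 ≠ q.2 ∧ q ≠ (i, j) ∧ q ≠ (j, i) ∧ ∃ s, q.1 ∈ S s ∧ q.2 ∈ S s) with hP
  set T : Finset L := insert w (P.image (fun q => ρ q.1 q.2)) with hTdef
  have hT : ∀ t ∈ T, ∃ b : K, t ^ p = algebraMap K L b := by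
    intro t ht
    rw [hTdef, Finset.mem_insert, Finset.mem_image] at ht
    rcases ht with rfl | ⟨q, _, rfl⟩
    · exact ⟨ζ, hw⟩
    · exact ⟨_, hρ q.1 q.2⟩
  have hwT : w ∈ T := by
    rw [hTdef]
    exact Finset.mem_insert_self _ _
  have hnot : ρ i j ∉ IntermediateField.adjoin K (T : Set L) := by
    intro hmem
    obtain ⟨n, c, hr⟩ := kummer hζ T hT (hρ i j) hd0 hmem
    have hch : ∀ t ∈ T.erase w, ∃ q ∈ P, ρ q.1 q.2 = t := by
      intro t ht
      rw [Finset.mem_erase] at ht
      have h3 := ht.2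
      rw [hTdef, Finset.mem_insert, Finset.mem_image] at h3
      rcases h3 with h3 | ⟨q, hq, hqt⟩
      · exact absurd h3 ht.1
      · exact ⟨q, hq, hqt⟩
    have : Nonempty (ι × ι) := ⟨(i, j)⟩
    choose! f hfP hft using hch
    have hinj : Set.InjOn f (↑(T.erase w) : Set L) := by
      intro x hx y hy hxy
      rw [← hft x hx, ← hft y hy, hxy]
    refine h ((T.erase w).image f) (fun q => n (ρ q.1 q.2)) c (n w) ?_ ?_
    · intro q hq
      obtain ⟨t, ht, rfl⟩ := Finset.mem_image.1 hq
      have h3 := hfP t ht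
      rw [hP, Finset.mem_filter] at h3
      exact h3.2
    · have hprod : (∏ t ∈ T.erase w, t ^ n t) ^ p =
          algebraMap K L (∏ q ∈ (T.erase w).image f, (a q.1 - a q.2) ^ n (ρ q.1 q.2)) := by
        rw [Finset.prod_image hinj, map_prod, ← Finset.prod_pow]
        refine Finset.prod_congr rfl fun t ht => ?_
        rw [map_pow, ← hρ, hft t ht, ← pow_mul, ← pow_mul, mul_comm]
      have hsq := hρ i j
      rw [hr, ← Finset.mul_prod_erase _ _ hwT] at hsq
      apply (algebraMap K L).injective
      rw [← hsq, map_mul, map_mul, map_pow, map_pow, ← hprod, mul_pow, mul_pow, ← pow_mul,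
        mul_comm (n w) p, pow_mul w p, hw]
      ring
  set E := IntermediateField.adjoin K (T : Set L) with hE
  have hmin := kummer_minpoly hζ E (hρ i j) hnot
  have : Algebra.IsAlgebraic E L := Algebra.IsAlgebraic.tower_top (K := K) E
  have : IsAlgClosure E L := ⟨inferInstance, inferInstance⟩
  have : Normal E L := IsAlgClosure.normal E L
  obtain ⟨g, hg⟩ := minpoly.exists_algEquiv_of_root' (K := E) (L := L) (x := z * ρ i j)
    (y := ρ i j) (Algebra.IsAlgebraic.isAlgebraic _) (by
      rw [hmin, map_sub, map_pow, Polynomial.aeval_X, Polynomial.aeval_C, mul_pow,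
        hzp.pow_eq_one, one_mul, hρ, sub_eq_zero]
      rfl)
  have hfix : ∀ t ∈ T, g t = t := by
    intro t ht
    have h3 : t ∈ E := IntermediateField.subset_adjoin K _ ht
    exact g.commutes (⟨t, h3⟩ : E)
  have hgz : g z = z := (g.restrictScalars K).commutes ζ
  refine ⟨g.restrictScalars K, hfix w hwT, ?_⟩
  intro u v huv
  change g (ρ u v) = _
  by_cases h3 : u = i ∧ v = j
  · rw [if_pos (Or.inl h3), h3.1, h3.2, hg]
  by_cases h4 : u = j ∧ v = i
  · rw [if_pos (Or.inr h4), h4.1, h4.2]
    have h5 : ρ j i ^ p = (-ρ i j) ^ p := by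
      rw [hodd.neg_pow, hρ, hρ, map_sub, map_sub]
      ring
    obtain ⟨l, -, hl⟩ := kummer_root hzp (neg_ne_zero.2 hρ0) h5
    rw [hl, map_mul, map_pow, hgz, map_neg, hg]
    ring
  rw [if_neg (by tauto)]
  by_cases h5 : u = v
  · subst h5
    have h6 : ρ u u = 0 := by
      have h7 := hρ u u
      rw [sub_self, map_zero] at h7
      exact pow_eq_zero_iff hpp.ne_zero |>.1 h7
    rw [h6, map_zero]
  · apply hfix
    rw [hTdef, Finset.mem_insert, Finset.mem_image]
    refine Or.inr ⟨(u, v), ?_, rfl⟩
    rw [hP, Finset.mem_filter]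
    refine ⟨Finset.mem_univ _, h5, ?_, ?_, huv⟩
    · intro h6
      rw [Prod.mk.injEq] at h6
      exact h3 h6
    · intro h6
      rw [Prod.mk.injEq] at h6
      exact h4 h6

end Pool.Agent.PTate
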