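import Pool.Agent.PTate.Act
import Pool.Agent.PTate.Kummer

/-!
# Tate classes on powers of products of Jacobians of cyclic coverings: the definitions
-/

set_option autoImplicit false

noncomputable section

namespace Pool.Agent.PTate.Stm

open Polynomial
open scoped Classical

/-- The polynomial `∏ (x - a i) ^ (m i)`, `i ∈ S`, over the extension `L` of `K`. -/
def eqn {K : Type} [Field K] (L : Type) [Field L] [Algebra K L] {ι : Type} (a : ι → K)
    (S : Finset ι) (m : ι → ℕ) : L[X] := ∏ i ∈ S, (X - C (algebraMap K L (a i))) ^ m i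

/-- The function field `L(x)[y] / (y ^ p - f(x))`. -/
abbrev Fn (L : Type) [Field L] (p : ℕ) (f : L[X]) : Type :=
  AdjoinRoot (X ^ p - C (algebraMap L[X] (RatFunc L) f) : (RatFunc L)[X])

/-- The ring of the regular functions on the affine curve: the elements of the function field
which are integral over `L[x]`. -/
abbrev Co (L : Type) [Field L] (p : ℕ) (f : L[X]) : Type := integralClosure L[X] (Fn L p f)

/-- `e` is an automorphism of the ring of regular functions over the automorphism `g` of `L`, which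
fixes `x` and multiplies `y` by `c`. -/
def IsAuto {L : Type} [Field L] {p : ℕ} {f : L[X]} (g : L ≃+* L) (c : L)
    (e : Co L p f ≃+* Co L p f) : Prop :=
  (∀ t : L, e (algebraMap L _ t) = algebraMap L _ (g t)) ∧
    e (algebraMap L[X] _ X) = algebraMap L[X] _ X ∧
    ∀ y : Co L p f, (y : Fn L p f) = AdjoinRoot.root _ → e y = algebraMap L _ c * y

/-- An element of the p-adic Tate module of the Jacobian: points `pt n` with `pt 0 = 0` and
`p pt (n + 1) = pt n`. -/
structure Tate (p : ℕ) (O : Type) [CommRing O] where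
  pt : ℕ → J O
  zero : pt 0 = 0
  mul : ∀ n, p • pt (n + 1) = pt n

/-- Compatible roots of unity: `ξ n` is a primitive root of unity of order `p ^ n`. -/
structure IsRoots (p : ℕ) {L : Type} [Field L] (ξ : ℕ → L) : Prop where
  prim : ∀ n, IsPrimitiveRoot (ξ n) (p ^ n)
  pow : ∀ n, ξ (n + 1) ^ p = ξ n

/-- The pole order of a regular function: its number of zeros. -/
def ord (L : Type) [Field L] {O : Type} [CommRing O] [Algebra L O] (z : O) : ℕ :=
  Module.finrank L (O ⧸ Ideal.span {z})

/-- `z / x ^ r` has the value `1` at infinity. -/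
def IsMonic (L : Type) [Field L] {O : Type} [CommRing O] [Algebra L O] (x z : O) : Prop :=
  ∃ r : ℕ, z = x ^ r ∨ ord L (z - x ^ r) < ord L z

/-- `w` is the value at `(c, c')` of the Weil pairing on the classes killed by `n`: the classes
contain disjoint effective divisors `s` and `s'`, `n s` and `n s'` are the divisors of zeros of the
regular functions `a` and `b`, normalised at infinity, and `w = ± a(s') / b(s)`. -/
def IsWeil {L : Type} [Field L] {O : Type} [CommRing O] [Algebra L O] (x : O) (n : ℕ)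
    (c c' : J O) (w : L) : Prop :=
  ∃ (s s' : Multiset (MaximalSpectrum O)) (a b : O), Disjoint s s' ∧
    (s.map cl).sum = c ∧ (s'.map cl).sum = c' ∧ Ideal.span {a} = idl (n • s) ∧
    Ideal.span {b} = idl (n • s') ∧ IsMonic L x a ∧ IsMonic L x b ∧
    w = (-1) ^ (n * (Multiset.card s * Multiset.card s')) * (ev L a s' / ev L b s)

/-- The Weil pairing of two elements of the Tate module: the p-adic integer `z` with
`e_(p ^ n) (t n, u n) = (ξ n) ^ z`. -/
def pairing {L : Type} [Field L] {O : Type} [CommRing O] [Algebra L O] {p : ℕ} [Fact p.Prime]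
    (x : O) (ξ : ℕ → L) (t u : Tate p O) : ℤ_[p] :=
  if h : ∃ z : ℤ_[p], ∀ n, 1 ≤ n →
    IsWeil x (p ^ n) (t.pt n) (u.pt n) (ξ n ^ (PadicInt.toZModPow n z).val) then h.choose else 0

/-- The Tate module of the `n`-th power of the product of the Jacobians of the curves
`y ^ p = ∏ (x - a i) ^ (m s i)`, `i ∈ S s`. -/
abbrev Vec {K : Type} [Field K] (L : Type) [Field L] [Algebra K L] (p : ℕ) {ι σ : Type}
    (a : ι → K) (S : σ → Finset ι) (m : σ → ι → ℕ) (n : ℕ) : Type :=
  Fin n → ∀ s, Tate p (Co L p (eqn L a (S s) (m s)))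

variable {K : Type} [Field K] {L : Type} [Field L] [Algebra K L] {p : ℕ} [Fact p.Prime]
  {ι σ : Type} {a : ι → K} {S : σ → Finset ι} {m : σ → ι → ℕ} {n r : ℕ}

/-- `F` is additive in each variable and linear over the p-adic integers. -/
structure IsForm (F : (Fin r → Vec L p a S m n) → ℚ_[p]) : Prop where
  add : ∀ (i : Fin r) (v w w' : Fin r → Vec L p a S m n),
    (∀ l, l ≠ i → w l = v l ∧ w' l = v l) →
    (∀ b s k, (v i b s).pt k = (w i b s).pt k + (w' i b s).pt k) → F v = F w + F w'
  smul : ∀ (z : ℤ_[p]) (i : Fin r) (v w : Fin r → Vec L p a S m n), (∀ l, l ≠ i → w l = v l) →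
    (∀ b s k, (v i b s).pt k = (PadicInt.toZModPow k z).val • (w i b s).pt k) →
      F v = (z : ℚ_[p]) * F w

/-- `F` is multiplied by the `j`-th power of the cyclotomic character under a subgroup of finite
index of the Galois group. -/
def IsTate (j : ℕ) (F : (Fin r → Vec L p a S m n) → ℚ_[p]) : Prop :=
  ∃ U : Subgroup (L ≃ₐ[K] L), U.FiniteIndex ∧ ∀ g ∈ U,
    ∀ e : ∀ s, Co L p (eqn L a (S s) (m s)) ≃+* Co L p (eqn L a (S s) (m s)),
      (∀ s, IsAuto (g : L ≃+* L) 1 (e s)) → ∀ v w : Fin r → Vec L p a S m n,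
        (∀ i b s k, (w i b s).pt k = J.map (e s) ((v i b s).pt k)) →
          F w = (((cyclotomicCharacter L p (g : L ≃+* L) : ℤ_[p]) ^ j : ℤ_[p]) : ℚ_[p]) * F v

/-- `X` is an operator on the Tate module which is skew for the Weil pairing and commutes with the
automorphism `y ↦ ζ y` of the curve. -/
def IsSkew {f : L[X]} (ξ : ℕ → L) (X : Tate p (Co L p f) → Tate p (Co L p f)) : Prop :=
  (∀ t u, pairing (algebraMap L[X] _ Polynomial.X) ξ (X t) u +
    pairing (algebraMap L[X] _ Polynomial.X) ξ t (X u) = 0) ∧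
  ∀ e : Co L p f ≃+* Co L p f, IsAuto (RingEquiv.refl L) (ξ 1) e → ∀ t u : Tate p (Co L p f),
    (∀ k, u.pt k = J.map e (t.pt k)) → ∀ k, (X u).pt k = J.map e ((X t).pt k)

end Pool.Agent.PTate.Stm
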