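import Pool.Agent.PTate.TForm
import Pool.Agent.PTate.GalSum

/-!
# The action of automorphisms of the base field on the Tate module
-/

set_option autoImplicit false

noncomputable section

namespace Pool.Agent.PTate

open Polynomial
open scoped Classical

variable {k O : Type} [Field k] [CommRing O] [Algebra k O] {p : ℕ} {ζ : k}
  [IsDedekindDomain O] [IsAlgClosed k]

omit [IsDedekindDomain O] [IsAlgClosed k] in
private theorem tgal_S_comm (C : Cyc k O p ζ) (ε : O ≃+* O)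
    (hσ : ∀ z, ε (C.σ z) = C.σ (ε z)) (c : J O) : J.map ε (C.S c) = C.S (J.map ε c) := by
  have h1 : C.s.trans ε = ε.trans C.s := by
    ext z
    exact hσ z
  have h2 := J.map_trans C.s ε c
  rw [h1, J.map_trans] at h2
  exact h2.symm

omit [IsDedekindDomain O] [IsAlgClosed k] in
private theorem tgal_D_comm (C : Cyc k O p ζ) (ε : O ≃+* O)
    (hσ : ∀ z, ε (C.σ z) = C.σ (ε z)) (i : ℕ) (c : J O) :
    J.map ε (C.D^[i] c) = C.D^[i] (J.map ε c) := by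
  have h1 : Function.Semiconj (J.map ε) C.D C.D := fun c => by
    rw [C.D_apply, C.D_apply, map_sub, tgal_S_comm C ε hσ]
  exact (h1.iterate_right i) c

omit [IsDedekindDomain O] [IsAlgClosed k] in
private theorem tgal_nsmul (C : Cyc k O p ζ) (i n : ℕ) (c : J O) :
    C.D^[i] (n • c) = n • C.D^[i] c := by
  induction i generalizing c with
  | zero => rfl
  | succ i ih => rw [Function.iterate_succ_apply, Function.iterate_succ_apply, map_nsmul, ih]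

omit [IsDedekindDomain O] [IsAlgClosed k] in
private theorem tgal_one [Fact p.Prime] (t : TM p (J O)) :
    p • (t : ℕ → J O) 1 = 0 := by
  have h := TM.pow_smul t 1
  rwa [pow_one] at h

private theorem tgal_last (C : Cyc k O p ζ) [Fact p.Prime] (t : TM p (J O)) :
    C.D^[p - 1] ((t : ℕ → J O) 1) = 0 :=
  (C.smul_eq_zero_iff _).1 (tgal_one t)

private theorem tgal_fix (C : Cyc k O p ζ) [Fact p.Prime] (hp : p ≠ 2) (t : TM p (J O)) :
    ∃ n : MaximalSpectrum O → ℕ, C.D^[p - 2] ((t : ℕ → J O) 1) = ∑ P ∈ C.F, n P • cl P := by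
  refine C.exists_fixed hp ?_
  have h2 : p - 1 = (p - 2) + 1 := by
    have := (Fact.out : p.Prime).two_le
    omega
  have h1 := tgal_last C t
  rw [h2, Function.iterate_succ_apply', C.D_apply, sub_eq_zero] at h1
  exact h1.symm

/-- The pairing and an automorphism which respects the leading coefficients; `x` is the value of
the cyclotomic character. -/
theorem form_act (I : Infty k O) [Fact p.Prime] {ξ : ℕ → k} (hξ : IsRoots p ξ)
    {e : TM p (J O) →ₗ[ℤ_[p]] TM p (J O) →ₗ[ℤ_[p]] ℤ_[p]}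
    (he : ∀ (t u : TM p (J O)) (n : ℕ), 1 ≤ n →
      weil I (p ^ n) ((t : ℕ → J O) n) ((u : ℕ → J O) n) =
        ξ n ^ (PadicInt.toZModPow n (e t u)).val) (ε : O ≃+* O) (g : k ≃+* k)
    (hg : ∀ c, ε (algebraMap k O c) = algebraMap k O (g c))
    (hl : ∀ z, p ∣ I.ord z → I.lc (ε z) = g (I.lc z)) {x : ℤ_[p]}
    (hx : ∀ n, 1 ≤ n → g (ξ n) = ξ n ^ (PadicInt.toZModPow n x).val) (t u : TM p (J O)) :
    e (TM.map (J.map ε) t) (TM.map (J.map ε) u) = x * e t u := by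
  refine eq_of_roots hξ fun n hn => ?_
  rw [← he _ _ n hn, TM.map_apply, TM.map_apply]
  have hl' : ∀ z, p ^ n ∣ I.ord z → I.lc (ε z) = g (I.lc z) := fun z hz =>
    hl z ((dvd_pow_self p (by omega)).trans hz)
  rw [weil_act I ε g hg hl' (TM.pow_smul t n) (TM.pow_smul u n), he t u n hn, map_pow, hx n hn,
    ← pow_mul, map_mul, ZMod.val_mul]
  exact pow_eq_pow_mod _ (hξ.prim n).pow_eq_one

/-- An automorphism acts trivially modulo `1 - z`. -/
theorem Cyc.T_mod (C : Cyc k O p ζ) [Fact p.Prime] (hp : p ≠ 2) (ε : O ≃+* O) (g : k ≃+* k)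
    (hg : ∀ c, ε (algebraMap k O c) = algebraMap k O (g c)) (hx : ε C.x = C.x)
    (hσ : ∀ z, ε (C.σ z) = C.σ (ε z)) (hgx : ∀ P ∈ C.F, g (C.xc P) = C.xc P)
    (t : TM p (J O)) : ∃ u, TM.map (J.map ε) t = t + lam C.z u := by
  have hp2 := (Fact.out : p.Prime).two_le
  have key : C.D^[p - 1 - 1] (((TM.map (J.map ε) t - t : TM p (J O)) : ℕ → J O) 1) = 0 := by
    have h1 : ((TM.map (J.map ε) t - t : TM p (J O)) : ℕ → J O) 1 =
        J.map ε ((t : ℕ → J O) 1) - (t : ℕ → J O) 1 := rfl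
    have h2 : p - 1 - 1 = p - 2 := by omega
    rw [h1, iterate_map_sub, ← tgal_D_comm C ε hσ, h2]
    obtain ⟨n, hn⟩ := tgal_fix C hp t
    rw [hn, map_sum, sub_eq_zero]
    refine Finset.sum_congr rfl fun P hP => ?_
    rw [map_nsmul, J.map_cl, C.gal_fixed ε g hg hx hgx hP]
  obtain ⟨u, hu⟩ := (C.lam_dvd hp (by omega) _).1 key
  refine ⟨u, ?_⟩
  rw [pow_one] at hu
  rw [← hu]
  abel

/-- the value of the form at the difference of two fixed points, modulo `p` -/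
private theorem tgal_value (C : Cyc k O p ζ) [Fact p.Prime] (hp : p ≠ 2) {ξ : ℕ → k}
    (hξ : IsRoots p ξ) (hξ1 : ξ 1 = ζ)
    {e : TM p (J O) →ₗ[ℤ_[p]] TM p (J O) →ₗ[ℤ_[p]] ℤ_[p]}
    (he : ∀ (t u : TM p (J O)) (n : ℕ), 1 ≤ n →
      weil C.I (p ^ n) ((t : ℕ → J O) n) ((u : ℕ → J O) n) =
        ξ n ^ (PadicInt.toZModPow n (e t u)).val) {P : MaximalSpectrum O → TM p (J O)}
    (hP : ∀ Q ∈ C.F, C.D^[p - 2] ((P Q : ℕ → J O) 1) = cl Q)
    {P₁ P₂ : MaximalSpectrum O} (h₁ : P₁ ∈ C.F) (h₂ : P₂ ∈ C.F) (h₁₂ : P₁ ≠ P₂)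
    {m₁ m₂ : ℕ} (hm₁ : (C.m P₁ * m₁) % p = 1) (hm₂ : (C.m P₂ * m₂) % p = 1)
    {c : MaximalSpectrum O → ℕ} {t u : TM p (J O)}
    (htu : t = ∑ Q ∈ C.F, c Q • P Q + lam C.z u) :
    ∃ w : ℤ_[p], e ((lam C.z ^ (p - 2)) t) (P P₁ - P P₂) = c P₁ * m₁ - c P₂ * m₂ + p * w := by
  have hp2 := (Fact.out : p.Prime).two_le
  have hp1 : 1 < p := by omega
  have hpair : ∀ Q ∈ C.F, ∃ w : ℤ_[p], e ((lam C.z ^ (p - 2)) (P Q)) (P P₁ - P P₂) =
      (if Q = P₁ then (m₁ : ℤ_[p]) else 0) - (if Q = P₂ then (m₂ : ℤ_[p]) else 0) + p * w := by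
    intro Q hQ
    obtain ⟨m', hm'⟩ : ∃ m', (C.m Q * m') % p = 1 ∧ (Q = P₁ → m' = m₁) ∧ (Q = P₂ → m' = m₂) := by
      by_cases hQ1 : Q = P₁
      · exact ⟨m₁, by rw [hQ1]; exact hm₁, fun _ => rfl, fun h => absurd (hQ1.symm.trans h) h₁₂⟩
      · by_cases hQ2 : Q = P₂
        · exact ⟨m₂, by rw [hQ2]; exact hm₂, fun h => absurd h hQ1, fun _ => rfl⟩
        · obtain ⟨m', -, hm'⟩ := Nat.exists_mul_mod_eq_one_of_coprime (C.cop Q hQ) hp1
          exact ⟨m', hm', fun h => absurd h hQ1, fun h => absurd h hQ2⟩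
    obtain ⟨hm', hq1, hq2⟩ := hm'
    obtain ⟨w1, hw1⟩ := C.form_P hp hξ hξ1 he hP hQ h₁ hm'
    obtain ⟨w2, hw2⟩ := C.form_P hp hξ hξ1 he hP hQ h₂ hm'
    refine ⟨w1 - w2, ?_⟩
    rw [map_sub, hw1, hw2]
    by_cases hQ1 : Q = P₁
    · have hQ2 : Q ≠ P₂ := fun h => h₁₂ (hQ1.symm.trans h)
      rw [if_pos hQ1, if_neg hQ2, if_pos hQ1, if_neg hQ2, hq1 hQ1]
      ring
    · by_cases hQ2 : Q = P₂
      · rw [if_neg hQ1, if_pos hQ2, if_neg hQ1, if_pos hQ2, hq2 hQ2]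
        ring
      · rw [if_neg hQ1, if_neg hQ2, if_neg hQ1, if_neg hQ2]
        ring
  choose! w hw using hpair
  obtain ⟨u', hu'⟩ : ∃ u' : TM p (J O), (lam C.z ^ (p - 1)) u = (p : ℤ_[p]) ^ 1 • u' := by
    refine (TM.apply_eq_zero_iff _ 1).1 ?_
    rw [C.lam_pow_apply]
    exact tgal_last C u
  let f : TM p (J O) →ₗ[ℤ_[p]] ℤ_[p] := e.flip (P P₁ - P P₂)
  have hf : ∀ x, e x (P P₁ - P P₂) = f x := fun x => rfl
  have h3 : (lam C.z ^ (p - 2)) t =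
      ∑ Q ∈ C.F, c Q • (lam C.z ^ (p - 2)) (P Q) + (lam C.z ^ (p - 1)) u := by
    have h4 : p - 1 = (p - 2) + 1 := by omega
    rw [h4, pow_succ, Module.End.mul_apply, htu, map_add, map_sum]
    congr 1
    exact Finset.sum_congr rfl fun Q _ => map_nsmul _ _ _
  refine ⟨∑ Q ∈ C.F, (c Q : ℤ_[p]) * w Q + f u', ?_⟩
  rw [hf, h3, map_add, map_sum, hu', map_smul]
  have h5 : ∀ Q ∈ C.F, f (c Q • (lam C.z ^ (p - 2)) (P Q)) =
      (if Q = P₁ then (c P₁ : ℤ_[p]) * m₁ else 0) - (if Q = P₂ then (c P₂ : ℤ_[p]) * m₂ else 0) +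
        p * ((c Q : ℤ_[p]) * w Q) := by
    intro Q hQ
    rw [map_nsmul, ← hf, hw Q hQ, nsmul_eq_mul]
    by_cases hQ1 : Q = P₁
    · have hQ2 : Q ≠ P₂ := fun h => h₁₂ (hQ1.symm.trans h)
      rw [if_pos hQ1, if_neg hQ2, if_pos hQ1, if_neg hQ2, hQ1]
      ring
    · by_cases hQ2 : Q = P₂
      · rw [if_neg hQ1, if_pos hQ2, if_neg hQ1, if_pos hQ2, hQ2]
        ring
      · rw [if_neg hQ1, if_neg hQ2, if_neg hQ1, if_neg hQ2]
        ring
  rw [Finset.sum_congr rfl h5, Finset.sum_add_distrib, Finset.sum_sub_distrib,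
    Finset.sum_ite_eq' , Finset.sum_ite_eq', if_pos h₁, if_pos h₂, ← Finset.mul_sum, pow_one,
    smul_eq_mul]
  ring

/-- The action modulo `(1 - z) ^ 2` of an automorphism `ε` over `g`, if `g` multiplies the root of
`x(P₁) - x(P₂)` by `ζ` and fixes the other roots. -/
theorem Cyc.T_edge (C : Cyc k O p ζ) [Fact p.Prime] (hp : p ≠ 2) {ξ : ℕ → k}
    (hξ : IsRoots p ξ) (hξ1 : ξ 1 = ζ)
    {e : TM p (J O) →ₗ[ℤ_[p]] TM p (J O) →ₗ[ℤ_[p]] ℤ_[p]}
    (he : ∀ (t u : TM p (J O)) (n : ℕ), 1 ≤ n →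
      weil C.I (p ^ n) ((t : ℕ → J O) n) ((u : ℕ → J O) n) =
        ξ n ^ (PadicInt.toZModPow n (e t u)).val) {P : MaximalSpectrum O → TM p (J O)}
    (hP : ∀ Q ∈ C.F, C.D^[p - 2] ((P Q : ℕ → J O) 1) = cl Q)
    (hgen : ∀ t : TM p (J O), ∃ (c : MaximalSpectrum O → ℕ) (u : TM p (J O)),
      t = ∑ Q ∈ C.F, c Q • P Q + lam C.z u) (ε : O ≃+* O) (g : k ≃+* k)
    (hg : ∀ c, ε (algebraMap k O c) = algebraMap k O (g c)) (hx : ε C.x = C.x)
    (hy : ε C.y = C.y) (hσ : ∀ z, ε (C.σ z) = C.σ (ε z)) (hgx : ∀ P ∈ C.F, g (C.xc P) = C.xc P)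
    (r : MaximalSpectrum O → MaximalSpectrum O → k)
    (hr : ∀ P ∈ C.F, ∀ Q ∈ C.F, r P Q ^ p = C.xc P - C.xc Q) {P₁ P₂ : MaximalSpectrum O}
    (h₁ : P₁ ∈ C.F) (h₂ : P₂ ∈ C.F) (h₁₂ : P₁ ≠ P₂)
    (hgr : ∀ P ∈ C.F, ∀ Q ∈ C.F, g (r P Q) =
      if (P = P₁ ∧ Q = P₂) ∨ (P = P₂ ∧ Q = P₁) then ζ * r P Q else r P Q) (t : TM p (J O)) :
    ∃ u, TM.map (J.map ε) t = t +
      lam C.z ((C.m P₁ * C.m P₂) • nop p C.z e (P P₁ - P P₂) t) + (lam C.z ^ 2) u := by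
  have hp2 := (Fact.out : p.Prime).two_le
  have hp3 : 3 ≤ p := by omega
  have hp1 : 1 < p := by omega
  obtain ⟨c, u, htu⟩ := hgen t
  obtain ⟨m₁, -, hm₁⟩ := Nat.exists_mul_mod_eq_one_of_coprime (C.cop P₁ h₁) hp1
  obtain ⟨m₂, -, hm₂⟩ := Nat.exists_mul_mod_eq_one_of_coprime (C.cop P₂ h₂) hp1
  obtain ⟨w, hw⟩ := tgal_value C hp hξ hξ1 he hP h₁ h₂ h₁₂ hm₁ hm₂ htu
  set N : ℕ := (PadicInt.toZModPow 1 (e ((lam C.z ^ (p - 2)) t) (P P₁ - P P₂))).val with hN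
  -- the first component
  have hD : C.D^[p - 2] ((t : ℕ → J O) 1) = ∑ Q ∈ C.F, c Q • cl Q := by
    have h4 : C.D^[p - 2] ((t : ℕ → J O) 1) = ((lam C.z ^ (p - 2)) t : ℕ → J O) 1 :=
      (C.lam_pow_apply t _ _).symm
    have h5 : p - 1 = (p - 2) + 1 := by omega
    have h6 : (lam C.z ^ (p - 2)) t =
        ∑ Q ∈ C.F, c Q • (lam C.z ^ (p - 2)) (P Q) + (lam C.z ^ (p - 1)) u := by
      rw [h5, pow_succ, Module.End.mul_apply, htu, map_add, map_sum]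
      congr 1
      exact Finset.sum_congr rfl fun Q _ => map_nsmul _ _ _
    rw [h4, h6]
    have h7 : (((lam C.z ^ (p - 1)) u : TM p (J O)) : ℕ → J O) 1 = 0 := by
      rw [C.lam_pow_apply]
      exact tgal_last C u
    have h8 : ∀ Q, (((lam C.z ^ (p - 2)) (P Q) : TM p (J O)) : ℕ → J O) 1 =
        C.D^[p - 2] ((P Q : ℕ → J O) 1) := fun Q => C.lam_pow_apply _ _ _
    rw [AddSubgroup.coe_add, Pi.add_apply, h7, add_zero, AddSubgroup.val_finsetSum,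
      Finset.sum_apply]
    refine Finset.sum_congr rfl fun Q hQ => ?_
    rw [AddSubgroup.coe_nsmul, Pi.smul_apply, h8, hP Q hQ]
  set κ : J O := cl P₁ - cl P₂ with hκ
  have hpκ : p • κ = 0 := by
    rw [hκ, nsmul_sub, C.nsmul_cl h₁, C.nsmul_cl h₂, sub_zero]
  -- the congruence
  have hcong : (p : ℤ) ∣ (c P₁ : ℤ) * C.m P₂ - c P₂ * C.m P₁ - C.m P₁ * C.m P₂ * N := by
    have g0 : ((p : ℕ) : ZMod (p ^ 1)) = 0 := by
      have := ZMod.natCast_self (p ^ 1)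
      simpa using this
    have g1 : (N : ZMod (p ^ 1)) = (c P₁ : ZMod (p ^ 1)) * m₁ - c P₂ * m₂ := by
      rw [hN, ZMod.natCast_zmod_val, hw, map_add, map_sub, map_mul, map_mul, map_mul, map_natCast,
        map_natCast, map_natCast, map_natCast, map_natCast, g0, zero_mul, add_zero]
    have g2 : ((C.m P₁ : ℕ) : ZMod (p ^ 1)) * m₁ = 1 := by
      have g3 : ((C.m P₁ * m₁ : ℕ) : ZMod (p ^ 1)) = ((1 : ℕ) : ZMod (p ^ 1)) := by
        rw [ZMod.natCast_eq_natCast_iff', pow_one, hm₁, Nat.mod_eq_of_lt hp1]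
      push_cast at g3
      exact g3
    have g4 : ((C.m P₂ : ℕ) : ZMod (p ^ 1)) * m₂ = 1 := by
      have g3 : ((C.m P₂ * m₂ : ℕ) : ZMod (p ^ 1)) = ((1 : ℕ) : ZMod (p ^ 1)) := by
        rw [ZMod.natCast_eq_natCast_iff', pow_one, hm₂, Nat.mod_eq_of_lt hp1]
      push_cast at g3
      exact g3
    have g5 : (((c P₁ : ℤ) * C.m P₂ - c P₂ * C.m P₁ - C.m P₁ * C.m P₂ * N : ℤ) :
        ZMod (p ^ 1)) = 0 := by
      push_cast
      rw [g1]
      linear_combination (-(c P₁ : ZMod (p ^ 1)) * C.m P₂) * g2 + (c P₂ * C.m P₁) * g4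
    have g6 := (ZMod.intCast_zmod_eq_zero_iff_dvd _ _).1 g5
    simpa using g6
  have hfin : c P₁ • C.m P₂ • κ - c P₂ • C.m P₁ • κ - (C.m P₁ * C.m P₂) • N • κ = 0 := by
    obtain ⟨q, hq⟩ := hcong
    have g7 : ((c P₁ : ℤ) * C.m P₂ - c P₂ * C.m P₁ - C.m P₁ * C.m P₂ * N) • κ = 0 := by
      rw [hq, mul_comm, mul_smul, natCast_zsmul, hpκ, smul_zero]
    rw [← g7, sub_smul, sub_smul]
    simp only [mul_smul, natCast_zsmul]
  -- the action
  have key : C.D^[p - 1 - 2] (((TM.map (J.map ε) t - (t +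
      lam C.z ((C.m P₁ * C.m P₂) • nop p C.z e (P P₁ - P P₂) t)) : TM p (J O)) : ℕ → J O) 1) =
      0 := by
    have h1 : ((TM.map (J.map ε) t - (t +
        lam C.z ((C.m P₁ * C.m P₂) • nop p C.z e (P P₁ - P P₂) t)) : TM p (J O)) : ℕ → J O) 1 =
        J.map ε ((t : ℕ → J O) 1) - ((t : ℕ → J O) 1 + C.D ((C.m P₁ * C.m P₂) •
          (N • ((P P₁ : ℕ → J O) 1 - (P P₂ : ℕ → J O) 1)))) := rfl
    have h2 : p - 2 = (p - 1 - 2) + 1 := by omega
    rw [h1, iterate_map_sub, iterate_map_add, ← tgal_D_comm C ε hσ, ← Function.iterate_succ_apply,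
      ← Nat.add_one, ← h2, tgal_nsmul, tgal_nsmul, iterate_map_sub, hP _ h₁, hP _ h₂, ← hκ]
    rw [h2, Function.iterate_succ_apply', C.D_apply] at hD
    have h3 := C.gal_sum hp ε g hg hx hy hσ hgx r
      (fun P Q => if (P = P₁ ∧ Q = P₂) ∨ (P = P₂ ∧ Q = P₁) then 1 else 0) hr
      (fun P Q => by
        have : ((P = P₁ ∧ Q = P₂) ∨ (P = P₂ ∧ Q = P₁)) ↔
            ((Q = P₁ ∧ P = P₂) ∨ (Q = P₂ ∧ P = P₁)) := by tauto
        simp only [this])
      (fun P hP Q hQ => by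
        rw [hgr P hP Q hQ]
        split_ifs
        · rw [pow_one]
        · rw [pow_zero, one_mul]) hD
    have h4 : ∀ P ∈ C.F, c P • ∑ Q ∈ C.F.erase P,
        (C.m Q * if (P = P₁ ∧ Q = P₂) ∨ (P = P₂ ∧ Q = P₁) then 1 else 0) • (cl P - cl Q) =
        (if P = P₁ then c P₁ • C.m P₂ • κ else 0) + (if P = P₂ then -(c P₂ • C.m P₁ • κ) else 0) := by
      intro P hP
      by_cases hP1 : P = P₁
      · have hP2 : P ≠ P₂ := fun h => h₁₂ (hP1.symm.trans h)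
        rw [if_pos hP1, if_neg hP2, add_zero, hP1, Finset.sum_eq_single P₂]
        · rw [if_pos (Or.inl ⟨rfl, rfl⟩), mul_one]
        · intro Q _ hQ2
          rw [if_neg, mul_zero]
          · exact zero_nsmul _
          · rintro (⟨-, h⟩ | ⟨h, -⟩)
            · exact hQ2 h
            · exact h₁₂ h
        · intro h
          exact absurd (Finset.mem_erase.2 ⟨h₁₂.symm, h₂⟩) h
      · by_cases hP2 : P = P₂
        · rw [if_neg hP1, if_pos hP2, zero_add, hP2, Finset.sum_eq_single P₁]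
          · rw [if_pos (Or.inr ⟨rfl, rfl⟩), mul_one, ← neg_sub (cl P₁) (cl P₂), neg_nsmul, neg_nsmul]
          · intro Q _ hQ1
            rw [if_neg, mul_zero]
            · exact zero_nsmul _
            · rintro (⟨h, -⟩ | ⟨-, h⟩)
              · exact h₁₂ h.symm
              · exact hQ1 h
          · intro h
            exact absurd (Finset.mem_erase.2 ⟨h₁₂, h₁⟩) h
        · rw [if_neg hP1, if_neg hP2, add_zero, Finset.sum_eq_zero]
          · exact nsmul_zero _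
          · intro Q _
            rw [if_neg, mul_zero]
            · exact zero_nsmul _
            · rintro (⟨h, -⟩ | ⟨h, -⟩)
              · exact hP1 h
              · exact hP2 h
    rw [Finset.sum_congr rfl h4, Finset.sum_add_distrib, Finset.sum_ite_eq', Finset.sum_ite_eq',
      if_pos h₁, if_pos h₂, ← sub_eq_add_neg] at h3
    rw [← hfin, ← h3]
    abel
  obtain ⟨v, hv⟩ := (C.lam_dvd hp (by omega) _).1 key
  refine ⟨v, ?_⟩
  rw [← hv]
  abel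

/-- The action modulo `(1 - z) ^ 2`, if `g` fixes all roots. -/
theorem Cyc.T_triv (C : Cyc k O p ζ) [Fact p.Prime] (hp : p ≠ 2) (ε : O ≃+* O) (g : k ≃+* k)
    (hg : ∀ c, ε (algebraMap k O c) = algebraMap k O (g c)) (hx : ε C.x = C.x)
    (hy : ε C.y = C.y) (hσ : ∀ z, ε (C.σ z) = C.σ (ε z)) (hgx : ∀ P ∈ C.F, g (C.xc P) = C.xc P)
    (r : MaximalSpectrum O → MaximalSpectrum O → k)
    (hr : ∀ P ∈ C.F, ∀ Q ∈ C.F, r P Q ^ p = C.xc P - C.xc Q)
    (hgr : ∀ P ∈ C.F, ∀ Q ∈ C.F, g (r P Q) = r P Q) (t : TM p (J O)) :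
    ∃ u, TM.map (J.map ε) t = t + (lam C.z ^ 2) u := by
  have hp2 := (Fact.out : p.Prime).two_le
  have hp3 : 3 ≤ p := by omega
  have key : C.D^[p - 1 - 2] (((TM.map (J.map ε) t - t : TM p (J O)) : ℕ → J O) 1) = 0 := by
    have h1 : ((TM.map (J.map ε) t - t : TM p (J O)) : ℕ → J O) 1 =
        J.map ε ((t : ℕ → J O) 1) - (t : ℕ → J O) 1 := rfl
    rw [h1, iterate_map_sub, ← tgal_D_comm C ε hσ]
    obtain ⟨n, hn⟩ := tgal_fix C hp t
    have h2 : p - 2 = (p - 1 - 2) + 1 := by omega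
    rw [h2, Function.iterate_succ_apply', C.D_apply] at hn
    rw [C.gal_sum hp ε g hg hx hy hσ hgx r (fun _ _ => 0) hr (fun _ _ => rfl)
      (fun P hP Q hQ => by rw [pow_zero, one_mul, hgr P hP Q hQ]) hn]
    refine Finset.sum_eq_zero fun P _ => ?_
    rw [Finset.sum_eq_zero, smul_zero]
    intro Q _
    rw [mul_zero]
    exact zero_nsmul _
  obtain ⟨u, hu⟩ := (C.lam_dvd hp (by omega) _).1 key
  refine ⟨u, ?_⟩
  rw [← hu]
  abel

end Pool.Agent.PTate
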