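import Pool.Agent.PTate.Build
import Pool.Agent.PTate.ModelAut
import Pool.Agent.PTate.ModelInf
import Pool.Agent.PTate.OrdMap
import Pool.Agent.PTate.TGal
import Pool.Agent.PTate.Stm

/-!
# The Galois representations of the coverings
-/

set_option autoImplicit false

noncomputable section

namespace Pool.Agent.PTate

open Polynomial
open scoped Classical

variable {K : Type} [Field K] {L : Type} [Field L] [Algebra K L] {p : ℕ} [Fact p.Prime]
  {ι σ : Type}

/-- The Tate module of the covering `y ^ p = ∏ (x - a i) ^ (m i)`. -/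
abbrev Tm (L : Type) [Field L] [Algebra K L] (p : ℕ) [Fact p.Prime] (a : ι → K) (S : Finset ι)
    (m : ι → ℕ) : Type := TM p (J (Co L p (Stm.eqn L a S m)))

/-- The cyclotomic character. -/
def chi (L : Type) [Field L] [Algebra K L] (p : ℕ) [Fact p.Prime] : (L ≃ₐ[K] L) →* ℤ_[p]ˣ :=
  (cyclotomicCharacter L p).comp (MulSemiringAction.toRingAut (L ≃ₐ[K] L) L)

theorem eqn_map (a : ι → K) (S : Finset ι) (m : ι → ℕ) (g : L ≃ₐ[K] L) :
    (Stm.eqn L a S m).map ((g : L ≃+* L) : L →+* L) = Stm.eqn L a S m := by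
  unfold Stm.eqn
  rw [Polynomial.map_prod]
  refine Finset.prod_congr rfl fun i _ => ?_
  rw [Polynomial.map_pow, Polynomial.map_sub, Polynomial.map_X, Polynomial.map_C]
  have h : ((g : L ≃+* L) : L →+* L) (algebraMap K L (a i)) = algebraMap K L (a i) :=
    g.commutes (a i)
  rw [h]

omit [Fact p.Prime] in
private theorem geoA_monic (a : ι → K) (S : Finset ι) (m : ι → ℕ) : (Stm.eqn L a S m).Monic :=
  monic_prod_of_monic _ _ fun i _ => (monic_X_sub_C _).pow _

private theorem geoA_deg (a : ι → K) (S : Finset ι) (m : ι → ℕ) :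
    (Stm.eqn L a S m).natDegree = ∑ i ∈ S, m i := by
  unfold Stm.eqn
  rw [natDegree_prod_of_monic _ _ fun _ _ => (monic_X_sub_C _).pow _]
  refine Finset.sum_congr rfl fun i _ => ?_
  rw [(monic_X_sub_C (algebraMap K L (a i))).natDegree_pow, natDegree_X_sub_C, mul_one]

private theorem geoA_ne {ζ : L} (hζ : IsPrimitiveRoot ζ p) : (p : L) ≠ 0 := by
  have : NeZero p := ⟨(Fact.out : p.Prime).ne_zero⟩
  exact (hζ.neZero' (n := p)).out

/-- the covering -/
theorem exists_cyc [IsAlgClosed L] {ζ : L} (hζ : IsPrimitiveRoot ζ p) (a : ι → K)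
    {S : Finset ι} {m : ι → ℕ} (ha : Set.InjOn a S) (hm : ∀ i ∈ S, (m i).Coprime p)
    (hM : (∑ i ∈ S, m i).Coprime p) :
    ∃ (_ : IsDedekindDomain (Co L p (Stm.eqn L a S m)))
      (C : Cyc L (Co L p (Stm.eqn L a S m)) p ζ),
      C.x = Co.x L p _ ∧ C.y = Co.y L p _ ∧ ∃ P : ι → MaximalSpectrum (Co L p (Stm.eqn L a S m)),
        C.F = S.image P ∧ Set.InjOn P S ∧
          ∀ i ∈ S, C.m (P i) = m i ∧ C.xc (P i) = algebraMap K L (a i) := by
  have hdeg : (Stm.eqn L a S m).natDegree.Coprime p := by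
    rw [geoA_deg]
    exact hM
  have hD : IsDedekindDomain (Co L p (Stm.eqn L a S m)) := isDedekind_Co hdeg (geoA_ne hζ)
  obtain ⟨I, h1, h2, h3, h4⟩ := exists_infty hdeg hζ (geoA_monic a S m)
  obtain ⟨τ, t1, t2, t3, t4⟩ := exists_σ hdeg hζ
  obtain ⟨C, -, c2, c3, -, P, p1, p2, p3⟩ := exists_cyc_of I hζ h1 h2 h4 (by rw [h3]; exact hdeg)
    τ t1 t2 t3 t4 S (fun i => algebraMap K L (a i)) m
    (fun i hi j hj hij => ha hi hj ((algebraMap K L).injective hij)) hm (by
      rw [Co.y_pow]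
      refine (map_prod (algebraMap L[X] (Co L p (Stm.eqn L a S m)))
        (fun i => (X - C (algebraMap K L (a i))) ^ m i) S).trans ?_
      refine Finset.prod_congr rfl fun i _ => ?_
      rw [map_pow, map_sub]
      rfl)
  exact ⟨hD, C, c2, c3, P, p1, p2, p3⟩

/-- the representation of the Galois group -/
theorem exists_rho [IsAlgClosed L] {ζ : L} (hζ : IsPrimitiveRoot ζ p) (a : ι → K)
    {S : Finset ι} {m : ι → ℕ} (hM : (∑ i ∈ S, m i).Coprime p) :
    ∃ ρ : (L ≃ₐ[K] L) →* Module.End ℤ_[p] (Tm L p a S m), ∀ g,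
      ∃ e : Co L p (Stm.eqn L a S m) ≃+* Co L p (Stm.eqn L a S m),
        (∀ c, e (algebraMap L _ c) = algebraMap L _ (g c)) ∧ e (Co.x L p _) = Co.x L p _ ∧
          e (Co.y L p _) = Co.y L p _ ∧ ρ g = TM.map (J.map e) := by
  have hdeg : (Stm.eqn L a S m).natDegree.Coprime p := by
    rw [geoA_deg]
    exact hM
  have hex := fun g : L ≃ₐ[K] L =>
    exists_auto (p := p) (f := Stm.eqn L a S m) (g : L ≃+* L) (eqn_map a S m g)
  choose e e1 e2 e3 using hex
  have hone : e 1 = RingEquiv.refl _ :=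
    auto_unique hdeg (g := RingEquiv.refl L) (e1 1) (e2 1) (e3 1) (fun _ => rfl) rfl rfl
  have hmul : ∀ g h : L ≃ₐ[K] L, e (g * h) = (e h).trans (e g) := by
    intro g h
    refine auto_unique hdeg (g := ((g * h : L ≃ₐ[K] L) : L ≃+* L)) (e1 _) (e2 _) (e3 _) ?_ ?_ ?_
    · intro c
      show e g (e h (algebraMap L _ c)) = _
      rw [e1, e1]
      rfl
    · show e g (e h (Co.x L p _)) = _
      rw [e2, e2]
    · show e g (e h (Co.y L p _)) = _
      rw [e3, e3]
  refine ⟨{ toFun := fun g => TM.map (J.map (e g)), map_one' := ?_, map_mul' := ?_ }, fun g =>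
    ⟨e g, e1 g, e2 g, e3 g, rfl⟩⟩
  · have h1 : J.map (RingEquiv.refl (Co L p (Stm.eqn L a S m))) = AddMonoidHom.id _ :=
      AddMonoidHom.ext fun c => J.map_refl c
    rw [hone, h1]
    exact TM.map_id
  · intro g h
    have h1 : J.map ((e h).trans (e g)) = (J.map (e g)).comp (J.map (e h)) :=
      AddMonoidHom.ext fun c => J.map_trans (e h) (e g) c
    rw [hmul, h1]
    exact TM.map_comp _ _

end Pool.Agent.PTate
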