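import Pool.Agent.PTate.RedForms

/-!
# Elements of the group congruent to one
-/

set_option autoImplicit false

noncomputable section

namespace Pool.Agent.PTate

open scoped Classical

variable {p : ℕ} [Fact p.Prime] {σ ι G : Type} [Group G] {M : σ → Type}
  [∀ s, AddCommGroup (M s)] [∀ s, Module ℤ_[p] (M s)] [∀ s, Module.IsTorsionFree ℤ_[p] (M s)]

private theorem grpGen_edge {N : Type} [AddCommGroup N] [Module ℤ_[p] N]
    [Module.IsTorsionFree ℤ_[p] N] {z : Module.End ℤ_[p] N} (hp : p ≠ 2)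
    (hz : ∀ x, ∑ i ∈ Finset.range p, (z ^ i) x = 0)
    {e : N →ₗ[ℤ_[p]] N →ₗ[ℤ_[p]] ℤ_[p]} (hi : ∀ x y, e (z x) (z y) = e x y)
    (hs : ∀ x y, e x y = -e y x)
    {B : Vr z →ₗ[ZMod p] Vr z →ₗ[ZMod p] ZMod p} (hB : RedForm z e B)
    {r : Module.End ℤ_[p] N} (hr : ∀ x, r (z x) = z (r x)) (c : Prop) [Decidable c] (a : ℕ)
    (v : N) (h : ∀ x, ∃ y, r x = x + (if c then lam z (a • nop p z e v x) else 0) +
      (lam z ^ 2) y) :
    ∃ A, Red z A (if c then (a : ZMod p) • ten B (mk z v) (mk z v) else 0) ∧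
      r = 1 + lam z ^ 1 * A := by
  have hY : ∀ x, (r - 1) (z x) = z ((r - 1) x) := by
    intro x
    simp only [LinearMap.sub_apply, Module.End.one_apply, hr, map_sub]
  obtain ⟨A, hA, hrA⟩ := exists_div hz hY (k := 1) (fun x => by
    obtain ⟨y, hy⟩ := h x
    refine ⟨(if c then a • nop p z e v x else 0) + lam z y, ?_⟩
    rw [LinearMap.sub_apply, Module.End.one_apply, hy, pow_one, pow_two, Module.End.mul_apply,
      map_add]
    split_ifs
    · abel
    · rw [map_zero]; abel)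
  refine ⟨A, ⟨hA, fun x => ?_⟩, ?_⟩
  · obtain ⟨y, hy⟩ := h x
    have h1 : A x = (if c then a • nop p z e v x else 0) + lam z y := by
      refine lam_injective hz ?_
      have h2 : (r - 1) x = lam z (A x) := by
        rw [hrA, pow_one, Module.End.mul_apply]
      rw [← h2, LinearMap.sub_apply, Module.End.one_apply, hy, pow_two, Module.End.mul_apply,
        map_add]
      split_ifs
      · abel
      · rw [map_zero]; abel
    have h3 : mk z (lam z y) = 0 := (mk_eq_zero hz _).2 ⟨y, rfl⟩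
    rw [h1, map_add, h3, add_zero]
    split_ifs
    · rw [LinearMap.smul_apply, ten, LinearMap.smulRight_apply, RedForm.symm hp hz hi hs hB,
        hB, map_nsmul, nop, mk_smul, Nat.cast_smul_eq_nsmul]
    · rw [LinearMap.zero_apply, map_zero]
  · rw [← hrA]; abel

private theorem grpGen_zero {N : Type} [AddCommGroup N] [Module ℤ_[p] N]
    {z : Module.End ℤ_[p] N} : Red z (0 : Module.End ℤ_[p] N) 0 :=
  ⟨fun x => by simp, fun x => by simp⟩

/-- the elements of the graded Lie algebra are leading terms of elements of the group -/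
theorem exists_gen (hp : p ≠ 2) {S : σ → Finset ι} {m : σ → ι → ℕ}
    {z : ∀ s, Module.End ℤ_[p] (M s)} {e : ∀ s, M s →ₗ[ℤ_[p]] M s →ₗ[ℤ_[p]] ℤ_[p]}
    {P : ∀ s, ι → M s} {adj : ι → ι → Prop} {ρ : ∀ s, G →* Module.End ℤ_[p] (M s)}
    {χ : G →* ℤ_[p]ˣ} (h : RepP S m z e P adj ρ χ)
    {B : ∀ s, Vr (z s) →ₗ[ZMod p] Vr (z s) →ₗ[ZMod p] ZMod p}
    (hB : ∀ s, RedForm (z s) (e s) (B s)) {k : ℕ} {X : ∀ s, Module.End (ZMod p) (Vr (z s))}
    (hX : Gen S (fun s i => (m s i : ZMod p)) B (fun s i => mk (z s) (P s i)) adj k X) :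
    ∃ g : G, (2 ≤ k → χ g = 1) ∧
      ∀ s, ∃ A, Red (z s) A (X s) ∧ ρ s g = 1 + lam (z s) ^ k * A := by
  have key : 1 ≤ k ∧ ∃ g : G, (2 ≤ k → χ g = 1) ∧
      ∀ s, ∃ A, Red (z s) A (X s) ∧ ρ s g = 1 + lam (z s) ^ k * A := by
    induction hX with
    | edge i j hij =>
      refine ⟨le_rfl, ?_⟩
      obtain ⟨-, g, -, hg⟩ := h.edge i j hij
      refine ⟨g, fun h2 => absurd h2 (by norm_num), fun s => ?_⟩
      obtain ⟨A, hA, hr⟩ := grpGen_edge hp (h.zeta s) (h.inv s) (h.skew s) (hB s)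
        (h.comm g s) (i ∈ S s ∧ j ∈ S s) (m s i * m s j) (P s i - P s j) (hg s)
      refine ⟨A, ?_, hr⟩
      simp only [Nat.cast_mul, map_sub] at hA
      simp only [edg]
      exact hA
    | zero n =>
      refine ⟨Nat.succ_le_succ (Nat.zero_le n), 1, fun _ => map_one χ, fun s => ⟨0, grpGen_zero, ?_⟩⟩
      rw [map_one, mul_zero, add_zero]
    | add n X Y _ _ hX hY =>
      obtain ⟨hn, g, hg, hX⟩ := hX
      obtain ⟨-, g', hg', hY⟩ := hY
      refine ⟨hn, g * g', fun h2 => by rw [map_mul, hg h2, hg' h2, one_mul], fun s => ?_⟩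
      obtain ⟨A, hA, hrA⟩ := hX s
      obtain ⟨A', hA', hrA'⟩ := hY s
      obtain ⟨A'', h1, h2⟩ := Red.one_add_mul hn hA hA'
      exact ⟨A'', h1, by rw [map_mul, hrA, hrA', h2]⟩
    | smul n c X _ hX =>
      obtain ⟨hn, g, hg, hX⟩ := hX
      refine ⟨hn, g ^ c.val, fun h2 => by rw [map_pow, hg h2, one_pow], fun s => ?_⟩
      obtain ⟨A, hA, hrA⟩ := hX s
      have h3 : ∀ t : ℕ, ∃ A', Red (z s) A' ((t : ZMod p) • X s) ∧
          ρ s (g ^ t) = 1 + lam (z s) ^ n * A' := by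
        intro t
        induction t with
        | zero =>
          refine ⟨0, ?_, ?_⟩
          · rw [Nat.cast_zero, zero_smul]; exact grpGen_zero
          · rw [pow_zero, map_one, mul_zero, add_zero]
        | succ t ih =>
          obtain ⟨A', hA', hr'⟩ := ih
          obtain ⟨A'', h1, h2⟩ := Red.one_add_mul hn hA' hA
          refine ⟨A'', ?_, ?_⟩
          · rw [Nat.cast_succ, add_smul, one_smul]; exact h1
          · rw [pow_succ, map_mul, hr', hrA, h2]
      obtain ⟨A', h1, h2⟩ := h3 c.val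
      refine ⟨A', ?_, h2⟩
      rw [ZMod.natCast_zmod_val] at h1
      exact h1
    | lie n k X Y _ _ hX hY =>
      obtain ⟨hn, g, hg, hX⟩ := hX
      obtain ⟨hk, g', hg', hY⟩ := hY
      refine ⟨by omega, g * g' * g⁻¹ * g'⁻¹, fun _ => ?_, fun s => ?_⟩
      · rw [map_mul, map_mul, map_mul, map_inv, map_inv, mul_right_comm, mul_inv_cancel_right]
        exact mul_inv_cancel _
      · obtain ⟨A, hA, hrA⟩ := hX s
        obtain ⟨A', hA', hrA'⟩ := hY s
        have e1 : ρ s g * ρ s g⁻¹ = 1 := by rw [← map_mul, mul_inv_cancel, map_one]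
        have e2 : ρ s g⁻¹ * ρ s g = 1 := by rw [← map_mul, inv_mul_cancel, map_one]
        have e3 : ρ s g' * ρ s g'⁻¹ = 1 := by rw [← map_mul, mul_inv_cancel, map_one]
        have e4 : ρ s g'⁻¹ * ρ s g' = 1 := by rw [← map_mul, inv_mul_cancel, map_one]
        obtain ⟨A'', h1, h2⟩ := Red.commutator hn hk hA hA' hrA hrA' e1 e2 e3 e4
          (h.comm _ s) (h.comm _ s)
        exact ⟨A'', h1, by rw [map_mul, map_mul, map_mul, h2]⟩
  exact key.2

end Pool.Agent.PTate
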