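import Pool.Agent.PTate.InvSl

/-!
# Invariant multilinear forms in terms of a basis
-/

set_option autoImplicit false

noncomputable section

namespace Pool.Agent.PTate

open scoped Classical

/-- sums over functions on pairs -/
private theorem invForm_pairs {E Q : Type} [Field E] [Fintype Q] {m : ℕ}
    (P : Fin m → Q → Q → E) (c : Fin m × Bool → Q → E) :
    ∑ K : Fin m × Bool → Q, (∏ a, P a (K (a, true)) (K (a, false))) * ∏ x, c x (K x) =
      ∏ a, ∑ q, ∑ q', P a q q' * (c (a, true) q * c (a, false) q') := by
  have h1 : ∀ a, ∑ q, ∑ q', P a q q' * (c (a, true) q * c (a, false) q') =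
      ∑ k : Bool → Q, P a (k true) (k false) * (c (a, true) (k true) * c (a, false) (k false)) := by
    intro a
    rw [← Fintype.sum_prod_type'
      (fun q q' => P a q q' * (c (a, true) q * c (a, false) q')),
      ← Equiv.sum_comp ((Equiv.boolArrowEquivProd Q).trans (Equiv.prodComm Q Q))]
    rfl
  rw [Finset.prod_congr rfl fun a _ => h1 a, Finset.prod_univ_sum, Fintype.piFinset_univ,
    ← Equiv.sum_comp (Equiv.curry (Fin m) Bool Q)]
  refine Finset.sum_congr rfl fun K _ => ?_
  rw [Finset.prod_mul_distrib, Fintype.prod_prod_type]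
  congr 1
  refine Finset.prod_congr rfl fun a _ => ?_
  rw [Fintype.prod_bool]
  rfl

/-- sums over functions on a disjoint union -/
private theorem invForm_blocks {E Q : Type} [Field E] [Fintype Q] {l : ℕ} {J : Fin l → Type}
    [∀ u, Fintype (J u)] (R : ∀ u : Fin l, (J u → Q) → E) (c : (Σ u : Fin l, J u) → Q → E) :
    ∑ K : (Σ u : Fin l, J u) → Q, (∏ u, R u fun q => K ⟨u, q⟩) * ∏ x, c x (K x) =
      ∏ u, ∑ K : J u → Q, R u K * ∏ q, c ⟨u, q⟩ (K q) := by
  rw [Finset.prod_univ_sum, Fintype.piFinset_univ,
    ← Equiv.sum_comp (Equiv.piCurry (fun (u : Fin l) (_ : J u) => Q))]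
  refine Finset.sum_congr rfl fun K _ => ?_
  rw [Finset.prod_mul_distrib, Fintype.prod_sigma]
  rfl

private theorem invForm_split {E Q : Type} [Field E] [Fintype Q] {r m l : ℕ}
    {J : Fin l → Type} [∀ u, Fintype (J u)] (π : (Fin m × Bool) ⊕ (Σ u : Fin l, J u) ≃ Fin r)
    (P : Fin m → Q → Q → E) (R : ∀ u : Fin l, (J u → Q) → E) (C : Fin r → Q → E) :
    ∑ K : Fin r → Q, ((∏ a, P a (K (π (.inl (a, true)))) (K (π (.inl (a, false))))) *
      ∏ u, R u fun q => K (π (.inr ⟨u, q⟩))) * ∏ i, C i (K i) =
    (∏ a, ∑ q, ∑ q', P a q q' * (C (π (.inl (a, true))) q * C (π (.inl (a, false))) q')) *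
      ∏ u, ∑ K : J u → Q, R u K * ∏ q, C (π (.inr ⟨u, q⟩)) (K q) := by
  rw [← invForm_pairs P (fun x => C (π (.inl x))), ← invForm_blocks R (fun x => C (π (.inr x))),
    Finset.sum_mul_sum, ← Fintype.sum_prod_type'
      (fun (K : Fin m × Bool → Q) (L : (Σ u : Fin l, J u) → Q) =>
        (∏ a, P a (K (a, true)) (K (a, false))) * (∏ x, C (π (.inl x)) (K x)) *
        ((∏ u, R u fun q => L ⟨u, q⟩) * ∏ x, C (π (.inr x)) (L x))),
    ← Equiv.sum_comp ((Equiv.arrowCongr π.symm (Equiv.refl Q)).trans
      (Equiv.sumArrowEquivProdArrow (Fin m × Bool) (Σ u : Fin l, J u) Q))]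
  refine Finset.sum_congr rfl fun K _ => ?_
  rw [← Equiv.prod_comp π (fun i => C i (K i)), Fintype.prod_sum_type]
  simp only [Equiv.trans_apply, Equiv.arrowCongr_apply, Equiv.symm_symm, Equiv.coe_refl,
    Function.comp_apply, Equiv.sumArrowEquivProdArrow_apply_fst,
    Equiv.sumArrowEquivProdArrow_apply_snd, id]
  ring

private theorem invForm_pair {E Q T : Type} [Field E] [Fintype Q] (τ : Q → T) (θ : T)
    (c c' : Q → E) :
    ∑ q, ∑ q', (if q = q' ∧ τ q = θ then (1 : E) else 0) * (c q * c' q') =
      ∑ q : {q // τ q = θ}, c q * c' q := by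
  have h1 : ∀ q, ∑ q', (if q = q' ∧ τ q = θ then (1 : E) else 0) * (c q * c' q') =
      if τ q = θ then c q * c' q else 0 := by
    intro q
    rw [Finset.sum_eq_single q]
    · by_cases h : τ q = θ
      · simp [h]
      · simp [h]
    · intro q' _ hq
      rw [if_neg fun h => hq h.1.symm, zero_mul]
    · intro h
      exact absurd (Finset.mem_univ q) h
  rw [Finset.sum_congr rfl fun q _ => h1 q, ← Finset.sum_filter]
  rw [← Finset.sum_subtype_eq_sum_filter]
  refine Finset.sum_congr ?_ fun _ _ => rfl
  ext x
  simp

private theorem invForm_det {E Q T : Type} [Field E] [Fintype Q] (τ : Q → T) (t : T)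
    (c : {q // τ q = t} → Q → E) :
    ∑ K : {q // τ q = t} → Q, dt τ t K * ∏ q, c q (K q) =
      Matrix.det (Matrix.of fun q q' : {q // τ q = t} => c q q'.1) := by
  have h1 : (Matrix.of fun q q' : {q // τ q = t} => c q q'.1) =
      fun q => ∑ k : Q, c q k • (fun q' : {q // τ q = t} => if k = q'.1 then (1 : E) else 0) := by
    ext q q'
    rw [Matrix.of_apply, Finset.sum_apply, Finset.sum_eq_single q'.1]
    · simp
    · intro k _ hk
      simp [hk]
    · intro h
      exact absurd (Finset.mem_univ _) h
  have h2 := (Matrix.detRowAlternating (n := {q // τ q = t}) (R := E)).toMultilinearMap.map_sum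
    (fun q (k : Q) => c q k • (fun q' : {q // τ q = t} => if k = q'.1 then (1 : E) else 0))
  rw [h1]
  refine Eq.trans ?_ h2.symm
  refine Finset.sum_congr rfl fun K _ => ?_
  rw [MultilinearMap.map_smul_univ, smul_eq_mul, mul_comm]
  rfl

/-- one product of contractions and determinants gives one product of forms and determinants -/
private theorem invForm_prod {E Q T V : Type} [Field E] [Fintype Q] [AddCommGroup V]
    [Module E V] (b : Module.Basis (Q ⊕ Q) E V) (τ : Q → T) {n r : ℕ} (ε : Fin r → Bool)
    (β : Fin r → Fin n) {g : (Fin r → Q) → E} (hg : IsTProd τ ε g) :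
    IsVProd b τ (fun v : Fin r → Fin n → V => ∑ K : Fin r → Q, g K * ∏ i,
      b.coord (if ε i = true then .inl (K i) else .inr (K i)) (v i (β i))) := by
  obtain ⟨m, l, θ, t, s, π, h1, h2, h3⟩ := hg
  refine ⟨m, l, θ, t, s, π, β, fun v => ?_⟩
  have h4 := invForm_split π
    (fun a q q' => if q = q' ∧ τ q = θ a then (1 : E) else 0)
    (fun u K => dt (E := E) τ (t u) K)
    (fun i q => b.coord (if ε i = true then .inl q else .inr q) (v i (β i)))
  simp only [h3]
  refine h4.trans ?_
  congr 1
  · refine Finset.prod_congr rfl fun a _ => ?_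
    rw [invForm_pair]
    refine Finset.sum_congr rfl fun q _ => ?_
    rw [h1 a true, h1 a false]
    rfl
  · refine Finset.prod_congr rfl fun u _ => ?_
    refine Eq.trans ?_ ((invForm_det τ (t u) (fun q k =>
      b.coord (if ε (π (.inr ⟨u, q⟩)) = true then .inl k
        else .inr k) (v (π (.inr ⟨u, q⟩)) (β (π (.inr ⟨u, q⟩)))))).trans ?_)
    · refine Finset.sum_congr ?_ fun _ _ => rfl
      ext
      simp
    congr 1
    ext q q'
    rw [Matrix.of_apply, Matrix.of_apply, h2 u q]

private theorem invForm_expand {E Q V : Type} [Field E] [Fintype Q] [AddCommGroup V]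
    [Module E V] (b : Module.Basis (Q ⊕ Q) E V) {n r : ℕ}
    (F : MultilinearMap E (fun _ : Fin r => Fin n → V) E) (v : Fin r → Fin n → V) :
    F v = ∑ β : Fin r → Fin n, ∑ ε : Fin r → Bool, ∑ K : Fin r → Q,
      F (fun i => Pi.single (β i) (b (if ε i = true then .inl (K i) else .inr (K i)))) *
        ∏ i, b.coord (if ε i = true then .inl (K i) else .inr (K i)) (v i (β i)) := by
  have h1 : v = fun i => ∑ x : Fin n × Bool × Q,
      b.coord (if x.2.1 = true then .inl x.2.2 else .inr x.2.2) (v i x.1) •
        (Pi.single x.1 (b (if x.2.1 = true then .inl x.2.2 else .inr x.2.2)) : Fin n → V) := by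
    ext i c
    rw [Fintype.sum_prod_type, Finset.sum_apply, Finset.sum_eq_single c]
    · rw [Finset.sum_apply]
      conv_lhs => rw [← b.sum_repr (v i c)]
      rw [Fintype.sum_sum_type, Fintype.sum_prod_type, Fintype.sum_bool]
      simp
    · intro c' _ hc
      rw [Finset.sum_apply]
      refine Finset.sum_eq_zero fun x _ => ?_
      rw [Pi.smul_apply, Pi.single_eq_of_ne (Ne.symm hc), smul_zero]
    · intro h
      exact absurd (Finset.mem_univ _) h
  conv_lhs => rw [h1]
  rw [MultilinearMap.map_sum]
  rw [← Fintype.sum_prod_type' (fun (β : Fin r → Fin n) (ε : Fin r → Bool) => ∑ K : Fin r → Q,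
      F (fun i => Pi.single (β i) (b (if ε i = true then .inl (K i) else .inr (K i)))) *
        ∏ i, b.coord (if ε i = true then .inl (K i) else .inr (K i)) (v i (β i))),
    ← Fintype.sum_prod_type' (fun (y : (Fin r → Fin n) × (Fin r → Bool)) (K : Fin r → Q) =>
      F (fun i => Pi.single (y.1 i) (b (if y.2 i = true then .inl (K i) else .inr (K i)))) *
        ∏ i, b.coord (if y.2 i = true then .inl (K i) else .inr (K i)) (v i (y.1 i)))]
  refine Fintype.sum_equiv
    ((Equiv.arrowProdEquivProdArrow (Fin r) (fun _ => Fin n) (fun _ => Bool × Q)).trans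
      (((Equiv.refl (Fin r → Fin n)).prodCongr
        (Equiv.arrowProdEquivProdArrow (Fin r) (fun _ => Bool) (fun _ => Q))).trans
        (Equiv.prodAssoc _ _ _).symm)) _ _ fun x => ?_
  rw [MultilinearMap.map_smul_univ, smul_eq_mul, mul_comm]
  rfl

/-- the operators `Xop` on basis vectors -/
private theorem invForm_op {E Q V : Type} [Field E] [Fintype Q] [AddCommGroup V]
    [Module E V] (b : Module.Basis (Q ⊕ Q) E V) {n r : ℕ}
    (F : MultilinearMap E (fun _ : Fin r => Fin n → V) E) (β : Fin r → Fin n)
    (ε : Fin r → Bool) (k l : Q) (K : Fin r → Q) :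
    ∑ i, F (Function.update
      (fun i => (Pi.single (β i) (b (if ε i = true then .inl (K i) else .inr (K i))) :
        Fin n → V)) i fun c => Xop b k l
          ((Pi.single (β i) (b (if ε i = true then .inl (K i) else .inr (K i))) :
        Fin n → V) c)) =
    Dl ε k l (fun K => F (fun i => Pi.single (β i)
      (b (if ε i = true then .inl (K i) else .inr (K i))))) K := by
  unfold Dl
  rw [← Finset.sum_sub_distrib]
  refine Finset.sum_congr rfl fun i _ => ?_
  have h1 : (fun c => Xop b k l
      ((Pi.single (β i) (b (if ε i = true then .inl (K i) else .inr (K i))) :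
        Fin n → V) c)) = Pi.single (β i)
          (Xop b k l (b (if ε i = true then .inl (K i) else .inr (K i)))) := by
    ext c
    by_cases h : c = β i
    · subst h
      rw [Pi.single_eq_same, Pi.single_eq_same]
    · rw [Pi.single_eq_of_ne h, Pi.single_eq_of_ne h, map_zero]
  have h6 : ∀ (q : Q) (K' : Fin r → Q), K' i = q → (∀ j, j ≠ i → K' j = K j) →
      F (fun j => (Pi.single (β j) (b (if ε j = true then .inl (K' j) else .inr (K' j))) :
        Fin n → V)) =
      F (Function.update (fun i => (Pi.single (β i) (b (if ε i = true then .inl (K i) else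
        .inr (K i))) : Fin n → V)) i
        (Pi.single (β i) (b (if ε i = true then .inl q else .inr q)))) := by
    intro q K' hK hK'
    congr 1
    ext1 j
    by_cases h : j = i
    · subst h
      rw [Function.update_self, hK]
    · rw [Function.update_of_ne h, hK' j h]
  simp only [h1]
  by_cases h : ε i = true
  · have h3 : Xop b k l (b (if ε i = true then .inl (K i) else .inr (K i))) =
        (if K i = l then (1 : E) else 0) • b (.inl k) := by
      rw [if_pos h]
      simp [Xop, Finsupp.single_apply]
    rw [h3, Pi.single_smul, MultilinearMap.map_update_smul]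
    by_cases h4 : K i = l
    · simp only [h, h4, true_and, if_true, one_smul, Bool.true_eq_false, false_and, if_false,
        sub_zero]
      refine ((h6 k _ ?_ ?_).trans ?_).symm
      · simp
      · intro j hj
        simp [hj]
      · simp [h]
    · simp [h, h4]
  · have h3 : Xop b k l (b (if ε i = true then .inl (K i) else .inr (K i))) =
        (-(if K i = k then (1 : E) else 0)) • b (.inr l) := by
      rw [if_neg h]
      simp [Xop, Finsupp.single_apply]
    rw [h3, Pi.single_smul, MultilinearMap.map_update_smul]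
    have h5 : ε i = false := by simpa using h
    by_cases h4 : K i = k
    · simp only [h5, h4, true_and, if_true, Bool.false_eq_true, false_and, if_false,
        zero_sub, smul_eq_mul, neg_mul, one_mul, neg_inj]
      refine ((h6 l _ ?_ ?_).trans ?_).symm
      · simp
      · intro j hj
        simp [hj]
      · simp [h5]
    · simp [h5, h4]

/-- A multilinear form which is killed by the operators `Xop` of a product of special linear Lie
algebras is a linear combination of products of the invariant bilinear forms and of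
determinants. -/
theorem fft_form {E Q T V : Type} [Field E] [CharZero E] [Fintype Q] [Fintype T] [AddCommGroup V]
    [Module E V] (b : Module.Basis (Q ⊕ Q) E V) (τ : Q → T) {n r : ℕ}
    (F : MultilinearMap E (fun _ : Fin r => Fin n → V) E)
    (h1 : ∀ k l, k ≠ l → τ k = τ l → ∀ v : Fin r → Fin n → V,
      ∑ i, F (Function.update v i fun c => Xop b k l (v i c)) = 0)
    (h2 : ∀ k l, τ k = τ l → ∀ v : Fin r → Fin n → V,
      ∑ i, F (Function.update v i fun c => Xop b k k (v i c)) =
        ∑ i, F (Function.update v i fun c => Xop b l l (v i c))) :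
    (fun v => F v) ∈ Submodule.span E {g : (Fin r → Fin n → V) → E | IsVProd b τ g} := by
  have h3 : (fun v => F v) = ∑ β : Fin r → Fin n, ∑ ε : Fin r → Bool,
      (fun v : Fin r → Fin n → V => ∑ K : Fin r → Q,
        F (fun i => Pi.single (β i) (b (if ε i = true then .inl (K i) else .inr (K i)))) *
        ∏ i, b.coord (if ε i = true then .inl (K i) else .inr (K i)) (v i (β i))) := by
    funext v
    rw [invForm_expand b F v, Finset.sum_apply]
    refine Finset.sum_congr rfl fun β _ => ?_
    rw [Finset.sum_apply]
  rw [h3]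
  refine Submodule.sum_mem _ fun β _ => Submodule.sum_mem _ fun ε _ => ?_
  let Φ : ((Fin r → Q) → E) →ₗ[E] ((Fin r → Fin n → V) → E) :=
    { toFun := fun f v => ∑ K : Fin r → Q, f K *
        ∏ i, b.coord (if ε i = true then .inl (K i) else .inr (K i)) (v i (β i))
      map_add' := fun f g => by
        funext v
        simp only [Pi.add_apply, add_mul, Finset.sum_add_distrib]
      map_smul' := fun c f => by
        funext v
        simp only [Pi.smul_apply, smul_eq_mul, mul_assoc, Finset.mul_sum, RingHom.id_apply] }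
  have h4 : (fun K : Fin r → Q => F (fun i => Pi.single (β i)
      (b (if ε i = true then .inl (K i) else .inr (K i))))) ∈
      Submodule.span E {g : (Fin r → Q) → E | IsTProd τ ε g} := by
    refine fft_sl τ ε _ (fun k l hkl hτ K => ?_) (fun k l hτ K => ?_)
    · rw [← invForm_op]
      exact h1 k l hkl hτ _
    · rw [← invForm_op, ← invForm_op]
      exact h2 k l hτ _
  have h5 := Submodule.mem_map_of_mem (f := Φ) h4
  rw [Submodule.map_span] at h5
  refine Submodule.span_mono ?_ h5
  rintro _ ⟨g, hg, rfl⟩
  exact invForm_prod b τ ε β hg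

end Pool.Agent.PTate
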