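import Pool.Agent.PTate.InvProd
import Pool.Agent.PTate.InvForm

/-!
# Forms killed by the special unitary Lie algebras
-/

set_option autoImplicit false

noncomputable section

namespace Pool.Agent.PTate

open scoped Classical

/-- Finite powers of a map whose image spans. -/
private theorem invAsm_span {R E W V : Type} [CommRing R] [Field E]
    [Algebra R E] [AddCommGroup W] [Module R W] [AddCommGroup V] [Module E V] [Module R V]
    (J : W →ₗ[R] V) (hJ : Submodule.span E (Set.range J) = ⊤) (n : ℕ) :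
    Submodule.span E (Set.range (J.compLeft (Fin n))) = ⊤ := by
  rw [eq_top_iff]
  intro f _
  have hf : f = ∑ c, LinearMap.single E (fun _ : Fin n => V) c (f c) := by
    funext a
    simp [Finset.sum_apply, Pi.single_apply]
  rw [hf]
  refine Submodule.sum_mem _ fun c _ => ?_
  have h1 : f c ∈ Submodule.span E (Set.range J) := by
    rw [hJ]
    trivial
  refine Submodule.span_induction (p := fun x _ =>
    LinearMap.single E (fun _ : Fin n => V) c x ∈
      Submodule.span E (Set.range (J.compLeft (Fin n)))) ?_ ?_ ?_ ?_ h1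
  · rintro _ ⟨x, rfl⟩
    refine Submodule.subset_span ⟨Pi.single c x, ?_⟩
    funext a
    by_cases h : a = c
    · subst h
      simp [LinearMap.compLeft_apply]
    · simp [LinearMap.compLeft_apply, h]
  · rw [map_zero]
    exact Submodule.zero_mem _
  · intro x y _ _ hx hy
    rw [map_add]
    exact Submodule.add_mem _ hx hy
  · intro c' x _ hx
    rw [map_smul]
    exact Submodule.smul_mem _ _ hx

/-- A multilinear form which is killed by the special unitary Lie algebras is a linear combination
of products of pairings and determinants. -/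
theorem inv_form {p : ℕ} [Fact p.Prime] {σ : Type} {M : σ → Type} [∀ s, AddCommGroup (M s)]
    [∀ s, Module ℤ_[p] (M s)] {E : Type} [Field E] [Algebra ℤ_[p] E] [Fintype σ] [CharZero E]
    {z : ∀ s, Module.End ℤ_[p] (M s)} {e : ∀ s, M s →ₗ[ℤ_[p]] M s →ₗ[ℤ_[p]] ℤ_[p]} {ζ : E}
    (hζ : IsPrimitiveRoot ζ p) [∀ s, Module.Finite ℤ_[p] (M s)]
    [∀ s, Module.IsTorsionFree ℤ_[p] (M s)] (hp : p ≠ 2)
    (hz : ∀ s x, ∑ i ∈ Finset.range p, (z s ^ i) x = 0)
    (hi : ∀ s x y, e s (z s x) (z s y) = e s x y) (hs : ∀ s x y, e s x y = -e s y x)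
    (hn : ∀ s x, (∀ y, e s x y = 0) → x = 0) {n r : ℕ}
    (F : MultilinearMap ℤ_[p] (fun _ : Fin r => Fin n → ∀ s, M s) E)
    (hF : ∀ X : ∀ s, Module.End ℤ_[p] (M s), (∀ s x, X s (z s x) = z s (X s x)) →
      (∀ s x y, e s (X s x) y + e s x (X s y) = 0) →
      (∀ s i, LinearMap.trace ℤ_[p] (M s) (z s ^ i * X s) = 0) →
      ∀ v : Fin r → Fin n → ∀ s, M s,
        ∑ l, F (Function.update v l fun a s => X s (v l a s)) = 0) :
    (fun v => F v) ∈ Submodule.span E {g | IsProd z e ζ g} := by
  have hex := fun s => exists_eig (N := M s) hp (hz s) (hi s) (hs s) (hn s) hζ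
  choose j hj using hex
  obtain ⟨hJ1, hJ2⟩ := Jt_span (d := fun s => Module.finrank (ZMod p) (Vr (z s))) hp hj
  set J := Jt (d := fun s => Module.finrank (ZMod p) (Vr (z s))) j with hJdef
  have hsp := invAsm_span (E := E) J hJ1 n
  have hrk : Module.finrank ℤ_[p] (Fin n → ∀ s, M s) =
      Module.finrank E (Fin n →
        ((Qt p fun s => Module.finrank (ZMod p) (Vr (z s))) ⊕
          (Qt p fun s => Module.finrank (ZMod p) (Vr (z s))) → E)) := by
    rw [Module.finrank_pi_fintype ℤ_[p] (M := fun _ : Fin n => ∀ s, M s),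
      Module.finrank_pi_fintype E (M := fun _ : Fin n =>
        ((Qt p fun s => Module.finrank (ZMod p) (Vr (z s))) ⊕
          (Qt p fun s => Module.finrank (ZMod p) (Vr (z s))) → E))]
    exact Finset.sum_congr rfl fun _ _ => hJ2
  obtain ⟨F', hF'⟩ := exists_ext (J.compLeft (Fin n)) hsp hrk F
  have hF2 : ∀ v, F' (fun i c => J (v i c)) = F v := fun v => hF' v
  obtain ⟨h1, h2⟩ := kill hζ hp hz hi hs hj F hF F' hF2
  have h3 := fft_form (Pi.basisFun E
    ((Qt p fun s => Module.finrank (ZMod p) (Vr (z s))) ⊕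
      (Qt p fun s => Module.finrank (ZMod p) (Vr (z s)))))
    (τt (p := p) (d := fun s => Module.finrank (ZMod p) (Vr (z s)))) F' h1 h2
  have h4 : (fun v => F v) = LinearMap.funLeft E E
      (fun (v : Fin r → Fin n → ∀ s, M s) i c => J (v i c)) (fun v => F' v) := by
    funext v
    rw [LinearMap.funLeft_apply]
    exact (hF2 v).symm
  rw [h4]
  refine Submodule.span_induction (p := fun g _ => LinearMap.funLeft E E
      (fun (v : Fin r → Fin n → ∀ s, M s) i c => J (v i c)) g ∈
        Submodule.span E {g | IsProd z e ζ g}) ?_ ?_ ?_ ?_ h3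
  · intro g hg
    exact IsVProd.restrict hζ hp hj hg
  · rw [map_zero]
    exact Submodule.zero_mem _
  · intro x y _ _ hx hy
    rw [map_add]
    exact Submodule.add_mem _ hx hy
  · intro c' x _ hx
    rw [map_smul]
    exact Submodule.smul_mem _ _ hx

end Pool.Agent.PTate
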