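import Pool.Agent.PTate.RedDefs
import Pool.Agent.PTate.PolyZ

/-!
# Reduction modulo `1 - z`: divisibility
-/

set_option autoImplicit false

noncomputable section

namespace Pool.Agent.PTate

open scoped Classical

variable {p : ℕ} [Fact p.Prime] {M : Type} [AddCommGroup M] [Module ℤ_[p] M]
  {z : Module.End ℤ_[p] M}

private theorem redA_sum (hz : ∀ x, ∑ i ∈ Finset.range p, (z ^ i) x = 0) :
    Polynomial.aeval z (∑ i ∈ Finset.range p, Polynomial.X ^ i : Polynomial ℤ) = 0 := by
  ext x
  rw [map_sum, LinearMap.sum_apply, LinearMap.zero_apply, ← hz x]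
  exact Finset.sum_congr rfl fun i _ => by rw [map_pow, Polynomial.aeval_X]

private theorem redA_lam : Polynomial.aeval z (1 - Polynomial.X : Polynomial ℤ) = lam z := by
  rw [map_sub, map_one, Polynomial.aeval_X]
  rfl

private theorem redA_nat (n : ℕ) :
    Polynomial.aeval z (n : Polynomial ℤ) = (n : ℤ_[p]) • (1 : Module.End ℤ_[p] M) := by
  rw [map_natCast, Nat.cast_smul_eq_nsmul, nsmul_one]

/-- `p` is `(1 - z) ^ (p - 1)` times a unit -/
theorem exists_unit [Module.IsTorsionFree ℤ_[p] M]
    (hz : ∀ x, ∑ i ∈ Finset.range p, (z ^ i) x = 0) :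
    ∃ q q' : Polynomial ℤ, Polynomial.aeval z q * Polynomial.aeval z q' = 1 ∧
      (p : ℤ_[p]) • (1 : Module.End ℤ_[p] M) = lam z ^ (p - 1) * Polynomial.aeval z q := by
  obtain ⟨q', v', h'⟩ := exists_poly_one (p := p)
  obtain ⟨q, v, h⟩ := exists_poly_two (p := p)
  have h1 := congrArg (Polynomial.aeval z) h
  have h1' := congrArg (Polynomial.aeval z) h'
  rw [map_add, map_mul, map_mul, redA_sum hz, zero_mul, add_zero, map_pow, redA_lam,
    redA_nat] at h1
  rw [map_add, map_mul, map_mul, redA_sum hz, zero_mul, add_zero, map_pow, redA_lam,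
    redA_nat] at h1'
  refine ⟨q, q', ?_, h1⟩
  have hp0 : (p : ℤ_[p]) ≠ 0 := Nat.cast_ne_zero.2 (Fact.out : p.Prime).ne_zero
  rw [h1', smul_mul_assoc, one_mul] at h1
  have h2 : (p : ℤ_[p]) • (Polynomial.aeval z q' * Polynomial.aeval z q - 1) = 0 := by
    rw [smul_sub, ← smul_mul_assoc, ← h1, sub_self]
  have h3 : Polynomial.aeval z q' * Polynomial.aeval z q = 1 := by
    ext x
    have h4 := congrArg (fun T : Module.End ℤ_[p] M => T x) h2
    simp only [LinearMap.smul_apply, LinearMap.zero_apply] at h4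
    have h5 := (smul_eq_zero.1 h4).resolve_left hp0
    rw [LinearMap.sub_apply, sub_eq_zero] at h5
    exact h5
  rw [← h3, ← map_mul, ← map_mul, mul_comm]

/-- polynomials in `z` commute with the operators which commute with `z` -/
theorem aeval_comm {A : Module.End ℤ_[p] M} (hA : ∀ x, A (z x) = z (A x))
    (q : Polynomial ℤ) : A * Polynomial.aeval z q = Polynomial.aeval z q * A := by
  have h : Commute A z := by
    ext x
    exact hA x
  have : Commute A (Polynomial.aeval z q) := by
    induction q using Polynomial.induction_on' with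
    | add f g hf hg => rw [map_add]; exact hf.add_right hg
    | monomial n c =>
      rw [Polynomial.aeval_monomial, eq_intCast]
      exact (Int.commute_cast A c).mul_right (h.pow_right n)
  exact this

theorem lam_injective [Module.IsTorsionFree ℤ_[p] M]
    (hz : ∀ x, ∑ i ∈ Finset.range p, (z ^ i) x = 0) : Function.Injective (lam z) := by
  obtain ⟨q, q', -, h⟩ := exists_unit hz
  have hp0 : (p : ℤ_[p]) ≠ 0 := Nat.cast_ne_zero.2 (Fact.out : p.Prime).ne_zero
  have hp1 : p - 1 = (p - 2) + 1 := by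
    have := (Fact.out : p.Prime).two_le
    omega
  rw [injective_iff_map_eq_zero]
  intro x hx
  have hc : lam z ^ (p - 1) * Polynomial.aeval z q = Polynomial.aeval z q * lam z ^ (p - 1) := by
    rw [← redA_lam, ← map_pow, ← map_mul, ← map_mul, mul_comm]
  have h1 := congrArg (fun T : Module.End ℤ_[p] M => T x) (h.trans hc)
  simp only [LinearMap.smul_apply, Module.End.one_apply, Module.End.mul_apply] at h1
  rw [hp1, pow_succ, Module.End.mul_apply, hx, map_zero, map_zero] at h1
  exact (smul_eq_zero.1 h1).resolve_left hp0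

theorem z_pow (hz : ∀ x, ∑ i ∈ Finset.range p, (z ^ i) x = 0) : z ^ p = 1 := by
  have h : (∑ i ∈ Finset.range p, z ^ i) = 0 := by
    ext x
    rw [LinearMap.sum_apply, hz x, LinearMap.zero_apply]
  have h1 := geom_sum_mul z p
  rw [h, zero_mul] at h1
  exact (sub_eq_zero.1 h1.symm)

theorem mk_eq_zero [Module.IsTorsionFree ℤ_[p] M]
    (hz : ∀ x, ∑ i ∈ Finset.range p, (z ^ i) x = 0) (x : M) :
    mk z x = 0 ↔ ∃ y, x = lam z y := by
  rw [mk_eq_zero_iff]
  obtain ⟨q, q', -, h⟩ := exists_unit hz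
  have hp1 : p - 1 = (p - 2) + 1 := by
    have := (Fact.out : p.Prime).two_le
    omega
  constructor
  · intro hx
    obtain ⟨a, ⟨b, rfl⟩, c, ⟨d, rfl⟩, rfl⟩ := Submodule.mem_sup.1 hx
    refine ⟨b + (lam z ^ (p - 2)) (Polynomial.aeval z q d), ?_⟩
    rw [map_add, h, Module.End.mul_apply, hp1, pow_succ', Module.End.mul_apply]
  · rintro ⟨y, rfl⟩
    exact Submodule.mem_sup_left ⟨y, rfl⟩

theorem mk_z (x : M) : mk z (z x) = mk z x := by
  symm
  rw [← sub_eq_zero, ← map_sub, mk_eq_zero_iff]
  exact Submodule.mem_sup_left ⟨x, rfl⟩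

theorem mk_smul (c : ℤ_[p]) (x : M) : mk z (c • x) = PadicInt.toZMod c • mk z x := by
  have h0 : c - ((PadicInt.toZMod c).val : ℤ_[p]) ∈ RingHom.ker (PadicInt.toZMod (p := p)) := by
    rw [RingHom.mem_ker, map_sub, map_natCast, ZMod.natCast_zmod_val, sub_self]
  rw [PadicInt.ker_toZMod, PadicInt.maximalIdeal_eq_span_p, Ideal.mem_span_singleton] at h0
  obtain ⟨d, hd⟩ := h0
  have h1 : c = ((PadicInt.toZMod c).val : ℤ_[p]) + (p : ℤ_[p]) * d := by
    rw [← hd]; ring
  have h2 : mk z (c • x) = (PadicInt.toZMod c).val • mk z x := by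
    conv_lhs => rw [h1, add_smul, map_add, Nat.cast_smul_eq_nsmul, map_nsmul]
    have h3 : mk z (((p : ℤ_[p]) * d) • x) = 0 := by
      rw [mk_eq_zero_iff]
      refine Submodule.mem_sup_right ⟨d • x, ?_⟩
      rw [LinearMap.smul_apply, Module.End.one_apply, mul_smul]
    rw [h3, add_zero]
  rw [h2, ← Nat.cast_smul_eq_nsmul (ZMod p), ZMod.natCast_zmod_val]

/-- an operator which is divisible by a power of `1 - z` -/
theorem exists_div [Module.IsTorsionFree ℤ_[p] M]
    (hz : ∀ x, ∑ i ∈ Finset.range p, (z ^ i) x = 0) {Y : Module.End ℤ_[p] M}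
    (hY : ∀ x, Y (z x) = z (Y x)) {k : ℕ} (h : ∀ x, ∃ y, Y x = (lam z ^ k) y) :
    ∃ A : Module.End ℤ_[p] M, (∀ x, A (z x) = z (A x)) ∧ Y = lam z ^ k * A := by
  have hinj : Function.Injective (lam z ^ k : Module.End ℤ_[p] M) := by
    induction k with
    | zero => intro x y hxy; simpa using hxy
    | succ k _ =>
      rw [Module.End.coe_pow]
      exact (lam_injective hz).iterate _
  choose A hA using h
  refine ⟨{ toFun := A, map_add' := ?_, map_smul' := ?_ }, ?_, ?_⟩
  · intro x y
    apply hinj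
    rw [← hA, map_add, map_add, ← hA, ← hA]
  · intro c x
    apply hinj
    rw [← hA, map_smul, map_smul, ← hA, RingHom.id_apply]
  · intro x
    apply hinj
    change (lam z ^ k) (A (z x)) = (lam z ^ k) (z (A x))
    have hc : lam z ^ k * z = z * lam z ^ k := by
      have h1 : Commute (lam z) z := by
        show (1 - z) * z = z * (1 - z)
        rw [sub_mul, mul_sub, one_mul, mul_one]
      exact h1.pow_left k
    rw [← hA, hY, hA, ← Module.End.mul_apply, ← hc, Module.End.mul_apply]
  · ext x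
    exact hA x

end Pool.Agent.PTate
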