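import Pool.Agent.PTate.Rep
import Pool.Agent.PTate.RedA

/-!
# Bases over `ℤ_p[z]`
-/

set_option autoImplicit false

noncomputable section

namespace Pool.Agent.PTate

open scoped Classical

variable {p : ℕ} [Fact p.Prime] {N : Type} [AddCommGroup N] [Module ℤ_[p] N]
  [Module.Finite ℤ_[p] N] [Module.IsTorsionFree ℤ_[p] N] {z : Module.End ℤ_[p] N}

omit [Module.IsTorsionFree ℤ_[p] N] in
private theorem invBas_finite : Module.Finite (ZMod p) (Vr z) := by
  obtain ⟨s, hs⟩ := (inferInstance : Module.Finite ℤ_[p] N).fg_top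
  refine ⟨⟨s.image (mk z), ?_⟩⟩
  rw [eq_top_iff]
  rintro v -
  obtain ⟨x, rfl⟩ := mk_surjective z v
  have hx : x ∈ Submodule.span ℤ_[p] (s : Set N) := hs ▸ Submodule.mem_top
  induction hx using Submodule.span_induction with
  | mem x h =>
    refine Submodule.subset_span ?_
    rw [Finset.coe_image]
    exact ⟨x, h, rfl⟩
  | zero => rw [map_zero]; exact Submodule.zero_mem _
  | add x y _ _ hx hy => rw [map_add]; exact Submodule.add_mem _ hx hy
  | smul c x _ hx => rw [mk_smul]; exact Submodule.smul_mem _ _ hx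

omit [Module.Finite ℤ_[p] N] in
private theorem invBas_p (hz : ∀ x, ∑ i ∈ Finset.range p, (z ^ i) x = 0) (y : N) :
    ∃ y', (p : ℤ_[p]) • y = (lam z ^ (p - 1)) y' := by
  obtain ⟨q, q', -, h⟩ := exists_unit hz
  refine ⟨Polynomial.aeval z q y, ?_⟩
  rw [← Module.End.mul_apply, ← h]
  rfl

omit [Module.Finite ℤ_[p] N] in
private theorem invBas_lam (hz : ∀ x, ∑ i ∈ Finset.range p, (z ^ i) x = 0) (y : N) :
    ∃ y', (lam z ^ (p - 1)) y = (p : ℤ_[p]) • y' := by
  obtain ⟨q, q', h1, h⟩ := exists_unit hz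
  refine ⟨Polynomial.aeval z q' y, ?_⟩
  have h2 : (p : ℤ_[p]) • Polynomial.aeval z q' y =
      ((p : ℤ_[p]) • (1 : Module.End ℤ_[p] N)) (Polynomial.aeval z q' y) := rfl
  rw [h2, h, Module.End.mul_apply, ← Module.End.mul_apply (Polynomial.aeval z q), h1,
    Module.End.one_apply]

omit [Module.Finite ℤ_[p] N] in
private theorem invBas_inj (hz : ∀ x, ∑ i ∈ Finset.range p, (z ^ i) x = 0) (n : ℕ) :
    Function.Injective (lam z ^ n : Module.End ℤ_[p] N) := by
  rw [Module.End.coe_pow]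
  exact (lam_injective hz).iterate _

private theorem invBas_toZMod_eq_zero {a : ℤ_[p]} (h : PadicInt.toZMod a = 0) :
    ∃ b : ℤ_[p], a = (p : ℤ_[p]) * b := by
  have h0 : a ∈ RingHom.ker (PadicInt.toZMod (p := p)) := by
    rw [RingHom.mem_ker, h]
  rw [PadicInt.ker_toZMod, PadicInt.maximalIdeal_eq_span_p, Ideal.mem_span_singleton] at h0
  exact h0

omit [Module.Finite ℤ_[p] N] [Module.IsTorsionFree ℤ_[p] N] in
private theorem invBas_mk_sum {d : ℕ} (c : Fin d → ℤ_[p]) (x : Fin d → N) :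
    mk z (∑ k, c k • x k) = ∑ k, PadicInt.toZMod (c k) • mk z (x k) := by
  rw [map_sum]
  exact Finset.sum_congr rfl fun k _ => mk_smul _ _

omit [Module.Finite ℤ_[p] N] in
private theorem invBas_step (hz : ∀ x, ∑ i ∈ Finset.range p, (z ^ i) x = 0) {d : ℕ}
    (v : Module.Basis (Fin d) (ZMod p) (Vr z)) (x : Fin d → N) (hx : ∀ k, mk z (x k) = v k)
    (y : N) : ∃ (c : Fin d → ℤ_[p]) (y' : N), y = ∑ k, c k • x k + lam z y' := by
  let c : Fin d → ℤ_[p] := fun k => ((v.repr (mk z y) k).val : ℤ_[p])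
  have hc : ∀ k, PadicInt.toZMod (c k) = v.repr (mk z y) k := fun k => by
    simp only [c]
    rw [map_natCast, ZMod.natCast_zmod_val]
  have h1 : mk z (y - ∑ k, c k • x k) = 0 := by
    rw [map_sub, invBas_mk_sum, sub_eq_zero]
    conv_lhs => rw [← v.sum_repr (mk z y)]
    exact Finset.sum_congr rfl fun k _ => by rw [hc, hx]
  obtain ⟨y', h2⟩ := (mk_eq_zero hz _).1 h1
  exact ⟨c, y', by rw [← h2, add_sub_cancel]⟩

omit [Module.Finite ℤ_[p] N] in
private theorem invBas_steps (hz : ∀ x, ∑ i ∈ Finset.range p, (z ^ i) x = 0) {d : ℕ}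
    (v : Module.Basis (Fin d) (ZMod p) (Vr z)) (x : Fin d → N) (hx : ∀ k, mk z (x k) = v k)
    (y : N) (n : ℕ) (hn : n ≤ p - 1) : ∃ y' : N, y - (lam z ^ n) y' ∈
      Submodule.span ℤ_[p] (Set.range fun ik : Fin (p - 1) × Fin d =>
        (lam z ^ (ik.1 : ℕ)) (x ik.2)) := by
  induction n with
  | zero =>
    refine ⟨y, ?_⟩
    rw [pow_zero, Module.End.one_apply, sub_self]
    exact Submodule.zero_mem _
  | succ n ih =>
    obtain ⟨y', h⟩ := ih (by omega)
    obtain ⟨c, y'', h1⟩ := invBas_step hz v x hx y'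
    refine ⟨y'', ?_⟩
    have h2 : y - (lam z ^ (n + 1)) y'' = (y - (lam z ^ n) y') +
        ∑ k, c k • (lam z ^ n) (x k) := by
      conv_rhs => rw [h1]
      rw [map_add, map_sum, pow_succ, Module.End.mul_apply]
      simp only [map_smul]
      abel
    rw [h2]
    refine Submodule.add_mem _ h (Submodule.sum_mem _ fun k _ => Submodule.smul_mem _ _ ?_)
    exact Submodule.subset_span ⟨(⟨n, by omega⟩, k), rfl⟩

private theorem invBas_span (hz : ∀ x, ∑ i ∈ Finset.range p, (z ^ i) x = 0) {d : ℕ}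
    (v : Module.Basis (Fin d) (ZMod p) (Vr z)) (x : Fin d → N) (hx : ∀ k, mk z (x k) = v k) :
    ⊤ ≤ Submodule.span ℤ_[p] (Set.range fun ik : Fin (p - 1) × Fin d =>
        (lam z ^ (ik.1 : ℕ)) (x ik.2)) := by
  refine Submodule.le_of_le_smul_of_le_jacobson_bot (I := Ideal.span {(p : ℤ_[p])})
    (Module.Finite.fg_top) ?_ ?_
  · rw [IsLocalRing.jacobson_eq_maximalIdeal _ bot_ne_top, PadicInt.maximalIdeal_eq_span_p]
  · rintro y -
    obtain ⟨y', h⟩ := invBas_steps hz v x hx y (p - 1) le_rfl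
    obtain ⟨y'', h1⟩ := invBas_lam hz y'
    rw [h1] at h
    refine Submodule.mem_sup.2 ⟨_, h, _, ?_, sub_add_cancel _ _⟩
    exact Submodule.smul_mem_smul (Ideal.mem_span_singleton_self _) Submodule.mem_top

omit [Module.Finite ℤ_[p] N] in
private theorem invBas_div (hz : ∀ x, ∑ i ∈ Finset.range p, (z ^ i) x = 0) {d : ℕ}
    (v : Module.Basis (Fin d) (ZMod p) (Vr z)) (x : Fin d → N) (hx : ∀ k, mk z (x k) = v k)
    (a : Fin (p - 1) × Fin d → ℤ_[p])
    (ha : ∑ ik, a ik • (lam z ^ (ik.1 : ℕ)) (x ik.2) = 0) (n : ℕ) :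
    ∀ (hn : n < p - 1) (k : Fin d), PadicInt.toZMod (a (⟨n, hn⟩, k)) = 0 := by
  induction n using Nat.strong_induction_on with
  | _ n ih =>
    intro hn
    have h1 : ∀ j : Fin (p - 1), j ≠ ⟨n, hn⟩ →
        ∃ y, ∑ k, a (j, k) • (lam z ^ (j : ℕ)) (x k) = (lam z ^ (n + 1)) y := by
      intro j hj
      have h3 : ∑ k, a (j, k) • (lam z ^ (j : ℕ)) (x k) =
          (lam z ^ (j : ℕ)) (∑ k, a (j, k) • x k) := by
        rw [map_sum]
        simp only [map_smul]
      rw [h3]
      rcases lt_or_gt_of_ne (fun h => hj (Fin.ext h) : (j : ℕ) ≠ n) with h | h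
      · have h4 : ∀ k, ∃ b, a (j, k) = (p : ℤ_[p]) * b := fun k =>
          invBas_toZMod_eq_zero (ih j h j.2 k)
        choose b hb using h4
        obtain ⟨y, hy⟩ := invBas_p hz (∑ k, b k • x k)
        refine ⟨(lam z ^ ((j : ℕ) + (p - 1) - (n + 1))) y, ?_⟩
        have h5 : ∑ k, a (j, k) • x k = (p : ℤ_[p]) • ∑ k, b k • x k := by
          rw [Finset.smul_sum]
          exact Finset.sum_congr rfl fun k _ => by rw [hb, mul_smul]
        rw [h5, hy, ← Module.End.mul_apply, ← Module.End.mul_apply, ← pow_add, ← pow_add]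
        congr 2
        omega
      · refine ⟨(lam z ^ ((j : ℕ) - (n + 1))) (∑ k, a (j, k) • x k), ?_⟩
        rw [← Module.End.mul_apply, ← pow_add]
        congr 2
        omega
    rw [Fintype.sum_prod_type, ← Finset.add_sum_erase _ _ (Finset.mem_univ ⟨n, hn⟩)] at ha
    have h2 : ∃ y, ∑ j ∈ Finset.univ.erase (⟨n, hn⟩ : Fin (p - 1)),
        ∑ k, a (j, k) • (lam z ^ (j : ℕ)) (x k) = (lam z ^ (n + 1)) y := by
      choose! y hy using h1
      refine ⟨∑ j ∈ Finset.univ.erase (⟨n, hn⟩ : Fin (p - 1)), y j, ?_⟩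
      rw [map_sum]
      exact Finset.sum_congr rfl fun j hj => hy j (Finset.ne_of_mem_erase hj)
    obtain ⟨y, hy⟩ := h2
    rw [hy] at ha
    have h3 : ∑ k, a (⟨n, hn⟩, k) • (lam z ^ n) (x k) =
          (lam z ^ n) (∑ k, a (⟨n, hn⟩, k) • x k) := by
      rw [map_sum]
      simp only [map_smul]
    have h4 : (lam z ^ n) (∑ k, a (⟨n, hn⟩, k) • x k + lam z y) = 0 := by
      rw [map_add, ← h3, ← Module.End.mul_apply (lam z ^ n), ← pow_succ]
      exact ha
    have h5 : ∑ k, a (⟨n, hn⟩, k) • x k + lam z y = 0 :=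
      (injective_iff_map_eq_zero _).1 (invBas_inj hz n) _ h4
    have h6 : mk z (∑ k, a (⟨n, hn⟩, k) • x k) = 0 := by
      rw [mk_eq_zero hz]
      exact ⟨-y, by rw [map_neg]; exact eq_neg_of_add_eq_zero_left h5⟩
    rw [invBas_mk_sum] at h6
    simp only [hx] at h6
    exact Fintype.linearIndependent_iff.1 v.linearIndependent _ h6

omit [Module.Finite ℤ_[p] N] in
private theorem invBas_li (hz : ∀ x, ∑ i ∈ Finset.range p, (z ^ i) x = 0) {d : ℕ}
    (v : Module.Basis (Fin d) (ZMod p) (Vr z)) (x : Fin d → N) (hx : ∀ k, mk z (x k) = v k) :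
    LinearIndependent ℤ_[p] (fun ik : Fin (p - 1) × Fin d => (lam z ^ (ik.1 : ℕ)) (x ik.2)) := by
  rw [linearIndependent_iff_injective_fintypeLinearCombination, ← LinearMap.ker_eq_bot]
  refine Submodule.eq_bot_of_le_smul_of_le_jacobson_bot (Ideal.span {(p : ℤ_[p])}) _
    (IsNoetherian.noetherian _) ?_ ?_
  · intro a ha
    rw [LinearMap.mem_ker, Fintype.linearCombination_apply] at ha
    have h1 : ∀ ik, ∃ b, a ik = (p : ℤ_[p]) * b := fun ik =>
      invBas_toZMod_eq_zero (invBas_div hz v x hx a ha ik.1 ik.1.2 ik.2)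
    choose b hb using h1
    have h2 : a = (p : ℤ_[p]) • b := funext fun ik => by rw [hb]; rfl
    rw [h2]
    refine Submodule.smul_mem_smul (Ideal.mem_span_singleton_self _) ?_
    rw [LinearMap.mem_ker, Fintype.linearCombination_apply]
    have h3 : (p : ℤ_[p]) • ∑ ik, b ik • (lam z ^ (ik.1 : ℕ)) (x ik.2) = 0 := by
      rw [Finset.smul_sum, ← ha]
      exact Finset.sum_congr rfl fun ik _ => by rw [hb, mul_smul]
    exact (smul_eq_zero.1 h3).resolve_left (Nat.cast_ne_zero.2 (Fact.out : p.Prime).ne_zero)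
  · rw [IsLocalRing.jacobson_eq_maximalIdeal _ bot_ne_top, PadicInt.maximalIdeal_eq_span_p]

omit [Module.Finite ℤ_[p] N] [Module.IsTorsionFree ℤ_[p] N] in
private theorem invBas_pow (x : N) (n : ℕ) :
    (lam z ^ n) x ∈ Submodule.span ℤ_[p] (Set.range fun j : Fin (n + 1) => (z ^ (j : ℕ)) x) := by
  induction n with
  | zero => exact Submodule.subset_span ⟨0, rfl⟩
  | succ n ih =>
    rw [pow_succ', Module.End.mul_apply]
    generalize (lam z ^ n) x = y at ih ⊢
    induction ih using Submodule.span_induction with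
    | mem y h =>
      obtain ⟨j, rfl⟩ := h
      have h1 : lam z ((z ^ (j : ℕ)) x) = (z ^ (j : ℕ)) x - (z ^ ((j : ℕ) + 1)) x := by
        rw [pow_succ', Module.End.mul_apply]
        rfl
      simp only [h1]
      refine Submodule.sub_mem _ (Submodule.subset_span ⟨⟨j, by omega⟩, rfl⟩)
        (Submodule.subset_span ⟨⟨j + 1, by omega⟩, rfl⟩)
    | zero => rw [map_zero]; exact Submodule.zero_mem _
    | add x y _ _ hx hy => rw [map_add]; exact Submodule.add_mem _ hx hy
    | smul c x _ hx => rw [map_smul]; exact Submodule.smul_mem _ _ hx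

/-- The module is free over `ℤ_p[z]`, its rank is the dimension of the reduction modulo
`1 - z`. -/
theorem exists_rbasis (hz : ∀ x, ∑ i ∈ Finset.range p, (z ^ i) x = 0) :
    ∃ (x : Fin (Module.finrank (ZMod p) (Vr z)) → N)
      (b : Module.Basis (Fin (p - 1) × Fin (Module.finrank (ZMod p) (Vr z))) ℤ_[p] N),
      ∀ i k, b (i, k) = (z ^ (i : ℕ)) (x k) := by
  have : Module.Finite (ZMod p) (Vr z) := invBas_finite
  let v := Module.finBasis (ZMod p) (Vr z)
  choose x hx using fun k => mk_surjective z (v k)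
  let b' := Module.Basis.mk (invBas_li hz v x hx) (invBas_span hz v x hx)
  let T : Module.End ℤ_[p] N := b'.constr ℤ_[p] fun ik => (z ^ (ik.1 : ℕ)) (x ik.2)
  have hT : ∀ ik, T (b' ik) = (z ^ (ik.1 : ℕ)) (x ik.2) := fun ik => b'.constr_basis _ _ ik
  have hs : Function.Surjective T := by
    rw [← LinearMap.range_eq_top, eq_top_iff]
    refine (invBas_span hz v x hx).trans (Submodule.span_le.2 ?_)
    rintro _ ⟨ik, rfl⟩
    refine (Submodule.span_le.2 ?_ : Submodule.span ℤ_[p] (Set.range fun j : Fin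
      ((ik.1 : ℕ) + 1) => (z ^ (j : ℕ)) (x ik.2)) ≤ LinearMap.range T) (invBas_pow (x ik.2) ik.1)
    rintro _ ⟨j, rfl⟩
    exact ⟨b' (⟨j, by omega⟩, ik.2), hT _⟩
  let e : N ≃ₗ[ℤ_[p]] N := LinearEquiv.ofBijective T
    ⟨OrzechProperty.injective_of_surjective_endomorphism T hs, hs⟩
  exact ⟨x, b'.map e, fun i k => by rw [Module.Basis.map_apply]; exact hT (i, k)⟩

end Pool.Agent.PTate
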