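import Mathlib

/-!
# Linear combinations of simultaneous eigenvectors
-/

set_option autoImplicit false

noncomputable section

namespace Pool.Agent.PTate

/-- Simultaneous eigenvectors with different eigenvalues are linearly independent. -/
theorem invChar_indep {E X U : Type} [Field E] (act : U → X → X) (s : Finset (U → E)) :
    ∀ G : (U → E) → (X → E), (∀ θ ∈ s, ∀ u x, G θ (act u x) = θ u * G θ x) →
      ∑ θ ∈ s, G θ = 0 → ∀ θ ∈ s, G θ = 0 := by
  classical
  induction s using Finset.induction_on with
  | empty => intro G _ _ θ hθ; simp at hθ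
  | insert θ₁ s h1 ih =>
    intro G hG hsum
    have hx : ∀ x, G θ₁ x + ∑ θ ∈ s, G θ x = 0 := by
      intro x
      have := congrFun hsum x
      rw [Finset.sum_insert h1] at this
      simpa [Finset.sum_apply] using this
    have key : ∀ u, ∀ θ ∈ s, (θ u - θ₁ u) • G θ = 0 := by
      intro u
      refine ih (fun θ => (θ u - θ₁ u) • G θ) ?_ ?_
      · intro θ hθ v x
        have := hG θ (Finset.mem_insert_of_mem hθ) v x
        simp only [Pi.smul_apply, smul_eq_mul, this]
        ring
      · funext x
        have e1 := hx (act u x)
        have e2 := hx x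
        rw [hG θ₁ (Finset.mem_insert_self _ _) u x] at e1
        have e3 : ∑ θ ∈ s, G θ (act u x) = ∑ θ ∈ s, θ u * G θ x :=
          Finset.sum_congr rfl fun θ hθ => hG θ (Finset.mem_insert_of_mem hθ) u x
        rw [e3] at e1
        simp only [Finset.sum_apply, Pi.smul_apply, smul_eq_mul, sub_mul, Finset.sum_sub_distrib,
          Pi.zero_apply]
        rw [← Finset.mul_sum]
        linear_combination e1 - θ₁ u * e2
    have hs : ∀ θ ∈ s, G θ = 0 := by
      intro θ hθ
      have hne : θ ≠ θ₁ := by rintro rfl; exact h1 hθ
      obtain ⟨u, hu⟩ := Function.ne_iff.1 hne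
      have := key u θ hθ
      rcases smul_eq_zero.1 this with h | h
      · exact absurd (sub_eq_zero.1 h) hu
      · exact h
    intro θ hθ
    rcases Finset.mem_insert.1 hθ with rfl | hθ
    · rw [Finset.sum_insert h1, Finset.sum_eq_zero hs, add_zero] at hsum
      exact hsum
    · exact hs θ hθ

/-- A simultaneous eigenvector which is a linear combination of simultaneous eigenvectors is a
linear combination of those with the same eigenvalues. -/
theorem span_eigen {E X U : Type} [Field E] (act : U → X → X) (S : Set (X → E))
    (hS : ∀ g ∈ S, ∃ θ : U → E, ∀ u x, g (act u x) = θ u * g x) (χ : U → E) (F : X → E)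
    (hF : F ∈ Submodule.span E S) (hχ : ∀ u x, F (act u x) = χ u * F x) :
    F ∈ Submodule.span E {g | g ∈ S ∧ ∀ u x, g (act u x) = χ u * g x} := by
  classical
  have h1 : F ∈ ⨆ θ : U → E, Submodule.span E {g | g ∈ S ∧ ∀ u x, g (act u x) = θ u * g x} := by
    refine Submodule.span_le.2 ?_ hF
    intro g hg
    obtain ⟨θ, hθ⟩ := hS g hg
    exact Submodule.mem_iSup_of_mem θ (Submodule.subset_span ⟨hg, hθ⟩)
  rw [Submodule.mem_iSup_iff_exists_finsupp] at h1
  obtain ⟨f, hf, hsum⟩ := h1
  have hW : ∀ (θ : U → E) (g : X → E),
      g ∈ Submodule.span E {g | g ∈ S ∧ ∀ u x, g (act u x) = θ u * g x} →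
        ∀ u x, g (act u x) = θ u * g x := by
    intro θ g hg
    induction hg using Submodule.span_induction with
    | mem g hg => exact hg.2
    | zero => intro u x; simp
    | add a b _ _ ha hb => intro u x; simp only [Pi.add_apply, ha u x, hb u x]; ring
    | smul c a _ ha => intro u x; simp only [Pi.smul_apply, smul_eq_mul, ha u x]; ring
  have h2 := invChar_indep act (insert χ f.support) (fun θ => f θ - if θ = χ then F else 0)
    (by
      intro θ _ u x
      by_cases h : θ = χ
      · subst h
        simp only [if_true, Pi.sub_apply, hW θ (f θ) (hf θ) u x, hχ u x]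
        ring
      · simp only [if_neg h, sub_zero, hW θ (f θ) (hf θ) u x])
    (by
      rw [Finset.sum_sub_distrib, Finset.sum_ite_eq' (insert χ f.support) χ (fun _ => F),
        if_pos (Finset.mem_insert_self _ _)]
      have : ∑ θ ∈ insert χ f.support, f θ = F := by
        rw [← hsum, Finsupp.sum]
        refine (Finset.sum_subset (Finset.subset_insert _ _) ?_).symm
        intro θ _ hθ
        simpa using hθ
      rw [this, sub_self])
    χ (Finset.mem_insert_self _ _)
  rw [if_pos rfl, sub_eq_zero] at h2
  rw [← h2]
  exact hf χ

/-- Functions with values in a field which are linear combinations over an extension. -/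
theorem span_descend {k E X : Type} [Field k] [Field E] [Algebra k E] (S : Set (X → k))
    (F : X → k) (hF : (fun x => algebraMap k E (F x)) ∈
      Submodule.span E {g | ∃ g' ∈ S, ∀ x, g x = algebraMap k E (g' x)}) :
    F ∈ Submodule.span k S := by
  classical
  obtain ⟨φ, hφ⟩ := LinearMap.exists_leftInverse_of_injective (Algebra.linearMap k E)
    (LinearMap.ker_eq_bot.2 (FaithfulSMul.algebraMap_injective k E))
  have hφ1 : ∀ (c : E) (b : k), φ (c * algebraMap k E b) = b * φ c := by
    intro c b
    rw [mul_comm, ← Algebra.smul_def, map_smul, smul_eq_mul]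
  have hφ2 : ∀ b : k, φ (algebraMap k E b) = b := fun b => LinearMap.congr_fun hφ b
  have key : ∀ G : X → E, G ∈ Submodule.span E {g | ∃ g' ∈ S, ∀ x, g x = algebraMap k E (g' x)} →
      ∀ c : E, (fun x => φ (c * G x)) ∈ Submodule.span k S := by
    intro G hG
    induction hG using Submodule.span_induction with
    | mem g hg =>
      intro c
      obtain ⟨g', hg', h⟩ := hg
      have : (fun x => φ (c * g x)) = φ c • g' := by
        funext x
        rw [h x, hφ1, Pi.smul_apply, smul_eq_mul, mul_comm]
      rw [this]
      exact Submodule.smul_mem _ _ (Submodule.subset_span hg')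
    | zero =>
      intro c
      have : (fun x : X => φ (c * (0 : X → E) x)) = 0 := by
        funext x
        simp
      rw [this]
      exact Submodule.zero_mem _
    | add a b _ _ ha hb =>
      intro c
      have : (fun x => φ (c * (a + b) x)) = (fun x => φ (c * a x)) + fun x => φ (c * b x) := by
        funext x
        simp [mul_add]
      rw [this]
      exact Submodule.add_mem _ (ha c) (hb c)
    | smul d a _ ha =>
      intro c
      have : (fun x => φ (c * (d • a) x)) = fun x => φ ((c * d) * a x) := by
        funext x
        rw [Pi.smul_apply, smul_eq_mul, mul_assoc]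
      rw [this]
      exact ha (c * d)
  have h := key _ hF 1
  have : (fun x => φ (1 * algebraMap k E (F x))) = F := by
    funext x
    rw [one_mul, hφ2]
  rwa [this] at h

end Pool.Agent.PTate
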