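import Pool.Agent.PTate.Rep

/-!
# Invariant multilinear forms: definitions
-/

set_option autoImplicit false

noncomputable section

namespace Pool.Agent.PTate

open scoped Classical

section Tensor

variable {E Q T I : Type} [Field E] [Fintype I]

/-- The action of the elementary matrix with the indices `k`, `l` on the tensors with covariant
indices (`ε i = true`) and contravariant indices (`ε i = false`). -/
def Dl (ε : I → Bool) (k l : Q) (f : (I → Q) → E) (K : I → Q) : E :=
  (∑ i, if ε i = true ∧ K i = l then f (Function.update K i k) else 0) -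
    ∑ i, if ε i = false ∧ K i = k then f (Function.update K i l) else 0

/-- The determinant of a family of indices of the type `t`: the sign of the permutation, or zero. -/
def dt [Fintype Q] (τ : Q → T) (t : T) (K : {q // τ q = t} → Q) : E :=
  Matrix.det (Matrix.of fun q q' : {q // τ q = t} => if K q = q' then (1 : E) else 0)

/-- A product of contractions. -/
def IsGProd (τ : Q → T) (ε : I → Bool) (g : (I → Q) → E) : Prop :=
  ∃ (m : ℕ) (θ : Fin m → T) (π : Fin m × Bool ≃ I), (∀ a c, ε (π (a, c)) = c) ∧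
    ∀ K, g K = ∏ a, if K (π (a, true)) = K (π (a, false)) ∧ τ (K (π (a, true))) = θ a
      then 1 else 0

/-- A product of contractions and determinants. -/
def IsTProd [Fintype Q] (τ : Q → T) (ε : I → Bool) (g : (I → Q) → E) : Prop :=
  ∃ (m l : ℕ) (θ : Fin m → T) (t : Fin l → T) (s : Fin l → Bool)
    (π : (Fin m × Bool) ⊕ (Σ u : Fin l, {q // τ q = t u}) ≃ I),
    (∀ a c, ε (π (.inl (a, c))) = c) ∧ (∀ u q, ε (π (.inr ⟨u, q⟩)) = s u) ∧
    ∀ K, g K = (∏ a, if K (π (.inl (a, true))) = K (π (.inl (a, false))) ∧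
        τ (K (π (.inl (a, true)))) = θ a then 1 else 0) *
      ∏ u, dt τ (t u) fun q => K (π (.inr ⟨u, q⟩))

end Tensor

section Basis

variable {E Q T V : Type} [Field E] [Fintype Q] [AddCommGroup V] [Module E V]

/-- The operator `b (inl m) ↦ δ (m, l) b (inl k)`, `b (inr m) ↦ - δ (m, k) b (inr l)`. -/
def Xop (b : Module.Basis (Q ⊕ Q) E V) (k l : Q) : Module.End E V :=
  (b.coord (.inl l)).smulRight (b (.inl k)) - (b.coord (.inr k)).smulRight (b (.inr l))

/-- A product of the bilinear forms `∑ b (inl q)^* ⊗ b (inr q)^*`, the sum over the indices `q` of a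
given type, and of determinants of the coordinates `b (inl q)^*` or `b (inr q)^*`, `q` of a given
type. -/
def IsVProd (b : Module.Basis (Q ⊕ Q) E V) (τ : Q → T) {n r : ℕ}
    (g : (Fin r → Fin n → V) → E) : Prop :=
  ∃ (m l : ℕ) (θ : Fin m → T) (t : Fin l → T) (s : Fin l → Bool)
    (π : (Fin m × Bool) ⊕ (Σ u : Fin l, {q // τ q = t u}) ≃ Fin r) (β : Fin r → Fin n),
    ∀ v, g v = (∏ a, ∑ q : {q // τ q = θ a},
        b.coord (.inl q) (v (π (.inl (a, true))) (β (π (.inl (a, true))))) *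
          b.coord (.inr q) (v (π (.inl (a, false))) (β (π (.inl (a, false)))))) *
      ∏ u, Matrix.det (Matrix.of fun q q' : {q // τ q = t u} =>
        b.coord (if s u = true then .inl q'.1 else .inr q'.1)
          (v (π (.inr ⟨u, q⟩)) (β (π (.inr ⟨u, q⟩)))))

end Basis

section Lattice

variable {p : ℕ} [Fact p.Prime] {E : Type} [Field E] [Algebra ℤ_[p] E]

/-- A determinant: an alternating form whose number of variables is the rank over `ℤ_p[z]` and
which satisfies `D (z x, ...) = ζ ^ a D (x, ...)`. -/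
def IsDet {N : Type} [AddCommGroup N] [Module ℤ_[p] N] (ζ : E) (z : Module.End ℤ_[p] N) {d : ℕ}
    (D : N [⋀^Fin d]→ₗ[ℤ_[p]] E) : Prop :=
  d * (p - 1) = Module.finrank ℤ_[p] N ∧ ∃ a, 0 < a ∧ a < p ∧
    ∀ w i, D (Function.update w i (z (w i))) = ζ ^ a * D w

variable {σ : Type} {M : σ → Type} [∀ s, AddCommGroup (M s)] [∀ s, Module ℤ_[p] (M s)]

/-- A product of pairings `e (z ^ i x, y)` and of determinants. -/
def IsProd (z : ∀ s, Module.End ℤ_[p] (M s))
    (e : ∀ s, M s →ₗ[ℤ_[p]] M s →ₗ[ℤ_[p]] ℤ_[p]) (ζ : E) {n r : ℕ}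
    (g : (Fin r → Fin n → ∀ s, M s) → E) : Prop :=
  ∃ (k l : ℕ) (s : Fin k → σ) (i : Fin k → ℕ) (t : Fin l → σ) (d : Fin l → ℕ)
    (D : ∀ u : Fin l, (M (t u)) [⋀^Fin (d u)]→ₗ[ℤ_[p]] E)
    (π : (Fin k × Bool) ⊕ (Σ u : Fin l, Fin (d u)) ≃ Fin r) (β : Fin r → Fin n),
    (∀ u, IsDet ζ (z (t u)) (D u)) ∧
    ∀ v, g v = (∏ a, algebraMap ℤ_[p] E (e (s a)
        ((z (s a) ^ i a) (v (π (.inl (a, true))) (β (π (.inl (a, true)))) (s a)))
        (v (π (.inl (a, false))) (β (π (.inl (a, false)))) (s a)))) *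
      ∏ u, D u fun j => v (π (.inr ⟨u, j⟩)) (β (π (.inr ⟨u, j⟩))) (t u)

end Lattice

end Pool.Agent.PTate
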