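import Mathlib

/-!
# Extension of multilinear forms from lattices
-/

set_option autoImplicit false

noncomputable section

namespace Pool.Agent.PTate

variable {R E W V : Type} [CommRing R] [IsDomain R] [IsPrincipalIdealRing R] [Field E]
  [Algebra R E] [AddCommGroup W] [Module R W] [Module.Finite R W] [Module.IsTorsionFree R W]
  [AddCommGroup V] [Module E V] [Module R V] [IsScalarTower R E V]

/-- A map from a lattice to a vector space of the same rank whose image spans the vector space
maps bases to bases. -/
theorem exists_basis_map (j : W →ₗ[R] V) (hj : Submodule.span E (Set.range j) = ⊤)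
    (hd : Module.finrank R W = Module.finrank E V) {ι : Type} (b : Module.Basis ι R W) :
    ∃ b' : Module.Basis ι E V, ∀ i, b' i = j (b i) := by
  classical
  have : Finite ι := Module.Finite.finite_basis b
  have : Fintype ι := Fintype.ofFinite ι
  have hspan : ⊤ ≤ Submodule.span E (Set.range fun i => j (b i)) := by
    rw [← hj, Submodule.span_le]
    rintro _ ⟨w, rfl⟩
    rw [← b.sum_repr w, map_sum]
    refine Submodule.sum_mem _ fun i _ => ?_
    rw [map_smul, ← algebraMap_smul E (b.repr w i) (j (b i))]
    exact Submodule.smul_mem _ _ (Submodule.subset_span ⟨i, rfl⟩)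
  have hcard : Fintype.card ι = Module.finrank E V := by
    rw [← hd, Module.finrank_eq_card_basis b]
  refine ⟨basisOfTopLeSpanOfCardEqFinrank _ hspan hcard, fun i => ?_⟩
  rw [coe_basisOfTopLeSpanOfCardEqFinrank]

/-- The extension of multilinear forms. -/
theorem exists_ext (j : W →ₗ[R] V) (hj : Submodule.span E (Set.range j) = ⊤)
    (hd : Module.finrank R W = Module.finrank E V) {r : ℕ}
    (F : MultilinearMap R (fun _ : Fin r => W) E) :
    ∃ F' : MultilinearMap E (fun _ : Fin r => V) E, ∀ v : Fin r → W, F' (fun i => j (v i)) = F v := by
  classical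
  have : Module.Free R W := inferInstance
  let b := Module.Free.chooseBasis R W
  obtain ⟨b', hb'⟩ := exists_basis_map j hj hd b
  have hcoord : ∀ (c : Module.Free.ChooseBasisIndex R W) (w : W),
      b'.coord c (j w) = algebraMap R E (b.repr w c) := by
    intro c w
    conv_lhs => rw [← b.sum_repr w]
    rw [map_sum, map_sum, Finset.sum_eq_single c]
    · rw [map_smul, ← hb', ← algebraMap_smul E (b.repr w c) (b' c), map_smul, b'.coord_apply,
        b'.repr_self, Finsupp.single_eq_same, smul_eq_mul, mul_one]
    · intro i _ hi
      rw [map_smul, ← hb', ← algebraMap_smul E (b.repr w i) (b' i), map_smul, b'.coord_apply,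
        b'.repr_self, Finsupp.single_eq_of_ne hi.symm, smul_zero]
    · intro h
      exact absurd (Finset.mem_univ c) h
  refine ⟨∑ K : Fin r → Module.Free.ChooseBasisIndex R W, F (fun i => b (K i)) •
    (MultilinearMap.mkPiAlgebra E (Fin r) E).compLinearMap (fun i => b'.coord (K i)), fun v => ?_⟩
  rw [sum_apply]
  have h1 : F v = F (fun i => ∑ c, b.repr (v i) c • b c) := by
    congr 1
    funext i
    rw [b.sum_repr]
  rw [h1, MultilinearMap.map_sum]
  refine Finset.sum_congr rfl fun K _ => ?_
  rw [smul_apply, MultilinearMap.compLinearMap_apply,
    MultilinearMap.mkPiAlgebra_apply, MultilinearMap.map_smul_univ]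
  simp only [hcoord]
  rw [← map_prod, smul_eq_mul, mul_comm, ← Algebra.smul_def]

/-- Multilinear maps which agree on a spanning set agree. -/
theorem ext_span {X U : Type} {S : Set X} [AddCommGroup X] [Module E X] [AddCommGroup U]
    [Module E U] (hS : Submodule.span E S = ⊤) {r : ℕ}
    {F G : MultilinearMap E (fun _ : Fin r => X) U}
    (h : ∀ v : Fin r → X, (∀ i, v i ∈ S) → F v = G v) : F = G := by
  classical
  have key : ∀ (s : Finset (Fin r)) (v : Fin r → X), (∀ i, i ∉ s → v i ∈ S) → F v = G v := by
    intro s
    induction s using Finset.induction_on with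
    | empty => exact fun v hv => h v fun i => hv i (Finset.notMem_empty i)
    | insert a s ha ih =>
      intro v hv
      have h1 : F.toLinearMap v a = G.toLinearMap v a := by
        refine LinearMap.ext_on hS fun x hx => ?_
        rw [MultilinearMap.toLinearMap_apply, MultilinearMap.toLinearMap_apply]
        refine ih _ fun i hi => ?_
        by_cases hia : i = a
        · subst hia
          rw [Function.update_self]
          exact hx
        · rw [Function.update_of_ne hia]
          exact hv i (by simp [hia, hi])
      have h2 := LinearMap.congr_fun h1 (v a)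
      rwa [MultilinearMap.toLinearMap_apply, MultilinearMap.toLinearMap_apply,
        Function.update_eq_self] at h2
  ext v
  exact key Finset.univ v fun i hi => absurd (Finset.mem_univ i) hi

end Pool.Agent.PTate
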