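import Pool.Agent.PTate.InvEig
import Pool.Agent.PTate.InvExt
import Pool.Agent.PTate.InvDefs

/-!
# Uniqueness of the determinants
-/

set_option autoImplicit false

noncomputable section

namespace Pool.Agent.PTate

open scoped Classical

variable {p : ℕ} [Fact p.Prime] {N : Type} [AddCommGroup N] [Module ℤ_[p] N]
  {E : Type} [Field E] [Algebra ℤ_[p] E]

/-- An alternating form in `d` variables which vanishes if one of the variables is a basis vector
outside of a family of `d` basis vectors is a multiple of a determinant. -/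
private theorem invDet_abs {E I : Type} [Field E] [Fintype I] {d : ℕ}
    (F : (I → E) [⋀^Fin d]→ₗ[E] E) (c : Fin d → I) (hc : Function.Injective c)
    (h : ∀ (v : Fin d → I → E) (i : Fin d) (q : I), (∀ k, q ≠ c k) →
      v i = Pi.single q (1 : E) → F v = 0) (v : Fin d → I → E) :
    F v = F (fun k => Pi.single (c k) (1 : E)) *
      Matrix.det (Matrix.of fun i k : Fin d => v i (c k)) := by
  set G : (I → E) [⋀^Fin d]→ₗ[E] E := F (fun k => Pi.single (c k) (1 : E)) •
    (Matrix.detRowAlternating.compLinearMap (LinearMap.funLeft E E c)) with hG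
  have hGv : ∀ w : Fin d → I → E, G w = F (fun k => Pi.single (c k) (1 : E)) *
      Matrix.det (Matrix.of fun i k : Fin d => w i (c k)) := by
    intro w
    rw [hG, AlternatingMap.smul_apply, smul_eq_mul, AlternatingMap.compLinearMap_apply]
    rfl
  rw [← hGv]
  have hFG : F = G := by
    refine Module.Basis.ext_alternating (Pi.basisFun E I) fun w hw => ?_
    simp only [Pi.basisFun_apply]
    by_cases hr : ∀ i, ∃ k, w i = c k
    · choose σ hσ using hr
      have hi : Function.Injective σ := by
        intro i k hik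
        apply hw
        rw [hσ i, hσ k, hik]
      let s : Equiv.Perm (Fin d) := Equiv.ofBijective σ (Finite.injective_iff_bijective.1 hi)
      have h1 : (fun i => Pi.single (w i) (1 : E) : Fin d → I → E) =
          (fun k => Pi.single (c k) (1 : E) : Fin d → I → E) ∘ s := by
        funext i
        simp only [Function.comp_apply, hσ i]
        rfl
      rw [h1, AlternatingMap.map_perm, AlternatingMap.map_perm, hGv]
      have h2 : (Matrix.of fun i k : Fin d => (Pi.single (c i) (1 : E) : I → E) (c k)) = 1 := by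
        ext i k
        rw [Matrix.of_apply, Matrix.one_apply, Pi.single_apply]
        by_cases hik : i = k
        · rw [if_pos hik, if_pos (by rw [hik])]
        · rw [if_neg hik, if_neg fun he => hik (hc he).symm]
      rw [h2, Matrix.det_one, mul_one]
    · push Not at hr
      obtain ⟨i, hi⟩ := hr
      rw [h _ i (w i) hi rfl, hGv]
      rw [Matrix.det_eq_zero_of_row_eq_zero i, mul_zero]
      intro k
      rw [Matrix.of_apply, Pi.single_apply, if_neg fun he => hi k he.symm]
  rw [hFG]

/-- The extension of an alternating form is alternating. -/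
private theorem invDet_alt {R E W V : Type} [CommRing R] [IsDomain R] [IsPrincipalIdealRing R]
    [Field E] [CharZero E]
    [Algebra R E] [AddCommGroup W] [Module R W] [Module.Finite R W] [Module.IsTorsionFree R W]
    [AddCommGroup V] [Module E V] [Module R V] [IsScalarTower R E V]
    (j : W →ₗ[R] V) (hj : Submodule.span E (Set.range j) = ⊤)
    (hd : Module.finrank R W = Module.finrank E V) {r : ℕ} (D : W [⋀^Fin r]→ₗ[R] E) :
    ∃ F : V [⋀^Fin r]→ₗ[E] E, ∀ v : Fin r → W, F (fun i => j (v i)) = D v := by
  obtain ⟨F, hF⟩ := exists_ext j hj hd D.toMultilinearMap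
  have hsw : ∀ i k : Fin r, i ≠ k → F.domDomCongr (Equiv.swap i k) = -F := by
    intro i k hik
    refine ext_span hj fun v hv => ?_
    choose w hw using hv
    have h1 : v = fun i => j (w i) := by
      funext i
      rw [hw]
    rw [MultilinearMap.domDomCongr_apply, neg_apply, h1]
    have h2 := hF fun l => w (Equiv.swap i k l)
    have h3 : D (fun l => w (Equiv.swap i k l)) = -D w := D.map_swap w hik
    rw [h2, hF]
    exact h3
  refine ⟨{ F with map_eq_zero_of_eq' := ?_ }, hF⟩
  intro v i k hv hik
  have h1 := congrArg (fun G => G v) (hsw i k hik)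
  simp only [MultilinearMap.domDomCongr_apply, neg_apply] at h1
  have h2 : (fun l => v (Equiv.swap i k l)) = v := by
    funext l
    by_cases hl : l = i
    · rw [hl, Equiv.swap_apply_left, hv]
    · by_cases hl' : l = k
      · rw [hl', Equiv.swap_apply_right, hv]
      · rw [Equiv.swap_apply_of_ne_of_ne hl hl']
  rw [h2] at h1
  exact self_eq_neg.1 h1

/-- The eigenvalue property of the extension of an alternating form: it vanishes on the basis
vectors with another eigenvalue. -/
private theorem invDet_eig {I : Type} [Fintype I] {z : Module.End ℤ_[p] N}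
    (j : N →ₗ[ℤ_[p]] (I → E)) (hj : Submodule.span E (Set.range j) = ⊤) (lam : I → E)
    (hl : ∀ x q, j (z x) q = lam q * j x q) {d : ℕ} {D : N [⋀^Fin d]→ₗ[ℤ_[p]] E} {μ : E}
    (hD : ∀ w i, D (Function.update w i (z (w i))) = μ * D w)
    (F : (I → E) [⋀^Fin d]→ₗ[E] E) (hF : ∀ v : Fin d → N, F (fun i => j (v i)) = D v)
    (v : Fin d → I → E) (i : Fin d) (q : I) (hq : lam q ≠ μ) (hv : v i = Pi.single q (1 : E)) :
    F v = 0 := by
  set Z : (I → E) →ₗ[E] (I → E) := LinearMap.pi fun q => lam q • LinearMap.proj q with hZ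
  have hZa : ∀ x q, Z x q = lam q * x q := by
    intro x q
    rw [hZ, LinearMap.pi_apply, LinearMap.smul_apply, LinearMap.proj_apply, smul_eq_mul]
  have hZj : ∀ x, Z (j x) = j (z x) := by
    intro x
    funext q
    rw [hZa, hl]
  have key : F.toMultilinearMap.compLinearMap
      (fun k : Fin d => if k = i then Z else LinearMap.id) = μ • F.toMultilinearMap := by
    refine ext_span hj fun v hv => ?_
    choose w hw using hv
    have h1 : v = fun i => j (w i) := by
      funext i
      rw [hw]
    rw [MultilinearMap.compLinearMap_apply, smul_apply, h1]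
    have h2 : (fun k => (if k = i then Z else LinearMap.id) (j (w k))) =
        fun k => j (Function.update w i (z (w i)) k) := by
      funext k
      by_cases hk : k = i
      · subst hk
        rw [if_pos rfl, Function.update_self, hZj]
      · rw [if_neg hk, Function.update_of_ne hk, LinearMap.id_apply]
    have h3 := hF (Function.update w i (z (w i)))
    have h4 := hF w
    rw [h2]
    change F (fun k => j (Function.update w i (z (w i)) k)) = μ • F (fun k => j (w k))
    rw [h3, h4, hD, smul_eq_mul]
  have h1 := congrArg (fun G => G v) key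
  simp only [MultilinearMap.compLinearMap_apply, smul_apply, smul_eq_mul] at h1
  have h2 : (fun k => (if k = i then Z else LinearMap.id) (v k)) =
      Function.update v i (lam q • v i) := by
    funext k
    by_cases hk : k = i
    · subst hk
      rw [if_pos rfl, Function.update_self, hv]
      funext q'
      rw [hZa, Pi.smul_apply, smul_eq_mul, Pi.single_apply]
      by_cases hqq : q' = q
      · rw [hqq]
      · rw [if_neg hqq, mul_zero, mul_zero]
    · rw [if_neg hk, Function.update_of_ne hk, LinearMap.id_apply]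
  rw [h2] at h1
  change F (Function.update v i (lam q • v i)) = μ * F v at h1
  rw [AlternatingMap.map_update_smul, Function.update_eq_self, smul_eq_mul] at h1
  have h3 : (lam q - μ) * F v = 0 := by
    rw [sub_mul, h1, sub_self]
  exact (mul_eq_zero.1 h3).resolve_left (sub_ne_zero.2 hq)

/-- The form is a multiple of a determinant of coordinates. -/
private theorem invDet_form [Module.Finite ℤ_[p] N] [Module.IsTorsionFree ℤ_[p] N] [CharZero E]
    {I : Type} [Fintype I] {z : Module.End ℤ_[p] N}
    (j : N →ₗ[ℤ_[p]] (I → E)) (hj : Submodule.span E (Set.range j) = ⊤)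
    (hr : Module.finrank ℤ_[p] N = Fintype.card I) (lam : I → E)
    (hl : ∀ x q, j (z x) q = lam q * j x q) {d : ℕ} {D : N [⋀^Fin d]→ₗ[ℤ_[p]] E} {μ : E}
    (hD : ∀ w i, D (Function.update w i (z (w i))) = μ * D w) (c : Fin d → I)
    (hc : Function.Injective c) (hu : ∀ q, lam q = μ → ∃ k, q = c k) :
    ∃ A : E, ∀ w, D w = A * Matrix.det (Matrix.of fun i k : Fin d => j (w i) (c k)) := by
  obtain ⟨F, hF⟩ := invDet_alt j hj (by rw [hr, Module.finrank_pi]) D
  refine ⟨F (fun k => Pi.single (c k) (1 : E)), fun w => ?_⟩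
  rw [← hF w]
  refine invDet_abs F c hc (fun v i q hq hv => ?_) _
  refine invDet_eig j hj lam hl hD F hF v i q (fun h => ?_) hv
  obtain ⟨k, hk⟩ := hu q h
  exact hq k hk

/-- The alternating forms whose number of variables is the rank and which have the eigenvalue
`ζ ^ a` in each variable are proportional. -/
theorem det_unique [Module.Finite ℤ_[p] N] [Module.IsTorsionFree ℤ_[p] N] [CharZero E]
    (hp : p ≠ 2) {z : Module.End ℤ_[p] N} {e : N →ₗ[ℤ_[p]] N →ₗ[ℤ_[p]] ℤ_[p]} {ζ : E}
    (hζ : IsPrimitiveRoot ζ p) {d : ℕ}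
    {j : N →ₗ[ℤ_[p]] ((Fin ((p - 1) / 2) × Fin d) ⊕ (Fin ((p - 1) / 2) × Fin d) → E)}
    (he : Eig z e ζ d j) {a : ℕ} (ha0 : 0 < a) (ha : a < p) {D D' : N [⋀^Fin d]→ₗ[ℤ_[p]] E}
    (hD : ∀ w i, D (Function.update w i (z (w i))) = ζ ^ a * D w)
    (hD' : ∀ w i, D' (Function.update w i (z (w i))) = ζ ^ a * D' w) (h0 : D' ≠ 0) :
    ∃ c : E, ∀ w, D w = c * D' w := by
  have hpp : p.Prime := Fact.out
  have hodd : p % 2 = 1 := by
    rcases hpp.eq_two_or_odd with h | h
    · exact absurd h hp
    · exact h
  set lam : (Fin ((p - 1) / 2) × Fin d) ⊕ (Fin ((p - 1) / 2) × Fin d) → E :=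
    Sum.elim (fun x => ζ ^ ((x.1 : ℕ) + 1)) (fun x => ζ ^ (p - ((x.1 : ℕ) + 1))) with hlam
  have hl : ∀ x q, j (z x) q = lam q * j x q := by
    rintro x (⟨b, k⟩ | ⟨b, k⟩)
    · exact he.left x b k
    · exact he.right x b k
  have hr : Module.finrank ℤ_[p] N =
      Fintype.card ((Fin ((p - 1) / 2) × Fin d) ⊕ (Fin ((p - 1) / 2) × Fin d)) := by
    rw [← he.rank, Fintype.card_sum, Fintype.card_prod, Fintype.card_fin, Fintype.card_fin,
      ← two_mul, ← mul_assoc, mul_comm d]
    congr 1
    omega
  obtain ⟨c, hc, hu⟩ : ∃ c : Fin d → (Fin ((p - 1) / 2) × Fin d) ⊕ (Fin ((p - 1) / 2) × Fin d),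
      Function.Injective c ∧ ∀ q, lam q = ζ ^ a → ∃ k, q = c k := by
    by_cases hah : a ≤ (p - 1) / 2
    · refine ⟨fun k => .inl (⟨a - 1, by omega⟩, k), fun k k' hk => ?_, ?_⟩
      · have := Sum.inl.inj hk
        exact (Prod.ext_iff.1 this).2
      · rintro (⟨b, k⟩ | ⟨b, k⟩) hq
        · refine ⟨k, ?_⟩
          have hb := b.2
          have h1 : ζ ^ ((b : ℕ) + 1) = ζ ^ a := hq
          have h2 := hζ.pow_inj (by omega) ha h1
          congr 2
          apply Fin.ext
          change (b : ℕ) = a - 1
          omega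
        · exfalso
          have hb := b.2
          have h1 : ζ ^ (p - ((b : ℕ) + 1)) = ζ ^ a := hq
          have h2 := hζ.pow_inj (by omega) ha h1
          omega
    · refine ⟨fun k => .inr (⟨p - a - 1, by omega⟩, k), fun k k' hk => ?_, ?_⟩
      · have := Sum.inr.inj hk
        exact (Prod.ext_iff.1 this).2
      · rintro (⟨b, k⟩ | ⟨b, k⟩) hq
        · exfalso
          have hb := b.2
          have h1 : ζ ^ ((b : ℕ) + 1) = ζ ^ a := hq
          have h2 := hζ.pow_inj (by omega) ha h1
          omega
        · refine ⟨k, ?_⟩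
          have hb := b.2
          have h1 : ζ ^ (p - ((b : ℕ) + 1)) = ζ ^ a := hq
          have h2 := hζ.pow_inj (by omega) ha h1
          congr 2
          apply Fin.ext
          change (b : ℕ) = p - a - 1
          omega
  obtain ⟨A, hA⟩ := invDet_form j he.span hr lam hl hD c hc hu
  obtain ⟨A', hA'⟩ := invDet_form j he.span hr lam hl hD' c hc hu
  have hA0 : A' ≠ 0 := by
    intro h
    apply h0
    ext w
    rw [hA', h, zero_mul, AlternatingMap.zero_apply]
  refine ⟨A / A', fun w => ?_⟩
  rw [hA, hA', ← mul_assoc, div_mul_cancel₀ _ hA0]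

/-- An operator which commutes with `z` multiplies the determinants by scalars. -/
theorem IsDet.mul [Module.Finite ℤ_[p] N] [Module.IsTorsionFree ℤ_[p] N] [CharZero E]
    (hp : p ≠ 2) {z : Module.End ℤ_[p] N} {e : N →ₗ[ℤ_[p]] N →ₗ[ℤ_[p]] ℤ_[p]}
    (hz : ∀ x, ∑ i ∈ Finset.range p, (z ^ i) x = 0) (hi : ∀ x y, e (z x) (z y) = e x y)
    (hs : ∀ x y, e x y = -e y x) (hn : ∀ x, (∀ y, e x y = 0) → x = 0) {ζ : E}
    (hζ : IsPrimitiveRoot ζ p) {d : ℕ} {D : N [⋀^Fin d]→ₗ[ℤ_[p]] E} (hD : IsDet ζ z D)
    {A : Module.End ℤ_[p] N} (hA : ∀ x, A (z x) = z (A x)) :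
    ∃ c : E, ∀ w, D (fun i => A (w i)) = c * D w := by
  obtain ⟨j, hj⟩ := exists_eig hp hz hi hs hn hζ
  obtain ⟨hr, a, ha0, ha, hD⟩ := hD
  have hpp : p.Prime := Fact.out
  have hd : Module.finrank (ZMod p) (Vr z) = d := by
    have h1 := hj.rank.trans hr.symm
    exact Nat.eq_of_mul_eq_mul_right (by have := hpp.two_le; omega) h1
  subst hd
  by_cases h0 : D = 0
  · refine ⟨0, fun w => ?_⟩
    rw [h0, AlternatingMap.zero_apply, zero_mul]
  · have hD1 : ∀ w i, D.compLinearMap A (Function.update w i (z (w i))) =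
        ζ ^ a * D.compLinearMap A w := by
      intro w i
      rw [AlternatingMap.compLinearMap_apply, AlternatingMap.compLinearMap_apply, ← hD _ i]
      congr 1
      funext k
      by_cases hk : k = i
      · subst hk
        rw [Function.update_self, Function.update_self, hA]
      · rw [Function.update_of_ne hk, Function.update_of_ne hk]
    obtain ⟨c, hc⟩ := det_unique hp hζ hj ha0 ha hD1 hD h0
    exact ⟨c, fun w => hc w⟩

end Pool.Agent.PTate
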