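import Pool.Agent.PTate.InvBas

/-!
# Coordinates in which `z` is diagonal
-/

set_option autoImplicit false

noncomputable section

namespace Pool.Agent.PTate

open scoped Classical

variable {p : ℕ} [Fact p.Prime] {N : Type} [AddCommGroup N] [Module ℤ_[p] N]
  {E : Type} [Field E] [Algebra ℤ_[p] E]

/-- Coordinates on the lattice with values in the field `E`: the automorphism `z` is diagonal with
the eigenvalues `ζ ^ a` on the first half of the coordinates and `ζ ^ (-a)` on the second half,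
`1 ≤ a ≤ (p - 1) / 2`, and the form `e` has the standard shape. -/
structure Eig (z : Module.End ℤ_[p] N) (e : N →ₗ[ℤ_[p]] N →ₗ[ℤ_[p]] ℤ_[p]) (ζ : E) (d : ℕ)
    (j : N →ₗ[ℤ_[p]] ((Fin ((p - 1) / 2) × Fin d) ⊕ (Fin ((p - 1) / 2) × Fin d) → E)) : Prop where
  rank : d * (p - 1) = Module.finrank ℤ_[p] N
  span : Submodule.span E (Set.range j) = ⊤
  left : ∀ x a k, j (z x) (.inl (a, k)) = ζ ^ ((a : ℕ) + 1) * j x (.inl (a, k))
  right : ∀ x a k, j (z x) (.inr (a, k)) = ζ ^ (p - ((a : ℕ) + 1)) * j x (.inr (a, k))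
  form : ∀ x y, algebraMap ℤ_[p] E (e x y) =
    ∑ q, (j x (.inl q) * j y (.inr q) - j x (.inr q) * j y (.inl q))

section Aux

private theorem eig_shift {M : Type} [AddCommGroup M] (g : ℕ → M) (n : ℕ) (h : g n = g 0) :
    ∑ i ∈ Finset.range n, g (i + 1) = ∑ i ∈ Finset.range n, g i := by
  have h1 := Finset.sum_range_succ g n
  rw [Finset.sum_range_succ', h] at h1
  exact add_right_cancel h1

/-- the sum of `η ^ i e(z ^ i u, y)` -/
private def eigT (z : Module.End ℤ_[p] N) (e : N →ₗ[ℤ_[p]] N →ₗ[ℤ_[p]] ℤ_[p]) (η : E)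
    (u y : N) : E :=
  ∑ i ∈ Finset.range p, η ^ i * algebraMap ℤ_[p] E (e ((z ^ i) u) y)

private def eigTL (z : Module.End ℤ_[p] N) (e : N →ₗ[ℤ_[p]] N →ₗ[ℤ_[p]] ℤ_[p]) (η : E)
    (u : N) : N →ₗ[ℤ_[p]] E where
  toFun y := eigT z e η u y
  map_add' x y := by
    simp only [eigT, map_add, mul_add, Finset.sum_add_distrib]
  map_smul' c x := by
    simp only [eigT, map_smul, smul_eq_mul, map_mul, RingHom.id_apply, Algebra.smul_def,
      Finset.mul_sum]
    exact Finset.sum_congr rfl fun i _ => by ring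

private def eigTR (z : Module.End ℤ_[p] N) (e : N →ₗ[ℤ_[p]] N →ₗ[ℤ_[p]] ℤ_[p]) (η : E)
    (y : N) : N →ₗ[ℤ_[p]] E where
  toFun u := eigT z e η u y
  map_add' x y := by
    simp only [eigT, map_add, LinearMap.add_apply, mul_add, Finset.sum_add_distrib]
  map_smul' c x := by
    simp only [eigT, map_smul, LinearMap.smul_apply, smul_eq_mul, map_mul, RingHom.id_apply,
      Algebra.smul_def, Finset.mul_sum]
    exact Finset.sum_congr rfl fun i _ => by ring

variable {z : Module.End ℤ_[p] N} {e : N →ₗ[ℤ_[p]] N →ₗ[ℤ_[p]] ℤ_[p]}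

private theorem eigT_z1 (hzp : z ^ p = 1) {η : E} (hη : η ^ p = 1) (u y : N) :
    η * eigT z e η (z u) y = eigT z e η u y := by
  unfold eigT
  have h := eig_shift (fun i => η ^ i * algebraMap ℤ_[p] E (e ((z ^ i) u) y)) p
    (by simp [hzp, hη])
  rw [← h, Finset.mul_sum]
  refine Finset.sum_congr rfl fun i _ => ?_
  rw [pow_succ' η, pow_succ z, Module.End.mul_apply]
  ring

private theorem eigT_z2 (hi : ∀ x y, e (z x) (z y) = e x y) (hzp : z ^ p = 1) {η : E}
    (hη : η ^ p = 1) (u y : N) : eigT z e η u (z y) = η * eigT z e η u y := by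
  unfold eigT
  have h := eig_shift (fun i => η ^ i * algebraMap ℤ_[p] E (e ((z ^ i) u) (z y))) p
    (by simp [hzp, hη])
  rw [← h, Finset.mul_sum]
  refine Finset.sum_congr rfl fun i _ => ?_
  rw [pow_succ' η, pow_succ' z, Module.End.mul_apply, hi]
  ring

private theorem eigT_neg (hi : ∀ x y, e (z x) (z y) = e x y) (hs : ∀ x y, e x y = -e y x)
    (hzp : z ^ p = 1) {η θ : E} (hη : η ^ p = 1) (hθ : η * θ = 1) (u y : N) :
    eigT z e θ u y = -eigT z e η y u := by
  have hip : ∀ (m : ℕ) (x y : N), e ((z ^ m) x) ((z ^ m) y) = e x y := by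
    intro m
    induction m with
    | zero => intro x y; simp
    | succ m ih =>
      intro x y
      rw [pow_succ', Module.End.mul_apply, Module.End.mul_apply, hi, ih]
  have hθp : θ ^ p = 1 := by
    have := congrArg (· ^ p) hθ
    simpa [mul_pow, hη] using this
  have key : ∀ i ≤ p, θ ^ i * algebraMap ℤ_[p] E (e ((z ^ i) u) y) =
      -(η ^ (p - i) * algebraMap ℤ_[p] E (e ((z ^ (p - i)) y) u)) := by
    intro i hi'
    have h1 : θ ^ i = η ^ (p - i) := by
      have h2 : η ^ (p - i) * η ^ i = 1 := by rw [← pow_add, Nat.sub_add_cancel hi', hη]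
      have h3 : η ^ i * θ ^ i = 1 := by rw [← mul_pow, hθ, one_pow]
      calc θ ^ i = (η ^ (p - i) * η ^ i) * θ ^ i := by rw [h2, one_mul]
        _ = η ^ (p - i) * (η ^ i * θ ^ i) := by ring
        _ = _ := by rw [h3, mul_one]
    have h4 : e ((z ^ i) u) y = -e ((z ^ (p - i)) y) u := by
      rw [← hip (p - i) ((z ^ i) u) y, ← Module.End.mul_apply, ← pow_add,
        Nat.sub_add_cancel hi', hzp, Module.End.one_apply, hs]
    rw [h1, h4, map_neg]
    ring
  unfold eigT
  have h := eig_shift (fun i => θ ^ i * algebraMap ℤ_[p] E (e ((z ^ i) u) y)) p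
    (by simp [hzp, hθp])
  rw [← h, ← Finset.sum_neg_distrib, ← Finset.sum_range_reflect
    (fun i => -(η ^ i * algebraMap ℤ_[p] E (e ((z ^ i) y) u)))]
  refine Finset.sum_congr rfl fun i hi' => ?_
  have h5 : i + 1 ≤ p := Finset.mem_range.1 hi'
  rw [key (i + 1) h5, show p - (i + 1) = p - 1 - i by omega]

private theorem eigT_pow (hzp : z ^ p = 1) {η θ : E} (hη : η ^ p = 1) (hθ : η * θ = 1) (u y : N)
    (i : ℕ) : eigT z e θ ((z ^ i) u) y = η ^ i * eigT z e θ u y := by
  have hθp : θ ^ p = 1 := by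
    have := congrArg (· ^ p) hθ
    simpa [mul_pow, hη] using this
  induction i with
  | zero => simp
  | succ i ih =>
    have h1 := eigT_z1 (e := e) hzp hθp ((z ^ i) u) y
    rw [ih] at h1
    have h2 : eigT z e θ (z ((z ^ i) u)) y = η * (θ * eigT z e θ (z ((z ^ i) u)) y) := by
      rw [← mul_assoc, hθ, one_mul]
    rw [pow_succ', Module.End.mul_apply, h2, h1, pow_succ']
    ring

variable {d : ℕ} {x : Fin d → N} {b : Module.Basis (Fin (p - 1) × Fin d) ℤ_[p] N}

/-- the eigenfunctional -/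
private def eigP (b : Module.Basis (Fin (p - 1) × Fin d) ℤ_[p] N) (η : E) (k : Fin d) :
    N →ₗ[ℤ_[p]] E :=
  b.constr ℤ_[p] fun s => if s.2 = k then η ^ (s.1 : ℕ) else 0

private theorem eigP_b (η : E) (k : Fin d) (s : Fin (p - 1) × Fin d) :
    eigP b η k (b s) = if s.2 = k then η ^ (s.1 : ℕ) else 0 :=
  b.constr_basis ℤ_[p] _ s

private theorem eig_zlast (hz : ∀ x, ∑ i ∈ Finset.range p, (z ^ i) x = 0) (u : N) :
    (z ^ (p - 1)) u = -∑ i ∈ Finset.range (p - 1), (z ^ i) u := by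
  have h1 := hz u
  have h2 : p = (p - 1) + 1 := by
    have := (Fact.out : p.Prime).two_le
    omega
  have h3 : ∑ i ∈ Finset.range ((p - 1) + 1), (z ^ i) u = 0 := by
    rw [← h2]; exact h1
  rw [Finset.sum_range_succ] at h3
  exact eq_neg_of_add_eq_zero_right h3

private theorem eigP_pow (hb : ∀ i k, b (i, k) = (z ^ (i : ℕ)) (x k))
    (hz : ∀ x, ∑ i ∈ Finset.range p, (z ^ i) x = 0) {η : E}
    (hη : ∑ i ∈ Finset.range p, η ^ i = 0) (k l : Fin d) {i : ℕ} (hi : i < p) :
    eigP b η k ((z ^ i) (x l)) = if l = k then η ^ i else 0 := by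
  have h0 : ∀ i, i < p - 1 → eigP b η k ((z ^ i) (x l)) = if l = k then η ^ i else 0 := by
    intro i hi
    have := hb ⟨i, hi⟩ l
    rw [← show b (⟨i, hi⟩, l) = (z ^ i) (x l) from this, eigP_b]
  rcases lt_or_ge i (p - 1) with h | h
  · exact h0 i h
  · have h1 : i = p - 1 := by omega
    have h2 : p = (p - 1) + 1 := by omega
    have h3 : ∑ i ∈ Finset.range ((p - 1) + 1), η ^ i = 0 := by rw [← h2]; exact hη
    rw [Finset.sum_range_succ] at h3
    rw [h1, eig_zlast hz, map_neg, map_sum,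
      Finset.sum_congr rfl fun i hi => h0 i (Finset.mem_range.1 hi)]
    split_ifs with h4
    · exact (eq_neg_of_add_eq_zero_right h3).symm
    · simp

private theorem eigP_z (hb : ∀ i k, b (i, k) = (z ^ (i : ℕ)) (x k))
    (hz : ∀ x, ∑ i ∈ Finset.range p, (z ^ i) x = 0) {η : E}
    (hη : ∑ i ∈ Finset.range p, η ^ i = 0) (k : Fin d) (w : N) :
    eigP b η k (z w) = η * eigP b η k w := by
  have h : (eigP b η k) ∘ₗ z = η • eigP b η k := by
    refine b.ext fun s => ?_
    obtain ⟨i, l⟩ := s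
    have hi : (i : ℕ) + 1 < p := by
      have := i.2
      omega
    rw [LinearMap.comp_apply, LinearMap.smul_apply, hb, ← Module.End.mul_apply, ← pow_succ',
      eigP_pow hb hz hη k l hi, eigP_pow hb hz hη k l (by omega)]
    split_ifs
    · rw [smul_eq_mul, pow_succ']
    · rw [smul_zero]
  have h2 := congrArg (fun T : N →ₗ[ℤ_[p]] E => T w) h
  simpa using h2

private theorem eigP_T (hb : ∀ i k, b (i, k) = (z ^ (i : ℕ)) (x k))
    (hz : ∀ x, ∑ i ∈ Finset.range p, (z ^ i) x = 0) (hzp : z ^ p = 1) {η θ : E}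
    (hη : η ^ p = 1) (hθ : η * θ = 1) (hη0 : ∑ i ∈ Finset.range p, η ^ i = 0) (u y : N) :
    ∑ k, eigP b η k u * eigT z e θ (x k) y = eigT z e θ u y := by
  have h : (∑ k, eigT z e θ (x k) y • eigP b η k) = eigTR z e θ y := by
    refine b.ext fun s => ?_
    obtain ⟨i, l⟩ := s
    have h1 : eigTR z e θ y (b (i, l)) = eigT z e θ (b (i, l)) y := rfl
    rw [h1, hb, eigT_pow hzp hη hθ, LinearMap.sum_apply]
    simp only [LinearMap.smul_apply]
    rw [Finset.sum_eq_single l]
    · rw [eigP_pow hb hz hη0 l l (by have := i.2; omega), if_pos rfl, smul_eq_mul, mul_comm]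
    · intro k _ hk
      rw [eigP_pow hb hz hη0 k l (by have := i.2; omega), if_neg hk.symm, smul_zero]
    · intro h; exact absurd (Finset.mem_univ _) h
  have h2 := congrArg (fun T : N →ₗ[ℤ_[p]] E => T u) h
  simp only [LinearMap.sum_apply, LinearMap.smul_apply, smul_eq_mul] at h2
  have h3 : eigTR z e θ y u = eigT z e θ u y := rfl
  rw [← h3, ← h2]
  exact Finset.sum_congr rfl fun k _ => mul_comm _ _

private theorem eig_inj [CharZero E] {c : ℤ_[p]} (hc : c ≠ 0) : algebraMap ℤ_[p] E c ≠ 0 := by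
  rw [PadicInt.unitCoeff_spec hc, map_mul, map_pow, map_natCast]
  refine mul_ne_zero ?_ (pow_ne_zero _ (Nat.cast_ne_zero.2 (Fact.out : p.Prime).ne_zero))
  exact ((PadicInt.unitCoeff hc).isUnit.map (algebraMap ℤ_[p] E)).ne_zero

/-- the functionals of the basis are independent over `E` -/
private theorem eig_nondeg [CharZero E] (hn : ∀ x, (∀ y, e x y = 0) → x = 0)
    {c : Fin (p - 1) × Fin d → E}
    (h : ∀ y, ∑ s, c s * algebraMap ℤ_[p] E (e (b s) y) = 0) : c = 0 := by
  have hdet : (Matrix.of fun s t => e (b s) (b t)).det ≠ 0 := by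
    intro h0
    obtain ⟨v, hv, hv'⟩ := Matrix.exists_vecMul_eq_zero_iff.2 h0
    apply hv
    have h1 : ∑ s, v s • b s = 0 := by
      refine hn _ fun y => ?_
      have h2 : e (∑ s, v s • b s) = 0 := by
        refine b.ext fun t => ?_
        have h3 := congrFun hv' t
        rw [map_sum, LinearMap.sum_apply, LinearMap.zero_apply]
        simp only [map_smul, LinearMap.smul_apply, smul_eq_mul]
        simpa [Matrix.vecMul, dotProduct] using h3
      rw [h2, LinearMap.zero_apply]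
    funext s
    exact Fintype.linearIndependent_iff.1 b.linearIndependent v h1 s
  have hdet' : ((algebraMap ℤ_[p] E).mapMatrix (Matrix.of fun s t => e (b s) (b t))).det ≠ 0 := by
    rw [← RingHom.map_det]
    exact eig_inj hdet
  refine Matrix.eq_zero_of_vecMul_eq_zero hdet' ?_
  funext t
  have := h (b t)
  simpa [Matrix.vecMul, dotProduct] using this

private theorem eig_split {M : Type} [AddCommGroup M] (F : ℕ → M) (h n : ℕ)
    (hn : n = (h + h) + 1) :
    ∑ m ∈ Finset.range n, F m =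
      F 0 + ∑ a ∈ Finset.range h, (F (n - (a + 1)) + F (a + 1)) := by
  subst hn
  rw [Finset.sum_range_succ', Finset.sum_range_add (fun m => F (m + 1)),
    ← Finset.sum_range_reflect (fun x => F (h + x + 1)), Finset.sum_add_distrib,
    Finset.sum_congr rfl fun a ha => congrArg F (show h + (h - 1 - a) + 1 = h + h + 1 - (a + 1) by
      have := Finset.mem_range.1 ha
      omega)]
  abel

omit [Fact p.Prime] [Algebra ℤ_[p] E] in
private theorem eig_geom {ζ : E} (hζ : IsPrimitiveRoot ζ p) (m : ℕ) :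
    ∑ i ∈ Finset.range p, (ζ ^ m) ^ i = if p ∣ m then (p : E) else 0 := by
  split_ifs with h
  · rw [(hζ.pow_eq_one_iff_dvd m).2 h]
    simp
  · have h1 : ζ ^ m ≠ 1 := fun h2 => h ((hζ.pow_eq_one_iff_dvd m).1 h2)
    have h2 := geom_sum_mul (ζ ^ m) p
    rw [← pow_mul, mul_comm m p, pow_mul, hζ.pow_eq_one, one_pow, sub_self] at h2
    exact (mul_eq_zero.1 h2).resolve_right (sub_ne_zero.2 h1)

private theorem eigT_expand (hb : ∀ i k, b (i, k) = (z ^ (i : ℕ)) (x k))
    (hz : ∀ x, ∑ i ∈ Finset.range p, (z ^ i) x = 0) (η : E) (k : Fin d) (y : N) :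
    eigT z e η (x k) y = ∑ i : Fin (p - 1), (η ^ (i : ℕ) - η ^ (p - 1)) *
      algebraMap ℤ_[p] E (e (b (i, k)) y) := by
  have h2 : p = (p - 1) + 1 := by
    have := (Fact.out : p.Prime).two_le
    omega
  have h3 : eigT z e η (x k) y = ∑ i ∈ Finset.range ((p - 1) + 1),
      η ^ i * algebraMap ℤ_[p] E (e ((z ^ i) (x k)) y) := by
    rw [← h2]; rfl
  rw [h3, Finset.sum_range_succ, eig_zlast hz, map_neg, map_sum, LinearMap.neg_apply,
    LinearMap.sum_apply, map_neg, map_sum, mul_neg, Finset.mul_sum, ← sub_eq_add_neg,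
    ← Finset.sum_sub_distrib, ← Fin.sum_univ_eq_sum_range
      (fun i => η ^ i * algebraMap ℤ_[p] E (e ((z ^ i) (x k)) y) -
        η ^ (p - 1) * algebraMap ℤ_[p] E (e ((z ^ i) (x k)) y))]
  refine Finset.sum_congr rfl fun i _ => ?_
  rw [hb]
  ring

private theorem eig_total {ζ : E} (hζ : IsPrimitiveRoot ζ p) (u y : N) :
    ∑ m ∈ Finset.range p, eigT z e (ζ ^ m) u y = p * algebraMap ℤ_[p] E (e u y) := by
  unfold eigT
  rw [Finset.sum_comm]
  have h1 : ∀ i ∈ Finset.range p, ∑ m ∈ Finset.range p, (ζ ^ m) ^ i *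
      algebraMap ℤ_[p] E (e ((z ^ i) u) y) =
      (if p ∣ i then (p : E) else 0) * algebraMap ℤ_[p] E (e ((z ^ i) u) y) := by
    intro i _
    rw [← Finset.sum_mul, ← eig_geom hζ]
    congr 1
    exact Finset.sum_congr rfl fun m _ => by rw [← pow_mul, ← pow_mul, mul_comm]
  rw [Finset.sum_congr rfl h1, Finset.sum_eq_single 0]
  · simp
  · intro i hi h0
    rw [if_neg, zero_mul]
    exact Nat.not_dvd_of_pos_of_lt (Nat.pos_of_ne_zero h0) (Finset.mem_range.1 hi)
  · intro h
    exact absurd (Finset.mem_range.2 (Fact.out : p.Prime).pos) h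

private theorem eig_zero (hz : ∀ x, ∑ i ∈ Finset.range p, (z ^ i) x = 0) (u y : N) :
    eigT z e (1 : E) u y = 0 := by
  unfold eigT
  have h : ∑ i ∈ Finset.range p, (1 : E) ^ i * algebraMap ℤ_[p] E (e ((z ^ i) u) y) =
      algebraMap ℤ_[p] E (e (∑ i ∈ Finset.range p, (z ^ i) u) y) := by
    rw [map_sum, LinearMap.sum_apply, map_sum]
    exact Finset.sum_congr rfl fun i _ => by rw [one_pow, one_mul]
  rw [h, hz, map_zero, LinearMap.zero_apply, map_zero]

/-- a diagonal operator separates the coordinates -/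
private theorem eig_sep [CharZero E] {ζ : E} (hζ : IsPrimitiveRoot ζ p) {ι : Type} [Fintype ι]
    {j : N →ₗ[ℤ_[p]] (ι → E)} {ex : ι → ℕ} (hex0 : ∀ s, 0 < ex s) (hex1 : ∀ s, ex s < p)
    (hj : ∀ u s, j (z u) s = ζ ^ ex s * j u s) {c : ι → E} (h0 : ∀ u, ∑ s, j u s * c s = 0)
    (s0 : ι) (u : N) : ∑ s, (if ex s = ex s0 then j u s * c s else 0) = 0 := by
  have hp0 : (p : E) ≠ 0 := Nat.cast_ne_zero.2 (Fact.out : p.Prime).ne_zero
  have hjp : ∀ (i : ℕ) (s : ι), j ((z ^ i) u) s = (ζ ^ ex s) ^ i * j u s := by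
    intro i
    induction i with
    | zero => intro s; simp
    | succ i ih =>
      intro s
      rw [pow_succ', Module.End.mul_apply, hj, ih, pow_succ']
      ring
  have h1 : ∑ i ∈ Finset.range p, (ζ ^ (p - ex s0)) ^ i * ∑ s, j ((z ^ i) u) s * c s = 0 := by
    refine Finset.sum_eq_zero fun i _ => ?_
    rw [h0, mul_zero]
  have h2 : ∑ i ∈ Finset.range p, (ζ ^ (p - ex s0)) ^ i * ∑ s, j ((z ^ i) u) s * c s =
      ∑ s, (if ex s = ex s0 then j u s * c s else 0) * p := by
    simp only [Finset.mul_sum]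
    rw [Finset.sum_comm]
    refine Finset.sum_congr rfl fun s _ => ?_
    have h3 : ∀ i ∈ Finset.range p, (ζ ^ (p - ex s0)) ^ i * (j ((z ^ i) u) s * c s) =
        (ζ ^ (p - ex s0 + ex s)) ^ i * (j u s * c s) := by
      intro i _
      rw [hjp, pow_add, mul_pow]
      ring
    rw [Finset.sum_congr rfl h3, ← Finset.sum_mul, eig_geom hζ]
    have hs := hex0 s
    have hs' := hex1 s
    have hs0 := hex0 s0
    have hs0' := hex1 s0
    by_cases h : ex s = ex s0
    · rw [if_pos h, if_pos, mul_comm]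
      rw [h, Nat.sub_add_cancel hs0'.le]
    · rw [if_neg h, if_neg]
      · ring
      · rintro ⟨m, hm⟩
        rcases m with _ | _ | m
        · omega
        · omega
        · have : p * (m + 1 + 1) = p * m + 2 * p := by ring
          have h4 : 0 ≤ p * m := Nat.zero_le _
          omega
  rw [h1, ← Finset.sum_mul] at h2
  exact (mul_eq_zero.1 h2.symm).resolve_right hp0

private theorem eig_main [CharZero E] (hp : p ≠ 2)
    (hb : ∀ i k, b (i, k) = (z ^ (i : ℕ)) (x k))
    (hz : ∀ x, ∑ i ∈ Finset.range p, (z ^ i) x = 0) (hi : ∀ x y, e (z x) (z y) = e x y)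
    (hs : ∀ x y, e x y = -e y x) (hn : ∀ x, (∀ y, e x y = 0) → x = 0) {ζ : E}
    (hζ : IsPrimitiveRoot ζ p) (hzp : z ^ p = 1) : ∃ j, Eig z e ζ d j := by
  have hpp : p.Prime := Fact.out
  have hodd : p = ((p - 1) / 2 + (p - 1) / 2) + 1 := by
    rcases hpp.eq_two_or_odd' with h | ⟨m, hm⟩
    · exact absurd h hp
    · omega
  have hp0 : (p : E) ≠ 0 := Nat.cast_ne_zero.2 hpp.ne_zero
  have hpow : ∀ m, (ζ ^ m) ^ p = 1 := by
    intro m
    rw [← pow_mul, mul_comm, pow_mul, hζ.pow_eq_one, one_pow]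
  have hsum0 : ∀ m, 0 < m → m < p → ∑ i ∈ Finset.range p, (ζ ^ m) ^ i = 0 := by
    intro m h1 h2
    rw [eig_geom hζ, if_neg]
    exact Nat.not_dvd_of_pos_of_lt h1 h2
  have hinv : ∀ m, m ≤ p → ζ ^ m * ζ ^ (p - m) = 1 := by
    intro m hm
    rw [← pow_add, Nat.add_sub_cancel' hm, hζ.pow_eq_one]
  let φ : Fin ((p - 1) / 2) × Fin d → N →ₗ[ℤ_[p]] E := fun q =>
    eigP b (ζ ^ ((q.1 : ℕ) + 1)) q.2
  let ψ : Fin ((p - 1) / 2) × Fin d → N →ₗ[ℤ_[p]] E := fun q =>
    (p : E)⁻¹ • eigTL z e (ζ ^ (p - ((q.1 : ℕ) + 1))) (x q.2)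
  let j : N →ₗ[ℤ_[p]] ((Fin ((p - 1) / 2) × Fin d) ⊕ (Fin ((p - 1) / 2) × Fin d) → E) :=
    LinearMap.pi (Sum.elim φ ψ)
  have hj1 : ∀ u a k, j u (.inl (a, k)) = eigP b (ζ ^ ((a : ℕ) + 1)) k u := fun _ _ _ => rfl
  have hj2 : ∀ u a k, j u (.inr (a, k)) =
      (p : E)⁻¹ * eigT z e (ζ ^ (p - ((a : ℕ) + 1))) (x k) u := fun _ _ _ => rfl
  have hleft : ∀ u a k, j (z u) (.inl (a, k)) = ζ ^ ((a : ℕ) + 1) * j u (.inl (a, k)) := by
    intro u a k
    have ha := a.2
    rw [hj1, hj1, eigP_z hb hz (hsum0 _ (by omega) (by omega))]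
  have hright : ∀ u a k, j (z u) (.inr (a, k)) =
      ζ ^ (p - ((a : ℕ) + 1)) * j u (.inr (a, k)) := by
    intro u a k
    rw [hj2, hj2, eigT_z2 hi hzp (hpow _)]
    ring
  have hform : ∀ u y, algebraMap ℤ_[p] E (e u y) =
      ∑ q, (j u (.inl q) * j y (.inr q) - j u (.inr q) * j y (.inl q)) := by
    intro u y
    have h1 : ∀ a : Fin ((p - 1) / 2), ∑ k : Fin d, (j u (.inl (a, k)) * j y (.inr (a, k)) -
        j u (.inr (a, k)) * j y (.inl (a, k))) =
        (p : E)⁻¹ * (eigT z e (ζ ^ (p - ((a : ℕ) + 1))) u y +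
          eigT z e (ζ ^ ((a : ℕ) + 1)) u y) := by
      intro a
      have ha := a.2
      have h2 := eigP_T (e := e) hb hz hzp (hpow ((a : ℕ) + 1))
        (hinv ((a : ℕ) + 1) (by omega)) (hsum0 _ (by omega) (by omega))
      have h3 : eigT z e (ζ ^ ((a : ℕ) + 1)) u y =
          -eigT z e (ζ ^ (p - ((a : ℕ) + 1))) y u :=
        eigT_neg hi hs hzp (hpow _) (by rw [mul_comm]; exact hinv _ (by omega)) u y
      rw [h3, ← h2 u y, ← h2 y u, ← sub_eq_add_neg, ← Finset.sum_sub_distrib, Finset.mul_sum]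
      refine Finset.sum_congr rfl fun k _ => ?_
      rw [hj1, hj1, hj2, hj2]
      ring
    rw [Fintype.sum_prod_type, Finset.sum_congr rfl fun a _ => h1 a, ← Finset.mul_sum,
      Fin.sum_univ_eq_sum_range (fun a => eigT z e (ζ ^ (p - (a + 1))) u y +
          eigT z e (ζ ^ (a + 1)) u y)]
    have h4 := eig_split (fun m => eigT z e (ζ ^ m) u y) _ _ hodd
    rw [eig_total hζ] at h4
    simp only [pow_zero, eig_zero hz, zero_add] at h4
    rw [← h4, ← mul_assoc, inv_mul_cancel₀ hp0, one_mul]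
  refine ⟨j, ⟨?_, ?_, hleft, hright, hform⟩⟩
  · rw [Module.finrank_eq_card_basis b, Fintype.card_prod, Fintype.card_fin, Fintype.card_fin,
      mul_comm]
  · by_contra hne
    obtain ⟨f, hf0, hf⟩ := Submodule.exists_le_ker_of_lt_top _ (lt_top_iff_ne_top.2 hne)
    apply hf0
    set c : (Fin ((p - 1) / 2) × Fin d) ⊕ (Fin ((p - 1) / 2) × Fin d) → E :=
      fun s => f (fun t => if s = t then 1 else 0) with hc
    have hfc : ∀ w, f w = ∑ s, w s * c s := by
      intro w
      rw [LinearMap.pi_apply_eq_sum_univ f w]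
      rfl
    have h0 : ∀ u, ∑ s, j u s * c s = 0 := by
      intro u
      rw [← hfc]
      exact hf (Submodule.subset_span ⟨u, rfl⟩)
    let ex : (Fin ((p - 1) / 2) × Fin d) ⊕ (Fin ((p - 1) / 2) × Fin d) → ℕ :=
      Sum.elim (fun q => (q.1 : ℕ) + 1) (fun q => p - ((q.1 : ℕ) + 1))
    have hexl : ∀ a k, ex (.inl (a, k)) = (a : ℕ) + 1 := fun _ _ => rfl
    have hexr : ∀ a k, ex (.inr (a, k)) = p - ((a : ℕ) + 1) := fun _ _ => rfl
    have hex0 : ∀ s, 0 < ex s := by
      rintro (⟨a, k⟩ | ⟨a, k⟩)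
      · rw [hexl]; omega
      · rw [hexr]
        have := a.2
        omega
    have hex1 : ∀ s, ex s < p := by
      rintro (⟨a, k⟩ | ⟨a, k⟩)
      · rw [hexl]
        have := a.2
        omega
      · rw [hexr]
        have := a.2
        omega
    have hjz : ∀ u s, j (z u) s = ζ ^ ex s * j u s := by
      rintro u (⟨a, k⟩ | ⟨a, k⟩)
      · exact hleft u a k
      · exact hright u a k
    have hsep := eig_sep hζ hex0 hex1 hjz h0
    have hcl : ∀ a k, c (.inl (a, k)) = 0 := by
      intro a0 k0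
      have ha0 := a0.2
      have h1 := hsep (.inl (a0, k0)) (x k0)
      have hx : ∀ (a : Fin ((p - 1) / 2)) (k : Fin d),
          j (x k0) (.inl (a, k)) = if k0 = k then 1 else 0 := by
        intro a k
        have ha := a.2
        have h2 := eigP_pow hb hz (hsum0 ((a : ℕ) + 1) (by omega) (by omega)) k k0
          (i := 0) hpp.pos
        rw [pow_zero, Module.End.one_apply, pow_zero] at h2
        rw [hj1, h2]
      rw [Finset.sum_eq_single (.inl (a0, k0))] at h1
      · rw [if_pos rfl, hx, if_pos rfl, one_mul] at h1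
        exact h1
      · rintro (⟨a, k⟩ | ⟨a, k⟩) - hne'
        · rw [hexl, hexl]
          split_ifs with h2
          · have h3 : a = a0 := Fin.ext (by omega)
            subst h3
            have h4 : k0 ≠ k := by
              rintro rfl
              exact hne' rfl
            rw [hx, if_neg h4, zero_mul]
          · rfl
        · rw [hexl, hexr, if_neg]
          have := a.2
          omega
      · intro h; exact absurd (Finset.mem_univ _) h
    have hcr : ∀ a k, c (.inr (a, k)) = 0 := by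
      intro a0 k0
      have ha0 := a0.2
      set η := ζ ^ (p - ((a0 : ℕ) + 1)) with hη
      have h1 : ∀ y, ∑ k, eigT z e η (x k) y * c (.inr (a0, k)) = 0 := by
        intro y
        have h2 := hsep (.inr (a0, k0)) y
        rw [Fintype.sum_sum_type, Fintype.sum_prod_type, Fintype.sum_prod_type] at h2
        rw [Finset.sum_eq_zero, zero_add, Finset.sum_eq_single a0] at h2
        · simp only [hexr, if_true, hj2] at h2
          have h3 : ∑ k, (p : E)⁻¹ * eigT z e (ζ ^ (p - ((a0 : ℕ) + 1))) (x k) y *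
              c (.inr (a0, k)) = (p : E)⁻¹ * ∑ k, eigT z e η (x k) y * c (.inr (a0, k)) := by
            rw [Finset.mul_sum]
            exact Finset.sum_congr rfl fun k _ => by rw [mul_assoc]
          rw [h3] at h2
          exact (mul_eq_zero.1 h2).resolve_left (inv_ne_zero hp0)
        · intro a _ hne'
          refine Finset.sum_eq_zero fun k _ => ?_
          rw [if_neg]
          rw [hexr, hexr]
          intro h3
          apply hne'
          apply Fin.ext
          have := a.2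
          omega
        · intro h; exact absurd (Finset.mem_univ _) h
        · intro a _
          refine Finset.sum_eq_zero fun k _ => ?_
          rw [if_neg]
          rw [hexl, hexr]
          have := a.2
          omega
      have h2 : (fun s : Fin (p - 1) × Fin d => c (.inr (a0, s.2)) *
          (η ^ (s.1 : ℕ) - η ^ (p - 1))) = 0 := by
        refine eig_nondeg (b := b) hn fun y => ?_
        rw [Fintype.sum_prod_type_right, ← h1 y]
        refine Finset.sum_congr rfl fun k _ => ?_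
        rw [eigT_expand hb hz, Finset.sum_mul]
        refine Finset.sum_congr rfl fun i _ => ?_
        ring
      have hp1 : 0 < p - 1 := by
        have := hpp.two_le
        omega
      have h3 := congrFun h2 (⟨0, hp1⟩, k0)
      simp only [pow_zero, Pi.zero_apply] at h3
      refine (mul_eq_zero.1 h3).resolve_right fun h4 => ?_
      have h5 : η ^ (p - 1) = 1 := (sub_eq_zero.1 h4).symm
      have h6 : η ^ ((p - 1) + 1) = 1 := by
        rw [Nat.sub_add_cancel hpp.one_le]
        exact hpow _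
      rw [pow_succ, h5, one_mul, hη] at h6
      exact Nat.not_dvd_of_pos_of_lt (by omega) (by omega) ((hζ.pow_eq_one_iff_dvd _).1 h6)
    refine LinearMap.ext fun w => ?_
    rw [hfc, LinearMap.zero_apply]
    refine Finset.sum_eq_zero fun s _ => ?_
    rcases s with ⟨a, k⟩ | ⟨a, k⟩
    · rw [hcl, mul_zero]
    · rw [hcr, mul_zero]

end Aux

theorem exists_eig [Module.Finite ℤ_[p] N] [Module.IsTorsionFree ℤ_[p] N] [CharZero E]
    (hp : p ≠ 2) {z : Module.End ℤ_[p] N} {e : N →ₗ[ℤ_[p]] N →ₗ[ℤ_[p]] ℤ_[p]}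
    (hz : ∀ x, ∑ i ∈ Finset.range p, (z ^ i) x = 0) (hi : ∀ x y, e (z x) (z y) = e x y)
    (hs : ∀ x y, e x y = -e y x) (hn : ∀ x, (∀ y, e x y = 0) → x = 0) {ζ : E}
    (hζ : IsPrimitiveRoot ζ p) :
    ∃ j, Eig z e ζ (Module.finrank (ZMod p) (Vr z)) j := by
  obtain ⟨x, b, hb⟩ := exists_rbasis hz
  exact eig_main hp hb hz hi hs hn hζ (z_pow hz)

end Pool.Agent.PTate
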