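import Pool.Agent.PTate.LinA

/-!
# Graded Lie algebras in products: types and traces
-/

set_option autoImplicit false

noncomputable section

namespace Pool.Agent.PTate

open scoped Classical

variable {F : Type} [Field F] {σ ι : Type} {V : σ → Type} [∀ s, AddCommGroup (V s)]
  [∀ s, Module F (V s)] {S : σ → Finset ι} {m : σ → ι → F}
  {B : ∀ s, V s →ₗ[F] V s →ₗ[F] F} {P : ∀ s, ι → V s} {adj : ι → ι → Prop}

theorem Gen.pos {n : ℕ} {X : ∀ s, Module.End F (V s)} (hX : Gen S m B P adj n X) : 1 ≤ n := by
  induction hX with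
  | edge i j _ => exact le_rfl
  | zero n => exact Nat.succ_le_succ (Nat.zero_le n)
  | add n X Y _ _ ih _ => exact ih
  | smul n c X _ ih => exact ih
  | lie n k X Y _ _ ih _ => exact le_trans ih (Nat.le_add_right n k)

theorem Gen.ty (h : LinP S m B P adj) {n : ℕ} {X : ∀ s, Module.End F (V s)}
    (hX : Gen S m B P adj n X) (s : σ) : Ty (B s) n (X s) := by
  induction hX with
  | edge i j _ =>
    intro x y
    have hs := (h.one s).bsymm
    have e : (-1 : F) ^ (1 + 1) = 1 := by norm_num
    rw [e, one_mul]
    show B s (edg (B s) (S s) (m s) (P s) i j x) y = B s x (edg (B s) (S s) (m s) (P s) i j y)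
    unfold edg
    split_ifs with hij
    · simp only [LinearMap.smul_apply, map_smul, ten_apply, smul_eq_mul]
      rw [hs (P s i - P s j) y, hs (P s i - P s j) x]
      ring
    · simp
  | zero n =>
    intro x y
    simp
  | add n X Y _ _ ih ih' =>
    intro x y
    simp only [Pi.add_apply, LinearMap.add_apply, map_add, ih x y, ih' x y]
    ring
  | smul n c X _ ih =>
    intro x y
    simp only [Pi.smul_apply, LinearMap.smul_apply, map_smul, smul_eq_mul, ih x y]
    ring
  | lie n k X Y _ _ ih ih' =>
    intro x y
    simp only [Pi.sub_apply, Pi.mul_apply, LinearMap.sub_apply, Module.End.mul_apply, map_sub]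
    rw [ih (Y s x) y, ih' x (X s y), ih' (X s x) y, ih x (Y s y)]
    ring

theorem Gen.trace (_h : LinP S m B P adj) {n : ℕ} (hn : 2 ≤ n) {X : ∀ s, Module.End F (V s)}
    (hX : Gen S m B P adj n X) (s : σ) : LinearMap.trace F (V s) (X s) = 0 := by
  induction hX with
  | edge i j _ => omega
  | zero n => simp
  | add n X Y _ _ ih ih' => rw [Pi.add_apply, map_add, ih hn, ih' hn, add_zero]
  | smul n c X _ ih => rw [Pi.smul_apply, map_smul, ih hn, smul_zero]
  | lie n k X Y _ _ _ _ =>
    rw [Pi.sub_apply, Pi.mul_apply, Pi.mul_apply, map_sub, LinearMap.trace_mul_comm, sub_self]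

/-- the dimension -/
theorem LinP.finrank (h : LinP S m B P adj) (s : σ) :
    Module.finrank F (V s) + 1 = (S s).card := by
  have h1 := h.one s
  set T := S s with hT
  let f : (T → F) →ₗ[F] V s := Fintype.linearCombination F fun i : T => P s i
  have hf : ∀ c : T → F, f c = ∑ i : T, c i • P s i := fun c => rfl
  have hsum : ∀ c : ι → F, f (fun i : T => c i) = ∑ i ∈ T, c i • P s i := by
    intro c
    rw [hf, ← Finset.sum_coe_sort T fun i => c i • P s i]
  have hsurj : LinearMap.range f = ⊤ := by
    rw [eq_top_iff]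
    intro x _
    obtain ⟨c, rfl⟩ := h1.span x
    exact ⟨fun i : T => c i, hsum c⟩
  have hker : LinearMap.ker f = Submodule.span F {fun i : T => m s i} := by
    apply le_antisymm
    · intro c hc
      rw [LinearMap.mem_ker] at hc
      have hne : T.Nonempty := Finset.card_pos.1 (by have := h1.two; omega)
      obtain ⟨j, hj⟩ := hne
      set c' : ι → F := fun i => if hi : i ∈ T then c ⟨i, hi⟩ else 0 with hc'
      have hcc : (fun i : T => c' i) = c := by
        funext i
        rw [hc']
        simp
      rw [← hcc, hsum] at hc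
      have h2 := h1.coeff hc
      rw [Submodule.mem_span_singleton]
      refine ⟨c' j * (m s j)⁻¹, ?_⟩
      rw [← hcc]
      funext i
      have h3 := h2 i i.2 j hj
      have h4 := h1.ne j hj
      rw [Pi.smul_apply, smul_eq_mul]
      calc c' j * (m s j)⁻¹ * m s i = (c' j * m s i) * (m s j)⁻¹ := by ring
        _ = (c' i * m s j) * (m s j)⁻¹ := by rw [h3]
        _ = c' i := by rw [mul_assoc, mul_inv_cancel₀ h4, mul_one]
    · rw [Submodule.span_le, Set.singleton_subset_iff, SetLike.mem_coe, LinearMap.mem_ker, hsum]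
      exact h1.rel
  have h5 := LinearMap.finrank_range_add_finrank_ker f
  rw [hsurj, finrank_top, hker, Module.finrank_fintype_fun_eq_card, Fintype.card_coe] at h5
  rw [← h5]
  congr 1
  symm
  apply finrank_span_singleton
  intro h6
  have hne : T.Nonempty := Finset.card_pos.1 (by have := h1.two; omega)
  obtain ⟨j, hj⟩ := hne
  exact h1.ne j hj (congrFun h6 ⟨j, hj⟩)

end Pool.Agent.PTate
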