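import Pool.Agent.PTate.RedLin
import Pool.Agent.PTate.InvBas
import Pool.Agent.PTate.LinE1

/-!
# The rank of the Tate modules
-/

set_option autoImplicit false

noncomputable section

namespace Pool.Agent.PTate

open scoped Classical

variable {p : ℕ} [Fact p.Prime] {σ ι G : Type} [Group G] {M : σ → Type}
  [∀ s, AddCommGroup (M s)] [∀ s, Module ℤ_[p] (M s)]

/-- The rank of the Tate module over `ℤ_p[z]` is the number of the fixed points minus one. -/
theorem RepP.finrank [∀ s, Module.Finite ℤ_[p] (M s)]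
    [∀ s, Module.IsTorsionFree ℤ_[p] (M s)] (hp : p ≠ 2) {S : σ → Finset ι} {m : σ → ι → ℕ}
    {z : ∀ s, Module.End ℤ_[p] (M s)} {e : ∀ s, M s →ₗ[ℤ_[p]] M s →ₗ[ℤ_[p]] ℤ_[p]}
    {P : ∀ s, ι → M s} {adj : ι → ι → Prop} {ρ : ∀ s, G →* Module.End ℤ_[p] (M s)}
    {χ : G →* ℤ_[p]ˣ} (h : RepP S m z e P adj ρ χ) (s : σ) :
    Module.finrank (ZMod p) (Vr (z s)) = (S s).card - 1 ∧
      Module.finrank ℤ_[p] (M s) = ((S s).card - 1) * (p - 1) := by
  obtain ⟨B, -, hB⟩ := exists_lin hp h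
  have h1 : Module.finrank (ZMod p) (Vr (z s)) = (S s).card - 1 := by
    have h2 := LinP.finrank hB s
    omega
  refine ⟨h1, ?_⟩
  obtain ⟨-, b, -⟩ := exists_rbasis (h.zeta s)
  rw [Module.finrank_eq_card_basis b, Fintype.card_prod, Fintype.card_fin, Fintype.card_fin, h1,
    mul_comm]

end Pool.Agent.PTate
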