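import Pool.Agent.PTate.InvAsm
import Pool.Agent.PTate.InvDet
import Pool.Agent.PTate.InvChar
import Pool.Agent.PTate.InvRank
import Pool.Agent.PTate.Nondeg
import Pool.Agent.PTate.TateSu

/-!
# The structure of Tate forms
-/

set_option autoImplicit false

noncomputable section

namespace Pool.Agent.PTate

open scoped Classical

variable {p : ℕ} [Fact p.Prime] {σ ι G : Type} [Group G] {M : σ → Type}
  [∀ s, AddCommGroup (M s)] [∀ s, Module ℤ_[p] (M s)]

/-- The functions with values in `E` which are multiplied by the `j`-th power of the cyclotomic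
character under a subgroup of finite index. -/
def IsTateE {E : Type} [Field E] [Algebra ℤ_[p] E] (ρ : ∀ s, G →* Module.End ℤ_[p] (M s))
    (χ : G →* ℤ_[p]ˣ) {n r : ℕ} (j : ℕ) (F : (Fin r → Fin n → ∀ s, M s) → E) : Prop :=
  ∃ U : Subgroup G, U.FiniteIndex ∧ ∀ g ∈ U, ∀ v : Fin r → Fin n → ∀ s, M s,
    F (fun i a s => ρ s g (v i a s)) = algebraMap ℤ_[p] E ((χ g : ℤ_[p]) ^ j) * F v

/-- A product of pairings `e (z ^ i x, y)`. -/
def IsPProd (z : ∀ s, Module.End ℤ_[p] (M s))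
    (e : ∀ s, M s →ₗ[ℤ_[p]] M s →ₗ[ℤ_[p]] ℤ_[p]) {n r : ℕ}
    (g : (Fin r → Fin n → ∀ s, M s) → ℚ_[p]) : Prop :=
  ∃ (k : ℕ) (s : Fin k → σ) (i : Fin k → ℕ) (π : Fin k × Bool ≃ Fin r) (β : Fin r → Fin n),
    ∀ v, g v = ∏ a, ((e (s a) ((z (s a) ^ i a) (v (π (a, true)) (β (π (a, true))) (s a)))
      (v (π (a, false)) (β (π (a, false))) (s a)) : ℤ_[p]) : ℚ_[p])

section Aux

variable {S : σ → Finset ι} {m : σ → ι → ℕ} {z : ∀ s, Module.End ℤ_[p] (M s)}
  {e : ∀ s, M s →ₗ[ℤ_[p]] M s →ₗ[ℤ_[p]] ℤ_[p]} {P : ∀ s, ι → M s} {adj : ι → ι → Prop}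
  {ρ : ∀ s, G →* Module.End ℤ_[p] (M s)} {χ : G →* ℤ_[p]ˣ}

private theorem invMain_comm (h : RepP S m z e P adj ρ χ) (g : G) (s : σ) (i : ℕ) (x : M s) :
    (z s ^ i) (ρ s g x) = ρ s g ((z s ^ i) x) := by
  induction i with
  | zero => rfl
  | succ i ih => rw [pow_succ', Module.End.mul_apply, ih, ← h.comm, Module.End.mul_apply]

private theorem invMain_pair (h : RepP S m z e P adj ρ χ) (g : G) (s : σ) (i : ℕ) (x y : M s) :
    e s ((z s ^ i) (ρ s g x)) (ρ s g y) = χ g * e s ((z s ^ i) x) y := by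
  rw [invMain_comm h, h.sim]

/-- The products of pairings and determinants are simultaneous eigenvectors. -/
private theorem invMain_eigen [∀ s, Module.Finite ℤ_[p] (M s)]
    [∀ s, Module.IsTorsionFree ℤ_[p] (M s)] (hp : p ≠ 2) (h : RepP S m z e P adj ρ χ)
    {E : Type} [Field E] [CharZero E] [Algebra ℤ_[p] E] {ζ : E} (hζ : IsPrimitiveRoot ζ p)
    {n r : ℕ} {g : (Fin r → Fin n → ∀ s, M s) → E} (hg : IsProd z e ζ g) (γ : G) :
    ∃ c : E, ∀ v, g (fun i a s => ρ s γ (v i a s)) = c * g v := by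
  obtain ⟨k, l, s, i, t, d, D, π, β, hD, hv⟩ := hg
  have h1 : ∀ u, ∃ c : E, ∀ w, D u (fun i => ρ (t u) γ (w i)) = c * D u w := fun u =>
    IsDet.mul hp (h.zeta (t u)) (h.inv (t u)) (h.skew (t u)) (fun x hx => h.nondeg hp (t u) hx)
      hζ (hD u) fun x => h.comm γ (t u) x
  choose c hc using h1
  refine ⟨(∏ _a : Fin k, algebraMap ℤ_[p] E (χ γ)) * ∏ u, c u, fun v => ?_⟩
  rw [hv, hv]
  have h2 : ∀ a : Fin k, algebraMap ℤ_[p] E (e (s a)
      ((z (s a) ^ i a) (ρ (s a) γ (v (π (.inl (a, true))) (β (π (.inl (a, true)))) (s a))))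
      (ρ (s a) γ (v (π (.inl (a, false))) (β (π (.inl (a, false)))) (s a)))) =
      algebraMap ℤ_[p] E (χ γ) * algebraMap ℤ_[p] E (e (s a)
        ((z (s a) ^ i a) (v (π (.inl (a, true))) (β (π (.inl (a, true)))) (s a)))
        (v (π (.inl (a, false))) (β (π (.inl (a, false)))) (s a))) := by
    intro a
    rw [invMain_pair h, map_mul]
  have h3 : ∀ u : Fin l, D u (fun j => ρ (t u) γ
      (v (π (.inr ⟨u, j⟩)) (β (π (.inr ⟨u, j⟩))) (t u))) =
      c u * D u fun j => v (π (.inr ⟨u, j⟩)) (β (π (.inr ⟨u, j⟩))) (t u) := fun u =>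
    hc u _
  rw [Finset.prod_congr rfl fun a _ => h2 a, Finset.prod_congr rfl fun u _ => h3 u,
    Finset.prod_mul_distrib, Finset.prod_mul_distrib]
  ring

private theorem invMain_alg {E : Type} [Field E] [Algebra ℤ_[p] E] [Algebra ℚ_[p] E]
    [IsScalarTower ℤ_[p] ℚ_[p] E] (x : ℤ_[p]) :
    algebraMap ℚ_[p] E (x : ℚ_[p]) = algebraMap ℤ_[p] E x :=
  (IsScalarTower.algebraMap_apply ℤ_[p] ℚ_[p] E x).symm

/-- The Tate functions are a subspace. -/
private theorem invMain_span {E : Type} [Field E] [Algebra ℤ_[p] E] {n r j : ℕ}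
    {S' : Set ((Fin r → Fin n → ∀ s, M s) → E)} (hS : ∀ g ∈ S', IsTateE ρ χ j g)
    {f : (Fin r → Fin n → ∀ s, M s) → E} (hf : f ∈ Submodule.span E S') : IsTateE ρ χ j f := by
  induction hf using Submodule.span_induction with
  | mem g hg => exact hS g hg
  | zero => exact ⟨⊤, inferInstance, fun g _ v => by simp⟩
  | add f g _ _ hf hg =>
    obtain ⟨U, hU, hU'⟩ := hf
    obtain ⟨V, hV, hV'⟩ := hg
    refine ⟨U ⊓ V, inferInstance, fun g' hg' v => ?_⟩
    rw [Pi.add_apply, Pi.add_apply, hU' g' hg'.1, hV' g' hg'.2, mul_add]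
  | smul c f _ hf =>
    obtain ⟨U, hU, hU'⟩ := hf
    refine ⟨U, hU, fun g' hg' v => ?_⟩
    rw [Pi.smul_apply, Pi.smul_apply, hU' g' hg', smul_eq_mul, smul_eq_mul]
    ring

end Aux

/-- **The structure of Tate forms**: they are the linear combinations of the products of pairings
and determinants which are Tate forms. -/
theorem tate_iff [Fintype σ] [Fintype ι] [∀ s, Module.Finite ℤ_[p] (M s)]
    [∀ s, Module.IsTorsionFree ℤ_[p] (M s)] (hp : p ≠ 2) {S : σ → Finset ι} {m : σ → ι → ℕ}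
    {z : ∀ s, Module.End ℤ_[p] (M s)} {e : ∀ s, M s →ₗ[ℤ_[p]] M s →ₗ[ℤ_[p]] ℤ_[p]}
    {P : ∀ s, ι → M s} {adj : ι → ι → Prop} {ρ : ∀ s, G →* Module.End ℤ_[p] (M s)}
    {χ : G →* ℤ_[p]ˣ} (h : RepP S m z e P adj ρ χ) {E : Type} [Field E] [CharZero E]
    [Algebra ℤ_[p] E] [Algebra ℚ_[p] E] [IsScalarTower ℤ_[p] ℚ_[p] E] {ζ : E}
    (hζ : IsPrimitiveRoot ζ p) {n r j : ℕ}
    (F : MultilinearMap ℤ_[p] (fun _ : Fin r => Fin n → ∀ s, M s) ℚ_[p]) :
    IsTateForm ρ χ j F ↔ (fun v => algebraMap ℚ_[p] E (F v)) ∈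
      Submodule.span E {g | IsProd z e ζ g ∧ IsTateE ρ χ j g} := by
  constructor
  · intro hF
    set FE : MultilinearMap ℤ_[p] (fun _ : Fin r => Fin n → ∀ s, M s) E :=
      ((Algebra.linearMap ℚ_[p] E).restrictScalars ℤ_[p]).compMultilinearMap F with hFE
    have hFEv : ∀ v, FE v = algebraMap ℚ_[p] E (F v) := fun v => rfl
    have h1 : (fun v => FE v) ∈ Submodule.span E {g | IsProd z e ζ g} := by
      refine inv_form hζ hp h.zeta h.inv h.skew (fun s x hx => h.nondeg hp s hx) FE ?_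
      intro X hX1 hX2 hX3 v
      have h2 := tate_su hp h F hF X hX1 hX2 hX3 v
      simp only [hFEv]
      rw [← map_sum, h2, map_zero]
    obtain ⟨U, hU, hU'⟩ := hF
    have h2 := span_eigen (E := E) (X := Fin r → Fin n → ∀ s, M s) (U := U)
      (fun u v i a s => ρ s (u : G) (v i a s)) {g | IsProd z e ζ g}
      (fun g hg => by
        have h3 := fun u : U => invMain_eigen hp h hζ hg (u : G)
        choose θ hθ using h3
        exact ⟨θ, hθ⟩)
      (fun u => algebraMap ℤ_[p] E ((χ (u : G) : ℤ_[p]) ^ j)) (fun v => FE v) h1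
      (fun u v => by
        rw [hFEv, hFEv, hU' u u.2, map_mul, invMain_alg])
    refine Submodule.span_mono ?_ h2
    rintro g ⟨hg1, hg2⟩
    exact ⟨hg1, U, hU, fun γ hγ v => hg2 ⟨γ, hγ⟩ v⟩
  · intro hF
    obtain ⟨U, hU, hU'⟩ := invMain_span (fun g hg => hg.2) hF
    refine ⟨U, hU, fun g hg v => ?_⟩
    apply (algebraMap ℚ_[p] E).injective
    rw [map_mul, invMain_alg]
    exact hU' g hg v

/-- **Tate forms of low degree** are the linear combinations of the products of pairings. -/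
theorem tate_low [Fintype σ] [Fintype ι] [∀ s, Module.Finite ℤ_[p] (M s)]
    [∀ s, Module.IsTorsionFree ℤ_[p] (M s)] (hp : p ≠ 2) {S : σ → Finset ι} {m : σ → ι → ℕ}
    {z : ∀ s, Module.End ℤ_[p] (M s)} {e : ∀ s, M s →ₗ[ℤ_[p]] M s →ₗ[ℤ_[p]] ℤ_[p]}
    {P : ∀ s, ι → M s} {adj : ι → ι → Prop} {ρ : ∀ s, G →* Module.End ℤ_[p] (M s)}
    {χ : G →* ℤ_[p]ˣ} (h : RepP S m z e P adj ρ χ) {n j : ℕ}
    (hj : ∀ s, 2 * j < (S s).card - 1)
    (F : MultilinearMap ℤ_[p] (fun _ : Fin (2 * j) => Fin n → ∀ s, M s) ℚ_[p]) :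
    IsTateForm ρ χ j F ↔ (fun v => F v) ∈ Submodule.span ℚ_[p] {g | IsPProd z e g} := by
  have hpp : p.Prime := Fact.out
  constructor
  · intro hF
    have : NeZero ((p : ℕ) : AlgebraicClosure ℚ_[p]) :=
      ⟨by exact_mod_cast hpp.ne_zero⟩
    obtain ⟨ζ, hζ⟩ : ∃ ζ : AlgebraicClosure ℚ_[p], IsPrimitiveRoot ζ p := by
      have hdeg : (Polynomial.cyclotomic p (AlgebraicClosure ℚ_[p])).degree ≠ 0 := by
        rw [Polynomial.degree_cyclotomic]
        have := Nat.totient_pos.2 hpp.pos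
        exact_mod_cast this.ne'
      obtain ⟨ζ, hζ⟩ := IsAlgClosed.exists_root _ hdeg
      exact ⟨ζ, Polynomial.isRoot_cyclotomic_iff.1 hζ⟩
    have h1 := (tate_iff hp h (E := AlgebraicClosure ℚ_[p]) hζ F).1 hF
    refine span_descend (E := AlgebraicClosure ℚ_[p]) {g | IsPProd z e g} (fun v => F v) ?_
    refine Submodule.span_mono ?_ h1
    rintro g ⟨⟨k, l, s, i, t, d, D, π, β, hD, hv⟩, -⟩
    have hl : l = 0 := by
      by_contra hl
      have hu : 0 < l := Nat.pos_of_ne_zero hl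
      have h2 := (hD ⟨0, hu⟩).1
      rw [(h.finrank hp (t ⟨0, hu⟩)).2] at h2
      have h3 : d ⟨0, hu⟩ = (S (t ⟨0, hu⟩)).card - 1 :=
        Nat.eq_of_mul_eq_mul_right (by have := hpp.two_le; omega) h2
      have h4 := hj (t ⟨0, hu⟩)
      rw [← h3] at h4
      have h5 : Fintype.card (Fin (d ⟨0, hu⟩)) ≤ Fintype.card (Fin (2 * j)) := by
        refine Fintype.card_le_of_injective (fun x => π (.inr ⟨⟨0, hu⟩, x⟩)) ?_
        intro x y hxy
        have h6 := Sum.inr_injective (π.injective hxy)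
        exact eq_of_heq (Sigma.mk.inj h6).2
      rw [Fintype.card_fin, Fintype.card_fin] at h5
      omega
    subst hl
    refine ⟨fun v => ∏ a, ((e (s a) ((z (s a) ^ i a)
        (v (π (.inl (a, true))) (β (π (.inl (a, true)))) (s a)))
      (v (π (.inl (a, false))) (β (π (.inl (a, false)))) (s a)) : ℤ_[p]) : ℚ_[p]), ?_, ?_⟩
    · exact ⟨k, s, i, (Equiv.sumEmpty _ _).symm.trans π, β, fun v => rfl⟩
    · intro v
      rw [hv, map_prod, Finset.univ_eq_empty (α := Fin 0), Finset.prod_empty, mul_one]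
      exact Finset.prod_congr rfl fun a _ => (invMain_alg _).symm
  · intro hF
    have h1 : ∀ g : (Fin (2 * j) → Fin n → ∀ s, M s) → ℚ_[p], IsPProd z e g →
        ∀ (γ : G) (v : Fin (2 * j) → Fin n → ∀ s, M s),
          g (fun i a s => ρ s γ (v i a s)) = (((χ γ : ℤ_[p]) ^ j : ℤ_[p]) : ℚ_[p]) * g v := by
      rintro g ⟨k, s, i, π, β, hv⟩ γ v
      have hk : k = j := by
        have h2 := Fintype.card_congr π
        rw [Fintype.card_prod, Fintype.card_fin, Fintype.card_bool, Fintype.card_fin] at h2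
        omega
      subst hk
      rw [hv, hv]
      have h2 : ∀ a : Fin k, ((e (s a)
          ((z (s a) ^ i a) (ρ (s a) γ (v (π (a, true)) (β (π (a, true))) (s a))))
          (ρ (s a) γ (v (π (a, false)) (β (π (a, false))) (s a))) : ℤ_[p]) : ℚ_[p]) =
          ((χ γ : ℤ_[p]) : ℚ_[p]) * ((e (s a)
            ((z (s a) ^ i a) (v (π (a, true)) (β (π (a, true))) (s a)))
            (v (π (a, false)) (β (π (a, false))) (s a)) : ℤ_[p]) : ℚ_[p]) := by
        intro a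
        rw [invMain_pair h, PadicInt.coe_mul]
      rw [Finset.prod_congr rfl fun a _ => h2 a, Finset.prod_mul_distrib, Finset.prod_const,
        Finset.card_univ, Fintype.card_fin, PadicInt.coe_pow]
    refine ⟨⊤, inferInstance, fun γ _ => ?_⟩
    refine Submodule.span_induction (p := fun f _ => ∀ v : Fin (2 * j) → Fin n → ∀ s, M s,
      f (fun i a s => ρ s γ (v i a s)) = (((χ γ : ℤ_[p]) ^ j : ℤ_[p]) : ℚ_[p]) * f v)
      ?_ ?_ ?_ ?_ hF
    · intro g hg v
      exact h1 g hg γ v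
    · intro v
      rw [Pi.zero_apply, Pi.zero_apply, mul_zero]
    · intro f g _ _ hf hg v
      rw [Pi.add_apply, Pi.add_apply, hf, hg, mul_add]
    · intro c f _ hf v
      rw [Pi.smul_apply, Pi.smul_apply, hf, smul_eq_mul, smul_eq_mul]
      ring

end Pool.Agent.PTate
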