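import Pool.Agent.PTate.InvStm
import Pool.Agent.PTate.InvMain
import Pool.Agent.PTate.Geo
import Pool.Agent.PTate.Final

/-!
# Tate classes of low degree
-/

set_option autoImplicit false

noncomputable section

namespace Pool.Agent.PTate

open Polynomial
open scoped Classical

private theorem invFinA_ext {p : ℕ} {O : Type} [CommRing O] {t u : Stm.Tate p O}
    (h : ∀ n, t.pt n = u.pt n) : t = u := by
  cases t
  cases u
  congr
  exact funext h

private theorem invFinA_auto {L : Type} [Field L] {p : ℕ} [Fact p.Prime] {f : L[X]} {g : L ≃+* L}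
    {c : L} {e : Co L p f ≃+* Co L p f} (h1 : ∀ t : L, e (algebraMap L _ t) = algebraMap L _ (g t))
    (h2 : e (Co.x L p f) = Co.x L p f) (h3 : e (Co.y L p f) = algebraMap L _ c * Co.y L p f) :
    Stm.IsAuto g c e := by
  refine ⟨h1, h2, fun y hy => ?_⟩
  have h4 : y = Co.y L p f := Subtype.ext hy
  rw [h4]
  exact h3

/-- the Weil pairing of the statement -/
private theorem invFinA_pairing {L : Type} [Field L] {O : Type} [CommRing O] [Algebra L O] {p : ℕ}
    [Fact p.Prime] {x : O} {ξ : ℕ → L} (hξ : IsRoots p ξ)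
    {e : TM p (J O) →ₗ[ℤ_[p]] TM p (J O) →ₗ[ℤ_[p]] ℤ_[p]}
    (he : ∀ (t u : TM p (J O)) (n : ℕ), 1 ≤ n →
      Stm.IsWeil x (p ^ n) ((t : ℕ → J O) n) ((u : ℕ → J O) n)
        (ξ n ^ (PadicInt.toZModPow n (e t u)).val))
    (hu : ∀ (n : ℕ) (c c' : J O) (w w' : L), p ∣ n → Stm.IsWeil x n c c' w →
      Stm.IsWeil x n c c' w' → w = w') (t u : Stm.Tate p O) :
    Stm.pairing x ξ t u = e (toTM t) (toTM u) := by
  have h : ∃ z : ℤ_[p], ∀ n, 1 ≤ n →
      Stm.IsWeil x (p ^ n) (t.pt n) (u.pt n) (ξ n ^ (PadicInt.toZModPow n z).val) :=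
    ⟨e (toTM t) (toTM u), fun n hn => he (toTM t) (toTM u) n hn⟩
  unfold Stm.pairing
  rw [dif_pos h]
  refine eq_of_roots hξ fun n hn => ?_
  exact hu (p ^ n) _ _ _ _ (dvd_pow_self p (by omega)) (h.choose_spec n hn)
    (he (toTM t) (toTM u) n hn)

/-- the form on the Tate modules -/
private theorem invFinA_form {p : ℕ} [Fact p.Prime] {σ : Type} {O : σ → Type}
    [∀ s, CommRing (O s)] {n r : ℕ} {F : (Fin r → Fin n → ∀ s, Stm.Tate p (O s)) → ℚ_[p]}
    (hadd : ∀ (i : Fin r) (v w w' : Fin r → Fin n → ∀ s, Stm.Tate p (O s)),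
      (∀ l, l ≠ i → w l = v l ∧ w' l = v l) →
      (∀ b s k, (v i b s).pt k = (w i b s).pt k + (w' i b s).pt k) → F v = F w + F w')
    (hsmul : ∀ (z : ℤ_[p]) (i : Fin r) (v w : Fin r → Fin n → ∀ s, Stm.Tate p (O s)),
      (∀ l, l ≠ i → w l = v l) →
      (∀ b s k, (v i b s).pt k = (PadicInt.toZModPow k z).val • (w i b s).pt k) →
        F v = (z : ℚ_[p]) * F w) :
    ∃ F' : MultilinearMap ℤ_[p] (fun _ : Fin r => Fin n → ∀ s, TM p (J (O s))) ℚ_[p],
      ∀ v, F' v = F fun i b s => toTM.symm (v i b s) := by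
  have hne : ∀ (v : Fin r → Fin n → ∀ s, TM p (J (O s))) (i : Fin r) x y,
      ∀ l, l ≠ i → (fun b s => toTM.symm (Function.update v i x l b s)) =
        fun b s => toTM.symm (Function.update v i y l b s) := by
    intro v i x y l hl
    rw [Function.update_of_ne hl, Function.update_of_ne hl]
  refine ⟨{
    toFun := fun v => F fun i b s => toTM.symm (v i b s)
    map_update_add' := ?_
    map_update_smul' := ?_ }, fun v => rfl⟩
  · intro hdec v i x y
    have hdec' : hdec = instDecidableEqFin r := Subsingleton.elim _ _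
    subst hdec'
    refine hadd i _ _ _ (fun l hl => ⟨hne v i _ _ l hl, hne v i _ _ l hl⟩) fun b s k => ?_
    rw [Function.update_self, Function.update_self, Function.update_self]
    rfl
  · intro hdec v i c x
    have hdec' : hdec = instDecidableEqFin r := Subsingleton.elim _ _
    subst hdec'
    refine hsmul c i _ _ (fun l hl => hne v i _ _ l hl) fun b s k => ?_
    rw [Function.update_self, Function.update_self]
    rfl

private theorem invFinA_deg {K : Type} [Field K] {L : Type} [Field L] [Algebra K L] {ι : Type}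
    (a : ι → K) (S : Finset ι) (m : ι → ℕ) :
    (Stm.eqn L a S m).natDegree = ∑ i ∈ S, m i := by
  unfold Stm.eqn
  rw [natDegree_prod_of_monic _ _ fun _ _ => (monic_X_sub_C _).pow _]
  refine Finset.sum_congr rfl fun i _ => ?_
  rw [(monic_X_sub_C (algebraMap K L (a i))).natDegree_pow, natDegree_X_sub_C, mul_one]

/-- The automorphisms `y ↦ c y` are unique. -/
private theorem invFinA_unique {L : Type} [Field L] {p : ℕ} [Fact p.Prime] {f : L[X]}
    (hf : f.natDegree.Coprime p) {c : L} {e e' : Co L p f ≃+* Co L p f}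
    (h : Stm.IsAuto (RingEquiv.refl L) c e) (h' : Stm.IsAuto (RingEquiv.refl L) c e') :
    e = e' := by
  have h1 : e.trans e'.symm = RingEquiv.refl _ := by
    refine auto_unique hf (g := RingEquiv.refl L) (fun c => ?_) ?_ ?_ (fun _ => rfl) rfl rfl
    · rw [RingEquiv.trans_apply, RingEquiv.symm_apply_eq, h.1, h'.1]
      rfl
    · rw [RingEquiv.trans_apply, RingEquiv.symm_apply_eq]
      exact h.2.1.trans h'.2.1.symm
    · rw [RingEquiv.trans_apply, RingEquiv.symm_apply_eq, h.2.2 _ rfl, h'.2.2 _ rfl]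
  refine RingEquiv.ext fun w => ?_
  have h2 := congrArg (fun φ : Co L p f ≃+* Co L p f => φ w) h1
  simp only [RingEquiv.trans_apply] at h2
  rw [RingEquiv.symm_apply_eq] at h2
  exact h2

/-- The powers of the automorphism `y ↦ c y`. -/
private theorem invFinA_iter {L : Type} [Field L] {p : ℕ} [Fact p.Prime] {f : L[X]} {c : L}
    {τ : Co L p f ≃+* Co L p f} (h1 : ∀ t : L, τ (algebraMap L _ t) = algebraMap L _ t)
    (h2 : τ (Co.x L p f) = Co.x L p f) (h3 : τ (Co.y L p f) = algebraMap L _ c * Co.y L p f)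
    (i : ℕ) : ∃ τ' : Co L p f ≃+* Co L p f, Stm.IsAuto (RingEquiv.refl L) (c ^ i) τ' ∧
      ∀ t : Stm.Tate p (Co L p f),
        toTM (Stm.mvT τ' t) = ((TM.map (J.map τ)) ^ i : Module.End ℤ_[p] _) (toTM t) := by
  induction i with
  | zero =>
    refine ⟨RingEquiv.refl _, invFinA_auto (fun _ => rfl) rfl ?_, fun t => ?_⟩
    · rw [pow_zero, map_one, one_mul]
      rfl
    · rw [pow_zero]
      refine Subtype.ext (funext fun k => ?_)
      exact J.map_refl _
  | succ i ih =>
    obtain ⟨τ', h4, h5⟩ := ih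
    refine ⟨τ'.trans τ, invFinA_auto (fun t => ?_) ?_ ?_, fun t => ?_⟩
    · rw [RingEquiv.trans_apply, h4.1]
      exact h1 _
    · rw [RingEquiv.trans_apply]
      have h6 : τ' (Co.x L p f) = Co.x L p f := h4.2.1
      rw [h6, h2]
    · rw [RingEquiv.trans_apply, h4.2.2 _ rfl, map_mul, h1, h3, pow_succ, map_mul, mul_assoc]
    · rw [pow_succ', Module.End.mul_apply, ← h5 t]
      refine Subtype.ext (funext fun k => ?_)
      exact J.map_trans _ _ _

/-- Linear maps and spans. -/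
private theorem invFinA_span {k V W : Type} [Field k] [AddCommGroup V] [Module k V]
    [AddCommGroup W] [Module k W] (φ : V →ₗ[k] W) {A : Set V} {B : Set W}
    (h : ∀ g ∈ A, φ g ∈ B) {g : V} (hg : g ∈ Submodule.span k A) : φ g ∈ Submodule.span k B := by
  have h1 : Submodule.span k A ≤ (Submodule.span k B).comap φ :=
    Submodule.span_le.2 fun g hg => Submodule.subset_span (h g hg)
  exact h1 hg

/-- **Tate classes of low degree** are the linear combinations of the products of Weil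
pairings. -/
theorem structure_low {K : Type} [Field K] {L : Type} [Field L] [Algebra K L]
    [Algebra.IsAlgebraic K L] [IsAlgClosed L] {p : ℕ} [Fact p.Prime] (hp : p ≠ 2) {ζ : K}
    (hζ : IsPrimitiveRoot ζ p) {ι σ : Type} [Fintype ι] [Fintype σ] (a : ι → K)
    (S : σ → Finset ι) (m : σ → ι → ℕ) (ha : ∀ s, Set.InjOn a (S s))
    (htwo : ∀ s, 2 ≤ (S s).card) (hm : ∀ s, ∀ i ∈ S s, (m s i).Coprime p)
    (hM : ∀ s, (∑ i ∈ S s, m s i).Coprime p)
    (hnz : ∀ s, 4 ≤ (S s).card → ∃ i ∈ S s, ∃ j ∈ S s, Free p ζ a S i j ∧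
      (m s i + m s j).Coprime p)
    (hsep : ∀ s t, s ≠ t → S s = S t → 3 ≤ (S s).card → ∃ i ∈ S s, ∃ j ∈ S s, ∃ k ∈ S s, ∃ l ∈ S s,
      Free p ζ a S i j ∧ Free p ζ a S k l ∧ ¬ ((m s i + m s j) * (m t k + m t l)) ^ 2 ≡
        ((m t i + m t j) * (m s k + m s l)) ^ 2 [MOD p])
    (hconn : ∀ s, ∀ i ∈ S s, ∀ j ∈ S s,
      Relation.ReflTransGen (fun u v => u ∈ S s ∧ v ∈ S s ∧ Free p ζ a S u v) i j)
    {ξ : ℕ → L} (hξ : Stm.IsRoots p ξ) (hξ1 : ξ 1 = algebraMap K L ζ) {n j : ℕ}
    (hj : ∀ s, 2 * j < (S s).card - 1) (F : (Fin (2 * j) → Stm.Vec L p a S m n) → ℚ_[p])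
    (hF : Stm.IsForm F) :
    Stm.IsTate j F ↔ F ∈ Submodule.span ℚ_[p] {g | Stm.IsPProduct ξ g} := by
  have hξ' : IsRoots p ξ := ⟨hξ.prim, hξ.pow⟩
  obtain ⟨hfin, z, e, P, ρ, hz, hρ, he, hu, hrep⟩ :=
    repP hp hζ a ha htwo hm hM hnz hsep hconn hξ' hξ1
  have hdeg : ∀ s, (Stm.eqn L a (S s) (m s)).natDegree.Coprime p := fun s => by
    rw [invFinA_deg]
    exact hM s
  have hpair : ∀ s t u, Stm.pairing (algebraMap L[X] _ Polynomial.X) ξ t u =
      e s (toTM t) (toTM u) := fun s t u => invFinA_pairing hξ' (he s) (hu s) t u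
  have hiter : ∀ s (i : ℕ), ∃ τ' : Co L p (Stm.eqn L a (S s) (m s)) ≃+*
      Co L p (Stm.eqn L a (S s) (m s)), Stm.IsAuto (RingEquiv.refl L) (ξ 1 ^ i) τ' ∧
        ∀ t, toTM (Stm.mvT τ' t) = (z s ^ i) (toTM t) := by
    intro s i
    obtain ⟨τ, h4, h5, h6, h7⟩ := hz s
    obtain ⟨τ', h8, h9⟩ := invFinA_iter h4 h5 h6 i
    exact ⟨τ', h8, fun t => by rw [h9, h7]⟩
  obtain ⟨F', hF'⟩ := invFinA_form hF.add hF.smul
  have hFF : ∀ v : Fin (2 * j) → Stm.Vec L p a S m n, F v = F' fun i b s => toTM (v i b s) := by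
    intro v
    rw [hF']
    rfl
  -- Tate forms
  have h1 : Stm.IsTate j F ↔ IsTateForm ρ (chi L p) j F' := by
    constructor
    · rintro ⟨U, hU, hT⟩
      refine ⟨U, hU, fun g hg v => ?_⟩
      choose τ h1 h2 h3 h4 using fun s => hρ s g
      rw [hF', hF']
      refine hT g hg τ (fun s => invFinA_auto (h1 s) (h2 s)
        (by rw [map_one, one_mul]; exact h3 s)) _ _ fun i b s k => ?_
      rw [h4]
      rfl
    · rintro ⟨U, hU, hT⟩
      refine ⟨U, hU, fun g hg τ hτ v w hvw => ?_⟩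
      have h2 := hT g hg fun i b s => toTM (v i b s)
      rw [← hFF v] at h2
      have h3 : (fun i b s => toTM (w i b s)) = fun i b s => ρ s g (toTM (v i b s)) := by
        funext i b s
        obtain ⟨τ', h4, h5, h6, h7⟩ := hρ s g
        have h8 : τ s = τ' := by
          refine auto_unique (hdeg s) (g := (g : L ≃+* L)) (hτ s).1 (hτ s).2.1 ?_ h4 h5 h6
          rw [(hτ s).2.2 _ rfl, map_one, one_mul]
        refine Subtype.ext (funext fun k => ?_)
        rw [h7]
        exact (hvw i b s k).trans (by rw [h8]; rfl)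
      rw [hFF w, h3]
      exact h2
  rw [h1, tate_low hp hrep hj F']
  -- products of pairings
  constructor
  · intro h2
    have h3 := invFinA_span (LinearMap.funLeft ℚ_[p] ℚ_[p]
      fun (v : Fin (2 * j) → Stm.Vec L p a S m n) i b s => toTM (v i b s))
      (B := {g | Stm.IsPProduct ξ g}) ?_ h2
    · have h4 : F = LinearMap.funLeft ℚ_[p] ℚ_[p]
          (fun (v : Fin (2 * j) → Stm.Vec L p a S m n) i b s => toTM (v i b s))
            fun v => F' v := by
        funext v
        rw [hFF v]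
        rfl
      rw [h4]
      exact h3
    · rintro g ⟨k, s, i, π, β, hg⟩
      choose τ h4 h5 using hiter
      refine ⟨k, s, i, fun l => τ (s l) (i l), π, β, fun l => h4 (s l) (i l), fun v => ?_⟩
      rw [LinearMap.funLeft_apply, hg]
      refine Finset.prod_congr rfl fun l _ => ?_
      rw [hpair, h5]
  · intro h2
    have h3 := invFinA_span (LinearMap.funLeft ℚ_[p] ℚ_[p]
      fun (v : Fin (2 * j) → Fin n → ∀ s, Tm L p a (S s) (m s)) i b s => toTM.symm (v i b s))
      (B := {g | IsPProd z e g}) ?_ h2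
    · have h4 : (fun v => F' v) = LinearMap.funLeft ℚ_[p] ℚ_[p]
          (fun (v : Fin (2 * j) → Fin n → ∀ s, Tm L p a (S s) (m s)) i b s =>
            toTM.symm (v i b s)) F := by
        funext v
        rw [hF']
        rfl
      rw [h4]
      exact h3
    · rintro g ⟨k, s, i, ε, π, β, hε, hg⟩
      refine ⟨k, s, i, π, β, fun v => ?_⟩
      rw [LinearMap.funLeft_apply, hg]
      refine Finset.prod_congr rfl fun l _ => ?_
      obtain ⟨τ', h4, h5⟩ := hiter (s l) (i l)
      have h6 : ε l = τ' := invFinA_unique (hdeg (s l)) (hε l) h4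
      rw [hpair, h6, h5, Equiv.apply_symm_apply, Equiv.apply_symm_apply]

end Pool.Agent.PTate
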