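import Pool.Agent.PTate.InvStm
import Pool.Agent.PTate.InvMain
import Pool.Agent.PTate.Geo

/-!
# The structure of Tate classes
-/

set_option autoImplicit false

noncomputable section

namespace Pool.Agent.PTate

open Polynomial
open scoped Classical

section Aux

/-- The Tate module of the statement and the Tate module of the proof. -/
private def InvFinB_tm {p : ℕ} {O : Type} [CommRing O] : Stm.Tate p O ≃ TM p (J O) where
  toFun t := ⟨t.pt, t.zero, t.mul⟩
  invFun t := ⟨t, t.2.1, t.2.2⟩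
  left_inv _ := rfl
  right_inv _ := rfl

private theorem InvFinB_ext {p : ℕ} {O : Type} [CommRing O] {t u : Stm.Tate p O}
    (h : ∀ n, t.pt n = u.pt n) : t = u := by
  cases t
  cases u
  congr
  exact funext h

private theorem InvFinB_auto {L : Type} [Field L] {p : ℕ} [Fact p.Prime] {f : L[X]}
    {g : L ≃+* L} {c : L} {e : Co L p f ≃+* Co L p f}
    (h1 : ∀ t : L, e (algebraMap L _ t) = algebraMap L _ (g t))
    (h2 : e (Co.x L p f) = Co.x L p f) (h3 : e (Co.y L p f) = algebraMap L _ c * Co.y L p f) :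
    Stm.IsAuto g c e := by
  refine ⟨h1, h2, fun y hy => ?_⟩
  have h4 : y = Co.y L p f := Subtype.ext hy
  rw [h4]
  exact h3

/-- uniqueness of the automorphisms -/
private theorem InvFinB_unique {L : Type} [Field L] {p : ℕ} [Fact p.Prime] {f : L[X]}
    (hf : f.natDegree.Coprime p) {g : L ≃+* L} {c : L} {e e' : Co L p f ≃+* Co L p f}
    (h : Stm.IsAuto g c e) (h' : Stm.IsAuto g c e') : e = e' := by
  have h1 : e.trans e'.symm = RingEquiv.refl _ := by
    refine auto_unique (k := L) hf (g := RingEquiv.refl L) (fun t => ?_) ?_ ?_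
      (fun t => rfl) rfl rfl
    · show e'.symm (e (algebraMap L _ t)) = _
      rw [RingEquiv.symm_apply_eq, h.1]
      exact (h'.1 t).symm
    · show e'.symm (e (Co.x L p f)) = _
      rw [RingEquiv.symm_apply_eq]
      exact h.2.1.trans h'.2.1.symm
    · show e'.symm (e (Co.y L p f)) = _
      rw [RingEquiv.symm_apply_eq, h.2.2 (Co.y L p f) rfl, h'.2.2 (Co.y L p f) rfl]
  refine RingEquiv.ext fun z => ?_
  have h2 : e'.symm (e z) = z := RingEquiv.congr_fun h1 z
  rw [RingEquiv.symm_apply_eq] at h2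
  exact h2

/-- the operator `z` acts as the automorphism `e` -/
private def InvFinB_acts {p : ℕ} [Fact p.Prime] {O : Type} [CommRing O]
    (z : Module.End ℤ_[p] (TM p (J O))) (e : O ≃+* O) : Prop :=
  ∀ (t : TM p (J O)) (n : ℕ), ((z t : TM p (J O)) : ℕ → J O) n = J.map e ((t : ℕ → J O) n)

private theorem InvFinB_acts_map {p : ℕ} [Fact p.Prime] {O : Type} [CommRing O]
    {z : Module.End ℤ_[p] (TM p (J O))} {e : O ≃+* O} (hz : z = TM.map (J.map e)) :
    InvFinB_acts z e := by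
  intro t n
  rw [hz]
  rfl

private theorem InvFinB_acts_zero {p : ℕ} [Fact p.Prime] {O : Type} [CommRing O]
    (z : Module.End ℤ_[p] (TM p (J O))) : InvFinB_acts (z ^ 0) (RingEquiv.refl O) := by
  intro t n
  rw [pow_zero, J.map_refl]
  rfl

private theorem InvFinB_acts_succ {p : ℕ} [Fact p.Prime] {O : Type} [CommRing O]
    {z : Module.End ℤ_[p] (TM p (J O))} {τ e : O ≃+* O} (hz : InvFinB_acts z τ) {i : ℕ}
    (he : InvFinB_acts (z ^ i) e) : InvFinB_acts (z ^ (i + 1)) (e.trans τ) := by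
  intro t n
  rw [pow_succ', Module.End.mul_apply, hz, he, J.map_trans]

private theorem InvFinB_acts_mv {p : ℕ} [Fact p.Prime] {O : Type} [CommRing O]
    {z : Module.End ℤ_[p] (TM p (J O))} {e : O ≃+* O} (h : InvFinB_acts z e)
    (t : Stm.Tate p O) : InvFinB_tm (Stm.mvT e t) = z (InvFinB_tm t) :=
  Subtype.ext (funext fun n => (h (InvFinB_tm t) n).symm)

private theorem InvFinB_acts_mv' {p : ℕ} [Fact p.Prime] {O : Type} [CommRing O]
    {z : Module.End ℤ_[p] (TM p (J O))} {e : O ≃+* O} (h : InvFinB_acts z e)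
    (t : TM p (J O)) : InvFinB_tm.symm (z t) = Stm.mvT e (InvFinB_tm.symm t) :=
  InvFinB_ext fun n => h t n

/-- the powers of an automorphism -/
private theorem InvFinB_pow {L : Type} [Field L] {p : ℕ} [Fact p.Prime] {f : L[X]} {c : L}
    {z : Module.End ℤ_[p] (TM p (J (Co L p f)))} {τ : Co L p f ≃+* Co L p f}
    (h : Stm.IsAuto (RingEquiv.refl L) c τ) (hz : InvFinB_acts z τ) (i : ℕ) :
    ∃ e : Co L p f ≃+* Co L p f, Stm.IsAuto (RingEquiv.refl L) (c ^ i) e ∧
      InvFinB_acts (z ^ i) e := by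
  induction i with
  | zero =>
    refine ⟨RingEquiv.refl _, InvFinB_auto (fun t => rfl) rfl ?_, InvFinB_acts_zero z⟩
    rw [pow_zero, map_one, one_mul]
    rfl
  | succ i ih =>
    obtain ⟨e, he, hm⟩ := ih
    refine ⟨e.trans τ, InvFinB_auto (fun t => ?_) ?_ ?_, InvFinB_acts_succ hz hm⟩
    · show τ (e (algebraMap L _ t)) = _
      rw [he.1]
      exact h.1 t
    · show τ (e (Co.x L p f)) = _
      have h2 : e (Co.x L p f) = Co.x L p f := he.2.1
      rw [h2]
      exact h.2.1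
    · show τ (e (Co.y L p f)) = _
      have h3 : e (Co.y L p f) = algebraMap L _ (c ^ i) * Co.y L p f := he.2.2 (Co.y L p f) rfl
      have h4 : τ (Co.y L p f) = algebraMap L _ c * Co.y L p f := h.2.2 (Co.y L p f) rfl
      have h5 : τ (algebraMap L (Co L p f) (c ^ i)) = algebraMap L (Co L p f) (c ^ i) := h.1 _
      rw [h3, map_mul, h4, h5, pow_succ, map_mul, mul_assoc]

/-- the Weil pairing of the statement -/
private theorem InvFinB_pairing {L : Type} [Field L] {O : Type} [CommRing O] [Algebra L O]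
    {p : ℕ} [Fact p.Prime] {x : O} {ξ : ℕ → L} (hξ : IsRoots p ξ)
    {e : TM p (J O) →ₗ[ℤ_[p]] TM p (J O) →ₗ[ℤ_[p]] ℤ_[p]}
    (he : ∀ (t u : TM p (J O)) (n : ℕ), 1 ≤ n →
      Stm.IsWeil x (p ^ n) ((t : ℕ → J O) n) ((u : ℕ → J O) n)
        (ξ n ^ (PadicInt.toZModPow n (e t u)).val))
    (hu : ∀ (n : ℕ) (c c' : J O) (w w' : L), p ∣ n → Stm.IsWeil x n c c' w →
      Stm.IsWeil x n c c' w' → w = w') (t u : Stm.Tate p O) :
    Stm.pairing x ξ t u = e (InvFinB_tm t) (InvFinB_tm u) := by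
  have h : ∃ z : ℤ_[p], ∀ n, 1 ≤ n →
      Stm.IsWeil x (p ^ n) (t.pt n) (u.pt n) (ξ n ^ (PadicInt.toZModPow n z).val) :=
    ⟨e (InvFinB_tm t) (InvFinB_tm u), fun n hn => he (InvFinB_tm t) (InvFinB_tm u) n hn⟩
  unfold Stm.pairing
  rw [dif_pos h]
  refine eq_of_roots hξ fun n hn => ?_
  exact hu (p ^ n) _ _ _ _ (dvd_pow_self p (by omega)) (h.choose_spec n hn)
    (he (InvFinB_tm t) (InvFinB_tm u) n hn)

/-- the form on the Tate modules -/
private theorem InvFinB_form {p : ℕ} [Fact p.Prime] {σ : Type} {O : σ → Type}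
    [∀ s, CommRing (O s)] {n r : ℕ} {F : (Fin r → Fin n → ∀ s, Stm.Tate p (O s)) → ℚ_[p]}
    (hadd : ∀ (i : Fin r) (v w w' : Fin r → Fin n → ∀ s, Stm.Tate p (O s)),
      (∀ l, l ≠ i → w l = v l ∧ w' l = v l) →
      (∀ b s k, (v i b s).pt k = (w i b s).pt k + (w' i b s).pt k) → F v = F w + F w')
    (hsmul : ∀ (z : ℤ_[p]) (i : Fin r) (v w : Fin r → Fin n → ∀ s, Stm.Tate p (O s)),
      (∀ l, l ≠ i → w l = v l) →
      (∀ b s k, (v i b s).pt k = (PadicInt.toZModPow k z).val • (w i b s).pt k) →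
        F v = (z : ℚ_[p]) * F w) :
    ∃ F' : MultilinearMap ℤ_[p] (fun _ : Fin r => Fin n → ∀ s, TM p (J (O s))) ℚ_[p],
      ∀ v, F' v = F fun i b s => InvFinB_tm.symm (v i b s) := by
  have hne : ∀ (v : Fin r → Fin n → ∀ s, TM p (J (O s))) (i : Fin r) x y,
      ∀ l, l ≠ i → (fun b s => InvFinB_tm.symm (Function.update v i x l b s)) =
        fun b s => InvFinB_tm.symm (Function.update v i y l b s) := by
    intro v i x y l hl
    rw [Function.update_of_ne hl, Function.update_of_ne hl]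
  refine ⟨{
    toFun := fun v => F fun i b s => InvFinB_tm.symm (v i b s)
    map_update_add' := ?_
    map_update_smul' := ?_ }, fun v => rfl⟩
  · intro hdec v i x y
    have hdec' : hdec = instDecidableEqFin r := Subsingleton.elim _ _
    subst hdec'
    refine hadd i _ _ _ (fun l hl => ⟨hne v i _ _ l hl, hne v i _ _ l hl⟩) fun b s k => ?_
    rw [Function.update_self, Function.update_self, Function.update_self]
    rfl
  · intro hdec v i c x
    have hdec' : hdec = instDecidableEqFin r := Subsingleton.elim _ _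
    subst hdec'
    refine hsmul c i _ _ (fun l hl => hne v i _ _ l hl) fun b s k => ?_
    rw [Function.update_self, Function.update_self]
    rfl

private theorem InvFinB_update {p : ℕ} {O : Type} [CommRing O] {d : ℕ}
    (v : Fin d → TM p (J O)) (i : Fin d) (x : TM p (J O)) :
    (fun l => InvFinB_tm.symm (Function.update v i x l)) =
      Function.update (fun l => InvFinB_tm.symm (v l)) i (InvFinB_tm.symm x) := by
  funext l
  by_cases hl : l = i
  · subst hl
    rw [Function.update_self, Function.update_self]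
  · rw [Function.update_of_ne hl, Function.update_of_ne hl]

private theorem InvFinB_update' {p : ℕ} {O : Type} [CommRing O] {d : ℕ}
    (v : Fin d → Stm.Tate p O) (i : Fin d) (x : Stm.Tate p O) :
    (fun l => InvFinB_tm (Function.update v i x l)) =
      Function.update (fun l => InvFinB_tm (v l)) i (InvFinB_tm x) := by
  funext l
  by_cases hl : l = i
  · subst hl
    rw [Function.update_self, Function.update_self]
  · rw [Function.update_of_ne hl, Function.update_of_ne hl]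

/-- the alternating form -/
private theorem InvFinB_alt {p : ℕ} [Fact p.Prime] {O : Type} [CommRing O] {d : ℕ}
    {D : (Fin d → Stm.Tate p O) → AlgebraicClosure ℚ_[p]}
    (hadd : ∀ (v : Fin d → Stm.Tate p O) (i : Fin d) (t u w : Stm.Tate p O),
      (∀ k, t.pt k = u.pt k + w.pt k) →
        D (Function.update v i t) = D (Function.update v i u) + D (Function.update v i w))
    (hsmul : ∀ (c : ℤ_[p]) (v : Fin d → Stm.Tate p O) (i : Fin d) (t u : Stm.Tate p O),
      (∀ k, t.pt k = (PadicInt.toZModPow k c).val • u.pt k) →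
        D (Function.update v i t) = algebraMap ℤ_[p] _ c * D (Function.update v i u))
    (halt : ∀ (v : Fin d → Stm.Tate p O) (i j : Fin d), i ≠ j → v i = v j → D v = 0) :
    ∃ D' : (TM p (J O)) [⋀^Fin d]→ₗ[ℤ_[p]] AlgebraicClosure ℚ_[p],
      ∀ w, D' w = D fun i => InvFinB_tm.symm (w i) := by
  refine ⟨{
    toFun := fun v => D fun i => InvFinB_tm.symm (v i)
    map_update_add' := ?_
    map_update_smul' := ?_
    map_eq_zero_of_eq' := ?_ }, fun w => rfl⟩
  · intro hdec v i x y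
    have hdec' : hdec = instDecidableEqFin d := Subsingleton.elim _ _
    subst hdec'
    rw [InvFinB_update, InvFinB_update, InvFinB_update]
    exact hadd _ _ _ _ _ fun k => rfl
  · intro hdec v i c x
    have hdec' : hdec = instDecidableEqFin d := Subsingleton.elim _ _
    subst hdec'
    rw [InvFinB_update, InvFinB_update, Algebra.smul_def]
    exact hsmul c _ _ _ _ fun k => rfl
  · intro v i j hij hne
    refine halt _ i j hne ?_
    rw [hij]

/-- a determinant of the statement is a determinant -/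
private theorem InvFinB_det {L : Type} [Field L] {p : ℕ} [Fact p.Prime] {f : L[X]} {ξ : ℕ → L}
    {ζ : AlgebraicClosure ℚ_[p]} {d : ℕ}
    {D : (Fin d → Stm.Tate p (Co L p f)) → AlgebraicClosure ℚ_[p]}
    {z : Module.End ℤ_[p] (TM p (J (Co L p f)))} {τ : Co L p f ≃+* Co L p f}
    (hτ : Stm.IsAuto (RingEquiv.refl L) (ξ 1) τ) (hz : InvFinB_acts z τ)
    (hd : d * (p - 1) = Module.finrank ℤ_[p] (TM p (J (Co L p f))))
    (h : Stm.IsDet ξ ζ D) :
    ∃ D' : (TM p (J (Co L p f))) [⋀^Fin d]→ₗ[ℤ_[p]] AlgebraicClosure ℚ_[p],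
      IsDet ζ z D' ∧ ∀ w, D' w = D fun i => InvFinB_tm.symm (w i) := by
  obtain ⟨D', hD'⟩ := InvFinB_alt h.add h.smul h.alt
  refine ⟨D', ⟨hd, ?_⟩, hD'⟩
  obtain ⟨a, ha0, hap, ha⟩ := h.eig
  refine ⟨a, ha0, hap, fun w i => ?_⟩
  rw [hD', hD', InvFinB_update, InvFinB_acts_mv' hz]
  exact ha τ hτ _ i

/-- the determinant of the statement -/
private theorem InvFinB_alt' {p : ℕ} [Fact p.Prime] {O : Type} [CommRing O] {d : ℕ}
    (D : (TM p (J O)) [⋀^Fin d]→ₗ[ℤ_[p]] AlgebraicClosure ℚ_[p]) :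
    (∀ (v : Fin d → Stm.Tate p O) (i : Fin d) (t u w : Stm.Tate p O),
      (∀ k, t.pt k = u.pt k + w.pt k) →
        (D fun l => InvFinB_tm (Function.update v i t l)) =
          (D fun l => InvFinB_tm (Function.update v i u l)) +
            D fun l => InvFinB_tm (Function.update v i w l)) ∧
    (∀ (c : ℤ_[p]) (v : Fin d → Stm.Tate p O) (i : Fin d) (t u : Stm.Tate p O),
      (∀ k, t.pt k = (PadicInt.toZModPow k c).val • u.pt k) →
        (D fun l => InvFinB_tm (Function.update v i t l)) =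
          algebraMap ℤ_[p] _ c * D fun l => InvFinB_tm (Function.update v i u l)) ∧
    (∀ (v : Fin d → Stm.Tate p O) (i j : Fin d), i ≠ j → v i = v j →
      (D fun l => InvFinB_tm (v l)) = 0) := by
  refine ⟨?_, ?_, ?_⟩
  · intro v i t u w htuw
    have h1 : (InvFinB_tm t : TM p (J O)) = InvFinB_tm u + InvFinB_tm w :=
      Subtype.ext (funext htuw)
    rw [InvFinB_update', InvFinB_update', InvFinB_update', h1, D.map_update_add]
  · intro c v i t u htu
    have h1 : (InvFinB_tm t : TM p (J O)) = c • InvFinB_tm u := Subtype.ext (funext htu)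
    rw [InvFinB_update', InvFinB_update', h1, D.map_update_smul, Algebra.smul_def]
  · intro v i j hij hv
    exact D.map_eq_zero_of_eq _ (by rw [hv]) hij

/-- a determinant is a determinant of the statement -/
private theorem InvFinB_det' {L : Type} [Field L] {p : ℕ} [Fact p.Prime] {f : L[X]}
    (hf : f.natDegree.Coprime p) {ξ : ℕ → L}
    {ζ : AlgebraicClosure ℚ_[p]} {d : ℕ}
    {z : Module.End ℤ_[p] (TM p (J (Co L p f)))} {τ : Co L p f ≃+* Co L p f}
    (hτ : Stm.IsAuto (RingEquiv.refl L) (ξ 1) τ) (hz : InvFinB_acts z τ)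
    {D : (TM p (J (Co L p f))) [⋀^Fin d]→ₗ[ℤ_[p]] AlgebraicClosure ℚ_[p]}
    (h : IsDet ζ z D) : Stm.IsDet ξ ζ fun w => D fun i => InvFinB_tm (w i) := by
  obtain ⟨h1, h2, h3⟩ := InvFinB_alt' D
  refine ⟨h1, h2, h3, ?_⟩
  obtain ⟨-, a, ha0, hap, ha⟩ := h
  refine ⟨a, ha0, hap, fun e he v i => ?_⟩
  have h4 : e = τ := InvFinB_unique hf he hτ
  have h5 : InvFinB_tm (Stm.mvT e (v i)) = z (InvFinB_tm (v i)) := by
    rw [h4]
    exact InvFinB_acts_mv hz _
  rw [InvFinB_update', h5]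
  exact ha (fun l => InvFinB_tm (v l)) i

/-- the spans -/
private theorem InvFinB_span {E X X' : Type} [Field E] (Φ : X ≃ X') (A : Set (X → E))
    (A' : Set (X' → E)) (h : ∀ g' : X' → E, g' ∈ A' ↔ (fun v => g' (Φ v)) ∈ A) (f' : X' → E) :
    f' ∈ Submodule.span E A' ↔ (fun v => f' (Φ v)) ∈ Submodule.span E A := by
  let T : (X' → E) ≃ₗ[E] (X → E) := LinearEquiv.funCongrLeft E E Φ
  have hT : ∀ g' v, T g' v = g' (Φ v) := fun _ _ => rfl
  have hA : A = (T : (X' → E) →ₗ[E] (X → E)) '' A' := by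
    ext g
    constructor
    · intro hg
      refine ⟨fun v' => g (Φ.symm v'), ?_, ?_⟩
      · rw [h]
        simpa using hg
      · funext v
        show T _ v = _
        rw [hT, Equiv.symm_apply_apply]
    · rintro ⟨g', hg', rfl⟩
      exact (h g').1 hg'
  rw [hA, ← Submodule.map_span]
  constructor
  · intro hf
    exact ⟨f', hf, rfl⟩
  · rintro ⟨g', hg', hg⟩
    have : g' = f' := T.injective hg
    rw [← this]
    exact hg'

end Aux

section Curves

variable {K : Type} [Field K] {L : Type} [Field L] [Algebra K L] {p : ℕ} [Fact p.Prime]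
  {ι σ : Type} {a : ι → K} {S : σ → Finset ι} {m : σ → ι → ℕ} {n r : ℕ}

/-- The vectors of the statement and the vectors of the proof. -/
private def InvFinB_eq : (Fin r → Stm.Vec L p a S m n) ≃
    (Fin r → Fin n → ∀ s, Tm L p a (S s) (m s)) where
  toFun v i b s := InvFinB_tm (v i b s)
  invFun v i b s := InvFinB_tm.symm (v i b s)
  left_inv _ := rfl
  right_inv _ := rfl

omit [Fact p.Prime] in
private theorem InvFinB_cop (hM : ∀ s, (∑ i ∈ S s, m s i).Coprime p) (s : σ) :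
    (Stm.eqn L a (S s) (m s)).natDegree.Coprime p := by
  have h : (Stm.eqn L a (S s) (m s)).natDegree = ∑ i ∈ S s, m s i := by
    unfold Stm.eqn
    rw [natDegree_prod_of_monic _ _ fun i _ => (monic_X_sub_C _).pow _]
    refine Finset.sum_congr rfl fun i _ => ?_
    rw [(monic_X_sub_C _).natDegree_pow, natDegree_X_sub_C, mul_one]
  rw [h]
  exact hM s

/-- the products -/
private theorem InvFinB_prod (hf : ∀ s, (Stm.eqn L a (S s) (m s)).natDegree.Coprime p)
    {ξ : ℕ → L} {ζ : AlgebraicClosure ℚ_[p]}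
    {z : ∀ s, Module.End ℤ_[p] (Tm L p a (S s) (m s))}
    {e : ∀ s, Tm L p a (S s) (m s) →ₗ[ℤ_[p]] Tm L p a (S s) (m s) →ₗ[ℤ_[p]] ℤ_[p]}
    {τ : ∀ s, Co L p (Stm.eqn L a (S s) (m s)) ≃+* Co L p (Stm.eqn L a (S s) (m s))}
    (hτ : ∀ s, Stm.IsAuto (RingEquiv.refl L) (ξ 1) (τ s)) (hz : ∀ s, InvFinB_acts (z s) (τ s))
    (hpair : ∀ s t u, Stm.pairing (algebraMap L[X] _ Polynomial.X) ξ t u =
      e s (InvFinB_tm t) (InvFinB_tm u))
    (hfr : ∀ s, Module.finrank ℤ_[p] (Tm L p a (S s) (m s)) = ((S s).card - 1) * (p - 1))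
    (g' : (Fin r → Fin n → ∀ s, Tm L p a (S s) (m s)) → AlgebraicClosure ℚ_[p]) :
    IsProd z e ζ g' ↔ Stm.IsProduct ξ ζ fun v => g' (InvFinB_eq v) := by
  have hp2 := (Fact.out : p.Prime).two_le
  have hpow := fun s i => InvFinB_pow (hτ s) (hz s) i
  have key : ∀ (s : σ) (i : ℕ)
      (E : Co L p (Stm.eqn L a (S s) (m s)) ≃+* Co L p (Stm.eqn L a (S s) (m s)))
      (_ : InvFinB_acts (z s ^ i) E) (x y : Stm.Tate p (Co L p (Stm.eqn L a (S s) (m s)))),
      algebraMap ℤ_[p] (AlgebraicClosure ℚ_[p])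
        (e s ((z s ^ i) (InvFinB_tm x)) (InvFinB_tm y)) =
      algebraMap ℤ_[p] (AlgebraicClosure ℚ_[p])
        (Stm.pairing (algebraMap L[X] _ Polynomial.X) ξ (Stm.mvT E x) y) := by
    intro s i E hE x y
    rw [hpair, InvFinB_acts_mv hE]
  constructor
  · rintro ⟨k, l, s, i, t, d, D, π, β, hD, hv⟩
    have hd : d = fun u => (S (t u)).card - 1 := by
      funext u
      have h1 := (hD u).1
      rw [hfr] at h1
      exact Nat.eq_of_mul_eq_mul_right (by omega) h1
    subst hd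
    choose E hE1 hE2 using fun l => hpow (s l) (i l)
    refine ⟨k, l, s, i, E, t, fun u w => D u fun j => InvFinB_tm (w j), π, β, hE1,
      fun u => InvFinB_det' (hf (t u)) (hτ (t u)) (hz (t u)) (hD u), fun v => ?_⟩
    refine (hv (InvFinB_eq v)).trans ?_
    exact congrArg₂ (· * ·) (Finset.prod_congr rfl fun b _ => key (s b) (i b) (E b) (hE2 b) _ _)
      (Finset.prod_congr rfl fun u _ => rfl)
  · rintro ⟨k, l, s, i, E, t, D, π, β, hE, hD, hv⟩
    have hE2 : ∀ b, InvFinB_acts (z (s b) ^ i b) (E b) := by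
      intro b
      obtain ⟨E', hE', hE2⟩ := hpow (s b) (i b)
      have h3 : E b = E' := InvFinB_unique (hf (s b)) (hE b) hE'
      rw [h3]
      exact hE2
    have h1 := fun u => InvFinB_det (d := (S (t u)).card - 1) (hτ (t u)) (hz (t u))
      (hfr (t u)).symm (hD u)
    choose D' hD' hDD' using h1
    refine ⟨k, l, s, i, t, fun u => (S (t u)).card - 1, D', π, β, hD', fun v => ?_⟩
    refine (hv (InvFinB_eq.symm v)).trans ?_
    exact congrArg₂ (· * ·)
      (Finset.prod_congr rfl fun b _ => (key (s b) (i b) (E b) (hE2 b) _ _).symm)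
      (Finset.prod_congr rfl fun u _ => (hDD' u _).symm)

/-- the Tate forms with values in the algebraic closure -/
private theorem InvFinB_tateE (hf : ∀ s, (Stm.eqn L a (S s) (m s)).natDegree.Coprime p)
    {ρ : ∀ s, (L ≃ₐ[K] L) →* Module.End ℤ_[p] (Tm L p a (S s) (m s))}
    {τ : ∀ s, (L ≃ₐ[K] L) →
      (Co L p (Stm.eqn L a (S s) (m s)) ≃+* Co L p (Stm.eqn L a (S s) (m s)))}
    (hτ : ∀ s (g : L ≃ₐ[K] L), Stm.IsAuto (g : L ≃+* L) 1 (τ s g))
    (hρ : ∀ s g, InvFinB_acts (ρ s g) (τ s g))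
    (j : ℕ) (g' : (Fin r → Fin n → ∀ s, Tm L p a (S s) (m s)) → AlgebraicClosure ℚ_[p]) :
    IsTateE ρ (chi L p) j g' ↔ Stm.IsTateE (K := K) j fun v => g' (InvFinB_eq v) := by
  have key : ∀ (g : L ≃ₐ[K] L)
      (e : ∀ s, Co L p (Stm.eqn L a (S s) (m s)) ≃+* Co L p (Stm.eqn L a (S s) (m s)))
      (_ : ∀ s, InvFinB_acts (ρ s g) (e s)) (v : Fin r → Stm.Vec L p a S m n),
      InvFinB_eq (fun i b s => Stm.mvT (e s) (v i b s)) =
        fun i b s => ρ s g (InvFinB_eq v i b s) := by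
    intro g e he v
    funext i b s
    exact InvFinB_acts_mv (he s) _
  constructor
  · rintro ⟨U, hU, H⟩
    refine ⟨U, hU, fun g hg e he v => ?_⟩
    have h1 : ∀ s, InvFinB_acts (ρ s g) (e s) := by
      intro s
      rw [InvFinB_unique (hf s) (he s) (hτ s g)]
      exact hρ s g
    refine (congrArg g' (key g e h1 v)).trans ?_
    exact H g hg (InvFinB_eq v)
  · rintro ⟨U, hU, H⟩
    refine ⟨U, hU, fun g hg v => ?_⟩
    have h2 := H g hg (fun s => τ s g) (fun s => hτ s g) (InvFinB_eq.symm v)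
    refine Eq.trans ?_ h2
    exact (congrArg g' (key g (fun s => τ s g) (fun s => hρ s g) (InvFinB_eq.symm v))).symm

/-- the Tate forms -/
private theorem InvFinB_tate (hf : ∀ s, (Stm.eqn L a (S s) (m s)).natDegree.Coprime p)
    {ρ : ∀ s, (L ≃ₐ[K] L) →* Module.End ℤ_[p] (Tm L p a (S s) (m s))}
    {τ : ∀ s, (L ≃ₐ[K] L) →
      (Co L p (Stm.eqn L a (S s) (m s)) ≃+* Co L p (Stm.eqn L a (S s) (m s)))}
    (hτ : ∀ s (g : L ≃ₐ[K] L), Stm.IsAuto (g : L ≃+* L) 1 (τ s g))
    (hρ : ∀ s g, InvFinB_acts (ρ s g) (τ s g))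
    (j : ℕ) (F : (Fin r → Stm.Vec L p a S m n) → ℚ_[p])
    (F' : MultilinearMap ℤ_[p] (fun _ : Fin r => Fin n → ∀ s, Tm L p a (S s) (m s)) ℚ_[p])
    (hF' : ∀ v, F' v = F (InvFinB_eq.symm v)) :
    Stm.IsTate (K := K) j F ↔ IsTateForm ρ (chi L p) j F' := by
  have key : ∀ (g : L ≃ₐ[K] L)
      (e : ∀ s, Co L p (Stm.eqn L a (S s) (m s)) ≃+* Co L p (Stm.eqn L a (S s) (m s)))
      (_ : ∀ s, InvFinB_acts (ρ s g) (e s)) (v w : Fin r → Stm.Vec L p a S m n)
      (_ : ∀ i b s k, (w i b s).pt k = J.map (e s) ((v i b s).pt k)),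
      InvFinB_eq w = fun i b s => ρ s g (InvFinB_eq v i b s) := by
    intro g e he v w hvw
    funext i b s
    refine Subtype.ext (funext fun k => ?_)
    exact (hvw i b s k).trans (he s (InvFinB_eq v i b s) k).symm
  have hF : ∀ v, F v = F' (InvFinB_eq v) := fun v => (hF' (InvFinB_eq v)).symm
  constructor
  · rintro ⟨U, hU, H⟩
    refine ⟨U, hU, fun g hg v => ?_⟩
    rw [hF', hF']
    exact H g hg (fun s => τ s g) (fun s => hτ s g) _ _ fun i b s k => hρ s g (v i b s) k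
  · rintro ⟨U, hU, H⟩
    refine ⟨U, hU, fun g hg e he v w hvw => ?_⟩
    have h1 : ∀ s, InvFinB_acts (ρ s g) (e s) := by
      intro s
      rw [InvFinB_unique (hf s) (he s) (hτ s g)]
      exact hρ s g
    rw [hF w, hF v, key g e h1 v w hvw]
    exact H g hg (InvFinB_eq v)

end Curves

/-- **The structure of Tate classes**: they are the linear combinations of the products of Weil
pairings and determinants which are Tate classes. -/
theorem structure_all {K : Type} [Field K] {L : Type} [Field L] [Algebra K L]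
    [Algebra.IsAlgebraic K L] [IsAlgClosed L] {p : ℕ} [Fact p.Prime] (hp : p ≠ 2) {ζ : K}
    (hζ : IsPrimitiveRoot ζ p) {ι σ : Type} [Fintype ι] [Fintype σ] (a : ι → K)
    (S : σ → Finset ι) (m : σ → ι → ℕ) (ha : ∀ s, Set.InjOn a (S s))
    (htwo : ∀ s, 2 ≤ (S s).card) (hm : ∀ s, ∀ i ∈ S s, (m s i).Coprime p)
    (hM : ∀ s, (∑ i ∈ S s, m s i).Coprime p)
    (hnz : ∀ s, 4 ≤ (S s).card → ∃ i ∈ S s, ∃ j ∈ S s, Free p ζ a S i j ∧
      (m s i + m s j).Coprime p)
    (hsep : ∀ s t, s ≠ t → S s = S t → 3 ≤ (S s).card → ∃ i ∈ S s, ∃ j ∈ S s, ∃ k ∈ S s,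
      ∃ l ∈ S s, Free p ζ a S i j ∧ Free p ζ a S k l ∧
        ¬ ((m s i + m s j) * (m t k + m t l)) ^ 2 ≡
          ((m t i + m t j) * (m s k + m s l)) ^ 2 [MOD p])
    (hconn : ∀ s, ∀ i ∈ S s, ∀ j ∈ S s,
      Relation.ReflTransGen (fun u v => u ∈ S s ∧ v ∈ S s ∧ Free p ζ a S u v) i j)
    {ξ : ℕ → L} (hξ : Stm.IsRoots p ξ) (hξ1 : ξ 1 = algebraMap K L ζ)
    {ζ' : AlgebraicClosure ℚ_[p]} (hζ' : IsPrimitiveRoot ζ' p) {n r j : ℕ}
    (F : (Fin r → Stm.Vec L p a S m n) → ℚ_[p]) (hF : Stm.IsForm F) :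
    Stm.IsTate j F ↔ (fun v => algebraMap ℚ_[p] (AlgebraicClosure ℚ_[p]) (F v)) ∈
      Submodule.span (AlgebraicClosure ℚ_[p]) {g | Stm.IsProduct ξ ζ' g ∧ Stm.IsTateE j g} := by
  have hξ' : IsRoots p ξ := ⟨hξ.prim, hξ.pow⟩
  obtain ⟨hfin, z, e, P, ρ, hz, hρ, he, hu, hrep⟩ :=
    repP hp hζ a ha htwo hm hM hnz hsep hconn hξ' hξ1
  have hf := InvFinB_cop (L := L) (a := a) hM
  choose τ h1 h2 h3 h4 using hz
  have hτ : ∀ s, Stm.IsAuto (RingEquiv.refl L) (ξ 1) (τ s) := fun s =>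
    InvFinB_auto (h1 s) (h2 s) (h3 s)
  have hz : ∀ s, InvFinB_acts (z s) (τ s) := fun s => InvFinB_acts_map (h4 s)
  choose τ' g1 g2 g3 g4 using hρ
  have hτ' : ∀ s (g : L ≃ₐ[K] L), Stm.IsAuto (g : L ≃+* L) 1 (τ' s g) := fun s g =>
    InvFinB_auto (g1 s g) (g2 s g) (by rw [map_one, one_mul]; exact g3 s g)
  have hρ : ∀ s g, InvFinB_acts (ρ s g) (τ' s g) := fun s g => InvFinB_acts_map (g4 s g)
  have hpair : ∀ s t u, Stm.pairing (algebraMap L[X] _ Polynomial.X) ξ t u =
      e s (InvFinB_tm t) (InvFinB_tm u) := fun s t u => InvFinB_pairing hξ' (he s) (hu s) t u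
  have hfr : ∀ s, Module.finrank ℤ_[p] (Tm L p a (S s) (m s)) = ((S s).card - 1) * (p - 1) :=
    fun s => (hrep.finrank hp s).2
  obtain ⟨F', hF'⟩ := InvFinB_form (O := fun s => Co L p (Stm.eqn L a (S s) (m s))) hF.add
    hF.smul
  have e1 := InvFinB_tate hf hτ' hρ j F F' hF'
  have e2 := tate_iff hp hrep hζ' (j := j) F'
  have e3 := InvFinB_span (E := AlgebraicClosure ℚ_[p]) (InvFinB_eq (L := L) (a := a))
    {g | Stm.IsProduct ξ ζ' g ∧ Stm.IsTateE (K := K) j g}
    {g | IsProd z e ζ' g ∧ IsTateE ρ (chi L p) j g}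
    (fun g' => and_congr (InvFinB_prod hf hτ hz hpair hfr g') (InvFinB_tateE hf hτ' hρ j g'))
    (fun v => algebraMap ℚ_[p] (AlgebraicClosure ℚ_[p]) (F' v))
  have e4 : (fun v => (fun v => algebraMap ℚ_[p] (AlgebraicClosure ℚ_[p]) (F' v))
      (InvFinB_eq v)) = fun v => algebraMap ℚ_[p] (AlgebraicClosure ℚ_[p]) (F v) := by
    funext v
    exact congrArg (algebraMap ℚ_[p] (AlgebraicClosure ℚ_[p])) (hF' (InvFinB_eq v))
  rw [e4] at e3
  exact e1.trans (e2.trans e3)

end Pool.Agent.PTate
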