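import Pool.Agent.PTate.InvRat

/-!
# Invariant tensors of products of general linear Lie algebras
-/

set_option autoImplicit false

noncomputable section

namespace Pool.Agent.PTate

open scoped Classical

private theorem InvGl_cast {E Q T I : Type} [Field E] [CharZero E] [Fintype Q] [Fintype I]
    (τ : Q → T) (ε : I → Bool) (f : (I → Q) → ℚ)
    (hf : f ∈ Submodule.span ℚ {g : (I → Q) → ℚ | IsGProd τ ε g}) :
    (fun K => ((f K : ℚ) : E)) ∈ Submodule.span E {g : (I → Q) → E | IsGProd τ ε g} := by
  induction hf using Submodule.span_induction with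
  | mem g hg =>
    apply Submodule.subset_span
    obtain ⟨m, θ, π, h1, h2⟩ := hg
    refine ⟨m, θ, π, h1, fun K => ?_⟩
    simp only [h2 K]
    rw [Rat.cast_prod]
    refine Finset.prod_congr rfl fun a _ => ?_
    split_ifs <;> simp
  | zero =>
    have : (fun K : I → Q => (((0 : (I → Q) → ℚ) K : ℚ) : E)) = 0 := by
      funext K; simp
    rw [this]
    exact Submodule.zero_mem _
  | add x y _ _ hx hy =>
    have : (fun K : I → Q => (((x + y) K : ℚ) : E)) =
        (fun K => ((x K : ℚ) : E)) + fun K => ((y K : ℚ) : E) := by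
      funext K; simp
    rw [this]
    exact Submodule.add_mem _ hx hy
  | smul a x _ hx =>
    have : (fun K : I → Q => (((a • x) K : ℚ) : E)) =
        (a : E) • fun K => ((x K : ℚ) : E) := by
      funext K; simp
    rw [this]
    exact Submodule.smul_mem _ _ hx

/-- An invariant tensor is a linear combination of products of contractions. -/
theorem fft_gl {E Q T I : Type} [Field E] [CharZero E] [Fintype Q] [Fintype I] (τ : Q → T)
    (ε : I → Bool) (f : (I → Q) → E) (hf : ∀ k l, τ k = τ l → ∀ K, Dl ε k l f K = 0) :
    f ∈ Submodule.span E {g : (I → Q) → E | IsGProd τ ε g} := by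
  let b := Module.Basis.ofVectorSpace ℚ E
  have hγ : ∀ γ, (fun K => ((b.coord γ (f K) : ℚ) : E)) ∈
      Submodule.span E {g : (I → Q) → E | IsGProd τ ε g} := by
    intro γ
    apply InvGl_cast τ ε (fun K => b.coord γ (f K))
    apply fft_rat
    intro k l hkl K
    have h := congrArg (b.coord γ) (hf k l hkl K)
    rw [map_zero] at h
    rw [← h]
    unfold Dl
    rw [map_sub, map_sum, map_sum]
    congr 1
    · refine Finset.sum_congr rfl fun i _ => ?_
      split_ifs <;> simp
    · refine Finset.sum_congr rfl fun i _ => ?_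
      split_ifs <;> simp
  let F : Finset _ := Finset.univ.biUnion fun K : I → Q => (b.repr (f K)).support
  have hsum : f = ∑ γ ∈ F, (b γ) • (fun K => ((b.coord γ (f K) : ℚ) : E)) := by
    funext K
    have h1 : f K = ∑ γ ∈ F, (b.repr (f K) γ) • b γ := by
      conv_lhs => rw [← b.linearCombination_repr (f K)]
      rw [Finsupp.linearCombination_apply, Finsupp.sum]
      apply Finset.sum_subset
      · intro γ hγ
        exact Finset.mem_biUnion.mpr ⟨K, Finset.mem_univ _, hγ⟩
      · intro γ _ hγ
        rw [Finsupp.notMem_support_iff.mp hγ, zero_smul]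
    rw [Finset.sum_apply]
    conv_lhs => rw [h1]
    refine Finset.sum_congr rfl fun γ _ => ?_
    rw [Pi.smul_apply, smul_eq_mul, Rat.smul_def, mul_comm]
    rfl
  rw [hsum]
  exact Submodule.sum_mem _ fun γ _ => Submodule.smul_mem _ _ (hγ γ)

end Pool.Agent.PTate
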