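import Pool.Agent.PTate.InvEig
import Pool.Agent.PTate.InvDefs
import Pool.Agent.PTate.InvExt

/-!
# The special linear Lie algebras in coordinates
-/

set_option autoImplicit false
set_option linter.unusedSectionVars false

noncomputable section

namespace Pool.Agent.PTate

open scoped Classical

section Op

variable {p : ℕ} [Fact p.Prime] {N : Type} [AddCommGroup N] [Module ℤ_[p] N]

/-- The operator of two vectors. -/
private def ikX (z : Module.End ℤ_[p] N) (e : N →ₗ[ℤ_[p]] N →ₗ[ℤ_[p]] ℤ_[p]) (x y : N) :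
    Module.End ℤ_[p] N :=
  ∑ i ∈ Finset.range p, ((e.flip ((z ^ i) y)).smulRight ((z ^ i) x) +
    (e.flip ((z ^ i) x)).smulRight ((z ^ i) y))

private theorem ikX_apply (z : Module.End ℤ_[p] N) (e : N →ₗ[ℤ_[p]] N →ₗ[ℤ_[p]] ℤ_[p])
    (x y v : N) : ikX z e x y v = ∑ i ∈ Finset.range p,
      (e v ((z ^ i) y) • (z ^ i) x + e v ((z ^ i) x) • (z ^ i) y) := by
  unfold ikX
  rw [LinearMap.sum_apply]
  rfl

private theorem ik_zp {z : Module.End ℤ_[p] N} (hz : ∀ x, ∑ i ∈ Finset.range p, (z ^ i) x = 0) :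
    z ^ p = 1 := by
  have h1 : ∑ i ∈ Finset.range p, z ^ i = 0 := by
    refine LinearMap.ext fun x => ?_
    rw [LinearMap.sum_apply, hz, LinearMap.zero_apply]
  have h2 := geom_sum_mul z p
  rw [h1, zero_mul] at h2
  exact (sub_eq_zero.1 h2.symm)

private theorem ik_shift {A : Type} [AddCommGroup A] (f : ℕ → A) (n : ℕ) (h : f n = f 0) :
    ∑ i ∈ Finset.range n, f (i + 1) = ∑ i ∈ Finset.range n, f i := by
  have h1 := Finset.sum_range_succ f n
  have h2 := Finset.sum_range_succ' f n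
  rw [h1, h] at h2
  exact (add_right_cancel h2).symm

private theorem ikX_comm {z : Module.End ℤ_[p] N} {e : N →ₗ[ℤ_[p]] N →ₗ[ℤ_[p]] ℤ_[p]}
    (hz : ∀ x, ∑ i ∈ Finset.range p, (z ^ i) x = 0) (hi : ∀ x y, e (z x) (z y) = e x y)
    (x y v : N) : ikX z e x y (z v) = z (ikX z e x y v) := by
  rw [ikX_apply, ikX_apply, map_sum, ← ik_shift (fun i => e (z v) ((z ^ i) y) • (z ^ i) x +
    e (z v) ((z ^ i) x) • (z ^ i) y) p]
  · refine Finset.sum_congr rfl fun i _ => ?_
    rw [pow_succ', Module.End.mul_apply, Module.End.mul_apply, hi, hi, map_add, map_smul,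
      map_smul]
  · simp only [ik_zp hz, pow_zero]

private theorem ikX_skew (z : Module.End ℤ_[p] N) {e : N →ₗ[ℤ_[p]] N →ₗ[ℤ_[p]] ℤ_[p]}
    (hs : ∀ x y, e x y = -e y x) (x y v v' : N) :
    e (ikX z e x y v) v' + e v (ikX z e x y v') = 0 := by
  rw [ikX_apply, ikX_apply, map_sum, map_sum, LinearMap.sum_apply, ← Finset.sum_add_distrib]
  refine Finset.sum_eq_zero fun i _ => ?_
  simp only [map_add, map_smul, LinearMap.add_apply, LinearMap.smul_apply, smul_eq_mul]
  rw [hs ((z ^ i) x) v', hs ((z ^ i) y) v']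
  ring

private theorem ik_comm_comm {z A B : Module.End ℤ_[p] N} (hA : ∀ v, A (z v) = z (A v))
    (hB : ∀ v, B (z v) = z (B v)) (v : N) : (A * B - B * A) (z v) = z ((A * B - B * A) v) := by
  simp only [LinearMap.sub_apply, Module.End.mul_apply, hA, hB, map_sub]

private theorem ik_comm_skew {A B : Module.End ℤ_[p] N} {e : N →ₗ[ℤ_[p]] N →ₗ[ℤ_[p]] ℤ_[p]}
    (hA : ∀ v v', e (A v) v' + e v (A v') = 0) (hB : ∀ v v', e (B v) v' + e v (B v') = 0)
    (v v' : N) : e ((A * B - B * A) v) v' + e v ((A * B - B * A) v') = 0 := by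
  simp only [LinearMap.sub_apply, Module.End.mul_apply, map_sub]
  have h1 := hA (B v) v'
  have h2 := hB v (A v')
  have h3 := hB (A v) v'
  have h4 := hA v (B v')
  linear_combination h1 - h2 - h3 + h4

private theorem ik_comm_trace [Module.Finite ℤ_[p] N] [Module.IsTorsionFree ℤ_[p] N]
    {z A B : Module.End ℤ_[p] N}
    (hB : ∀ v, B (z v) = z (B v)) (i : ℕ) :
    LinearMap.trace ℤ_[p] N (z ^ i * (A * B - B * A)) = 0 := by
  have cB : Commute B (z ^ i) := (show Commute B z from LinearMap.ext hB).pow_right i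
  rw [mul_sub, map_sub, ← mul_assoc, LinearMap.trace_mul_comm, ← mul_assoc, cB.eq, mul_assoc,
    sub_self]

end Op

variable {p : ℕ} [Fact p.Prime] {σ : Type} {M : σ → Type} [∀ s, AddCommGroup (M s)]
  [∀ s, Module ℤ_[p] (M s)] {E : Type} [Field E] [Algebra ℤ_[p] E] {d : σ → ℕ}

/-- The indices of the coordinates. -/
abbrev Qt (p : ℕ) {σ : Type} (d : σ → ℕ) : Type := Σ s : σ, Fin ((p - 1) / 2) × Fin (d s)

/-- The types of the coordinates. -/
def τt (q : Qt p d) : σ × Fin ((p - 1) / 2) := (q.1, q.2.1)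

/-- The coordinates on the sum of the lattices. -/
def Jt (j : ∀ s, M s →ₗ[ℤ_[p]]
    ((Fin ((p - 1) / 2) × Fin (d s)) ⊕ (Fin ((p - 1) / 2) × Fin (d s)) → E)) :
    (∀ s, M s) →ₗ[ℤ_[p]] (Qt p d ⊕ Qt p d → E) where
  toFun x := Sum.elim (fun q => j q.1 (x q.1) (.inl q.2)) fun q => j q.1 (x q.1) (.inr q.2)
  map_add' x y := by
    funext q
    rcases q with q | q <;> simp
  map_smul' c x := by
    funext q
    rcases q with q | q <;> simp

/-- from families of coordinates to coordinates -/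
private def ikK (E : Type) [Field E] (p : ℕ) {σ : Type} (d : σ → ℕ) :
    (∀ s, ((Fin ((p - 1) / 2) × Fin (d s)) ⊕ (Fin ((p - 1) / 2) × Fin (d s)) → E)) →ₗ[E]
      (Qt p d ⊕ Qt p d → E) where
  toFun g := Sum.elim (fun q => g q.1 (.inl q.2)) fun q => g q.1 (.inr q.2)
  map_add' x y := by
    funext q
    rcases q with q | q <;> simp
  map_smul' c x := by
    funext q
    rcases q with q | q <;> simp

private theorem ikK_surj (v : Qt p d ⊕ Qt p d → E) : ∃ g, ikK E p d g = v := by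
  refine ⟨fun s => Sum.elim (fun q => v (.inl ⟨s, q⟩)) fun q => v (.inr ⟨s, q⟩), ?_⟩
  funext q
  rcases q with q | q <;> rfl

private theorem Jt_single (j : ∀ s, M s →ₗ[ℤ_[p]]
    ((Fin ((p - 1) / 2) × Fin (d s)) ⊕ (Fin ((p - 1) / 2) × Fin (d s)) → E)) (s : σ) (x : M s) :
    Jt j (Pi.single s x) = ikK E p d (Pi.single s (j s x)) := by
  have h : (fun t => j t ((Pi.single s x : ∀ t, M t) t)) = Pi.single s (j s x) := by
    funext t
    by_cases ht : t = s
    · subst ht
      rw [Pi.single_eq_same, Pi.single_eq_same]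
    · rw [Pi.single_eq_of_ne ht, Pi.single_eq_of_ne ht, map_zero]
  rw [← h]
  rfl

/-- the vectors of one component -/
private theorem ik_span_s {j : ∀ s, M s →ₗ[ℤ_[p]]
    ((Fin ((p - 1) / 2) × Fin (d s)) ⊕ (Fin ((p - 1) / 2) × Fin (d s)) → E)} {s : σ}
    (hj : Submodule.span E (Set.range (j s)) = ⊤)
    (f : (Fin ((p - 1) / 2) × Fin (d s)) ⊕ (Fin ((p - 1) / 2) × Fin (d s)) → E) :
    ikK E p d (Pi.single s f) ∈ Submodule.span E (Set.range fun x : M s => Jt j (Pi.single s x)) := by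
  let φ : ((Fin ((p - 1) / 2) × Fin (d s)) ⊕ (Fin ((p - 1) / 2) × Fin (d s)) → E) →ₗ[E]
      (Qt p d ⊕ Qt p d → E) := (ikK E p d).comp (LinearMap.single E
        (fun s : σ => ((Fin ((p - 1) / 2) × Fin (d s)) ⊕ (Fin ((p - 1) / 2) × Fin (d s)) → E)) s)
  have h1 : Submodule.span E (Set.range (j s)) ≤
      (Submodule.span E (Set.range fun x : M s => Jt j (Pi.single s x))).comap φ := by
    rw [Submodule.span_le]
    rintro _ ⟨x, rfl⟩
    refine Submodule.subset_span ⟨x, ?_⟩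
    exact Jt_single j s x
  have h2 : f ∈ Submodule.span E (Set.range (j s)) := by rw [hj]; trivial
  exact h1 h2

private theorem ik_span_J [Fintype σ] {j : ∀ s, M s →ₗ[ℤ_[p]]
    ((Fin ((p - 1) / 2) × Fin (d s)) ⊕ (Fin ((p - 1) / 2) × Fin (d s)) → E)}
    (hj : ∀ s, Submodule.span E (Set.range (j s)) = ⊤) :
    Submodule.span E (Set.range (Jt j)) = ⊤ := by
  rw [eq_top_iff]
  intro v _
  obtain ⟨g, rfl⟩ := ikK_surj v
  have h1 : g = ∑ s, Pi.single s (g s) := (Finset.univ_sum_single g).symm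
  rw [h1, map_sum]
  refine Submodule.sum_mem _ fun s _ => ?_
  refine Submodule.span_mono ?_ (ik_span_s (hj s) (g s))
  rintro _ ⟨x, rfl⟩
  exact ⟨_, rfl⟩

/-- The image of the lattice spans the space, the ranks agree. -/
theorem Jt_span [Fintype σ] {z : ∀ s, Module.End ℤ_[p] (M s)}
    {e : ∀ s, M s →ₗ[ℤ_[p]] M s →ₗ[ℤ_[p]] ℤ_[p]} {ζ : E}
    [∀ s, Module.Finite ℤ_[p] (M s)] [∀ s, Module.IsTorsionFree ℤ_[p] (M s)] (hp : p ≠ 2)
    {j : ∀ s, M s →ₗ[ℤ_[p]]
      ((Fin ((p - 1) / 2) × Fin (d s)) ⊕ (Fin ((p - 1) / 2) × Fin (d s)) → E)}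
    (he : ∀ s, Eig (z s) (e s) ζ (d s) (j s)) :
    Submodule.span E (Set.range (Jt j)) = ⊤ ∧
      Module.finrank ℤ_[p] (∀ s, M s) = Module.finrank E (Qt p d ⊕ Qt p d → E) := by
  refine ⟨ik_span_J fun s => (he s).span, ?_⟩
  rw [Module.finrank_pi_fintype, Module.finrank_fintype_fun_eq_card, Fintype.card_sum,
    Fintype.card_sigma, ← Finset.sum_add_distrib]
  refine Finset.sum_congr rfl fun s _ => ?_
  rw [← (he s).rank, Fintype.card_prod, Fintype.card_fin, Fintype.card_fin]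
  obtain ⟨m, hm⟩ := (Fact.out : p.Prime).odd_of_ne_two hp
  have h1 : p - 1 = 2 * m := by omega
  have h2 : (p - 1) / 2 = m := by omega
  rw [h2, h1]
  ring

/-- the eigenvalues -/
private def ikχ (ζ : E) : Qt p d ⊕ Qt p d → E :=
  Sum.elim (fun q => ζ ^ ((q.2.1 : ℕ) + 1)) fun q => ζ ^ (p - ((q.2.1 : ℕ) + 1))

/-- the diagonal operator -/
private def ikZ (d : σ → ℕ) (p : ℕ) (ζ : E) : Module.End E (Qt p d ⊕ Qt p d → E) where
  toFun v q := ikχ ζ q * v q
  map_add' v w := by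
    funext q
    simp only [Pi.add_apply, mul_add]
  map_smul' c v := by
    funext q
    simp only [Pi.smul_apply, smul_eq_mul, RingHom.id_apply]
    ring

private theorem ikZ_pow (ζ : E) (i : ℕ) (v : Qt p d ⊕ Qt p d → E) (q : Qt p d ⊕ Qt p d) :
    ((ikZ d p ζ) ^ i) v q = ikχ ζ q ^ i * v q := by
  induction i with
  | zero => simp
  | succ i ih =>
    rw [pow_succ', Module.End.mul_apply]
    change ikχ ζ q * ((ikZ d p ζ) ^ i) v q = _
    rw [ih, pow_succ']
    ring

/-- the form -/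
private def ikE [Fintype σ] (E : Type) [Field E] (p : ℕ) (d : σ → ℕ) :
    (Qt p d ⊕ Qt p d → E) →ₗ[E] (Qt p d ⊕ Qt p d → E) →ₗ[E] E :=
  LinearMap.mk₂ E (fun v w => ∑ q, (v (.inl q) * w (.inr q) - v (.inr q) * w (.inl q)))
    (fun v v' w => by
      rw [← Finset.sum_add_distrib]
      refine Finset.sum_congr rfl fun q _ => ?_
      simp only [Pi.add_apply]
      ring)
    (fun c v w => by
      rw [smul_eq_mul, Finset.mul_sum]
      refine Finset.sum_congr rfl fun q _ => ?_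
      simp only [Pi.smul_apply, smul_eq_mul]
      ring)
    (fun v w w' => by
      rw [← Finset.sum_add_distrib]
      refine Finset.sum_congr rfl fun q _ => ?_
      simp only [Pi.add_apply]
      ring)
    (fun c v w => by
      rw [smul_eq_mul, Finset.mul_sum]
      refine Finset.sum_congr rfl fun q _ => ?_
      simp only [Pi.smul_apply, smul_eq_mul]
      ring)

private theorem ikE_apply [Fintype σ] (v w : Qt p d ⊕ Qt p d → E) :
    ikE E p d v w = ∑ q, (v (.inl q) * w (.inr q) - v (.inr q) * w (.inl q)) := rfl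

private theorem ikE_inr [Fintype σ] (v : Qt p d ⊕ Qt p d → E) (m : Qt p d) :
    ikE E p d v (Pi.single (.inr m) 1) = v (.inl m) := by
  rw [ikE_apply, Finset.sum_eq_single m]
  · simp
  · intro q _ hq
    simp [hq]
  · intro h
    exact absurd (Finset.mem_univ _) h

private theorem ikE_inl [Fintype σ] (v : Qt p d ⊕ Qt p d → E) (m : Qt p d) :
    ikE E p d v (Pi.single (.inl m) 1) = -v (.inr m) := by
  rw [ikE_apply, Finset.sum_eq_single m]
  · simp
  · intro q _ hq
    simp [hq]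
  · intro h
    exact absurd (Finset.mem_univ _) h

/-- the operator of two vectors -/
private def ikB [Fintype σ] (E : Type) [Field E] (p : ℕ) (d : σ → ℕ) :
    (Qt p d ⊕ Qt p d → E) →ₗ[E] (Qt p d ⊕ Qt p d → E) →ₗ[E]
      Module.End E (Qt p d ⊕ Qt p d → E) :=
  LinearMap.mk₂ E (fun u w => ((ikE E p d).flip w).smulRight u)
    (fun u u' w => by
      refine LinearMap.ext fun v => ?_
      simp)
    (fun c u w => by
      refine LinearMap.ext fun v => ?_
      simp only [LinearMap.smulRight_apply, LinearMap.smul_apply]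
      rw [smul_comm])
    (fun u w w' => by
      refine LinearMap.ext fun v => ?_
      simp only [LinearMap.smulRight_apply, LinearMap.add_apply, map_add, add_smul])
    (fun c u w => by
      refine LinearMap.ext fun v => ?_
      simp only [LinearMap.smulRight_apply, LinearMap.smul_apply, map_smul, smul_assoc])

private def ikXE [Fintype σ] (d : σ → ℕ) (p : ℕ) (ζ : E) :
    (Qt p d ⊕ Qt p d → E) →ₗ[E] (Qt p d ⊕ Qt p d → E) →ₗ[E]
      Module.End E (Qt p d ⊕ Qt p d → E) :=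
  ∑ i ∈ Finset.range p, ((ikB E p d).compl₁₂ ((ikZ d p ζ) ^ i) ((ikZ d p ζ) ^ i) +
    ((ikB E p d).compl₁₂ ((ikZ d p ζ) ^ i) ((ikZ d p ζ) ^ i)).flip)

private theorem ikXE_apply [Fintype σ] (ζ : E) (u w v : Qt p d ⊕ Qt p d → E) :
    ikXE d p ζ u w v = ∑ i ∈ Finset.range p,
      (ikE E p d v (((ikZ d p ζ) ^ i) w) • ((ikZ d p ζ) ^ i) u +
        ikE E p d v (((ikZ d p ζ) ^ i) u) • ((ikZ d p ζ) ^ i) w) := by
  unfold ikXE
  rw [LinearMap.sum_apply, LinearMap.sum_apply, LinearMap.sum_apply]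
  rfl

private theorem ikZ_J {z : ∀ s, Module.End ℤ_[p] (M s)}
    {e : ∀ s, M s →ₗ[ℤ_[p]] M s →ₗ[ℤ_[p]] ℤ_[p]} {ζ : E}
    {j : ∀ s, M s →ₗ[ℤ_[p]]
      ((Fin ((p - 1) / 2) × Fin (d s)) ⊕ (Fin ((p - 1) / 2) × Fin (d s)) → E)}
    (he : ∀ s, Eig (z s) (e s) ζ (d s) (j s)) (i : ℕ) (s : σ) (x : M s) :
    ((ikZ d p ζ) ^ i) (Jt j (Pi.single s x)) = Jt j (Pi.single s ((z s ^ i) x)) := by
  have h1 : ∀ x : M s, ikZ d p ζ (Jt j (Pi.single s x)) = Jt j (Pi.single s (z s x)) := by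
    intro x
    funext q
    change ikχ ζ q * Jt j (Pi.single s x) q = Jt j (Pi.single s (z s x)) q
    rcases q with ⟨t, a, k⟩ | ⟨t, a, k⟩
    · change ζ ^ ((a : ℕ) + 1) * j t ((Pi.single s x : ∀ t, M t) t) (.inl (a, k)) =
        j t ((Pi.single s (z s x) : ∀ t, M t) t) (.inl (a, k))
      by_cases ht : t = s
      · subst ht
        rw [Pi.single_eq_same, Pi.single_eq_same, (he t).left]
      · rw [Pi.single_eq_of_ne ht, Pi.single_eq_of_ne ht, map_zero, Pi.zero_apply, mul_zero]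
    · change ζ ^ (p - ((a : ℕ) + 1)) * j t ((Pi.single s x : ∀ t, M t) t) (.inr (a, k)) =
        j t ((Pi.single s (z s x) : ∀ t, M t) t) (.inr (a, k))
      by_cases ht : t = s
      · subst ht
        rw [Pi.single_eq_same, Pi.single_eq_same, (he t).right]
      · rw [Pi.single_eq_of_ne ht, Pi.single_eq_of_ne ht, map_zero, Pi.zero_apply, mul_zero]
  induction i generalizing x with
  | zero => rfl
  | succ i ih => rw [pow_succ, Module.End.mul_apply, h1, ih, pow_succ, Module.End.mul_apply]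

private theorem ikE_J [Fintype σ] {z : ∀ s, Module.End ℤ_[p] (M s)}
    {e : ∀ s, M s →ₗ[ℤ_[p]] M s →ₗ[ℤ_[p]] ℤ_[p]} {ζ : E}
    {j : ∀ s, M s →ₗ[ℤ_[p]]
      ((Fin ((p - 1) / 2) × Fin (d s)) ⊕ (Fin ((p - 1) / 2) × Fin (d s)) → E)}
    (he : ∀ s, Eig (z s) (e s) ζ (d s) (j s)) (s : σ) (w : ∀ s, M s) (y : M s) :
    ikE E p d (Jt j w) (Jt j (Pi.single s y)) = algebraMap ℤ_[p] E (e s (w s) y) := by
  rw [ikE_apply, Fintype.sum_sigma, Finset.sum_eq_single s]
  · rw [(he s).form]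
    refine Finset.sum_congr rfl fun q _ => ?_
    change j s (w s) (.inl q) * j s ((Pi.single s y : ∀ t, M t) s) (.inr q) -
      j s (w s) (.inr q) * j s ((Pi.single s y : ∀ t, M t) s) (.inl q) = _
    rw [Pi.single_eq_same]
  · intro t _ ht
    refine Finset.sum_eq_zero fun q _ => ?_
    change j t (w t) (.inl q) * j t ((Pi.single s y : ∀ t, M t) t) (.inr q) -
      j t (w t) (.inr q) * j t ((Pi.single s y : ∀ t, M t) t) (.inl q) = _
    rw [Pi.single_eq_of_ne ht, map_zero, Pi.zero_apply, Pi.zero_apply, mul_zero, mul_zero,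
      sub_zero]
  · intro h
    exact absurd (Finset.mem_univ _) h

private theorem ikX_J [Fintype σ] {z : ∀ s, Module.End ℤ_[p] (M s)}
    {e : ∀ s, M s →ₗ[ℤ_[p]] M s →ₗ[ℤ_[p]] ℤ_[p]} {ζ : E}
    {j : ∀ s, M s →ₗ[ℤ_[p]]
      ((Fin ((p - 1) / 2) × Fin (d s)) ⊕ (Fin ((p - 1) / 2) × Fin (d s)) → E)}
    (he : ∀ s, Eig (z s) (e s) ζ (d s) (j s)) (s : σ) (x y : M s) (w : ∀ s, M s) :
    ikXE d p ζ (Jt j (Pi.single s x)) (Jt j (Pi.single s y)) (Jt j w) =
      Jt j (Pi.single s (ikX (z s) (e s) x y (w s))) := by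
  have h1 : ∀ y : M s, Jt j (Pi.single s y) = ((Jt j).comp (LinearMap.single ℤ_[p] M s)) y :=
    fun _ => rfl
  rw [ikXE_apply, ikX_apply, h1 (∑ i ∈ Finset.range p, _), map_sum]
  refine Finset.sum_congr rfl fun i _ => ?_
  rw [map_add, map_smul, map_smul, ← h1, ← h1, ikZ_J he, ikZ_J he, ikE_J he, ikE_J he,
    algebraMap_smul, algebraMap_smul]

/-- the operators which kill the form -/
private def ikL {n r : ℕ}
    (F' : MultilinearMap E (fun _ : Fin r => Fin n → (Qt p d ⊕ Qt p d → E)) E) :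
    Submodule E (Module.End E (Qt p d ⊕ Qt p d → E)) where
  carrier := {Z | ∀ v, ∑ i, F' (Function.update v i fun c => Z (v i c)) = 0}
  add_mem' := by
    intro Z Z' h h' v
    have e1 : ∀ i, F' (Function.update v i fun c => (Z + Z') (v i c)) =
        F' (Function.update v i fun c => Z (v i c)) +
          F' (Function.update v i fun c => Z' (v i c)) := by
      intro i
      rw [← F'.map_update_add]
      rfl
    rw [Finset.sum_congr rfl fun i _ => e1 i, Finset.sum_add_distrib, h v, h' v, add_zero]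
  zero_mem' := by
    intro v
    refine Finset.sum_eq_zero fun i _ => ?_
    exact F'.map_update_zero v i
  smul_mem' := by
    intro a Z h v
    have e1 : ∀ i, F' (Function.update v i fun c => (a • Z) (v i c)) =
        a • F' (Function.update v i fun c => Z (v i c)) := by
      intro i
      rw [← F'.map_update_smul]
      rfl
    rw [Finset.sum_congr rfl fun i _ => e1 i, ← Finset.smul_sum, h v, smul_zero]

private theorem ik_span_n {n : ℕ} {S : Set (Qt p d ⊕ Qt p d → E)} (h0 : (0 : _) ∈ S)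
    (hS : Submodule.span E S = ⊤) :
    Submodule.span E {w : Fin n → (Qt p d ⊕ Qt p d → E) | ∀ c, w c ∈ S} = ⊤ := by
  rw [eq_top_iff]
  intro w _
  have h1 : w = ∑ c, Pi.single c (w c) := (Finset.univ_sum_single w).symm
  rw [h1]
  refine Submodule.sum_mem _ fun c _ => ?_
  have h2 : Submodule.span E S ≤ (Submodule.span E {w : Fin n → (Qt p d ⊕ Qt p d → E) |
      ∀ c, w c ∈ S}).comap (LinearMap.single E (fun _ : Fin n => (Qt p d ⊕ Qt p d → E)) c) := by
    rw [Submodule.span_le]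
    intro x hx
    refine Submodule.subset_span fun c' => ?_
    change (Pi.single c x : Fin n → (Qt p d ⊕ Qt p d → E)) c' ∈ S
    by_cases hc : c' = c
    · subst hc
      rw [Pi.single_eq_same]
      exact hx
    · rw [Pi.single_eq_of_ne hc]
      exact h0
  have h3 : w c ∈ Submodule.span E S := by rw [hS]; trivial
  exact h2 h3

private theorem ikL_of_span {n r : ℕ}
    (F' : MultilinearMap E (fun _ : Fin r => Fin n → (Qt p d ⊕ Qt p d → E)) E)
    {S : Set (Qt p d ⊕ Qt p d → E)} (h0 : (0 : _) ∈ S) (hS : Submodule.span E S = ⊤)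
    {Z : Module.End E (Qt p d ⊕ Qt p d → E)}
    (h : ∀ v : Fin r → Fin n → (Qt p d ⊕ Qt p d → E), (∀ i c, v i c ∈ S) →
      ∑ i, F' (Function.update v i fun c => Z (v i c)) = 0) : Z ∈ ikL F' := by
  let Zn : (Fin n → (Qt p d ⊕ Qt p d → E)) →ₗ[E] (Fin n → (Qt p d ⊕ Qt p d → E)) :=
    LinearMap.pi fun c => Z.comp (LinearMap.proj c)
  let D : MultilinearMap E (fun _ : Fin r => Fin n → (Qt p d ⊕ Qt p d → E)) E :=
    ∑ i, F'.compLinearMap fun k => if k = i then Zn else LinearMap.id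
  have hD : ∀ v, D v = ∑ i, F' (Function.update v i fun c => Z (v i c)) := by
    intro v
    simp only [D, sum_apply, MultilinearMap.compLinearMap_apply]
    refine Finset.sum_congr rfl fun i _ => ?_
    congr 1
    funext k
    by_cases hk : k = i
    · subst hk
      rw [if_pos rfl, Function.update_self]
      rfl
    · rw [if_neg hk, Function.update_of_ne hk]
      rfl
  have h1 : D = 0 := by
    refine ext_span (ik_span_n h0 hS) fun v hv => ?_
    rw [hD, h v hv]
    rfl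
  intro v
  rw [← hD, h1]
  rfl

private theorem ik_comm_L [Fintype σ] {z : ∀ s, Module.End ℤ_[p] (M s)}
    {e : ∀ s, M s →ₗ[ℤ_[p]] M s →ₗ[ℤ_[p]] ℤ_[p]} {ζ : E}
    [∀ s, Module.Finite ℤ_[p] (M s)] [∀ s, Module.IsTorsionFree ℤ_[p] (M s)]
    (hz : ∀ s x, ∑ i ∈ Finset.range p, (z s ^ i) x = 0)
    (hi : ∀ s x y, e s (z s x) (z s y) = e s x y) (hs : ∀ s x y, e s x y = -e s y x)
    {j : ∀ s, M s →ₗ[ℤ_[p]]
      ((Fin ((p - 1) / 2) × Fin (d s)) ⊕ (Fin ((p - 1) / 2) × Fin (d s)) → E)}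
    (he : ∀ s, Eig (z s) (e s) ζ (d s) (j s)) {n r : ℕ}
    (F : MultilinearMap ℤ_[p] (fun _ : Fin r => Fin n → ∀ s, M s) E)
    (hF : ∀ X : ∀ s, Module.End ℤ_[p] (M s), (∀ s x, X s (z s x) = z s (X s x)) →
      (∀ s x y, e s (X s x) y + e s x (X s y) = 0) →
      (∀ s i, LinearMap.trace ℤ_[p] (M s) (z s ^ i * X s) = 0) →
      ∀ v : Fin r → Fin n → ∀ s, M s,
        ∑ l, F (Function.update v l fun a s => X s (v l a s)) = 0)
    (F' : MultilinearMap E (fun _ : Fin r => Fin n → (Qt p d ⊕ Qt p d → E)) E)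
    (hF' : ∀ v, F' (fun i c => Jt j (v i c)) = F v) (s : σ) (x y x' y' : M s) :
    ikXE d p ζ (Jt j (Pi.single s x)) (Jt j (Pi.single s y)) *
      ikXE d p ζ (Jt j (Pi.single s x')) (Jt j (Pi.single s y')) -
    ikXE d p ζ (Jt j (Pi.single s x')) (Jt j (Pi.single s y')) *
      ikXE d p ζ (Jt j (Pi.single s x)) (Jt j (Pi.single s y)) ∈ ikL F' := by
  set A := ikX (z s) (e s) x y with hA
  set B := ikX (z s) (e s) x' y' with hB
  have hAc : ∀ v, A (z s v) = z s (A v) := ikX_comm (hz s) (hi s) x y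
  have hBc : ∀ v, B (z s v) = z s (B v) := ikX_comm (hz s) (hi s) x' y'
  have hAs : ∀ v v', e s (A v) v' + e s v (A v') = 0 := ikX_skew (z s) (hs s) x y
  have hBs : ∀ v v', e s (B v) v' + e s v (B v') = 0 := ikX_skew (z s) (hs s) x' y'
  let X : ∀ t, Module.End ℤ_[p] (M t) := Pi.single s (A * B - B * A)
  have hXs : X s = A * B - B * A := Pi.single_eq_same _ _
  have hXt : ∀ t, t ≠ s → X t = 0 := fun t ht => Pi.single_eq_of_ne ht _
  have hX : ∀ w : ∀ t, M t, (fun t => X t (w t)) = Pi.single s ((A * B - B * A) (w s)) := by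
    intro w
    funext t
    by_cases ht : t = s
    · subst ht
      rw [Pi.single_eq_same, hXs]
    · rw [Pi.single_eq_of_ne ht, hXt t ht, LinearMap.zero_apply]
  have h1 := hF X (by
    intro t w
    by_cases ht : t = s
    · subst ht
      rw [hXs]
      exact ik_comm_comm hAc hBc w
    · rw [hXt t ht, LinearMap.zero_apply, LinearMap.zero_apply, map_zero]) (by
    intro t v w
    by_cases ht : t = s
    · subst ht
      rw [hXs]
      exact ik_comm_skew hAs hBs v w
    · rw [hXt t ht, LinearMap.zero_apply, LinearMap.zero_apply, map_zero, map_zero,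
        LinearMap.zero_apply, add_zero]) (by
    intro t i
    by_cases ht : t = s
    · subst ht
      rw [hXs]
      exact ik_comm_trace hBc i
    · rw [hXt t ht, mul_zero, map_zero])
  refine ikL_of_span F' (S := Set.range (Jt j)) ⟨0, map_zero _⟩ (ik_span_J fun s => (he s).span)
    fun v hv => ?_
  choose v' hv' using hv
  rw [← h1 v']
  refine Finset.sum_congr rfl fun i _ => ?_
  rw [← hF']
  congr 1
  funext k
  by_cases hk : k = i
  · subst hk
    rw [Function.update_self, Function.update_self]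
    funext c
    rw [hX, ← hv' k c, LinearMap.sub_apply, Module.End.mul_apply, Module.End.mul_apply, ikX_J he,
      ikX_J he, ikX_J he, ikX_J he, ← map_sub, Pi.single_eq_same, Pi.single_eq_same,
      ← Pi.single_sub]
    rfl
  · rw [Function.update_of_ne hk, Function.update_of_ne hk]
    funext c
    exact (hv' k c).symm

/-- the basis vectors -/
private theorem ik_single_inl (k : Qt p d) : (Pi.single (.inl k) 1 : Qt p d ⊕ Qt p d → E) =
    ikK E p d (Pi.single k.1 (Pi.single (.inl k.2) 1)) := by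
  obtain ⟨s, k⟩ := k
  funext q
  rcases q with ⟨t, q⟩ | ⟨t, q⟩
  · change _ = (Pi.single s (Pi.single (.inl k) 1) :
      ∀ s, ((Fin ((p - 1) / 2) × Fin (d s)) ⊕ (Fin ((p - 1) / 2) × Fin (d s)) → E)) t (.inl q)
    by_cases ht : t = s
    · subst ht
      rw [Pi.single_eq_same]
      by_cases hq : q = k
      · subst hq
        simp
      · rw [Pi.single_eq_of_ne (by simpa using hq), Pi.single_eq_of_ne (by simpa using hq)]
    · rw [Pi.single_eq_of_ne ht, Pi.single_eq_of_ne, Pi.zero_apply]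
      simp only [ne_eq, Sum.inl.injEq, Sigma.mk.injEq, not_and]
      exact fun h => absurd h ht
  · change _ = (Pi.single s (Pi.single (.inl k) 1) :
      ∀ s, ((Fin ((p - 1) / 2) × Fin (d s)) ⊕ (Fin ((p - 1) / 2) × Fin (d s)) → E)) t (.inr q)
    rw [Pi.single_eq_of_ne (by simp)]
    by_cases ht : t = s
    · subst ht
      rw [Pi.single_eq_same, Pi.single_eq_of_ne (by simp)]
    · rw [Pi.single_eq_of_ne ht, Pi.zero_apply]

private theorem ik_single_inr (k : Qt p d) : (Pi.single (.inr k) 1 : Qt p d ⊕ Qt p d → E) =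
    ikK E p d (Pi.single k.1 (Pi.single (.inr k.2) 1)) := by
  obtain ⟨s, k⟩ := k
  funext q
  rcases q with ⟨t, q⟩ | ⟨t, q⟩
  · change _ = (Pi.single s (Pi.single (.inr k) 1) :
      ∀ s, ((Fin ((p - 1) / 2) × Fin (d s)) ⊕ (Fin ((p - 1) / 2) × Fin (d s)) → E)) t (.inl q)
    rw [Pi.single_eq_of_ne (by simp)]
    by_cases ht : t = s
    · subst ht
      rw [Pi.single_eq_same, Pi.single_eq_of_ne (by simp)]
    · rw [Pi.single_eq_of_ne ht, Pi.zero_apply]
  · change _ = (Pi.single s (Pi.single (.inr k) 1) :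
      ∀ s, ((Fin ((p - 1) / 2) × Fin (d s)) ⊕ (Fin ((p - 1) / 2) × Fin (d s)) → E)) t (.inr q)
    by_cases ht : t = s
    · subst ht
      rw [Pi.single_eq_same]
      by_cases hq : q = k
      · subst hq
        simp
      · rw [Pi.single_eq_of_ne (by simpa using hq), Pi.single_eq_of_ne (by simpa using hq)]
    · rw [Pi.single_eq_of_ne ht, Pi.single_eq_of_ne, Pi.zero_apply]
      simp only [ne_eq, Sum.inr.injEq, Sigma.mk.injEq, not_and]
      exact fun h => absurd h ht

private theorem ikZ_single (ζ : E) (i : ℕ) (q : Qt p d ⊕ Qt p d) :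
    ((ikZ d p ζ) ^ i) (Pi.single q 1) = (ikχ ζ q ^ i) • Pi.single q 1 := by
  funext q'
  rw [ikZ_pow, Pi.smul_apply, smul_eq_mul]
  by_cases h : q' = q
  · subst h
    rfl
  · rw [Pi.single_eq_of_ne h, mul_zero, mul_zero]

private theorem ik_Xop_apply [Fintype σ] (k l : Qt p d) (v : Qt p d ⊕ Qt p d → E) :
    Xop (Pi.basisFun E (Qt p d ⊕ Qt p d)) k l v =
      v (.inl l) • Pi.single (.inl k) 1 - v (.inr k) • Pi.single (.inr l) 1 := by
  simp [Xop]

private theorem ikX_single [Fintype σ] {ζ : E} (hζ : IsPrimitiveRoot ζ p) {k m : Qt p d}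
    (hkm : τt k = τt m) :
    ikXE d p ζ (Pi.single (.inl k) 1) (Pi.single (.inr m) 1) =
      (p : E) • Xop (Pi.basisFun E (Qt p d ⊕ Qt p d)) k m := by
  have hχ : ∀ i, ikχ ζ (.inr m : Qt p d ⊕ Qt p d) ^ i * ikχ ζ (.inl k : Qt p d ⊕ Qt p d) ^ i =
      1 := by
    intro i
    have h1 : k.2.1 = m.2.1 := congrArg Prod.snd hkm
    have h2 : (k.2.1 : ℕ) + 1 ≤ p := by
      have := k.2.1.2
      omega
    change (ζ ^ (p - ((m.2.1 : ℕ) + 1))) ^ i * (ζ ^ ((k.2.1 : ℕ) + 1)) ^ i = 1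
    rw [← mul_pow, ← pow_add, ← h1, Nat.sub_add_cancel h2, hζ.pow_eq_one, one_pow]
  refine LinearMap.ext fun v => ?_
  rw [ikXE_apply, LinearMap.smul_apply, ik_Xop_apply]
  have h1 : ∀ i ∈ Finset.range p, (ikE E p d v (((ikZ d p ζ) ^ i) (Pi.single (.inr m) 1)) •
      ((ikZ d p ζ) ^ i) (Pi.single (.inl k) 1) +
        ikE E p d v (((ikZ d p ζ) ^ i) (Pi.single (.inl k) 1)) •
          ((ikZ d p ζ) ^ i) (Pi.single (.inr m) 1)) =
      v (.inl m) • (Pi.single (.inl k) 1 : Qt p d ⊕ Qt p d → E) -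
        v (.inr k) • (Pi.single (.inr m) 1 : Qt p d ⊕ Qt p d → E) := by
    intro i _
    rw [ikZ_single, ikZ_single, map_smul, map_smul, ikE_inr, ikE_inl, smul_eq_mul, smul_eq_mul,
      smul_smul, smul_smul]
    have e1 : ikχ ζ (.inr m : Qt p d ⊕ Qt p d) ^ i * v (.inl m) *
        ikχ ζ (.inl k : Qt p d ⊕ Qt p d) ^ i = v (.inl m) := by
      linear_combination v (.inl m) * hχ i
    have e2 : ikχ ζ (.inl k : Qt p d ⊕ Qt p d) ^ i * -v (.inr k) *
        ikχ ζ (.inr m : Qt p d ⊕ Qt p d) ^ i = -v (.inr k) := by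
      linear_combination -v (.inr k) * hχ i
    rw [e1, e2, neg_smul, sub_eq_add_neg]
  rw [Finset.sum_congr rfl h1, Finset.sum_const, Finset.card_range, ← Nat.cast_smul_eq_nsmul E]

private theorem ik_Xop_comm [Fintype σ] (k l : Qt p d) (hkl : k ≠ l) :
    Xop (Pi.basisFun E (Qt p d ⊕ Qt p d)) k k * Xop (Pi.basisFun E (Qt p d ⊕ Qt p d)) k l -
      Xop (Pi.basisFun E (Qt p d ⊕ Qt p d)) k l * Xop (Pi.basisFun E (Qt p d ⊕ Qt p d)) k k =
      Xop (Pi.basisFun E (Qt p d ⊕ Qt p d)) k l := by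
  refine LinearMap.ext fun v => ?_
  rw [LinearMap.sub_apply, Module.End.mul_apply, Module.End.mul_apply]
  simp only [ik_Xop_apply]
  simp [hkl, hkl.symm]

private theorem ik_Xop_comm' [Fintype σ] (k l : Qt p d) :
    Xop (Pi.basisFun E (Qt p d ⊕ Qt p d)) k l * Xop (Pi.basisFun E (Qt p d ⊕ Qt p d)) l k -
      Xop (Pi.basisFun E (Qt p d ⊕ Qt p d)) l k * Xop (Pi.basisFun E (Qt p d ⊕ Qt p d)) k l =
      Xop (Pi.basisFun E (Qt p d ⊕ Qt p d)) k k - Xop (Pi.basisFun E (Qt p d ⊕ Qt p d)) l l := by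
  refine LinearMap.ext fun v => ?_
  rw [LinearMap.sub_apply, Module.End.mul_apply, Module.End.mul_apply, LinearMap.sub_apply]
  simp only [ik_Xop_apply]
  simp only [Pi.sub_apply, Pi.smul_apply, Pi.single_eq_same, smul_eq_mul, mul_one, ne_eq,
    reduceCtorEq, not_false_eq_true, Pi.single_eq_of_ne, mul_zero, sub_zero, zero_sub, neg_smul]
  abel

set_option linter.unusedVariables false in
/-- The extension of a form which is killed by the special unitary Lie algebras is killed by the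
operators `Xop`. -/
theorem kill [Fintype σ] [CharZero E] {z : ∀ s, Module.End ℤ_[p] (M s)}
    {e : ∀ s, M s →ₗ[ℤ_[p]] M s →ₗ[ℤ_[p]] ℤ_[p]} {ζ : E} (hζ : IsPrimitiveRoot ζ p)
    [∀ s, Module.Finite ℤ_[p] (M s)] [∀ s, Module.IsTorsionFree ℤ_[p] (M s)] (hp : p ≠ 2)
    (hz : ∀ s x, ∑ i ∈ Finset.range p, (z s ^ i) x = 0)
    (hi : ∀ s x y, e s (z s x) (z s y) = e s x y) (hs : ∀ s x y, e s x y = -e s y x)
    {j : ∀ s, M s →ₗ[ℤ_[p]]
      ((Fin ((p - 1) / 2) × Fin (d s)) ⊕ (Fin ((p - 1) / 2) × Fin (d s)) → E)}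
    (he : ∀ s, Eig (z s) (e s) ζ (d s) (j s)) {n r : ℕ}
    (F : MultilinearMap ℤ_[p] (fun _ : Fin r => Fin n → ∀ s, M s) E)
    (hF : ∀ X : ∀ s, Module.End ℤ_[p] (M s), (∀ s x, X s (z s x) = z s (X s x)) →
      (∀ s x y, e s (X s x) y + e s x (X s y) = 0) →
      (∀ s i, LinearMap.trace ℤ_[p] (M s) (z s ^ i * X s) = 0) →
      ∀ v : Fin r → Fin n → ∀ s, M s,
        ∑ l, F (Function.update v l fun a s => X s (v l a s)) = 0)
    (F' : MultilinearMap E (fun _ : Fin r => Fin n → (Qt p d ⊕ Qt p d → E)) E)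
    (hF' : ∀ v, F' (fun i c => Jt j (v i c)) = F v) :
    (∀ k l : Qt p d, k ≠ l → τt k = τt l → ∀ v,
      ∑ i, F' (Function.update v i fun c => Xop (Pi.basisFun E (Qt p d ⊕ Qt p d)) k l (v i c)) =
        0) ∧
    ∀ k l : Qt p d, τt k = τt l → ∀ v,
      ∑ i, F' (Function.update v i fun c => Xop (Pi.basisFun E (Qt p d ⊕ Qt p d)) k k (v i c)) =
        ∑ i, F' (Function.update v i fun c =>
          Xop (Pi.basisFun E (Qt p d ⊕ Qt p d)) l l (v i c)) := by
  have hp0 : (p : E) ≠ 0 := Nat.cast_ne_zero.2 (Fact.out : p.Prime).ne_zero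
  -- the span of the operators of the lattice
  let G : σ → Submodule E (Module.End E (Qt p d ⊕ Qt p d → E)) := fun s => Submodule.span E
    {Z | ∃ x y : M s, Z = ikXE d p ζ (Jt j (Pi.single s x)) (Jt j (Pi.single s y))}
  have hG : ∀ s, ∀ A ∈ G s, ∀ B ∈ G s, A * B - B * A ∈ ikL F' := by
    intro s A hA B hB
    refine LinearMap.BilinMap.apply_apply_mem_of_mem_span (ikL F') _ _
      (LinearMap.mk₂ E (fun A B : Module.End E (Qt p d ⊕ Qt p d → E) => A * B - B * A)
        (fun A A' B => by simp only [add_mul, mul_add]; abel)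
        (fun c A B => by simp only [smul_mul_assoc, mul_smul_comm, smul_sub])
        (fun A B B' => by simp only [add_mul, mul_add]; abel)
        (fun c A B => by simp only [smul_mul_assoc, mul_smul_comm, smul_sub])) ?_ A B hA hB
    rintro _ ⟨x, y, rfl⟩ _ ⟨x', y', rfl⟩
    exact ik_comm_L hz hi hs he F hF F' hF' s x y x' y'
  have hX : ∀ k m : Qt p d, τt k = τt m →
      Xop (Pi.basisFun E (Qt p d ⊕ Qt p d)) k m ∈ G k.1 := by
    intro k m hkm
    have h1 : ikXE d p ζ (Pi.single (.inl k) 1) (Pi.single (.inr m) 1) ∈ G k.1 := by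
      refine LinearMap.BilinMap.apply_apply_mem_of_mem_span (G k.1)
        (Set.range fun x : M k.1 => Jt j (Pi.single k.1 x))
        (Set.range fun x : M k.1 => Jt j (Pi.single k.1 x)) (ikXE d p ζ) ?_ _ _ ?_ ?_
      · rintro _ ⟨x, rfl⟩ _ ⟨y, rfl⟩
        exact Submodule.subset_span ⟨x, y, rfl⟩
      · rw [ik_single_inl]
        exact ik_span_s (he k.1).span _
      · have h2 : m.1 = k.1 := (congrArg Prod.fst hkm).symm
        rw [ik_single_inr, ← h2]
        exact ik_span_s (he m.1).span _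
    rw [ikX_single hζ hkm] at h1
    have h2 := (G k.1).smul_mem (p : E)⁻¹ h1
    rwa [smul_smul, inv_mul_cancel₀ hp0, one_smul] at h2
  refine ⟨fun k l hkl hτ v => ?_, fun k l hτ v => ?_⟩
  · have h1 := hG k.1 _ (hX k k rfl) _ (hX k l hτ)
    rw [ik_Xop_comm k l hkl] at h1
    exact h1 v
  · have h0 : l.1 = k.1 := (congrArg Prod.fst hτ).symm
    have h2 := hX l k hτ.symm
    rw [h0] at h2
    have h1 := hG k.1 _ (hX k l hτ) _ h2
    rw [ik_Xop_comm'] at h1
    have h3 := h1 v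
    rw [← sub_eq_zero, ← Finset.sum_sub_distrib, ← h3]
    refine Finset.sum_congr rfl fun i _ => ?_
    rw [← F'.map_update_sub]
    rfl

end Pool.Agent.PTate
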