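import Pool.Agent.PTate.InvKill

/-!
# Products in coordinates and products of pairings and determinants
-/

set_option autoImplicit false

noncomputable section

namespace Pool.Agent.PTate

open scoped Classical

private theorem InvProd_geom {p : ℕ} [Fact p.Prime] {E : Type} [Field E] {ζ : E}
    (hζ : IsPrimitiveRoot ζ p) {c : ℕ} (hc : ¬ p ∣ c) :
    ∑ i ∈ Finset.range p, ζ ^ (c * i) = 0 := by
  have hp : p.Prime := Fact.out
  have h1 : IsPrimitiveRoot (ζ ^ c) p :=
    hζ.pow_of_coprime c ((Nat.Prime.coprime_iff_not_dvd hp).2 hc).symm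
  have h2 := h1.geom_sum_eq_zero hp.one_lt
  simpa only [pow_mul] using h2

private theorem InvProd_geomp {p : ℕ} {E : Type} [Field E] {ζ : E}
    (hζ : IsPrimitiveRoot ζ p) {c : ℕ} (hc : p ∣ c) :
    ∑ i ∈ Finset.range p, ζ ^ (c * i) = (p : E) := by
  have h : ∀ i ∈ Finset.range p, ζ ^ (c * i) = 1 := by
    intro i _
    rw [pow_mul, (hζ.pow_eq_one_iff_dvd c).2 hc, one_pow]
  rw [Finset.sum_congr rfl h]
  simp

variable {p : ℕ} [Fact p.Prime] {σ : Type} {M : σ → Type} [∀ s, AddCommGroup (M s)]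
  [∀ s, Module ℤ_[p] (M s)] {E : Type} [Field E] [Algebra ℤ_[p] E] {d : σ → ℕ}

private theorem InvProd_left {N : Type} [AddCommGroup N] [Module ℤ_[p] N] {D : ℕ}
    {z : Module.End ℤ_[p] N} {e : N →ₗ[ℤ_[p]] N →ₗ[ℤ_[p]] ℤ_[p]} {ζ : E}
    {j : N →ₗ[ℤ_[p]] ((Fin ((p - 1) / 2) × Fin D) ⊕ (Fin ((p - 1) / 2) × Fin D) → E)}
    (he : Eig z e ζ D j) (i : ℕ) (x : N) (a : Fin ((p - 1) / 2)) (k : Fin D) :
    j ((z ^ i) x) (.inl (a, k)) = ζ ^ (((a : ℕ) + 1) * i) * j x (.inl (a, k)) := by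
  induction i with
  | zero => simp
  | succ i ih =>
    have h1 : (z ^ (i + 1)) x = z ((z ^ i) x) := by
      rw [pow_succ']
      rfl
    rw [h1, he.left, ih, ← mul_assoc, ← pow_add]
    congr 2
    ring

private theorem InvProd_right {N : Type} [AddCommGroup N] [Module ℤ_[p] N] {D : ℕ}
    {z : Module.End ℤ_[p] N} {e : N →ₗ[ℤ_[p]] N →ₗ[ℤ_[p]] ℤ_[p]} {ζ : E}
    {j : N →ₗ[ℤ_[p]] ((Fin ((p - 1) / 2) × Fin D) ⊕ (Fin ((p - 1) / 2) × Fin D) → E)}
    (he : Eig z e ζ D j) (i : ℕ) (x : N) (a : Fin ((p - 1) / 2)) (k : Fin D) :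
    j ((z ^ i) x) (.inr (a, k)) = ζ ^ ((p - ((a : ℕ) + 1)) * i) * j x (.inr (a, k)) := by
  induction i with
  | zero => simp
  | succ i ih =>
    have h1 : (z ^ (i + 1)) x = z ((z ^ i) x) := by
      rw [pow_succ']
      rfl
    rw [h1, he.right, ih, ← mul_assoc, ← pow_add]
    congr 2
    ring

/-- The bilinear forms of the coordinates of a given type are linear combinations of the forms
`e (z ^ i x, y)`. -/
theorem theta_eq [CharZero E] {N : Type} [AddCommGroup N] [Module ℤ_[p] N] {D : ℕ}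
    {z : Module.End ℤ_[p] N} {e : N →ₗ[ℤ_[p]] N →ₗ[ℤ_[p]] ℤ_[p]} {ζ : E}
    (hζ : IsPrimitiveRoot ζ p) (hp : p ≠ 2)
    {j : N →ₗ[ℤ_[p]] ((Fin ((p - 1) / 2) × Fin D) ⊕ (Fin ((p - 1) / 2) × Fin D) → E)}
    (he : Eig z e ζ D j) (a : Fin ((p - 1) / 2)) (x y : N) :
    ∑ k, j x (.inl (a, k)) * j y (.inr (a, k)) =
      (p : E)⁻¹ * ∑ i ∈ Finset.range p,
        ζ ^ ((p - ((a : ℕ) + 1)) * i) * algebraMap ℤ_[p] E (e ((z ^ i) x) y) := by
  have hpp : p.Prime := Fact.out
  have hp0 : (p : E) ≠ 0 := Nat.cast_ne_zero.2 hpp.ne_zero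
  have h1 : ∀ i : ℕ, ζ ^ ((p - ((a : ℕ) + 1)) * i) * algebraMap ℤ_[p] E (e ((z ^ i) x) y) =
      ∑ q : Fin ((p - 1) / 2) × Fin D,
        (ζ ^ (((p - ((a : ℕ) + 1)) + ((q.1 : ℕ) + 1)) * i) * (j x (.inl q) * j y (.inr q)) -
          ζ ^ (((p - ((a : ℕ) + 1)) + (p - ((q.1 : ℕ) + 1))) * i) *
            (j x (.inr q) * j y (.inl q))) := by
    intro i
    rw [he.form, Finset.mul_sum]
    refine Finset.sum_congr rfl fun q _ => ?_
    obtain ⟨a', k⟩ := q
    rw [InvProd_left he, InvProd_right he, add_mul, add_mul, pow_add, pow_add]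
    ring
  have h2 : ∑ i ∈ Finset.range p,
        ζ ^ ((p - ((a : ℕ) + 1)) * i) * algebraMap ℤ_[p] E (e ((z ^ i) x) y) =
      ∑ q : Fin ((p - 1) / 2) × Fin D, if q.1 = a then (p : E) * (j x (.inl q) * j y (.inr q))
        else 0 := by
    rw [Finset.sum_congr rfl fun i _ => h1 i, Finset.sum_comm]
    refine Finset.sum_congr rfl fun q _ => ?_
    rw [Finset.sum_sub_distrib, ← Finset.sum_mul, ← Finset.sum_mul]
    have ha := a.2
    have hq := q.1.2
    have h3 : ¬ p ∣ (p - ((a : ℕ) + 1)) + (p - ((q.1 : ℕ) + 1)) := by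
      rintro ⟨c, hc⟩
      have hc1 : p * 1 < p * c := by omega
      have hc2 : p * c < p * 2 := by omega
      have := Nat.lt_of_mul_lt_mul_left hc1
      have := Nat.lt_of_mul_lt_mul_left hc2
      omega
    rw [InvProd_geom hζ h3, zero_mul, sub_zero]
    split_ifs with h
    · rw [InvProd_geomp hζ]
      rw [h]
      have : p - ((a : ℕ) + 1) + ((a : ℕ) + 1) = p := by omega
      rw [this]
    · rw [InvProd_geom hζ, zero_mul]
      have h4 : (q.1 : ℕ) ≠ (a : ℕ) := fun h' => h (Fin.ext h')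
      rintro ⟨c, hc⟩
      have hc1 : p * 0 < p * c := by omega
      have hc2 : p * c < p * 2 := by omega
      have h5 := Nat.lt_of_mul_lt_mul_left hc1
      have h6 := Nat.lt_of_mul_lt_mul_left hc2
      have h7 : c = 1 := by omega
      subst h7
      omega
  rw [h2, Fintype.sum_prod_type]
  have h3 : ∀ a' : Fin ((p - 1) / 2), (∑ k : Fin D, if (a', k).1 = a then
      (p : E) * (j x (.inl (a', k)) * j y (.inr (a', k))) else 0) =
      if a' = a then ∑ k : Fin D, (p : E) * (j x (.inl (a', k)) * j y (.inr (a', k))) else 0 := by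
    intro a'
    by_cases h : a' = a
    · simp [h]
    · simp [h]
  rw [Finset.sum_congr rfl fun a' _ => h3 a', Finset.sum_ite_eq' Finset.univ a]
  simp only [Finset.mem_univ, if_true]
  rw [← Finset.mul_sum, ← mul_assoc, inv_mul_cancel₀ hp0, one_mul]

/-- The determinants of the coordinates of a given type. -/
theorem exists_det {N : Type} [AddCommGroup N] [Module ℤ_[p] N] {D : ℕ}
    {z : Module.End ℤ_[p] N} {e : N →ₗ[ℤ_[p]] N →ₗ[ℤ_[p]] ℤ_[p]} {ζ : E} (hp : p ≠ 2)
    {j : N →ₗ[ℤ_[p]] ((Fin ((p - 1) / 2) × Fin D) ⊕ (Fin ((p - 1) / 2) × Fin D) → E)}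
    (he : Eig z e ζ D j) (a : Fin ((p - 1) / 2)) (s : Bool) :
    ∃ Δ : N [⋀^Fin D]→ₗ[ℤ_[p]] E, IsDet ζ z Δ ∧ ∀ w, Δ w = Matrix.det (Matrix.of fun k k' =>
      j (w k) (if s = true then .inl (a, k') else .inr (a, k'))) := by
  let R : N → Fin D → E := fun x k' => j x (if s = true then .inl (a, k') else .inr (a, k'))
  have hR : ∀ (w : Fin D → N) (i : Fin D) (x : N),
      (Matrix.of fun k k' => R (Function.update w i x k) k' : Matrix (Fin D) (Fin D) E) =
        Matrix.updateRow (Matrix.of fun k k' => R (w k) k') i (R x) := by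
    intro w i x
    ext k k'
    by_cases h : k = i
    · subst h
      simp [R]
    · simp [R, Function.update_of_ne h, Matrix.updateRow_ne h]
  have hdec : ∀ (i1 i2 : DecidableEq (Fin D)), i1 = i2 := fun _ _ => Subsingleton.elim _ _
  refine ⟨{ toFun := fun w => Matrix.det (Matrix.of fun k k' => R (w k) k')
            map_update_add' := ?_
            map_update_smul' := ?_
            map_eq_zero_of_eq' := ?_ }, ⟨he.rank, ?_⟩, ?_⟩
  · intro i1 w i x y
    obtain rfl := hdec i1 (instDecidableEqFin D)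
    rw [hR, hR, hR]
    have : R (x + y) = R x + R y := by
      funext k'
      simp [R]
    rw [this, Matrix.det_updateRow_add]
  · intro i1 w i c x
    obtain rfl := hdec i1 (instDecidableEqFin D)
    rw [hR, hR]
    have : R (c • x) = (algebraMap ℤ_[p] E c) • R x := by
      funext k'
      simp [R, Algebra.smul_def]
    rw [this, Matrix.det_updateRow_smul, Algebra.smul_def]
  · intro w k k' h hk
    refine Matrix.det_zero_of_row_eq hk ?_
    funext l
    simp [R, h]
  · have ha := a.2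
    have hcase : ∃ b, 0 < b ∧ b < p ∧ ∀ x, R (z x) = ζ ^ b • R x := by
      cases s
      · refine ⟨p - ((a : ℕ) + 1), by omega, by omega, fun x => ?_⟩
        funext k'
        simp [R, he.right]
      · refine ⟨(a : ℕ) + 1, by omega, by omega, fun x => ?_⟩
        funext k'
        simp [R, he.left]
    obtain ⟨b, hb, hb', hbR⟩ := hcase
    refine ⟨b, hb, hb', fun w i => ?_⟩
    show Matrix.det (Matrix.of fun k k' => R (Function.update w i (z (w i)) k) k') = _
    rw [hR, hbR, Matrix.det_updateRow_smul]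
    have : Matrix.updateRow (Matrix.of fun k k' => R (w k) k') i (R (w i)) =
        (Matrix.of fun k k' => R (w k) k' : Matrix (Fin D) (Fin D) E) := by
      ext k k'
      by_cases h : k = i
      · subst h
        simp
      · simp [Matrix.updateRow_ne h]
    rw [this]
    rfl
  · intro w
    rfl

/-- The indices of the coordinates of a given type. -/
private def InvProd_eqv (t : σ × Fin ((p - 1) / 2)) :
    Fin (d t.1) ≃ {q : Qt p d // τt (p := p) (d := d) q = t} where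
  toFun k := ⟨⟨t.1, (t.2, k)⟩, rfl⟩
  invFun q := cast (congrArg (fun t : σ × Fin ((p - 1) / 2) => Fin (d t.1)) q.2) q.1.2.2
  left_inv k := rfl
  right_inv := by
    rintro ⟨⟨s, ⟨a, k⟩⟩, h⟩
    subst h
    rfl

/-- The restriction of a product in coordinates to the lattices. -/
theorem IsVProd.restrict [Fintype σ] [CharZero E] {z : ∀ s, Module.End ℤ_[p] (M s)}
    {e : ∀ s, M s →ₗ[ℤ_[p]] M s →ₗ[ℤ_[p]] ℤ_[p]} {ζ : E} (hζ : IsPrimitiveRoot ζ p)
    (hp : p ≠ 2)
    {j : ∀ s, M s →ₗ[ℤ_[p]]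
      ((Fin ((p - 1) / 2) × Fin (d s)) ⊕ (Fin ((p - 1) / 2) × Fin (d s)) → E)}
    (he : ∀ s, Eig (z s) (e s) ζ (d s) (j s)) {n r : ℕ}
    {g : (Fin r → Fin n → (Qt p d ⊕ Qt p d → E)) → E}
    (hg : IsVProd (Pi.basisFun E (Qt p d ⊕ Qt p d)) (τt (p := p) (d := d)) g) :
    (fun v : Fin r → Fin n → ∀ s, M s => g fun i c => Jt j (v i c)) ∈
      Submodule.span E {g | IsProd z e ζ g} := by
  obtain ⟨m, l, θ, t, s, π, β, hg⟩ := hg
  choose Δ hΔ hΔ' using fun u : Fin l => exists_det hp (he (t u).1) (t u).2 (s u)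
  let π' : (Fin m × Bool) ⊕ (Σ u : Fin l, Fin (d (t u).1)) ≃ Fin r :=
    (Equiv.sumCongr (Equiv.refl _) (Equiv.sigmaCongrRight fun u => InvProd_eqv (t u))).trans π
  let c : (Fin m → ℕ) → E := fun x => ∏ a, ((p : E)⁻¹ * ζ ^ ((p - (((θ a).2 : ℕ) + 1)) * x a))
  let G : (Fin m → ℕ) → (Fin r → Fin n → ∀ s, M s) → E := fun x v =>
    (∏ a, algebraMap ℤ_[p] E (e (θ a).1
        ((z (θ a).1 ^ x a) (v (π' (.inl (a, true))) (β (π' (.inl (a, true)))) (θ a).1))
        (v (π' (.inl (a, false))) (β (π' (.inl (a, false)))) (θ a).1))) *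
      ∏ u, Δ u fun k => v (π' (.inr ⟨u, k⟩)) (β (π' (.inr ⟨u, k⟩))) (t u).1
  have hG : ∀ x, IsProd z e ζ (G x) := fun x =>
    ⟨m, l, fun a => (θ a).1, x, fun u => (t u).1, fun u => d (t u).1, Δ, π', β, hΔ,
      fun v => rfl⟩
  have key : (fun v : Fin r → Fin n → ∀ s, M s => g fun i c => Jt j (v i c)) =
      ∑ x ∈ Fintype.piFinset fun _ : Fin m => Finset.range p, c x • G x := by
    funext v
    rw [hg]
    have h1 : ∀ (a : Fin m) (i1 : Fintype {q : Qt p d // τt (p := p) (d := d) q = θ a}),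
        ∑ q : {q : Qt p d // τt (p := p) (d := d) q = θ a},
        (Pi.basisFun E (Qt p d ⊕ Qt p d)).coord (.inl q)
            (Jt j (v (π (.inl (a, true))) (β (π (.inl (a, true)))))) *
          (Pi.basisFun E (Qt p d ⊕ Qt p d)).coord (.inr q)
            (Jt j (v (π (.inl (a, false))) (β (π (.inl (a, false)))))) =
        ∑ i ∈ Finset.range p, ((p : E)⁻¹ * ζ ^ ((p - (((θ a).2 : ℕ) + 1)) * i)) *
          algebraMap ℤ_[p] E (e (θ a).1
            ((z (θ a).1 ^ i) (v (π' (.inl (a, true))) (β (π' (.inl (a, true)))) (θ a).1))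
            (v (π' (.inl (a, false))) (β (π' (.inl (a, false)))) (θ a).1)) := by
      intro a i1
      rw [← (InvProd_eqv (p := p) (d := d) (θ a)).sum_comp]
      simp only [mul_assoc]
      rw [← Finset.mul_sum]
      exact theta_eq hζ hp (he (θ a).1) (θ a).2
        (v (π (.inl (a, true))) (β (π (.inl (a, true)))) (θ a).1)
        (v (π (.inl (a, false))) (β (π (.inl (a, false)))) (θ a).1)
    have h2 : ∀ (u : Fin l) (i1 : Fintype {q : Qt p d // τt (p := p) (d := d) q = t u})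
        (i2 : DecidableEq {q : Qt p d // τt (p := p) (d := d) q = t u}),
        Matrix.det (Matrix.of fun
        q q' : {q : Qt p d // τt (p := p) (d := d) q = t u} =>
        (Pi.basisFun E (Qt p d ⊕ Qt p d)).coord (if s u = true then .inl q'.1 else .inr q'.1)
          (Jt j (v (π (.inr ⟨u, q⟩)) (β (π (.inr ⟨u, q⟩)))))) =
        Δ u fun k => v (π' (.inr ⟨u, k⟩)) (β (π' (.inr ⟨u, k⟩))) (t u).1 := by
      intro u i1 i2
      rw [← Matrix.det_submatrix_equiv_self (InvProd_eqv (p := p) (d := d) (t u)), hΔ']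
      congr 1
      ext k k'
      cases s u <;> rfl
    have h3 : ∀ A A' B B' C : E, A = A' → B = B' → A' * B' = C → A * B = C := by
      rintro A A' B B' C rfl rfl rfl
      rfl
    refine h3 _ (∏ a : Fin m,
        ∑ i ∈ Finset.range p, ((p : E)⁻¹ * ζ ^ ((p - (((θ a).2 : ℕ) + 1)) * i)) *
          algebraMap ℤ_[p] E (e (θ a).1
            ((z (θ a).1 ^ i) (v (π' (.inl (a, true))) (β (π' (.inl (a, true)))) (θ a).1))
            (v (π' (.inl (a, false))) (β (π' (.inl (a, false)))) (θ a).1))) _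
        (∏ u, Δ u fun k => v (π' (.inr ⟨u, k⟩)) (β (π' (.inr ⟨u, k⟩))) (t u).1) _
      (Finset.prod_congr rfl fun a _ => ?_) (Finset.prod_congr rfl fun u _ => ?_) ?_
    · exact h1 a _
    · exact h2 u _ _
    rw [Finset.prod_univ_sum, Finset.sum_mul, Finset.sum_apply]
    refine Finset.sum_congr rfl fun x _ => ?_
    rw [Finset.prod_mul_distrib, Pi.smul_apply, smul_eq_mul, mul_assoc]
  rw [key]
  exact Submodule.sum_mem _ fun x _ => Submodule.smul_mem _ _ (Submodule.subset_span (hG x))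

end Pool.Agent.PTate
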