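import Pool.Agent.PTate.InvDefs

/-!
# Invariant tensors of products of general linear Lie algebras over the rational numbers
-/

set_option autoImplicit false

noncomputable section

namespace Pool.Agent.PTate

open scoped Classical

section Pos

variable {A : Type} [Fintype A]

private def invRat_B (A : Type) [Fintype A] : LinearMap.BilinForm ℚ (A → ℚ) :=
  LinearMap.mk₂ ℚ (fun f g => ∑ K, f K * g K)
    (fun f f' g => by simp only [Pi.add_apply, add_mul, Finset.sum_add_distrib])
    (fun c f g => by
      simp only [Pi.smul_apply, smul_eq_mul, Finset.mul_sum, mul_assoc])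
    (fun f g g' => by simp only [Pi.add_apply, mul_add, Finset.sum_add_distrib])
    (fun c f g => by
      simp only [Pi.smul_apply, smul_eq_mul, Finset.mul_sum]
      exact Finset.sum_congr rfl fun K _ => by ring)

private theorem invRat_zero {f : A → ℚ} (h : ∑ K, f K * f K = 0) : f = 0 := by
  rw [Finset.sum_eq_zero_iff_of_nonneg fun K _ => mul_self_nonneg _] at h
  funext K
  exact mul_self_eq_zero.1 (h K (Finset.mem_univ K))

private theorem invRat_decomp (S : Submodule ℚ (A → ℚ)) (f : A → ℚ) :
    ∃ s ∈ S, ∃ f', f = s + f' ∧ ∀ g ∈ S, ∑ K, f' K * g K = 0 := by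
  have hsymm : ∀ f g, invRat_B A f g = invRat_B A g f := by
    intro f g
    change ∑ K, f K * g K = ∑ K, g K * f K
    exact Finset.sum_congr rfl fun K _ => mul_comm _ _
  have hrefl : (invRat_B A).IsRefl := fun f g h => by rw [hsymm, h]
  have hdis : Disjoint S ((invRat_B A).orthogonal S) := by
    rw [Submodule.disjoint_def]
    intro g hg hg'
    exact invRat_zero (hg' g hg)
  have hc := (LinearMap.BilinForm.isCompl_orthogonal_iff_disjoint hrefl).2 hdis
  have hf : f ∈ S ⊔ (invRat_B A).orthogonal S := by
    rw [hc.sup_eq_top]
    trivial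
  obtain ⟨s, hs, f', hf', h⟩ := Submodule.mem_sup.1 hf
  refine ⟨s, hs, f', h.symm, fun g hg => ?_⟩
  have h1 : invRat_B A g f' = 0 := hf' g hg
  rw [hsymm] at h1
  exact h1

end Pos

section Ext

variable {Q T I : Type} [Fintype Q] [Fintype I]

/-- the slots different from `i`, `j` -/
@[ext] private structure InvRatI {I : Type} (i j : I) : Type where
  val : I
  ne : val ≠ i ∧ val ≠ j

private def invRat_e {I : Type} (i j : I) : {x : I // x ≠ i ∧ x ≠ j} ≃ InvRatI i j where
  toFun x := ⟨x.1, x.2⟩
  invFun x := ⟨x.1, x.2⟩
  left_inv _ := rfl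
  right_inv _ := rfl

private noncomputable instance {I : Type} [Fintype I] (i j : I) : Fintype (InvRatI i j) :=
  Fintype.ofEquiv _ (invRat_e i j)

private def irx (i j : I) (K : InvRatI i j → Q) (q q' : Q) : I → Q := fun x =>
  if h : x ≠ i ∧ x ≠ j then K ⟨x, h⟩ else if x = i then q else q'

omit [Fintype Q] [Fintype I] in
private theorem irx_i (i j : I) (K : InvRatI i j → Q) (q q' : Q) : irx i j K q q' i = q := by
  unfold irx
  rw [dif_neg (by tauto), if_pos rfl]

omit [Fintype Q] [Fintype I] in
private theorem irx_j {i j : I} (hij : i ≠ j) (K : InvRatI i j → Q) (q q' : Q) :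
    irx i j K q q' j = q' := by
  unfold irx
  rw [dif_neg (by tauto), if_neg hij.symm]

omit [Fintype Q] [Fintype I] in
private theorem irx_sub {i j : I} (K : InvRatI i j → Q) (q q' : Q) (x : InvRatI i j) :
    irx i j K q q' x.1 = K x := by
  unfold irx
  rw [dif_pos x.2]

omit [Fintype Q] [Fintype I] in
private theorem irx_upd {i j : I} (K : InvRatI i j → Q) (q q' k : Q) (x : InvRatI i j) :
    Function.update (irx i j K q q') x.1 k = irx i j (Function.update K x k) q q' := by
  funext y
  by_cases hy : y = x.1
  · subst hy
    rw [Function.update_self, irx_sub, Function.update_self]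
  · rw [Function.update_of_ne hy]
    unfold irx
    by_cases h : y ≠ i ∧ y ≠ j
    · rw [dif_pos h, dif_pos h, Function.update_of_ne]
      exact fun h' => hy (congrArg InvRatI.val h')
    · rw [dif_neg h, dif_neg h]

omit [Fintype Q] [Fintype I] in
private theorem irx_upd_i {i j : I} (K : InvRatI i j → Q) (q q' k : Q) :
    Function.update (irx i j K q q') i k = irx i j K k q' := by
  funext y
  by_cases hy : y = i
  · subst hy
    rw [Function.update_self, irx_i]
  · rw [Function.update_of_ne hy]
    unfold irx
    by_cases h : y ≠ i ∧ y ≠ j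
    · rw [dif_pos h, dif_pos h]
    · rw [dif_neg h, dif_neg h, if_neg hy, if_neg hy]

omit [Fintype Q] [Fintype I] in
private theorem irx_upd_j {i j : I} (hij : i ≠ j) (K : InvRatI i j → Q) (q q' k : Q) :
    Function.update (irx i j K q q') j k = irx i j K q k := by
  funext y
  by_cases hy : y = j
  · subst hy
    rw [Function.update_self, irx_j hij]
  · rw [Function.update_of_ne hy]
    unfold irx
    by_cases h : y ≠ i ∧ y ≠ j
    · rw [dif_pos h, dif_pos h]
    · have h1 : y = i := by tauto
      rw [dif_neg h, dif_neg h, if_pos h1, if_pos h1]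

private def irxE {i j : I} (hij : i ≠ j) : (InvRatI i j → Q) × Q × Q ≃ (I → Q) where
  toFun x := irx i j x.1 x.2.1 x.2.2
  invFun K := (fun x => K x.1, K i, K j)
  left_inv x := by
    obtain ⟨K, q, q'⟩ := x
    refine Prod.ext ?_ (Prod.ext ?_ ?_)
    · funext x
      exact irx_sub K q q' x
    · exact irx_i i j K q q'
    · exact irx_j hij K q q'
  right_inv K := by
    funext y
    change irx i j (fun x => K x.1) (K i) (K j) y = K y
    unfold irx
    by_cases h : y ≠ i ∧ y ≠ j
    · rw [dif_pos h]
    · rw [dif_neg h]
      by_cases h1 : y = i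
      · rw [if_pos h1, h1]
      · have h2 : y = j := by tauto
        rw [if_neg h1, h2]

private theorem irx_sum {i j : I} (hij : i ≠ j) (F : (I → Q) → ℚ) :
    ∑ K, F K = ∑ K : InvRatI i j → Q, ∑ q, ∑ q', F (irx i j K q q') := by
  rw [← (irxE hij).sum_comp, Fintype.sum_prod_type]
  refine Finset.sum_congr rfl fun K _ => ?_
  rw [Fintype.sum_prod_type]
  rfl

/-- the contraction -/
private def irC (τ : Q → T) (i j : I) (t : T) (f : (I → Q) → ℚ) (K : InvRatI i j → Q) : ℚ :=
  ∑ q, if τ q = t then f (irx i j K q q) else 0

/-- the sum over all slots -/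
private theorem ir_sumI {i j : I} (hij : i ≠ j) (F : I → ℚ) :
    ∑ x, F x = ∑ x : InvRatI i j, F x.1 + F i + F j := by
  have h1 : ∑ x : InvRatI i j, F x.1 = ∑ x ∈ Finset.univ.filter (fun x => x ≠ i ∧ x ≠ j), F x := by
    rw [← (invRat_e i j).sum_comp]
    exact (Finset.sum_subtype _ (by simp) F).symm
  have h2 := Finset.sum_filter_add_sum_filter_not Finset.univ (fun x => x ≠ i ∧ x ≠ j) F
  have h3 : Finset.univ.filter (fun x => ¬ (x ≠ i ∧ x ≠ j)) = {i, j} := by
    ext x
    simp only [Finset.mem_filter, Finset.mem_univ, true_and, Finset.mem_insert,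
      Finset.mem_singleton]
    tauto
  rw [h1, ← h2, h3, Finset.sum_pair hij, add_assoc]

/-- the invariant tensors -/
private def irInv (τ : Q → T) (ε : I → Bool) : Submodule ℚ ((I → Q) → ℚ) where
  carrier := {f | ∀ k l, τ k = τ l → ∀ K, Dl ε k l f K = 0}
  add_mem' := by
    intro f g hf hg k l hkl K
    have h1 := hf k l hkl K
    have h2 := hg k l hkl K
    unfold Dl at h1 h2 ⊢
    have e1 : ∀ i, (if ε i = true ∧ K i = l then (f + g) (Function.update K i k) else 0) =
        (if ε i = true ∧ K i = l then f (Function.update K i k) else 0) +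
          (if ε i = true ∧ K i = l then g (Function.update K i k) else 0) := by
      intro i
      split_ifs <;> simp
    have e2 : ∀ i, (if ε i = false ∧ K i = k then (f + g) (Function.update K i l) else 0) =
        (if ε i = false ∧ K i = k then f (Function.update K i l) else 0) +
          (if ε i = false ∧ K i = k then g (Function.update K i l) else 0) := by
      intro i
      split_ifs <;> simp
    rw [Finset.sum_congr rfl fun i _ => e1 i, Finset.sum_congr rfl fun i _ => e2 i,
      Finset.sum_add_distrib, Finset.sum_add_distrib]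
    linarith
  zero_mem' := by
    intro k l _ K
    simp [Dl]
  smul_mem' := by
    intro c f hf k l hkl K
    have h1 := hf k l hkl K
    unfold Dl at h1 ⊢
    have e1 : ∀ i, (if ε i = true ∧ K i = l then (c • f) (Function.update K i k) else 0) =
        c * (if ε i = true ∧ K i = l then f (Function.update K i k) else 0) := by
      intro i
      split_ifs <;> simp
    have e2 : ∀ i, (if ε i = false ∧ K i = k then (c • f) (Function.update K i l) else 0) =
        c * (if ε i = false ∧ K i = k then f (Function.update K i l) else 0) := by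
      intro i
      split_ifs <;> simp
    rw [Finset.sum_congr rfl fun i _ => e1 i, Finset.sum_congr rfl fun i _ => e2 i,
      ← Finset.mul_sum, ← Finset.mul_sum, ← mul_sub, h1, mul_zero]

/-- the contraction of an invariant tensor is invariant -/
private theorem irC_inv {τ : Q → T} {ε : I → Bool} {f : (I → Q) → ℚ} (hf : f ∈ irInv τ ε)
    {i j : I} (hi : ε i = true) (hj : ε j = false) (t : T) :
    irC τ i j t f ∈ irInv τ (fun x : InvRatI i j => ε x.1) := by
  have hij : i ≠ j := by
    rintro rfl
    rw [hi] at hj
    exact Bool.noConfusion hj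
  intro k l hkl K
  have h1 : ∀ q, (∑ x : InvRatI i j, (if ε x.1 = true ∧ K x = l then
      f (irx i j (Function.update K x k) q q) else 0)) -
      (∑ x : InvRatI i j, (if ε x.1 = false ∧ K x = k then
      f (irx i j (Function.update K x l) q q) else 0)) =
      (if q = k then f (irx i j K k l) else 0) - (if q = l then f (irx i j K k l) else 0) := by
    intro q
    have h2 := hf k l hkl (irx i j K q q)
    unfold Dl at h2
    rw [ir_sumI hij (fun x => if ε x = true ∧ irx i j K q q x = l then
      f (Function.update (irx i j K q q) x k) else 0),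
      ir_sumI hij (fun x => if ε x = false ∧ irx i j K q q x = k then
      f (Function.update (irx i j K q q) x l) else 0)] at h2
    simp only [irx_sub, irx_upd, irx_i, irx_upd_i, irx_j hij, irx_upd_j hij, hi, hj, true_and,
      Bool.true_eq_false, Bool.false_eq_true, false_and, if_false, add_zero] at h2
    have e1 : (if q = l then f (irx i j K k q) else 0) = if q = l then f (irx i j K k l) else 0 := by
      split_ifs with h
      · rw [h]
      · rfl
    have e2 : (if q = k then f (irx i j K q l) else 0) = if q = k then f (irx i j K k l) else 0 := by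
      split_ifs with h
      · rw [h]
      · rfl
    rw [e1, e2] at h2
    linarith
  unfold Dl irC
  beta_reduce
  have h3 : ∀ x : InvRatI i j, (if ε x.1 = true ∧ K x = l then
      (∑ q, if τ q = t then f (irx i j (Function.update K x k) q q) else 0) else 0) =
      ∑ q, if τ q = t then (if ε x.1 = true ∧ K x = l then
        f (irx i j (Function.update K x k) q q) else 0) else 0 := by
    intro x
    split_ifs with h
    · rfl
    · simp
  have h4 : ∀ x : InvRatI i j, (if ε x.1 = false ∧ K x = k then
      (∑ q, if τ q = t then f (irx i j (Function.update K x l) q q) else 0) else 0) =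
      ∑ q, if τ q = t then (if ε x.1 = false ∧ K x = k then
        f (irx i j (Function.update K x l) q q) else 0) else 0 := by
    intro x
    split_ifs with h
    · rfl
    · simp
  have h3' := Finset.sum_congr (rfl : (Finset.univ : Finset (InvRatI i j)) = Finset.univ)
    fun x _ => h3 x
  have h4' := Finset.sum_congr (rfl : (Finset.univ : Finset (InvRatI i j)) = Finset.univ)
    fun x _ => h4 x
  rw [h3', h4']
  rw [Finset.sum_comm, Finset.sum_comm (s := (Finset.univ : Finset (InvRatI i j))),
    ← Finset.sum_sub_distrib]
  have h5 : ∀ q, ((∑ x : InvRatI i j, if τ q = t then (if ε x.1 = true ∧ K x = l then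
        f (irx i j (Function.update K x k) q q) else 0) else 0) -
      ∑ x : InvRatI i j, if τ q = t then (if ε x.1 = false ∧ K x = k then
        f (irx i j (Function.update K x l) q q) else 0) else 0) =
      if τ q = t then ((if q = k then f (irx i j K k l) else 0) -
        (if q = l then f (irx i j K k l) else 0)) else 0 := by
    intro q
    by_cases h : τ q = t
    · simp only [if_pos h]
      exact h1 q
    · simp only [if_neg h, Finset.sum_const_zero, sub_zero]
  rw [Finset.sum_congr rfl fun q _ => h5 q]
  have h6 : ∀ q, (if τ q = t then ((if q = k then f (irx i j K k l) else 0) -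
        (if q = l then f (irx i j K k l) else 0)) else 0) =
      (if q = k then (if τ k = t then f (irx i j K k l) else 0) else 0) -
        (if q = l then (if τ k = t then f (irx i j K k l) else 0) else 0) := by
    intro q
    by_cases h7 : q = k
    · by_cases h8 : q = l
      · subst h7; subst h8
        simp
      · subst h7
        simp [h8]
    · by_cases h8 : q = l
      · subst h8
        simp only [h7, ← hkl, if_false, if_true, zero_sub]
        split_ifs <;> simp
      · simp [h7, h8]
  rw [Finset.sum_congr rfl fun q _ => h6 q, Finset.sum_sub_distrib]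
  simp

omit [Fintype Q] in
/-- products of contractions are invariant -/
private theorem ir_prod_inv {τ : Q → T} {ε : I → Bool} {g : (I → Q) → ℚ}
    (hg : IsGProd τ ε g) : g ∈ irInv τ ε := by
  obtain ⟨m, θ, π, hε, hgK⟩ := hg
  intro k l hkl K
  unfold Dl
  have hne : ∀ a b c c', (a, c) ≠ (b, c') → π (a, c) ≠ π (b, c') :=
    fun a b c c' h h' => h (π.injective h')
  -- the product over the other pairs does not change
  have hup : ∀ a c q, g (Function.update K (π (a, c)) q) =
      (if Function.update K (π (a, c)) q (π (a, true)) =
          Function.update K (π (a, c)) q (π (a, false)) ∧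
        τ (Function.update K (π (a, c)) q (π (a, true))) = θ a then 1 else 0) *
      ∏ b ∈ Finset.univ.erase a, if K (π (b, true)) = K (π (b, false)) ∧
        τ (K (π (b, true))) = θ b then (1 : ℚ) else 0 := by
    intro a c q
    rw [hgK, ← Finset.mul_prod_erase _ _ (Finset.mem_univ a)]
    congr 1
    refine Finset.prod_congr rfl fun b hb => ?_
    have hba : b ≠ a := Finset.ne_of_mem_erase hb
    rw [Function.update_of_ne (hne _ _ _ _ (by simp [hba])),
      Function.update_of_ne (hne _ _ _ _ (by simp [hba]))]
  have e1 : ∑ i, (if ε i = true ∧ K i = l then g (Function.update K i k) else 0) =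
      ∑ a : Fin m, if K (π (a, true)) = l then g (Function.update K (π (a, true)) k) else 0 := by
    rw [← π.sum_comp, Fintype.sum_prod_type]
    refine Finset.sum_congr rfl fun a _ => ?_
    rw [Fintype.sum_bool, hε, hε]
    simp
  have e2 : ∑ i, (if ε i = false ∧ K i = k then g (Function.update K i l) else 0) =
      ∑ a : Fin m, if K (π (a, false)) = k then g (Function.update K (π (a, false)) l) else 0 := by
    rw [← π.sum_comp, Fintype.sum_prod_type]
    refine Finset.sum_congr rfl fun a _ => ?_
    rw [Fintype.sum_bool, hε, hε]
    simp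
  rw [e1, e2, sub_eq_zero]
  refine Finset.sum_congr rfl fun a _ => ?_
  rw [hup, hup, Function.update_self, Function.update_self,
    Function.update_of_ne (hne a a false true (by simp)),
    Function.update_of_ne (hne a a true false (by simp))]
  by_cases h1 : K (π (a, true)) = l
  · by_cases h2 : K (π (a, false)) = k
    · rw [if_pos h1, if_pos h2, h1, h2, hkl]
      simp
    · rw [if_pos h1, if_neg h2, if_neg (fun h => h2 h.1.symm), zero_mul]
  · rw [if_neg h1]
    by_cases h2 : K (π (a, false)) = k
    · rw [if_pos h2, if_neg (fun h => h1 h.1), zero_mul]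
    · rw [if_neg h2]

omit [Fintype Q] [Fintype I] in
/-- one more contraction -/
private theorem ir_prod_ext {τ : Q → T} {ε : I → Bool} {i j : I} (hi : ε i = true)
    (hj : ε j = false) (t : T) {g : (InvRatI i j → Q) → ℚ}
    (hg : IsGProd τ (fun x : InvRatI i j => ε x.1) g) :
    IsGProd τ ε fun K : I → Q => (if K i = K j ∧ τ (K i) = t then 1 else 0) *
      g fun x => K x.1 := by
  have hij : i ≠ j := by
    rintro rfl
    rw [hi] at hj
    exact Bool.noConfusion hj
  obtain ⟨m, θ, π, hε, hgK⟩ := hg
  let φ : Fin (m + 1) × Bool → I := fun x =>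
    Fin.cases (motive := fun _ => I) (if x.2 = true then i else j) (fun a => (π (a, x.2)).1) x.1
  have hφ0 : ∀ c, φ (0, c) = if c = true then i else j := fun c => rfl
  have hφs : ∀ a c, φ (Fin.succ a, c) = (π (a, c)).1 := fun a c => rfl
  have hinj : Function.Injective φ := by
    rintro ⟨a, c⟩ ⟨b, c'⟩ h
    induction a using Fin.cases with
    | zero =>
      induction b using Fin.cases with
      | zero =>
        rw [hφ0, hφ0] at h
        cases c <;> cases c' <;> simp_all
      | succ b =>
        exfalso
        rw [hφ0, hφs] at h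
        have h1 := (π (b, c')).2
        cases c
        · exact h1.2 (by rw [← h]; simp)
        · exact h1.1 (by rw [← h]; simp)
    | succ a =>
      induction b using Fin.cases with
      | zero =>
        exfalso
        rw [hφ0, hφs] at h
        have h1 := (π (a, c)).2
        cases c'
        · exact h1.2 (by rw [h]; simp)
        · exact h1.1 (by rw [h]; simp)
      | succ b =>
        rw [hφs, hφs] at h
        have h1 := π.injective (InvRatI.ext h)
        simp only [Prod.mk.injEq] at h1
        rw [h1.1, h1.2]
  have hsurj : Function.Surjective φ := by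
    intro x
    by_cases h : x ≠ i ∧ x ≠ j
    · obtain ⟨⟨a, c⟩, hac⟩ := π.surjective ⟨x, h⟩
      exact ⟨(a.succ, c), by rw [hφs, hac]⟩
    · by_cases h1 : x = i
      · exact ⟨(0, true), by rw [hφ0, h1]; simp⟩
      · exact ⟨(0, false), by rw [hφ0]; simp; tauto⟩
  have hb : Function.Bijective φ := ⟨hinj, hsurj⟩
  refine ⟨m + 1, Fin.cases t θ, Equiv.ofBijective φ hb, fun a c => ?_, fun K => ?_⟩
  · change ε (φ (a, c)) = c
    induction a using Fin.cases with
    | zero =>
      rw [hφ0]
      cases c
      · simpa using hj
      · simpa using hi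
    | succ a =>
      rw [hφs]
      exact hε a c
  · beta_reduce
    rw [hgK, Fin.prod_univ_succ]
    rfl

/-- the contraction of a tensor orthogonal to the products of contractions -/
private theorem irC_orth {τ : Q → T} {ε : I → Bool} {f : (I → Q) → ℚ}
    (hf : ∀ g ∈ Submodule.span ℚ {g : (I → Q) → ℚ | IsGProd τ ε g}, ∑ K, f K * g K = 0)
    {i j : I} (hi : ε i = true) (hj : ε j = false) (t : T) :
    ∀ g ∈ Submodule.span ℚ {g : (InvRatI i j → Q) → ℚ |
      IsGProd τ (fun x : InvRatI i j => ε x.1) g}, ∑ K, irC τ i j t f K * g K = 0 := by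
  have hij : i ≠ j := by
    rintro rfl
    rw [hi] at hj
    exact Bool.noConfusion hj
  intro g hg
  induction hg using Submodule.span_induction with
  | mem g hg =>
    have h1 := hf _ (Submodule.subset_span (ir_prod_ext hi hj t hg))
    rw [irx_sum hij] at h1
    rw [← h1]
    refine Finset.sum_congr rfl fun K _ => ?_
    unfold irC
    rw [Finset.sum_mul]
    refine Finset.sum_congr rfl fun q _ => ?_
    rw [Finset.sum_eq_single q]
    · simp only [irx_i, irx_j hij, irx_sub, true_and]
      split_ifs
      · ring
      · ring
    · intro q' _ hq'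
      simp only [irx_i, irx_j hij]
      rw [if_neg (fun h => hq' h.1.symm)]
      ring
    · intro h
      exact absurd (Finset.mem_univ _) h
  | zero => simp
  | add g g' _ _ h h' =>
    simp only [Pi.add_apply, mul_add, Finset.sum_add_distrib, h, h', add_zero]
  | smul c g _ h =>
    have e : ∀ K, irC τ i j t f K * (c • g) K = c * (irC τ i j t f K * g K) := by
      intro K
      rw [Pi.smul_apply, smul_eq_mul]
      ring
    simp only [e, ← Finset.mul_sum, h, mul_zero]

/-- the main identity -/
private theorem ir_main {ε : I → Bool} (f : (I → Q) → ℚ) {i j : I} (hi : ε i = true)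
    (hj : ε j = false) (k l : Q) :
    ∑ K, (if ε i = true ∧ K i = l then f (Function.update K i k) else 0) *
      (if ε j = false ∧ K j = k then f (Function.update K j l) else 0) =
    ∑ K : InvRatI i j → Q, f (irx i j K k k) * f (irx i j K l l) := by
  have hij : i ≠ j := by
    rintro rfl
    rw [hi] at hj
    exact Bool.noConfusion hj
  rw [irx_sum hij]
  refine Finset.sum_congr rfl fun K _ => ?_
  rw [Finset.sum_eq_single l]
  · rw [Finset.sum_eq_single k]
    · simp only [irx_i, irx_j hij, irx_upd_i, irx_upd_j hij, hi, hj, and_self, if_true]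
    · intro q' _ hq'
      simp only [irx_i, irx_j hij]
      rw [if_neg (c := ε j = false ∧ q' = k) (fun h => hq' h.2), mul_zero]
    · intro h
      exact absurd (Finset.mem_univ _) h
  · intro q _ hq
    refine Finset.sum_eq_zero fun q' _ => ?_
    simp only [irx_i, irx_j hij]
    rw [if_neg (c := ε i = true ∧ q = l) (fun h => hq h.2), zero_mul]
  · intro h
    exact absurd (Finset.mem_univ _) h

private theorem ir_main_sum {τ : Q → T} {ε : I → Bool} (f : (I → Q) → ℚ)
    (h : ∀ i j : I, ε i = true → ε j = false → ∀ t, irC τ i j t f = 0) (k : Q) :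
    ∑ l, (if τ l = τ k then
      ∑ K, (∑ i, if ε i = true ∧ K i = l then f (Function.update K i k) else 0) *
        (∑ j, if ε j = false ∧ K j = k then f (Function.update K j l) else 0) else 0) = 0 := by
  have h1 : ∀ l, (∑ K, (∑ i, if ε i = true ∧ K i = l then f (Function.update K i k) else 0) *
        (∑ j, if ε j = false ∧ K j = k then f (Function.update K j l) else 0)) =
      ∑ i, ∑ j, if ε i = true ∧ ε j = false then
        ∑ K : InvRatI i j → Q, f (irx i j K k k) * f (irx i j K l l) else 0 := by
    intro l
    simp only [Finset.sum_mul_sum]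
    rw [Finset.sum_comm]
    refine Finset.sum_congr rfl fun i _ => ?_
    rw [Finset.sum_comm]
    refine Finset.sum_congr rfl fun j _ => ?_
    by_cases hij : ε i = true ∧ ε j = false
    · rw [if_pos hij, ir_main f hij.1 hij.2]
    · rw [if_neg hij]
      refine Finset.sum_eq_zero fun K _ => ?_
      by_cases hi : ε i = true
      · rw [if_neg (c := ε j = false ∧ K j = k) (fun h => hij ⟨hi, h.1⟩), mul_zero]
      · rw [if_neg (c := ε i = true ∧ K i = l) (fun h => hi h.1), zero_mul]
  have h2 : ∀ l, (if τ l = τ k then
      ∑ K, (∑ i, if ε i = true ∧ K i = l then f (Function.update K i k) else 0) *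
        (∑ j, if ε j = false ∧ K j = k then f (Function.update K j l) else 0) else 0) =
      ∑ i, ∑ j, if ε i = true ∧ ε j = false then
        ∑ K : InvRatI i j → Q, f (irx i j K k k) *
          (if τ l = τ k then f (irx i j K l l) else 0) else 0 := by
    intro l
    rw [h1]
    split_ifs with hl
    · rfl
    · simp
  rw [Finset.sum_congr rfl fun l _ => h2 l, Finset.sum_comm]
  refine Finset.sum_eq_zero fun i _ => ?_
  rw [Finset.sum_comm]
  refine Finset.sum_eq_zero fun j _ => ?_
  by_cases hij : ε i = true ∧ ε j = false
  · simp only [if_pos hij]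
    rw [Finset.sum_comm]
    refine Finset.sum_eq_zero fun K _ => ?_
    rw [← Finset.mul_sum]
    have h3 := congrFun (h i j hij.1 hij.2 (τ k)) K
    unfold irC at h3
    rw [h3, Pi.zero_apply, mul_zero]
  · simp only [if_neg hij, Finset.sum_const_zero]

end Ext

private theorem invRat_card {I : Type} [Fintype I] (i j : I) :
    Fintype.card (InvRatI i j) < Fintype.card I := by
  rw [← Fintype.card_congr (invRat_e i j)]
  exact Fintype.card_subtype_lt (x := i) (by simp)

private theorem invRat_ind {Q T : Type} [Fintype Q] (τ : Q → T) (n : ℕ) :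
    ∀ (I : Type) [Fintype I], Fintype.card I = n → ∀ (ε : I → Bool) (f : (I → Q) → ℚ),
      f ∈ irInv τ ε → f ∈ Submodule.span ℚ {g : (I → Q) → ℚ | IsGProd τ ε g} := by
  induction n using Nat.strong_induction_on with
  | _ n ih =>
  intro I _ hI ε f hf
  set S := Submodule.span ℚ {g : (I → Q) → ℚ | IsGProd τ ε g} with hS
  obtain ⟨s, hs, f', rfl, hf'⟩ := invRat_decomp S f
  have hSI : S ≤ irInv τ ε := Submodule.span_le.2 fun g hg => ir_prod_inv hg
  have hf'I : f' ∈ irInv τ ε := by
    have := (irInv τ ε).sub_mem hf (hSI hs)
    rwa [add_sub_cancel_left] at this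
  have hC : ∀ i j : I, ε i = true → ε j = false → ∀ t, irC τ i j t f' = 0 := by
    intro i j hi hj t
    have h1 := ih _ (by rw [← hI]; exact invRat_card i j) (InvRatI i j) rfl
      (fun x => ε x.1) (irC τ i j t f') (irC_inv hf'I hi hj t)
    exact invRat_zero (irC_orth hf' hi hj t _ h1)
  have hD : ∀ k K, (∑ i, if ε i = true ∧ K i = k then f' (Function.update K i k) else 0) = 0 := by
    intro k
    have h1 := ir_main_sum f' hC k
    have h2 : ∀ l, 0 ≤ (if τ l = τ k then
      ∑ K, (∑ i, if ε i = true ∧ K i = l then f' (Function.update K i k) else 0) *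
        (∑ j, if ε j = false ∧ K j = k then f' (Function.update K j l) else 0) else 0) := by
      intro l
      split_ifs with hl
      · refine Finset.sum_nonneg fun K _ => ?_
        have h3 := hf'I k l hl.symm K
        unfold Dl at h3
        rw [← sub_eq_zero.1 h3]
        exact mul_self_nonneg _
      · exact le_rfl
    have h3 := (Finset.sum_eq_zero_iff_of_nonneg fun l _ => h2 l).1 h1 k (Finset.mem_univ k)
    rw [if_pos rfl] at h3
    intro K
    have h4 : ∀ K, 0 ≤ (∑ i, if ε i = true ∧ K i = k then f' (Function.update K i k) else 0) *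
        (∑ j, if ε j = false ∧ K j = k then f' (Function.update K j k) else 0) := by
      intro K
      have h5 := hf'I k k rfl K
      unfold Dl at h5
      rw [← sub_eq_zero.1 h5]
      exact mul_self_nonneg _
    have h6 := (Finset.sum_eq_zero_iff_of_nonneg fun K _ => h4 K).1 h3 K (Finset.mem_univ K)
    have h5 := hf'I k k rfl K
    unfold Dl at h5
    rw [← sub_eq_zero.1 h5] at h6
    exact mul_self_eq_zero.1 h6
  have hzero : f' = 0 := by
    by_cases h1 : ∃ i, ε i = true
    · obtain ⟨i, hi⟩ := h1
      funext K
      have h2 := hD (K i) K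
      have h3 : ∀ x, (if ε x = true ∧ K x = K i then f' (Function.update K x (K i)) else 0) =
          (if ε x = true ∧ K x = K i then 1 else 0) * f' K := by
        intro x
        split_ifs with h
        · rw [← h.2, Function.update_eq_self, one_mul]
        · rw [zero_mul]
      rw [Finset.sum_congr rfl fun x _ => h3 x, ← Finset.sum_mul] at h2
      have h4 : (0 : ℚ) < ∑ x, (if ε x = true ∧ K x = K i then 1 else 0) := by
        refine Finset.sum_pos' (fun x _ => by split_ifs <;> norm_num) ⟨i, Finset.mem_univ i, ?_⟩
        rw [if_pos ⟨hi, rfl⟩]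
        norm_num
      exact (mul_eq_zero.1 h2).resolve_left h4.ne'
    · by_cases h1' : ∃ i, ε i = false
      · obtain ⟨i, hi⟩ := h1'
        funext K
        have h2 := hf'I (K i) (K i) rfl K
        unfold Dl at h2
        rw [hD (K i) K, zero_sub, neg_eq_zero] at h2
        have h3 : ∀ x, (if ε x = false ∧ K x = K i then f' (Function.update K x (K i)) else 0) =
            (if ε x = false ∧ K x = K i then 1 else 0) * f' K := by
          intro x
          split_ifs with h
          · rw [← h.2, Function.update_eq_self, one_mul]
          · rw [zero_mul]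
        rw [Finset.sum_congr rfl fun x _ => h3 x, ← Finset.sum_mul] at h2
        have h4 : (0 : ℚ) < ∑ x, (if ε x = false ∧ K x = K i then 1 else 0) := by
          refine Finset.sum_pos' (fun x _ => by split_ifs <;> norm_num) ⟨i, Finset.mem_univ i, ?_⟩
          rw [if_pos ⟨hi, rfl⟩]
          norm_num
        exact (mul_eq_zero.1 h2).resolve_left h4.ne'
      · have hemp : IsEmpty I := by
          refine ⟨fun i => ?_⟩
          rcases h : ε i with _ | _
          · exact h1' ⟨i, h⟩
          · exact h1 ⟨i, h⟩
        have hone : IsGProd τ ε (fun _ : I → Q => (1 : ℚ)) := by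
          refine ⟨0, Fin.elim0, Equiv.equivOfIsEmpty _ _, fun a => a.elim0, fun K => ?_⟩
          simp
        have h2 := hf' _ (Submodule.subset_span hone)
        funext K
        have h3 : ∀ K', K' = K := fun K' => Subsingleton.elim _ _
        rw [Fintype.sum_eq_single K fun K' h => absurd (h3 K') h, mul_one] at h2
        exact h2
  rw [hzero, add_zero]
  exact hs

/-- An invariant tensor is a linear combination of products of contractions. -/
theorem fft_rat {Q T I : Type} [Fintype Q] [Fintype I] (τ : Q → T) (ε : I → Bool)
    (f : (I → Q) → ℚ) (hf : ∀ k l, τ k = τ l → ∀ K, Dl ε k l f K = 0) :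
    f ∈ Submodule.span ℚ {g : (I → Q) → ℚ | IsGProd τ ε g} :=
  invRat_ind τ _ I rfl ε f hf

end Pool.Agent.PTate
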