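import Pool.Agent.PTate.InvSlB
import Pool.Agent.PTate.InvGl

/-!
# Invariant tensors of products of special linear Lie algebras
-/

set_option autoImplicit false

noncomputable section

namespace Pool.Agent.PTate

open scoped Classical

private theorem InvSl_upd {Q T I : Type} (τ : Q → T) (K : I → Q) {i : I} {k : Q}
    (h : τ k = τ (K i)) : τ ∘ Function.update K i k = τ ∘ K := by
  funext j
  by_cases hj : j = i
  · subst hj
    simp [h]
  · simp [Function.update_of_ne hj]

/-- The action does not change the pattern. -/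
private theorem InvSl_pat {E Q T I : Type} [Field E] [Fintype I] (τ : Q → T) (ε : I → Bool)
    (κ : I → T) (f : (I → Q) → E) {k l : Q} (hkl : τ k = τ l) (K : I → Q) :
    Dl ε k l (fun K => if τ ∘ K = κ then f K else 0) K =
      if τ ∘ K = κ then Dl ε k l f K else 0 := by
  have h1 : ∀ i, (if ε i = true ∧ K i = l then
      (if τ ∘ Function.update K i k = κ then f (Function.update K i k) else 0) else 0) =
      if τ ∘ K = κ then (if ε i = true ∧ K i = l then f (Function.update K i k) else 0) else 0 := by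
    intro i
    by_cases h : ε i = true ∧ K i = l
    · rw [if_pos h, if_pos h, InvSl_upd τ K (by rw [h.2, hkl])]
    · rw [if_neg h, if_neg h, ite_self]
  have h2 : ∀ i, (if ε i = false ∧ K i = k then
      (if τ ∘ Function.update K i l = κ then f (Function.update K i l) else 0) else 0) =
      if τ ∘ K = κ then (if ε i = false ∧ K i = k then f (Function.update K i l) else 0) else 0 := by
    intro i
    by_cases h : ε i = false ∧ K i = k
    · rw [if_pos h, if_pos h, InvSl_upd τ K (by rw [h.2, hkl])]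
    · rw [if_neg h, if_neg h, ite_self]
  unfold Dl
  rw [Finset.sum_congr rfl fun i _ => h1 i, Finset.sum_congr rfl fun i _ => h2 i]
  split_ifs <;> simp

/-- The weight of the index `k` in `K`. -/
private def InvSl_n {Q I : Type} [Fintype I] (ε : I → Bool) (k : Q) (K : I → Q) : ℤ :=
  (∑ i, if ε i = true ∧ K i = k then 1 else 0) - ∑ i, if ε i = false ∧ K i = k then 1 else 0

private theorem InvSl_diag {E Q I : Type} [Field E] [Fintype I] (ε : I → Bool)
    (k : Q) (f : (I → Q) → E) (K : I → Q) :
    Dl ε k k f K = (InvSl_n ε k K : E) * f K := by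
  have h1 : ∀ i, (if ε i = true ∧ K i = k then f (Function.update K i k) else 0) =
      (if ε i = true ∧ K i = k then (1 : E) else 0) * f K := by
    intro i
    by_cases h : ε i = true ∧ K i = k
    · rw [if_pos h, if_pos h, one_mul, ← h.2, Function.update_eq_self]
    · rw [if_neg h, if_neg h, zero_mul]
  have h2 : ∀ i, (if ε i = false ∧ K i = k then f (Function.update K i k) else 0) =
      (if ε i = false ∧ K i = k then (1 : E) else 0) * f K := by
    intro i
    by_cases h : ε i = false ∧ K i = k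
    · rw [if_pos h, if_pos h, one_mul, ← h.2, Function.update_eq_self]
    · rw [if_neg h, if_neg h, zero_mul]
  unfold Dl InvSl_n
  rw [Finset.sum_congr rfl fun i _ => h1 i, Finset.sum_congr rfl fun i _ => h2 i,
    ← Finset.sum_mul, ← Finset.sum_mul, ← sub_mul]
  push_cast
  rfl

/-- The sum of the weights of the indices of a given type depends only on the pattern. -/
private theorem InvSl_sum {Q T I : Type} [Fintype Q] [Fintype I] (τ : Q → T) (ε : I → Bool)
    (t : T) (K : I → Q) :
    ∑ q : {q // τ q = t}, InvSl_n ε q.1 K =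
      (∑ i, if ε i = true ∧ (τ ∘ K) i = t then 1 else 0) -
        ∑ i, if ε i = false ∧ (τ ∘ K) i = t then 1 else 0 := by
  have h : ∀ b : Bool, ∑ q : {q // τ q = t}, ∑ i, (if ε i = b ∧ K i = q.1 then (1 : ℤ) else 0) =
      ∑ i, if ε i = b ∧ (τ ∘ K) i = t then 1 else 0 := by
    intro b
    rw [Finset.sum_comm]
    refine Finset.sum_congr rfl fun i _ => ?_
    by_cases h1 : ε i = b
    · by_cases h2 : τ (K i) = t
      · rw [if_pos ⟨h1, h2⟩, Finset.sum_eq_single ⟨K i, h2⟩]
        · rw [if_pos ⟨h1, rfl⟩]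
        · intro q _ hq
          rw [if_neg]
          rintro ⟨-, h3⟩
          exact hq (Subtype.ext h3.symm)
        · intro h3
          exact absurd (Finset.mem_univ _) h3
      · rw [if_neg fun h3 => h2 h3.2]
        refine Finset.sum_eq_zero fun q _ => ?_
        rw [if_neg]
        rintro ⟨-, h3⟩
        exact h2 (by rw [h3]; exact q.2)
    · rw [if_neg fun h3 => h1 h3.1]
      exact Finset.sum_eq_zero fun q _ => if_neg fun h3 => h1 h3.1
  unfold InvSl_n
  rw [Finset.sum_sub_distrib, h true, h false]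

/-- The case of one pattern. -/
private theorem InvSl_one {E Q T I : Type} [Field E] [CharZero E] [Fintype Q] [Fintype T]
    [Fintype I] (τ : Q → T) (ε : I → Bool) (κ : I → T) (f : (I → Q) → E)
    (h1 : ∀ k l, k ≠ l → τ k = τ l → ∀ K, Dl ε k l f K = 0)
    (h2 : ∀ k l, τ k = τ l → ∀ K, Dl ε k k f K = Dl ε l l f K)
    (hκ : ∀ K, τ ∘ K ≠ κ → f K = 0) :
    f ∈ Submodule.span E {g : (I → Q) → E | IsTProd τ ε g} := by
  by_cases hf : f = 0
  · rw [hf]
    exact zero_mem _
  obtain ⟨K0, hK0⟩ : ∃ K0, f K0 ≠ 0 := by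
    by_contra hcon
    push Not at hcon
    exact hf (funext hcon)
  have hw : ∀ K, f K ≠ 0 → ∀ k l, τ k = τ l → InvSl_n ε k K = InvSl_n ε l K := by
    intro K hK k l hkl
    have h3 := h2 k l hkl K
    rw [InvSl_diag, InvSl_diag] at h3
    have h4 := mul_right_cancel₀ hK h3
    exact_mod_cast h4
  have hpat : ∀ K, f K ≠ 0 → τ ∘ K = κ := by
    intro K hK
    by_contra hcon
    exact hK (hκ K hcon)
  have hn : ∀ K, f K ≠ 0 → ∀ k, InvSl_n ε k K = InvSl_n ε k K0 := by
    intro K hK k
    have h3 := InvSl_sum τ ε (τ k) K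
    have h4 := InvSl_sum τ ε (τ k) K0
    rw [hpat K hK] at h3
    rw [hpat K0 hK0, ← h3] at h4
    have h5 : ∀ K, f K ≠ 0 → ∑ q : {q // τ q = τ k}, InvSl_n ε q.1 K =
        Fintype.card {q // τ q = τ k} * InvSl_n ε k K := by
      intro K hK
      rw [Finset.sum_congr rfl fun q _ => hw K hK q.1 k q.2, Finset.sum_const, Finset.card_univ,
        nsmul_eq_mul]
    rw [h5 K hK, h5 K0 hK0] at h4
    have h6 : (Fintype.card {q // τ q = τ k} : ℤ) ≠ 0 := by
      have : Nonempty {q // τ q = τ k} := ⟨⟨k, rfl⟩⟩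
      exact_mod_cast Fintype.card_ne_zero
    exact (mul_left_cancel₀ h6 h4).symm
  let c : T → ℤ := fun t => if h : ∃ k, τ k = t then InvSl_n ε h.choose K0 else 0
  have hc : ∀ k, c (τ k) = InvSl_n ε k K0 := by
    intro k
    have h : ∃ k', τ k' = τ k := ⟨k, rfl⟩
    have h3 : c (τ k) = InvSl_n ε h.choose K0 := dif_pos h
    rw [h3]
    exact hw K0 hK0 _ _ h.choose_spec
  have hd : ∀ k K, Dl ε k k f K = (c (τ k) : E) * f K := by
    intro k K
    rw [InvSl_diag]
    by_cases hK : f K = 0
    · rw [hK, mul_zero, mul_zero]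
    · rw [hn K hK, hc]
  refine sl_of_gl τ ε c f (fft_gl τ _ _ ?_)
  intro k l hkl K
  rw [Dl_mul, Dl_δc τ c hkl]
  by_cases h : k = l
  · subst h
    rw [if_pos rfl, hd]
    ring
  · rw [if_neg h, h1 k l h hkl, zero_mul, mul_zero, add_zero]

/-- An invariant tensor of a product of special linear Lie algebras is a linear combination of
products of contractions and determinants. -/
theorem fft_sl {E Q T I : Type} [Field E] [CharZero E] [Fintype Q] [Fintype T] [Fintype I]
    (τ : Q → T) (ε : I → Bool) (f : (I → Q) → E)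
    (h1 : ∀ k l, k ≠ l → τ k = τ l → ∀ K, Dl ε k l f K = 0)
    (h2 : ∀ k l, τ k = τ l → ∀ K, Dl ε k k f K = Dl ε l l f K) :
    f ∈ Submodule.span E {g : (I → Q) → E | IsTProd τ ε g} := by
  have hsum : f = ∑ κ : I → T, fun K => if τ ∘ K = κ then f K else 0 := by
    funext K
    rw [Finset.sum_apply, Finset.sum_ite_eq, if_pos (Finset.mem_univ _)]
  rw [hsum]
  refine Submodule.sum_mem _ fun κ _ => InvSl_one τ ε κ _ ?_ ?_ ?_
  · intro k l hne hkl K
    rw [InvSl_pat τ ε κ f hkl, h1 k l hne hkl, ite_self]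
  · intro k l hkl K
    rw [InvSl_pat τ ε κ f rfl, InvSl_pat τ ε κ f rfl, h2 k l hkl]
  · intro K hK
    exact if_neg hK

end Pool.Agent.PTate
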