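import Pool.Agent.PTate.InvDefs

/-!
# Tensors with weights, products with determinants
-/

set_option autoImplicit false

noncomputable section

namespace Pool.Agent.PTate

open scoped Classical

variable {E Q T : Type} [Field E] [Fintype Q]

section aux

variable {Q : Type}

/-- The update with the classical decision. -/
private def upd {I : Type} (K : I → Q) (i : I) (k : Q) : I → Q := Function.update K i k

private theorem upd_self {I : Type} (K : I → Q) (i : I) (k : Q) : upd K i k i = k :=
  Function.update_self _ _ _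

private theorem upd_ne {I : Type} (K : I → Q) {i j : I} (k : Q) (h : j ≠ i) :
    upd K i k j = K j := Function.update_of_ne h _ _

private theorem Dl_upd {I : Type} [Fintype I] (ε : I → Bool) (k l : Q) (f : (I → Q) → E)
    (K : I → Q) : Dl ε k l f K = (∑ i, if ε i = true ∧ K i = l then f (upd K i k) else 0) -
      ∑ i, if ε i = false ∧ K i = k then f (upd K i l) else 0 := rfl

private theorem invSlA_upd_inl {I N : Type} (K : I ⊕ N → Q) (i : I) (k : Q) :
    upd K (Sum.inl i) k ∘ Sum.inl = upd (K ∘ Sum.inl) i k := by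
  funext j
  by_cases h : j = i
  · subst h; rw [Function.comp_apply, upd_self, upd_self]
  · rw [Function.comp_apply, upd_ne _ _ h, upd_ne _ _ (fun h' => h (Sum.inl.inj h'))]
    rfl

private theorem invSlA_upd_inr {I N : Type} (K : I ⊕ N → Q) (i : N) (k : Q) :
    upd K (Sum.inr i) k ∘ Sum.inr = upd (K ∘ Sum.inr) i k := by
  funext j
  by_cases h : j = i
  · subst h; rw [Function.comp_apply, upd_self, upd_self]
  · rw [Function.comp_apply, upd_ne _ _ h, upd_ne _ _ (fun h' => h (Sum.inr.inj h'))]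
    rfl

private theorem invSlA_upd_inl' {I N : Type} (K : I ⊕ N → Q) (i : N) (k : Q) :
    upd K (Sum.inr i) k ∘ Sum.inl = K ∘ Sum.inl := by
  funext j
  rw [Function.comp_apply, upd_ne _ _ Sum.inl_ne_inr]
  rfl

private theorem invSlA_upd_inr' {I N : Type} (K : I ⊕ N → Q) (i : I) (k : Q) :
    upd K (Sum.inl i) k ∘ Sum.inr = K ∘ Sum.inr := by
  funext j
  rw [Function.comp_apply, upd_ne _ _ Sum.inr_ne_inl]
  rfl

end aux

/-- The rule of Leibniz. -/
theorem Dl_mul {I N : Type} [Fintype I] [Fintype N] (ε : I → Bool) (ε' : N → Bool) (k l : Q)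
    (f : (I → Q) → E) (g : (N → Q) → E) (K : I ⊕ N → Q) :
    Dl (Sum.elim ε ε') k l (fun K => f (K ∘ Sum.inl) * g (K ∘ Sum.inr)) K =
      Dl ε k l f (K ∘ Sum.inl) * g (K ∘ Sum.inr) + f (K ∘ Sum.inl) * Dl ε' k l g (K ∘ Sum.inr) := by
  simp only [Dl_upd, Fintype.sum_sum_type, Sum.elim_inl, Sum.elim_inr, invSlA_upd_inl, invSlA_upd_inr,
    invSlA_upd_inl', invSlA_upd_inr', sub_mul, mul_sub, Finset.sum_mul, Finset.mul_sum, ite_mul,
    mul_ite, zero_mul, mul_zero, Function.comp_apply]
  ring

private theorem invSlA_trace {R : Type} [Fintype R] [DecidableEq R] (N F : Matrix R R E) :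
    ∑ q, (N.updateRow q ((N * F) q)).det = N.det * F.trace := by
  have h : ∀ q, (N.updateRow q ((N * F) q)).det = ∑ j, N.adjugate j q * (N * F) q j := by
    intro q
    rw [← Matrix.cramer_transpose_apply, Matrix.cramer_eq_adjugate_mulVec,
      ← Matrix.adjugate_transpose]
    rfl
  rw [Finset.sum_congr rfl fun q _ => h q, Finset.sum_comm]
  have h2 : ∀ j, ∑ q, N.adjugate j q * (N * F) q j = (N.adjugate * (N * F)) j j := fun j => rfl
  rw [Finset.sum_congr rfl fun j _ => h2 j, ← Matrix.mul_assoc, Matrix.adjugate_mul,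
    Matrix.smul_mul, Matrix.one_mul, Matrix.trace, Finset.mul_sum]
  rfl

private theorem invSlA_dt (τ : Q → T) (t : T) {k l : Q} (hkl : τ k = τ l)
    (K : {q // τ q = t} → Q) :
    ∑ q, (if K q = l then dt (E := E) τ t (upd K q k) else 0) =
      if k = l ∧ τ k = t then dt τ t K else 0 := by
  let N : Matrix {q // τ q = t} {q // τ q = t} E :=
    Matrix.of fun q q' => if K q = q' then (1 : E) else 0
  let F : Matrix {q // τ q = t} {q // τ q = t} E :=
    Matrix.of fun a b => if (a : Q) = l ∧ (b : Q) = k then (1 : E) else 0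
  have hNF : ∀ q b, (N * F) q b = if K q = l ∧ (b : Q) = k then (1 : E) else 0 := by
    intro q b
    rw [Matrix.mul_apply]
    by_cases h : K q = l ∧ (b : Q) = k
    · have hl : τ l = t := by rw [← hkl, ← h.2]; exact b.2
      rw [if_pos h, Finset.sum_eq_single (⟨l, hl⟩ : {q // τ q = t})]
      · simp [N, F, h.1, h.2]
      · intro a _ ha
        have : ¬ K q = a := by
          intro h'
          exact ha (Subtype.ext (by rw [← h', h.1]))
        simp [N, this]
      · intro h'; exact (h' (Finset.mem_univ _)).elim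
    · rw [if_neg h]
      refine Finset.sum_eq_zero fun a _ => ?_
      by_cases h1 : K q = a
      · have h2 : ¬ ((a : Q) = l ∧ (b : Q) = k) := fun h' => h ⟨h1.trans h'.1, h'.2⟩
        simp [F, h2]
      · simp [N, h1]
  have htr : F.trace = if k = l ∧ τ k = t then (1 : E) else 0 := by
    rw [Matrix.trace]
    by_cases h : k = l ∧ τ k = t
    · rw [if_pos h, Finset.sum_eq_single (⟨k, h.2⟩ : {q // τ q = t})]
      · simp [F, h.1]
      · intro a _ ha
        have : ¬ ((a : Q) = l ∧ (a : Q) = k) := fun h' => ha (Subtype.ext h'.2)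
        simp only [F, Matrix.diag_apply, Matrix.of_apply, if_neg this]
      · intro h'; exact (h' (Finset.mem_univ _)).elim
    · rw [if_neg h]
      refine Finset.sum_eq_zero fun a _ => ?_
      have : ¬ ((a : Q) = l ∧ (a : Q) = k) := by
        intro h'
        exact h ⟨h'.2.symm.trans h'.1, by rw [← h'.2]; exact a.2⟩
      simp only [F, Matrix.diag_apply, Matrix.of_apply, if_neg this]
  have hrow : ∀ q, (if K q = l then dt (E := E) τ t (upd K q k) else 0) =
      (N.updateRow q ((N * F) q)).det := by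
    intro q
    by_cases h : K q = l
    · rw [if_pos h, dt]
      congr 1
      ext a b
      rw [Matrix.of_apply, Matrix.updateRow_apply]
      by_cases ha : a = q
      · subst ha
        rw [if_pos rfl, hNF, upd_self]
        by_cases hb : k = b
        · rw [if_pos hb, if_pos ⟨h, hb.symm⟩]
        · rw [if_neg hb, if_neg fun h' => hb h'.2.symm]
      · rw [if_neg ha, upd_ne _ _ ha]
        rfl
    · rw [if_neg h]
      refine (Matrix.det_eq_zero_of_row_eq_zero q fun b => ?_).symm
      rw [Matrix.updateRow_self, hNF, if_neg fun h' => h h'.1]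
  rw [Finset.sum_congr rfl fun q _ => hrow q, invSlA_trace, htr]
  by_cases h : k = l ∧ τ k = t
  · rw [if_pos h, if_pos h, mul_one]
    rfl
  · rw [if_neg h, if_neg h, mul_zero]

/-- The determinants are invariant up to the trace. -/
theorem Dl_dt (τ : Q → T) (t : T) (s : Bool) {k l : Q} (hkl : τ k = τ l)
    (K : {q // τ q = t} → Q) :
    Dl (fun _ => s) k l (dt (E := E) τ t) K =
      if k = l ∧ τ k = t then (if s = true then dt τ t K else -dt τ t K) else 0 := by
  cases s with
  | true =>
    have h1 := invSlA_dt (E := E) τ t hkl K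
    rw [Dl_upd]
    simp only [true_and, Bool.true_eq_false, false_and, if_false, Finset.sum_const_zero, sub_zero,
      if_true]
    exact h1
  | false =>
    have h1 := invSlA_dt (E := E) τ t hkl.symm K
    rw [Dl_upd]
    simp only [Bool.false_eq_true, false_and, if_false, Finset.sum_const_zero, zero_sub, true_and]
    rw [h1]
    by_cases h : k = l ∧ τ k = t
    · rw [if_pos h, if_pos ⟨h.1.symm, by rw [← hkl]; exact h.2⟩]
    · rw [if_neg h, if_neg fun h' => h ⟨h'.1.symm, by rw [hkl]; exact h'.2⟩, neg_zero]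

variable [Fintype T]

/-- The indices of the determinants which compensate the weight `c`. -/
abbrev Nc (τ : Q → T) (c : T → ℤ) : Type := Σ t : T, Fin (c t).natAbs × {q // τ q = t}

/-- The signs of these indices. -/
def εc (τ : Q → T) (c : T → ℤ) (x : Nc τ c) : Bool := decide (c x.1 < 0)

/-- The product of the determinants. -/
def δc (τ : Q → T) (c : T → ℤ) (J : Nc τ c → Q) : E :=
  ∏ t, ∏ u : Fin (c t).natAbs, dt τ t fun q => J ⟨t, (u, q)⟩

theorem Dl_δc (τ : Q → T) (c : T → ℤ) {k l : Q} (hkl : τ k = τ l) (J : Nc τ c → Q) :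
    Dl (εc τ c) k l (δc (E := E) τ c) J = if k = l then -(c (τ k) : E) * δc τ c J else 0 := by
  let D : (Nc τ c → Q) → (Σ t : T, Fin (c t).natAbs) → E :=
    fun J x => dt τ x.1 fun q => J ⟨x.1, (x.2, q)⟩
  have hδ : ∀ J, δc (E := E) τ c J = ∏ x, D J x := by
    intro J
    rw [Fintype.prod_sigma]
    rfl
  have hne : ∀ (J : Nc τ c → Q) (t : T) (u : Fin (c t).natAbs) (q : {q // τ q = t}) (a : Q)
      (x : Σ t : T, Fin (c t).natAbs), x ≠ ⟨t, u⟩ →
      D (upd J ⟨t, (u, q)⟩ a) x = D J x := by
    intro J t u q a x hx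
    simp only [D]
    congr 1
    funext q'
    rw [upd_ne]
    intro h
    apply hx
    obtain ⟨t', u'⟩ := x
    simp only [Sigma.mk.injEq] at h
    obtain ⟨h1, h2⟩ := h
    subst h1
    rw [heq_eq_eq, Prod.mk.injEq] at h2
    rw [h2.1]
  have heq : ∀ (J : Nc τ c → Q) (t : T) (u : Fin (c t).natAbs) (q : {q // τ q = t}) (a : Q),
      D (upd J ⟨t, (u, q)⟩ a) ⟨t, u⟩ =
        dt τ t (upd (fun q => J ⟨t, (u, q)⟩) q a) := by
    intro J t u q a
    simp only [D]
    congr 1
    funext q'
    by_cases h : q' = q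
    · subst h; rw [upd_self, upd_self]
    · rw [upd_ne _ _ h, upd_ne]
      intro h'
      apply h
      simp only [Sigma.mk.injEq, heq_eq_eq, Prod.mk.injEq, true_and] at h'
      exact h'
  have hupd : ∀ (t : T) (u : Fin (c t).natAbs) (q : {q // τ q = t}) (a : Q),
      δc (E := E) τ c (upd J ⟨t, (u, q)⟩ a) =
        dt τ t (upd (fun q => J ⟨t, (u, q)⟩) q a) *
          ∏ x ∈ Finset.univ.erase (⟨t, u⟩ : Σ t : T, Fin (c t).natAbs), D J x := by
    intro t u q a
    rw [hδ, ← Finset.mul_prod_erase _ _ (Finset.mem_univ (⟨t, u⟩ : Σ t : T, Fin (c t).natAbs)),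
      heq]
    congr 1
    exact Finset.prod_congr rfl fun x hx => hne J t u q a x (Finset.ne_of_mem_erase hx)
  have hblock : ∀ (t : T) (u : Fin (c t).natAbs),
      ((∑ q : {q // τ q = t}, if εc τ c ⟨t, (u, q)⟩ = true ∧ J ⟨t, (u, q)⟩ = l then
          δc (E := E) τ c (upd J ⟨t, (u, q)⟩ k) else 0) -
        ∑ q : {q // τ q = t}, if εc τ c ⟨t, (u, q)⟩ = false ∧ J ⟨t, (u, q)⟩ = k then
          δc (E := E) τ c (upd J ⟨t, (u, q)⟩ l) else 0) =
      if k = l ∧ τ k = t then (if c t < 0 then (1 : E) else -1) * δc τ c J else 0 := by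
    intro t u
    have h1 := Dl_dt (E := E) τ t (decide (c t < 0)) hkl (fun q => J ⟨t, (u, q)⟩)
    have h2 : δc (E := E) τ c J = dt τ t (fun q => J ⟨t, (u, q)⟩) *
        ∏ x ∈ Finset.univ.erase (⟨t, u⟩ : Σ t : T, Fin (c t).natAbs), D J x := by
      rw [hδ, ← Finset.mul_prod_erase _ _ (Finset.mem_univ (⟨t, u⟩ : Σ t : T, Fin (c t).natAbs))]
    have h3 := congrArg (fun y => y *
      ∏ x ∈ Finset.univ.erase (⟨t, u⟩ : Σ t : T, Fin (c t).natAbs), D J x) h1
    simp only [Dl_upd, sub_mul, Finset.sum_mul, ite_mul, zero_mul, neg_mul, ← h2] at h3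
    simp only [εc, hupd]
    rw [h3]
    by_cases hk : k = l ∧ τ k = t
    · rw [if_pos hk, if_pos hk]
      by_cases hc : c t < 0
      · rw [if_pos (decide_eq_true hc), if_pos hc, one_mul]
      · rw [if_neg (by simpa using hc), if_neg hc, neg_one_mul]
    · rw [if_neg hk, if_neg hk]
  rw [Dl_upd, Fintype.sum_sigma, Fintype.sum_sigma, ← Finset.sum_sub_distrib]
  have hsum : ∀ t : T, ((∑ x : Fin (c t).natAbs × {q // τ q = t},
        if εc τ c ⟨t, x⟩ = true ∧ J ⟨t, x⟩ = l then
          δc (E := E) τ c (upd J ⟨t, x⟩ k) else 0) -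
        ∑ x : Fin (c t).natAbs × {q // τ q = t},
          if εc τ c ⟨t, x⟩ = false ∧ J ⟨t, x⟩ = k then
          δc (E := E) τ c (upd J ⟨t, x⟩ l) else 0) =
      if k = l ∧ τ k = t then -(c t : E) * δc τ c J else 0 := by
    intro t
    rw [Fintype.sum_prod_type, Fintype.sum_prod_type, ← Finset.sum_sub_distrib,
      Finset.sum_congr rfl fun u _ => hblock t u, Finset.sum_const, Finset.card_univ,
      Fintype.card_fin]
    by_cases hk : k = l ∧ τ k = t
    · rw [if_pos hk, if_pos hk, nsmul_eq_mul, ← mul_assoc]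
      congr 1
      by_cases hc : c t < 0
      · rw [if_pos hc, mul_one]
        have : ((c t).natAbs : ℤ) = -c t := by omega
        have h4 : (((c t).natAbs : ℤ) : E) = ((-c t : ℤ) : E) := by rw [this]
        rw [Int.cast_natCast, Int.cast_neg] at h4
        exact h4
      · rw [if_neg hc, mul_neg_one]
        have : ((c t).natAbs : ℤ) = c t := by omega
        have h4 : (((c t).natAbs : ℤ) : E) = ((c t : ℤ) : E) := by rw [this]
        rw [Int.cast_natCast] at h4
        rw [h4]
    · rw [if_neg hk, if_neg hk, nsmul_zero]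
  rw [Finset.sum_congr rfl fun t _ => hsum t]
  by_cases hk : k = l
  · rw [if_pos hk, Finset.sum_eq_single (τ k)]
    · rw [if_pos ⟨hk, rfl⟩]
    · intro t _ ht
      rw [if_neg fun h => ht h.2.symm]
    · intro h; exact (h (Finset.mem_univ _)).elim
  · rw [if_neg hk]
    exact Finset.sum_eq_zero fun t _ => if_neg fun h => hk h.1

end Pool.Agent.PTate
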