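import Pool.Agent.PTate.InvSlA

/-!
# Removing the additional determinants
-/

set_option autoImplicit false

noncomputable section

namespace Pool.Agent.PTate

open scoped Classical

section InvSlB

variable {E Q T I : Type} [Field E] [Fintype Q]

private theorem InvSlB_dt_type {τ : Q → T} {t : T} {K : {q // τ q = t} → Q}
    (h : dt (E := E) τ t K ≠ 0) (q : {q // τ q = t}) : τ (K q) = t := by
  by_contra hq
  refine h (Matrix.det_eq_zero_of_row_eq_zero q fun q' => ?_)
  rw [Matrix.of_apply, if_neg]
  intro h1
  rw [h1] at hq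
  exact hq q'.2

private theorem InvSlB_dt_int (τ : Q → T) (t : T) (K : {q // τ q = t} → Q) :
    dt (E := E) τ t K ∈ (Int.castRingHom E).range := by
  refine ⟨Matrix.det (Matrix.of fun q q' : {q // τ q = t} =>
    if K q = q' then (1 : ℤ) else 0), ?_⟩
  rw [RingHom.map_det]
  unfold dt
  congr 1
  ext q q'
  simp only [RingHom.mapMatrix_apply, Matrix.map_apply, Matrix.of_apply]
  split_ifs <;> simp

private theorem InvSlB_dt_id (τ : Q → T) (t : T) :
    dt (E := E) τ t (fun q => q.1) = 1 := by
  unfold dt
  have h : (Matrix.of fun q q' : {q // τ q = t} => if (q : Q) = q' then (1 : E) else 0) = 1 := by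
    ext q q'
    rw [Matrix.of_apply, Matrix.one_apply]
    exact if_congr Subtype.ext_iff.symm rfl rfl
  rw [h, Matrix.det_one]

/-- Products with arbitrary finite index types. -/
private theorem InvSlB_of_fintype [Fintype I] {A B : Type} [Fintype A] [Fintype B] {τ : Q → T}
    {ε : I → Bool} (θ : A → T) (t : B → T) (s : B → Bool)
    (π : (A × Bool) ⊕ (Σ b : B, {q // τ q = t b}) ≃ I)
    (h1 : ∀ a c, ε (π (.inl (a, c))) = c) (h2 : ∀ b q, ε (π (.inr ⟨b, q⟩)) = s b)
    {g : (I → Q) → E}
    (hg : ∀ K, g K = (∏ a, if K (π (.inl (a, true))) = K (π (.inl (a, false))) ∧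
        τ (K (π (.inl (a, true)))) = θ a then 1 else 0) *
      ∏ b, dt τ (t b) fun q => K (π (.inr ⟨b, q⟩))) : IsTProd τ ε g := by
  let eA := (Fintype.equivFin A).symm
  let eB := (Fintype.equivFin B).symm
  refine ⟨Fintype.card A, Fintype.card B, θ ∘ eA, t ∘ eB, s ∘ eB,
    (Equiv.sumCongr (eA.prodCongr (Equiv.refl Bool))
      (Equiv.sigmaCongrLeft (β := fun b => {q // τ q = t b}) eB)).trans π, ?_, ?_, ?_⟩
  · intro a c
    exact h1 (eA a) c
  · intro u q
    exact h2 (eB u) q
  · intro K
    rw [hg]
    congr 1
    · exact (Fintype.prod_equiv eA _ _ (fun a => rfl)).symm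
    · exact (Fintype.prod_equiv eB _ _ (fun a => rfl)).symm

variable [Fintype T]

private theorem InvSlB_dc_type {τ : Q → T} {c : T → ℤ} {J : Nc τ c → Q}
    (h : δc (E := E) τ c J ≠ 0) (x : Nc τ c) : τ (J x) = x.1 := by
  obtain ⟨t, u, q⟩ := x
  unfold δc at h
  rw [Finset.prod_ne_zero_iff] at h
  have h1 := h t (Finset.mem_univ t)
  rw [Finset.prod_ne_zero_iff] at h1
  exact InvSlB_dt_type (h1 u (Finset.mem_univ u)) q

private theorem InvSlB_sum_ne [CharZero E] (τ : Q → T) (c : T → ℤ) :
    (∑ J : Nc τ c → Q, δc (E := E) τ c J * δc τ c J) ≠ 0 := by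
  have h1 : ∀ J : Nc τ c → Q, ∃ z : ℤ, δc (E := E) τ c J = z := by
    intro J
    have h2 : δc (E := E) τ c J ∈ (Int.castRingHom E).range :=
      Subring.prod_mem _ fun t _ => Subring.prod_mem _ fun u _ => InvSlB_dt_int _ _ _
    obtain ⟨z, hz⟩ := h2
    exact ⟨z, hz.symm⟩
  choose z hz using h1
  have h3 : z (fun x => x.2.2.1) = 1 := by
    have h4 := hz (fun x => x.2.2.1)
    have h5 : δc (E := E) τ c (fun x => x.2.2.1) = 1 := by
      unfold δc
      exact Finset.prod_eq_one fun t _ => Finset.prod_eq_one fun u _ => InvSlB_dt_id τ t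
    rw [h5] at h4
    exact_mod_cast h4.symm
  have h6 : 0 < ∑ J, z J * z J := by
    refine Finset.sum_pos' (fun J _ => mul_self_nonneg _)
      ⟨fun x => x.2.2.1, Finset.mem_univ _, ?_⟩
    rw [h3]
    norm_num
  have h7 : (∑ J : Nc τ c → Q, δc (E := E) τ c J * δc τ c J) =
      ((∑ J, z J * z J : ℤ) : E) := by
    rw [Int.cast_sum]
    refine Finset.sum_congr rfl fun J _ => ?_
    rw [hz, Int.cast_mul]
  rw [h7]
  exact_mod_cast h6.ne'

private theorem InvSlB_main [Fintype I] (τ : Q → T) (ε : I → Bool) (c : T → ℤ)
    {g : (I ⊕ Nc τ c → Q) → E} (hg : IsGProd τ (Sum.elim ε (εc τ c)) g) :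
    (fun K : I → Q => ∑ J : Nc τ c → Q, δc τ c J * g (Sum.elim K J)) ∈
      Submodule.span E {g : (I → Q) → E | IsTProd τ ε g} := by
  obtain ⟨m, θ, π, hπ, hg⟩ := hg
  have hg' : ∀ K, g K = if ∀ a, (K (π (a, true)) = K (π (a, false)) ∧
      τ (K (π (a, true))) = θ a) then 1 else 0 := by
    intro K
    rw [hg]
    by_cases h : ∀ a, (K (π (a, true)) = K (π (a, false)) ∧ τ (K (π (a, true))) = θ a)
    · rw [if_pos h]
      exact Finset.prod_eq_one fun a _ => if_pos (h a)
    · rw [if_neg h]
      obtain ⟨a, ha⟩ := not_forall.1 h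
      exact Finset.prod_eq_zero (Finset.mem_univ a) (if_neg ha)
  by_cases hcase : ∃ a x y, π (a, true) = .inr x ∧ π (a, false) = .inr y
  · obtain ⟨a, x, y, hx, hy⟩ := hcase
    have h0 : (fun K : I → Q => ∑ J : Nc τ c → Q, δc (E := E) τ c J * g (Sum.elim K J)) = 0 := by
      funext K
      refine Finset.sum_eq_zero fun J _ => ?_
      by_cases hJ : δc (E := E) τ c J = 0
      · rw [hJ, zero_mul]
      · rw [hg', if_neg, mul_zero]
        intro h
        have h1 := (h a).1
        rw [hx, hy, Sum.elim_inr, Sum.elim_inr] at h1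
        have h2 := InvSlB_dc_type hJ x
        have h3 := InvSlB_dc_type hJ y
        have h4 := hπ a true
        have h5 := hπ a false
        rw [hx, Sum.elim_inr] at h4
        rw [hy, Sum.elim_inr] at h5
        rw [h1, h3] at h2
        unfold εc at h4 h5
        rw [h2, h4] at h5
        exact absurd h5 (by decide)
    rw [h0]
    exact Submodule.zero_mem _
  · -- the partners
    have hμ : ∀ x : Nc τ c, ∃ i : I,
        π ((π.symm (.inr x)).1, !(π.symm (.inr x)).2) = .inl i := by
      intro x
      have h1 : π ((π.symm (.inr x)).1, (π.symm (.inr x)).2) = .inr x :=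
        π.apply_symm_apply (.inr x)
      rcases h2 : π ((π.symm (.inr x)).1, !(π.symm (.inr x)).2) with i | y
      · exact ⟨i, rfl⟩
      · exfalso
        apply hcase
        rcases h3 : (π.symm (.inr x)).2 with _ | _
        · rw [h3] at h1 h2
          exact ⟨_, y, x, h2, h1⟩
        · rw [h3] at h1 h2
          exact ⟨_, x, y, h1, h2⟩
    choose μ hμ using hμ
    have k1 : ∀ x : Nc τ c, π ((π.symm (.inr x)).1, (π.symm (.inr x)).2) = .inr x :=
      fun x => π.apply_symm_apply (.inr x)
    have k2 : ∀ x : Nc τ c, (π.symm (.inr x)).2 = εc τ c x := by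
      intro x
      have h1 := hπ (π.symm (.inr x)).1 (π.symm (.inr x)).2
      rw [k1 x, Sum.elim_inr] at h1
      exact h1.symm
    have k3 : ∀ x : Nc τ c, ε (μ x) = !(εc τ c x) := by
      intro x
      have h1 := hπ (π.symm (.inr x)).1 (!(π.symm (.inr x)).2)
      rw [hμ x, Sum.elim_inl, k2] at h1
      exact h1
    -- the pair of `x`
    have k4 : ∀ (x : Nc τ c) (a : Fin m) (b : Bool), π (a, b) = .inr x →
        a = (π.symm (.inr x)).1 ∧ b = (π.symm (.inr x)).2 := by
      intro x a b h
      have h1 : π.symm (.inr x) = (a, b) := by rw [← h, π.symm_apply_apply]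
      rw [h1]
      exact ⟨rfl, rfl⟩
    have k5 : ∀ (L : I ⊕ Nc τ c → Q) (a : Fin m),
        (L (π (a, true)) = L (π (a, false)) ∧ τ (L (π (a, true))) = θ a) ↔
          ∀ b, L (π (a, b)) = L (π (a, !b)) ∧ τ (L (π (a, b))) = θ a := by
      intro L a
      constructor
      · rintro ⟨h1, h2⟩ b
        rcases b with _ | _
        · exact ⟨h1.symm, h1 ▸ h2⟩
        · exact ⟨h1, h2⟩
      · intro h
        exact h true
    have k6 : ∀ (K : I → Q) (J : Nc τ c → Q),
        (∀ a, ((Sum.elim K J) (π (a, true)) = (Sum.elim K J) (π (a, false)) ∧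
          τ ((Sum.elim K J) (π (a, true))) = θ a)) → J = fun x => K (μ x) := by
      intro K J h
      funext x
      have h1 := ((k5 _ _).1 (h (π.symm (.inr x)).1) (π.symm (.inr x)).2).1
      rw [k1, hμ, Sum.elim_inr, Sum.elim_inl] at h1
      exact h1
    have k7 : ∀ K : I → Q, ∑ J : Nc τ c → Q, δc (E := E) τ c J * g (Sum.elim K J) =
        δc τ c (fun x => K (μ x)) * g (Sum.elim K fun x => K (μ x)) := by
      intro K
      refine Finset.sum_eq_single _ (fun J _ hJ => ?_) (fun h => absurd (Finset.mem_univ _) h)
      rw [hg', if_neg, mul_zero]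
      intro h
      exact hJ (k6 K J h)
    simp only [k7]
    by_cases hθ : ∀ x : Nc τ c, θ (π.symm (.inr x)).1 = x.1
    · refine Submodule.subset_span ?_
      change IsTProd τ ε _
      let A : Type := {a : Fin m // ∀ b, ∃ i, π (a, b) = .inl i}
      have hι : ∀ (a : A) (b : Bool), ∃ i, π (a.1, b) = .inl i := fun a b => a.2 b
      choose ι hι using hι
      let F : (A × Bool) ⊕ (Σ b : (Σ t : T, Fin (c t).natAbs), {q // τ q = b.1}) → I :=
        Sum.elim (fun y => ι y.1 y.2) (fun y => μ ⟨y.1.1, (y.1.2, y.2)⟩)
      have hF : Function.Bijective F := by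
        constructor
        · rintro (⟨a, b⟩ | ⟨⟨t, u⟩, q⟩) (⟨a', b'⟩ | ⟨⟨t', u'⟩, q'⟩) h
          · have h1 : π (a.1, b) = π (a'.1, b') := by
              rw [hι, hι]
              exact congrArg Sum.inl h
            have h2 := π.injective h1
            rw [Prod.mk.injEq] at h2
            rw [Subtype.ext h2.1, h2.2]
          · exfalso
            have h1 : π (a.1, b) = .inl (μ ⟨t', (u', q')⟩) := by
              rw [hι]
              exact congrArg Sum.inl h
            rw [← hμ] at h1
            have h2 := (Prod.mk.inj (π.injective h1)).1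
            obtain ⟨i, hi⟩ := a.2 (π.symm (.inr ⟨t', (u', q')⟩)).2
            rw [h2, k1] at hi
            exact absurd hi (by simp)
          · exfalso
            have h1 : π (a'.1, b') = .inl (μ ⟨t, (u, q)⟩) := by
              rw [hι]
              exact congrArg Sum.inl h.symm
            rw [← hμ] at h1
            have h2 := (Prod.mk.inj (π.injective h1)).1
            obtain ⟨i, hi⟩ := a'.2 (π.symm (.inr ⟨t, (u, q)⟩)).2
            rw [h2, k1] at hi
            exact absurd hi (by simp)
          · have h0 : μ ⟨t, (u, q)⟩ = μ ⟨t', (u', q')⟩ := h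
            have h1 := hμ ⟨t, (u, q)⟩
            rw [h0, ← hμ ⟨t', (u', q')⟩] at h1
            have h2 := Prod.mk.inj (π.injective h1)
            have h3 : π.symm (.inr ⟨t, (u, q)⟩) = π.symm (.inr ⟨t', (u', q')⟩) := by
              refine Prod.ext h2.1 ?_
              have h4 := h2.2
              revert h4
              cases (π.symm (.inr ⟨t, (u, q)⟩)).2 <;>
                cases (π.symm (.inr ⟨t', (u', q')⟩)).2 <;> simp
            have h5 := Sum.inr_injective (π.symm.injective h3)
            cases h5
            rfl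
        · intro i
          obtain ⟨⟨a, b⟩, hab⟩ := π.surjective (.inl i)
          by_cases ha : ∀ b, ∃ i, π (a, b) = .inl i
          · refine ⟨.inl (⟨a, ha⟩, b), ?_⟩
            have h1 := hι ⟨a, ha⟩ b
            rw [hab] at h1
            exact (Sum.inl_injective h1).symm
          · obtain ⟨b', hb'⟩ := not_forall.1 ha
            rcases hx : π (a, b') with i' | ⟨t, u, q⟩
            · exact absurd ⟨i', hx⟩ hb'
            · refine ⟨.inr ⟨⟨t, u⟩, q⟩, ?_⟩
              obtain ⟨h1, h2⟩ := k4 _ _ _ hx
              have hbb : b = !b' := by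
                rcases b with _ | _ <;> rcases b' with _ | _
                · rw [hab] at hx
                  exact absurd hx (by simp)
                · rfl
                · rfl
                · rw [hab] at hx
                  exact absurd hx (by simp)
              have h3 := hμ ⟨t, (u, q)⟩
              rw [← h1, ← h2, ← hbb, hab] at h3
              exact (Sum.inl_injective h3).symm
      refine InvSlB_of_fintype (A := A) (B := Σ t : T, Fin (c t).natAbs) (fun a => θ a.1)
        (fun b => b.1) (fun b => !decide (c b.1 < 0)) (Equiv.ofBijective F hF) ?_ ?_ ?_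
      · intro a b
        have h1 := hπ a.1 b
        rw [hι, Sum.elim_inl] at h1
        exact h1
      · rintro ⟨t, u⟩ q
        exact k3 ⟨t, (u, q)⟩
      · intro K
        have e1 : (∏ b : (Σ t : T, Fin (c t).natAbs), dt (E := E) τ b.1 fun q =>
            K (Equiv.ofBijective F hF (.inr ⟨b, q⟩))) = δc τ c (fun x => K (μ x)) := by
          rw [Fintype.prod_sigma]
          rfl
        rw [e1, mul_comm]
        by_cases hd : δc (E := E) τ c (fun x => K (μ x)) = 0
        · rw [hd, mul_zero, mul_zero]
        congr 1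
        rw [hg']
        by_cases hP : ∀ a : A, (K (ι a true) = K (ι a false) ∧ τ (K (ι a true)) = θ a.1)
        · rw [if_pos]
          · symm
            exact Finset.prod_eq_one fun a _ => if_pos (hP a)
          · intro a
            by_cases ha : ∀ b, ∃ i, π (a, b) = .inl i
            · have h1 := hι ⟨a, ha⟩ true
              have h2 := hι ⟨a, ha⟩ false
              simp only at h1 h2
              rw [h1, h2, Sum.elim_inl, Sum.elim_inl]
              exact hP ⟨a, ha⟩
            · obtain ⟨b', hb'⟩ := not_forall.1 ha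
              rcases hx : π (a, b') with i' | x
              · exact absurd ⟨i', hx⟩ hb'
              · obtain ⟨h1, h2⟩ := k4 _ _ _ hx
                have h3 := hμ x
                rw [← h1, ← h2] at h3
                have h4 : τ (K (μ x)) = θ a := by
                  rw [h1, hθ x]
                  exact InvSlB_dc_type hd x
                rcases b' with _ | _
                · rw [Bool.not_false] at h3
                  rw [h3, hx, Sum.elim_inl, Sum.elim_inr]
                  exact ⟨rfl, h4⟩
                · rw [Bool.not_true] at h3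
                  rw [h3, hx, Sum.elim_inl, Sum.elim_inr]
                  exact ⟨rfl, h4⟩
        · rw [if_neg]
          · obtain ⟨a, ha⟩ := not_forall.1 hP
            symm
            exact Finset.prod_eq_zero (Finset.mem_univ a) (if_neg ha)
          · intro h
            apply hP
            intro a
            have h1 := h a.1
            rw [hι a true, hι a false, Sum.elim_inl, Sum.elim_inl] at h1
            exact h1
    · obtain ⟨x, hx⟩ := not_forall.1 hθ
      have h0 : (fun K : I → Q => δc (E := E) τ c (fun x => K (μ x)) *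
          g (Sum.elim K fun x => K (μ x))) = 0 := by
        funext K
        by_cases hd : δc (E := E) τ c (fun x => K (μ x)) = 0
        · rw [hd, zero_mul]
          rfl
        · rw [hg', if_neg, mul_zero]
          · rfl
          · intro h
            have h1 := ((k5 _ _).1 (h (π.symm (.inr x)).1) (π.symm (.inr x)).2).2
            rw [k1, Sum.elim_inr] at h1
            have h2 := InvSlB_dc_type hd x
            exact hx (h1.symm.trans h2)
      rw [h0]
      exact Submodule.zero_mem _

end InvSlB

/-- If the product of a tensor with the determinants `δc` is a linear combination of products of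
contractions, then the tensor is a linear combination of products of contractions and
determinants. -/
theorem sl_of_gl {E Q T I : Type} [Field E] [CharZero E] [Fintype Q] [Fintype T] [Fintype I]
    (τ : Q → T) (ε : I → Bool) (c : T → ℤ) (f : (I → Q) → E)
    (h : (fun K : I ⊕ Nc τ c → Q => f (K ∘ Sum.inl) * δc τ c (K ∘ Sum.inr)) ∈
      Submodule.span E {g | IsGProd τ (Sum.elim ε (εc τ c)) g}) :
    f ∈ Submodule.span E {g : (I → Q) → E | IsTProd τ ε g} := by
  let A : ((I ⊕ Nc τ c → Q) → E) →ₗ[E] ((I → Q) → E) :=
    ∑ J : Nc τ c → Q, δc (E := E) τ c J •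
      LinearMap.funLeft E E (fun K : I → Q => Sum.elim K J)
  have hA : ∀ F, A F = fun K => ∑ J : Nc τ c → Q, δc (E := E) τ c J * F (Sum.elim K J) := by
    intro F
    funext K
    simp only [A, LinearMap.sum_apply, Finset.sum_apply, LinearMap.smul_apply, Pi.smul_apply,
      LinearMap.funLeft_apply, smul_eq_mul]
  have h1 : Submodule.span E {g | IsGProd τ (Sum.elim ε (εc τ c)) g} ≤
      (Submodule.span E {g : (I → Q) → E | IsTProd τ ε g}).comap A := by
    refine Submodule.span_le.2 fun g hg => ?_
    change A g ∈ Submodule.span E {g : (I → Q) → E | IsTProd τ ε g}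
    rw [hA]
    exact InvSlB_main τ ε c hg
  have h2 : A (fun K : I ⊕ Nc τ c → Q => f (K ∘ Sum.inl) * δc τ c (K ∘ Sum.inr)) ∈
      Submodule.span E {g : (I → Q) → E | IsTProd τ ε g} := h1 h
  have h3 : A (fun K : I ⊕ Nc τ c → Q => f (K ∘ Sum.inl) * δc τ c (K ∘ Sum.inr)) =
      (∑ J : Nc τ c → Q, δc (E := E) τ c J * δc τ c J) • f := by
    rw [hA]
    funext K
    rw [Pi.smul_apply, smul_eq_mul, Finset.sum_mul]
    refine Finset.sum_congr rfl fun J _ => ?_
    rw [Sum.elim_comp_inl, Sum.elim_comp_inr]
    ring
  rw [h3] at h2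
  have h4 := Submodule.smul_mem _ (∑ J : Nc τ c → Q, δc (E := E) τ c J * δc τ c J)⁻¹ h2
  rwa [smul_smul, inv_mul_cancel₀ (InvSlB_sum_ne τ c), one_smul] at h4

end Pool.Agent.PTate
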