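import Pool.Agent.PTate.Stm

/-!
# Tate classes on powers of products of Jacobians of cyclic coverings: products of pairings and
determinants
-/

set_option autoImplicit false

noncomputable section

namespace Pool.Agent.PTate.Stm

open Polynomial
open scoped Classical

/-- The action of an automorphism on the Tate module. -/
def mvT {p : ℕ} {O : Type} [CommRing O] (e : O ≃+* O) (t : Tate p O) : Tate p O where
  pt k := J.map e (t.pt k)
  zero := by rw [t.zero, map_zero]
  mul n := by rw [← map_nsmul, t.mul]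

/-- `D` is a determinant: an alternating form on the Tate module, linear over the p-adic integers,
with values in the algebraic closure of the field of p-adic numbers, which is multiplied by the
fixed power `ζ ^ a`, `0 < a < p`, if the automorphism `y ↦ ξ₁ y` of the curve is applied to one
variable. -/
structure IsDet {L : Type} [Field L] {p : ℕ} [Fact p.Prime] {f : L[X]} (ξ : ℕ → L)
    (ζ : AlgebraicClosure ℚ_[p]) {d : ℕ}
    (D : (Fin d → Tate p (Co L p f)) → AlgebraicClosure ℚ_[p]) : Prop where
  add : ∀ (v : Fin d → Tate p (Co L p f)) (i : Fin d) (t u w : Tate p (Co L p f)),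
    (∀ k, t.pt k = u.pt k + w.pt k) →
      D (Function.update v i t) = D (Function.update v i u) + D (Function.update v i w)
  smul : ∀ (c : ℤ_[p]) (v : Fin d → Tate p (Co L p f)) (i : Fin d) (t u : Tate p (Co L p f)),
    (∀ k, t.pt k = (PadicInt.toZModPow k c).val • u.pt k) →
      D (Function.update v i t) = algebraMap ℤ_[p] _ c * D (Function.update v i u)
  alt : ∀ (v : Fin d → Tate p (Co L p f)) (i j : Fin d), i ≠ j → v i = v j → D v = 0
  eig : ∃ a, 0 < a ∧ a < p ∧ ∀ e : Co L p f ≃+* Co L p f, IsAuto (RingEquiv.refl L) (ξ 1) e →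
    ∀ (v : Fin d → Tate p (Co L p f)) (i : Fin d),
      D (Function.update v i (mvT e (v i))) = ζ ^ a * D v

variable {K : Type} [Field K] {L : Type} [Field L] [Algebra K L] {p : ℕ} [Fact p.Prime]
  {ι σ : Type} {a : ι → K} {S : σ → Finset ι} {m : σ → ι → ℕ} {n r : ℕ}

/-- `g` is a product of Weil pairings of single factors, where automorphisms `y ↦ c y` of the
curves may be applied to the first variables. -/
def IsPProduct (ξ : ℕ → L) (g : (Fin r → Vec L p a S m n) → ℚ_[p]) : Prop :=
  ∃ (k : ℕ) (s : Fin k → σ) (i : Fin k → ℕ)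
    (e : ∀ l, Co L p (eqn L a (S (s l)) (m (s l))) ≃+* Co L p (eqn L a (S (s l)) (m (s l))))
    (π : Fin k × Bool ≃ Fin r) (β : Fin r → Fin n),
    (∀ l, IsAuto (RingEquiv.refl L) (ξ 1 ^ i l) (e l)) ∧
    ∀ v, g v = ∏ l, ((pairing (algebraMap L[X] _ X) ξ
      (mvT (e l) (v (π (l, true)) (β (π (l, true))) (s l)))
      (v (π (l, false)) (β (π (l, false))) (s l)) : ℤ_[p]) : ℚ_[p])

/-- `g` is a product of Weil pairings of single factors, where automorphisms `y ↦ c y` of the
curves may be applied to the first variables, and of determinants; the number of variables of a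
determinant is the number of the branch points minus one, the points at infinity not counted. -/
def IsProduct (ξ : ℕ → L) (ζ : AlgebraicClosure ℚ_[p])
    (g : (Fin r → Vec L p a S m n) → AlgebraicClosure ℚ_[p]) : Prop :=
  ∃ (k l : ℕ) (s : Fin k → σ) (i : Fin k → ℕ)
    (e : ∀ l, Co L p (eqn L a (S (s l)) (m (s l))) ≃+* Co L p (eqn L a (S (s l)) (m (s l))))
    (t : Fin l → σ)
    (D : ∀ u, (Fin ((S (t u)).card - 1) → Tate p (Co L p (eqn L a (S (t u)) (m (t u))))) →
      AlgebraicClosure ℚ_[p])
    (π : (Fin k × Bool) ⊕ (Σ u : Fin l, Fin ((S (t u)).card - 1)) ≃ Fin r) (β : Fin r → Fin n),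
    (∀ l, IsAuto (RingEquiv.refl L) (ξ 1 ^ i l) (e l)) ∧ (∀ u, IsDet ξ ζ (D u)) ∧
    ∀ v, g v = (∏ l, algebraMap ℤ_[p] _ (pairing (algebraMap L[X] _ X) ξ
        (mvT (e l) (v (π (.inl (l, true))) (β (π (.inl (l, true)))) (s l)))
        (v (π (.inl (l, false))) (β (π (.inl (l, false)))) (s l)))) *
      ∏ u, D u fun c => v (π (.inr ⟨u, c⟩)) (β (π (.inr ⟨u, c⟩))) (t u)

/-- `g` is multiplied by the `j`-th power of the cyclotomic character under a subgroup of finite
index of the Galois group. -/
def IsTateE (j : ℕ) (g : (Fin r → Vec L p a S m n) → AlgebraicClosure ℚ_[p]) : Prop :=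
  ∃ U : Subgroup (L ≃ₐ[K] L), U.FiniteIndex ∧ ∀ h ∈ U,
    ∀ e : ∀ s, Co L p (eqn L a (S s) (m s)) ≃+* Co L p (eqn L a (S s) (m s)),
      (∀ s, IsAuto (h : L ≃+* L) 1 (e s)) → ∀ v : Fin r → Vec L p a S m n,
        g (fun i b s => mvT (e s) (v i b s)) =
          algebraMap ℤ_[p] _ ((cyclotomicCharacter L p (h : L ≃+* L) : ℤ_[p]) ^ j) * g v

end Pool.Agent.PTate.Stm
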