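import Pool.Agent.PTate.Zeros

/-!
# The group of divisor classes
-/

set_option autoImplicit false

noncomputable section

namespace Pool.Agent.PTate

open Polynomial
open scoped Classical

section Div

variable {O : Type} [CommRing O]

private theorem jGrp_dv_zero : dv (0 : Multiset (MaximalSpectrum O)) = 0 := by
  simp [dv]

private theorem jGrp_dv_add (s t : Multiset (MaximalSpectrum O)) :
    dv (s + t) = dv s + dv t := by
  simp [dv]

private theorem jGrp_dv_cons (P : MaximalSpectrum O) (s : Multiset (MaximalSpectrum O)) :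
    dv (P ::ₘ s) = Finsupp.single P 1 + dv s := by
  simp [dv]

private theorem jGrp_dv_apply (s : Multiset (MaximalSpectrum O)) (P : MaximalSpectrum O) :
    dv s P = (s.count P : ℤ) := by
  induction s using Multiset.induction_on with
  | empty => simp [jGrp_dv_zero]
  | cons Q s ih =>
    rw [jGrp_dv_cons, Finsupp.add_apply, ih, Multiset.count_cons, Finsupp.single_apply]
    by_cases h : Q = P
    · subst h
      simp only [if_true]
      push_cast
      ring
    · rw [if_neg h, if_neg (fun h' => h h'.symm)]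
      simp

private theorem jGrp_dv_inj {s t : Multiset (MaximalSpectrum O)} (h : dv s = dv t) : s = t := by
  ext P
  have h1 := DFunLike.congr_fun h P
  rw [jGrp_dv_apply, jGrp_dv_apply] at h1
  exact_mod_cast h1

private theorem jGrp_prin_zero : Prin (0 : Multiset (MaximalSpectrum O)) :=
  ⟨1, by rw [idl_zero, Ideal.span_singleton_one]⟩

private theorem jGrp_prin_add {s t : Multiset (MaximalSpectrum O)} (hs : Prin s)
    (ht : Prin t) : Prin (s + t) := by
  obtain ⟨α, hα⟩ := hs
  obtain ⟨β, hβ⟩ := ht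
  refine ⟨α * β, ?_⟩
  rw [← Ideal.span_singleton_mul_span_singleton, hα, hβ, idl_add]

private theorem jGrp_mem_closure {D : MaximalSpectrum O →₀ ℤ}
    (h : D ∈ AddSubgroup.closure {D | ∃ s : Multiset (MaximalSpectrum O), Prin s ∧ D = dv s}) :
    ∃ s₁ s₂ : Multiset (MaximalSpectrum O), Prin s₁ ∧ Prin s₂ ∧ D = dv s₁ - dv s₂ := by
  induction h using AddSubgroup.closure_induction with
  | mem D hD =>
    obtain ⟨s, hs, rfl⟩ := hD
    exact ⟨s, 0, hs, jGrp_prin_zero, by rw [jGrp_dv_zero, sub_zero]⟩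
  | zero => exact ⟨0, 0, jGrp_prin_zero, jGrp_prin_zero, by rw [sub_self]⟩
  | add D D' _ _ h h' =>
    obtain ⟨s₁, s₂, h1, h2, rfl⟩ := h
    obtain ⟨t₁, t₂, g1, g2, rfl⟩ := h'
    refine ⟨s₁ + t₁, s₂ + t₂, jGrp_prin_add h1 g1, jGrp_prin_add h2 g2, ?_⟩
    rw [jGrp_dv_add, jGrp_dv_add]
    abel
  | neg D _ h =>
    obtain ⟨s₁, s₂, h1, h2, rfl⟩ := h
    exact ⟨s₂, s₁, h2, h1, by abel⟩

private theorem jGrp_sum_cl (s : Multiset (MaximalSpectrum O)) :
    (s.map cl).sum = (QuotientAddGroup.mk (dv s) : J O) := by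
  induction s using Multiset.induction_on with
  | empty =>
    rw [jGrp_dv_zero]
    rfl
  | cons Q s ih =>
    rw [Multiset.map_cons, Multiset.sum_cons, ih, jGrp_dv_cons]
    rfl

private theorem jGrp_mk_dv {s : Multiset (MaximalSpectrum O)} (hs : Prin s) :
    (QuotientAddGroup.mk (dv s) : J O) = 0 :=
  (QuotientAddGroup.eq_zero_iff _).2 (AddSubgroup.subset_closure ⟨s, hs, rfl⟩)

end Div

variable {k O : Type} [Field k] [CommRing O] [Algebra k O] [IsDedekindDomain O]

private theorem jGrp_cancel (I : Infty k O) {s s₁ s₂ : Multiset (MaximalSpectrum O)}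
    (h₁ : Prin s₁) (h₂ : Prin s₂) (h : s + s₂ = s₁) : Prin s := by
  obtain ⟨a₁, ha₁⟩ := h₁
  obtain ⟨a₂, ha₂⟩ := h₂
  have h0 : a₂ ≠ 0 := ne_zero_of_span I ha₂
  have h1 : Ideal.span {a₁} = idl s * Ideal.span {a₂} := by
    rw [ha₁, ha₂, ← h, idl_add]
  have h2 : a₂ ∣ a₁ := by
    rw [← Ideal.mem_span_singleton]
    have h3 : a₁ ∈ idl s * Ideal.span {a₂} := by
      rw [← h1]
      exact Ideal.mem_span_singleton_self _
    exact Ideal.mul_le_right h3
  obtain ⟨b, rfl⟩ := h2
  refine ⟨b, ?_⟩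
  rw [← Ideal.span_singleton_mul_span_singleton, mul_comm (idl s)] at h1
  exact (Ideal.span_singleton_mul_right_inj h0).1 h1

theorem sum_cl_eq_zero_iff (I : Infty k O) (s : Multiset (MaximalSpectrum O)) :
    (s.map cl).sum = 0 ↔ Prin s := by
  rw [jGrp_sum_cl]
  refine ⟨fun h => ?_, jGrp_mk_dv⟩
  obtain ⟨s₁, s₂, h1, h2, h3⟩ := jGrp_mem_closure ((QuotientAddGroup.eq_zero_iff _).1 h)
  refine jGrp_cancel I h1 h2 (jGrp_dv_inj ?_)
  rw [jGrp_dv_add, h3, sub_add_cancel]

theorem sum_cl_eq_iff (I : Infty k O) (s t : Multiset (MaximalSpectrum O)) :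
    (s.map cl).sum = (t.map cl).sum ↔
      ∃ α β : O, α ≠ 0 ∧ β ≠ 0 ∧ Ideal.span {α} * idl s = Ideal.span {β} * idl t := by
  constructor
  · intro h
    have h0 : (QuotientAddGroup.mk (dv s - dv t) : J O) = 0 := by
      rw [QuotientAddGroup.mk_sub, ← jGrp_sum_cl, ← jGrp_sum_cl, h, sub_self]
    obtain ⟨u, v, ⟨a, ha⟩, ⟨b, hb⟩, h3⟩ :=
      jGrp_mem_closure ((QuotientAddGroup.eq_zero_iff _).1 h0)
    refine ⟨b, a, ne_zero_of_span I hb, ne_zero_of_span I ha, ?_⟩
    rw [ha, hb, ← idl_add, ← idl_add]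
    congr 1
    apply jGrp_dv_inj
    rw [jGrp_dv_add, jGrp_dv_add]
    have h4 := sub_eq_sub_iff_add_eq_add.1 h3
    rw [add_comm, h4]
  · rintro ⟨α, β, hα, hβ, h⟩
    have hα' : Ideal.span {α} ≠ ⊥ := by rwa [Ne, Ideal.span_singleton_eq_bot]
    have hβ' : Ideal.span {β} ≠ ⊥ := by rwa [Ne, Ideal.span_singleton_eq_bot]
    obtain ⟨v, hv⟩ := exists_idl I hα'
    obtain ⟨u, hu⟩ := exists_idl I hβ'
    rw [← hv, ← hu, ← idl_add, ← idl_add] at h
    have h1 := idl_injective I h
    have h2 : (v.map cl).sum = 0 := (sum_cl_eq_zero_iff I v).2 ⟨α, hv.symm⟩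
    have h3 : (u.map cl).sum = 0 := (sum_cl_eq_zero_iff I u).2 ⟨β, hu.symm⟩
    have h4 := congrArg (fun w : Multiset (MaximalSpectrum O) => (w.map cl).sum) h1
    simp only [Multiset.map_add, Multiset.sum_add] at h4
    rwa [h2, h3, zero_add, zero_add] at h4

private theorem jGrp_neg (I : Infty k O) (P : MaximalSpectrum O) :
    ∃ s : Multiset (MaximalSpectrum O), -cl P = (s.map cl).sum := by
  obtain ⟨z, hz, hz0⟩ := Submodule.exists_mem_ne_zero_of_ne_bot (point_ne_bot I P)
  have hz' : Ideal.span {z} ≠ ⊥ := by rwa [Ne, Ideal.span_singleton_eq_bot]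
  obtain ⟨t, ht⟩ := exists_idl I hz'
  have hP : P ∈ t := (mem_iff I ht.symm P).2 hz
  obtain ⟨t', rfl⟩ := Multiset.exists_cons_of_mem hP
  refine ⟨t', ?_⟩
  have h1 := (sum_cl_eq_zero_iff I (P ::ₘ t')).2 ⟨z, ht.symm⟩
  rw [Multiset.map_cons, Multiset.sum_cons] at h1
  exact neg_eq_of_add_eq_zero_right h1

theorem exists_multiset (I : Infty k O) (c : J O) :
    ∃ s : Multiset (MaximalSpectrum O), c = (s.map cl).sum := by
  obtain ⟨D, rfl⟩ := QuotientAddGroup.mk_surjective c
  induction D using Finsupp.induction_linear with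
  | zero => exact ⟨0, by simp⟩
  | add D D' h h' =>
    obtain ⟨s, hs⟩ := h
    obtain ⟨t, ht⟩ := h'
    refine ⟨s + t, ?_⟩
    rw [Multiset.map_add, Multiset.sum_add, ← hs, ← ht]
    rfl
  | single P n =>
    have h1 : (QuotientAddGroup.mk (Finsupp.single P n) : J O) = n • cl P := by
      have h2 : Finsupp.single P n = n • Finsupp.single P (1 : ℤ) := by
        rw [Finsupp.smul_single, smul_eq_mul, mul_one]
      rw [h2]
      rfl
    rw [h1]
    rcases Int.eq_nat_or_neg n with ⟨m, rfl | rfl⟩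
    · refine ⟨Multiset.replicate m P, ?_⟩
      rw [Multiset.map_replicate, Multiset.sum_replicate, natCast_zsmul]
    · obtain ⟨t, ht⟩ := jGrp_neg I P
      refine ⟨m • t, ?_⟩
      rw [Multiset.map_nsmul, Multiset.sum_nsmul, ← ht, neg_zsmul, natCast_zsmul,
        neg_nsmul]

omit [IsDedekindDomain O] in
theorem J_hom_ext {A : Type} [AddCommGroup A] {φ ψ : J O →+ A}
    (h : ∀ P, φ (cl P) = ψ (cl P)) : φ = ψ := by
  refine QuotientAddGroup.addMonoidHom_ext _ (Finsupp.addHom_ext fun P n => ?_)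
  have h2 : Finsupp.single P n = n • Finsupp.single P (1 : ℤ) := by
    rw [Finsupp.smul_single, smul_eq_mul, mul_one]
  rw [h2, map_zsmul, map_zsmul]
  exact congrArg (n • ·) (h P)

/-- every class contains an effective divisor which avoids finitely many given points -/
theorem exists_avoid (I : Infty k O) (c : J O) (Z : Finset (MaximalSpectrum O)) :
    ∃ s : Multiset (MaximalSpectrum O), (∀ P ∈ s, P ∉ Z) ∧ (s.map cl).sum = c := by
  rcases Z.eq_empty_or_nonempty with rfl | ⟨P0, hP0⟩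
  · obtain ⟨s, hs⟩ := exists_multiset I c
    exact ⟨s, fun P _ => Finset.notMem_empty P, hs.symm⟩
  · obtain ⟨s0, hs0⟩ := exists_multiset I (-c)
    have hB : idl s0 ≠ ⊥ := idl_ne_bot I s0
    have hW : idl Z.val ≠ ⊥ := idl_ne_bot I Z.val
    have hle : idl s0 * idl Z.val ≤ idl s0 := Ideal.mul_le_left
    obtain ⟨a, ha⟩ := IsDedekindDomain.exists_sup_span_eq hle (mul_ne_zero hB hW)
    have haB : a ∈ idl s0 := by
      rw [← ha]
      exact Submodule.mem_sup_right (Ideal.mem_span_singleton_self a)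
    have hnot : ∀ P ∈ Z, a ∉ idl s0 * P.asIdeal := by
      intro P hP h
      have hWP : idl Z.val ≤ P.asIdeal := by
        obtain ⟨t, ht⟩ := Multiset.exists_cons_of_mem (show P ∈ Z.val from hP)
        rw [ht, idl_cons]
        exact Ideal.mul_le_left
      have h1 : idl s0 ≤ idl s0 * P.asIdeal := by
        conv_lhs => rw [← ha]
        refine sup_le (Ideal.mul_mono_right hWP) ?_
        rw [Ideal.span_singleton_le_iff_mem]
        exact h
      have h2 : idl s0 * P.asIdeal = idl s0 * 1 := by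
        rw [mul_one]
        exact le_antisymm Ideal.mul_le_left h1
      have h3 := mul_left_cancel₀ hB h2
      exact P.isMaximal.ne_top (h3.trans Ideal.one_eq_top)
    have ha0 : a ≠ 0 := by
      rintro rfl
      exact hnot P0 hP0 (Ideal.zero_mem _)
    have h1 : idl s0 ∣ Ideal.span {a} := by
      rw [Ideal.dvd_iff_le, Ideal.span_singleton_le_iff_mem]
      exact haB
    obtain ⟨C, hC⟩ := h1
    have hC0 : C ≠ ⊥ := by
      rintro rfl
      rw [Ideal.mul_bot, Ideal.span_singleton_eq_bot] at hC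
      exact ha0 hC
    obtain ⟨s, rfl⟩ := exists_idl I hC0
    refine ⟨s, fun P hP hPZ => ?_, ?_⟩
    · apply hnot P hPZ
      obtain ⟨t, rfl⟩ := Multiset.exists_cons_of_mem hP
      rw [idl_cons, ← mul_assoc] at hC
      have h2 : a ∈ idl s0 * P.asIdeal * idl t := by
        rw [← hC]
        exact Ideal.mem_span_singleton_self a
      exact Ideal.mul_le_left h2
    · have h2 : ((s0 + s).map cl).sum = 0 :=
        (sum_cl_eq_zero_iff I _).2 ⟨a, by rw [idl_add, hC]⟩
      rw [Multiset.map_add, Multiset.sum_add, ← hs0] at h2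
      exact (neg_add_eq_zero.1 h2).symm

end Pool.Agent.PTate
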