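import Pool.Agent.PTate.Lam
import Pool.Agent.PTate.Fixed
import Pool.Agent.PTate.PolyZ

/-!
# Multiplication by `p` and by `1 - σ`
-/

set_option autoImplicit false

noncomputable section

namespace Pool.Agent.PTate

open Polynomial
open scoped Classical

section Gen

variable {A : Type} [AddCommGroup A]

private theorem jlam_sum {p : ℕ} {s : Module.End ℤ A}
    (h : ∀ c, ∑ i ∈ Finset.range p, s^[i] c = 0) :
    aeval s (∑ i ∈ Finset.range p, (X : ℤ[X]) ^ i) = 0 := by
  rw [map_sum]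
  refine LinearMap.ext fun c => ?_
  simp only [map_pow, aeval_X, LinearMap.sum_apply, Module.End.pow_apply, LinearMap.zero_apply]
  exact h c

private theorem jlam_D {s : Module.End ℤ A} {D : A → A} (hD : ∀ c, D c = c - s c) (n : ℕ)
    (c : A) : aeval s ((1 - X : ℤ[X]) ^ n) c = D^[n] c := by
  have h : D = ⇑(1 - s) := funext hD
  rw [map_pow, map_sub, map_one, aeval_X, Module.End.pow_apply, h]

private theorem jlam_p (s : Module.End ℤ A) (p : ℕ) (c : A) :
    aeval s (p : ℤ[X]) c = p • c := by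
  rw [map_natCast]
  exact Module.End.natCast_apply p c

private theorem jlam_iff {p : ℕ} [Fact p.Prime] {s : Module.End ℤ A}
    (h : ∀ c, ∑ i ∈ Finset.range p, s^[i] c = 0) {D : A → A} (hD : ∀ c, D c = c - s c) (c : A) :
    p • c = 0 ↔ D^[p - 1] c = 0 := by
  constructor
  · intro h1
    obtain ⟨q, v, hqv⟩ := exists_poly_one (p := p)
    rw [← jlam_D hD, hqv, map_add, map_mul _ (∑ i ∈ Finset.range p, X ^ i), jlam_sum h, zero_mul,
      add_zero, mul_comm, map_mul]
    show (aeval s q) (aeval s (p : ℤ[X]) c) = 0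
    rw [jlam_p, h1, map_zero]
  · intro h1
    obtain ⟨q, v, hqv⟩ := exists_poly_two (p := p)
    rw [← jlam_p s, hqv, map_add, map_mul _ (∑ i ∈ Finset.range p, X ^ i), jlam_sum h, zero_mul,
      add_zero, mul_comm, map_mul]
    show (aeval s q) (aeval s ((1 - X : ℤ[X]) ^ (p - 1)) c) = 0
    rw [jlam_D hD, h1, map_zero]

private theorem jlam_smul {p : ℕ} [Fact p.Prime] {s : Module.End ℤ A}
    (h : ∀ c, ∑ i ∈ Finset.range p, s^[i] c = 0) {D : A → A} (hD : ∀ c, D c = c - s c) (c : A) :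
    ∃ c', p • c' = D^[p - 1] c := by
  obtain ⟨q, v, hqv⟩ := exists_poly_one (p := p)
  refine ⟨aeval s q c, ?_⟩
  rw [← jlam_D hD, hqv, map_add, map_mul _ (∑ i ∈ Finset.range p, X ^ i), jlam_sum h, zero_mul,
    add_zero, map_mul]
  show _ = (aeval s (p : ℤ[X])) (aeval s q c)
  rw [jlam_p]

end Gen

variable {k O : Type} [Field k] [CommRing O] [Algebra k O] {p : ℕ} {ζ : k}
  [IsDedekindDomain O] [IsAlgClosed k]

/-- The endomorphism `1 - σ` of `J`. -/
def Cyc.D (C : Cyc k O p ζ) : J O →+ J O := AddMonoidHom.id _ - C.S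

omit [IsDedekindDomain O] [IsAlgClosed k] in
theorem Cyc.D_apply (C : Cyc k O p ζ) (c : J O) : C.D c = c - C.S c := rfl

/-- the classes killed by `p` are the classes killed by `(1 - σ) ^ (p - 1)` -/
theorem Cyc.smul_eq_zero_iff (C : Cyc k O p ζ) [Fact p.Prime] (c : J O) :
    p • c = 0 ↔ C.D^[p - 1] c = 0 :=
  jlam_iff (s := C.S.toIntLinearMap) C.sum_act C.D_apply c

private theorem jlam_iter (C : Cyc k O p ζ) [Fact p.Prime] (hp : p ≠ 2) (n : ℕ) (c : J O) :
    ∃ c', C.D^[n] c' = c := by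
  induction n generalizing c with
  | zero => exact ⟨c, rfl⟩
  | succ n ih =>
    obtain ⟨c₁, h₁⟩ := C.exists_lambda hp c
    obtain ⟨c₂, h₂⟩ := ih c₁
    refine ⟨c₂, ?_⟩
    rw [Function.iterate_succ_apply', h₂, C.D_apply]
    exact h₁.symm

theorem Cyc.exists_smul (C : Cyc k O p ζ) [Fact p.Prime] (hp : p ≠ 2) (c : J O) :
    ∃ c', p • c' = c := by
  obtain ⟨c', h⟩ := jlam_iter C hp (p - 1) c
  obtain ⟨c₁, h₁⟩ := jlam_smul (s := C.S.toIntLinearMap) C.sum_act C.D_apply c'
  exact ⟨c₁, h₁.trans h⟩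

private theorem jlam_ker (C : Cyc k O p ζ) [Fact p.Prime] (hp : p ≠ 2) :
    {c : J O | C.D c = 0}.Finite := by
  have hp0 : p ≠ 0 := (Fact.out : p.Prime).ne_zero
  refine (Set.finite_range (fun n : C.F → Fin p => ∑ P : C.F, (n P : ℕ) • cl P.1)).subset ?_
  intro c hc
  have h : C.S c = c := by
    have h1 : C.D c = 0 := hc
    rw [C.D_apply, sub_eq_zero] at h1
    exact h1.symm
  obtain ⟨n, hn⟩ := C.exists_fixed hp h
  refine ⟨fun P => ⟨n P.1 % p, Nat.mod_lt _ (Nat.pos_of_ne_zero hp0)⟩, ?_⟩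
  rw [hn, ← Finset.sum_coe_sort C.F]
  refine Finset.sum_congr rfl fun P _ => ?_
  show (n P.1 % p) • cl P.1 = n P.1 • cl P.1
  conv_rhs => rw [← Nat.mod_add_div (n P.1) p, add_smul, mul_comm, mul_smul, C.nsmul_cl P.2,
    smul_zero, add_zero]

private theorem jlam_fin (C : Cyc k O p ζ) [Fact p.Prime] (hp : p ≠ 2) (n : ℕ) :
    {c : J O | C.D^[n] c = 0}.Finite := by
  induction n with
  | zero => exact (Set.finite_singleton (0 : J O)).subset fun c hc => hc
  | succ n ih =>
    refine (ih.preimage' (f := C.D) fun b _ => ?_).subset fun c hc => ?_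
    · by_cases hb : ∃ c₀, C.D c₀ = b
      · obtain ⟨c₀, hc₀⟩ := hb
        refine ((jlam_ker C hp).image (fun c => c₀ + c)).subset ?_
        intro c hc
        have h1 : C.D c = b := hc
        refine ⟨c - c₀, ?_, add_sub_cancel _ _⟩
        show C.D (c - c₀) = 0
        rw [map_sub, h1, hc₀, sub_self]
      · exact Set.finite_empty.subset fun c hc => hb ⟨c, hc⟩
    · have h1 : C.D^[n + 1] c = 0 := hc
      rw [Function.iterate_succ_apply] at h1
      exact h1

/-- finiteness of the group of the classes killed by `p` -/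
theorem Cyc.finite_torsion (C : Cyc k O p ζ) [Fact p.Prime] (hp : p ≠ 2) :
    {c : J O | p • c = 0}.Finite :=
  (jlam_fin C hp (p - 1)).subset fun c hc => (C.smul_eq_zero_iff c).1 hc

end Pool.Agent.PTate
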