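import Pool.Agent.PTate.LinDefs

/-!
# Operators of rank one
-/

set_option autoImplicit false

noncomputable section

namespace Pool.Agent.PTate

open scoped Classical

variable {F : Type} [Field F] {V : Type} [AddCommGroup V] [Module F V] {ι : Type}

theorem ten_apply (B : V →ₗ[F] V →ₗ[F] F) (x y v : V) : ten B x y v = B y v • x := rfl

theorem ten_add_left (B : V →ₗ[F] V →ₗ[F] F) (x x' y : V) :
    ten B (x + x') y = ten B x y + ten B x' y := by
  ext v
  simp only [ten_apply, LinearMap.add_apply, smul_add]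

theorem ten_add_right (B : V →ₗ[F] V →ₗ[F] F) (x y y' : V) :
    ten B x (y + y') = ten B x y + ten B x y' := by
  ext v
  simp only [ten_apply, LinearMap.add_apply, map_add, add_smul]

theorem ten_smul_left (B : V →ₗ[F] V →ₗ[F] F) (c : F) (x y : V) :
    ten B (c • x) y = c • ten B x y := by
  ext v
  simp only [ten_apply, LinearMap.smul_apply, smul_comm c]

theorem ten_smul_right (B : V →ₗ[F] V →ₗ[F] F) (c : F) (x y : V) :
    ten B x (c • y) = c • ten B x y := by
  ext v
  simp only [ten_apply, LinearMap.smul_apply, map_smul, smul_eq_mul, mul_smul]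

theorem ten_mul (B : V →ₗ[F] V →ₗ[F] F) (x y u v : V) :
    ten B x y * ten B u v = B y u • ten B x v := by
  ext w
  simp only [ten_apply, Module.End.mul_apply, LinearMap.smul_apply, map_smul, smul_eq_mul,
    smul_smul, mul_comm]

theorem ten_adj {B : V →ₗ[F] V →ₗ[F] F} (hB : ∀ x y, B x y = B y x) (x y : V) :
    Adj B (ten B x y) (ten B y x) := by
  intro u v
  simp only [ten_apply, LinearMap.smul_apply, map_smul, smul_eq_mul]
  rw [hB y u, mul_comm]

variable {S : Finset ι} {m : ι → F} {B : V →ₗ[F] V →ₗ[F] F} {P : ι → V} {adj : ι → ι → Prop}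

theorem One.fin (h : One S m B P adj) : Module.Finite F V := by
  refine ⟨⟨S.image P, ?_⟩⟩
  rw [eq_top_iff]
  intro x _
  obtain ⟨c, rfl⟩ := h.span x
  refine Submodule.sum_mem _ fun i hi => Submodule.smul_mem _ _ (Submodule.subset_span ?_)
  exact Finset.mem_coe.2 (Finset.mem_image_of_mem P hi)

theorem One.trace_ten (h : One S m B P adj) (x y : V) :
    LinearMap.trace F V (ten B x y) = B y x := by
  have := h.fin
  exact LinearMap.trace_smulRight (B y) x

private theorem linA_B_sum (h : One S m B P adj) (c : ι → F) {j : ι} (hj : j ∈ S) :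
    B (∑ i ∈ S, c i • P i) (P j) = c j * (m j)⁻¹ - (∑ i ∈ S, c i) * (∑ l ∈ S, m l)⁻¹ := by
  rw [map_sum, LinearMap.sum_apply]
  have h1 : ∀ i ∈ S, (B (c i • P i)) (P j) =
      (if i = j then c i * (m i)⁻¹ else 0) - c i * (∑ l ∈ S, m l)⁻¹ := by
    intro i hi
    rw [map_smul, LinearMap.smul_apply, smul_eq_mul, h.pair i hi j hj, mul_sub, mul_ite, mul_zero]
  rw [Finset.sum_congr rfl h1, Finset.sum_sub_distrib, Finset.sum_ite_eq' S j, if_pos hj,
    Finset.sum_mul]

/-- the form is nondegenerate -/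
theorem One.nondeg (h : One S m B P adj) {x : V} (hx : ∀ y, B x y = 0) : x = 0 := by
  obtain ⟨c, rfl⟩ := h.span x
  have h1 : ∀ j ∈ S, c j = ((∑ i ∈ S, c i) * (∑ l ∈ S, m l)⁻¹) * m j := by
    intro j hj
    have h2 := hx (P j)
    rw [linA_B_sum h c hj, sub_eq_zero] at h2
    rw [← h2, inv_mul_cancel_right₀ (h.ne j hj)]
  have h2 : ∑ i ∈ S, c i • P i =
      ((∑ i ∈ S, c i) * (∑ l ∈ S, m l)⁻¹) • ∑ i ∈ S, m i • P i := by
    rw [Finset.smul_sum]
    refine Finset.sum_congr rfl fun i hi => ?_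
    rw [smul_smul, ← h1 i hi]
  rw [h2, h.rel, smul_zero]

private theorem linA_surj (h : One S m B P adj) (f : V →ₗ[F] F) : ∃ z, ∀ v, B z v = f v := by
  have := h.fin
  have hinj : Function.Injective B := by
    rw [injective_iff_map_eq_zero]
    intro x hx
    exact h.nondeg fun y => by rw [hx, LinearMap.zero_apply]
  have hd : Module.finrank F V = Module.finrank F (V →ₗ[F] F) := by
    exact (Subspace.dual_finrank_eq (K := F) (V := V)).symm
  have hsurj := (LinearMap.injective_iff_surjective_of_finrank_eq_finrank hd).1 hinj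
  obtain ⟨z, hz⟩ := hsurj f
  exact ⟨z, fun v => by rw [hz]⟩

/-- two independent vectors can be separated -/
theorem One.exists_dual (h : One S m B P adj) {x y : V} (hxy : LinearIndependent F ![x, y])
    (a b : F) : ∃ z, B x z = a ∧ B y z = b := by
  obtain ⟨f, hf⟩ := LinearMap.exists_extend ((Module.Basis.span hxy).constr F ![a, b])
  have h1 : ∀ i : Fin 2, f (![x, y] i) = ![a, b] i := by
    intro i
    have h2 := LinearMap.congr_fun hf (Module.Basis.span hxy i)
    rw [Module.Basis.constr_basis, LinearMap.comp_apply, Submodule.subtype_apply,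
      Module.Basis.span_apply] at h2
    exact h2
  obtain ⟨z, hz⟩ := linA_surj h f
  refine ⟨z, ?_, ?_⟩
  · rw [h.bsymm, hz]; exact h1 0
  · rw [h.bsymm, hz]; exact h1 1

theorem One.exists_ten (h : One S m B P adj) (X : Module.End F V) :
    ∃ (n : ℕ) (x y : Fin n → V), X = ∑ i, ten B (x i) (y i) := by
  have := h.fin
  set b := Module.finBasis F V with hb
  choose y hy using fun i => linA_surj h (b.coord i)
  refine ⟨Module.finrank F V, fun i => X (b i), y, ?_⟩
  ext v
  rw [LinearMap.sum_apply]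
  conv_lhs => rw [← b.sum_repr v, map_sum]
  refine Finset.sum_congr rfl fun i _ => ?_
  rw [ten_apply, hy, map_smul, Module.Basis.coord_apply]

theorem One.exists_adj (h : One S m B P adj) (X : Module.End F V) : ∃ X', Adj B X X' := by
  obtain ⟨n, x, y, rfl⟩ := h.exists_ten X
  refine ⟨∑ i, ten B (y i) (x i), fun u v => ?_⟩
  rw [LinearMap.sum_apply, LinearMap.sum_apply, map_sum, map_sum, LinearMap.sum_apply]
  exact Finset.sum_congr rfl fun i _ => ten_adj h.bsymm (x i) (y i) u v

theorem One.adj_unique (h : One S m B P adj) {X X' X'' : Module.End F V} (h1 : Adj B X X')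
    (h2 : Adj B X X'') : X' = X'' := by
  ext y
  rw [← sub_eq_zero]
  refine h.nondeg fun x => ?_
  rw [h.bsymm, map_sub, ← h1 x y, ← h2 x y, sub_self]

theorem One.B_self (h : One S m B P adj) {i j : ι} (hi : i ∈ S) (hj : j ∈ S) (hij : i ≠ j) :
    B (P i - P j) (P i - P j) = (m i)⁻¹ + (m j)⁻¹ := by
  simp only [map_sub, LinearMap.sub_apply, h.pair i hi i hi, h.pair i hi j hj, h.pair j hj i hi,
    h.pair j hj j hj, if_neg hij, if_neg hij.symm, if_true]
  ring

theorem One.B_adj (h : One S m B P adj) {i j k : ι} (hi : i ∈ S) (hj : j ∈ S) (hk : k ∈ S)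
    (hij : i ≠ j) (hjk : k ≠ j) (hik : i ≠ k) : B (P i - P j) (P k - P j) = (m j)⁻¹ := by
  simp only [map_sub, LinearMap.sub_apply, h.pair i hi k hk, h.pair i hi j hj, h.pair j hj k hk,
    h.pair j hj j hj, if_neg hij, if_neg hjk.symm, if_neg hik, if_true]
  ring

theorem One.B_disj (h : One S m B P adj) {i j k l : ι} (hi : i ∈ S) (hj : j ∈ S) (hk : k ∈ S)
    (hl : l ∈ S) (hik : i ≠ k) (hil : i ≠ l) (hjk : j ≠ k) (hjl : j ≠ l) :
    B (P i - P j) (P k - P l) = 0 := by
  simp only [map_sub, LinearMap.sub_apply, h.pair i hi k hk, h.pair i hi l hl, h.pair j hj k hk,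
    h.pair j hj l hl, if_neg hik, if_neg hil, if_neg hjk, if_neg hjl]
  ring

/-- the only relation between the vectors -/
theorem One.coeff (h : One S m B P adj) {c : ι → F} (hc : ∑ i ∈ S, c i • P i = 0) :
    ∀ i ∈ S, ∀ j ∈ S, c i * m j = c j * m i := by
  have h1 : ∀ j ∈ S, c j = ((∑ i ∈ S, c i) * (∑ l ∈ S, m l)⁻¹) * m j := by
    intro j hj
    have h2 := linA_B_sum h c hj
    rw [hc, map_zero, LinearMap.zero_apply, eq_comm, sub_eq_zero] at h2
    rw [← h2, inv_mul_cancel_right₀ (h.ne j hj)]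
  intro i hi j hj
  rw [h1 i hi, h1 j hj]
  ring

theorem One.dif_top (h : One S m B P adj) : dif P S = (⊤ : Submodule F V) := by
  rw [eq_top_iff]
  intro x _
  obtain ⟨c, rfl⟩ := h.span x
  refine Submodule.sum_mem _ fun i hi => Submodule.smul_mem _ _ ?_
  have h1 : P i = (∑ l ∈ S, m l)⁻¹ • ∑ j ∈ S, m j • (P i - P j) := by
    simp only [smul_sub]
    rw [Finset.sum_sub_distrib, h.rel, sub_zero, ← Finset.sum_smul, smul_smul,
      inv_mul_cancel₀ h.neM, one_smul]
  rw [h1]
  refine Submodule.smul_mem _ _ (Submodule.sum_mem _ fun j hj => Submodule.smul_mem _ _ ?_)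
  exact Submodule.subset_span ⟨i, hi, j, hj, rfl⟩

end Pool.Agent.PTate
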