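import Pool.Agent.PTate.LinA

/-!
# Lie algebras generated by operators of rank one: extension of the subspace
-/

set_option autoImplicit false

noncomputable section

namespace Pool.Agent.PTate

open scoped Classical

variable {F : Type} [Field F] {V : Type} [AddCommGroup V] [Module F V] {ι : Type}

variable {B : V →ₗ[F] V →ₗ[F] F} {L : Submodule F (Module.End F V)}

/-- bilinear extension -/
private theorem linB_span {S : Set V} {t : Module.End F V}
    (h : ∀ x ∈ S, ∀ y ∈ S, ten B x y - B x y • t ∈ L) :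
    ∀ x ∈ Submodule.span F S, ∀ y ∈ Submodule.span F S, ten B x y - B x y • t ∈ L := by
  have h1 : ∀ x ∈ S, ∀ y ∈ Submodule.span F S, ten B x y - B x y • t ∈ L := by
    intro x hx y hy
    induction hy using Submodule.span_induction with
    | mem y hy => exact h x hx y hy
    | zero =>
      have e : ten B x 0 - B x 0 • t = 0 := by
        ext v
        simp only [ten_apply, map_zero, LinearMap.zero_apply, zero_smul, sub_zero]
      rw [e]
      exact L.zero_mem
    | add y z _ _ hy hz =>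
      have e : ten B x (y + z) - B x (y + z) • t =
          (ten B x y - B x y • t) + (ten B x z - B x z • t) := by
        rw [ten_add_right, map_add, add_smul]
        abel
      rw [e]
      exact L.add_mem hy hz
    | smul c y _ hy =>
      have e : ten B x (c • y) - B x (c • y) • t = c • (ten B x y - B x y • t) := by
        rw [ten_smul_right, map_smul, smul_sub, smul_smul, smul_eq_mul]
      rw [e]
      exact L.smul_mem c hy
  intro x hx y hy
  induction hx using Submodule.span_induction with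
  | mem x hx => exact h1 x hx y hy
  | zero =>
    have e : ten B 0 y - B 0 y • t = 0 := by
      ext v
      simp only [ten_apply, map_zero, LinearMap.zero_apply, zero_smul, smul_zero, sub_zero]
    rw [e]
    exact L.zero_mem
  | add x z _ _ hx hz =>
    have e : ten B (x + z) y - B (x + z) y • t =
        (ten B x y - B x y • t) + (ten B z y - B z y • t) := by
      rw [ten_add_left, map_add, LinearMap.add_apply, add_smul]
      abel
    rw [e]
    exact L.add_mem hx hz
  | smul c x _ hx =>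
    have e : ten B (c • x) y - B (c • x) y • t = c • (ten B x y - B x y • t) := by
      rw [ten_smul_left, map_smul, LinearMap.smul_apply, smul_sub, smul_smul, smul_eq_mul]
    rw [e]
    exact L.smul_mem c hx

private theorem linB_fu {U : Submodule F V} {t : Module.End F V}
    (h : ∀ x ∈ U, ∀ y ∈ U, ten B x y - B x y • t ∈ L) : Fu B L U := by
  intro x hx y hy x' hx' y' hy' e
  have h1 := L.sub_mem (h x hx y hy) (h x' hx' y' hy')
  rw [e, sub_sub_sub_cancel_right] at h1
  exact h1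

/-- the elements of `Fu` modulo `L` -/
private theorem linB_of_fu {U : Submodule F V} (hU : Fu B L U) {p q : V} (hp : p ∈ U) (hq : q ∈ U)
    (hpq : B p q ≠ 0) {x y : V} (hx : x ∈ U) (hy : y ∈ U) :
    ten B x y - B x y • ((B p q)⁻¹ • ten B p q) ∈ L := by
  have h1 := hU x hx y hy ((B x y * (B p q)⁻¹) • p) (U.smul_mem _ hp) q hq (by
    rw [map_smul, LinearMap.smul_apply, smul_eq_mul, mul_assoc, inv_mul_cancel₀ hpq, mul_one])
  rwa [ten_smul_left, ← smul_smul] at h1

/-- two vectors with nonzero scalar product -/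
theorem Fu.base (h2 : (2 : F) ≠ 0) (hB : ∀ x y, B x y = B y x)
    {u v : V} (huv : B u v ≠ 0) (h1 : ten B u v - ten B v u ∈ L)
    (hu : ∀ X ∈ L, ten B u u * X - X * ten B u u ∈ L)
    (hv : ∀ X ∈ L, ten B v v * X - X * ten B v v ∈ L) : Fu B L (Submodule.span F {u, v}) := by
  have hvu : B v u = B u v := hB v u
  have h3 := hu _ h1
  have h4 := hv _ h1
  have h5 : (2 : F) * B u v ≠ 0 := mul_ne_zero h2 huv
  have c1 : ten B u u - B u u • (B u v)⁻¹ • ten B u v ∈ L := by
    have e : ten B u u - B u u • (B u v)⁻¹ • ten B u v =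
        (-(2 * B u v)⁻¹) • (ten B u u * (ten B u v - ten B v u) -
          (ten B u v - ten B v u) * ten B u u) -
        (B u u * (2 * B u v)⁻¹) • (ten B u v - ten B v u) := by
      simp only [mul_sub, sub_mul, ten_mul, hvu]
      match_scalars <;> field_simp <;> ring
    rw [e]
    exact L.sub_mem (L.smul_mem _ h3) (L.smul_mem _ h1)
  have c2 : ten B u v - B u v • (B u v)⁻¹ • ten B u v ∈ L := by
    have e : ten B u v - B u v • (B u v)⁻¹ • ten B u v = 0 := by
      rw [smul_smul, mul_inv_cancel₀ huv, one_smul, sub_self]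
    rw [e]
    exact L.zero_mem
  have c3 : ten B v u - B v u • (B u v)⁻¹ • ten B u v ∈ L := by
    have e : ten B v u - B v u • (B u v)⁻¹ • ten B u v = -(ten B u v - ten B v u) := by
      rw [hvu, smul_smul, mul_inv_cancel₀ huv, one_smul]
      abel
    rw [e]
    exact L.neg_mem h1
  have c4 : ten B v v - B v v • (B u v)⁻¹ • ten B u v ∈ L := by
    have e : ten B v v - B v v • (B u v)⁻¹ • ten B u v =
        ((2 * B u v)⁻¹) • (ten B v v * (ten B u v - ten B v u) -
          (ten B u v - ten B v u) * ten B v v) -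
        (B v v * (2 * B u v)⁻¹) • (ten B u v - ten B v u) := by
      simp only [mul_sub, sub_mul, ten_mul, hvu]
      match_scalars <;> field_simp <;> ring
    rw [e]
    exact L.sub_mem (L.smul_mem _ h4) (L.smul_mem _ h1)
  refine linB_fu (t := (B u v)⁻¹ • ten B u v) (linB_span ?_)
  rintro _ (rfl | rfl) _ (rfl | rfl)
  · exact c1
  · exact c2
  · exact c3
  · exact c4

private theorem linB_mid (hB : ∀ x y, B x y = B y x)
    (hlie : ∀ X ∈ L, ∀ Y ∈ L, X * Y - Y * X ∈ L) {p v q : V} (hv : B v v ≠ 0) (hpq : B p q = 0)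
    (h1 : ten B p v - B p v • ((B v v)⁻¹ • ten B v v) ∈ L)
    (h3 : ten B v q - B v q • ((B v v)⁻¹ • ten B v v) ∈ L) : ten B p q ∈ L := by
  have h4 := hlie _ h1 _ h3
  have hqp : B q p = 0 := by rw [hB, hpq]
  have hqv : B q v = B v q := hB q v
  have hvp : B v p = B p v := hB v p
  have e : ten B p q = (B v v)⁻¹ • ((((ten B p v - B p v • ((B v v)⁻¹ • ten B v v)) *
      (ten B v q - B v q • ((B v v)⁻¹ • ten B v v)) -
      (ten B v q - B v q • ((B v v)⁻¹ • ten B v v)) *
      (ten B p v - B p v • ((B v v)⁻¹ • ten B v v))) +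
      B v q • (ten B p v - B p v • ((B v v)⁻¹ • ten B v v))) +
      B p v • (ten B v q - B v q • ((B v v)⁻¹ • ten B v v))) := by
    simp only [mul_sub, sub_mul, smul_mul_assoc, mul_smul_comm, ten_mul, hqp, hqv, hvp]
    match_scalars <;> field_simp <;> ring
  rw [e]
  exact L.smul_mem _ (L.add_mem (L.add_mem h4 (L.smul_mem _ h1)) (L.smul_mem _ h3))

/-- a path of three vectors whose middle vector is not isotropic -/
theorem Fu.mid (hB : ∀ x y, B x y = B y x) (hlie : ∀ X ∈ L, ∀ Y ∈ L, X * Y - Y * X ∈ L)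
    {u v w : V} (h1 : Fu B L (Submodule.span F {u, v})) (h3 : Fu B L (Submodule.span F {v, w}))
    (hv : B v v ≠ 0) (huw : B u w = 0) : Fu B L (Submodule.span F {u, v, w}) := by
  have hwu : B w u = 0 := by rw [hB, huw]
  have m1 : u ∈ Submodule.span F {u, v} := Submodule.subset_span (by simp)
  have m2 : v ∈ Submodule.span F {u, v} := Submodule.subset_span (by simp)
  have m3 : v ∈ Submodule.span F {v, w} := Submodule.subset_span (by simp)
  have m4 : w ∈ Submodule.span F {v, w} := Submodule.subset_span (by simp)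
  have a1 : ∀ x ∈ Submodule.span F {u, v}, ∀ y ∈ Submodule.span F {u, v},
      ten B x y - B x y • ((B v v)⁻¹ • ten B v v) ∈ L := fun x hx y hy =>
    linB_of_fu h1 m2 m2 hv hx hy
  have a3 : ∀ x ∈ Submodule.span F {v, w}, ∀ y ∈ Submodule.span F {v, w},
      ten B x y - B x y • ((B v v)⁻¹ • ten B v v) ∈ L := fun x hx y hy =>
    linB_of_fu h3 m3 m3 hv hx hy
  have b1 : ten B u w ∈ L := linB_mid hB hlie hv huw (a1 u m1 v m2) (a3 v m3 w m4)
  have b2 : ten B w u ∈ L := linB_mid hB hlie hv hwu (a3 w m4 v m3) (a1 v m2 u m1)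
  refine linB_fu (t := (B v v)⁻¹ • ten B v v) (linB_span ?_)
  intro x hx y hy
  simp only [Set.mem_insert_iff, Set.mem_singleton_iff] at hx hy
  rcases hx with rfl | rfl | rfl
  · rcases hy with rfl | rfl | rfl
    · exact a1 _ m1 _ m1
    · exact a1 _ m1 _ m2
    · rw [huw, zero_smul, sub_zero]
      exact b1
  · rcases hy with rfl | rfl | rfl
    · exact a1 _ m2 _ m1
    · exact a1 _ m2 _ m2
    · exact a3 _ m3 _ m4
  · rcases hy with rfl | rfl | rfl
    · rw [hwu, zero_smul, sub_zero]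
      exact b2
    · exact a3 _ m4 _ m3
    · exact a3 _ m4 _ m4

/-- the extension of the subspace `U` by the vector `w` -/
theorem Fu.step (hB : ∀ x y, B x y = B y x)
    (hlie : ∀ X ∈ L, ∀ Y ∈ L, X * Y - Y * X ∈ L) (htr : ∀ X X', Adj B X X' → X ∈ L → X' ∈ L)
    {U : Submodule F V} {w : V} (hw : ∀ X ∈ L, ten B w w * X - X * ten B w w ∈ L)
    (hU : Fu B L U) {x : V} (hx : x ∈ U) (hxw : B w x ≠ 0) {h₁ h₂ : V} (hh₁ : h₁ ∈ U)
    (hh₂ : h₂ ∈ U) (hw₁ : B w h₁ = 0) (hw₂ : B w h₂ = 0) (hh : B h₁ h₂ ≠ 0) :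
    Fu B L (U ⊔ Submodule.span F {w}) := by
  have hh' : B h₂ h₁ ≠ 0 := by rwa [hB h₂ h₁]
  have hw₁' : B h₁ w = 0 := by rw [hB, hw₁]
  have hw₂' : B h₂ w = 0 := by rw [hB, hw₂]
  -- the vectors orthogonal to `w`
  have s1 : ∀ y ∈ U, B w y = 0 → ten B w y ∈ L := by
    intro y hy hwy
    have hyw : B y w = 0 := by rw [hB, hwy]
    have h1 : ten B x y - B x y • ((B h₁ h₂)⁻¹ • ten B h₁ h₂) ∈ L :=
      linB_of_fu hU hh₁ hh₂ hh hx hy
    have h2 := hw _ h1
    have e : ten B w y = (B w x)⁻¹ • (ten B w w *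
        (ten B x y - B x y • ((B h₁ h₂)⁻¹ • ten B h₁ h₂)) -
        (ten B x y - B x y • ((B h₁ h₂)⁻¹ • ten B h₁ h₂)) * ten B w w) := by
      simp only [mul_sub, sub_mul, smul_mul_assoc, mul_smul_comm, ten_mul, hyw, hw₁, hw₂']
      match_scalars <;> field_simp <;> ring
    rw [e]
    exact L.smul_mem _ h2
  have s1' : ∀ y ∈ U, B w y = 0 → ten B y w ∈ L := fun y hy hwy =>
    htr _ _ (ten_adj hB w y) (s1 y hy hwy)
  have k1 := s1 h₁ hh₁ hw₁
  have k2 := s1 h₂ hh₂ hw₂
  have k2' := s1' h₂ hh₂ hw₂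
  have k3 : ten B h₁ h₂ - ten B h₂ h₁ ∈ L := hU h₁ hh₁ h₂ hh₂ h₂ hh₂ h₁ hh₁ (hB h₁ h₂)
  have hBh : B h₂ h₁ = B h₁ h₂ := hB h₂ h₁
  -- the operators `w y*`
  have s2 : ∀ y ∈ U, ten B w y - B w y • ((B h₂ h₁)⁻¹ • ten B h₂ h₁) ∈ L := by
    intro y hy
    have h1 : ten B h₂ y - B h₂ y • ((B h₁ h₂)⁻¹ • ten B h₁ h₂) ∈ L :=
      linB_of_fu hU hh₁ hh₂ hh hh₂ hy
    have h2 := hlie _ k1 _ h1
    have hyw : B y w = B w y := hB y w
    have e : ten B w y - B w y • ((B h₂ h₁)⁻¹ • ten B h₂ h₁) = (B h₁ h₂)⁻¹ • (ten B w h₁ *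
        (ten B h₂ y - B h₂ y • ((B h₁ h₂)⁻¹ • ten B h₁ h₂)) -
        (ten B h₂ y - B h₂ y • ((B h₁ h₂)⁻¹ • ten B h₁ h₂)) * ten B w h₁) +
        (B h₂ y * B h₁ h₁ * (B h₁ h₂)⁻¹ * (B h₁ h₂)⁻¹) • ten B w h₂ := by
      simp only [mul_sub, sub_mul, smul_mul_assoc, mul_smul_comm, ten_mul, hyw, hw₂', hBh]
      match_scalars <;> field_simp <;> ring
    rw [e]
    exact L.add_mem (L.smul_mem _ h2) (L.smul_mem _ k2)
  have s2' : ∀ y ∈ U, ten B y w - B y w • ((B h₂ h₁)⁻¹ • ten B h₂ h₁) ∈ L := by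
    intro y hy
    have h1 : Adj B (ten B w y - B w y • ((B h₂ h₁)⁻¹ • ten B h₂ h₁))
        (ten B y w - B w y • ((B h₂ h₁)⁻¹ • ten B h₁ h₂)) := by
      intro a b
      have e1 := ten_adj hB w y a b
      have e2 := ten_adj hB h₂ h₁ a b
      simp only [LinearMap.sub_apply, LinearMap.smul_apply, map_sub, map_smul, smul_eq_mul, e1, e2]
    have h2 := htr _ _ h1 (s2 y hy)
    have e : ten B y w - B y w • ((B h₂ h₁)⁻¹ • ten B h₂ h₁) =
        (ten B y w - B w y • ((B h₂ h₁)⁻¹ • ten B h₁ h₂)) +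
        (B w y * (B h₂ h₁)⁻¹) • (ten B h₁ h₂ - ten B h₂ h₁) := by
      rw [hB y w]
      match_scalars <;> ring
    rw [e]
    exact L.add_mem h2 (L.smul_mem _ k3)
  have s3 : ten B w w - B w w • ((B h₂ h₁)⁻¹ • ten B h₂ h₁) ∈ L := by
    have h2 := hlie _ k1 _ k2'
    have e : ten B w w - B w w • ((B h₂ h₁)⁻¹ • ten B h₂ h₁) =
        (B h₁ h₂)⁻¹ • (ten B w h₁ * ten B h₂ w - ten B h₂ w * ten B w h₁) := by
      simp only [ten_mul, hBh]
      match_scalars <;> field_simp
    rw [e]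
    exact L.smul_mem _ h2
  have hsup : U ⊔ Submodule.span F {w} = Submodule.span F ((U : Set V) ∪ {w}) := by
    rw [Submodule.span_union, Submodule.span_eq]
  rw [hsup]
  refine linB_fu (t := (B h₂ h₁)⁻¹ • ten B h₂ h₁) (linB_span ?_)
  rintro a (ha | rfl) b (hb | rfl)
  · exact linB_of_fu hU hh₂ hh₁ hh' ha hb
  · exact s2' a ha
  · exact s2 b hb
  · exact s3

end Pool.Agent.PTate
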