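import Pool.Agent.PTate.LinB

/-!
# Lie algebras generated by operators of rank one: few vertices
-/

set_option autoImplicit false

noncomputable section

namespace Pool.Agent.PTate

open scoped Classical

variable {F : Type} [Field F] {V : Type} [AddCommGroup V] [Module F V] {ι : Type}

variable {S : Finset ι} {m : ι → F} {B : V →ₗ[F] V →ₗ[F] F} {P : ι → V} {adj : ι → ι → Prop}
  {L : Submodule F (Module.End F V)}

private theorem linC1_mono {U W : Submodule F V} (h : Fu B L W) (hU : U ≤ W) : Fu B L U :=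
  fun x hx y hy x' hx' y' hy' => h x (hU hx) y (hU hy) x' (hU hx') y' (hU hy')

private theorem linC1_dif_le {T : Finset ι} {W : Submodule F V} (b : ι)
    (h : ∀ t ∈ T, P t - P b ∈ W) : dif P T ≤ W := by
  refine Submodule.span_le.2 ?_
  rintro _ ⟨i, hi, j, hj, rfl⟩
  have h1 := sub_mem (h i hi) (h j hj)
  rwa [sub_sub_sub_cancel_right] at h1

private theorem linC1_mem {T : Finset ι} {i j : ι} (hi : i ∈ T) (hj : j ∈ T) :
    P i - P j ∈ dif (F := F) P T := Submodule.subset_span ⟨i, hi, j, hj, rfl⟩

private theorem linC1_inv {a b : F} (ha : a ≠ 0) (hb : b ≠ 0) (h : a + b ≠ 0) :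
    a⁻¹ + b⁻¹ ≠ 0 := by
  have h1 : a⁻¹ + b⁻¹ = (a + b) / (a * b) := by
    field_simp
    ring
  rw [h1]
  exact div_ne_zero h (mul_ne_zero ha hb)

/-- three vertices -/
theorem LieL.three (h2 : (2 : F) ≠ 0) (h : One S m B P adj) (hL : LieL S B P adj L) {i j k : ι}
    (hi : i ∈ S) (hj : j ∈ S) (hk : k ∈ S) (hij : adj i j) (hkj : adj k j) (hik : i ≠ k) :
    Fu B L (dif P {i, j, k}) := by
  have hij' := h.irr _ _ hij
  have hkj' := h.irr _ _ hkj
  have h1 : Fu B L (Submodule.span F {P i - P j, P k - P j}) := by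
    refine Fu.base h2 h.bsymm ?_ (hL.ke i hi j hj k hk hij hkj hik)
      (fun X hX => hL.ad i hi j hj hij X hX) (fun X hX => hL.ad k hk j hj hkj X hX)
    rw [h.B_adj hi hj hk hij' hkj' hik]
    exact inv_ne_zero (h.ne j hj)
  refine linC1_mono h1 (linC1_dif_le j fun t ht => ?_)
  simp only [Finset.mem_insert, Finset.mem_singleton] at ht
  rcases ht with rfl | rfl | rfl
  · exact Submodule.subset_span (by simp)
  · rw [sub_self]
    exact zero_mem _
  · exact Submodule.subset_span (by simp)

private theorem linC1_star (h2 : (2 : F) ≠ 0) (h : One S m B P adj) (hL : LieL S B P adj L)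
    {i a b c : ι} (hi : i ∈ S) (ha : a ∈ S) (hb : b ∈ S) (hc : c ∈ S) (hia : adj a i)
    (hib : adj b i) (hic : adj c i) (hab : a ≠ b) (hac : a ≠ c) (hbc : b ≠ c)
    (hm : m a + m b ≠ 0) {T : Finset ι} (hT : ∀ t ∈ T, t = i ∨ t = a ∨ t = b ∨ t = c) :
    Fu B L (dif P T) := by
  have hia' := h.irr _ _ hia
  have hib' := h.irr _ _ hib
  have hic' := h.irr _ _ hic
  have h1 := Fu.step (w := P c - P i) (x := P a - P i) (h₁ := P a - P b) (h₂ := P a - P b)
    h.bsymm hL.lie hL.tr (fun X hX => hL.ad c hc i hi hic X hX)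
    (LieL.three h2 h hL ha hi hb hia hib hab) (linC1_mem (by simp) (by simp))
    (by
      rw [h.B_adj hc hi ha hic' hia' hac.symm]
      exact inv_ne_zero (h.ne i hi))
    (linC1_mem (by simp) (by simp)) (linC1_mem (by simp) (by simp))
    (h.B_disj hc hi ha hb hac.symm hbc.symm hia'.symm hib'.symm)
    (h.B_disj hc hi ha hb hac.symm hbc.symm hia'.symm hib'.symm)
    (by
      rw [h.B_self ha hb hab]
      exact linC1_inv (h.ne a ha) (h.ne b hb) hm)
  refine linC1_mono h1 (linC1_dif_le i fun t ht => ?_)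
  rcases hT t ht with rfl | rfl | rfl | rfl
  · rw [sub_self]
    exact zero_mem _
  · exact Submodule.mem_sup_left (linC1_mem (by simp) (by simp))
  · exact Submodule.mem_sup_left (linC1_mem (by simp) (by simp))
  · exact Submodule.mem_sup_right (Submodule.subset_span rfl)

/-- four vertices of a star -/
theorem LieL.star (h2 : (2 : F) ≠ 0) (h : One S m B P adj) (hL : LieL S B P adj L)
    {i j k l : ι} (hi : i ∈ S) (hj : j ∈ S) (hk : k ∈ S) (hl : l ∈ S) (hij : adj j i)
    (hik : adj k i) (hil : adj l i) (hjk : j ≠ k) (hjl : j ≠ l) (hkl : k ≠ l) :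
    Fu B L (dif P {i, j, k, l}) := by
  by_cases h1 : m j + m k ≠ 0
  · refine linC1_star h2 h hL hi hj hk hl hij hik hil hjk hjl hkl h1 fun t ht => ?_
    simpa using ht
  · by_cases h3 : m j + m l ≠ 0
    · refine linC1_star h2 h hL hi hj hl hk hij hil hik hjl hjk hkl.symm h3 fun t ht => ?_
      simp only [Finset.mem_insert, Finset.mem_singleton] at ht
      tauto
    · refine linC1_star h2 h hL hi hk hl hj hik hil hij hkl hjk.symm hjl.symm ?_ fun t ht => ?_
      · rw [not_not] at h1 h3
        have h4 : m k = m l := by linear_combination h1 - h3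
        rw [h4, ← two_mul]
        exact mul_ne_zero h2 (h.ne l hl)
      · simp only [Finset.mem_insert, Finset.mem_singleton] at ht
        tauto

/-- four vertices of a path, the edge in the middle is not isotropic -/
theorem LieL.path_mid (h2 : (2 : F) ≠ 0) (h : One S m B P adj) (hL : LieL S B P adj L)
    {i j k l : ι} (hi : i ∈ S) (hj : j ∈ S) (hk : k ∈ S) (hl : l ∈ S) (hij : adj i j)
    (hjk : adj j k) (hkl : adj k l) (hik : i ≠ k) (hil : i ≠ l) (hjl : j ≠ l)
    (hm : m j + m k ≠ 0) : Fu B L (dif P {i, j, k, l}) := by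
  have hjk' := h.irr _ _ hjk
  have h1 := linC1_mono (U := Submodule.span F {P i - P j, P j - P k})
    (LieL.three h2 h hL hi hj hk hij (h.symm _ _ hjk) hik) (by
      refine Submodule.span_le.2 ?_
      rintro x (rfl | rfl)
      · exact linC1_mem (by simp) (by simp)
      · exact linC1_mem (by simp) (by simp))
  have h3 := linC1_mono (U := Submodule.span F {P j - P k, P k - P l})
    (LieL.three h2 h hL hj hk hl hjk (h.symm _ _ hkl) hjl) (by
      refine Submodule.span_le.2 ?_
      rintro x (rfl | rfl)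
      · exact linC1_mem (by simp) (by simp)
      · exact linC1_mem (by simp) (by simp))
  have h4 := Fu.mid h.bsymm hL.lie h1 h3
    (by
      rw [h.B_self hj hk hjk']
      exact linC1_inv (h.ne j hj) (h.ne k hk) hm)
    (h.B_disj hi hj hk hl hik hil hjk' hjl)
  refine linC1_mono h4 (linC1_dif_le j fun t ht => ?_)
  have hu : P i - P j ∈ Submodule.span F {P i - P j, P j - P k, P k - P l} :=
    Submodule.subset_span (by simp)
  have hv : P j - P k ∈ Submodule.span F {P i - P j, P j - P k, P k - P l} :=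
    Submodule.subset_span (by simp)
  have hw : P k - P l ∈ Submodule.span F {P i - P j, P j - P k, P k - P l} :=
    Submodule.subset_span (by simp)
  simp only [Finset.mem_insert, Finset.mem_singleton] at ht
  rcases ht with rfl | rfl | rfl | rfl
  · exact hu
  · rw [sub_self]
    exact zero_mem _
  · have h5 := neg_mem hv
    rwa [neg_sub] at h5
  · have h5 := neg_mem (add_mem hv hw)
    rwa [sub_add_sub_cancel, neg_sub] at h5

/-- four vertices of a path, the edge at the end is not isotropic -/
theorem LieL.path_end (h2 : (2 : F) ≠ 0) (h : One S m B P adj) (hL : LieL S B P adj L)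
    {i j k l : ι} (hi : i ∈ S) (hj : j ∈ S) (hk : k ∈ S) (hl : l ∈ S) (hij : adj i j)
    (hjk : adj j k) (hkl : adj k l) (hik : i ≠ k) (hil : i ≠ l) (hjl : j ≠ l)
    (hm : m i + m j ≠ 0) : Fu B L (dif P {i, j, k, l}) := by
  have hij' := h.irr _ _ hij
  have hjk' := h.irr _ _ hjk
  have hkl' := h.irr _ _ hkl
  have hlk := h.symm _ _ hkl
  have h1 := Fu.step (w := P l - P k) (x := P j - P k) (h₁ := P i - P j) (h₂ := P i - P j)
    h.bsymm hL.lie hL.tr (fun X hX => hL.ad l hl k hk hlk X hX)
    (LieL.three h2 h hL hi hj hk hij (h.symm _ _ hjk) hik) (linC1_mem (by simp) (by simp))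
    (by
      rw [h.B_adj hl hk hj hkl'.symm hjk' hjl.symm]
      exact inv_ne_zero (h.ne k hk))
    (linC1_mem (by simp) (by simp)) (linC1_mem (by simp) (by simp))
    (h.B_disj hl hk hi hj hil.symm hjl.symm hik.symm hjk'.symm)
    (h.B_disj hl hk hi hj hil.symm hjl.symm hik.symm hjk'.symm)
    (by
      rw [h.B_self hi hj hij']
      exact linC1_inv (h.ne i hi) (h.ne j hj) hm)
  refine linC1_mono h1 (linC1_dif_le k fun t ht => ?_)
  simp only [Finset.mem_insert, Finset.mem_singleton] at ht
  rcases ht with rfl | rfl | rfl | rfl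
  · exact Submodule.mem_sup_left (linC1_mem (by simp) (by simp))
  · exact Submodule.mem_sup_left (linC1_mem (by simp) (by simp))
  · rw [sub_self]
    exact zero_mem _
  · exact Submodule.mem_sup_right (Submodule.subset_span rfl)

end Pool.Agent.PTate
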