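import Pool.Agent.PTate.LinB

/-!
# Lie algebras generated by operators of rank one: one more vertex
-/

set_option autoImplicit false

noncomputable section

namespace Pool.Agent.PTate

open scoped Classical

variable {F : Type} [Field F] {V : Type} [AddCommGroup V] [Module F V] {ι : Type}

variable {S : Finset ι} {m : ι → F} {B : V →ₗ[F] V →ₗ[F] F} {P : ι → V} {adj : ι → ι → Prop}
  {L : Submodule F (Module.End F V)}

private theorem linC2_mem {T : Finset ι} {i j : ι} (hi : i ∈ T) (hj : j ∈ T) :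
    P i - P j ∈ dif (F := F) P T :=
  Submodule.subset_span ⟨i, hi, j, hj, rfl⟩

private theorem linC2_le {T : Finset ι} {j l : ι} (hj : j ∈ T) :
    dif (F := F) P (insert l T) ≤ dif P T ⊔ Submodule.span F {P l - P j} := by
  have key : ∀ i ∈ insert l T, P i - P j ∈ dif (F := F) P T ⊔ Submodule.span F {P l - P j} := by
    intro i hi
    rcases Finset.mem_insert.mp hi with rfl | hi
    · exact Submodule.mem_sup_right (Submodule.mem_span_singleton_self _)
    · exact Submodule.mem_sup_left (linC2_mem hi hj)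
  refine Submodule.span_le.mpr ?_
  rintro x ⟨i, hi, k, hk, rfl⟩
  have e : P i - P k = (P i - P j) - (P k - P j) := by abel
  rw [SetLike.mem_coe, e]
  exact sub_mem (key i hi) (key k hk)

/-- one more vertex -/
theorem LieL.step (h2 : (2 : F) ≠ 0) (h : One S m B P adj) (hL : LieL S B P adj L)
    {T : Finset ι} (hT : T ⊆ S) (hc : 4 ≤ T.card) (hU : Fu B L (dif P T)) {j l : ι} (hj : j ∈ T)
    (hl : l ∈ S) (hlT : l ∉ T) (hjl : adj j l) : Fu B L (dif P (insert l T)) := by
  have hcard : 2 < (T.erase j).card := by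
    rw [Finset.card_erase_of_mem hj]; omega
  obtain ⟨a, ha, b, hb, c, hc', hab, hac, hbc⟩ := Finset.two_lt_card.mp hcard
  obtain ⟨haj, haT⟩ := Finset.mem_erase.mp ha
  obtain ⟨hbj, hbT⟩ := Finset.mem_erase.mp hb
  obtain ⟨hcj, hcT⟩ := Finset.mem_erase.mp hc'
  have hjS := hT hj
  have haS := hT haT
  have hbS := hT hbT
  have hcS := hT hcT
  have hla : l ≠ a := fun e => hlT (e ▸ haT)
  have hlb : l ≠ b := fun e => hlT (e ▸ hbT)
  have hlc : l ≠ c := fun e => hlT (e ▸ hcT)
  have hlj : l ≠ j := fun e => hlT (e ▸ hj)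
  have hmj := h.ne j hjS
  have hmb := h.ne b hbS
  have hw := hL.ad l hl j hjS (h.symm _ _ hjl)
  have hxw : B (P l - P j) (P a - P j) ≠ 0 := by
    rw [h.B_adj hl hjS haS hlj haj hla]
    exact inv_ne_zero hmj
  have hw1 : B (P l - P j) (P a - P b) = 0 :=
    h.B_disj hl hjS haS hbS hla hlb haj.symm hbj.symm
  have hw2 : B (P l - P j) (P b - P c) = 0 :=
    h.B_disj hl hjS hbS hcS hlb hlc hbj.symm hcj.symm
  have hh : B (P a - P b) (P b - P c) ≠ 0 := by
    have e : P b - P c = -(P c - P b) := by abel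
    rw [e, map_neg, h.B_adj haS hbS hcS hab hbc.symm hac]
    exact neg_ne_zero.mpr (inv_ne_zero hmb)
  have hfu := Fu.step h.bsymm hL.lie hL.tr hw hU (linC2_mem haT hj) hxw (linC2_mem haT hbT)
    (linC2_mem hbT hcT) hw1 hw2 hh
  intro x hx y hy x' hx' y' hy' hB
  exact hfu x (linC2_le hj hx) y (linC2_le hj hy) x' (linC2_le hj hx') y' (linC2_le hj hy') hB

end Pool.Agent.PTate
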