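import Mathlib

/-!
# Operators of trace zero
-/

set_option autoImplicit false

noncomputable section

namespace Pool.Agent.PTate

open scoped Classical

variable {F : Type} [Field F] {V : Type} [AddCommGroup V] [Module F V] [Module.Finite F V]

/-- the operator `w ↦ ψ w • x` -/
private def slR (ψ : V →ₗ[F] F) (x : V) : Module.End F V := ψ.smulRight x

omit [Module.Finite F V] in
private theorem slR_apply (ψ : V →ₗ[F] F) (x w : V) : slR ψ x w = ψ w • x := rfl

private theorem slR_trace (ψ : V →ₗ[F] F) (x : V) : LinearMap.trace F V (slR ψ x) = ψ x :=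
  LinearMap.trace_smulRight ψ x

omit [Module.Finite F V] in
private theorem slR_mul (ψ φ : V →ₗ[F] F) (x y : V) : slR ψ x * slR φ y = ψ y • slR φ x := by
  ext w
  rw [Module.End.mul_apply, LinearMap.smul_apply, slR_apply, slR_apply, slR_apply, map_smul,
    smul_eq_mul, smul_smul, mul_comm]

omit [Module.Finite F V] in
private theorem slR_smul (ψ : V →ₗ[F] F) (c : F) (x : V) : slR ψ (c • x) = c • slR ψ x := by
  ext w
  rw [LinearMap.smul_apply, slR_apply, slR_apply, smul_comm]

omit [Module.Finite F V] in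
private theorem slR_smul' (ψ : V →ₗ[F] F) (c : F) (x : V) : slR (c • ψ) x = c • slR ψ x := by
  ext w
  rw [LinearMap.smul_apply, slR_apply, slR_apply, LinearMap.smul_apply, smul_assoc]

omit [Module.Finite F V] in
private theorem slR_zero (ψ : V →ₗ[F] F) : slR ψ (0 : V) = 0 := by
  ext w
  rw [slR_apply, smul_zero, LinearMap.zero_apply]

omit [Module.Finite F V] in
private theorem slR_zero' (x : V) : slR (0 : V →ₗ[F] F) x = 0 := by
  ext w
  rw [slR_apply, LinearMap.zero_apply, zero_smul, LinearMap.zero_apply]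

/-- separation -/
private theorem sl_sep {W : Type} [AddCommGroup W] [Module F W] {v y : W}
    (h : y ∉ Submodule.span F {v}) : ∃ χ : W →ₗ[F] F, χ v = 0 ∧ χ y = 1 := by
  obtain ⟨g, h1, h2⟩ := LinearMap.exists_extend_of_notMem
    (0 : Submodule.span F {v} →ₗ[F] F) h 1
  refine ⟨g, ?_, h2⟩
  have h3 := LinearMap.congr_fun h1 ⟨v, Submodule.mem_span_singleton_self v⟩
  exact h3

/-- exchange of the two vectors of an independent pair -/
private theorem sl_swap {W : Type} [AddCommGroup W] [Module F W] {v y : W} (hv : v ≠ 0)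
    (h : y ∉ Submodule.span F {v}) : v ∉ Submodule.span F {y} := by
  intro h1
  obtain ⟨c, hc⟩ := Submodule.mem_span_singleton.1 h1
  have hc0 : c ≠ 0 := by
    rintro rfl
    rw [zero_smul] at hc
    exact hv hc.symm
  apply h
  refine Submodule.mem_span_singleton.2 ⟨c⁻¹, ?_⟩
  rw [← hc, smul_smul, inv_mul_cancel₀ hc0, one_smul]

private theorem sl_stepA {J : Submodule F (Module.End F V)}
    (hJ : ∀ b : Module.End F V, LinearMap.trace F V b = 0 → ∀ a ∈ J, b * a - a * b ∈ J)
    {φ : V →ₗ[F] F} {v y : V} (hv : v ≠ 0) (ha : slR φ v ∈ J) (hy : φ y = 0) :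
    slR φ y ∈ J := by
  by_cases hs : y ∈ Submodule.span F {v}
  · obtain ⟨c, rfl⟩ := Submodule.mem_span_singleton.1 hs
    rw [slR_smul]
    exact J.smul_mem c ha
  · obtain ⟨χ, h1, h2⟩ := sl_sep (sl_swap hv hs)
    have h3 := hJ (slR χ y) (by rw [slR_trace, h1]) _ ha
    rwa [slR_mul, slR_mul, h2, hy, one_smul, zero_smul, sub_zero] at h3

private theorem sl_stepB {J : Submodule F (Module.End F V)}
    (hJ : ∀ b : Module.End F V, LinearMap.trace F V b = 0 → ∀ a ∈ J, b * a - a * b ∈ J)
    {φ χ : V →ₗ[F] F} {v : V} (hφ : φ ≠ 0) (ha : slR φ v ∈ J) (hχ : χ v = 0) :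
    slR χ v ∈ J := by
  by_cases hs : χ ∈ Submodule.span F {φ}
  · obtain ⟨c, rfl⟩ := Submodule.mem_span_singleton.1 hs
    rw [slR_smul']
    exact J.smul_mem c ha
  · obtain ⟨Φ, h1, h2⟩ := sl_sep (W := V →ₗ[F] F) (sl_swap hφ hs)
    set y : V := (Module.evalEquiv F V).symm Φ with hy
    have h3 : χ y = 0 := by
      have := Module.apply_evalEquiv_symm_apply (R := F) (M := V) χ Φ
      rw [hy, this, h1]
    have h4 : φ y = 1 := by
      have := Module.apply_evalEquiv_symm_apply (R := F) (M := V) φ Φ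
      rw [hy, this, h2]
    have h5 := hJ (slR χ y) (by rw [slR_trace, h3]) _ ha
    rw [slR_mul, slR_mul, hχ, h4, one_smul, zero_smul, zero_sub] at h5
    exact (Submodule.neg_mem_iff J).1 h5

private theorem sl_nil (h2 : (2 : F) ≠ 0) {J : Submodule F (Module.End F V)}
    (hJ : ∀ b : Module.End F V, LinearMap.trace F V b = 0 → ∀ a ∈ J, b * a - a * b ∈ J)
    {φ : V →ₗ[F] F} {v : V} (hv : v ≠ 0) (hφ : φ ≠ 0) (ha : slR φ v ∈ J)
    (ψ : V →ₗ[F] F) (x : V) (hψ : ψ x = 0) : slR ψ x ∈ J := by
  by_cases h1 : ψ v = 0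
  · exact sl_stepA hJ hv (sl_stepB hJ hφ ha h1) hψ
  by_cases h3 : φ x = 0
  · exact sl_stepB hJ hφ (sl_stepA hJ hv ha h3) hψ
  have htr : LinearMap.trace F V (slR ψ x) = 0 := by rw [slR_trace, hψ]
  have h4 := hJ _ htr _ (hJ _ htr _ ha)
  have e : slR ψ x * (slR ψ x * slR φ v - slR φ v * slR ψ x) -
      (slR ψ x * slR φ v - slR φ v * slR ψ x) * slR ψ x =
      (-(2 * (ψ v * φ x))) • slR ψ x := by
    simp only [slR_mul, mul_sub, sub_mul, mul_smul_comm, smul_mul_assoc, hψ, smul_smul,
      zero_smul, smul_zero, sub_zero, zero_sub]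
    rw [← neg_smul, ← sub_smul]
    congr 1
    ring
  rw [e] at h4
  have hne : (-(2 * (ψ v * φ x))) ≠ 0 := neg_ne_zero.2 (mul_ne_zero h2 (mul_ne_zero h1 h3))
  exact (Submodule.smul_mem_iff J hne).1 h4

private theorem sl_span {J : Submodule F (Module.End F V)}
    (hJ : ∀ (ψ : V →ₗ[F] F) (x : V), ψ x = 0 → slR ψ x ∈ J) (a : Module.End F V)
    (ha : LinearMap.trace F V a = 0) : a ∈ J := by
  let b := Module.finBasis F V
  by_cases hn : Module.finrank F V = 0
  · have : a = 0 := by
      ext w
      have : Subsingleton V := Module.finrank_zero_iff.1 hn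
      exact Subsingleton.elim _ _
    rw [this]
    exact J.zero_mem
  have hpos : 0 < Module.finrank F V := Nat.pos_of_ne_zero hn
  let i0 : Fin (Module.finrank F V) := ⟨0, hpos⟩
  have hoff : ∀ i j, i ≠ j → slR (b.coord j) (b i) ∈ J := by
    intro i j hij
    apply hJ
    rw [Module.Basis.coord_apply, Module.Basis.repr_self, Finsupp.single_eq_of_ne hij.symm]
  have hdiag : ∀ i j, i ≠ j → slR (b.coord i) (b i) - slR (b.coord j) (b j) ∈ J := by
    intro i j hij
    have h1 := hJ (b.coord i - b.coord j) (b i + b j) (by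
      simp only [LinearMap.sub_apply, map_add, Module.Basis.coord_apply, Module.Basis.repr_self,
        Finsupp.single_eq_same, Finsupp.single_eq_of_ne hij.symm, Finsupp.single_eq_of_ne hij]
      ring)
    have e : slR (b.coord i) (b i) - slR (b.coord j) (b j) =
        slR (b.coord i - b.coord j) (b i + b j) + slR (b.coord j) (b i) -
          slR (b.coord i) (b j) := by
      ext w
      simp only [LinearMap.sub_apply, LinearMap.add_apply, slR_apply, smul_add, sub_smul]
      abel
    rw [e]
    exact J.sub_mem (J.add_mem h1 (hoff i j hij)) (hoff j i hij.symm)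
  have hdec : a = ∑ j, slR (b.coord j) (a (b j)) := by
    refine b.ext fun i => ?_
    rw [LinearMap.sum_apply, Finset.sum_eq_single i]
    · rw [slR_apply, Module.Basis.coord_apply, Module.Basis.repr_self, Finsupp.single_eq_same,
        one_smul]
    · intro j _ hj
      rw [slR_apply, Module.Basis.coord_apply, Module.Basis.repr_self,
        Finsupp.single_eq_of_ne hj, zero_smul]
    · intro h
      exact absurd (Finset.mem_univ _) h
  have hcol : ∀ j, slR (b.coord j) (a (b j)) - (b.coord j (a (b j))) • slR (b.coord i0) (b i0) ∈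
      J := by
    intro j
    have h1 : slR (b.coord j) (a (b j)) = ∑ i, (b.coord i (a (b j))) • slR (b.coord j) (b i) := by
      ext w
      rw [slR_apply, LinearMap.sum_apply]
      simp only [LinearMap.smul_apply, slR_apply]
      conv_lhs => rw [← b.sum_repr (a (b j))]
      rw [Finset.smul_sum]
      refine Finset.sum_congr rfl fun i _ => ?_
      rw [smul_comm]
      rfl
    rw [h1, ← Finset.add_sum_erase _ _ (Finset.mem_univ j), add_sub_right_comm, ← smul_sub]
    refine J.add_mem (J.smul_mem _ ?_) (J.sum_mem fun i hi => J.smul_mem _ ?_)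
    · by_cases hj : j = i0
      · rw [hj, sub_self]
        exact J.zero_mem
      · exact hdiag j i0 hj
    · exact hoff i j (Finset.ne_of_mem_erase hi)
  have htr : ∑ j, b.coord j (a (b j)) = 0 := by
    rw [← ha]
    conv_rhs => rw [hdec]
    rw [map_sum]
    exact Finset.sum_congr rfl fun j _ => (slR_trace _ _).symm
  have h3 : a = ∑ j, (slR (b.coord j) (a (b j)) -
      (b.coord j (a (b j))) • slR (b.coord i0) (b i0)) := by
    rw [Finset.sum_sub_distrib, ← Finset.sum_smul, htr, zero_smul, sub_zero]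
    exact hdec
  rw [h3]
  exact J.sum_mem fun j _ => hcol j

/-- A subspace of operators which is stable under the brackets with the operators of trace zero and
which contains the brackets of an operator `X` which is not a scalar contains all operators of trace
zero. -/
theorem sl_ideal (h2 : (2 : F) ≠ 0) {J : Submodule F (Module.End F V)}
    (hJ : ∀ b : Module.End F V, LinearMap.trace F V b = 0 → ∀ a ∈ J, b * a - a * b ∈ J)
    {X : Module.End F V}
    (hX : ∀ b : Module.End F V, LinearMap.trace F V b = 0 → b * X - X * b ∈ J)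
    (hX' : ¬ ∃ c : F, X = c • 1) (a : Module.End F V) (ha : LinearMap.trace F V a = 0) :
    a ∈ J := by
  have h1 : ∃ v : V, LinearIndependent F ![v, X v] := by
    by_contra hcon
    push Not at hcon
    exact hX' (LinearMap.exists_eq_smul_id_of_forall_notLinearIndependent hcon)
  obtain ⟨v, hv⟩ := h1
  have hv0 : v ≠ 0 := hv.ne_zero 0
  have hXv : X v ∉ Submodule.span F {v} := by
    intro h
    obtain ⟨c, hc⟩ := Submodule.mem_span_singleton.1 h
    exact (LinearIndependent.pair_iff' hv0).1 hv c hc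
  obtain ⟨φ, hφ1, hφ2⟩ := sl_sep hXv
  have hφ0 : φ ≠ 0 := by
    rintro rfl
    rw [LinearMap.zero_apply] at hφ2
    exact zero_ne_one hφ2
  have htr : LinearMap.trace F V (slR φ v) = 0 := by rw [slR_trace, hφ1]
  have h4 := hJ _ htr _ (hX _ htr)
  have e : slR φ v * (slR φ v * X - X * slR φ v) - (slR φ v * X - X * slR φ v) * slR φ v =
      (-(2 : F)) • slR φ v := by
    have e1 : slR φ v * slR φ v = 0 := by rw [slR_mul, hφ1, zero_smul]
    have e2 : slR φ v * X * slR φ v = slR φ v := by
      ext w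
      rw [Module.End.mul_apply, Module.End.mul_apply, slR_apply, slR_apply, map_smul, map_smul,
        hφ2, smul_eq_mul, mul_one]
    have e3 : slR φ v * (slR φ v * X) = 0 := by rw [← mul_assoc, e1, zero_mul]
    have e4 : slR φ v * (X * slR φ v) = slR φ v := by rw [← mul_assoc, e2]
    have e5 : X * slR φ v * slR φ v = 0 := by rw [mul_assoc, e1, mul_zero]
    rw [mul_sub, sub_mul, e2, e3, e4, e5, neg_smul, two_smul]
    abel
  rw [e] at h4
  have h5 : slR φ v ∈ J := (Submodule.smul_mem_iff J (neg_ne_zero.2 h2)).1 h4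
  exact sl_span (fun ψ x hψ => sl_nil h2 hJ hv0 hφ0 h5 ψ x hψ) a ha

/-- The operators of trace zero are sums of brackets of operators of trace zero. -/
theorem sl_perfect (h2 : (2 : F) ≠ 0) (a : Module.End F V) (ha : LinearMap.trace F V a = 0) :
    a ∈ Submodule.span F {x : Module.End F V | ∃ b c : Module.End F V,
      LinearMap.trace F V b = 0 ∧ LinearMap.trace F V c = 0 ∧ x = b * c - c * b} := by
  refine sl_span (fun ψ x hψ => ?_) a ha
  by_cases hx : x = 0
  · rw [hx, slR_zero]
    exact Submodule.zero_mem _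
  by_cases hψ0 : ψ = 0
  · rw [hψ0, slR_zero']
    exact Submodule.zero_mem _
  obtain ⟨χ, -, hχ⟩ := sl_sep (F := F) (v := (0 : V)) (y := x) (by
    rw [Submodule.span_zero_singleton, Submodule.mem_bot]
    exact hx)
  have hy : ∃ y, ψ y = 1 := by
    obtain ⟨y, hy⟩ : ∃ y, ψ y ≠ 0 := by
      by_contra hcon
      push Not at hcon
      exact hψ0 (LinearMap.ext hcon)
    exact ⟨(ψ y)⁻¹ • y, by rw [map_smul, smul_eq_mul, inv_mul_cancel₀ hy]⟩
  obtain ⟨y, hy⟩ := hy
  have e : slR ψ x = (2 : F)⁻¹ • ((slR χ x - slR ψ y) * slR ψ x -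
      slR ψ x * (slR χ x - slR ψ y)) := by
    rw [mul_sub, sub_mul, slR_mul, slR_mul, slR_mul, slR_mul, hχ, hψ, hy, zero_smul, zero_smul,
      one_smul, sub_zero, zero_sub, sub_neg_eq_add, ← two_smul F, smul_smul,
      inv_mul_cancel₀ h2, one_smul]
  rw [e]
  refine Submodule.smul_mem _ _ (Submodule.subset_span ⟨_, _, ?_, ?_, rfl⟩)
  · rw [map_sub, slR_trace, slR_trace, hχ, hy, sub_self]
  · rw [slR_trace, hψ]

/-- An operator of trace zero on a line is zero. -/
theorem sl_line (hV : Module.finrank F V ≤ 1) (a : Module.End F V)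
    (ha : LinearMap.trace F V a = 0) : a = 0 := by
  obtain ⟨v, hv⟩ := finrank_le_one_iff.1 hV
  have h := sl_span (J := (⊥ : Submodule F (Module.End F V))) (fun ψ x hψ => ?_) a ha
  · exact (Submodule.mem_bot F).1 h
  · rw [Submodule.mem_bot]
    by_cases hx : x = 0
    · rw [hx, slR_zero]
    obtain ⟨c, rfl⟩ := hv x
    have hc : c ≠ 0 := by
      rintro rfl
      exact hx (zero_smul F v)
    have h1 : ψ v = 0 := by
      rw [map_smul, smul_eq_mul] at hψ
      exact (mul_eq_zero.1 hψ).resolve_left hc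
    have h3 : ψ = 0 := by
      ext w
      obtain ⟨d, rfl⟩ := hv w
      rw [map_smul, h1, smul_zero, LinearMap.zero_apply]
    rw [h3, slR_zero']

end Pool.Agent.PTate
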