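import Pool.Agent.PTate.LinC1
import Pool.Agent.PTate.LinC2
import Pool.Agent.PTate.SlIdeal

/-!
# Lie algebras generated by operators of rank one: connected graphs
-/

set_option autoImplicit false

noncomputable section

namespace Pool.Agent.PTate

open scoped Classical

variable {F : Type} [Field F] {V : Type} [AddCommGroup V] [Module F V] {ι : Type}

variable {S : Finset ι} {m : ι → F} {B : V →ₗ[F] V →ₗ[F] F} {P : ι → V} {adj : ι → ι → Prop}
  {L : Submodule F (Module.End F V)}

private theorem linC3_exit (h : One S m B P adj) {T : Finset ι} (hT : T ⊆ S)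
    (hne : T.Nonempty) (hTS : T.card < S.card) : ∃ j ∈ T, ∃ l ∈ S, l ∉ T ∧ adj j l := by
  by_contra hcon
  push Not at hcon
  obtain ⟨i, hi⟩ := hne
  have hall : ∀ k ∈ S, k ∈ T := by
    intro k hk
    have h1 := h.conn i (hT hi) k hk
    induction h1 with
    | refl => exact hi
    | tail _ h3 ih =>
      by_contra hc
      exact hcon _ (ih h3.1) _ h3.2.1 hc h3.2.2
  exact absurd (Finset.card_le_card hall) (not_le.2 hTS)

private theorem linC3_core (h2 : (2 : F) ≠ 0) (h : One S m B P adj) (hL : LieL S B P adj L)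
    (hS : 4 ≤ S.card) {i j k : ι} (hi : i ∈ S) (hj : j ∈ S) (hk : k ∈ S) (hij : adj i j)
    (hik : adj i k) (hjk : j ≠ k) (hm : m i + m j ≠ 0) :
    ∃ T ⊆ S, T.card = 4 ∧ Fu B L (dif P T) := by
  have eij := h.irr i j hij
  have eik := h.irr i k hik
  have c3 : ({i, j, k} : Finset ι).card = 3 := by
    rw [Finset.card_eq_three]
    exact ⟨i, j, k, eij, eik, hjk, rfl⟩
  have s3 : ({i, j, k} : Finset ι) ⊆ S := by
    intro x hx
    simp only [Finset.mem_insert, Finset.mem_singleton] at hx
    rcases hx with rfl | rfl | rfl <;> assumption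
  obtain ⟨x, hx, l, hl, hlT, hxl⟩ := linC3_exit h s3 ⟨i, by simp⟩ (by omega)
  simp only [Finset.mem_insert, Finset.mem_singleton, not_or] at hlT
  obtain ⟨hli, hlj, hlk⟩ := hlT
  have c4 : ∀ {a b c d : ι}, a ≠ b → a ≠ c → a ≠ d → b ≠ c → b ≠ d → c ≠ d →
      ({a, b, c, d} : Finset ι).card = 4 := by
    intro a b c d h1 h2 h3 h4 h5 h6
    rw [Finset.card_insert_of_notMem (by simp [h1, h2, h3]),
      Finset.card_insert_of_notMem (by simp [h4, h5]),
      Finset.card_insert_of_notMem (by simp [h6]), Finset.card_singleton]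
  have s4 : ∀ {a b c d : ι}, a ∈ S → b ∈ S → c ∈ S → d ∈ S →
      ({a, b, c, d} : Finset ι) ⊆ S := by
    intro a b c d h1 h2 h3 h4 x hx
    simp only [Finset.mem_insert, Finset.mem_singleton] at hx
    rcases hx with rfl | rfl | rfl | rfl <;> assumption
  simp only [Finset.mem_insert, Finset.mem_singleton] at hx
  rcases hx with rfl | rfl | rfl
  · refine ⟨{x, j, k, l}, s4 hi hj hk hl,
      c4 eij eik (Ne.symm hli) hjk (Ne.symm hlj) (Ne.symm hlk), ?_⟩
    exact hL.star h2 h hi hj hk hl (h.symm _ _ hij) (h.symm _ _ hik) (h.symm _ _ hxl) hjk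
      (Ne.symm hlj) (Ne.symm hlk)
  · refine ⟨{k, i, x, l}, s4 hk hi hj hl,
      c4 (Ne.symm eik) (Ne.symm hjk) (Ne.symm hlk) eij (Ne.symm hli) (Ne.symm hlj), ?_⟩
    exact hL.path_mid h2 h hk hi hj hl (h.symm _ _ hik) hij hxl (Ne.symm hjk) (Ne.symm hlk)
      (Ne.symm hli) hm
  · refine ⟨{j, i, x, l}, s4 hj hi hk hl,
      c4 (Ne.symm eij) hjk (Ne.symm hlj) eik (Ne.symm hli) (Ne.symm hlk), ?_⟩
    exact hL.path_end h2 h hj hi hk hl (h.symm _ _ hij) hik hxl hjk (Ne.symm hlj)
      (Ne.symm hli) (by rwa [add_comm])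

/-- the start of the induction -/
theorem LieL.start (h2 : (2 : F) ≠ 0) (h : One S m B P adj) (hL : LieL S B P adj L)
    (hS : 4 ≤ S.card) : ∃ T ⊆ S, T.card = 4 ∧ Fu B L (dif P T) := by
  obtain ⟨i, hi, j, hj, hij, hm⟩ := h.nz hS
  have eij := h.irr i j hij
  have s2 : ({i, j} : Finset ι) ⊆ S := by
    intro x hx
    simp only [Finset.mem_insert, Finset.mem_singleton] at hx
    rcases hx with rfl | rfl <;> assumption
  have c2 : ({i, j} : Finset ι).card = 2 := Finset.card_pair eij
  obtain ⟨x, hx, k, hk, hkT, hxk⟩ := linC3_exit h s2 ⟨i, by simp⟩ (by omega)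
  simp only [Finset.mem_insert, Finset.mem_singleton, not_or] at hkT
  simp only [Finset.mem_insert, Finset.mem_singleton] at hx
  rcases hx with rfl | rfl
  · exact linC3_core h2 h hL hS hi hj hk hij hxk (Ne.symm hkT.2) hm
  · exact linC3_core h2 h hL hS hj hi hk (h.symm _ _ hij) hxk (Ne.symm hkT.1)
      (by rwa [add_comm])

private theorem linC3_all (h2 : (2 : F) ≠ 0) (h : One S m B P adj) (hL : LieL S B P adj L)
    (n : ℕ) : ∀ T : Finset ι, T ⊆ S → 4 ≤ T.card → S.card = T.card + n → Fu B L (dif P T) →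
      Fu B L (dif P S) := by
  induction n with
  | zero =>
    intro T hT _ hc hU
    rw [Finset.eq_of_subset_of_card_le hT (by omega)] at hU
    exact hU
  | succ n ih =>
    intro T hT h4 hc hU
    obtain ⟨j, hj, l, hl, hlT, hjl⟩ :=
      linC3_exit h hT (Finset.card_pos.1 (by omega)) (by omega)
    refine ih (insert l T) (Finset.insert_subset hl hT) ?_ ?_
      (hL.step h2 h hT h4 hU hj hl hlT hjl)
    · rw [Finset.card_insert_of_notMem hlT]; omega
    · rw [Finset.card_insert_of_notMem hlT]; omega

private theorem linC3_fin (h : One S m B P adj) (hU : Fu B L (⊤ : Submodule F V))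
    (X : Module.End F V) (hX : LinearMap.trace F V X = 0) : X ∈ L := by
  by_cases hV : ∃ x y, B x y ≠ 0
  · obtain ⟨x₀, y₀, h0⟩ := hV
    obtain ⟨n, x, y, rfl⟩ := h.exists_ten X
    rw [map_sum] at hX
    simp only [h.trace_ten] at hX
    have e : ∑ i, ten B (x i) (y i) =
        ∑ i, (ten B (x i) (y i) - ten B ((B (x i) (y i) * (B x₀ y₀)⁻¹) • x₀) y₀) := by
      rw [Finset.sum_sub_distrib]
      have e1 : ∑ i, ten B ((B (x i) (y i) * (B x₀ y₀)⁻¹) • x₀) y₀ = 0 := by
        simp only [ten_smul_left]
        rw [← Finset.sum_smul, ← Finset.sum_mul]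
        have e2 : ∑ i, B (x i) (y i) = 0 := by
          rw [← hX]
          exact Finset.sum_congr rfl fun i _ => h.bsymm _ _
        rw [e2, zero_mul, zero_smul]
      rw [e1, sub_zero]
    rw [e]
    refine Submodule.sum_mem _ fun i _ => hU _ trivial _ trivial _ trivial _ trivial ?_
    rw [map_smul, LinearMap.smul_apply, smul_eq_mul, mul_assoc, inv_mul_cancel₀ h0, mul_one]
  · push Not at hV
    have h1 : ∀ x : V, x = 0 := fun x => h.nondeg fun y => hV x y
    have h3 : X = 0 := by
      ext x
      rw [h1 (X x), h1 ((0 : Module.End F V) x)]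
    rw [h3]
    exact L.zero_mem

/-- all vertices -/
theorem LieL.full (h2 : (2 : F) ≠ 0) (h : One S m B P adj) (hL : LieL S B P adj L) :
    ∀ X : Module.End F V, LinearMap.trace F V X = 0 → X ∈ L := by
  intro X hX
  rcases Nat.lt_or_ge S.card 4 with h4 | h4
  · rcases Nat.lt_or_ge S.card 3 with h3 | h3
    · have hc : S.card = 2 := by have := h.two; omega
      obtain ⟨i, j, hij, rfl⟩ := Finset.card_eq_two.1 hc
      have hfin := h.fin
      have hr : Module.finrank F V ≤ 1 := by
        refine finrank_le_one (P i - P j) fun w => ?_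
        have hw : w ∈ (dif P ({i, j} : Finset ι) : Submodule F V) := by rw [h.dif_top]; trivial
        have hle : (dif P ({i, j} : Finset ι) : Submodule F V) ≤ Submodule.span F {P i - P j} := by
          unfold dif
          rw [Submodule.span_le]
          rintro x ⟨a, ha, b, hb, rfl⟩
          simp only [Finset.mem_insert, Finset.mem_singleton] at ha hb
          rw [SetLike.mem_coe, Submodule.mem_span_singleton]
          rcases ha with rfl | rfl <;> rcases hb with rfl | rfl
          · exact ⟨0, by simp⟩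
          · exact ⟨1, by simp⟩
          · exact ⟨-1, by simp⟩
          · exact ⟨0, by simp⟩
        exact Submodule.mem_span_singleton.1 (hle hw)
      rw [sl_line hr X hX]
      exact L.zero_mem
    · have hc : S.card = 3 := by omega
      have hne : S.Nonempty := Finset.card_pos.1 (by omega)
      obtain ⟨i, hi⟩ := hne
      obtain ⟨i', hi', j, hj, hji, hij⟩ := linC3_exit h (T := {i})
        (Finset.singleton_subset_iff.2 hi) ⟨i, by simp⟩ (by simp; omega)
      rw [Finset.mem_singleton] at hi' hji
      subst hi'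
      have s2 : ({i', j} : Finset ι) ⊆ S := by
        intro x hx
        simp only [Finset.mem_insert, Finset.mem_singleton] at hx
        rcases hx with rfl | rfl <;> assumption
      have eij := h.irr _ _ hij
      have c2 : ({i', j} : Finset ι).card = 2 := Finset.card_pair eij
      obtain ⟨x, hx, k, hk, hkT, hxk⟩ := linC3_exit h s2 ⟨i', by simp⟩ (by omega)
      simp only [Finset.mem_insert, Finset.mem_singleton, not_or] at hkT
      simp only [Finset.mem_insert, Finset.mem_singleton] at hx
      have key : ∀ {a b c : ι}, a ∈ S → b ∈ S → c ∈ S → a ≠ b → a ≠ c → b ≠ c →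
          Fu B L (dif P {a, b, c}) → X ∈ L := by
        intro a b c ha hb hcc hab hac hbc hU
        have hS : ({a, b, c} : Finset ι) = S := by
          refine Finset.eq_of_subset_of_card_le ?_ ?_
          · intro x hx
            simp only [Finset.mem_insert, Finset.mem_singleton] at hx
            rcases hx with rfl | rfl | rfl <;> assumption
          · rw [hc, Finset.card_eq_three.2 ⟨a, b, c, hab, hac, hbc, rfl⟩]
        rw [hS, h.dif_top] at hU
        exact linC3_fin h hU X hX
      rcases hx with rfl | rfl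
      · exact key hj hi hk (Ne.symm eij) (Ne.symm hkT.2) (Ne.symm hkT.1)
          (hL.three h2 h hj hi hk (h.symm _ _ hij) (h.symm _ _ hxk) (Ne.symm hkT.2))
      · exact key hi hj hk eij (Ne.symm hkT.1) (Ne.symm hkT.2)
          (hL.three h2 h hi hj hk hij (h.symm _ _ hxk) (Ne.symm hkT.1))
  · obtain ⟨T, hT, hTc, hU⟩ := hL.start h2 h h4
    have h5 := linC3_all h2 h hL (S.card - T.card) T hT (by omega)
      (by have := Finset.card_le_card hT; omega) hU
    rw [h.dif_top] at h5
    exact linC3_fin h h5 X hX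

end Pool.Agent.PTate
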