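import Pool.Agent.PTate.LinC3

/-!
# Graded Lie algebras generated by operators of rank one
-/

set_option autoImplicit false

noncomputable section

namespace Pool.Agent.PTate

open scoped Classical

variable {F : Type} [Field F] {V : Type} [AddCommGroup V] [Module F V] {ι : Type}

variable {S : Finset ι} {m : ι → F} {B : V →ₗ[F] V →ₗ[F] F} {P : ι → V} {adj : ι → ι → Prop}
  {Γ : ℕ → Submodule F (Module.End F V)}

private theorem linD_adj_lie {X X' Y Y' : Module.End F V} (hX : Adj B X X') (hY : Adj B Y Y') :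
    Adj B (X * Y - Y * X) (Y' * X' - X' * Y') := by
  intro x y
  simp only [LinearMap.sub_apply, Module.End.mul_apply, map_sub, hX _ _, hY _ _]

theorem FF.lie (h2 : (2 : F) ≠ 0) (hΓ : Fam S m B P adj Γ) {X Y : Module.End F V}
    (hX : X ∈ FF B Γ) (hY : Y ∈ FF B Γ) : X * Y - Y * X ∈ FF B Γ := by
  obtain ⟨X', hXX, a, ha⟩ := hX
  obtain ⟨Y', hYY, b, hb⟩ := hY
  refine ⟨Y' * X' - X' * Y', linD_adj_lie hXX hYY, a + b + 1, fun n hn => ?_⟩
  obtain ⟨l, rfl⟩ : ∃ l, n = a + (l + 1) := ⟨n - a - 1, by omega⟩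
  have hl : b ≤ l := by omega
  have e1 := hΓ.lie a (l + 1) _ _ (ha a le_rfl) (hb (l + 1) (by omega))
  have e2 := hΓ.lie (a + 1) l _ _ (ha (a + 1) (by omega)) (hb l hl)
  have e3 : a + 1 + l = a + (l + 1) := by omega
  rw [e3] at e2
  have e4 := (Γ (a + (l + 1))).smul_mem (2 : F)⁻¹ (add_mem e1 e2)
  convert e4 using 1
  rw [eq_inv_smul_iff₀ h2]
  have hs : (-1 : F) ^ (a + (l + 1)) = -((-1) ^ a * (-1) ^ l) := by ring
  have hs1 : (-1 : F) ^ (l + 1) = -(-1) ^ l := by ring
  have hs2 : (-1 : F) ^ (a + 1) = -(-1) ^ a := by ring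
  rw [hs, hs1, hs2]
  generalize (-1 : F) ^ a = s
  generalize (-1 : F) ^ l = t
  simp only [sub_mul, mul_sub, smul_mul_assoc, mul_smul_comm]
  module

theorem FF.tr (h : One S m B P adj) {X X' : Module.End F V} (hX : X ∈ FF B Γ)
    (hXX : Adj B X X') : X' ∈ FF B Γ := by
  obtain ⟨X'', hXX', a, ha⟩ := hX
  obtain rfl := h.adj_unique hXX hXX'
  refine ⟨X, fun x y => ?_, a, fun k hk => ?_⟩
  · rw [h.bsymm, ← hXX y x, h.bsymm]
  · have e := (Γ k).smul_mem (-(-1 : F) ^ k) (ha k hk)
    convert e using 1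
    rw [smul_sub, smul_smul]
    have : -(-1 : F) ^ k * (-1) ^ k = -1 := by
      rw [neg_mul, ← pow_add, ← two_mul, pow_mul]; simp
    rw [this]
    module

/-- brackets with an element of degree `r` -/
theorem FF.ad (hΓ : Fam S m B P adj Γ) {r : ℕ} {A : Module.End F V} (hA : A ∈ Γ r)
    (hAr : Ty B r A) {X : Module.End F V} (hX : X ∈ FF B Γ) : A * X - X * A ∈ FF B Γ := by
  obtain ⟨X', hXX, a, ha⟩ := hX
  have hA' : Adj B A ((-1 : F) ^ (r + 1) • A) := by
    intro x y
    rw [hAr x y, LinearMap.smul_apply, map_smul, smul_eq_mul]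
  refine ⟨_, linD_adj_lie hA' hXX, r + a, fun n hn => ?_⟩
  obtain ⟨l, rfl⟩ : ∃ l, n = r + l := ⟨n - r, by omega⟩
  have e := hΓ.lie r l _ _ hA (ha l (by omega))
  convert e using 1
  have hs : (-1 : F) ^ (r + l) * (-1) ^ (r + 1) = -(-1) ^ l := by
    rw [← pow_add, show r + l + (r + 1) = 2 * r + (l + 1) by ring, pow_add, pow_mul]
    simp [pow_succ]
  rw [mul_smul_comm, smul_mul_assoc, ← smul_sub, smul_smul, hs]
  simp only [sub_mul, mul_sub, smul_mul_assoc, mul_smul_comm, smul_sub, neg_smul]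
  abel

theorem ten_self_mem (h : One S m B P adj) (hΓ : Fam S m B P adj Γ) {i j : ι} (hi : i ∈ S)
    (hj : j ∈ S) (hij : adj i j) : ten B (P i - P j) (P i - P j) ∈ Γ 1 := by
  have e := (Γ 1).smul_mem (m i * m j)⁻¹ (hΓ.edge i j hij)
  rw [edg, if_pos ⟨hi, hj⟩, inv_smul_smul₀ (mul_ne_zero (h.ne i hi) (h.ne j hj))] at e
  exact e

/-- the bracket with `u u*` -/
private theorem linD_b1 (u v : V) (hB : B v u = B u v) :
    ten B u u * (ten B u v - ten B v u) - (ten B u v - ten B v u) * ten B u u =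
      B u u • (ten B u v + ten B v u) - (2 * B u v) • ten B u u := by
  simp only [mul_sub, sub_mul, ten_mul, hB]
  module

private theorem linD_b2 (u v : V) (hB : B v u = B u v) :
    ten B u u * (ten B u v + ten B v u) - (ten B u v + ten B v u) * ten B u u =
      B u u • (ten B u v - ten B v u) := by
  simp only [mul_add, add_mul, ten_mul, hB]
  module

private theorem linD_b3 (u v : V) (hB : B v u = B u v) :
    ten B v v * (ten B u v + ten B v u) - (ten B u v + ten B v u) * ten B v v =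
      -(B v v • (ten B u v - ten B v u)) := by
  simp only [mul_add, add_mul, ten_mul, hB]
  module

private theorem linD_b4 (u v : V) (hB : B v u = B u v) :
    ten B v v * ten B u u - ten B u u * ten B v v = -(B u v • (ten B u v - ten B v u)) := by
  simp only [ten_mul, hB]
  module

/-- the brackets of the operators of adjacent edges, in all even degrees -/
theorem exists_ke (h2 : (2 : F) ≠ 0) (h : One S m B P adj) (hΓ : Fam S m B P adj Γ)
    {i j k : ι} (hi : i ∈ S) (hj : j ∈ S) (hk : k ∈ S) (hij : adj i j) (hkj : adj k j)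
    (hik : i ≠ k) (n : ℕ) :
    ten B (P i - P j) (P k - P j) - ten B (P k - P j) (P i - P j) ∈ Γ (2 * n + 2) := by
  have hu := ten_self_mem h hΓ hi hj hij
  have hv := ten_self_mem h hΓ hk hj hkj
  have hb : B (P i - P j) (P k - P j) ≠ 0 := by
    rw [h.B_adj hi hj hk (h.irr i j hij) (h.irr k j hkj) hik]
    exact inv_ne_zero (h.ne j hj)
  have hB : B (P k - P j) (P i - P j) = B (P i - P j) (P k - P j) := h.bsymm _ _
  generalize P i - P j = u at *
  generalize P k - P j = v at *
  induction n with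
  | zero =>
    have e := (Γ 2).smul_mem (-(B u v))⁻¹ (hΓ.lie 1 1 _ _ hv hu)
    rw [linD_b4 u v hB, ← neg_smul, inv_smul_smul₀ (neg_ne_zero.2 hb)] at e
    exact e
  | succ n ih =>
    have e1 := hΓ.lie 1 _ _ _ hu ih
    rw [linD_b1 u v hB] at e1
    by_cases hd : B u u = 0
    · have e2 := hΓ.lie 1 _ _ _ hv e1
      rw [hd, zero_smul, zero_sub, mul_neg, neg_mul, ← neg_sub', mul_smul_comm, smul_mul_assoc,
        ← smul_sub, linD_b4 u v hB, smul_neg, neg_neg, smul_smul] at e2
      have hne : 2 * B u v * B u v ≠ 0 := mul_ne_zero (mul_ne_zero h2 hb) hb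
      have e3 := (Γ _).smul_mem (2 * B u v * B u v)⁻¹ e2
      rw [inv_smul_smul₀ hne] at e3
      have e4 : 1 + (1 + (2 * n + 2)) = 2 * (n + 1) + 2 := by ring
      rwa [e4] at e3
    · have e2 := hΓ.lie 1 _ _ _ hu e1
      have e5 : ten B u u * (B u u • (ten B u v + ten B v u) - (2 * B u v) • ten B u u) -
          (B u u • (ten B u v + ten B v u) - (2 * B u v) • ten B u u) * ten B u u =
          (B u u * B u u) • (ten B u v - ten B v u) := by
        rw [mul_smul (B u u) (B u u), ← linD_b2 u v hB]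
        simp only [mul_sub, sub_mul, mul_smul_comm, smul_mul_assoc, smul_sub]
        abel
      rw [e5] at e2
      have e3 := (Γ _).smul_mem (B u u * B u u)⁻¹ e2
      rw [inv_smul_smul₀ (mul_ne_zero hd hd)] at e3
      have e4 : 1 + (1 + (2 * n + 2)) = 2 * (n + 1) + 2 := by ring
      rwa [e4] at e3

theorem lieL_FF (h2 : (2 : F) ≠ 0) (h : One S m B P adj) (hΓ : Fam S m B P adj Γ) :
    LieL S B P adj (FF B Γ) where
  lie X hX Y hY := FF.lie h2 hΓ hX hY
  tr X X' hXX hX := FF.tr h hX hXX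
  ad i hi j hj hij X hX := by
    refine FF.ad hΓ (ten_self_mem h hΓ hi hj hij) ?_ hX
    intro x y
    rw [ten_apply, ten_apply, map_smul, map_smul, LinearMap.smul_apply, smul_eq_mul, smul_eq_mul,
      h.bsymm x]
    ring
  ke i hi j hj k hk hij hkj hik := by
    refine ⟨ten B (P k - P j) (P i - P j) - ten B (P i - P j) (P k - P j), fun x y => ?_, 1,
      fun n hn => ?_⟩
    · have e1 := ten_adj h.bsymm (P i - P j) (P k - P j) x y
      have e2 := ten_adj h.bsymm (P k - P j) (P i - P j) x y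
      rw [LinearMap.sub_apply, LinearMap.sub_apply, map_sub, map_sub, LinearMap.sub_apply, e1, e2]
    · rcases Nat.even_or_odd' n with ⟨r, rfl | rfl⟩
      · obtain ⟨q, rfl⟩ : ∃ q, r = q + 1 := ⟨r - 1, by omega⟩
        have e := (Γ (2 * (q + 1))).smul_mem (2 : F)
          (exists_ke h2 h hΓ hi hj hk hij hkj hik q)
        convert e using 1
        rw [pow_mul]
        simp only [neg_one_sq, one_pow, one_smul]
        module
      · have e : ten B (P i - P j) (P k - P j) - ten B (P k - P j) (P i - P j) -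
            (-1 : F) ^ (2 * r + 1) • (ten B (P k - P j) (P i - P j) -
              ten B (P i - P j) (P k - P j)) = 0 := by
          rw [pow_succ, pow_mul]
          simp only [neg_one_sq, one_pow, one_mul]
          module
        rw [e]
        exact zero_mem _

/-- All operators of trace zero and of the right type, in all large degrees. -/
theorem single (h2 : (2 : F) ≠ 0) (h : One S m B P adj) (hΓ : Fam S m B P adj Γ) :
    ∃ k₀, ∀ k, k₀ ≤ k → ∀ X, Ty B k X → LinearMap.trace F V X = 0 → X ∈ Γ k := by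
  have := h.fin
  have hful := LieL.full h2 h (lieL_FF h2 h hΓ)
  obtain ⟨s, hs⟩ : (LinearMap.ker (LinearMap.trace F V)).FG := IsNoetherian.noetherian _
  have hmem : ∀ X ∈ s, X ∈ FF B Γ := fun X hX => hful X (by
    have : X ∈ LinearMap.ker (LinearMap.trace F V) := hs ▸ Submodule.subset_span hX
    exact this)
  have hk : ∀ X : Module.End F V, ∃ a : ℕ, X ∈ s → ∃ X', Adj B X X' ∧
      ∀ k, a ≤ k → X - (-1 : F) ^ k • X' ∈ Γ k := by
    intro X
    by_cases hX : X ∈ s
    · obtain ⟨X', hXX, a, ha⟩ := hmem X hX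
      exact ⟨a, fun _ => ⟨X', hXX, ha⟩⟩
    · exact ⟨0, fun h => absurd h hX⟩
  choose a ha using hk
  refine ⟨s.sup a, fun k hk X hXk hX => ?_⟩
  have key : ∀ X ∈ Submodule.span F (s : Set (Module.End F V)), ∃ X', Adj B X X' ∧
      X - (-1 : F) ^ k • X' ∈ Γ k := by
    intro X hX
    induction hX using Submodule.span_induction with
    | mem X hX =>
      obtain ⟨X', h1, h3⟩ := ha X hX
      exact ⟨X', h1, h3 k ((Finset.le_sup hX).trans hk)⟩
    | zero => exact ⟨0, fun x y => by simp, by simp⟩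
    | add X Y _ _ hX hY =>
      obtain ⟨X', h1, h3⟩ := hX
      obtain ⟨Y', g1, g3⟩ := hY
      refine ⟨X' + Y', fun x y => ?_, ?_⟩
      · simp only [LinearMap.add_apply, map_add, h1 x y, g1 x y]
      · convert add_mem h3 g3 using 1
        module
    | smul c X _ hX =>
      obtain ⟨X', h1, h3⟩ := hX
      refine ⟨c • X', fun x y => ?_, ?_⟩
      · simp only [LinearMap.smul_apply, map_smul, h1 x y]
      · convert (Γ k).smul_mem c h3 using 1
        module
  obtain ⟨X', h1, h3⟩ := key X (by rw [hs]; exact hX)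
  have e1 : X' = (-1 : F) ^ (k + 1) • X := by
    refine h.adj_unique h1 fun x y => ?_
    rw [hXk x y, LinearMap.smul_apply, map_smul, smul_eq_mul]
  have e2 : X - (-1 : F) ^ k • X' = (2 : F) • X := by
    rw [e1, smul_smul, ← pow_add, show k + (k + 1) = 2 * k + 1 by ring, pow_succ, pow_mul]
    simp only [neg_one_sq, one_pow, one_mul]
    module
  rw [e2] at h3
  have e3 := (Γ k).smul_mem (2 : F)⁻¹ h3
  rwa [inv_smul_smul₀ h2] at e3

end Pool.Agent.PTate
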