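import Mathlib

/-!
# Graded Lie algebras generated by symmetric operators of rank one: definitions
-/

set_option autoImplicit false

noncomputable section

namespace Pool.Agent.PTate

open scoped Classical

section One

variable {F : Type} [Field F] {V : Type} [AddCommGroup V] [Module F V] {ι : Type}

/-- The operator `v ↦ B(y, v) x`. -/
def ten (B : V →ₗ[F] V →ₗ[F] F) (x y : V) : Module.End F V := (B y).smulRight x

/-- `X` is symmetric for odd `n` and skew for even `n`. -/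
def Ty (B : V →ₗ[F] V →ₗ[F] F) (n : ℕ) (X : Module.End F V) : Prop :=
  ∀ x y, B (X x) y = (-1) ^ (n + 1) * B x (X y)

/-- `X'` is the adjoint of `X`. -/
def Adj (B : V →ₗ[F] V →ₗ[F] F) (X X' : Module.End F V) : Prop := ∀ x y, B (X x) y = B x (X' y)

/-- The operator of the edge `{i, j}`. -/
def edg (B : V →ₗ[F] V →ₗ[F] F) (S : Finset ι) (m : ι → F) (P : ι → V) (i j : ι) :
    Module.End F V :=
  if i ∈ S ∧ j ∈ S then (m i * m j) • ten B (P i - P j) (P i - P j) else 0

/-- The data of one curve: vectors `P i`, `i ∈ S`, with the relation `∑ m i P i = 0` and the scalar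
products `δ i j / m i - 1 / ∑ m`; the edges of the graph connect the vertices of `S`. -/
structure One (S : Finset ι) (m : ι → F) (B : V →ₗ[F] V →ₗ[F] F) (P : ι → V)
    (adj : ι → ι → Prop) : Prop where
  two : 2 ≤ S.card
  ne : ∀ i ∈ S, m i ≠ 0
  neM : ∑ i ∈ S, m i ≠ 0
  nz : 4 ≤ S.card → ∃ i ∈ S, ∃ j ∈ S, adj i j ∧ m i + m j ≠ 0
  bsymm : ∀ x y, B x y = B y x
  span : ∀ x, ∃ c : ι → F, x = ∑ i ∈ S, c i • P i
  rel : ∑ i ∈ S, m i • P i = 0
  pair : ∀ i ∈ S, ∀ j ∈ S, B (P i) (P j) = (if i = j then (m i)⁻¹ else 0) - (∑ l ∈ S, m l)⁻¹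
  irr : ∀ i j, adj i j → i ≠ j
  symm : ∀ i j, adj i j → adj j i
  conn : ∀ i ∈ S, ∀ j ∈ S,
    Relation.ReflTransGen (fun u v => u ∈ S ∧ v ∈ S ∧ adj u v) i j

/-- A Lie algebra of operators stable under the adjoint and under the brackets with the operators
of the edges, which contains the brackets of the operators of adjacent edges. -/
structure LieL (S : Finset ι) (B : V →ₗ[F] V →ₗ[F] F) (P : ι → V) (adj : ι → ι → Prop)
    (L : Submodule F (Module.End F V)) : Prop where
  lie : ∀ X ∈ L, ∀ Y ∈ L, X * Y - Y * X ∈ L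
  tr : ∀ X X', Adj B X X' → X ∈ L → X' ∈ L
  ad : ∀ i ∈ S, ∀ j ∈ S, adj i j → ∀ X ∈ L,
    ten B (P i - P j) (P i - P j) * X - X * ten B (P i - P j) (P i - P j) ∈ L
  ke : ∀ i ∈ S, ∀ j ∈ S, ∀ k ∈ S, adj i j → adj k j → i ≠ k →
    ten B (P i - P j) (P k - P j) - ten B (P k - P j) (P i - P j) ∈ L

/-- `L` contains all operators of trace zero in `U ⊗ U`. -/
def Fu (B : V →ₗ[F] V →ₗ[F] F) (L : Submodule F (Module.End F V)) (U : Submodule F V) : Prop :=
  ∀ x ∈ U, ∀ y ∈ U, ∀ x' ∈ U, ∀ y' ∈ U, B x y = B x' y' → ten B x y - ten B x' y' ∈ L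

/-- The subspace generated by the differences of the vectors of `T`. -/
def dif (P : ι → V) (T : Finset ι) : Submodule F V :=
  Submodule.span F {x | ∃ i ∈ T, ∃ j ∈ T, x = P i - P j}

/-- A graded Lie algebra of operators which contains the operators of the edges in degree one. -/
structure Fam (S : Finset ι) (m : ι → F) (B : V →ₗ[F] V →ₗ[F] F) (P : ι → V)
    (adj : ι → ι → Prop) (Γ : ℕ → Submodule F (Module.End F V)) : Prop where
  edge : ∀ i j, adj i j → edg B S m P i j ∈ Γ 1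
  lie : ∀ n k X Y, X ∈ Γ n → Y ∈ Γ k → X * Y - Y * X ∈ Γ (n + k)

/-- The operators `X` such that the symmetric part or the skew part of `X` is in `Γ k` for all
large `k`, according to the parity of `k`. -/
def FF (B : V →ₗ[F] V →ₗ[F] F) (Γ : ℕ → Submodule F (Module.End F V)) :
    Submodule F (Module.End F V) where
  carrier := {X | ∃ X', Adj B X X' ∧ ∃ k₀, ∀ k, k₀ ≤ k → X - (-1 : F) ^ k • X' ∈ Γ k}
  add_mem' := by
    rintro X Y ⟨X', hX, a, ha⟩ ⟨Y', hY, b, hb⟩
    refine ⟨X' + Y', fun x y => ?_, max a b, fun k hk => ?_⟩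
    · simp only [LinearMap.add_apply, map_add, hX x y, hY x y]
    · have h := add_mem (ha k (le_of_max_le_left hk)) (hb k (le_of_max_le_right hk))
      have e : X + Y - (-1 : F) ^ k • (X' + Y') =
          X - (-1 : F) ^ k • X' + (Y - (-1 : F) ^ k • Y') := by
        rw [smul_add]; abel
      rw [e]; exact h
  zero_mem' := ⟨0, fun x y => by simp, 0, fun k _ => by simp⟩
  smul_mem' := by
    rintro c X ⟨X', hX, a, ha⟩
    refine ⟨c • X', fun x y => ?_, a, fun k hk => ?_⟩
    · simp only [LinearMap.smul_apply, map_smul, hX x y]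
    · have e : c • X - (-1 : F) ^ k • c • X' = c • (X - (-1 : F) ^ k • X') := by
        rw [smul_sub, smul_comm]
      rw [e]; exact (Γ k).smul_mem c (ha k hk)

end One

section Prod

variable {F : Type} [Field F] {σ ι : Type} {V : σ → Type} [∀ s, AddCommGroup (V s)]
  [∀ s, Module F (V s)]

/-- The graded Lie algebra generated by the operators of the edges on all curves. -/
inductive Gen (S : σ → Finset ι) (m : σ → ι → F) (B : ∀ s, V s →ₗ[F] V s →ₗ[F] F)
    (P : ∀ s, ι → V s) (adj : ι → ι → Prop) : ℕ → (∀ s, Module.End F (V s)) → Prop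
  | edge (i j : ι) : adj i j → Gen S m B P adj 1 fun s => edg (B s) (S s) (m s) (P s) i j
  | zero (n : ℕ) : Gen S m B P adj (n + 1) 0
  | add (n : ℕ) (X Y : ∀ s, Module.End F (V s)) : Gen S m B P adj n X → Gen S m B P adj n Y →
      Gen S m B P adj n (X + Y)
  | smul (n : ℕ) (c : F) (X : ∀ s, Module.End F (V s)) : Gen S m B P adj n X →
      Gen S m B P adj n (c • X)
  | lie (n k : ℕ) (X Y : ∀ s, Module.End F (V s)) : Gen S m B P adj n X → Gen S m B P adj k Y →
      Gen S m B P adj (n + k) (X * Y - Y * X)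

/-- The data of several curves. -/
structure LinP (S : σ → Finset ι) (m : σ → ι → F) (B : ∀ s, V s →ₗ[F] V s →ₗ[F] F)
    (P : ∀ s, ι → V s) (adj : ι → ι → Prop) : Prop where
  one : ∀ s, One (S s) (m s) (B s) (P s) adj
  sep : ∀ s t, s ≠ t → S s = S t → 3 ≤ (S s).card → ∃ i ∈ S s, ∃ j ∈ S s, ∃ k ∈ S s,
    ∃ l ∈ S s, adj i j ∧ adj k l ∧
      ((m s i + m s j) * (m t k + m t l)) ^ 2 ≠ ((m t i + m t j) * (m s k + m s l)) ^ 2

variable {S : σ → Finset ι} {m : σ → ι → F} {B : ∀ s, V s →ₗ[F] V s →ₗ[F] F}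
    {P : ∀ s, ι → V s} {adj : ι → ι → Prop}

/-- The components at `s` of the elements of the graded Lie algebra which vanish at the elements of
`R`, in all large degrees. -/
def FS (S : σ → Finset ι) (m : σ → ι → F) (B : ∀ s, V s →ₗ[F] V s →ₗ[F] F)
    (P : ∀ s, ι → V s) (adj : ι → ι → Prop) (s : σ) (R : Set σ) :
    Submodule F (Module.End F (V s)) where
  carrier := {a | ∃ a', Adj (B s) a a' ∧ ∃ k₀, ∀ k, k₀ ≤ k → ∃ X, Gen S m B P adj k X ∧
    X s = a - (-1 : F) ^ k • a' ∧ ∀ t ∈ R, X t = 0}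
  add_mem' := by
    rintro a b ⟨a', ha, k₀, h⟩ ⟨b', hb, k₁, g⟩
    refine ⟨a' + b', fun x y => ?_, max k₀ k₁, fun k hk => ?_⟩
    · simp only [LinearMap.add_apply, map_add, ha x y, hb x y]
    · obtain ⟨X, h1, h2, h3⟩ := h k (le_of_max_le_left hk)
      obtain ⟨Y, g1, g2, g3⟩ := g k (le_of_max_le_right hk)
      refine ⟨X + Y, .add k X Y h1 g1, ?_, fun t ht => ?_⟩
      · rw [Pi.add_apply, h2, g2, smul_add]; abel
      · rw [Pi.add_apply, h3 t ht, g3 t ht, add_zero]
  zero_mem' := ⟨0, fun x y => by simp, 1, fun k hk => ⟨0, by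
    obtain ⟨n, rfl⟩ := Nat.exists_eq_add_of_le' hk
    exact .zero n, by simp, fun _ _ => rfl⟩⟩
  smul_mem' := by
    rintro c a ⟨a', ha, k₀, h⟩
    refine ⟨c • a', fun x y => ?_, k₀, fun k hk => ?_⟩
    · simp only [LinearMap.smul_apply, map_smul, ha x y]
    · obtain ⟨X, h1, h2, h3⟩ := h k hk
      refine ⟨c • X, .smul k c X h1, ?_, fun t ht => ?_⟩
      · rw [Pi.smul_apply, h2, smul_sub, smul_comm]
      · rw [Pi.smul_apply, h3 t ht, smul_zero]

end Prod

end Pool.Agent.PTate
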