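import Pool.Agent.PTate.LinD
import Pool.Agent.PTate.SlIdeal
import Pool.Agent.PTate.LinE1

/-!
# Graded Lie algebras in products: closure properties
-/

set_option autoImplicit false

noncomputable section

namespace Pool.Agent.PTate

open scoped Classical

section One

variable {F : Type} [Field F] {V : Type} [AddCommGroup V] [Module F V] {ι : Type}
  {S : Finset ι} {m : ι → F} {B : V →ₗ[F] V →ₗ[F] F} {P : ι → V} {adj : ι → ι → Prop}

private theorem linE2_adj_symm (hB : ∀ x y, B x y = B y x) {X X' : Module.End F V}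
    (h : Adj B X X') : Adj B X' X := fun x y => by
  rw [hB (X' x) y, ← h y x, hB]

private theorem linE2_adj_sub {X X' Y Y' : Module.End F V} (hX : Adj B X X')
    (hY : Adj B Y Y') : Adj B (X - Y) (X' - Y') := fun x y => by
  rw [LinearMap.sub_apply, LinearMap.sub_apply, map_sub, map_sub, LinearMap.sub_apply, hX, hY]

private theorem linE2_adj_mul {X X' Y Y' : Module.End F V} (hX : Adj B X X')
    (hY : Adj B Y Y') : Adj B (X * Y) (Y' * X') := fun x y => by
  rw [Module.End.mul_apply, Module.End.mul_apply, hX, hY]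

private theorem linE2_adj_lie {X X' Y Y' : Module.End F V} (hX : Adj B X X')
    (hY : Adj B Y Y') : Adj B (X * Y - Y * X) (Y' * X' - X' * Y') :=
  linE2_adj_sub (linE2_adj_mul hX hY) (linE2_adj_mul hY hX)

private theorem linE2_trace (h : One S m B P adj) {X X' : Module.End F V} (hX : Adj B X X') :
    LinearMap.trace F V X' = LinearMap.trace F V X := by
  obtain ⟨n, x, y, rfl⟩ := h.exists_ten X
  have h1 : Adj B (∑ i, ten B (x i) (y i)) (∑ i, ten B (y i) (x i)) := by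
    intro u v
    rw [LinearMap.sum_apply, LinearMap.sum_apply, map_sum, map_sum, LinearMap.sum_apply]
    exact Finset.sum_congr rfl fun i _ => ten_adj h.bsymm (x i) (y i) u v
  rw [h.adj_unique hX h1, map_sum, map_sum]
  exact Finset.sum_congr rfl fun i _ => by rw [h.trace_ten, h.trace_ten, h.bsymm]

/-- the parts of an operator -/
private theorem linE2_ty (hB : ∀ x y, B x y = B y x) {X X' : Module.End F V} (h : Adj B X X')
    (k : ℕ) : Ty B k (X - (-1 : F) ^ k • X') := by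
  intro x y
  have h1 := h x y
  have h2 := linE2_adj_symm hB h x y
  have h3 : (-1 : F) ^ k * (-1 : F) ^ k = 1 := by
    rw [← mul_pow]
    simp
  simp only [LinearMap.sub_apply, LinearMap.smul_apply, map_sub, map_smul, smul_eq_mul]
  rw [h1, h2, pow_succ]
  linear_combination (-B x (X' y)) * h3

private theorem linE2_ty_adj {k : ℕ} {X : Module.End F V} (h : Ty B k X) :
    Adj B X ((-1 : F) ^ (k + 1) • X) := fun x y => by
  rw [LinearMap.smul_apply, map_smul, smul_eq_mul]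
  exact h x y

end One

variable {F : Type} [Field F] {σ ι : Type} {V : σ → Type} [∀ s, AddCommGroup (V s)]
  [∀ s, Module F (V s)] {S : σ → Finset ι} {m : σ → ι → F}
  {B : ∀ s, V s →ₗ[F] V s →ₗ[F] F} {P : ∀ s, ι → V s} {adj : ι → ι → Prop}

/-- the components at `s` of the elements of degree `k` -/
private def linE2_Gam (S : σ → Finset ι) (m : σ → ι → F) (B : ∀ s, V s →ₗ[F] V s →ₗ[F] F)
    (P : ∀ s, ι → V s) (adj : ι → ι → Prop) (s : σ) (k : ℕ) :
    Submodule F (Module.End F (V s)) where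
  carrier := {a | a = 0 ∨ ∃ X, Gen S m B P adj k X ∧ X s = a}
  add_mem' := by
    rintro a b (rfl | ⟨X, hX, rfl⟩) (rfl | ⟨Y, hY, rfl⟩)
    · exact Or.inl (add_zero 0)
    · exact Or.inr ⟨Y, hY, (zero_add _).symm⟩
    · exact Or.inr ⟨X, hX, (add_zero _).symm⟩
    · exact Or.inr ⟨X + Y, .add k X Y hX hY, rfl⟩
  zero_mem' := Or.inl rfl
  smul_mem' := by
    rintro c a (rfl | ⟨X, hX, rfl⟩)
    · exact Or.inl (smul_zero c)
    · exact Or.inr ⟨c • X, .smul k c X hX, rfl⟩

private theorem linE2_fam (S : σ → Finset ι) (m : σ → ι → F) (B : ∀ s, V s →ₗ[F] V s →ₗ[F] F)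
    (P : ∀ s, ι → V s) (adj : ι → ι → Prop) (s : σ) :
    Fam (S s) (m s) (B s) (P s) adj (linE2_Gam S m B P adj s) where
  edge i j hij := Or.inr ⟨_, .edge i j hij, rfl⟩
  lie := by
    rintro n k X Y (rfl | ⟨X, hX, rfl⟩) (rfl | ⟨Y, hY, rfl⟩)
    · exact Or.inl (by simp)
    · exact Or.inl (by simp)
    · exact Or.inl (by simp)
    · exact Or.inr ⟨_, .lie n k X Y hX hY, rfl⟩

/-- the projection to one component -/
theorem FS.empty (h2 : (2 : F) ≠ 0) (h : LinP S m B P adj) (s : σ) (a : Module.End F (V s))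
    (ha : LinearMap.trace F (V s) a = 0) : a ∈ FS S m B P adj s ∅ := by
  obtain ⟨a', ha'⟩ := (h.one s).exists_adj a
  obtain ⟨k₀, hk₀⟩ := single h2 (h.one s) (linE2_fam S m B P adj s)
  refine ⟨a', ha', k₀ + 1, fun k hk => ?_⟩
  have h1 := hk₀ k (by omega) _ (linE2_ty (h.one s).bsymm ha' k) (by
    rw [map_sub, map_smul, linE2_trace (h.one s) ha', ha, smul_zero, sub_zero])
  rcases h1 with h1 | ⟨X, hX, h1⟩
  · obtain ⟨n, rfl⟩ : ∃ n, k = n + 1 := ⟨k - 1, by omega⟩
    exact ⟨0, .zero n, h1.symm, fun _ _ => rfl⟩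
  · exact ⟨X, hX, h1, fun t ht => absurd ht (Set.notMem_empty t)⟩

theorem FS.lie (h2 : (2 : F) ≠ 0) {s : σ} {R R' : Set σ} {a b : Module.End F (V s)}
    (ha : a ∈ FS S m B P adj s R) (hb : b ∈ FS S m B P adj s R') :
    a * b - b * a ∈ FS S m B P adj s (R ∪ R') := by
  obtain ⟨a', ha', k₀, hk₀⟩ := ha
  obtain ⟨b', hb', k₁, hk₁⟩ := hb
  refine ⟨b' * a' - a' * b', linE2_adj_lie ha' hb', k₀ + k₁ + 1, fun n hn => ?_⟩
  obtain ⟨l, rfl⟩ : ∃ l, n = k₀ + (l + 1) := ⟨n - k₀ - 1, by omega⟩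
  obtain ⟨X, hX, hXs, hX0⟩ := hk₀ k₀ le_rfl
  obtain ⟨X₁, hX₁, hX₁s, hX₁0⟩ := hk₀ (k₀ + 1) (by omega)
  obtain ⟨Y, hY, hYs, hY0⟩ := hk₁ (l + 1) (by omega)
  obtain ⟨Y₁, hY₁, hY₁s, hY₁0⟩ := hk₁ l (by omega)
  have h1 : Gen S m B P adj (k₀ + (l + 1)) (X * Y - Y * X) := .lie _ _ X Y hX hY
  have h3 : Gen S m B P adj (k₀ + (l + 1)) (X₁ * Y₁ - Y₁ * X₁) := by
    have := Gen.lie _ _ X₁ Y₁ hX₁ hY₁
    rwa [show k₀ + 1 + l = k₀ + (l + 1) by omega] at this
  refine ⟨(2 : F)⁻¹ • ((X * Y - Y * X) + (X₁ * Y₁ - Y₁ * X₁)), .smul _ _ _ (.add _ _ _ h1 h3),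
    ?_, fun t ht => ?_⟩
  · have h4 : ((X * Y - Y * X) + (X₁ * Y₁ - Y₁ * X₁)) s = (2 : F) •
        (a * b - b * a - (-1 : F) ^ (k₀ + (l + 1)) • (b' * a' - a' * b')) := by
      simp only [Pi.add_apply, Pi.sub_apply, Pi.mul_apply, hXs, hX₁s, hYs, hY₁s]
      simp only [sub_mul, mul_sub, smul_mul_assoc, mul_smul_comm, smul_smul, smul_sub, two_smul,
        pow_succ, pow_add, mul_neg, mul_one, neg_mul, neg_smul]
      module
    rw [Pi.smul_apply, h4, smul_smul, inv_mul_cancel₀ h2, one_smul]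
  · simp only [Pi.smul_apply, Pi.add_apply, Pi.sub_apply, Pi.mul_apply]
    rcases ht with ht | ht
    · rw [hX0 t ht, hX₁0 t ht]
      simp
    · rw [hY0 t ht, hY₁0 t ht]
      simp

/-- One element which vanishes at the elements of `R` and is not a scalar at `s`. -/
theorem FS.of_gen (h2 : (2 : F) ≠ 0) (h : LinP S m B P adj) {s : σ} {R : Set σ} {n : ℕ}
    {X : ∀ s, Module.End F (V s)} (hX : Gen S m B P adj n X) (hR : ∀ t ∈ R, X t = 0)
    (hs : ¬ ∃ c : F, X s = c • 1) (a : Module.End F (V s))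
    (ha : LinearMap.trace F (V s) a = 0) : a ∈ FS S m B P adj s R := by
  have hfin : Module.Finite F (V s) := (h.one s).fin
  refine sl_ideal h2 (J := FS S m B P adj s R) ?_ (X := X s) ?_ hs a ha
  · intro b hb a ha
    have h1 := FS.lie h2 (FS.empty h2 h s b hb) ha
    rwa [Set.empty_union] at h1
  · intro b hb
    obtain ⟨b', hb', k₀, hk₀⟩ := FS.empty h2 h s b hb
    refine ⟨_, linE2_adj_lie hb' (linE2_ty_adj (hX.ty h s)), k₀ + n, fun k hk => ?_⟩
    obtain ⟨l, rfl⟩ : ∃ l, k = l + n := ⟨k - n, by omega⟩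
    obtain ⟨Y, hY, hYs, -⟩ := hk₀ l (by omega)
    refine ⟨Y * X - X * Y, .lie _ _ Y X hY hX, ?_, fun t ht => ?_⟩
    · have h3 : (-1 : F) ^ n * (-1 : F) ^ n = 1 := by
        rw [← mul_pow]
        simp
      have h4 : (-1 : F) ^ (l + n) * (-1 : F) ^ (n + 1) = -(-1 : F) ^ l := by
        rw [pow_add, pow_succ]
        linear_combination (-(-1 : F) ^ l) * h3
      simp only [Pi.sub_apply, Pi.mul_apply, hYs]
      rw [smul_mul_assoc, mul_smul_comm, ← smul_sub, smul_smul, h4]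
      simp only [sub_mul, mul_sub, smul_mul_assoc, mul_smul_comm, smul_sub, neg_smul]
      abel
    · simp only [Pi.sub_apply, Pi.mul_apply, hR t ht]
      simp

/-- `R` and `R'` -/
theorem FS.union (h2 : (2 : F) ≠ 0) (h : LinP S m B P adj) {s : σ} {R R' : Set σ}
    (hR : ∀ a, LinearMap.trace F (V s) a = 0 → a ∈ FS S m B P adj s R)
    (hR' : ∀ a, LinearMap.trace F (V s) a = 0 → a ∈ FS S m B P adj s R')
    (a : Module.End F (V s)) (ha : LinearMap.trace F (V s) a = 0) :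
    a ∈ FS S m B P adj s (R ∪ R') := by
  have hfin : Module.Finite F (V s) := (h.one s).fin
  refine (Submodule.span_le.2 ?_) (sl_perfect h2 a ha)
  rintro _ ⟨b, c, hb, hc, rfl⟩
  exact FS.lie h2 (hR b hb) (hR' c hc)

/-- the degree does not depend on the operator -/
theorem FS.uniform (h2 : (2 : F) ≠ 0) (h : LinP S m B P adj) {s : σ} {R : Set σ}
    (hR : ∀ a, LinearMap.trace F (V s) a = 0 → a ∈ FS S m B P adj s R) :
    ∃ k₀, ∀ k, k₀ ≤ k → ∀ a, Ty (B s) k a → LinearMap.trace F (V s) a = 0 →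
      ∃ X, Gen S m B P adj k X ∧ X s = a ∧ ∀ t ∈ R, X t = 0 := by
  have hfin : Module.Finite F (V s) := (h.one s).fin
  let Q : ℕ → Module.End F (V s) → Prop := fun K a => ∃ a', Adj (B s) a a' ∧
    ∀ k, K ≤ k → ∃ X, Gen S m B P adj k X ∧ X s = a - (-1 : F) ^ k • a' ∧ ∀ t ∈ R, X t = 0
  have hQ : ∀ {K K' a}, K ≤ K' → Q K a → Q K' a := fun hK ⟨a', ha', h⟩ =>
    ⟨a', ha', fun k hk => h k (hK.trans hk)⟩
  have h1 : ∀ a : Module.End F (V s), ∃ k₀, LinearMap.trace F (V s) a = 0 → Q k₀ a := by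
    intro a
    by_cases ha : LinearMap.trace F (V s) a = 0
    · obtain ⟨a', ha', k₀, hk₀⟩ := hR a ha
      exact ⟨k₀, fun _ => ⟨a', ha', hk₀⟩⟩
    · exact ⟨0, fun h => absurd h ha⟩
  choose f hf using h1
  obtain ⟨t, ht⟩ := IsNoetherian.noetherian (LinearMap.ker (LinearMap.trace F (V s)))
  have key : ∀ a : Module.End F (V s), LinearMap.trace F (V s) a = 0 → Q (t.sup f + 1) a := by
    intro a ha
    have ha1 : a ∈ Submodule.span F (t : Set (Module.End F (V s))) := by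
      rw [ht]
      exact ha
    induction ha1 using Submodule.span_induction with
    | mem x hx =>
      have hx1 : x ∈ LinearMap.ker (LinearMap.trace F (V s)) := by
        rw [← ht]
        exact Submodule.subset_span hx
      exact hQ ((Finset.le_sup (f := f) hx).trans (Nat.le_succ _)) (hf x hx1)
    | zero =>
      refine ⟨0, fun x y => by simp, fun k hk => ⟨0, ?_, by simp, fun _ _ => rfl⟩⟩
      obtain ⟨n, rfl⟩ : ∃ n, k = n + 1 := ⟨k - 1, by omega⟩
      exact .zero n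
    | add x y hx hy hx1 hy1 =>
      have hxt : LinearMap.trace F (V s) x = 0 := by
        rw [ht] at hx
        exact hx
      have hyt : LinearMap.trace F (V s) y = 0 := by
        rw [ht] at hy
        exact hy
      obtain ⟨x', hx', hx2⟩ := hx1 hxt
      obtain ⟨y', hy', hy2⟩ := hy1 hyt
      refine ⟨x' + y', fun u v => ?_, fun k hk => ?_⟩
      · simp only [LinearMap.add_apply, map_add, hx' u v, hy' u v]
      · obtain ⟨X, g1, g2, g3⟩ := hx2 k hk
        obtain ⟨Y, g4, g5, g6⟩ := hy2 k hk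
        refine ⟨X + Y, .add k X Y g1 g4, ?_, fun t ht => ?_⟩
        · rw [Pi.add_apply, g2, g5, smul_add]
          abel
        · rw [Pi.add_apply, g3 t ht, g6 t ht, add_zero]
    | smul c x hx hx1 =>
      have hxt : LinearMap.trace F (V s) x = 0 := by
        rw [ht] at hx
        exact hx
      obtain ⟨x', hx', hx2⟩ := hx1 hxt
      refine ⟨c • x', fun u v => ?_, fun k hk => ?_⟩
      · simp only [LinearMap.smul_apply, map_smul, hx' u v]
      · obtain ⟨X, g1, g2, g3⟩ := hx2 k hk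
        refine ⟨c • X, .smul k c X g1, ?_, fun t ht => ?_⟩
        · rw [Pi.smul_apply, g2, smul_sub, smul_comm]
        · rw [Pi.smul_apply, g3 t ht, smul_zero]
  refine ⟨t.sup f + 1, fun k hk a hty ha => ?_⟩
  obtain ⟨a', ha', h3⟩ := key a ha
  obtain ⟨X, g1, g2, g3⟩ := h3 k hk
  have h4 : a' = (-1 : F) ^ (k + 1) • a := (h.one s).adj_unique ha' (linE2_ty_adj hty)
  have h5 : (-1 : F) ^ k * (-1 : F) ^ (k + 1) = -1 := by
    rw [pow_succ, ← mul_assoc, ← mul_pow]
    simp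
  refine ⟨(2 : F)⁻¹ • X, .smul k _ X g1, ?_, fun t ht => ?_⟩
  · rw [Pi.smul_apply, g2, h4, smul_smul, h5, neg_smul, one_smul, sub_neg_eq_add, ← two_smul F a,
      smul_smul, inv_mul_cancel₀ h2, one_smul]
  · rw [Pi.smul_apply, g3 t ht, smul_zero]

end Pool.Agent.PTate
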