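import Pool.Agent.PTate.LinE2

/-!
# Separation of the components: special elements
-/

set_option autoImplicit false

noncomputable section

namespace Pool.Agent.PTate

open scoped Classical

section LinS1One

variable {F : Type} [Field F] {V : Type} [AddCommGroup V] [Module F V] {ι : Type}
  {S : Finset ι} {m : ι → F} {B : V →ₗ[F] V →ₗ[F] F} {P : ι → V} {adj : ι → ι → Prop}

private theorem LinS1_edg_symm (i j : ι) : edg B S m P i j = edg B S m P j i := by
  have h1 : ten B (P i - P j) (P i - P j) = ten B (P j - P i) (P j - P i) := by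
    ext v
    rw [ten_apply, ten_apply, ← neg_sub (P j) (P i), map_neg, LinearMap.neg_apply, neg_smul,
      smul_neg, neg_neg]
  unfold edg
  by_cases h : i ∈ S ∧ j ∈ S
  · rw [if_pos h, if_pos h.symm, h1, mul_comm]
  · rw [if_neg h, if_neg fun g => h g.symm]

private theorem LinS1_coeff (h : One S m B P adj) {c : ι → F} (hc : ∑ i ∈ S, c i • P i = 0)
    (h0 : ∑ i ∈ S, c i = 0) : ∀ i ∈ S, c i = 0 := by
  intro i hi
  have h1 : c i * ∑ j ∈ S, m j = 0 := by
    rw [Finset.mul_sum, Finset.sum_congr rfl fun j hj => h.coeff hc i hi j hj,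
      ← Finset.sum_mul, h0, zero_mul]
  exact (mul_eq_zero.1 h1).resolve_right h.neM

private theorem LinS1_indep (h : One S m B P adj) {i j k l : ι} (hi : i ∈ S) (hj : j ∈ S)
    (hk : k ∈ S) (hl : l ∈ S) (hij : i ≠ j) (hkl : k ≠ l) (h1 : ¬ (i = k ∧ j = l))
    (h1' : ¬ (i = l ∧ j = k)) : LinearIndependent F ![P i - P j, P k - P l] := by
  rw [LinearIndependent.pair_iff]
  intro a b hab
  obtain ⟨c, hc⟩ : ∃ c : ι → F, ∀ x, c x = a * ((if x = i then 1 else 0) - (if x = j then 1 else 0)) +
      b * ((if x = k then 1 else 0) - (if x = l then 1 else 0)) := ⟨_, fun _ => rfl⟩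
  have e1 : ∀ (y : ι), y ∈ S → ∑ x ∈ S, (if x = y then (1 : F) else 0) • P x = P y := by
    intro y hy
    simp only [ite_smul, one_smul, zero_smul, Finset.sum_ite_eq', hy, if_true]
  have e2 : ∀ (y : ι), y ∈ S → ∑ x ∈ S, (if x = y then (1 : F) else 0) = 1 := by
    intro y hy
    simp only [Finset.sum_ite_eq', hy, if_true]
  have hc1 : ∑ x ∈ S, c x • P x = 0 := by
    simp only [hc, add_smul, mul_smul, sub_smul, Finset.sum_add_distrib, ← Finset.smul_sum,
      Finset.sum_sub_distrib, e1 i hi, e1 j hj, e1 k hk, e1 l hl]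
    exact hab
  have hc2 : ∑ x ∈ S, c x = 0 := by
    simp only [hc, Finset.sum_add_distrib, ← Finset.mul_sum,
      Finset.sum_sub_distrib, e2 i hi, e2 j hj, e2 k hk, e2 l hl]
    ring
  have h0 := LinS1_coeff h hc1 hc2
  have hi0 := h0 i hi
  have hk0 := h0 k hk
  have hl0 := h0 l hl
  rw [hc] at hi0 hk0 hl0
  rw [if_pos rfl, if_neg hij] at hi0
  rw [if_pos rfl, if_neg hkl] at hk0
  rw [if_pos rfl, if_neg hkl.symm] at hl0
  have hb : b = 0 := by
    by_cases hki : k = i
    · -- then `l` is new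
      have hli : l ≠ i := fun e => hkl (hki.trans e.symm)
      have hlj : l ≠ j := fun e => h1 ⟨hki.symm, e.symm⟩
      rw [if_neg hli, if_neg hlj] at hl0
      linear_combination -hl0
    · by_cases hkj : k = j
      · have hli : l ≠ i := fun e => h1' ⟨e.symm, hkj.symm⟩
        have hlj : l ≠ j := fun e => hkl (hkj.trans e.symm)
        rw [if_neg hli, if_neg hlj] at hl0
        linear_combination -hl0
      · rw [if_neg hki, if_neg hkj] at hk0
        linear_combination hk0
  refine ⟨?_, hb⟩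
  rw [hb] at hi0
  linear_combination hi0

/-- a skew operator of rank two is not a scalar -/
private theorem LinS1_skew (h2 : (2 : F) ≠ 0) (h : One S m B P adj) {u w : V}
    (huw : LinearIndependent F ![u, w]) (c : F) : ten B u w - ten B w u ≠ c • 1 := by
  intro hc
  obtain ⟨v, hv1, hv2⟩ := h.exists_dual huw 0 1
  obtain ⟨v', hv1', hv2'⟩ := h.exists_dual huw 1 0
  have e1 : u = c • v := by
    have := congrArg (fun X : Module.End F V => X v) hc
    simpa [ten_apply, hv1, hv2] using this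
  have e2 : -w = c • v' := by
    have := congrArg (fun X : Module.End F V => X v') hc
    simpa [ten_apply, hv1', hv2'] using this
  have e3 : B w u = c := by
    rw [e1, map_smul, smul_eq_mul, hv2, mul_one]
  have e4 : B u w = -c := by
    have : B u (-w) = c := by rw [e2, map_smul, smul_eq_mul, hv1', mul_one]
    rw [map_neg] at this
    rw [← this, neg_neg]
  have e5 : (2 : F) * c = 0 := by
    rw [h.bsymm w u, e4] at e3
    linear_combination -e3
  have e6 : c = 0 := (mul_eq_zero.1 e5).resolve_left h2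
  have e7 : u = 0 := by rw [e1, e6, zero_smul]
  have := huw.ne_zero 0
  exact this (by simpa using e7)

private theorem LinS1_skew' (h2 : (2 : F) ≠ 0) (h : One S m B P adj) {u w : V}
    (huw : LinearIndependent F ![u, w]) {κ : F} (hκ : κ ≠ 0) (c : F) :
    κ • (ten B u w - ten B w u) ≠ c • 1 := by
  intro hc
  refine LinS1_skew h2 h huw (κ⁻¹ * c) ?_
  rw [mul_smul, ← hc, smul_smul, inv_mul_cancel₀ hκ, one_smul]

private theorem LinS1_share (h2 : (2 : F) ≠ 0) (h : One S m B P adj) {i j k : ι} (hi : i ∈ S)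
    (hj : j ∈ S) (hk : k ∈ S) (hij : i ≠ j) (hkj : k ≠ j) (hik : i ≠ k) :
    ¬ ∃ c : F, edg B S m P i j * edg B S m P k j - edg B S m P k j * edg B S m P i j = c • 1 := by
  rintro ⟨c, hc⟩
  have hB : B (P i - P j) (P k - P j) = (m j)⁻¹ := h.B_adj hi hj hk hij hkj hik
  have hB' : B (P k - P j) (P i - P j) = (m j)⁻¹ := by rw [h.bsymm, hB]
  rw [edg, edg, if_pos ⟨hi, hj⟩, if_pos ⟨hk, hj⟩] at hc
  simp only [smul_mul_assoc, mul_smul_comm, ten_mul, hB, hB'] at hc
  have hind := LinS1_indep h hi hj hk hj hij hkj (fun e => hik e.1) (fun e => hij e.1)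
  refine LinS1_skew' h2 h hind (κ := m k * m j * (m i * m j * (m j)⁻¹)) ?_ c ?_
  · exact mul_ne_zero (mul_ne_zero (h.ne k hk) (h.ne j hj))
      (mul_ne_zero (mul_ne_zero (h.ne i hi) (h.ne j hj)) (inv_ne_zero (h.ne j hj)))
  · rw [← hc, smul_sub]
    simp only [smul_smul]
    congr 2
    ring

/-- the operators of disjoint edges -/
private theorem LinS1_disj (h : One S m B P adj) {i j k l : ι} (hik : i ≠ k) (hil : i ≠ l)
    (hjk : j ≠ k) (hjl : j ≠ l) : edg B S m P i j * edg B S m P k l = 0 := by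
  unfold edg
  by_cases h1 : i ∈ S ∧ j ∈ S
  · by_cases h2 : k ∈ S ∧ l ∈ S
    · rw [if_pos h1, if_pos h2, smul_mul_assoc, mul_smul_comm, ten_mul,
        h.B_disj h1.1 h1.2 h2.1 h2.2 hik hil hjk hjl, zero_smul, smul_zero, smul_zero]
    · rw [if_neg h2, mul_zero]
  · rw [if_neg h1, zero_mul]

/-- a vertex outside of `T` which is adjacent to a vertex of `T` -/
private theorem LinS1_cross (h : One S m B P adj) {T : Finset ι} (hT : T ⊆ S) (h0 : T.Nonempty)
    (h1 : T.card < S.card) : ∃ i ∈ T, ∃ j ∈ S, j ∉ T ∧ adj i j := by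
  obtain ⟨a, ha⟩ := h0
  obtain ⟨b, hb, hbT⟩ : ∃ b ∈ S, b ∉ T := by
    by_contra hcon
    push Not at hcon
    exact absurd (Finset.card_le_card fun x hx => hcon x hx) (by omega)
  have hp := h.conn a (hT ha) b hb
  by_contra hcon
  push Not at hcon
  have key : ∀ x, Relation.ReflTransGen (fun u v => u ∈ S ∧ v ∈ S ∧ adj u v) a x → x ∈ T := by
    intro x hx
    induction hx with
    | refl => exact ha
    | tail _ hyz ih =>
      by_contra hz
      exact hcon _ ih _ hyz.2.1 hz hyz.2.2
  exact hbT (key b hp)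

end LinS1One

variable {F : Type} [Field F] {σ ι : Type} {V : σ → Type} [∀ s, AddCommGroup (V s)]
  [∀ s, Module F (V s)] {S : σ → Finset ι} {m : σ → ι → F}
  {B : ∀ s, V s →ₗ[F] V s →ₗ[F] F} {P : ∀ s, ι → V s} {adj : ι → ι → Prop}

/-- different sets of vertices -/
theorem FS.of_not_subset (h2 : (2 : F) ≠ 0) (h : LinP S m B P adj) {s t : σ}
    (hst : ¬ S s ⊆ S t) (h3 : 3 ≤ (S s).card) (a : Module.End F (V s))
    (ha : LinearMap.trace F (V s) a = 0) : a ∈ FS S m B P adj s {t} := by
  obtain ⟨i, hi, hit⟩ := Finset.not_subset.1 hst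
  have hs := h.one s
  obtain ⟨i', hi', j, hj, hjT, hij'⟩ := LinS1_cross hs (T := {i})
    (Finset.singleton_subset_iff.2 hi) ⟨i, Finset.mem_singleton_self i⟩
    (by rw [Finset.card_singleton]; omega)
  rw [Finset.mem_singleton] at hi' hjT
  subst hi'
  have hij : i' ≠ j := fun e => hjT e.symm
  obtain ⟨x, hx, k, hk, hkT, hxk⟩ := LinS1_cross hs (T := {i', j})
    (by intro y hy; rw [Finset.mem_insert, Finset.mem_singleton] at hy
        rcases hy with rfl | rfl
        · exact hi
        · exact hj) ⟨i', Finset.mem_insert_self _ _⟩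
    (lt_of_le_of_lt (Finset.card_le_two) (by omega))
  rw [Finset.mem_insert, Finset.mem_singleton] at hx
  rw [Finset.mem_insert, Finset.mem_singleton, not_or] at hkT
  have hzero : ∀ y, edg (B t) (S t) (m t) (P t) i' y = 0 := by
    intro y
    rw [edg, if_neg fun g => hit g.1]
  rcases hx with rfl | rfl
  · -- `k` is adjacent to `i'`
    refine FS.of_gen h2 h (Gen.lie 1 1 _ _ (Gen.edge _ _ hij') (Gen.edge _ _ hxk)) ?_ ?_ a ha
    · intro t' ht'
      rw [Set.mem_singleton_iff] at ht'
      subst ht'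
      simp only [Pi.sub_apply, Pi.mul_apply, hzero, zero_mul, mul_zero, sub_zero]
    · rintro ⟨c, hc⟩
      refine LinS1_share h2 hs hj hi hk hij.symm hkT.1 (fun e => hkT.2 e.symm) ⟨c, ?_⟩
      rw [LinS1_edg_symm j, LinS1_edg_symm k]
      exact hc
  · -- `k` is adjacent to `j`
    refine FS.of_gen h2 h (Gen.lie 1 1 _ _ (Gen.edge _ _ hij') (Gen.edge _ _ hxk)) ?_ ?_ a ha
    · intro t' ht'
      rw [Set.mem_singleton_iff] at ht'
      subst ht'
      simp only [Pi.sub_apply, Pi.mul_apply, hzero, zero_mul, mul_zero, sub_zero]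
    · rintro ⟨c, hc⟩
      refine LinS1_share h2 hs hi hj hk hij hkT.2 (fun e => hkT.1 e.symm) ⟨c, ?_⟩
      rw [LinS1_edg_symm k]
      exact hc

/-- the cube of the bracket with the operator of an edge -/
theorem edg_cube (h : LinP S m B P adj) {i j : ι} (hij : adj i j) (s : σ)
    (X : Module.End F (V s)) :
    let A := edg (B s) (S s) (m s) (P s) i j
    let D := fun Y : Module.End F (V s) => A * Y - Y * A
    D (D (D X)) = (if i ∈ S s ∧ j ∈ S s then (m s i + m s j) ^ 2 else 0) • D X := by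
  intro A D
  have hs := h.one s
  by_cases h1 : i ∈ S s ∧ j ∈ S s
  · rw [if_pos h1]
    have hne : i ≠ j := hs.irr i j hij
    have hmi := hs.ne i h1.1
    have hmj := hs.ne j h1.2
    have hA : A * A = (m s i + m s j) • A := by
      simp only [A, edg, if_pos h1]
      rw [smul_mul_assoc, mul_smul_comm, ten_mul, hs.B_self h1.1 h1.2 hne]
      simp only [smul_smul]
      congr 1
      field_simp
      ring
    have hA' : ∀ Y : Module.End F (V s), A * (A * Y) = (m s i + m s j) • (A * Y) := by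
      intro Y
      rw [← mul_assoc, hA, smul_mul_assoc]
    have hA'' : ∀ Y : Module.End F (V s), Y * A * A = (m s i + m s j) • (Y * A) := by
      intro Y
      rw [mul_assoc, hA, mul_smul_comm]
    show A * (A * (A * X - X * A) - (A * X - X * A) * A) -
      (A * (A * X - X * A) - (A * X - X * A) * A) * A = (m s i + m s j) ^ 2 • (A * X - X * A)
    simp only [mul_sub, sub_mul, ← mul_assoc, hA, hA'']
    simp only [mul_assoc, hA, smul_mul_assoc, mul_smul_comm, smul_sub, smul_smul, pow_two]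
    abel
  · rw [if_neg h1, zero_smul]
    have hA : A = 0 := if_neg h1
    show A * (A * (A * X - X * A) - (A * X - X * A) * A) -
      (A * (A * X - X * A) - (A * X - X * A) * A) * A = 0
    rw [hA]
    simp

/-- an element which is a bracket with the operators of two edges -/
theorem exists_common (h2 : (2 : F) ≠ 0) (h : LinP S m B P adj) {s : σ} {i j k l : ι}
    (hi : i ∈ S s) (hj : j ∈ S s) (hk : k ∈ S s) (hl : l ∈ S s) (hij : adj i j) (hkl : adj k l)
    (h1 : ¬ (i = k ∧ j = l)) (h1' : ¬ (i = l ∧ j = k)) (h3 : 3 ≤ (S s).card) :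
    ∃ (n : ℕ) (X Y : ∀ s, Module.End F (V s)), Gen S m B P adj n X ∧ Gen S m B P adj n Y ∧
      (∀ t, edg (B t) (S t) (m t) (P t) i j * X t - X t * edg (B t) (S t) (m t) (P t) i j =
        edg (B t) (S t) (m t) (P t) k l * Y t - Y t * edg (B t) (S t) (m t) (P t) k l) ∧
      ¬ ∃ c : F, edg (B s) (S s) (m s) (P s) i j * X s -
        X s * edg (B s) (S s) (m s) (P s) i j = c • 1 := by
  have hs := h.one s
  have hne : i ≠ j := hs.irr i j hij
  have hne' : k ≠ l := hs.irr k l hkl
  by_cases hsh : i = k ∨ i = l ∨ j = k ∨ j = l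
  · -- a common vertex
    refine ⟨1, fun t => edg (B t) (S t) (m t) (P t) k l,
      (-1 : F) • fun t => edg (B t) (S t) (m t) (P t) i j, Gen.edge _ _ hkl,
      Gen.smul _ _ _ (Gen.edge _ _ hij), fun t => ?_, ?_⟩
    · simp only [Pi.smul_apply, neg_smul, one_smul, mul_neg, neg_mul]
      abel
    · rintro ⟨c, hc⟩
      simp only at hc
      rcases hsh with rfl | rfl | rfl | rfl
      · rw [LinS1_edg_symm i j, LinS1_edg_symm i l] at hc
        exact LinS1_share h2 hs hj hi hl hne.symm hne'.symm (fun e => h1 ⟨rfl, e⟩) ⟨c, hc⟩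
      · rw [LinS1_edg_symm i j] at hc
        exact LinS1_share h2 hs hj hi hk hne.symm hne' (fun e => h1' ⟨rfl, e⟩) ⟨c, hc⟩
      · rw [LinS1_edg_symm j l] at hc
        exact LinS1_share h2 hs hi hj hl hne hne'.symm (fun e => h1' ⟨e, rfl⟩) ⟨c, hc⟩
      · exact LinS1_share h2 hs hi hj hk hne hne' (fun e => h1 ⟨e, rfl⟩) ⟨c, hc⟩
  · push Not at hsh
    obtain ⟨hik, hil, hjk, hjl⟩ := hsh
    have hind := LinS1_indep hs hi hj hk hl hne hne' h1 h1'
    obtain ⟨x, hx1, hx2⟩ := hs.exists_dual hind 1 0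
    obtain ⟨y, hy1, hy2⟩ := hs.exists_dual hind 0 1
    -- the operator
    obtain ⟨a', ha', k₀, hk₀⟩ := FS.empty h2 h s (ten (B s) x y - ten (B s) y x) (by
      have := hs.fin
      rw [map_sub, hs.trace_ten, hs.trace_ten, hs.bsymm y x, sub_self])
    have ha'' : a' = ten (B s) y x - ten (B s) x y := by
      refine hs.adj_unique ha' fun v v' => ?_
      rw [LinearMap.sub_apply, LinearMap.sub_apply, map_sub, map_sub, LinearMap.sub_apply,
        ten_adj hs.bsymm x y v v', ten_adj hs.bsymm y x v v']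
    obtain ⟨W, hW, hWs, -⟩ := hk₀ (2 * k₀) (by omega)
    rw [ha'', pow_mul, neg_one_sq, one_pow, one_smul] at hWs
    have hWs' : W s = (2 : F) • (ten (B s) x y - ten (B s) y x) := by
      rw [hWs, two_smul]
      abel
    have hc1 : ∀ t, edg (B t) (S t) (m t) (P t) i j * edg (B t) (S t) (m t) (P t) k l = 0 :=
      fun t => LinS1_disj (h.one t) hik hil hjk hjl
    have hc2 : ∀ t, edg (B t) (S t) (m t) (P t) k l * edg (B t) (S t) (m t) (P t) i j = 0 :=
      fun t => LinS1_disj (h.one t) hik.symm hjk.symm hil.symm hjl.symm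
    refine ⟨_, _, _, Gen.lie 1 _ _ _ (Gen.edge _ _ hkl) hW,
      Gen.lie 1 _ _ _ (Gen.edge _ _ hij) hW, fun t => ?_, ?_⟩
    · simp only [Pi.sub_apply, Pi.mul_apply]
      simp only [mul_sub, sub_mul, ← mul_assoc, hc1, hc2]
      simp only [mul_assoc, hc1, hc2, zero_mul, mul_zero]
      abel
    · rintro ⟨c, hc⟩
      simp only [Pi.sub_apply, Pi.mul_apply] at hc
      simp only [mul_sub, sub_mul, ← mul_assoc, hc1] at hc
      simp only [mul_assoc, hc2, zero_mul, mul_zero] at hc
      rw [hWs', edg, edg, if_pos ⟨hi, hj⟩, if_pos ⟨hk, hl⟩] at hc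
      have e1 : (B s) (P s i - P s j) x = 1 := hx1
      have e2 : (B s) (P s k - P s l) x = 0 := hx2
      have e3 : (B s) (P s i - P s j) y = 0 := hy1
      have e4 : (B s) (P s k - P s l) y = 1 := hy2
      have e5 : (B s) y (P s k - P s l) = 1 := by rw [hs.bsymm, e4]
      have e6 : (B s) y (P s i - P s j) = 0 := by rw [hs.bsymm, e3]
      have e7 : (B s) x (P s k - P s l) = 0 := by rw [hs.bsymm, e2]
      have e8 : (B s) x (P s i - P s j) = 1 := by rw [hs.bsymm, e1]
      simp only [smul_mul_assoc, mul_smul_comm, sub_mul, ten_mul, e1, e4, e5, e6, e7, e8,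
        zero_smul, one_smul, sub_zero, zero_sub, mul_neg] at hc
      refine LinS1_skew' h2 hs hind
        (κ := -(m s i * m s j * (m s k * m s l) * 2)) ?_ c ?_
      · exact neg_ne_zero.2 (mul_ne_zero (mul_ne_zero (mul_ne_zero (hs.ne i hi) (hs.ne j hj))
          (mul_ne_zero (hs.ne k hk) (hs.ne l hl))) h2)
      · rw [← hc]
        module

end Pool.Agent.PTate
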