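import Pool.Agent.PTate.LinS1

/-!
# Separation of the components
-/

set_option autoImplicit false

noncomputable section

namespace Pool.Agent.PTate

open scoped Classical

variable {F : Type} [Field F] {σ ι : Type} {V : σ → Type} [∀ s, AddCommGroup (V s)]
  [∀ s, Module F (V s)] {S : σ → Finset ι} {m : σ → ι → F}
  {B : ∀ s, V s →ₗ[F] V s →ₗ[F] F} {P : ∀ s, ι → V s} {adj : ι → ι → Prop}

private theorem linS2_sub {n : ℕ} {X Y : ∀ s, Module.End F (V s)}
    (hX : Gen S m B P adj n X) (hY : Gen S m B P adj n Y) : Gen S m B P adj n (X - Y) := by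
  have e : X - Y = X + (-1 : F) • Y := by
    rw [neg_one_smul, sub_eq_add_neg]
  rw [e]
  exact .add n X _ hX (.smul n (-1) Y hY)

/-- the same set of vertices, but the exponents are not proportional -/
theorem FS.of_eq (h2 : (2 : F) ≠ 0) (h : LinP S m B P adj) {s t : σ} (hne : s ≠ t)
    (hst : S s = S t) (h3 : 3 ≤ (S s).card) (a : Module.End F (V s))
    (ha : LinearMap.trace F (V s) a = 0) : a ∈ FS S m B P adj s {t} := by
  obtain ⟨i, hi, j, hj, k, hk, l, hl, hij, hkl, hsep⟩ := h.sep s t hne hst h3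
  have h1 : ¬ (i = k ∧ j = l) := by
    rintro ⟨rfl, rfl⟩
    exact hsep (by rw [mul_comm])
  have h1' : ¬ (i = l ∧ j = k) := by
    rintro ⟨rfl, rfl⟩
    exact hsep (by ring)
  obtain ⟨n, X, Y, hX, hY, hXY, hZ⟩ := exists_common h2 h hi hj hk hl hij hkl h1 h1' h3
  set A : ∀ s, Module.End F (V s) := fun s => edg (B s) (S s) (m s) (P s) i j with hA
  set A' : ∀ s, Module.End F (V s) := fun s => edg (B s) (S s) (m s) (P s) k l with hA'
  have gA : Gen S m B P adj 1 A := .edge i j hij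
  have gA' : Gen S m B P adj 1 A' := .edge k l hkl
  set Z : ∀ s, Module.End F (V s) := A * X - X * A with hZdef
  have gZ : Gen S m B P adj (1 + n) Z := .lie 1 n A X gA hX
  have hZ' : Z = A' * Y - Y * A' := by
    funext τ
    exact hXY τ
  set Z1 : ∀ s, Module.End F (V s) := A * (A * Z - Z * A) - (A * Z - Z * A) * A with hZ1
  set Z2 : ∀ s, Module.End F (V s) := A' * (A' * Z - Z * A') - (A' * Z - Z * A') * A' with hZ2
  have gZ1 : Gen S m B P adj (1 + (1 + (1 + n))) Z1 := .lie _ _ _ _ gA (.lie _ _ _ _ gA gZ)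
  have gZ2 : Gen S m B P adj (1 + (1 + (1 + n))) Z2 := .lie _ _ _ _ gA' (.lie _ _ _ _ gA' gZ)
  have e1 : ∀ τ, Z1 τ = (if i ∈ S τ ∧ j ∈ S τ then (m τ i + m τ j) ^ 2 else 0) • Z τ := by
    intro τ
    exact edg_cube h hij τ (X τ)
  have e2 : ∀ τ, Z2 τ = (if k ∈ S τ ∧ l ∈ S τ then (m τ k + m τ l) ^ 2 else 0) • Z τ := by
    intro τ
    have e := edg_cube h hkl τ (Y τ)
    rw [hZ2, hZ']
    exact e
  set α : F := (m t k + m t l) ^ 2 with hα
  set β : F := (m t i + m t j) ^ 2 with hβ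
  have gW : Gen S m B P adj (1 + (1 + (1 + n))) (α • Z1 - β • Z2) :=
    linS2_sub (.smul _ α Z1 gZ1) (.smul _ β Z2 gZ2)
  have hit : i ∈ S t := hst ▸ hi
  have hjt : j ∈ S t := hst ▸ hj
  have hkt : k ∈ S t := hst ▸ hk
  have hlt : l ∈ S t := hst ▸ hl
  refine FS.of_gen h2 h gW ?_ ?_ a ha
  · intro u hu
    rw [Set.mem_singleton_iff] at hu
    subst hu
    rw [Pi.sub_apply, Pi.smul_apply, Pi.smul_apply, e1, e2, if_pos ⟨hit, hjt⟩, if_pos ⟨hkt, hlt⟩,
      smul_smul, smul_smul, mul_comm β, sub_self]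
  · rintro ⟨c, hc⟩
    rw [Pi.sub_apply, Pi.smul_apply, Pi.smul_apply, e1, e2, if_pos ⟨hi, hj⟩, if_pos ⟨hk, hl⟩,
      smul_smul, smul_smul, ← sub_smul] at hc
    have hne0 : α * (m s i + m s j) ^ 2 - β * (m s k + m s l) ^ 2 ≠ 0 := by
      intro h0
      apply hsep
      rw [hα, hβ] at h0
      linear_combination h0
    apply hZ
    refine ⟨(α * (m s i + m s j) ^ 2 - β * (m s k + m s l) ^ 2)⁻¹ * c, ?_⟩
    rw [← smul_smul, ← hc, smul_smul, inv_mul_cancel₀ hne0, one_smul]
    rfl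

theorem FS.swap (h2 : (2 : F) ≠ 0) (h : LinP S m B P adj) {s t : σ}
    (ht : ∀ a, LinearMap.trace F (V t) a = 0 → a ∈ FS S m B P adj t {s})
    (a : Module.End F (V s)) (ha : LinearMap.trace F (V s) a = 0) :
    a ∈ FS S m B P adj s {t} := by
  have : Module.Finite F (V s) := (h.one s).fin
  obtain ⟨k₂, hu⟩ := FS.uniform h2 h ht
  refine Submodule.span_le.mpr ?_ (sl_perfect h2 a ha)
  rintro x ⟨b, c, hb, hc, rfl⟩
  obtain ⟨b', hbb, k₀, hk₀⟩ := FS.empty h2 h s b hb
  obtain ⟨c', hcc, k₁, hk₁⟩ := FS.empty h2 h s c hc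
  -- the brackets in all degrees
  have key : ∀ k l, k₀ ≤ k → k₁ ≤ l → k₂ ≤ k + l → ∃ W, Gen S m B P adj (k + l) W ∧
      W s = (b - (-1 : F) ^ k • b') * (c - (-1 : F) ^ l • c') -
        (c - (-1 : F) ^ l • c') * (b - (-1 : F) ^ k • b') ∧ W t = 0 := by
    intro k l hk hl hkl
    obtain ⟨X, hX, hXs, -⟩ := hk₀ k hk
    obtain ⟨Y, hY, hYs, -⟩ := hk₁ l hl
    have gL : Gen S m B P adj (k + l) (X * Y - Y * X) := .lie k l X Y hX hY
    have hp := hX.pos
    have hq := hY.pos
    obtain ⟨W, hW, hWt, hWs⟩ := hu (k + l) hkl ((X * Y - Y * X) t) (gL.ty h t)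
      (gL.trace h (by omega) t)
    refine ⟨X * Y - Y * X - W, linS2_sub gL hW, ?_, ?_⟩
    · rw [Pi.sub_apply, hWs s (Set.mem_singleton s), sub_zero, Pi.sub_apply, Pi.mul_apply,
        Pi.mul_apply, hXs, hYs]
    · rw [Pi.sub_apply, hWt, sub_self]
  refine ⟨-(b' * c' - c' * b'), ?_, k₀ + k₁ + k₂ + 1, fun n hn => ?_⟩
  · intro x y
    have e1 : ∀ x y, B s (b (c x)) y = B s x (c' (b' y)) := fun x y => by
      rw [hbb (c x) y, hcc x (b' y)]
    have e2 : ∀ x y, B s (c (b x)) y = B s x (b' (c' y)) := fun x y => by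
      rw [hcc (b x) y, hbb x (c' y)]
    simp only [LinearMap.sub_apply, Module.End.mul_apply, map_sub, LinearMap.neg_apply, map_neg,
      e1, e2]
    ring
  · obtain ⟨l, rfl⟩ : ∃ l, n = k₀ + (l + 1) := ⟨n - k₀ - 1, by omega⟩
    obtain ⟨W1, g1, s1, t1⟩ := key k₀ (l + 1) le_rfl (by omega) (by omega)
    obtain ⟨W2, g2, s2, t2⟩ := key (k₀ + 1) l (by omega) (by omega) (by omega)
    have e : k₀ + 1 + l = k₀ + (l + 1) := by omega
    rw [e] at g2
    refine ⟨(2 : F)⁻¹ • (W1 + W2), .smul _ _ _ (.add _ _ _ g1 g2), ?_, ?_⟩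
    · have h22 : (2 : F)⁻¹ * 2 = 1 := inv_mul_cancel₀ h2
      have e3 : W1 s + W2 s = (2 : F) • (b * c - c * b -
          (-1 : F) ^ (k₀ + (l + 1)) • -(b' * c' - c' * b')) := by
        rw [s1, s2]
        have p1 : (-1 : F) ^ (k₀ + 1) = -(-1 : F) ^ k₀ := by rw [pow_succ]; ring
        have p2 : (-1 : F) ^ (l + 1) = -(-1 : F) ^ l := by rw [pow_succ]; ring
        have p3 : (-1 : F) ^ (k₀ + (l + 1)) = -((-1 : F) ^ k₀ * (-1 : F) ^ l) := by
          rw [pow_add, p2]; ring
        rw [p1, p2, p3, two_smul F]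
        generalize (-1 : F) ^ k₀ = x
        generalize (-1 : F) ^ l = y
        simp only [sub_mul, mul_sub, smul_mul_assoc, mul_smul_comm, smul_sub, smul_smul, neg_mul,
          mul_neg, neg_smul, smul_neg]
        rw [mul_comm y x]
        abel
      rw [Pi.smul_apply, Pi.add_apply, e3, smul_smul, h22, one_smul]
    · intro u hu'
      rw [Set.mem_singleton_iff] at hu'
      subst hu'
      rw [Pi.smul_apply, Pi.add_apply, t1, t2, add_zero, smul_zero]

theorem FS.pair (h2 : (2 : F) ≠ 0) (h : LinP S m B P adj) {s t : σ} (hne : s ≠ t)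
    (a : Module.End F (V s)) (ha : LinearMap.trace F (V s) a = 0) :
    a ∈ FS S m B P adj s {t} := by
  have hc := (h.one s).two
  by_cases h3 : 3 ≤ (S s).card
  · by_cases hst : S s ⊆ S t
    · by_cases hts : S t ⊆ S s
      · exact FS.of_eq h2 h hne (Finset.Subset.antisymm hst hts) h3 a ha
      · exact FS.swap h2 h
          (fun b hb => FS.of_not_subset h2 h hts (h3.trans (Finset.card_le_card hst)) b hb) a ha
    · exact FS.of_not_subset h2 h hst h3 a ha
  · have hf := h.finrank s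
    have : Module.Finite F (V s) := (h.one s).fin
    rw [sl_line (by omega) a ha]
    exact Submodule.zero_mem _

/-- **The graded Lie algebra generated by the operators of the edges** contains in all large
degrees all families of operators of trace zero of the right type. -/
theorem lin_full [Fintype σ] (h2 : (2 : F) ≠ 0) (h : LinP S m B P adj) :
    ∃ k₀, ∀ k, k₀ ≤ k → ∀ X : ∀ s, Module.End F (V s),
      (∀ s, Ty (B s) k (X s) ∧ LinearMap.trace F (V s) (X s) = 0) → Gen S m B P adj k X := by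
  have hR : ∀ (s : σ) (R : Finset σ), s ∉ R → ∀ a, LinearMap.trace F (V s) a = 0 →
      a ∈ FS S m B P adj s (↑R : Set σ) := by
    intro s R
    induction R using Finset.induction_on with
    | empty =>
      intro _ a ha
      rw [Finset.coe_empty]
      exact FS.empty h2 h s a ha
    | insert t R htR ih =>
      intro hs a ha
      rw [Finset.mem_insert, not_or] at hs
      rw [Finset.coe_insert, Set.insert_eq]
      exact FS.union h2 h (fun b hb => FS.pair h2 h hs.1 b hb) (ih hs.2) a ha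
  choose k₀ hk₀ using fun s : σ =>
    FS.uniform h2 h (hR s (Finset.univ.erase s) (Finset.notMem_erase s _))
  refine ⟨Finset.univ.sup k₀ + 1, fun k hk X hX => ?_⟩
  have hks : ∀ s, k₀ s ≤ k := fun s =>
    (Finset.le_sup (f := k₀) (Finset.mem_univ s)).trans (by omega)
  choose Y hY hYs hYt using fun s : σ => hk₀ s k (hks s) (X s) (hX s).1 (hX s).2
  have hsum : ∀ R : Finset σ, Gen S m B P adj k (∑ s ∈ R, Y s) := by
    intro R
    induction R using Finset.induction_on with
    | empty =>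
      rw [Finset.sum_empty]
      obtain ⟨n, rfl⟩ : ∃ n, k = n + 1 := ⟨k - 1, by omega⟩
      exact .zero n
    | insert t R htR ih =>
      rw [Finset.sum_insert htR]
      exact .add _ _ _ (hY t) ih
  have e : X = ∑ s, Y s := by
    funext t
    rw [Finset.sum_apply, Finset.sum_eq_single t]
    · exact (hYs t).symm
    · intro s _ hst
      exact hYt s t (by simpa using hst.symm)
    · intro ht
      exact absurd (Finset.mem_univ t) ht
  rw [e]
  exact hsum _

end Pool.Agent.PTate
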