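import Pool.Agent.PTate.LinS2

/-!
# Brackets in the graded Lie algebra
-/

set_option autoImplicit false

noncomputable section

namespace Pool.Agent.PTate

open scoped Classical

section LinTOne

variable {F : Type} [Field F] {V : Type} [AddCommGroup V] [Module F V] {ι : Type}
  {S : Finset ι} {m : ι → F} {B : V →ₗ[F] V →ₗ[F] F} {P : ι → V} {adj : ι → ι → Prop}

private theorem linT_adj_symm (hB : ∀ x y, B x y = B y x) {X X' : Module.End F V}
    (h : Adj B X X') : Adj B X' X := fun x y => by
  rw [hB (X' x) y, ← h y x, hB]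

private theorem linT_adj_lie {X X' Y Y' : Module.End F V} (hX : Adj B X X')
    (hY : Adj B Y Y') : Adj B (X * Y - Y * X) (Y' * X' - X' * Y') := by
  intro x y
  simp only [LinearMap.sub_apply, Module.End.mul_apply, map_sub, hX _ _, hY _ _]

private theorem linT_trace (h : One S m B P adj) {X X' : Module.End F V} (hX : Adj B X X') :
    LinearMap.trace F V X' = LinearMap.trace F V X := by
  obtain ⟨n, x, y, rfl⟩ := h.exists_ten X
  have h1 : Adj B (∑ i, ten B (x i) (y i)) (∑ i, ten B (y i) (x i)) := by
    intro u v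
    rw [LinearMap.sum_apply, LinearMap.sum_apply, map_sum, map_sum, LinearMap.sum_apply]
    exact Finset.sum_congr rfl fun i _ => ten_adj h.bsymm (x i) (y i) u v
  rw [h.adj_unique hX h1, map_sum, map_sum]
  exact Finset.sum_congr rfl fun i _ => by rw [h.trace_ten, h.trace_ten, h.bsymm]

/-- the parts of an operator -/
private theorem linT_ty (hB : ∀ x y, B x y = B y x) {X X' : Module.End F V} (h : Adj B X X')
    (k : ℕ) : Ty B k (X - (-1 : F) ^ k • X') := by
  intro x y
  have h1 := h x y
  have h2 := linT_adj_symm hB h x y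
  have h3 : (-1 : F) ^ k * (-1 : F) ^ k = 1 := by
    rw [← mul_pow]
    simp
  simp only [LinearMap.sub_apply, LinearMap.smul_apply, map_sub, map_smul, smul_eq_mul]
  rw [h1, h2, pow_succ]
  linear_combination (-B x (X' y)) * h3

end LinTOne

variable {F : Type} [Field F] {σ ι : Type} {V : σ → Type} [∀ s, AddCommGroup (V s)]
  [∀ s, Module F (V s)] {S : σ → Finset ι} {m : σ → ι → F}
  {B : ∀ s, V s →ₗ[F] V s →ₗ[F] F} {P : ∀ s, ι → V s} {adj : ι → ι → Prop}

/-- a family which is zero outside of `s` -/
private theorem linT_single [Fintype σ] (h : LinP S m B P adj) {K : ℕ}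
    (hK : ∀ k, K ≤ k → ∀ X : ∀ s, Module.End F (V s),
      (∀ s, Ty (B s) k (X s) ∧ LinearMap.trace F (V s) (X s) = 0) → Gen S m B P adj k X)
    {s : σ} {b b' : Module.End F (V s)} (hb : LinearMap.trace F (V s) b = 0)
    (hbb : Adj (B s) b b') {k : ℕ} (hk : K ≤ k) :
    Gen S m B P adj k (Pi.single s (b - (-1 : F) ^ k • b')) := by
  refine hK k hk _ fun t => ?_
  by_cases hts : t = s
  · subst hts
    rw [Pi.single_eq_same]
    exact ⟨linT_ty (h.one t).bsymm hbb k, by
      rw [map_sub, map_smul, linT_trace (h.one t) hbb, hb, smul_zero, sub_zero]⟩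
  · rw [Pi.single_eq_of_ne hts]
    exact ⟨fun x y => by simp, by simp⟩

private theorem linT_lie (s : σ) (x y : Module.End F (V s)) :
    (Pi.single s x * Pi.single s y - Pi.single s y * Pi.single s x : ∀ s, Module.End F (V s)) =
      Pi.single s (x * y - y * x) := by
  funext t
  by_cases hts : t = s
  · subst hts
    simp only [Pi.sub_apply, Pi.mul_apply, Pi.single_eq_same]
  · simp only [Pi.sub_apply, Pi.mul_apply, Pi.single_eq_of_ne hts, mul_zero, sub_zero]

private theorem linT_add (s : σ) (x y : Module.End F (V s)) :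
    (Pi.single s (x + y) : ∀ s, Module.End F (V s)) = Pi.single s x + Pi.single s y := by
  funext t
  by_cases hts : t = s
  · subst hts
    simp only [Pi.add_apply, Pi.single_eq_same]
  · simp only [Pi.add_apply, Pi.single_eq_of_ne hts, add_zero]

private theorem linT_smul (s : σ) (c : F) (x : Module.End F (V s)) :
    (Pi.single s (c • x) : ∀ s, Module.End F (V s)) = c • Pi.single s x := by
  funext t
  by_cases hts : t = s
  · subst hts
    simp only [Pi.smul_apply, Pi.single_eq_same]
  · simp only [Pi.smul_apply, Pi.single_eq_of_ne hts, smul_zero]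

/-- every family of operators of trace zero of the right type is a sum of brackets of elements of
large degrees -/
theorem lin_bracket [Fintype σ] (h2 : (2 : F) ≠ 0) (h : LinP S m B P adj) (k₁ : ℕ) :
    ∃ k₀, ∀ k, k₀ ≤ k → ∀ X : ∀ s, Module.End F (V s),
      (∀ s, Ty (B s) k (X s) ∧ LinearMap.trace F (V s) (X s) = 0) →
        X ∈ Submodule.span F {x : ∀ s, Module.End F (V s) | ∃ l l' b c, k₁ ≤ l ∧ k₁ ≤ l' ∧
          l + l' = k ∧ Gen S m B P adj l b ∧ Gen S m B P adj l' c ∧ x = b * c - c * b} := by
  obtain ⟨K, hK⟩ := lin_full h2 h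
  refine ⟨(K + k₁) + (K + k₁) + 1, fun k hk X hX => ?_⟩
  set W := Submodule.span F {x : ∀ s, Module.End F (V s) | ∃ l l' b c, k₁ ≤ l ∧ k₁ ≤ l' ∧
    l + l' = k ∧ Gen S m B P adj l b ∧ Gen S m B P adj l' c ∧ x = b * c - c * b} with hW
  obtain ⟨q, rfl⟩ : ∃ q, k = (K + k₁) + (q + 1) := ⟨k - (K + k₁) - 1, by omega⟩
  -- one component
  have key : ∀ (s : σ) (a : Module.End F (V s)), LinearMap.trace F (V s) a = 0 →
      ∀ a', Adj (B s) a a' → (Pi.single s (a - (-1 : F) ^ ((K + k₁) + (q + 1)) • a') :
        ∀ s, Module.End F (V s)) ∈ W := by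
    intro s a ha
    have hfin : Module.Finite F (V s) := (h.one s).fin
    have hs := h.one s
    have hp := sl_perfect h2 a ha
    clear ha
    induction hp using Submodule.span_induction with
    | mem x hx =>
      obtain ⟨b, c, hb, hc, rfl⟩ := hx
      intro a' haa
      obtain ⟨b', hbb⟩ := hs.exists_adj b
      obtain ⟨c', hcc⟩ := hs.exists_adj c
      obtain rfl := hs.adj_unique haa (linT_adj_lie hbb hcc)
      have g1 : (Pi.single s _ : ∀ s, Module.End F (V s)) ∈ W :=
        Submodule.subset_span ⟨K + k₁, q + 1, _, _, by omega, by omega, rfl,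
          linT_single h hK hb hbb (k := K + k₁) (by omega),
          linT_single h hK hc hcc (k := q + 1) (by omega), (linT_lie s _ _).symm⟩
      have g2 : (Pi.single s _ : ∀ s, Module.End F (V s)) ∈ W :=
        Submodule.subset_span ⟨K + k₁ + 1, q, _, _, by omega, by omega, by omega,
          linT_single h hK hb hbb (k := K + k₁ + 1) (by omega),
          linT_single h hK hc hcc (k := q) (by omega), (linT_lie s _ _).symm⟩
      have g3 := W.smul_mem (2 : F)⁻¹ (add_mem g1 g2)
      rw [← linT_add, ← linT_smul] at g3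
      convert g3 using 2
      rw [eq_inv_smul_iff₀ h2]
      have p1 : (-1 : F) ^ (K + k₁ + 1) = -(-1 : F) ^ (K + k₁) := by rw [pow_succ]; ring
      have p2 : (-1 : F) ^ (q + 1) = -(-1 : F) ^ q := by rw [pow_succ]; ring
      have p3 : (-1 : F) ^ (K + k₁ + (q + 1)) = -((-1 : F) ^ (K + k₁) * (-1 : F) ^ q) := by
        rw [pow_add, p2]; ring
      rw [p1, p2, p3]
      generalize (-1 : F) ^ (K + k₁) = x
      generalize (-1 : F) ^ q = y
      simp only [sub_mul, mul_sub, smul_mul_assoc, mul_smul_comm]
      module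
    | zero =>
      intro a' haa
      have : a' = 0 := hs.adj_unique haa (fun x y => by simp)
      rw [this, smul_zero, sub_zero, Pi.single_zero]
      exact zero_mem _
    | add x y _ _ hx hy =>
      intro a' haa
      obtain ⟨x', hxx⟩ := hs.exists_adj x
      obtain ⟨y', hyy⟩ := hs.exists_adj y
      have : a' = x' + y' := hs.adj_unique haa (fun u v => by
        simp only [LinearMap.add_apply, map_add, hxx u v, hyy u v])
      have e := add_mem (hx x' hxx) (hy y' hyy)
      rw [← linT_add] at e
      convert e using 2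
      rw [this]
      module
    | smul c x _ hx =>
      intro a' haa
      obtain ⟨x', hxx⟩ := hs.exists_adj x
      have : a' = c • x' := hs.adj_unique haa (fun u v => by
        simp only [LinearMap.smul_apply, map_smul, hxx u v])
      have e := W.smul_mem c (hx x' hxx)
      rw [← linT_smul] at e
      convert e using 2
      rw [this]
      module
  have key2 : ∀ s : σ, (Pi.single s (X s) : ∀ s, Module.End F (V s)) ∈ W := by
    intro s
    have hadj : Adj (B s) (X s) ((-1 : F) ^ (K + k₁ + (q + 1) + 1) • X s) := fun x y => by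
      rw [LinearMap.smul_apply, map_smul, smul_eq_mul]
      exact (hX s).1 x y
    have e := W.smul_mem (2 : F)⁻¹ (key s (X s) (hX s).2 _ hadj)
    rw [← linT_smul] at e
    convert e using 2
    rw [eq_inv_smul_iff₀ h2, smul_smul, ← pow_add,
      show K + k₁ + (q + 1) + (K + k₁ + (q + 1) + 1) = 2 * (K + k₁ + (q + 1)) + 1 by ring,
      pow_succ, pow_mul]
    simp only [neg_one_sq, one_pow, one_mul]
    module
  have e : X = ∑ s, Pi.single s (X s) := by
    funext t
    rw [Finset.sum_apply, Finset.sum_eq_single t]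
    · rw [Pi.single_eq_same]
    · intro s _ hst
      rw [Pi.single_eq_of_ne hst.symm]
    · intro ht
      exact absurd (Finset.mem_univ t) ht
  rw [e]
  exact sum_mem fun s _ => key2 s

end Pool.Agent.PTate
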