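import Pool.Agent.PTate.Cyc

/-!
# The coverings `y ^ p = f(x)`
-/

set_option autoImplicit false

noncomputable section

namespace Pool.Agent.PTate

open Polynomial
open scoped Classical

/-- The algebra `k(x)[y] / (y ^ p - f(x))`. -/
abbrev Fn (k : Type) [Field k] (p : ℕ) (f : k[X]) : Type :=
  AdjoinRoot (X ^ p - C (algebraMap k[X] (RatFunc k) f) : (RatFunc k)[X])

/-- The ring of the regular functions: the elements of `k(x)[y] / (y ^ p - f(x))` which are
integral over `k[x]`. -/
abbrev Co (k : Type) [Field k] (p : ℕ) (f : k[X]) : Type := integralClosure k[X] (Fn k p f)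

/-- The function `x`. -/
def Co.x (k : Type) [Field k] (p : ℕ) (f : k[X]) : Co k p f := algebraMap k[X] _ X

theorem isIntegral_root (k : Type) [Field k] (p : ℕ) [Fact p.Prime] (f : k[X]) :
    IsIntegral k[X] (AdjoinRoot.root _ : Fn k p f) := by
  refine ⟨X ^ p - C f, monic_X_pow_sub_C f (Fact.out : p.Prime).ne_zero, ?_⟩
  have h := AdjoinRoot.eval₂_root
    (X ^ p - C (algebraMap k[X] (RatFunc k) f) : (RatFunc k)[X])
  rw [eval₂_sub, eval₂_X_pow, eval₂_C] at h ⊢
  exact h

/-- The function `y`. -/
def Co.y (k : Type) [Field k] (p : ℕ) [Fact p.Prime] (f : k[X]) : Co k p f :=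
  ⟨AdjoinRoot.root _, isIntegral_root k p f⟩

variable {k : Type} [Field k] {p : ℕ} [Fact p.Prime]

theorem Co.y_pow (f : k[X]) : Co.y k p f ^ p = algebraMap k[X] _ f := by
  apply Subtype.ext
  have h := AdjoinRoot.eval₂_root
    (X ^ p - C (algebraMap k[X] (RatFunc k) f) : (RatFunc k)[X])
  rw [eval₂_sub, eval₂_X_pow, eval₂_C, sub_eq_zero] at h
  exact h

private theorem model_intDegree_pow {r : RatFunc k} (hr : r ≠ 0) (n : ℕ) :
    (r ^ n).intDegree = n * r.intDegree := by
  induction n with
  | zero => simp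
  | succ n ih =>
    rw [pow_succ, RatFunc.intDegree_mul (pow_ne_zero n hr) hr, ih]
    push_cast
    ring

private theorem model_f_ne {f : k[X]} (hf : f.natDegree.Coprime p) : f ≠ 0 := by
  rintro rfl
  rw [natDegree_zero, Nat.coprime_zero_left] at hf
  exact (Fact.out : p.Prime).one_lt.ne' hf

/-- `y ^ p - f` is irreducible, if the degree of `f` is prime to `p`. -/
theorem irreducible_f {f : k[X]} (hf : f.natDegree.Coprime p) :
    Irreducible (X ^ p - C (algebraMap k[X] (RatFunc k) f) : (RatFunc k)[X]) := by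
  apply X_pow_sub_C_irreducible_of_prime (Fact.out : p.Prime)
  intro r hr
  have hf0 := model_f_ne hf
  have hr0 : r ≠ 0 := by
    rintro rfl
    rw [zero_pow (Fact.out : p.Prime).ne_zero] at hr
    apply hf0
    exact RatFunc.algebraMap_injective k (by rw [← hr, map_zero])
  have h1 := congrArg RatFunc.intDegree hr
  rw [model_intDegree_pow hr0, RatFunc.intDegree_polynomial] at h1
  have h2 : (p : ℤ) ∣ (f.natDegree : ℤ) := ⟨_, h1.symm⟩
  have h3 : p ∣ f.natDegree := by exact_mod_cast h2
  have h4 : p ∣ 1 := by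
    rw [← hf]
    exact Nat.dvd_gcd h3 dvd_rfl
  exact (Fact.out : p.Prime).one_lt.ne' (Nat.dvd_one.1 h4)

variable {f : k[X]} (hf : f.natDegree.Coprime p) (hp : (p : k) ≠ 0)
include hf hp

theorem isDedekind_Co : IsDedekindDomain (Co k p f) := by
  have hirr : Fact (Irreducible (X ^ p - C (algebraMap k[X] (RatFunc k) f) : (RatFunc k)[X])) :=
    ⟨irreducible_f hf⟩
  have hne := hirr.out.ne_zero
  have hsep : (X ^ p - C (algebraMap k[X] (RatFunc k) f) : (RatFunc k)[X]).Separable := by
    apply separable_X_pow_sub_C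
    · intro h
      apply hp
      have h1 : algebraMap k (RatFunc k) (p : k) = 0 := by
        rw [map_natCast]
        exact h
      exact (algebraMap k (RatFunc k)).injective (by rw [h1, map_zero])
    · intro h
      apply model_f_ne hf
      exact RatFunc.algebraMap_injective k (by rw [h, map_zero])
  have hfin : FiniteDimensional (RatFunc k) (Fn k p f) :=
    (monic_X_pow_sub_C (algebraMap k[X] (RatFunc k) f)
      (Fact.out : p.Prime).ne_zero).finite_adjoinRoot
  have hroot : IsSeparable (RatFunc k) (AdjoinRoot.root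
      (X ^ p - C (algebraMap k[X] (RatFunc k) f) : (RatFunc k)[X])) := by
    unfold IsSeparable
    rw [AdjoinRoot.minpoly_root hne, (monic_X_pow_sub_C (algebraMap k[X] (RatFunc k) f)
      (Fact.out : p.Prime).ne_zero).leadingCoeff, inv_one, C_1, mul_one]
    exact hsep
  have htop : IntermediateField.adjoin (RatFunc k) {AdjoinRoot.root
      (X ^ p - C (algebraMap k[X] (RatFunc k) f) : (RatFunc k)[X])} = ⊤ := by
    rw [eq_top_iff]
    intro z _
    apply IntermediateField.algebra_adjoin_le_adjoin
    rw [AdjoinRoot.adjoinRoot_eq_top]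
    trivial
  have hs : Algebra.IsSeparable (RatFunc k) (Fn k p f) := by
    have h1 := (IntermediateField.isSeparable_adjoin_simple_iff_isSeparable (RatFunc k)
      (Fn k p f)).2 hroot
    refine ⟨fun z => ?_⟩
    refine IntermediateField.isSeparable_of_mem_isSeparable (RatFunc k) (Fn k p f)
      (L := IntermediateField.adjoin (RatFunc k) {AdjoinRoot.root
      (X ^ p - C (algebraMap k[X] (RatFunc k) f) : (RatFunc k)[X])}) ?_
    rw [htop]
    trivial
  exact integralClosure.isDedekindDomain k[X] (RatFunc k) (Fn k p f)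

omit hf hp [Fact p.Prime] in
private theorem model_root_pow (f : k[X]) : (AdjoinRoot.root
    (X ^ p - C (algebraMap k[X] (RatFunc k) f) : (RatFunc k)[X])) ^ p =
    algebraMap (RatFunc k) (Fn k p f) (algebraMap k[X] (RatFunc k) f) := by
  have h := AdjoinRoot.eval₂_root
    (X ^ p - C (algebraMap k[X] (RatFunc k) f) : (RatFunc k)[X])
  rw [eval₂_sub, eval₂_X_pow, eval₂_C, sub_eq_zero] at h
  exact h

/-- the automorphism `y ↦ ζ y` of the function field -/
private def modelTau (p : ℕ) [Fact p.Prime] (f : k[X]) (c : RatFunc k) (hc : c ^ p = 1) :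
    Fn k p f →ₐ[RatFunc k] Fn k p f :=
  AdjoinRoot.liftAlgHom _ (Algebra.ofId (RatFunc k) (Fn k p f))
    (algebraMap (RatFunc k) (Fn k p f) c * AdjoinRoot.root _) (by
      rw [eval₂_sub, eval₂_X_pow, eval₂_C, mul_pow, ← map_pow, hc, map_one, one_mul,
        model_root_pow, sub_eq_zero]
      rfl)

omit hf hp in
private theorem modelTau_root (f : k[X]) (c : RatFunc k) (hc : c ^ p = 1) :
    modelTau p f c hc (AdjoinRoot.root _) =
      algebraMap (RatFunc k) (Fn k p f) c * AdjoinRoot.root _ :=
  AdjoinRoot.liftAlgHom_root _ _ _ _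

omit hf hp in
private theorem modelTau_pow (f : k[X]) (c : RatFunc k) (hc : c ^ p = 1) :
    modelTau p f c hc ^ p = 1 := by
  apply AdjoinRoot.algHom_ext
  have h : ∀ n : ℕ, (modelTau p f c hc ^ n) (AdjoinRoot.root _) =
      algebraMap (RatFunc k) (Fn k p f) (c ^ n) * AdjoinRoot.root _ := by
    intro n
    induction n with
    | zero => simp
    | succ n ih =>
      rw [pow_succ', AlgHom.mul_apply, ih, map_mul, modelTau_root, AlgHom.commutes, pow_succ,
        map_mul, mul_assoc]
  rw [h p, hc, map_one, one_mul]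
  rfl

omit hf hp in
/-- the automorphism of the function field as an equivalence -/
private def modelTauE (p : ℕ) [Fact p.Prime] (f : k[X]) (c : RatFunc k) (hc : c ^ p = 1) :
    Fn k p f ≃ₐ[RatFunc k] Fn k p f :=
  AlgEquiv.ofAlgHom (modelTau p f c hc) (modelTau p f c hc ^ (p - 1))
    (by
      have h := mul_pow_sub_one (Fact.out : p.Prime).ne_zero (modelTau p f c hc)
      rw [modelTau_pow] at h
      exact h)
    (by
      have h := pow_sub_one_mul (Fact.out : p.Prime).ne_zero (modelTau p f c hc)
      rw [modelTau_pow] at h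
      exact h)

omit hf hp in
private theorem modelTau_repr (f : k[X]) (c : RatFunc k) (hc : c ^ p = 1)
    (hg : (X ^ p - C (algebraMap k[X] (RatFunc k) f) : (RatFunc k)[X]).Monic) (z : Fn k p f)
    (i) : (AdjoinRoot.powerBasis' hg).basis.repr (modelTau p f c hc z) i =
      c ^ (i : ℕ) * (AdjoinRoot.powerBasis' hg).basis.repr z i := by
  set b := (AdjoinRoot.powerBasis' hg).basis with hb
  have h : (b.coord i) ∘ₗ (modelTau p f c hc).toLinearMap = c ^ (i : ℕ) • b.coord i := by
    apply b.ext
    intro j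
    have h1 : b j = AdjoinRoot.root _ ^ (j : ℕ) := (AdjoinRoot.powerBasis' hg).basis_eq_pow j
    have h2 : modelTau p f c hc (b j) = c ^ (j : ℕ) • b j := by
      rw [h1, map_pow, modelTau_root, mul_pow, ← map_pow, Algebra.smul_def]
    rw [LinearMap.comp_apply, AlgHom.toLinearMap_apply, h2, map_smul, LinearMap.smul_apply,
      Module.Basis.coord_apply, Module.Basis.repr_self, smul_eq_mul, smul_eq_mul]
    by_cases hij : j = i
    · rw [hij]
    · rw [Finsupp.single_eq_of_ne (Ne.symm hij)]
      simp
  have h3 := LinearMap.congr_fun h z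
  exact h3

omit hp in
/-- the generator of the group of the covering -/
theorem exists_σ {ζ : k} (hζ : IsPrimitiveRoot ζ p) : ∃ σ : Co k p f ≃ₐ[k] Co k p f,
    σ (Co.x k p f) = Co.x k p f ∧ σ (Co.y k p f) = algebraMap k _ ζ * Co.y k p f ∧
    (∀ z, σ^[p] z = z) ∧ ∀ z, σ z = z → ∃ h : k[X], aeval (Co.x k p f) h = z := by
  have hpp : p.Prime := Fact.out
  have hirr : Fact (Irreducible (X ^ p - C (algebraMap k[X] (RatFunc k) f) : (RatFunc k)[X])) :=
    ⟨irreducible_f hf⟩
  have hg : (X ^ p - C (algebraMap k[X] (RatFunc k) f) : (RatFunc k)[X]).Monic :=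
    monic_X_pow_sub_C _ hpp.ne_zero
  set c : RatFunc k := algebraMap k (RatFunc k) ζ with hcd
  have hcp : IsPrimitiveRoot c p := hζ.map_of_injective (algebraMap k (RatFunc k)).injective
  have hc : c ^ p = 1 := hcp.pow_eq_one
  set τ := modelTauE p f c hc with hτ
  have hτc : ∀ z, τ z = modelTau p f c hc z := fun _ => rfl
  set σ : Co k p f ≃ₐ[k] Co k p f :=
    ((τ.restrictScalars k[X]).mapIntegralClosure).restrictScalars k with hσ
  have hσc : ∀ z : Co k p f, ((σ z : Co k p f) : Fn k p f) = modelTau p f c hc z := fun _ => rfl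
  refine ⟨σ, ?_, ?_, ?_, ?_⟩
  · exact (((τ.restrictScalars k[X]).mapIntegralClosure) : Co k p f ≃ₐ[k[X]] Co k p f).commutes X
  · apply Subtype.ext
    rw [hσc]
    exact modelTau_root f c hc
  · intro z
    apply Subtype.ext
    have h : ∀ n : ℕ, ((σ^[n] z : Co k p f) : Fn k p f) = (modelTau p f c hc ^ n) z := by
      intro n
      induction n with
      | zero => rfl
      | succ n ih => rw [Function.iterate_succ_apply', hσc, ih, pow_succ', AlgHom.mul_apply]
    rw [h, modelTau_pow]
    rfl
  · intro z hz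
    have h1 : modelTau p f c hc z = z := by rw [← hσc, hz]
    set b := (AdjoinRoot.powerBasis' hg).basis with hb
    have hdeg : (X ^ p - C (algebraMap k[X] (RatFunc k) f) : (RatFunc k)[X]).natDegree = p :=
      natDegree_X_pow_sub_C
    have h2 : ∀ i : Fin (AdjoinRoot.powerBasis' hg).dim, (i : ℕ) ≠ 0 → b.repr z i = 0 := by
      intro i hi
      have h3 := modelTau_repr f c hc hg z i
      rw [h1] at h3
      have h4 : (c ^ (i : ℕ) - 1) * b.repr z i = 0 := by
        rw [sub_mul, one_mul, sub_eq_zero]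
        exact h3.symm
      rcases mul_eq_zero.1 h4 with h5 | h5
      · exfalso
        have h6 := hcp.dvd_of_pow_eq_one (i : ℕ) (sub_eq_zero.1 h5)
        have h7 : (i : ℕ) < p := by
          have h8 := i.2
          exact lt_of_lt_of_eq h8 hdeg
        exact absurd (Nat.le_of_dvd (Nat.pos_of_ne_zero hi) h6) (not_le.2 h7)
      · exact h5
    have h0 : 0 < (AdjoinRoot.powerBasis' hg).dim := by
      rw [AdjoinRoot.powerBasis'_dim, hdeg]
      exact hpp.pos
    have h3 : (z : Fn k p f) = algebraMap (RatFunc k) (Fn k p f) (b.repr z ⟨0, h0⟩) := by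
      have h4 := b.sum_repr (z : Fn k p f)
      rw [Finset.sum_eq_single ⟨0, h0⟩] at h4
      · rw [← h4]
        have h5 : b ⟨0, h0⟩ = AdjoinRoot.root _ ^ 0 :=
          (AdjoinRoot.powerBasis' hg).basis_eq_pow ⟨0, h0⟩
        rw [h5, pow_zero, Algebra.smul_def, mul_one]
        congr 1
        have h6 := congrArg (fun e => b.repr e ⟨0, h0⟩) h4
        rw [h5, pow_zero, Algebra.smul_def, mul_one] at h6
        exact h6.symm
      · intro i _ hi
        rw [h2 i (fun h => hi (Fin.ext h)), zero_smul]
      · intro h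
        exact absurd (Finset.mem_univ _) h
    have h4 : IsIntegral k[X] (b.repr z ⟨0, h0⟩ : RatFunc k) := by
      have h5 : IsIntegral k[X] (z : Fn k p f) := z.2
      rw [h3] at h5
      exact (isIntegral_algebraMap_iff
        (algebraMap (RatFunc k) (Fn k p f)).injective).1 h5
    obtain ⟨h, hh⟩ := IsIntegrallyClosed.isIntegral_iff.1 h4
    refine ⟨h, ?_⟩
    have h5 : aeval (Co.x k p f) h = algebraMap k[X] (Co k p f) h := by
      rw [Co.x, Polynomial.aeval_algebraMap_apply, Polynomial.aeval_X_left_apply]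
    rw [h5]
    apply Subtype.ext
    rw [h3, ← hh]
    rfl

end Pool.Agent.PTate
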