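import Pool.Agent.PTate.PLog

/-!
# Derivations of multilinear forms
-/

set_option autoImplicit false

noncomputable section

namespace Pool.Agent.PTate

variable {p : ℕ} [Fact p.Prime] {N : Type} [AddCommGroup N] [Module ℤ_[p] N] {r : ℕ}

/-- The derivation of a multilinear form given by an operator. -/
def der (F : MultilinearMap ℤ_[p] (fun _ : Fin r => N) ℚ_[p]) (X : Module.End ℤ_[p] N)
    (v : Fin r → N) : ℚ_[p] := ∑ l, F (Function.update v l (X (v l)))

theorem der_add (F : MultilinearMap ℤ_[p] (fun _ : Fin r => N) ℚ_[p])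
    (X Y : Module.End ℤ_[p] N) (v : Fin r → N) : der F (X + Y) v = der F X v + der F Y v := by
  simp only [der, LinearMap.add_apply, F.map_update_add, Finset.sum_add_distrib]

theorem der_smul (F : MultilinearMap ℤ_[p] (fun _ : Fin r => N) ℚ_[p]) (c : ℤ_[p])
    (X : Module.End ℤ_[p] N) (v : Fin r → N) : der F (c • X) v = (c : ℚ_[p]) * der F X v := by
  rw [der, der, Finset.mul_sum]
  refine Finset.sum_congr rfl fun l _ => ?_
  rw [LinearMap.smul_apply, F.map_update_smul, Algebra.smul_def]
  rfl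

theorem der_lie (F : MultilinearMap ℤ_[p] (fun _ : Fin r => N) ℚ_[p])
    {X Y : Module.End ℤ_[p] N} (hX : ∀ v, der F X v = 0) (hY : ∀ v, der F Y v = 0)
    (v : Fin r → N) : der F (X * Y - Y * X) v = 0 := by
  have hsub : der F (X * Y - Y * X) v = der F (X * Y) v - der F (Y * X) v := by
    simp only [der, LinearMap.sub_apply, F.map_update_sub, Finset.sum_sub_distrib]
  rw [hsub]
  have h1 : ∑ i, ∑ k, F (Function.update (Function.update v i (Y (v i))) k
      (X (Function.update v i (Y (v i)) k))) = 0 :=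
    Finset.sum_eq_zero fun i _ => hX (Function.update v i (Y (v i)))
  have h2 : ∑ i, ∑ k, F (Function.update (Function.update v i (X (v i))) k
      (Y (Function.update v i (X (v i)) k))) = 0 :=
    Finset.sum_eq_zero fun i _ => hY (Function.update v i (X (v i)))
  rw [Finset.sum_comm] at h2
  have h3 : ∑ i, ∑ k, (F (Function.update (Function.update v i (Y (v i))) k
      (X (Function.update v i (Y (v i)) k))) -
      F (Function.update (Function.update v k (X (v k))) i
      (Y (Function.update v k (X (v k)) i)))) = 0 := by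
    simp only [Finset.sum_sub_distrib, h1, h2, sub_zero]
  have h4 : ∀ i, ∑ k, (F (Function.update (Function.update v i (Y (v i))) k
      (X (Function.update v i (Y (v i)) k))) -
      F (Function.update (Function.update v k (X (v k))) i
      (Y (Function.update v k (X (v k)) i)))) =
      F (Function.update v i ((X * Y) (v i))) - F (Function.update v i ((Y * X) (v i))) := by
    intro i
    rw [Finset.sum_eq_single i]
    · simp
    · intro k _ hk
      rw [Function.update_of_ne hk, Function.update_of_ne (Ne.symm hk),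
        Function.update_comm hk, sub_self]
    · intro h
      exact absurd (Finset.mem_univ i) h
  simp only [h4, Finset.sum_sub_distrib] at h3
  exact h3

/-- the values have bounded denominators -/
theorem exists_bound [Module.Finite ℤ_[p] N]
    (F : MultilinearMap ℤ_[p] (fun _ : Fin r => N) ℚ_[p]) :
    ∃ C : ℕ, ∀ v, ∃ c : ℤ_[p], (p : ℚ_[p]) ^ C * F v = c := by
  obtain ⟨n, f, hf⟩ := Module.Finite.exists_fin' ℤ_[p] N
  have hp1 : (1 : ℝ) < p := by exact_mod_cast (Fact.out : p.Prime).one_lt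
  have h1 : ∀ ρ : Fin r → Fin n, ∃ M : ℕ,
      ‖F fun i => f (Pi.single (ρ i) 1)‖ ≤ (p : ℝ) ^ M := by
    intro ρ
    obtain ⟨M, hM⟩ := pow_unbounded_of_one_lt ‖F fun i => f (Pi.single (ρ i) 1)‖ hp1
    exact ⟨M, hM.le⟩
  choose M hM using h1
  refine ⟨∑ ρ, M ρ, fun v => ?_⟩
  set C := ∑ ρ, M ρ with hC
  have h2 : ∀ ρ : Fin r → Fin n,
      ‖(p : ℚ_[p]) ^ C * F fun i => f (Pi.single (ρ i) 1)‖ ≤ 1 := by
    intro ρ
    rw [norm_mul, norm_pow, Padic.norm_p, inv_pow, inv_mul_le_one₀ (by positivity)]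
    exact (hM ρ).trans (pow_le_pow_right₀ hp1.le
      (Finset.single_le_sum (f := M) (fun _ _ => Nat.zero_le _) (Finset.mem_univ ρ)))
  choose w hw using fun i => hf (v i)
  have e1 : v = fun i => ∑ j, w i j • f (Pi.single j 1) := by
    funext i
    rw [← hw i]
    conv_lhs => rw [pi_eq_sum_univ' (w i)]
    rw [map_sum]
    refine Finset.sum_congr rfl fun j _ => ?_
    rw [map_smul]
  have e2 : F v = ∑ ρ : Fin r → Fin n,
      (∏ i, w i (ρ i)) • F fun i => f (Pi.single (ρ i) 1) := by
    conv_lhs => rw [e1]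
    rw [F.map_sum]
    exact Finset.sum_congr rfl fun ρ _ => F.map_smul_univ _ _
  have e3 : (p : ℚ_[p]) ^ C * F v ∈ (LinearMap.range (Algebra.linearMap ℤ_[p] ℚ_[p])) := by
    rw [e2, Finset.mul_sum]
    refine Submodule.sum_mem _ fun ρ _ => ?_
    rw [mul_smul_comm]
    exact Submodule.smul_mem _ _ ⟨⟨_, h2 ρ⟩, rfl⟩
  obtain ⟨y, hy⟩ := e3
  exact ⟨y, hy.symm⟩

/-- the integral multiple of a form -/
private theorem pderiv_int [Module.Finite ℤ_[p] N]
    (F : MultilinearMap ℤ_[p] (fun _ : Fin r => N) ℚ_[p]) :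
    ∃ (C : ℕ) (F' : MultilinearMap ℤ_[p] (fun _ : Fin r => N) ℤ_[p]),
      ∀ v, ((F' v : ℤ_[p]) : ℚ_[p]) = (p : ℚ_[p]) ^ C * F v := by
  obtain ⟨C, hC⟩ := exists_bound F
  choose c hc using hC
  refine ⟨C, { toFun := c, map_update_add' := ?_, map_update_smul' := ?_ }, fun v => (hc v).symm⟩
  · intro _ v i x y
    apply Subtype.ext
    rw [PadicInt.coe_add, ← hc, ← hc, ← hc]
    have h := F.map_update_add v i x y
    rw [← mul_add]
    congr 1
  · intro _ v i a x
    apply Subtype.ext
    rw [smul_eq_mul, PadicInt.coe_mul, ← hc, ← hc]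
    have h := F.map_update_smul v i a x
    rw [Algebra.smul_def, show (algebraMap ℤ_[p] ℚ_[p]) a = (a : ℚ_[p]) from rfl] at h
    rw [mul_left_comm]
    congr 1

private theorem pderiv_der {F : MultilinearMap ℤ_[p] (fun _ : Fin r => N) ℚ_[p]} {C : ℕ}
    {F' : MultilinearMap ℤ_[p] (fun _ : Fin r => N) ℤ_[p]}
    (h : ∀ v, ((F' v : ℤ_[p]) : ℚ_[p]) = (p : ℚ_[p]) ^ C * F v) (X : Module.End ℤ_[p] N)
    (v : Fin r → N) :
    ((∑ l, F' (Function.update v l (X (v l))) : ℤ_[p]) : ℚ_[p]) = (p : ℚ_[p]) ^ C * der F X v := by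
  rw [PadicInt.coe_sum, der, Finset.mul_sum]
  exact Finset.sum_congr rfl fun l _ => h _

private theorem pderiv_zero {F : MultilinearMap ℤ_[p] (fun _ : Fin r => N) ℚ_[p]} {C : ℕ}
    {F' : MultilinearMap ℤ_[p] (fun _ : Fin r => N) ℤ_[p]}
    (h : ∀ v, ((F' v : ℤ_[p]) : ℚ_[p]) = (p : ℚ_[p]) ^ C * F v) (X : Module.End ℤ_[p] N)
    (v : Fin r → N) : ∑ l, F' (Function.update v l (X (v l))) = 0 ↔ der F X v = 0 := by
  have hp : (p : ℚ_[p]) ≠ 0 := by exact_mod_cast (Fact.out : p.Prime).ne_zero
  have h1 := pderiv_der h X v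
  constructor
  · intro h2
    rw [h2, PadicInt.coe_zero] at h1
    exact (mul_eq_zero.1 h1.symm).resolve_left (pow_ne_zero _ hp)
  · intro h2
    rw [h2, mul_zero] at h1
    apply Subtype.ext
    rw [h1, PadicInt.coe_zero]

private theorem pderiv_aux (F : MultilinearMap ℤ_[p] (fun _ : Fin r => N) ℤ_[p])
    (a : ℤ_[p]) (w : Fin r → N) (S : Finset (Fin r)) : ∀ v : Fin r → N, ∃ z,
      F (S.piecewise (fun i => v i + a • w i) v) =
        F v + a * ∑ i ∈ S, F (Function.update v i (w i)) + a ^ 2 * z := by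
  classical
  induction S using Finset.induction_on with
  | empty =>
    intro v
    refine ⟨0, ?_⟩
    rw [Finset.piecewise_empty, Finset.sum_empty]
    ring
  | insert k S hk ih =>
    intro v
    obtain ⟨z1, h1⟩ := ih v
    obtain ⟨z2, h2⟩ := ih (Function.update v k (w k))
    refine ⟨z1 + ∑ i ∈ S, F (Function.update (Function.update v k (w k)) i (w i)) + a * z2, ?_⟩
    rw [Finset.piecewise_insert, F.map_update_add, F.map_update_smul]
    have e1 : Function.update (S.piecewise (fun i => v i + a • w i) v) k (v k) =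
        S.piecewise (fun i => v i + a • w i) v := by
      ext i
      by_cases hi : i = k
      · subst hi
        rw [Function.update_self, Finset.piecewise_eq_of_notMem _ _ _ hk]
      · rw [Function.update_of_ne hi]
    have e2 : Function.update (S.piecewise (fun i => v i + a • w i) v) k (w k) =
        S.piecewise (fun i => Function.update v k (w k) i + a • w i)
          (Function.update v k (w k)) := by
      ext i
      by_cases hi : i = k
      · subst hi
        rw [Function.update_self, Finset.piecewise_eq_of_notMem _ _ _ hk, Function.update_self]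
      · rw [Function.update_of_ne hi]
        by_cases hS : i ∈ S
        · rw [Finset.piecewise_eq_of_mem _ _ _ hS, Finset.piecewise_eq_of_mem _ _ _ hS,
            Function.update_of_ne hi]
        · rw [Finset.piecewise_eq_of_notMem _ _ _ hS, Finset.piecewise_eq_of_notMem _ _ _ hS,
            Function.update_of_ne hi]
    rw [e1, e2, h1, h2, Finset.sum_insert hk, smul_eq_mul]
    ring

private theorem pderiv_expand (F : MultilinearMap ℤ_[p] (fun _ : Fin r => N) ℤ_[p])
    (a : ℤ_[p]) (v w y : Fin r → N) : ∃ z,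
      F (fun i => v i + a • w i + a ^ 2 • y i) =
        F v + a * ∑ i, F (Function.update v i (w i)) + a ^ 2 * z := by
  obtain ⟨z, hz⟩ := pderiv_aux F a (fun i => w i + a • y i) Finset.univ v
  refine ⟨z + ∑ i, F (Function.update v i (y i)), ?_⟩
  have h1 : (fun i => v i + a • w i + a ^ 2 • y i) =
      Finset.univ.piecewise (fun i => v i + a • (w i + a • y i)) v := by
    ext i
    rw [Finset.piecewise_eq_of_mem _ _ _ (Finset.mem_univ i)]
    module
  rw [h1, hz]
  have h2 : ∀ i, F (Function.update v i (w i + a • y i)) =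
      F (Function.update v i (w i)) + a * F (Function.update v i (y i)) := by
    intro i
    rw [F.map_update_add, F.map_update_smul, smul_eq_mul]
  rw [Finset.sum_congr rfl fun i _ => h2 i, Finset.sum_add_distrib, ← Finset.mul_sum]
  ring

private theorem pderiv_pow {G X : Module.End ℤ_[p] N} {a : ℤ_[p]}
    (h : ∀ x, ∃ y, G x = x + a • X x + a ^ 2 • y) (d : ℕ) :
    ∀ x, ∃ y, (G ^ d) x = x + a • ((d : ℤ_[p]) • X x) + a ^ 2 • y := by
  induction d with
  | zero =>
    intro x
    refine ⟨0, ?_⟩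
    rw [pow_zero, Module.End.one_apply, Nat.cast_zero, zero_smul, smul_zero, smul_zero, add_zero,
      add_zero]
  | succ d ih =>
    intro x
    obtain ⟨y1, h1⟩ := h x
    obtain ⟨y2, h2⟩ := ih x
    obtain ⟨y3, h3⟩ := ih (X x)
    refine ⟨y2 + ((d : ℤ_[p]) • X (X x) + a • y3) + (G ^ d) y1, ?_⟩
    rw [pow_succ, Module.End.mul_apply, h1, map_add, map_add, map_smul, map_smul, h2, h3,
      Nat.cast_succ]
    module

/-- a form invariant under powers of `g` is killed by the logarithm of `g` -/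
theorem der_log [Module.Finite ℤ_[p] N] [Module.IsTorsionFree ℤ_[p] N]
    (F : MultilinearMap ℤ_[p] (fun _ : Fin r => N) ℚ_[p]) {g X : Module.End ℤ_[p] N}
    (hX : IsLog p g X) {d : ℕ} (hd : 0 < d)
    (hF : ∀ (m : ℕ) (v : Fin r → N), F (fun i => (g ^ (d * p ^ m)) (v i)) = F v)
    (v : Fin r → N) : der F X v = 0 := by
  obtain ⟨C, F', hF'⟩ := pderiv_int F
  rw [← pderiv_zero hF' X v]
  have hpn : (p : ℤ_[p]) ≠ 0 := by exact_mod_cast (Fact.out : p.Prime).ne_zero
  have hinv : ∀ (m : ℕ) (v : Fin r → N), F' (fun i => (g ^ (d * p ^ m)) (v i)) = F' v := by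
    intro m v
    apply Subtype.ext
    rw [hF', hF', hF m v]
  set A := ∑ l, F' (Function.update v l (X (v l))) with hA
  have d0 : (d : ℤ_[p]) ≠ 0 := Nat.cast_ne_zero.2 hd.ne'
  have key : (d : ℤ_[p]) * A = 0 := by
    apply eq_zero_of_pow_dvd (p := p)
    intro m
    have p0 : (p : ℤ_[p]) ^ m ≠ 0 := pow_ne_zero _ hpn
    have e1 : ∀ x, ∃ y, (g ^ (d * p ^ m)) x =
        x + (p : ℤ_[p]) ^ m • ((d : ℤ_[p]) • X x) + ((p : ℤ_[p]) ^ m) ^ 2 • y := by
      intro x
      rw [mul_comm d, pow_mul]
      refine pderiv_pow (fun x => ?_) d x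
      obtain ⟨R, hR⟩ := hX m
      refine ⟨R x, ?_⟩
      rw [hR, ← pow_mul, mul_comm m 2]
      rfl
    choose y hy using e1
    obtain ⟨z1, hz1⟩ := pderiv_expand F' ((p : ℤ_[p]) ^ m) v (fun i => (d : ℤ_[p]) • X (v i))
      (fun i => y (v i))
    have e5 := hinv m v
    rw [show (fun i => (g ^ (d * p ^ m)) (v i)) = fun i => v i +
      (p : ℤ_[p]) ^ m • ((d : ℤ_[p]) • X (v i)) + ((p : ℤ_[p]) ^ m) ^ 2 • y (v i) from
      funext fun i => hy (v i), hz1] at e5
    have e6 : ∑ i, F' (Function.update v i ((d : ℤ_[p]) • X (v i))) = d * A := by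
      rw [hA, Finset.mul_sum]
      refine Finset.sum_congr rfl fun i _ => ?_
      rw [F'.map_update_smul, smul_eq_mul]
    rw [e6] at e5
    refine ⟨-z1, ?_⟩
    apply mul_left_cancel₀ p0
    rw [smul_eq_mul]
    linear_combination e5
  exact (mul_eq_zero.1 key).resolve_left d0

/-- a form killed by operators congruent to `X` modulo all powers of `p` is killed by `X` -/
theorem der_limit [Module.Finite ℤ_[p] N]
    (F : MultilinearMap ℤ_[p] (fun _ : Fin r => N) ℚ_[p]) {X : Module.End ℤ_[p] N} (c : ℕ)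
    (h : ∀ n : ℕ, ∃ Y R : Module.End ℤ_[p] N, (∀ v, der F Y v = 0) ∧
      (p : ℤ_[p]) ^ c • X = Y + (p : ℤ_[p]) ^ n • R) (v : Fin r → N) : der F X v = 0 := by
  obtain ⟨C, F', hF'⟩ := pderiv_int F
  rw [← pderiv_zero hF' X v]
  have hpn : (p : ℤ_[p]) ≠ 0 := by exact_mod_cast (Fact.out : p.Prime).ne_zero
  set A := ∑ l, F' (Function.update v l (X (v l))) with hA
  have key : (p : ℤ_[p]) ^ c * A = 0 := by
    apply eq_zero_of_pow_dvd (p := p)
    intro n
    obtain ⟨Y, R, hY, he⟩ := h n
    have h1 := (pderiv_zero hF' Y v).2 (hY v)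
    refine ⟨∑ l, F' (Function.update v l (R (v l))), ?_⟩
    have h2 : ∀ l, F' (Function.update v l (((p : ℤ_[p]) ^ c • X) (v l))) =
        F' (Function.update v l (Y (v l))) +
          (p : ℤ_[p]) ^ n * F' (Function.update v l (R (v l))) := by
      intro l
      rw [he, LinearMap.add_apply, LinearMap.smul_apply, F'.map_update_add, F'.map_update_smul,
        smul_eq_mul]
    have h3 : ∑ l, F' (Function.update v l (((p : ℤ_[p]) ^ c • X) (v l))) =
        (p : ℤ_[p]) ^ c * A := by
      rw [hA, Finset.mul_sum]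
      refine Finset.sum_congr rfl fun l _ => ?_
      rw [LinearMap.smul_apply, F'.map_update_smul, smul_eq_mul]
    rw [← h3, Finset.sum_congr rfl fun l _ => h2 l, Finset.sum_add_distrib, h1, zero_add,
      ← Finset.mul_sum, smul_eq_mul]
  exact (mul_eq_zero.1 key).resolve_left (pow_ne_zero _ hpn)

end Pool.Agent.PTate
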