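import Pool.Agent.PTate.GrpGen
import Pool.Agent.PTate.PDeriv
import Pool.Agent.PTate.LinT

/-!
# Operators which kill a Tate form
-/

set_option autoImplicit false

noncomputable section

namespace Pool.Agent.PTate

open scoped Classical

variable {p : ℕ} [Fact p.Prime] {σ ι G : Type} [Group G] {M : σ → Type}
  [∀ s, AddCommGroup (M s)] [∀ s, Module ℤ_[p] (M s)]

/-- The action of a family of operators on the sum of `n` copies. -/
def big (n : ℕ) (X : ∀ s, Module.End ℤ_[p] (M s)) : Module.End ℤ_[p] (Fin n → ∀ s, M s) where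
  toFun w b s := X s (w b s)
  map_add' := by intro v w; funext b s; simp
  map_smul' := by intro c w; funext b s; simp

theorem big_add (n : ℕ) (X Y : ∀ s, Module.End ℤ_[p] (M s)) :
    big n (X + Y) = big n X + big n Y :=
  LinearMap.ext fun _ => rfl

theorem big_smul (n : ℕ) (c : ℤ_[p]) (X : ∀ s, Module.End ℤ_[p] (M s)) :
    big n (c • X) = c • big n X :=
  LinearMap.ext fun _ => rfl

theorem big_mul (n : ℕ) (X Y : ∀ s, Module.End ℤ_[p] (M s)) :
    big n (X * Y) = big n X * big n Y :=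
  LinearMap.ext fun _ => rfl

private theorem opA_big_sub (n : ℕ) (X Y : ∀ s, Module.End ℤ_[p] (M s)) :
    big n (X - Y) = big n X - big n Y :=
  LinearMap.ext fun _ => rfl

private theorem opA_big_one (n : ℕ) :
    big n (1 : ∀ s, Module.End ℤ_[p] (M s)) = 1 :=
  LinearMap.ext fun _ => rfl

private theorem opA_big_pow (n : ℕ) (X : ∀ s, Module.End ℤ_[p] (M s)) (m : ℕ) :
    big n (X ^ m) = big n X ^ m := by
  induction m with
  | zero => rw [pow_zero, pow_zero, opA_big_one]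
  | succ m ih => rw [pow_succ, pow_succ, big_mul, ih]

/-- `X` commutes with `z`, is skew and kills the form `F`. -/
structure IsOp (z : ∀ s, Module.End ℤ_[p] (M s)) (e : ∀ s, M s →ₗ[ℤ_[p]] M s →ₗ[ℤ_[p]] ℤ_[p])
    {n r : ℕ} (F : MultilinearMap ℤ_[p] (fun _ : Fin r => Fin n → ∀ s, M s) ℚ_[p])
    (X : ∀ s, Module.End ℤ_[p] (M s)) : Prop where
  comm : ∀ s x, X s (z s x) = z s (X s x)
  skew : ∀ s x y, e s (X s x) y + e s x (X s y) = 0
  der : ∀ v, der F (big n X) v = 0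

variable {z : ∀ s, Module.End ℤ_[p] (M s)} {e : ∀ s, M s →ₗ[ℤ_[p]] M s →ₗ[ℤ_[p]] ℤ_[p]}
  {n r : ℕ} {F : MultilinearMap ℤ_[p] (fun _ : Fin r => Fin n → ∀ s, M s) ℚ_[p]}

theorem IsOp.add {X Y : ∀ s, Module.End ℤ_[p] (M s)} (hX : IsOp z e F X) (hY : IsOp z e F Y) :
    IsOp z e F (X + Y) where
  comm s x := by
    rw [Pi.add_apply, LinearMap.add_apply, LinearMap.add_apply, hX.comm, hY.comm, map_add]
  skew s x y := by
    rw [Pi.add_apply, LinearMap.add_apply, LinearMap.add_apply, map_add, map_add,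
      LinearMap.add_apply]
    linear_combination hX.skew s x y + hY.skew s x y
  der v := by rw [big_add, der_add, hX.der, hY.der, add_zero]

theorem IsOp.smul {X : ∀ s, Module.End ℤ_[p] (M s)} (hX : IsOp z e F X) (c : ℤ_[p]) :
    IsOp z e F (c • X) where
  comm s x := by
    rw [Pi.smul_apply, LinearMap.smul_apply, LinearMap.smul_apply, hX.comm, map_smul]
  skew s x y := by
    rw [Pi.smul_apply, LinearMap.smul_apply, LinearMap.smul_apply, map_smul, map_smul,
      LinearMap.smul_apply, smul_eq_mul, smul_eq_mul]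
    linear_combination c * hX.skew s x y
  der v := by rw [big_smul, der_smul, hX.der, mul_zero]

private theorem opA_comm_pow {N : Type} [AddCommGroup N] [Module ℤ_[p] N]
    {z A : Module.End ℤ_[p] N} (h : ∀ x, A (z x) = z (A x)) (i : ℕ) : A * z ^ i = z ^ i * A := by
  have h1 : Commute A z := LinearMap.ext h
  exact h1.pow_right i

theorem IsOp.lie {X Y : ∀ s, Module.End ℤ_[p] (M s)} (hX : IsOp z e F X) (hY : IsOp z e F Y) :
    IsOp z e F (X * Y - Y * X) ∧
      ∀ s i, LinearMap.trace ℤ_[p] (M s) (z s ^ i * (X * Y - Y * X) s) = 0 := by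
  refine ⟨⟨fun s x => ?_, fun s x y => ?_, fun v => ?_⟩, fun s i => ?_⟩
  · simp only [Pi.sub_apply, Pi.mul_apply, LinearMap.sub_apply, Module.End.mul_apply, hX.comm,
      hY.comm, map_sub]
  · simp only [Pi.sub_apply, Pi.mul_apply, LinearMap.sub_apply, Module.End.mul_apply, map_sub]
    linear_combination hX.skew s (Y s x) y - hY.skew s (X s x) y + hX.skew s x (Y s y) -
      hY.skew s x (X s y)
  · rw [opA_big_sub, big_mul, big_mul]
    exact der_lie F hX.der hY.der v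
  · have h1 : z s ^ i * (X * Y - Y * X) s = z s ^ i * X s * Y s - Y s * (z s ^ i * X s) := by
      rw [Pi.sub_apply, Pi.mul_apply, Pi.mul_apply, mul_sub, ← mul_assoc, ← mul_assoc,
        ← mul_assoc, opA_comm_pow (hY.comm s) i]
    rw [h1, map_sub, LinearMap.trace_mul_comm, sub_self]

private theorem opA_smul_one_comm {N : Type} [AddCommGroup N] [Module ℤ_[p] N]
    (c : ℤ_[p]) (A : Module.End ℤ_[p] N) : Commute (c • (1 : Module.End ℤ_[p] N)) A :=
  (Commute.one_left A).smul_left c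

/-- the logarithm of an element congruent to one modulo `(1 - z) ^ k` -/
private theorem opA_log (hp : p ≠ 2) {N : Type} [AddCommGroup N] [Module ℤ_[p] N]
    [Module.Finite ℤ_[p] N] [Module.IsTorsionFree ℤ_[p] N] {z g : Module.End ℤ_[p] N}
    (hz : ∀ x, ∑ i ∈ Finset.range p, (z ^ i) x = 0) (hgz : ∀ x, g (z x) = z (g x)) {c k : ℕ}
    (hc : 1 ≤ c) (hkc : (p - 1) * c + k % (p - 1) = k) (hkr : k % (p - 1) < p - 1)
    {a : Module.End (ZMod p) (Vr z)} (hA : ∃ A, Red z A a ∧ g = 1 + lam z ^ k * A) :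
    ∃ X, IsLog p g X ∧ ∃ A, Red z A a ∧ X = lam z ^ k * A := by
  obtain ⟨A, hA1, hA2⟩ := hA
  obtain ⟨q, q', hq1, hq2⟩ := exists_unit hz
  set Q := Polynomial.aeval z q
  set Q' := Polynomial.aeval z q'
  have hlz : ∀ x, lam z (z x) = z (lam z x) := by
    intro x
    simp only [lam, LinearMap.sub_apply, Module.End.one_apply, map_sub]
  have hQl : Commute (lam z) Q := aeval_comm hlz q
  have hQl' : Commute (lam z) Q' := aeval_comm hlz q'
  have h1 : lam z ^ (p - 1) = (p : ℤ_[p]) • Q' := by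
    have h2 : ((p : ℤ_[p]) • (1 : Module.End ℤ_[p] N)) * Q' = lam z ^ (p - 1) := by
      rw [hq2, mul_assoc, hq1, mul_one]
    rw [← h2, smul_mul_assoc, one_mul]
  have h2 : lam z ^ k = (p : ℤ_[p]) ^ c • (Q' ^ c * lam z ^ (k % (p - 1))) := by
    conv_lhs => rw [← hkc]
    rw [pow_add, pow_mul, h1, smul_pow, smul_mul_assoc]
  obtain ⟨X, Z, hX1, hX2⟩ := exists_log hp hc
    (g := g) (Y := Q' ^ c * lam z ^ (k % (p - 1)) * A) (by
      rw [hA2, h2, smul_mul_assoc])
  refine ⟨X, hX1, ?_⟩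
  have h3 : (p : ℤ_[p]) ^ c • (Q' ^ c * lam z ^ (k % (p - 1)) * A) = lam z ^ k * A := by
    rw [h2, smul_mul_assoc]
  have h4 : (p : ℤ_[p]) ^ (2 * c) • Z = lam z ^ ((p - 1) * (2 * c)) * (Q ^ (2 * c) * Z) := by
    have h5 : (p : ℤ_[p]) ^ (2 * c) • (1 : Module.End ℤ_[p] N) =
        lam z ^ ((p - 1) * (2 * c)) * Q ^ (2 * c) := by
      have h6 : ((p : ℤ_[p]) • (1 : Module.End ℤ_[p] N)) ^ (2 * c) =
          (p : ℤ_[p]) ^ (2 * c) • (1 : Module.End ℤ_[p] N) := by
        rw [smul_pow, one_pow]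
      rw [← h6, hq2, (hQl.pow_left _).mul_pow, ← pow_mul]
    rw [← mul_assoc, ← h5, smul_mul_assoc, one_mul]
  obtain ⟨l, hl⟩ : ∃ l, (p - 1) * (2 * c) = k + (1 + l) := by
    have h5 : k + 1 ≤ (p - 1) * (2 * c) := by
      have h6 : (p - 1) * 1 ≤ (p - 1) * c := Nat.mul_le_mul_left _ hc
      have h7 : (p - 1) * (2 * c) = (p - 1) * c + (p - 1) * c := by ring
      omega
    exact ⟨(p - 1) * (2 * c) - (k + 1), by omega⟩
  have h5 : X = lam z ^ k * (A + lam z * (lam z ^ l * (Q ^ (2 * c) * Z))) := by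
    rw [hX2, h3, h4, hl, mul_add, pow_add, pow_add, pow_one]
    simp only [mul_assoc]
  have hXz : ∀ x, X (z x) = z (X x) := by
    have h6 : z * g = g * z := LinearMap.ext fun x => (hgz x).symm
    have h7 := hX1.comm h6
    exact fun x => (LinearMap.congr_fun h7 x).symm
  obtain ⟨A', hA'1, hA'2⟩ := exists_div hz hXz (k := k) fun x => ⟨_, by rw [h5]; rfl⟩
  refine ⟨A', ⟨hA'1, fun x => ?_⟩, hA'2⟩
  have hinj : Function.Injective (lam z ^ k) := by
    rw [Module.End.coe_pow]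
    exact (lam_injective hz).iterate k
  have h6 : A' x = A x + lam z ((lam z ^ l * (Q ^ (2 * c) * Z)) x) := by
    apply hinj
    have h7 : lam z ^ k * A' = lam z ^ k * (A + lam z * (lam z ^ l * (Q ^ (2 * c) * Z))) := by
      rw [← hA'2, ← h5]
    exact LinearMap.congr_fun h7 x
  rw [h6, map_add, (mk_eq_zero hz (lam z _)).2 ⟨_, rfl⟩, add_zero]
  exact hA1.2 x

variable [Fintype σ] [∀ s, Module.Finite ℤ_[p] (M s)]
  [∀ s, Module.IsTorsionFree ℤ_[p] (M s)]

/-- the elements of the graded Lie algebra are leading terms of operators which kill `F` -/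
theorem exists_op (hp : p ≠ 2) {S : σ → Finset ι} {m : σ → ι → ℕ} {P : ∀ s, ι → M s}
    {adj : ι → ι → Prop} {ρ : ∀ s, G →* Module.End ℤ_[p] (M s)} {χ : G →* ℤ_[p]ˣ}
    (h : RepP S m z e P adj ρ χ) {B : ∀ s, Vr (z s) →ₗ[ZMod p] Vr (z s) →ₗ[ZMod p] ZMod p}
    (hB : ∀ s, RedForm (z s) (e s) (B s)) {j : ℕ} (hF : IsTateForm ρ χ j F) {k : ℕ}
    (hk : p - 1 ≤ k) {a : ∀ s, Module.End (ZMod p) (Vr (z s))}
    (ha : Gen S (fun s i => (m s i : ZMod p)) B (fun s i => mk (z s) (P s i)) adj k a) :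
    ∃ X, IsOp z e F X ∧ ∀ s, ∃ A, Red (z s) A (a s) ∧ X s = lam (z s) ^ k * A := by
  have hp2 : 2 ≤ p := (Fact.out : p.Prime).two_le
  have hp3 : 3 ≤ p := by omega
  obtain ⟨g, hg1, hg2⟩ := exists_gen hp h hB ha
  have hχ : χ g = 1 := hg1 (by omega)
  set c := k / (p - 1) with hc
  have hc1 : 1 ≤ c := (Nat.one_le_div_iff (by omega)).2 hk
  have hkc : (p - 1) * c + k % (p - 1) = k := Nat.div_add_mod k (p - 1)
  have hkr : k % (p - 1) < p - 1 := Nat.mod_lt k (by omega)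
  have hX := fun s => opA_log hp (h.zeta s) (fun x => h.comm g s x) hc1 hkc hkr (hg2 s)
  choose X hX1 hX2 using hX
  refine ⟨X, ⟨fun s x => ?_, fun s => ?_, ?_⟩, hX2⟩
  · obtain ⟨A, hA, e1⟩ := hX2 s
    have h1 : Commute (lam (z s) ^ k * A) (z s) := by
      apply Commute.mul_left
      · exact ((Commute.one_left (z s)).sub_left (Commute.refl (z s))).pow_left k
      · exact LinearMap.ext hA.1
    rw [e1]
    exact LinearMap.congr_fun h1 x
  · apply (hX1 s).skew
    intro x y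
    rw [h.sim g s x y, hχ]
    simp
  · obtain ⟨U, hU, hUF⟩ := hF
    obtain ⟨d, hd, -, hdU⟩ := Subgroup.exists_pow_mem_of_index_ne_zero hU.index_ne_zero g
    have hlog : IsLog p (big n fun s => ρ s g) (big n X) := by
      intro m
      choose R hR using fun s => hX1 s m
      refine ⟨big n R, ?_⟩
      rw [← opA_big_pow, ← big_smul, ← big_smul, ← opA_big_one, ← big_add, ← big_add]
      congr 1
      funext s
      exact hR s
    refine der_log F hlog hd fun m v => ?_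
    have hgU : g ^ (d * p ^ m) ∈ U := by
      rw [pow_mul]
      exact U.pow_mem hdU _
    have h1 := hUF _ hgU v
    have h2 : χ (g ^ (d * p ^ m)) = 1 := by rw [map_pow, hχ, one_pow]
    rw [h2] at h1
    simp only [Units.val_one, one_pow, PadicInt.coe_one, one_mul] at h1
    rw [← h1]
    congr 1
    funext i
    rw [← opA_big_pow]
    funext b s
    change ((fun s => ρ s g) ^ (d * p ^ m)) s (v i b s) = _
    rw [Pi.pow_apply, map_pow]

/-- operators of trace zero -/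
theorem exists_op_trace (hp : p ≠ 2) {S : σ → Finset ι} {m : σ → ι → ℕ} {P : ∀ s, ι → M s}
    {adj : ι → ι → Prop} {ρ : ∀ s, G →* Module.End ℤ_[p] (M s)} {χ : G →* ℤ_[p]ˣ}
    (h : RepP S m z e P adj ρ χ) {B : ∀ s, Vr (z s) →ₗ[ZMod p] Vr (z s) →ₗ[ZMod p] ZMod p}
    (hB : ∀ s, RedForm (z s) (e s) (B s))
    (hL : LinP S (fun s i => (m s i : ZMod p)) B (fun s i => mk (z s) (P s i)) adj) {j : ℕ}
    (hF : IsTateForm ρ χ j F) : ∃ k₀, ∀ k, k₀ ≤ k → ∀ a : ∀ s, Module.End (ZMod p) (Vr (z s)),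
      (∀ s, Ty (B s) k (a s) ∧ LinearMap.trace (ZMod p) (Vr (z s)) (a s) = 0) →
        ∃ X, IsOp z e F X ∧ (∀ s i, LinearMap.trace ℤ_[p] (M s) (z s ^ i * X s) = 0) ∧
          ∀ s, ∃ A, Red (z s) A (a s) ∧ X s = lam (z s) ^ k * A := by
  have h2 : (2 : ZMod p) ≠ 0 := by
    have hp' := (Fact.out : p.Prime)
    intro h0
    have h1 : ((2 : ℕ) : ZMod p) = 0 := by exact_mod_cast h0
    rw [ZMod.natCast_eq_zero_iff] at h1
    exact hp ((Nat.prime_dvd_prime_iff_eq hp' Nat.prime_two).1 h1)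
  obtain ⟨k₀, hk₀⟩ := lin_bracket h2 hL (p - 1)
  refine ⟨k₀, fun k hk a ha => ?_⟩
  refine Submodule.span_induction (p := fun a _ => ∃ X, IsOp z e F X ∧
    (∀ s i, LinearMap.trace ℤ_[p] (M s) (z s ^ i * X s) = 0) ∧
      ∀ s, ∃ A, Red (z s) A (a s) ∧ X s = lam (z s) ^ k * A) ?_ ?_ ?_ ?_ (hk₀ k hk a ha)
  · rintro _ ⟨l, l', b, c, hl, hl', rfl, hb, hc, rfl⟩
    obtain ⟨X, hX, hX'⟩ := exists_op hp h hB hF hl hb
    obtain ⟨Y, hY, hY'⟩ := exists_op hp h hB hF hl' hc
    obtain ⟨h3, h4⟩ := hX.lie hY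
    refine ⟨_, h3, h4, fun s => ?_⟩
    obtain ⟨A, hA, hXA⟩ := hX' s
    obtain ⟨A', hA', hYA⟩ := hY' s
    refine ⟨A * A' - A' * A, (hA.mul hA').sub (hA'.mul hA), ?_⟩
    have hcl : ∀ {A : Module.End ℤ_[p] (M s)}, (∀ x, A (z s x) = z s (A x)) → ∀ i,
        A * lam (z s) ^ i = lam (z s) ^ i * A := by
      intro A hA i
      have h5 : Commute A (z s) := LinearMap.ext hA
      exact ((Commute.one_right A).sub_right h5).pow_right i
    rw [Pi.sub_apply, Pi.mul_apply, Pi.mul_apply, hXA, hYA, mul_sub]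
    congr 1
    · rw [mul_assoc, ← mul_assoc A, hcl hA.1, mul_assoc, ← mul_assoc, ← pow_add]
    · rw [mul_assoc, ← mul_assoc A', hcl hA'.1, mul_assoc, ← mul_assoc, ← pow_add, add_comm]
  · refine ⟨0, ⟨fun s x => by simp, fun s x y => by simp, fun v => ?_⟩, fun s i => by simp,
      fun s => ⟨0, ⟨fun x => by simp, fun x => by simp⟩, by simp⟩⟩
    have h3 := der_smul F 0 (big n (0 : ∀ s, Module.End ℤ_[p] (M s))) v
    have h4 : big n (0 : ∀ s, Module.End ℤ_[p] (M s)) = 0 := LinearMap.ext fun _ => rfl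
    rw [h4] at h3 ⊢
    rw [zero_smul] at h3
    rw [h3, PadicInt.coe_zero, zero_mul]
  · rintro a b - - ⟨X, hX, hX', hX''⟩ ⟨Y, hY, hY', hY''⟩
    refine ⟨X + Y, hX.add hY, fun s i => ?_, fun s => ?_⟩
    · rw [Pi.add_apply, mul_add, map_add, hX', hY', add_zero]
    · obtain ⟨A, hA, hXA⟩ := hX'' s
      obtain ⟨A', hA', hYA⟩ := hY'' s
      exact ⟨A + A', hA.add hA', by rw [Pi.add_apply, hXA, hYA, mul_add]⟩
  · rintro c a - ⟨X, hX, hX', hX''⟩
    refine ⟨(c.val : ℤ_[p]) • X, hX.smul _, fun s i => ?_, fun s => ?_⟩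
    · rw [Pi.smul_apply, mul_smul_comm, map_smul, hX', smul_zero]
    · obtain ⟨A, hA, hXA⟩ := hX'' s
      refine ⟨(c.val : ℤ_[p]) • A, ?_, by rw [Pi.smul_apply, hXA, mul_smul_comm]⟩
      have h3 := hA.smul (c.val : ℤ_[p])
      rw [map_natCast, ZMod.natCast_zmod_val] at h3
      exact h3

end Pool.Agent.PTate
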