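import Pool.Agent.PTate.Out
import Pool.Agent.PTate.Final

/-!
# Tate classes on powers of products of Jacobians of cyclic coverings: the theorem
-/

set_option autoImplicit false

noncomputable section

namespace Pool.Agent.PTate.Out

open Polynomial
open scoped Classical

variable {K : Type} [Field K] {L : Type} [Field L] [Algebra K L] {p : ℕ} [Fact p.Prime]
  {ι σ : Type} {a : ι → K} {S : σ → Finset ι} {m : σ → ι → ℕ} {n r j : ℕ}

private def un {f : L[X]} (t : Tate p (Crv L p f)) : Stm.Tate p (Stm.Co L p f) :=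
  ⟨t.pt, t.zero, t.mul⟩

private def mk' {f : L[X]} (t : Stm.Tate p (Stm.Co L p f)) : Tate p (Crv L p f) :=
  ⟨t.pt, t.zero, t.mul⟩

private theorem un_mk {f : L[X]} (t : Stm.Tate p (Stm.Co L p f)) : un (mk' t) = t := rfl

private theorem mk_un {f : L[X]} (t : Tate p (Crv L p f)) : mk' (un t) = t := rfl

private def mkV (v : Stm.Vec L p a S m n) : Vec L p a S m n := fun b s => mk' (v b s)

private def unV (v : Vec L p a S m n) : Stm.Vec L p a S m n := fun b s => un (v b s)

private theorem pairing_eq {f : L[X]} (ξ : ℕ → L) (t u : Tate p (Crv L p f)) :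
    pairing (fx L p f) ξ t u =
      Stm.pairing (algebraMap L[X] (Stm.Co L p f) X) ξ (un t) (un u) := rfl

private theorem auto_iff {f : L[X]} (g : L ≃+* L) (c : L) (e : Crv L p f ≃+* Crv L p f) :
    IsAuto g c e ↔ Stm.IsAuto (p := p) (f := f) g c e := Iff.rfl

private theorem form' {F : (Fin r → Vec L p a S m n) → ℚ_[p]} (hF : IsForm F) :
    Stm.IsForm fun v : Fin r → Stm.Vec L p a S m n => F fun i => mkV (v i) := by
  refine ⟨fun i v w w' h1 h2 => ?_, fun z i v w h1 h2 => ?_⟩
  · refine hF.add i _ _ _ (fun l hl => ?_) fun b s k => ?_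
    · rw [(h1 l hl).1, (h1 l hl).2]
      exact ⟨rfl, rfl⟩
    · exact h2 b s k
  · refine hF.smul z i _ _ (fun l hl => ?_) fun b s k => ?_
    · rw [h1 l hl]
    · exact h2 b s k

private theorem tate' {F : (Fin r → Vec L p a S m n) → ℚ_[p]} (hF : IsTate j F) :
    Stm.IsTate j fun v : Fin r → Stm.Vec L p a S m n => F fun i => mkV (v i) := by
  obtain ⟨U, hU, h⟩ := hF
  exact ⟨U, hU, fun g hg e he v w hvw => h g hg e he _ _ hvw⟩

private theorem skew' {f : L[X]} {ξ : ℕ → L} {Z : Tate p (Crv L p f) → Tate p (Crv L p f)}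
    (hZ : IsSkew ξ Z) : Stm.IsSkew ξ fun t : Stm.Tate p (Stm.Co L p f) => un (Z (mk' t)) := by
  refine ⟨fun t u => hZ.1 (mk' t) (mk' u), fun e he t u h k => hZ.2 e he (mk' t) (mk' u) h k⟩

theorem main [Algebra.IsAlgebraic K L] [IsAlgClosed L] (hp : p ≠ 2) {ζ : K}
    (hζ : IsPrimitiveRoot ζ p) [Fintype ι] [Fintype σ] (h : Generic p ζ a S m) {ξ : ℕ → L}
    (hξ : Stm.IsRoots p ξ) (hξ1 : ξ 1 = algebraMap K L ζ)
    (F : (Fin r → Vec L p a S m n) → ℚ_[p]) (hF : IsForm F) (hT : IsTate j F)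
    (X Y : ∀ s, T L p a (S s) (m s) → T L p a (S s) (m s)) (hX : ∀ s, IsSkew ξ (X s))
    (hY : ∀ s, IsSkew ξ (Y s)) (v w : Fin r → Vec L p a S m n)
    (hw : ∀ l, IsBracket X Y (v l) (w l)) : ∑ l, F (Function.update v l (w l)) = 0 := by
  have key := PTate.main hp hζ a S m h.inj h.two h.exponent h.degree h.nonzero h.separated
    h.connected hξ hξ1 (fun v : Fin r → Stm.Vec L p a S m n => F fun i => mkV (v i)) (form' hF)
    (tate' hT) (fun s t => un (X s (mk' t))) (fun s t => un (Y s (mk' t)))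
    (fun s => skew' (hX s)) (fun s => skew' (hY s)) (fun i => unV (v i)) (fun i => unV (w i))
    (fun l b s k => hw l b s k)
  rw [← key]
  refine Finset.sum_congr rfl fun l _ => ?_
  congr 1
  funext i
  by_cases hi : i = l
  · subst hi
    rw [Function.update_self, Function.update_self]
    rfl
  · rw [Function.update_of_ne hi, Function.update_of_ne hi]
    rfl

end Pool.Agent.PTate.Out
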