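import Pool.Agent.PTate.Out

/-!
# Tate classes on powers of products of Jacobians of cyclic coverings: products of Weil pairings and
determinants
-/

set_option autoImplicit false

noncomputable section

namespace Pool.Agent.PTate.Out

open Polynomial
open scoped Classical

/-- An algebraic closure of the field of p-adic numbers. -/
def Qb (p : ℕ) [Fact p.Prime] : Type := AlgebraicClosure ℚ_[p]

instance instQb (p : ℕ) [Fact p.Prime] : Field (Qb p) :=
  inferInstanceAs (Field (AlgebraicClosure ℚ_[p]))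

instance instQbAlg (p : ℕ) [Fact p.Prime] : Algebra ℚ_[p] (Qb p) :=
  inferInstanceAs (Algebra ℚ_[p] (AlgebraicClosure ℚ_[p]))

/-- A p-adic integer as an element of the algebraic closure. -/
def emb {p : ℕ} [Fact p.Prime] (c : ℤ_[p]) : Qb p := algebraMap ℚ_[p] (Qb p) c

/-- The action of an automorphism of the ring of regular functions on the Tate module. -/
def Tate.act {p : ℕ} {O : Type} [CommRing O] (e : O ≃+* O) (t : Tate p O) : Tate p O where
  pt k := (t.pt k).act e
  zero := by
    rw [t.zero]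
    exact map_zero (J.map e)
  mul n := (map_nsmul (J.map e) p (t.pt (n + 1))).symm.trans (congrArg (J.map e) (t.mul n))

/-- `D` is a determinant: an alternating form on the Tate module of the curve `y ^ p = f(x)`, linear
over the p-adic integers, which is multiplied by a fixed power `ζ ^ a`, `0 < a < p`, if the
automorphism `y ↦ (ξ 1) y` of the curve is applied to one variable. -/
structure IsDet {L : Type} [Field L] {p : ℕ} [Fact p.Prime] {f : L[X]} (ξ : ℕ → L) (ζ : Qb p)
    {d : ℕ} (D : (Fin d → Tate p (Crv L p f)) → Qb p) : Prop where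
  add : ∀ (v : Fin d → Tate p (Crv L p f)) (i : Fin d) (t u w : Tate p (Crv L p f)),
    (∀ k, t.pt k = u.pt k + w.pt k) →
      D (Function.update v i t) = D (Function.update v i u) + D (Function.update v i w)
  smul : ∀ (c : ℤ_[p]) (v : Fin d → Tate p (Crv L p f)) (i : Fin d) (t u : Tate p (Crv L p f)),
    (∀ k, t.pt k = (PadicInt.toZModPow k c).val • u.pt k) →
      D (Function.update v i t) = emb c * D (Function.update v i u)
  alt : ∀ (v : Fin d → Tate p (Crv L p f)) (i j : Fin d), i ≠ j → v i = v j → D v = 0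
  eig : ∃ a, 0 < a ∧ a < p ∧ ∀ e : Crv L p f ≃+* Crv L p f, IsAuto (RingEquiv.refl L) (ξ 1) e →
    ∀ (v : Fin d → Tate p (Crv L p f)) (i : Fin d),
      D (Function.update v i ((v i).act e)) = ζ ^ a * D v

variable {K : Type} [Field K] {L : Type} [Field L] [Algebra K L] {p : ℕ} [Fact p.Prime]
  {ι σ : Type} {a : ι → K} {S : σ → Finset ι} {m : σ → ι → ℕ} {n r : ℕ}

/-- The ring of the regular functions on the curve `y ^ p = ∏ (x - a i) ^ (m i)`, `i ∈ S`. -/
abbrev Rg (L : Type) [Field L] [Algebra K L] (p : ℕ) (a : ι → K) (S : Finset ι) (m : ι → ℕ) :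
    Type := Crv L p (Stm.eqn L a S m)

/-- The Weil pairing on the Tate module of the curve `y ^ p = ∏ (x - a i) ^ (m i)`, `i ∈ S`. -/
def weil {S : Finset ι} {m : ι → ℕ} (ξ : ℕ → L) (t u : T L p a S m) : ℤ_[p] :=
  pairing (fx L p (Stm.eqn L a S m)) ξ t u

/-- `g` is a product of Weil pairings of single factors, where automorphisms `y ↦ c y` of the
curves may be applied to the first variables. -/
def IsPairs (ξ : ℕ → L) (g : (Fin r → Vec L p a S m n) → ℚ_[p]) : Prop :=
  ∃ (k : ℕ) (s : Fin k → σ) (i : Fin k → ℕ)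
    (e : ∀ l, Rg L p a (S (s l)) (m (s l)) ≃+* Rg L p a (S (s l)) (m (s l)))
    (π : Fin k × Bool ≃ Fin r) (β : Fin r → Fin n),
    (∀ l, IsAuto (RingEquiv.refl L) (ξ 1 ^ i l) (e l)) ∧
    ∀ v, g v = ∏ l, (weil ξ ((v (π (l, true)) (β (π (l, true))) (s l)).act (e l))
      (v (π (l, false)) (β (π (l, false))) (s l)) : ℚ_[p])

/-- `g` is a product of Weil pairings of single factors, where automorphisms `y ↦ c y` of the
curves may be applied to the first variables, and of determinants of single factors; the number of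
variables of a determinant is `|S s| - 1`. -/
def IsProduct (ξ : ℕ → L) (ζ : Qb p) (g : (Fin r → Vec L p a S m n) → Qb p) : Prop :=
  ∃ (k l : ℕ) (s : Fin k → σ) (i : Fin k → ℕ)
    (e : ∀ l, Rg L p a (S (s l)) (m (s l)) ≃+* Rg L p a (S (s l)) (m (s l)))
    (t : Fin l → σ) (D : ∀ u, (Fin ((S (t u)).card - 1) → T L p a (S (t u)) (m (t u))) → Qb p)
    (π : (Fin k × Bool) ⊕ (Σ u : Fin l, Fin ((S (t u)).card - 1)) ≃ Fin r) (β : Fin r → Fin n),
    (∀ l, IsAuto (RingEquiv.refl L) (ξ 1 ^ i l) (e l)) ∧ (∀ u, IsDet ξ ζ (D u)) ∧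
    ∀ v, g v = (∏ l, emb (weil ξ
        ((v (π (.inl (l, true))) (β (π (.inl (l, true)))) (s l)).act (e l))
        (v (π (.inl (l, false))) (β (π (.inl (l, false)))) (s l)))) *
      ∏ u, D u fun c => v (π (.inr ⟨u, c⟩)) (β (π (.inr ⟨u, c⟩))) (t u)

/-- `g` is multiplied by the `j`-th power of the cyclotomic character under a subgroup of finite
index of the Galois group. -/
def IsTateE (j : ℕ) (g : (Fin r → Vec L p a S m n) → Qb p) : Prop :=
  ∃ U : Subgroup (L ≃ₐ[K] L), U.FiniteIndex ∧ ∀ h ∈ U,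
    ∀ e : ∀ s, Rg L p a (S s) (m s) ≃+* Rg L p a (S s) (m s),
      (∀ s, IsAuto (h : L ≃+* L) 1 (e s)) → ∀ v : Fin r → Vec L p a S m n,
        g (fun i b s => (v i b s).act (e s)) =
          emb ((cyclotomicCharacter L p (h : L ≃+* L) : ℤ_[p]) ^ j) * g v

end Pool.Agent.PTate.Out
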