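import Pool.Agent.PTate.OutInv
import Pool.Agent.PTate.InvFinB

/-!
# Tate classes on powers of products of Jacobians of cyclic coverings: the structure theorem
-/

set_option autoImplicit false

noncomputable section

namespace Pool.Agent.PTate.Out

open Polynomial
open scoped Classical

variable {K : Type} [Field K] {L : Type} [Field L] [Algebra K L] {p : ℕ} [Fact p.Prime]
  {ι σ : Type} {a : ι → K} {S : σ → Finset ι} {m : σ → ι → ℕ} {n r j : ℕ}

private def un {f : L[X]} (t : Tate p (Crv L p f)) : Stm.Tate p (Stm.Co L p f) :=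
  ⟨t.pt, t.zero, t.mul⟩

private def mk' {f : L[X]} (t : Stm.Tate p (Stm.Co L p f)) : Tate p (Crv L p f) :=
  ⟨t.pt, t.zero, t.mul⟩

private def mkV (v : Stm.Vec L p a S m n) : Vec L p a S m n := fun b s => mk' (v b s)

private def unV (v : Vec L p a S m n) : Stm.Vec L p a S m n := fun b s => un (v b s)

private theorem form' {F : (Fin r → Vec L p a S m n) → ℚ_[p]} (hF : IsForm F) :
    Stm.IsForm fun v : Fin r → Stm.Vec L p a S m n => F fun i => mkV (v i) := by
  refine ⟨fun i v w w' h1 h2 => ?_, fun z i v w h1 h2 => ?_⟩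
  · refine hF.add i _ _ _ (fun l hl => ?_) fun b s k => ?_
    · rw [(h1 l hl).1, (h1 l hl).2]
      exact ⟨rfl, rfl⟩
    · exact h2 b s k
  · refine hF.smul z i _ _ (fun l hl => ?_) fun b s k => ?_
    · rw [h1 l hl]
    · exact h2 b s k

private theorem tate' {F : (Fin r → Vec L p a S m n) → ℚ_[p]} :
    IsTate j F ↔ Stm.IsTate j fun v : Fin r → Stm.Vec L p a S m n => F fun i => mkV (v i) := by
  constructor
  · rintro ⟨U, hU, h⟩
    exact ⟨U, hU, fun g hg e he v w hvw => h g hg e he _ _ hvw⟩
  · rintro ⟨U, hU, h⟩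
    exact ⟨U, hU, fun g hg e he v w hvw =>
      h g hg e he (fun i => unV (v i)) (fun i => unV (w i)) hvw⟩

/-- The two descriptions of the tuples of vectors. -/
private def eV : (Fin r → Vec L p a S m n) ≃ (Fin r → Stm.Vec L p a S m n) where
  toFun v i := unV (v i)
  invFun v i := mkV (v i)
  left_inv _ := rfl
  right_inv _ := rfl

private theorem span_iff {R V W : Type} [Semiring R] (φ : V ≃ W) (P : (V → R) → Prop)
    (Q : (W → R) → Prop) (h : ∀ g, P g ↔ Q fun w => g (φ.symm w)) (F : V → R) :
    F ∈ Submodule.span R {g | P g} ↔ (fun w => F (φ.symm w)) ∈ Submodule.span R {g | Q g} := by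
  have key : (Submodule.span R {g | P g}).map
      (LinearMap.funLeft R R φ.symm) = Submodule.span R {g | Q g} := by
    rw [Submodule.map_span]
    congr 1
    ext g
    constructor
    · rintro ⟨g, hg, rfl⟩
      exact (h g).1 hg
    · intro hg
      refine ⟨fun v => g (φ v), (h _).2 ?_, ?_⟩
      · simpa using hg
      · funext w
        simp [LinearMap.funLeft_apply]
  have inj : Function.Injective (LinearMap.funLeft R R φ.symm : (V → R) →ₗ[R] (W → R)) :=
    LinearMap.funLeft_injective_of_surjective R R _ φ.symm.surjective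
  rw [← key]
  refine ⟨fun hF => ⟨F, hF, rfl⟩, ?_⟩
  rintro ⟨G, hG, hGF⟩
  have h2 : G = F := inj hGF
  rwa [← h2]

omit [Fact p.Prime] in
private theorem upd_mk {f : L[X]} {d : ℕ} (v : Fin d → Stm.Tate p (Stm.Co L p f)) (i : Fin d)
    (t : Stm.Tate p (Stm.Co L p f)) :
    (fun j => mk' (Function.update v i t j)) = Function.update (fun j => mk' (v j)) i (mk' t) := by
  funext j
  by_cases h : j = i
  · subst h
    rw [Function.update_self, Function.update_self]
  · rw [Function.update_of_ne h, Function.update_of_ne h]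

private theorem det_iff {f : L[X]} {ξ : ℕ → L} {ζ' : Qb p} {d : ℕ}
    (D : (Fin d → Tate p (Crv L p f)) → Qb p) :
    IsDet ξ ζ' D ↔ Stm.IsDet (f := f) ξ (show AlgebraicClosure ℚ_[p] from ζ')
      (show (Fin d → Stm.Tate p (Stm.Co L p f)) → AlgebraicClosure ℚ_[p] from
        fun v => D fun i => mk' (v i)) := by
  constructor
  · intro h
    refine ⟨fun v i t u w htuw => ?_, fun c v i t u htu => ?_, fun v i j hij hv => ?_, ?_⟩
    · have key := h.add (fun j => mk' (v j)) i (mk' t) (mk' u) (mk' w) htuw
      rw [← upd_mk, ← upd_mk, ← upd_mk] at key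
      exact key
    · have key := h.smul c (fun j => mk' (v j)) i (mk' t) (mk' u) htu
      rw [← upd_mk, ← upd_mk] at key
      exact key
    · exact h.alt (fun j => mk' (v j)) i j hij (congrArg mk' hv)
    · obtain ⟨a, ha, hap, he⟩ := h.eig
      refine ⟨a, ha, hap, fun e hee v i => ?_⟩
      have key : D (Function.update (fun j => mk' (v j)) i (mk' (Stm.mvT e (v i)))) =
        ζ' ^ a * D fun j => mk' (v j) := he e hee (fun j => mk' (v j)) i
      rw [← upd_mk] at key
      exact key
  · intro h
    refine ⟨fun v i t u w htuw => ?_, fun c v i t u htu => ?_, fun v i j hij hv => ?_, ?_⟩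
    · have key : (D fun j => mk' (Function.update (fun j => un (v j)) i (un t) j)) =
        (D fun j => mk' (Function.update (fun j => un (v j)) i (un u) j)) +
          D fun j => mk' (Function.update (fun j => un (v j)) i (un w) j) :=
        h.add (fun j => un (v j)) i (un t) (un u) (un w) htuw
      rw [upd_mk, upd_mk, upd_mk] at key
      exact key
    · have key : (D fun j => mk' (Function.update (fun j => un (v j)) i (un t) j)) =
        emb c * D fun j => mk' (Function.update (fun j => un (v j)) i (un u) j) :=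
        h.smul c (fun j => un (v j)) i (un t) (un u) htu
      rw [upd_mk, upd_mk] at key
      exact key
    · exact h.alt (fun j => un (v j)) i j hij (congrArg un hv)
    · obtain ⟨a, ha, hap, he⟩ := h.eig
      refine ⟨a, ha, hap, fun e hee v i => ?_⟩
      have key : (D fun j => mk' (Function.update (fun j => un (v j)) i
        (Stm.mvT e (un (v i))) j)) = ζ' ^ a * D v := he e hee (fun j => un (v j)) i
      rw [upd_mk] at key
      exact key

private theorem prod_iff {ξ : ℕ → L} {ζ' : Qb p} (g : (Fin r → Vec L p a S m n) → Qb p) :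
    IsProduct ξ ζ' g ↔ Stm.IsProduct ξ (show AlgebraicClosure ℚ_[p] from ζ')
      (show (Fin r → Stm.Vec L p a S m n) → AlgebraicClosure ℚ_[p] from
        fun v => g (eV.symm v)) := by
  constructor
  · rintro ⟨k, l, s, i, e, t, D, π, β, he, hD, hg⟩
    exact ⟨k, l, s, i, e, t, fun u v => D u fun c => mk' (v c), π, β, he,
      fun u => (det_iff (D u)).1 (hD u), fun v => hg (eV.symm v)⟩
  · rintro ⟨k, l, s, i, e, t, D, π, β, he, hD, hg⟩
    exact ⟨k, l, s, i, e, t, fun u v => D u fun c => un (v c), π, β, he,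
      fun u => (det_iff fun v => D u fun c => un (v c)).2 (hD u), fun v => hg (eV v)⟩

private theorem tateE_iff (g : (Fin r → Vec L p a S m n) → Qb p) :
    IsTateE j g ↔ Stm.IsTateE j (show (Fin r → Stm.Vec L p a S m n) → AlgebraicClosure ℚ_[p] from
        fun v => g (eV.symm v)) := by
  constructor
  · rintro ⟨U, hU, h⟩
    exact ⟨U, hU, fun g hg e he v => h g hg e he (eV.symm v)⟩
  · rintro ⟨U, hU, h⟩
    exact ⟨U, hU, fun g hg e he v => h g hg e he (eV v)⟩

theorem structure_all [Algebra.IsAlgebraic K L] [IsAlgClosed L] (hp : p ≠ 2) {ζ : K}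
    (hζ : IsPrimitiveRoot ζ p) [Fintype ι] [Fintype σ] (h : Generic p ζ a S m) {ξ : ℕ → L}
    (hξ : Stm.IsRoots p ξ) (hξ1 : ξ 1 = algebraMap K L ζ) {ζ' : Qb p}
    (hζ' : IsPrimitiveRoot ζ' p) (F : (Fin r → Vec L p a S m n) → ℚ_[p]) (hF : IsForm F) :
    IsTate j F ↔ (fun v => algebraMap ℚ_[p] (Qb p) (F v)) ∈
      Submodule.span (Qb p) {g | IsProduct ξ ζ' g ∧ IsTateE j g} := by
  have key := PTate.structure_all hp hζ a S m h.inj h.two h.exponent h.degree h.nonzero
    h.separated h.connected hξ hξ1 (ζ' := ζ') hζ' (j := j)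
    (fun v : Fin r → Stm.Vec L p a S m n => F fun i => mkV (v i)) (form' hF)
  rw [tate', span_iff eV (fun g => IsProduct ξ ζ' g ∧ IsTateE j g)
    (fun g : (Fin r → Stm.Vec L p a S m n) → Qb p => Stm.IsProduct (p := p) ξ ζ' g ∧
      Stm.IsTateE (p := p) j g) (fun g => and_congr (prod_iff g) (tateE_iff g))]
  exact key

end Pool.Agent.PTate.Out
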