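import Pool.Agent.PTate.OutInv
import Pool.Agent.PTate.InvFinA

/-!
# Tate classes on powers of products of Jacobians of cyclic coverings: low degree
-/

set_option autoImplicit false

noncomputable section

namespace Pool.Agent.PTate.Out

open Polynomial
open scoped Classical

variable {K : Type} [Field K] {L : Type} [Field L] [Algebra K L] {p : ℕ} [Fact p.Prime]
  {ι σ : Type} {a : ι → K} {S : σ → Finset ι} {m : σ → ι → ℕ} {n r j : ℕ}

private def un {f : L[X]} (t : Tate p (Crv L p f)) : Stm.Tate p (Stm.Co L p f) :=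
  ⟨t.pt, t.zero, t.mul⟩

private def mk' {f : L[X]} (t : Stm.Tate p (Stm.Co L p f)) : Tate p (Crv L p f) :=
  ⟨t.pt, t.zero, t.mul⟩

private def mkV (v : Stm.Vec L p a S m n) : Vec L p a S m n := fun b s => mk' (v b s)

private def unV (v : Vec L p a S m n) : Stm.Vec L p a S m n := fun b s => un (v b s)

private theorem form' {F : (Fin r → Vec L p a S m n) → ℚ_[p]} (hF : IsForm F) :
    Stm.IsForm fun v : Fin r → Stm.Vec L p a S m n => F fun i => mkV (v i) := by
  refine ⟨fun i v w w' h1 h2 => ?_, fun z i v w h1 h2 => ?_⟩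
  · refine hF.add i _ _ _ (fun l hl => ?_) fun b s k => ?_
    · rw [(h1 l hl).1, (h1 l hl).2]
      exact ⟨rfl, rfl⟩
    · exact h2 b s k
  · refine hF.smul z i _ _ (fun l hl => ?_) fun b s k => ?_
    · rw [h1 l hl]
    · exact h2 b s k

private theorem tate' {F : (Fin r → Vec L p a S m n) → ℚ_[p]} :
    IsTate j F ↔ Stm.IsTate j fun v : Fin r → Stm.Vec L p a S m n => F fun i => mkV (v i) := by
  constructor
  · rintro ⟨U, hU, h⟩
    exact ⟨U, hU, fun g hg e he v w hvw => h g hg e he _ _ hvw⟩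
  · rintro ⟨U, hU, h⟩
    exact ⟨U, hU, fun g hg e he v w hvw =>
      h g hg e he (fun i => unV (v i)) (fun i => unV (w i)) hvw⟩

/-- The two descriptions of the tuples of vectors. -/
private def eV : (Fin r → Vec L p a S m n) ≃ (Fin r → Stm.Vec L p a S m n) where
  toFun v i := unV (v i)
  invFun v i := mkV (v i)
  left_inv _ := rfl
  right_inv _ := rfl

private theorem pairs_iff {ξ : ℕ → L} (g : (Fin r → Vec L p a S m n) → ℚ_[p]) :
    IsPairs ξ g ↔ Stm.IsPProduct ξ fun v => g (eV.symm v) := by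
  constructor
  · rintro ⟨k, s, i, e, π, β, he, hg⟩
    exact ⟨k, s, i, e, π, β, he, fun v => hg (eV.symm v)⟩
  · rintro ⟨k, s, i, e, π, β, he, hg⟩
    exact ⟨k, s, i, e, π, β, he, fun v => hg (eV v)⟩

private theorem span_iff {R V W : Type} [Semiring R] (φ : V ≃ W) (P : (V → R) → Prop)
    (Q : (W → R) → Prop) (h : ∀ g, P g ↔ Q fun w => g (φ.symm w)) (F : V → R) :
    F ∈ Submodule.span R {g | P g} ↔ (fun w => F (φ.symm w)) ∈ Submodule.span R {g | Q g} := by
  have key : (Submodule.span R {g | P g}).map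
      (LinearMap.funLeft R R φ.symm) = Submodule.span R {g | Q g} := by
    rw [Submodule.map_span]
    congr 1
    ext g
    constructor
    · rintro ⟨g, hg, rfl⟩
      exact (h g).1 hg
    · intro hg
      refine ⟨fun v => g (φ v), (h _).2 ?_, ?_⟩
      · simpa using hg
      · funext w
        simp [LinearMap.funLeft_apply]
  have inj : Function.Injective (LinearMap.funLeft R R φ.symm : (V → R) →ₗ[R] (W → R)) :=
    LinearMap.funLeft_injective_of_surjective R R _ φ.symm.surjective
  rw [← key]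
  refine ⟨fun hF => ⟨F, hF, rfl⟩, ?_⟩
  rintro ⟨G, hG, hGF⟩
  have h2 : G = F := inj hGF
  rwa [← h2]

theorem structure_low [Algebra.IsAlgebraic K L] [IsAlgClosed L] (hp : p ≠ 2) {ζ : K}
    (hζ : IsPrimitiveRoot ζ p) [Fintype ι] [Fintype σ] (h : Generic p ζ a S m) {ξ : ℕ → L}
    (hξ : Stm.IsRoots p ξ) (hξ1 : ξ 1 = algebraMap K L ζ)
    (hj : ∀ s, 2 * j < (S s).card - 1) (F : (Fin (2 * j) → Vec L p a S m n) → ℚ_[p])
    (hF : IsForm F) :
    IsTate j F ↔ F ∈ Submodule.span ℚ_[p] {g | IsPairs ξ g} := by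
  rw [tate', span_iff eV (IsPairs ξ) (Stm.IsPProduct ξ) pairs_iff]
  exact PTate.structure_low hp hζ a S m h.inj h.two h.exponent h.degree h.nonzero h.separated
    h.connected hξ hξ1 hj (fun v : Fin (2 * j) → Stm.Vec L p a S m n => F fun i => mkV (v i))
    (form' hF)

end Pool.Agent.PTate.Out
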