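import Mathlib

/-!
# The p-adic logarithm of an operator
-/

set_option autoImplicit false

noncomputable section

namespace Pool.Agent.PTate

variable {p : ℕ} [Fact p.Prime] {M : Type} [AddCommGroup M] [Module ℤ_[p] M]
  [Module.Finite ℤ_[p] M] [Module.IsTorsionFree ℤ_[p] M]

omit [Module.Finite ℤ_[p] M] [Module.IsTorsionFree ℤ_[p] M] [AddCommGroup M] [Module ℤ_[p] M] in
private theorem plog_p_ne : (p : ℤ_[p]) ≠ 0 := by
  exact_mod_cast (Fact.out : p.Prime).ne_zero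

private theorem plog_norm (p : ℕ) [Fact p.Prime] (d : ℤ_[p]) (i : ℕ) :
    ‖(p : ℤ_[p]) ^ i * d‖ ≤ (1 / 2 : ℝ) ^ i := by
  rw [norm_mul, norm_pow, PadicInt.norm_p]
  have h1 : ((p : ℝ)⁻¹) ^ i ≤ (1 / 2 : ℝ) ^ i := by
    have h2 : (2 : ℝ) ≤ p := by exact_mod_cast (Fact.out : p.Prime).two_le
    refine pow_le_pow_left₀ (by positivity) ?_ i
    rw [one_div]
    exact inv_anti₀ (by norm_num) h2
  have h2 := PadicInt.norm_le_one d
  have h3 : (0 : ℝ) ≤ ((p : ℝ)⁻¹) ^ i := by positivity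
  nlinarith

/-- convergence of a series in the p-adic integers -/
private theorem plog_series_one (p : ℕ) [Fact p.Prime] (d : ℕ → ℤ_[p]) :
    ∃ (s : ℤ_[p]) (r : ℕ → ℤ_[p]), ∀ m,
      s = ∑ i ∈ Finset.range m, (p : ℤ_[p]) ^ i * d i + (p : ℤ_[p]) ^ m * r m := by
  have hs : ∀ e : ℕ → ℤ_[p], Summable fun i => (p : ℤ_[p]) ^ i * e i := fun e =>
    Summable.of_norm_bounded (summable_geometric_of_lt_one (by norm_num) (by norm_num))
      fun i => plog_norm p (e i) i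
  refine ⟨∑' i, (p : ℤ_[p]) ^ i * d i, fun m => ∑' i, (p : ℤ_[p]) ^ i * d (i + m), fun m => ?_⟩
  show ∑' i, (p : ℤ_[p]) ^ i * d i = ∑ i ∈ Finset.range m, (p : ℤ_[p]) ^ i * d i +
    (p : ℤ_[p]) ^ m * ∑' i, (p : ℤ_[p]) ^ i * d (i + m)
  rw [← (hs fun i => d (i + m)).tsum_mul_left, ← (hs d).sum_add_tsum_nat_add m]
  congr 2
  ext i
  rw [pow_add]
  ring

/-- convergence of a series in a finite free module -/
private theorem plog_series {N : Type} [AddCommGroup N] [Module ℤ_[p] N] [Module.Finite ℤ_[p] N]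
    [Module.Free ℤ_[p] N] (D : ℕ → N) : ∃ (s : N) (r : ℕ → N), ∀ m,
    s = ∑ i ∈ Finset.range m, (p : ℤ_[p]) ^ i • D i + (p : ℤ_[p]) ^ m • r m := by
  classical
  set b := Module.Free.chooseBasis ℤ_[p] N
  choose s r h using fun j => plog_series_one p fun i => b.repr (D i) j
  refine ⟨∑ j, s j • b j, fun m => ∑ j, r j m • b j, fun m => ?_⟩
  apply b.repr.injective
  ext j
  have h1 : ∀ c : Module.Free.ChooseBasisIndex ℤ_[p] N → ℤ_[p],
      b.repr (∑ j, c j • b j) j = c j := by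
    intro c
    rw [b.repr_sum_self]
  rw [map_add, map_smul, Finsupp.add_apply, Finsupp.smul_apply, h1, h1, map_sum,
    Finsupp.finsetSum_apply, h j m]
  simp only [map_smul, Finsupp.smul_apply, smul_eq_mul]

/-- an element divisible by all powers of `p` is zero -/
theorem eq_zero_of_pow_dvd {x : M} (h : ∀ n : ℕ, ∃ y : M, x = (p : ℤ_[p]) ^ n • y) : x = 0 := by
  have : Module.Free ℤ_[p] M := inferInstance
  set b := Module.Free.chooseBasis ℤ_[p] M
  apply b.repr.injective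
  ext j
  rw [map_zero, Finsupp.zero_apply]
  have h1 : ∀ n : ℕ, ‖b.repr x j‖ ≤ (1 / 2 : ℝ) ^ n := by
    intro n
    obtain ⟨y, rfl⟩ := h n
    rw [map_smul, Finsupp.smul_apply, smul_eq_mul]
    exact plog_norm p _ _
  have h2 : ‖b.repr x j‖ ≤ 0 :=
    ge_of_tendsto' (tendsto_pow_atTop_nhds_zero_of_lt_one (by norm_num) (by norm_num)) h1
  exact norm_le_zero_iff.1 h2

/-- `X` is the logarithm of `g` -/
def IsLog (p : ℕ) [Fact p.Prime] {M : Type} [AddCommGroup M] [Module ℤ_[p] M]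
    (g X : Module.End ℤ_[p] M) : Prop :=
  ∀ m : ℕ, ∃ R : Module.End ℤ_[p] M,
    g ^ p ^ m = 1 + (p : ℤ_[p]) ^ m • X + (p : ℤ_[p]) ^ (2 * m) • R

omit [Module.Finite ℤ_[p] M] [Module.IsTorsionFree ℤ_[p] M] in
/-- the `p`-th power -/
private theorem plog_pow (hp : p ≠ 2) {n : ℕ} (hn : 1 ≤ n) (K : Module.End ℤ_[p] M) :
    ∃ W : Module.End ℤ_[p] M, (1 + (p : ℤ_[p]) ^ n • K) ^ p =
      1 + (p : ℤ_[p]) ^ (n + 1) • K + (p : ℤ_[p]) ^ (2 * n + 1) • W := by
  have hpp : p.Prime := Fact.out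
  obtain ⟨k, hk⟩ : ∃ k, p = k + 3 := ⟨p - 3, by have := hpp.two_le; omega⟩
  have h1 : (1 + (p : ℤ_[p]) ^ n • K) ^ p = ∑ i ∈ Finset.range (p + 1),
      (p.choose i : ℤ_[p]) • ((p : ℤ_[p]) ^ (n * i) • K ^ i) := by
    rw [add_comm (1 : Module.End ℤ_[p] M), (Commute.one_right _).add_pow]
    refine Finset.sum_congr rfl fun i _ => ?_
    rw [one_pow, mul_one, smul_pow, ← pow_mul, ← (Nat.cast_commute _ _).eq, ← nsmul_eq_mul,
      Nat.cast_smul_eq_nsmul]
  have h2 : ∀ i : ℕ, ∃ W : Module.End ℤ_[p] M, i ∈ Finset.range (k + 2) →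
      (p.choose (i + 2) : ℤ_[p]) • ((p : ℤ_[p]) ^ (n * (i + 2)) • K ^ (i + 2)) =
        (p : ℤ_[p]) ^ (2 * n + 1) • W := by
    intro i
    by_cases hi : i + 2 < p
    · obtain ⟨t, ht⟩ := hpp.dvd_choose_self (by omega : i + 2 ≠ 0) hi
      refine ⟨((p : ℤ_[p]) ^ (n * i) * t) • K ^ (i + 2), fun _ => ?_⟩
      rw [ht, smul_smul, smul_smul]
      congr 1
      push_cast
      ring
    · by_cases hi2 : i + 2 = p
      · have h3 : 2 * n + 1 ≤ n * (i + 2) := by
          have : 1 ≤ i := by omega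
          nlinarith
        obtain ⟨j, hj⟩ := Nat.exists_eq_add_of_le h3
        refine ⟨(p : ℤ_[p]) ^ j • K ^ (i + 2), fun _ => ?_⟩
        have h4 : p.choose (i + 2) = 1 := by rw [hi2, Nat.choose_self]
        rw [h4, Nat.cast_one, one_smul, smul_smul, ← pow_add, hj]
      · exact ⟨0, fun h => absurd (Finset.mem_range.1 h) (by omega)⟩
  choose W hW using h2
  refine ⟨∑ i ∈ Finset.range (k + 2), W i, ?_⟩
  rw [h1, show p + 1 = (k + 2) + 1 + 1 by omega, Finset.sum_range_succ', Finset.sum_range_succ',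
    Finset.sum_congr rfl hW, ← Finset.smul_sum]
  simp only [zero_add, Nat.choose_one_right, Nat.choose_zero_right, Nat.cast_one, one_smul,
    mul_zero, pow_zero, mul_one, pow_one, smul_smul]
  rw [← pow_succ']
  abel

theorem exists_log (hp : p ≠ 2) {g Y : Module.End ℤ_[p] M} {c : ℕ} (hc : 1 ≤ c)
    (hg : g = 1 + (p : ℤ_[p]) ^ c • Y) :
    ∃ X Z : Module.End ℤ_[p] M, IsLog p g X ∧
      X = (p : ℤ_[p]) ^ c • Y + (p : ℤ_[p]) ^ (2 * c) • Z := by
  have : Module.Free ℤ_[p] M := inferInstance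
  choose W hW using fun (m : ℕ) (K : Module.End ℤ_[p] M) =>
    plog_pow (p := p) hp (n := c + m) (by omega) K
  let K : ℕ → Module.End ℤ_[p] M := fun m =>
    Nat.rec Y (fun m k => k + (p : ℤ_[p]) ^ (c + m) • W m k) m
  have K0 : K 0 = Y := rfl
  have K1 : ∀ m, K (m + 1) = K m + (p : ℤ_[p]) ^ (c + m) • W m (K m) := fun m => rfl
  have hK : ∀ m, g ^ p ^ m = 1 + (p : ℤ_[p]) ^ (c + m) • K m := by
    intro m
    induction m with
    | zero => rw [pow_zero, pow_one, K0, hg, add_zero]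
    | succ m ih =>
      rw [pow_succ p m, pow_mul, ih, K1, hW, smul_add, smul_smul, ← pow_add, ← add_assoc,
        ← add_assoc, show c + m + 1 + (c + m) = 2 * (c + m) + 1 by omega]
  obtain ⟨s, r, hsr⟩ := plog_series (p := p) fun m => W m (K m)
  have hKs : ∀ m, K m = Y + (p : ℤ_[p]) ^ c • ∑ i ∈ Finset.range m,
      (p : ℤ_[p]) ^ i • W i (K i) := by
    intro m
    induction m with
    | zero => rw [K0, Finset.range_zero, Finset.sum_empty, smul_zero, add_zero]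
    | succ m ih =>
      rw [K1, Finset.sum_range_succ, smul_add, ← add_assoc, ← ih, smul_smul, ← pow_add]
  refine ⟨(p : ℤ_[p]) ^ c • (Y + (p : ℤ_[p]) ^ c • s), s,
    fun m => ⟨-((p : ℤ_[p]) ^ (2 * c) • r m), ?_⟩, ?_⟩
  · have h1 : Y + (p : ℤ_[p]) ^ c • s = K m + (p : ℤ_[p]) ^ (c + m) • r m := by
      rw [hKs m, add_assoc, pow_add, ← smul_smul, ← smul_add, ← hsr m]
    rw [hK m, h1]
    simp only [smul_add, smul_neg, smul_smul, ← pow_add]
    rw [add_comm c m, show m + (c + (m + c)) = 2 * m + 2 * c by omega]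
    abel
  · rw [smul_add, smul_smul, ← pow_add, two_mul]

theorem IsLog.comm {g X A : Module.End ℤ_[p] M} (h : IsLog p g X) (hA : A * g = g * A) :
    A * X = X * A := by
  have : Module.Free ℤ_[p] M := inferInstance
  rw [← sub_eq_zero]
  apply eq_zero_of_pow_dvd (p := p)
  intro m
  obtain ⟨R, hR⟩ := h m
  refine ⟨R * A - A * R, ?_⟩
  have h1 : A * g ^ p ^ m = g ^ p ^ m * A := (Commute.pow_right hA _)
  rw [hR] at h1
  have h2 : (p : ℤ_[p]) ^ m • (A * X - X * A) = (p : ℤ_[p]) ^ m • ((p : ℤ_[p]) ^ m •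
      (R * A - A * R)) := by
    rw [smul_smul, ← pow_add, ← two_mul]
    simp only [mul_add, add_mul, mul_one, one_mul, mul_smul_comm, smul_mul_assoc] at h1
    simp only [smul_sub]
    rw [sub_eq_sub_iff_add_eq_add]
    have h3 := congrArg (fun T => T - A) h1
    simp only [add_assoc, add_sub_cancel_left] at h3
    rw [h3]
    abel
  exact smul_right_injective _ (pow_ne_zero m plog_p_ne) h2

theorem IsLog.skew {g X : Module.End ℤ_[p] M} (h : IsLog p g X)
    {e : M →ₗ[ℤ_[p]] M →ₗ[ℤ_[p]] ℤ_[p]} (he : ∀ x y, e (g x) (g y) = e x y) (x y : M) :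
    e (X x) y + e x (X y) = 0 := by
  have h1 : ∀ (n : ℕ) (x y : M), e ((g ^ n) x) ((g ^ n) y) = e x y := by
    intro n
    induction n with
    | zero => intro x y; rfl
    | succ n ih =>
      intro x y
      rw [pow_succ, Module.End.mul_apply, Module.End.mul_apply, ih, he]
  apply eq_zero_of_pow_dvd (p := p)
  intro m
  obtain ⟨R, hR⟩ := h m
  have h2 := h1 (p ^ m) x y
  rw [hR] at h2
  simp only [LinearMap.add_apply, LinearMap.smul_apply, Module.End.one_apply, map_add, map_smul,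
    smul_eq_mul] at h2
  refine ⟨-(e (R x) y + e x (R y) + e (X x) (X y) + (p : ℤ_[p]) ^ m * (e (X x) (R y) +
    e (R x) (X y)) + (p : ℤ_[p]) ^ (2 * m) * e (R x) (R y)), ?_⟩
  have h3 : (p : ℤ_[p]) ^ m ≠ 0 := pow_ne_zero m plog_p_ne
  apply mul_left_cancel₀ h3
  rw [smul_eq_mul]
  rw [show (p : ℤ_[p]) ^ (2 * m) = (p : ℤ_[p]) ^ m * (p : ℤ_[p]) ^ m by rw [two_mul, pow_add]] at *
  linear_combination h2

end Pool.Agent.PTate
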