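import Pool.Agent.PTate.RatC
import Pool.Agent.PTate.Fixed
import Pool.Agent.PTate.PolyZ

/-!
# The Weil pairing with the fixed points
-/

set_option autoImplicit false

noncomputable section

namespace Pool.Agent.PTate

open Polynomial
open scoped Classical

variable {k O : Type} [Field k] [CommRing O] [Algebra k O] {p : ℕ} {ζ : k}
  [IsDedekindDomain O] [IsAlgClosed k]

private theorem pair_sum {A : Type} [AddCommGroup A] {ι : Type} (s : Finset ι)
    (g : ι → AddMonoid.End A) (Q : A) : (∑ i ∈ s, g i) Q = ∑ i ∈ s, g i Q := by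
  induction s using Finset.induction_on with
  | empty => rfl
  | insert i s hi ih =>
    rw [Finset.sum_insert hi, Finset.sum_insert hi, ← ih]
    rfl

private theorem pair_theta {A : Type} [AddCommGroup A] (f : AddMonoid.End A) {p : ℕ}
    [Fact p.Prime] {Q : A} (hQ : p • Q = 0) :
    ∑ l ∈ Finset.range (p - 1), (p - 1 - l) • f^[l] Q =
      -(fun c : A => c - f c)^[p - 2] Q := by
  obtain ⟨v, hv⟩ := (poly_theta (p := p)).2
  have h1 := congrArg (aeval f) hv
  have h2 := congrArg (fun g : AddMonoid.End A => g Q) h1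
  have e1 : (aeval f (∑ l ∈ Finset.range (p - 1), ((p - 1 - l : ℕ) : ℤ[X]) * X ^ l)) Q =
      ∑ l ∈ Finset.range (p - 1), (p - 1 - l) • f^[l] Q := by
    rw [map_sum, pair_sum]
    refine Finset.sum_congr rfl fun l _ => ?_
    rw [map_mul, map_natCast, map_pow, aeval_X]
    show ((p - 1 - l : ℕ) : AddMonoid.End A) ((f ^ l) Q) = _
    rw [AddMonoid.End.natCast_apply, AddMonoid.End.coe_pow]
  have e2 : (aeval f (-(1 - X) ^ (p - 2) + (p : ℤ[X]) * v)) Q =
      -(fun c : A => c - f c)^[p - 2] Q := by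
    rw [map_add, map_neg, map_pow, map_sub, map_one, aeval_X, map_mul, map_natCast]
    have e3 : ((p : AddMonoid.End A) * aeval f v) Q = 0 := by
      rw [(Nat.cast_commute p (aeval f v)).eq]
      show (aeval f v) ((p : AddMonoid.End A) Q) = 0
      rw [AddMonoid.End.natCast_apply, hQ, map_zero]
    have e4 : ((1 - f : AddMonoid.End A) ^ (p - 2)) Q = (fun c : A => c - f c)^[p - 2] Q := by
      rw [AddMonoid.End.coe_pow]
      rfl
    show -((1 - f : AddMonoid.End A) ^ (p - 2)) Q + ((p : AddMonoid.End A) * aeval f v) Q = _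
    rw [e3, e4, add_zero]
  rw [← e1, ← e2]
  exact h2

/-- `θ Q = - (1 - σ) ^ (p - 2) Q` if `p Q = 0`. -/
theorem Cyc.theta (C : Cyc k O p ζ) [Fact p.Prime] (hp : p ≠ 2) {Q : J O} (hQ : p • Q = 0) :
    ∑ l ∈ Finset.range (p - 1), (p - 1 - l) • C.S^[l] Q =
      -(fun c : J O => c - C.S c)^[p - 2] Q :=
  pair_theta (A := J O) C.S hQ

/-- the divisor of `b σ w` is the divisor of `h(x) w` -/
private theorem pair_count (p : ℕ) (u : ℕ → Multiset (MaximalSpectrum O)) (hp : 0 < p) :
    p • u 0 + ∑ l ∈ Finset.range (p - 1), (p - 1 - l) • u (l + 1) =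
      ∑ i ∈ Finset.range p, u i + ∑ l ∈ Finset.range (p - 1), (p - 1 - l) • u l := by
  obtain ⟨q, rfl⟩ : ∃ q, p = q + 1 := ⟨p - 1, by omega⟩
  rw [Nat.add_sub_cancel]
  have h1 : ∑ l ∈ Finset.range q, (q - l) • u l =
      ∑ l ∈ Finset.range (q + 1), (q - l) • u l := by
    rw [Finset.sum_range_succ, Nat.sub_self, zero_smul, add_zero]
  have h2 : (q + 1) • u 0 + ∑ l ∈ Finset.range q, (q - l) • u (l + 1) =
      ∑ l ∈ Finset.range (q + 1), (q + 1 - l) • u l := by
    rw [Finset.sum_range_succ', add_comm]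
    congr 1
    refine Finset.sum_congr rfl fun l _ => ?_
    rw [Nat.add_sub_add_right]
  rw [h1, h2, ← Finset.sum_add_distrib]
  refine Finset.sum_congr rfl fun l hl => ?_
  have h3 : q + 1 - l = (q - l) + 1 := by
    have := Finset.mem_range.1 hl
    omega
  rw [h3, add_smul, one_smul, add_comm]

omit [IsDedekindDomain O] in
private theorem pair_card {p : ℕ} (hp : p.Prime) (h2 : p ≠ 2) (n : ℕ)
    (u : ℕ → Multiset (MaximalSpectrum O)) (hu : ∀ l, Multiset.card (u l) = n) :
    p ∣ Multiset.card (∑ l ∈ Finset.range (p - 1), (p - 1 - l) • u l) := by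
  have h0 : Multiset.card (∑ l ∈ Finset.range (p - 1), (p - 1 - l) • u l) =
      ∑ l ∈ Finset.range (p - 1), Multiset.card ((p - 1 - l) • u l) :=
    map_sum Multiset.cardHom _ _
  rw [h0]
  have h3 : ∑ l ∈ Finset.range (p - 1), Multiset.card ((p - 1 - l) • u l) =
      (∑ l ∈ Finset.range p, (p - 1 - l)) * n := by
    obtain ⟨q, rfl⟩ : ∃ q, p = q + 1 := ⟨p - 1, by have := hp.pos; omega⟩
    rw [Nat.add_sub_cancel, Finset.sum_range_succ, Nat.sub_self, add_zero, Finset.sum_mul]
    refine Finset.sum_congr rfl fun l _ => ?_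
    rw [Multiset.card_nsmul, hu]
  rw [h3, Finset.sum_range_reflect (fun j => j) p]
  apply Dvd.dvd.mul_right
  have h4 := Finset.sum_range_id_mul_two p
  have h5 : p ∣ (∑ i ∈ Finset.range p, i) * 2 := by
    rw [h4]
    exact Dvd.intro _ rfl
  exact (Nat.Coprime.dvd_of_dvd_mul_right
    ((Nat.coprime_primes hp Nat.prime_two).2 h2) h5)

/-- The pairing of the class of a fixed point with a class `Q` killed by `p` such that
`(1 - σ) ^ (p - 2) Q` is the class of a fixed point. -/
theorem Cyc.weil_fixed (C : Cyc k O p ζ) [Fact p.Prime] (hp : p ≠ 2)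
    {P P' : MaximalSpectrum O} (hP : P ∈ C.F) (hP' : P' ∈ C.F) {Q : J O} (h1 : p • Q = 0)
    (h2 : (fun c : J O => c - C.S c)^[p - 2] Q = cl P') {m' : ℕ} (hm : (C.m P * m') % p = 1) :
    weil C.I p (cl P) Q * ζ ^ C.e = if P = P' then ζ ^ m' else 1 := by
  have hpp : p.Prime := Fact.out
  have hodd : Odd p := hpp.odd_of_ne_two hp
  -- the divisor `s'` in the class `Q` and the function `b` with the divisor `p s'`
  obtain ⟨s', hs'F, hs'⟩ := exists_avoid C.I Q C.F
  have hb0 : ((p • s').map cl).sum = 0 := by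
    rw [Multiset.map_nsmul, Multiset.sum_nsmul, hs', h1]
  obtain ⟨b0, hb0⟩ := (sum_cl_eq_zero_iff C.I _).1 hb0
  obtain ⟨b, hb, hb1⟩ := exists_monic C.I (ne_zero_of_span C.I hb0)
  rw [hb0] at hb
  -- the divisors `u l = act ^ l s'`
  let u : ℕ → Multiset (MaximalSpectrum O) := fun l => s'.map C.act^[l]
  have hu : ∀ l, ((u l).map cl).sum = C.S^[l] Q := by
    intro l
    induction l with
    | zero =>
      show ((s'.map id).map cl).sum = Q
      rw [Multiset.map_id, hs']
    | succ l ih =>
      rw [Function.iterate_succ_apply', ← ih]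
      have e := J.map_sum C.s (u l)
      refine Eq.trans ?_ e.symm
      congr 2
      show s'.map C.act^[l + 1] = (s'.map C.act^[l]).map C.act
      rw [Multiset.map_map, Function.iterate_succ']
  have hu1 : ∀ l, (u l).map C.act = u (l + 1) := by
    intro l
    show (s'.map C.act^[l]).map C.act = s'.map C.act^[l + 1]
    rw [Multiset.map_map, Function.iterate_succ']
  let t : Multiset (MaximalSpectrum O) := ∑ l ∈ Finset.range (p - 1), (p - 1 - l) • u l
  have ht : (t.map cl).sum = -cl P' := by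
    rw [← h2, ← C.theta hp h1]
    show ((∑ l ∈ Finset.range (p - 1), (p - 1 - l) • u l).map cl).sum = _
    rw [← Multiset.coe_mapAddMonoidHom, map_sum, Multiset.coe_mapAddMonoidHom,
      ← Multiset.coe_sumAddMonoidHom, map_sum]
    refine Finset.sum_congr rfl fun l _ => ?_
    rw [Multiset.coe_sumAddMonoidHom, Multiset.map_nsmul, Multiset.sum_nsmul, hu]
  have hw0 : ((t + {P'}).map cl).sum = 0 := by
    rw [Multiset.map_add, Multiset.sum_add, ht, Multiset.map_singleton, Multiset.sum_singleton,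
      neg_add_cancel]
  obtain ⟨w, hw⟩ := (sum_cl_eq_zero_iff C.I _).1 hw0
  have hwne := ne_zero_of_span C.I hw
  have hbne := ne_zero_of_span C.I hb
  -- the polynomial `h`
  let h : k[X] := (s'.map fun R => X - Polynomial.C (C.xc R)).prod
  have hh : Ideal.span {aeval C.x h} = idl (∑ i ∈ Finset.range p, u i) := C.span_xc s'
  have hmon : h.Monic := monic_multiset_prod_of_monic _ _ fun R _ => monic_X_sub_C _
  have hlc : C.I.lc (aeval C.x h) = 1 := by
    rw [(C.aeval_ord hmon.ne_zero).2.2, hmon.leadingCoeff]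
  have hζ0 : ζ ≠ 0 := C.prim.ne_zero hpp.ne_zero
  -- the order of `w`
  have hord : ζ ^ (C.e * C.I.ord w) = ζ ^ C.e := by
    rw [← card_eq C.I hw, Multiset.card_add, Multiset.card_singleton]
    obtain ⟨d, hd⟩ := pair_card hpp hp (Multiset.card s') u fun l => Multiset.card_map _ _
    have hd' : Multiset.card t = p * d := hd
    rw [hd', show C.e * (p * d + 1) = p * (C.e * d) + C.e by ring, pow_add, pow_mul,
      C.prim.pow_eq_one, one_pow, one_mul]
  -- the equation `b σ(w) = ζ ^ e h(x) w`
  have key : b * C.σ w = algebraMap k O (ζ ^ C.e) * aeval C.x h * w := by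
    apply eq_of_span_eq C.I
    · have e1 : Ideal.span {b * C.σ w} = idl (p • s' + (t + {P'}).map C.act) := by
        rw [← Ideal.span_singleton_mul_span_singleton, idl_add, hb]
        congr 1
        exact span_mv C.s hw
      have e2 : Ideal.span {algebraMap k O (ζ ^ C.e) * aeval C.x h * w} =
          idl (∑ i ∈ Finset.range p, u i + (t + {P'})) := by
        rw [mul_assoc, Ideal.span_singleton_mul_left_unit
          ((isUnit_iff_ne_zero.2 (pow_ne_zero _ hζ0)).map (algebraMap k O)),
          ← Ideal.span_singleton_mul_span_singleton, idl_add, hh, hw]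
      have e3 : t.map C.act = ∑ l ∈ Finset.range (p - 1), (p - 1 - l) • u (l + 1) := by
        show (∑ l ∈ Finset.range (p - 1), (p - 1 - l) • u l).map C.act = _
        rw [← Multiset.coe_mapAddMonoidHom, map_sum]
        refine Finset.sum_congr rfl fun l _ => ?_
        rw [Multiset.coe_mapAddMonoidHom, Multiset.map_nsmul, hu1]
      have e4 : C.act P' = P' := (C.mem_F P').1 hP'
      have e5 := pair_count p u hpp.pos
      have e6 : u 0 = s' := Multiset.map_id s'
      rw [e6] at e5
      rw [e1, e2, Multiset.map_add, Multiset.map_singleton, e4, e3, ← add_assoc, e5, add_assoc]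
    · rw [C.I.lc_mul, C.I.lc_mul, C.I.lc_mul, hb1, C.I.lc_c, hlc, C.lc_σ, hord]
      ring
  -- the values at `P`
  have hPs : P ∉ s' := fun h3 => hs'F P h3 hP
  have hbP : b ∉ P.asIdeal := by
    rw [← mem_iff C.I hb P, Multiset.mem_nsmul]
    exact fun h3 => hPs h3.2
  have hHP : pv C.I P (aeval C.x h) = (s'.map fun R => C.xc P - C.xc R).prod := by
    rw [← Polynomial.aeval_algHom_apply]
    show aeval (C.xc P) h = _
    rw [map_multiset_prod, Multiset.map_map]
    congr 1
    refine Multiset.map_congr rfl fun R _ => ?_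
    simp
  have hne : ∀ R ∈ s', C.xc R ≠ C.xc P := fun R hR h3 => hPs (C.eq_of_xc hP h3 ▸ hR)
  have hH0 : pv C.I P (aeval C.x h) ≠ 0 := by
    rw [hHP]
    intro h3
    obtain ⟨R, hR, h4⟩ := Multiset.mem_map.1 (Multiset.prod_eq_zero_iff.1 h3)
    exact hne R hR (sub_eq_zero.1 h4).symm
  obtain ⟨ρ, hρ, hρ1, hρ2⟩ := C.rat_σ hP hwne
  have h1P : (1 : O) ∉ P.asIdeal := fun h3 => P.isMaximal.ne_top
    ((Ideal.eq_top_iff_one _).2 h3)
  have hcH : algebraMap k O (ζ ^ C.e) * aeval C.x h ∉ P.asIdeal := by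
    rw [← pv_eq_zero C.I, map_mul, AlgHom.commutes]
    exact mul_ne_zero (pow_ne_zero _ hζ0) hH0
  have c1 := (Rat.of_not_mem C.I hbP h1P).mul hρ
  rw [key] at c1
  have c2 := (c1.cancel hwne).unique (one_ne_zero) (Rat.of_not_mem C.I hcH h1P)
  rw [map_one, div_one, div_one, map_mul, AlgHom.commutes, hHP] at c2
  have c3 : pv C.I P b * ρ = ζ ^ C.e * (s'.map fun R => C.xc P - C.xc R).prod := c2
  -- the value of the pairing
  have hbP0 : pv C.I P b ≠ 0 := fun h3 => hbP ((pv_eq_zero C.I P b).1 h3)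
  have hweil : weil C.I p (cl P) Q = (s'.map fun R => C.xc P - C.xc R).prod / pv C.I P b := by
    apply weil_eq
    refine ⟨{P}, s', C.x - algebraMap k O (C.xc P), b, Multiset.singleton_disjoint.2 hPs, ?_, hs',
      C.span_fix hP, hb, ?_, hb1, ?_⟩
    · rw [Multiset.map_singleton, Multiset.sum_singleton]
    · have e1 := (C.aeval_ord (X_sub_C_ne_zero (C.xc P))).2.2
      rw [leadingCoeff_X_sub_C, map_sub, aeval_X, aeval_C] at e1
      exact e1
    · rw [ev_eq C.I, ev_eq C.I, Multiset.map_singleton, Multiset.prod_singleton,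
        Multiset.card_singleton, one_mul, pow_mul, hodd.neg_one_pow, ← mul_div_assoc]
      congr 1
      have e1 : (s'.map fun R => C.xc P - C.xc R) =
          s'.map fun R => (-1 : k) * pv C.I R (C.x - algebraMap k O (C.xc P)) := by
        refine Multiset.map_congr rfl fun R _ => ?_
        rw [map_sub, AlgHom.commutes]
        show C.xc P - C.xc R = -1 * (C.xc R - C.xc P)
        ring
      rw [e1, Multiset.prod_map_mul, Multiset.map_const', Multiset.prod_replicate]
  have hfin : weil C.I p (cl P) Q * ζ ^ C.e = ρ := by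
    rw [hweil, div_mul_eq_mul_div, mul_comm, ← c3, mul_div_cancel_left₀ _ hbP0]
  -- the order of the zero `P` of `w`
  have hPt : P ∉ t := by
    intro h3
    obtain ⟨l, -, h4⟩ := Multiset.mem_sum.1 h3
    obtain ⟨R, hR, h5⟩ := Multiset.mem_map.1 (Multiset.mem_nsmul.1 h4).2
    apply hne R hR
    rw [← h5]
    clear h5 h4 h3
    induction l with
    | zero => rfl
    | succ l ih => rw [Function.iterate_succ_apply', C.xc_act, ← ih]
  have hvp : vp P w = if P = P' then 1 else 0 := by
    rw [vp_eq C.I hw, Multiset.count_add, Multiset.count_eq_zero_of_notMem hPt, zero_add,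
      Multiset.count_singleton]
  have hρ3 : ρ = ζ ^ (vp P w * m') := by
    rw [pow_mul, ← hρ1, ← pow_mul]
    conv_rhs => rw [← Nat.div_add_mod (C.m P * m') p, hm, pow_add, pow_mul, hρ2, one_pow, one_mul,
      pow_one]
  rw [hfin, hρ3, hvp]
  split_ifs
  · rw [one_mul]
  · rw [zero_mul, pow_zero]

end Pool.Agent.PTate
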