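import Pool.Agent.PTate.Zeros
import Pool.Agent.PTate.Act

/-!
# Values of quotients
-/

set_option autoImplicit false

noncomputable section

namespace Pool.Agent.PTate

open Polynomial
open scoped Classical

variable {k O : Type} [Field k] [CommRing O] [Algebra k O]

/-- The order of the zero `P` of `z`. -/
def vp (P : MaximalSpectrum O) (z : O) : ℕ :=
  if h : ∃ s : Multiset (MaximalSpectrum O), Ideal.span {z} = idl s then h.choose.count P else 0

variable [IsDedekindDomain O]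

theorem vp_eq (I : Infty k O) {z : O} {s : Multiset (MaximalSpectrum O)}
    (h : Ideal.span {z} = idl s) (P : MaximalSpectrum O) : vp P z = s.count P := by
  have h1 : ∃ s : Multiset (MaximalSpectrum O), Ideal.span {z} = idl s := ⟨s, h⟩
  unfold vp
  rw [dif_pos h1, idl_injective I (h1.choose_spec.symm.trans h)]

private theorem rat_idl (I : Infty k O) {z : O} (hz : z ≠ 0) :
    ∃ s : Multiset (MaximalSpectrum O), Ideal.span {z} = idl s := by
  obtain ⟨s, hs⟩ := exists_idl I (A := Ideal.span {z}) (by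
    rw [Ne, Ideal.span_singleton_eq_bot]
    exact hz)
  exact ⟨s, hs.symm⟩

theorem vp_mul (I : Infty k O) {z w : O} (hz : z ≠ 0) (hw : w ≠ 0) (P : MaximalSpectrum O) :
    vp P (z * w) = vp P z + vp P w := by
  obtain ⟨s, hs⟩ := rat_idl I hz
  obtain ⟨t, ht⟩ := rat_idl I hw
  have h : Ideal.span {z * w} = idl (s + t) := by
    rw [idl_add, ← hs, ← ht, Ideal.span_singleton_mul_span_singleton]
  rw [vp_eq I hs, vp_eq I ht, vp_eq I h, Multiset.count_add]

theorem vp_pow (I : Infty k O) {z : O} (hz : z ≠ 0) (P : MaximalSpectrum O) (n : ℕ) :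
    vp P (z ^ n) = n * vp P z := by
  obtain ⟨s, hs⟩ := rat_idl I hz
  have h : Ideal.span {z ^ n} = idl (n • s) := by
    rw [idl_nsmul, ← hs, Ideal.span_singleton_pow]
  rw [vp_eq I hs, vp_eq I h, Multiset.count_nsmul]

theorem vp_eq_zero (I : Infty k O) {z : O} (hz : z ≠ 0) (P : MaximalSpectrum O) :
    vp P z = 0 ↔ z ∉ P.asIdeal := by
  obtain ⟨s, hs⟩ := rat_idl I hz
  rw [vp_eq I hs, Multiset.count_eq_zero, mem_iff I hs]

variable [IsAlgClosed k]

/-- The quotient `a / b` is a unit at `P` with the value `c`. -/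
def Rat (I : Infty k O) (P : MaximalSpectrum O) (a b : O) (c : k) : Prop :=
  ∃ u v : O, u ∉ P.asIdeal ∧ v ∉ P.asIdeal ∧ a * v = b * u ∧ pv I P u = c * pv I P v

theorem Rat.exists (I : Infty k O) {P : MaximalSpectrum O} {a b : O} (ha : a ≠ 0) (hb : b ≠ 0)
    (h : vp P a = vp P b) : ∃ c, c ≠ 0 ∧ Rat I P a b c := by
  obtain ⟨s, hs⟩ := rat_idl I ha
  obtain ⟨t, ht⟩ := rat_idl I hb
  have hP : P.asIdeal.IsPrime := P.isMaximal.isPrime
  -- split off the zero `P`
  set s' := s.filter (fun Q => Q ≠ P) with hs'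
  set t' := t.filter (fun Q => Q ≠ P) with ht'
  have hsplit : ∀ r : Multiset (MaximalSpectrum O),
      r = Multiset.replicate (r.count P) P + r.filter (fun Q => Q ≠ P) := by
    intro r
    rw [← Multiset.filter_eq' r P, Multiset.filter_add_not]
  have hcount : s.count P = t.count P := by
    rw [← vp_eq I hs, ← vp_eq I ht, h]
  have hPt' : P ∉ t' := by
    rw [ht', Multiset.mem_filter]
    exact fun h => h.2 rfl
  obtain ⟨v, hvt, hvP⟩ : ∃ v ∈ idl t', v ∉ P.asIdeal := by
    by_contra hcon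
    push Not at hcon
    have h1 : idl t' ≤ P.asIdeal := hcon
    unfold idl at h1
    obtain ⟨Q, hQ, hQP⟩ := (hP.multiset_prod_map_le MaximalSpectrum.asIdeal).1 h1
    have h2 : Q.asIdeal = P.asIdeal := Q.isMaximal.eq_of_le hP.ne_top hQP
    have h3 : Q = P := MaximalSpectrum.ext h2
    exact hPt' (h3 ▸ hQ)
  have hv0 : v ≠ 0 := by
    rintro rfl
    exact hvP (zero_mem _)
  have hav : a * v ∈ Ideal.span {b} := by
    have h1 : a * v ∈ idl s * idl t' :=
      Ideal.mul_mem_mul (by rw [← hs]; exact Ideal.mem_span_singleton_self a) hvt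
    have h2 : idl s * idl t' = idl t * idl s' := by
      rw [← idl_add, ← idl_add]
      congr 1
      conv_lhs => rw [hsplit s, hcount]
      conv_rhs => rw [hsplit t]
      rw [add_assoc, add_assoc, add_comm s' t']
    rw [h2, ← ht] at h1
    exact (Ideal.mul_le_left : Ideal.span {b} * idl s' ≤ Ideal.span {b}) h1
  obtain ⟨u, hu⟩ := Ideal.mem_span_singleton.1 hav
  have hu0 : u ≠ 0 := by
    rintro rfl
    rw [mul_zero] at hu
    exact (mul_ne_zero ha hv0) hu
  have huP : u ∉ P.asIdeal := by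
    rw [← vp_eq_zero I hu0]
    have h1 : vp P (a * v) = vp P (b * u) := by rw [hu]
    rw [vp_mul I ha hv0, vp_mul I hb hu0, (vp_eq_zero I hv0 P).2 hvP, h] at h1
    omega
  have h1 : pv I P u ≠ 0 := fun h => huP ((pv_eq_zero I P u).1 h)
  have h2 : pv I P v ≠ 0 := fun h => hvP ((pv_eq_zero I P v).1 h)
  exact ⟨pv I P u / pv I P v, div_ne_zero h1 h2, u, v, huP, hvP, hu, (div_mul_cancel₀ _ h2).symm⟩

theorem Rat.ne_zero {I : Infty k O} {P : MaximalSpectrum O} {a b : O} {c : k}
    (h : Rat I P a b c) : c ≠ 0 := by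
  obtain ⟨u, v, hu, hv, h1, h2⟩ := h
  rintro rfl
  rw [zero_mul] at h2
  exact hu ((pv_eq_zero I P u).1 h2)

theorem Rat.unique {I : Infty k O} {P : MaximalSpectrum O} {a b : O} {c c' : k} (hb : b ≠ 0)
    (h : Rat I P a b c) (h' : Rat I P a b c') : c = c' := by
  obtain ⟨u, v, hu, hv, h1, h2⟩ := h
  obtain ⟨u', v', hu', hv', h1', h2'⟩ := h'
  have h3 : u * v' = u' * v := by
    refine mul_left_cancel₀ hb ?_
    calc b * (u * v') = (b * u) * v' := by ring
      _ = (b * u') * v := by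
        rw [← h1, ← h1']
        ring
      _ = b * (u' * v) := by ring
  have h4 := congrArg (pv I P) h3
  rw [map_mul, map_mul, h2, h2'] at h4
  have k1 : pv I P v ≠ 0 := fun h => hv ((pv_eq_zero I P v).1 h)
  have k2 : pv I P v' ≠ 0 := fun h => hv' ((pv_eq_zero I P v').1 h)
  refine mul_right_cancel₀ (mul_ne_zero k1 k2) ?_
  linear_combination h4

theorem Rat.mul {I : Infty k O} {P : MaximalSpectrum O} {a b a' b' : O} {c c' : k}
    (h : Rat I P a b c) (h' : Rat I P a' b' c') : Rat I P (a * a') (b * b') (c * c') := by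
  have hP : P.asIdeal.IsPrime := P.isMaximal.isPrime
  obtain ⟨u, v, hu, hv, h1, h2⟩ := h
  obtain ⟨u', v', hu', hv', h1', h2'⟩ := h'
  refine ⟨u * u', v * v', fun h => (hP.mem_or_mem h).elim hu hu',
    fun h => (hP.mem_or_mem h).elim hv hv', ?_, ?_⟩
  · rw [mul_mul_mul_comm, h1, h1', mul_mul_mul_comm]
  · rw [map_mul, map_mul, h2, h2', mul_mul_mul_comm]

theorem Rat.pow {I : Infty k O} {P : MaximalSpectrum O} {a b : O} {c : k}
    (h : Rat I P a b c) (n : ℕ) : Rat I P (a ^ n) (b ^ n) (c ^ n) := by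
  have hP : P.asIdeal.IsPrime := P.isMaximal.isPrime
  obtain ⟨u, v, hu, hv, h1, h2⟩ := h
  refine ⟨u ^ n, v ^ n, fun h => hu (hP.mem_of_pow_mem n h), fun h => hv (hP.mem_of_pow_mem n h),
    ?_, ?_⟩
  · rw [← mul_pow, h1, mul_pow]
  · rw [map_pow, map_pow, h2, mul_pow]

theorem Rat.inv {I : Infty k O} {P : MaximalSpectrum O} {a b : O} {c : k}
    (h : Rat I P a b c) : Rat I P b a c⁻¹ := by
  have hc := h.ne_zero
  obtain ⟨u, v, hu, hv, h1, h2⟩ := h
  refine ⟨v, u, hv, hu, h1.symm, ?_⟩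
  rw [h2, ← mul_assoc, inv_mul_cancel₀ hc, one_mul]

/-- common factors may be cancelled -/
theorem Rat.cancel {I : Infty k O} {P : MaximalSpectrum O} {a b z : O} {c : k} (hz : z ≠ 0)
    (h : Rat I P (a * z) (b * z) c) : Rat I P a b c := by
  obtain ⟨u, v, hu, hv, h1, h2⟩ := h
  refine ⟨u, v, hu, hv, mul_right_cancel₀ hz ?_, h2⟩
  linear_combination h1

theorem Rat.of_not_mem (I : Infty k O) {P : MaximalSpectrum O} {a b : O} (ha : a ∉ P.asIdeal)
    (hb : b ∉ P.asIdeal) : Rat I P a b (pv I P a / pv I P b) := by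
  have k1 : pv I P b ≠ 0 := fun h => hb ((pv_eq_zero I P b).1 h)
  exact ⟨a, b, ha, hb, mul_comm _ _, (div_mul_cancel₀ _ k1).symm⟩

theorem Rat.map {I : Infty k O} {P : MaximalSpectrum O} {a b : O} {c : k} (e : O ≃+* O)
    (g : k ≃+* k) (hg : ∀ c, e (algebraMap k O c) = algebraMap k O (g c)) (hP : mv e P = P)
    (h : Rat I P a b c) : Rat I P (e a) (e b) (g c) := by
  have hmem : ∀ z, e z ∈ P.asIdeal ↔ z ∈ P.asIdeal := by
    intro z
    have := mem_mv e P z
    rw [hP] at this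
    exact this
  have hpv : ∀ z, pv I P (e z) = g (pv I P z) := by
    intro z
    have h1 : z - algebraMap k O (pv I P z) ∈ P.asIdeal := by
      rw [← pv_eq_zero I, map_sub, AlgHom.commutes]
      exact sub_self _
    rw [← hmem, map_sub, hg, ← pv_eq_zero I, map_sub, AlgHom.commutes, sub_eq_zero] at h1
    exact h1
  obtain ⟨u, v, hu, hv, h1, h2⟩ := h
  refine ⟨e u, e v, fun h => hu ((hmem u).1 h), fun h => hv ((hmem v).1 h), ?_, ?_⟩
  · rw [← map_mul, h1, map_mul]
  · rw [hpv, hpv, h2, map_mul]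

end Pool.Agent.PTate
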