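import Pool.Agent.PTate.Rat
import Pool.Agent.PTate.Cy3

/-!
# Values of quotients at the fixed points
-/

set_option autoImplicit false

noncomputable section

namespace Pool.Agent.PTate

open Polynomial
open scoped Classical

variable {k O : Type} [Field k] [CommRing O] [Algebra k O] {p : ℕ} {ζ : k}
  [IsDedekindDomain O] [IsAlgClosed k]

private theorem ratC_mv_inj (e : O ≃+* O) : Function.Injective (mv e) := by
  intro P Q h
  have h1 := congrArg (mv e.symm) h
  rw [← mv_trans, ← mv_trans, RingEquiv.self_trans_symm, mv_refl, mv_refl] at h1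
  exact h1

private theorem ratC_one_notMem (P : MaximalSpectrum O) : (1 : O) ∉ P.asIdeal :=
  (Ideal.ne_top_iff_one _).1 P.isMaximal.ne_top

private theorem ratC_self (I : Infty k O) (P : MaximalSpectrum O) (w : O) : Rat I P w w 1 :=
  ⟨1, 1, ratC_one_notMem P, ratC_one_notMem P, rfl, (one_mul _).symm⟩

private theorem ratC_const (I : Infty k O) (P : MaximalSpectrum O) {c : k} (hc : c ≠ 0) :
    Rat I P (algebraMap k O c) 1 c := by
  have h : algebraMap k O c ∉ P.asIdeal := by
    rw [← pv_eq_zero I P, (pv I P).commutes]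
    exact hc
  have h1 := Rat.of_not_mem I h (ratC_one_notMem P)
  rw [(pv I P).commutes, map_one, div_one] at h1
  exact h1

private theorem ratC_vp_map (I : Infty k O) (e : O ≃+* O) {P : MaximalSpectrum O}
    (hP : mv e P = P) {z : O} (hz : z ≠ 0) : vp P (e z) = vp P z := by
  obtain ⟨s, hs⟩ := exists_idl I (A := Ideal.span {z})
    (by rw [Ne, Ideal.span_singleton_eq_bot]; exact hz)
  rw [vp_eq I hs.symm, vp_eq I (span_mv e hs.symm)]
  have h := Multiset.count_map_eq_count' (mv e) s (ratC_mv_inj e) P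
  rw [hP] at h
  exact h

private theorem ratC_map (C : Cyc k O p ζ) {P : MaximalSpectrum O} (hP : P ∈ C.F) {a b : O}
    {c : k} (h : Rat C.I P a b c) : Rat C.I P (C.σ a) (C.σ b) c :=
  h.map C.s (RingEquiv.refl k) (fun c => C.σ.commutes c) ((C.mem_F P).1 hP)

private theorem ratC_iter (C : Cyc k O p ζ) {P : MaximalSpectrum O} (hP : P ∈ C.F) {a b : O}
    {c : k} (h : Rat C.I P a b c) (i : ℕ) : Rat C.I P (C.σ^[i] a) (C.σ^[i] b) c := by
  induction i with
  | zero => exact h
  | succ i ih =>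
    rw [Function.iterate_succ_apply', Function.iterate_succ_apply']
    exact ratC_map C hP ih

private theorem ratC_prod (I : Infty k O) (P : MaximalSpectrum O) {f g : ℕ → O} {c : k}
    (h : ∀ i, Rat I P (f i) (g i) c) (n : ℕ) :
    Rat I P (∏ i ∈ Finset.range n, f i) (∏ i ∈ Finset.range n, g i) (c ^ n) := by
  induction n with
  | zero =>
    rw [Finset.prod_range_zero, Finset.prod_range_zero, pow_zero]
    exact ratC_self I P 1
  | succ n ih =>
    rw [Finset.prod_range_succ, Finset.prod_range_succ, pow_succ]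
    exact ih.mul (h n)

theorem Cyc.vp_y (C : Cyc k O p ζ) {P : MaximalSpectrum O} (hP : P ∈ C.F) :
    vp P C.y = C.m P := by
  rw [vp_eq C.I C.span_y, Multiset.count_sum', Finset.sum_eq_single P]
  · rw [Multiset.count_nsmul, Multiset.count_singleton_self, mul_one]
  · intro Q _ hQ
    rw [Multiset.count_nsmul, Multiset.count_singleton, if_neg hQ.symm, mul_zero]
  · intro h
    exact absurd hP h

/-- the value of `σ z / z` at a fixed point -/
theorem Cyc.rat_σ (C : Cyc k O p ζ) [Fact p.Prime] {P : MaximalSpectrum O} (hP : P ∈ C.F)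
    {z : O} (hz : z ≠ 0) :
    ∃ ρ, Rat C.I P (C.σ z) z ρ ∧ ρ ^ C.m P = ζ ^ vp P z ∧ ρ ^ p = 1 := by
  have hy : C.y ≠ 0 := ne_zero_of_span C.I C.span_y
  have hσz : C.σ z ≠ 0 := by
    intro h
    apply hz
    rwa [map_eq_zero_iff C.σ C.σ.injective] at h
  have hζ : ζ ≠ 0 := C.prim.ne_zero (Fact.out : p.Prime).ne_zero
  have hvp : vp P (C.σ z) = vp P z := ratC_vp_map C.I C.s ((C.mem_F P).1 hP) hz
  obtain ⟨ρ, -, hρ⟩ := Rat.exists C.I hσz hz hvp
  refine ⟨ρ, hρ, ?_, ?_⟩
  · have hv : vp P (z ^ C.m P) = vp P (C.y ^ vp P z) := by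
      rw [vp_pow C.I hz, vp_pow C.I hy, C.vp_y hP, mul_comm]
    obtain ⟨c, hc, h1⟩ := Rat.exists C.I (pow_ne_zero _ hz) (pow_ne_zero _ hy) hv
    have h2 := ratC_map C hP h1
    have h3 := h2.mul h1.inv
    rw [mul_inv_cancel₀ hc] at h3
    have e1 : C.σ (C.y ^ vp P z) * z ^ C.m P =
        (algebraMap k O (ζ ^ vp P z) * z ^ C.m P) * C.y ^ vp P z := by
      rw [map_pow, C.σy, mul_pow, ← map_pow]
      ring
    rw [e1, map_pow C.σ z] at h3
    have h4 := h3.cancel (pow_ne_zero _ hy)
    have h5 := h4.mul (ratC_const C.I P (pow_ne_zero (vp P z) hζ))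
    rw [one_mul, mul_one, mul_comm (algebraMap k O (ζ ^ vp P z))] at h5
    have hne : algebraMap k O (ζ ^ vp P z) ≠ 0 := by
      intro h
      have h6 := congrArg (pv C.I P) h
      rw [(pv C.I P).commutes, map_zero] at h6
      exact pow_ne_zero _ hζ h6
    have h6 := h5.cancel hne
    exact Rat.unique (pow_ne_zero _ hz) (hρ.pow _) h6
  · have h1 : ∀ i, Rat C.I P (C.σ^[i + 1] z) (C.σ^[i] z) ρ := by
      intro i
      rw [Function.iterate_succ_apply]
      exact ratC_iter C hP hρ i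
    have h2 := ratC_prod C.I P h1 p
    have h3 : ∏ i ∈ Finset.range p, C.σ^[i + 1] z = ∏ i ∈ Finset.range p, C.σ^[i] z := by
      have h4 := Finset.prod_range_succ' (fun i => C.σ^[i] z) p
      rw [Finset.prod_range_succ, C.pow] at h4
      exact (mul_right_cancel₀ hz h4).symm
    rw [h3] at h2
    exact Rat.unique (C.N_ne_zero hz) h2 (ratC_self C.I P _)

/-- the value of `a / b`, if the norm of `a / b` is a polynomial -/
theorem Cyc.rat_N (C : Cyc k O p ζ) [Fact p.Prime] {P : MaximalSpectrum O} (hP : P ∈ C.F)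
    {a b : O} (ha : a ≠ 0) (hb : b ≠ 0) {h : k[X]} {c : k} (hN : C.N a = C.N b * aeval C.x h)
    (hr : Rat C.I P a b c) : c ^ p = h.eval (C.xc P) := by
  have h1 : Rat C.I P (C.N a) (C.N b) (c ^ p) :=
    ratC_prod C.I P (fun i => ratC_iter C hP hr i) p
  have h2 : Rat C.I P (aeval C.x h * C.N b) (1 * C.N b) (c ^ p) := by
    rw [one_mul, mul_comm, ← hN]
    exact h1
  obtain ⟨u, v, hu, hv, huv, huv'⟩ := h2.cancel (C.N_ne_zero hb)
  have h3 := congrArg (pv C.I P) huv
  rw [map_mul, one_mul, huv'] at h3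
  have h4 : pv C.I P v ≠ 0 := fun h => hv ((pv_eq_zero C.I P v).1 h)
  have h5 := mul_right_cancel₀ h4 h3
  rw [← h5, ← Polynomial.aeval_algHom_apply, Polynomial.coe_aeval_eq_eval]
  rfl

end Pool.Agent.PTate
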