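import Pool.Agent.PTate.Bas
import Pool.Agent.PTate.DetW
import Pool.Agent.PTate.Coker

/-!
# Weil reciprocity
-/

set_option autoImplicit false

noncomputable section

namespace Pool.Agent.PTate

open Polynomial
open scoped Classical

variable {k O : Type} [Field k] [CommRing O] [Algebra k O]

private lemma Recip_mul_ne (I : Infty k O) {z w : O} (hz : z ≠ 0) (hw : w ≠ 0) : z * w ≠ 0 := by
  intro h
  have h1 := I.lc_mul z w
  rw [h, I.lc_zero] at h1
  exact mul_ne_zero (I.lc_ne z hz) (I.lc_ne w hw) h1.symm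

/-- modulo `a` a polynomial in `a` is its constant coefficient -/
private lemma Recip_mk (a : O) (P : k[X]) :
    Ideal.Quotient.mk (Ideal.span {a}) (aeval a P) =
      algebraMap k (O ⧸ Ideal.span {a}) (P.coeff 0) := by
  have h1 : P = X * divX P + C (P.coeff 0) := (X_mul_divX_add P).symm
  conv_lhs => rw [h1]
  rw [map_add, map_mul, aeval_X, aeval_C, map_add, map_mul]
  have h2 : Ideal.Quotient.mk (Ideal.span {a}) a = 0 :=
    Ideal.Quotient.eq_zero_iff_mem.2 (Ideal.mem_span_singleton_self a)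
  rw [h2, zero_mul, zero_add]
  rfl

private lemma Recip_expand {n : ℕ} (a : O) (ω : Fin n → O) (P : Fin n → k[X]) :
    Ideal.Quotient.mk (Ideal.span {a}) (∑ r, aeval a (P r) * ω r) =
      ∑ r, (P r).coeff 0 • Ideal.Quotient.mk (Ideal.span {a}) (ω r) := by
  rw [map_sum]
  refine Finset.sum_congr rfl fun r _ => ?_
  rw [map_mul, Recip_mk, Algebra.smul_def]

/-- the basis of the quotient -/
private lemma Recip_basis (I : Infty k O) {a : O} {ω : Fin (I.ord a) → O} (h : Bas I a ω) :
    ∃ B : Module.Basis (Fin (I.ord a)) k (O ⧸ Ideal.span {a}),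
      ∀ r, B r = Ideal.Quotient.mk (Ideal.span {a}) (ω r) := by
  have hli : LinearIndependent k fun r => Ideal.Quotient.mk (Ideal.span {a}) (ω r) := by
    rw [Fintype.linearIndependent_iff]
    intro c hc
    have h1 : ∑ r, aeval a (C (c r)) * ω r ∈ Ideal.span {a} := by
      rw [← Ideal.Quotient.eq_zero_iff_mem, Recip_expand, ← hc]
      refine Finset.sum_congr rfl fun r _ => ?_
      rw [coeff_C_zero]
    obtain ⟨w, hw⟩ := Ideal.mem_span_singleton'.1 h1
    obtain ⟨Q, hQ⟩ := h.span w
    by_contra hcon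
    push Not at hcon
    obtain ⟨r₀, hr₀⟩ := hcon
    have h2 : (fun r => C (c r) - X * Q r) ≠ 0 := by
      intro h0
      have h3 := congrFun h0 r₀
      have h4 := congrArg (fun p : k[X] => p.coeff 0) h3
      simp at h4
      exact hr₀ h4
    apply (h.top _ h2).1
    have h5 : ∑ r, aeval a (C (c r) - X * Q r) * ω r =
        ∑ r, aeval a (C (c r)) * ω r - a * ∑ r, aeval a (Q r) * ω r := by
      rw [Finset.mul_sum, ← Finset.sum_sub_distrib]
      refine Finset.sum_congr rfl fun r _ => ?_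
      rw [map_sub, map_mul, aeval_X]
      ring
    rw [h5, ← hQ, ← hw]
    ring
  have hsp : ⊤ ≤ Submodule.span k (Set.range fun r => Ideal.Quotient.mk (Ideal.span {a}) (ω r)) := by
    rintro x -
    obtain ⟨z, rfl⟩ := Ideal.Quotient.mk_surjective x
    obtain ⟨P, hP⟩ := h.span z
    rw [hP, Recip_expand]
    exact Submodule.sum_mem _ fun r _ => Submodule.smul_mem _ _ (Submodule.subset_span ⟨r, rfl⟩)
  exact ⟨Module.Basis.mk hli hsp, fun r => Module.Basis.mk_apply hli hsp r⟩

/-- The quotient by `a`: the matrix of the multiplication by `b` is the value at `0` of the matrix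
over `k[a]`. -/
theorem nrm_base (I : Infty k O) {a : O} (ha : 0 < I.ord a) {ω : Fin (I.ord a) → O}
    (h : Bas I a ω) {b : O} {N : Matrix (Fin (I.ord a)) (Fin (I.ord a)) k[X]}
    (hN : ∀ r, b * ω r = ∑ r', aeval a (N r r') * ω r') :
    Module.Finite k (O ⧸ Ideal.span {a}) ∧ Module.finrank k (O ⧸ Ideal.span {a}) = I.ord a ∧
      nrm k (Ideal.span {a}) b = N.det.coeff 0 := by
  obtain ⟨B, hB⟩ := Recip_basis I h
  refine ⟨Module.Finite.of_basis B, ?_, ?_⟩
  · rw [Module.finrank_eq_card_basis B, Fintype.card_fin]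
  · unfold nrm
    rw [Algebra.norm_eq_matrix_det B]
    have h1 : Algebra.leftMulMatrix B (Ideal.Quotient.mk (Ideal.span {a}) b) =
        Matrix.transpose (Polynomial.constantCoeff.mapMatrix N) := by
      ext i j
      rw [Algebra.leftMulMatrix_eq_repr_mul, hB, ← map_mul, hN, Recip_expand]
      have h2 : ∑ r, (N j r).coeff 0 • Ideal.Quotient.mk (Ideal.span {a}) (ω r) =
          ∑ r, (N j r).coeff 0 • B r := by
        refine Finset.sum_congr rfl fun r _ => ?_
        rw [hB]
      rw [h2, B.repr_sum_self]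
      rfl
    rw [h1, Matrix.det_transpose, ← RingHom.map_det, Polynomial.constantCoeff_apply]

/-- The quotient by `b` is the quotient by the rows of the matrix of `b`. -/
theorem nrm_coker (I : Infty k O) {a : O} (ha : 0 < I.ord a) {ω : Fin (I.ord a) → O}
    (h : Bas I a ω) {b : O} {N : Matrix (Fin (I.ord a)) (Fin (I.ord a)) k[X]}
    (hN : ∀ r, b * ω r = ∑ r', aeval a (N r r') * ω r') :
    nrm k (Ideal.span {b}) a = LinearMap.det (mulX N) := by
  -- the coordinates
  let F : (Fin (I.ord a) → k[X]) →ₗ[k] O :=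
    { toFun := fun P => ∑ r, aeval a (P r) * ω r
      map_add' := by
        intro P Q
        rw [← Finset.sum_add_distrib]
        refine Finset.sum_congr rfl fun r _ => ?_
        rw [Pi.add_apply, map_add, add_mul]
      map_smul' := by
        intro c P
        simp only [RingHom.id_apply]
        rw [Finset.smul_sum]
        refine Finset.sum_congr rfl fun r _ => ?_
        rw [Pi.smul_apply, map_smul, smul_mul_assoc] }
  have hF : ∀ P, F P = ∑ r, aeval a (P r) * ω r := fun P => rfl
  have hFi : Function.Injective F := by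
    rw [injective_iff_map_eq_zero]
    intro P hP
    by_contra h0
    exact (h.top P h0).1 hP
  have hFs : Function.Surjective F := fun z => by
    obtain ⟨P, hP⟩ := h.span z
    exact ⟨P, hP.symm⟩
  let Φ : (Fin (I.ord a) → k[X]) ≃ₗ[k] O := LinearEquiv.ofBijective F ⟨hFi, hFs⟩
  have hΦ : ∀ P, Φ P = ∑ r, aeval a (P r) * ω r := fun P => rfl
  have hΦX : ∀ P : Fin (I.ord a) → k[X], Φ ((X : k[X]) • P) = a * Φ P := by
    intro P
    rw [hΦ, hΦ, Finset.mul_sum]
    refine Finset.sum_congr rfl fun r _ => ?_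
    rw [Pi.smul_apply, smul_eq_mul, map_mul, aeval_X, mul_assoc]
  have hΦN : ∀ P : Fin (I.ord a) → k[X], Φ (N.vecMulLinear P) = b * Φ P := by
    intro P
    rw [hΦ, hΦ, Finset.mul_sum]
    have h1 : ∀ r, b * (aeval a (P r) * ω r) = ∑ r', aeval a (P r * N r r') * ω r' := by
      intro r
      rw [mul_left_comm, hN, Finset.mul_sum]
      refine Finset.sum_congr rfl fun r' _ => ?_
      rw [map_mul, mul_assoc]
    rw [Finset.sum_congr rfl fun r _ => h1 r, Finset.sum_comm]
    refine Finset.sum_congr rfl fun r' _ => ?_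
    rw [← Finset.sum_mul]
    congr 1
    rw [← map_sum]
    rfl
  have hmap : ((rows N).restrictScalars k).map (Φ : (Fin (I.ord a) → k[X]) →ₗ[k] O) =
      (Ideal.span {b} : Ideal O).restrictScalars k := by
    ext z
    rw [Submodule.mem_map, Submodule.restrictScalars_mem, Ideal.mem_span_singleton']
    constructor
    · rintro ⟨v, hv, rfl⟩
      obtain ⟨P, rfl⟩ : ∃ P, N.vecMulLinear P = v := hv
      refine ⟨Φ P, ?_⟩
      rw [mul_comm]
      exact (hΦN P).symm
    · rintro ⟨w, rfl⟩
      refine ⟨N.vecMulLinear (Φ.symm w), ⟨_, rfl⟩, ?_⟩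
      have h1 := hΦN (Φ.symm w)
      rw [LinearEquiv.apply_symm_apply] at h1
      rw [mul_comm]
      exact h1
  let E : ((Fin (I.ord a) → k[X]) ⧸ rows N) ≃ₗ[k] (O ⧸ Ideal.span {b}) :=
    ((Submodule.Quotient.restrictScalarsEquiv k (rows N)).symm.trans
      (Submodule.Quotient.equiv _ _ Φ hmap)).trans
      (Submodule.Quotient.restrictScalarsEquiv k (Ideal.span {b} : Ideal O))
  have hE : ∀ v, E (Submodule.Quotient.mk v) = Ideal.Quotient.mk (Ideal.span {b}) (Φ v) :=
    fun v => rfl
  unfold nrm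
  rw [Algebra.norm_apply, ← LinearMap.det_conj (mulX N) E]
  congr 1
  refine LinearMap.ext fun w => ?_
  obtain ⟨w, rfl⟩ := E.surjective w
  refine Submodule.Quotient.induction_on _ w fun v => ?_
  show Ideal.Quotient.mk (Ideal.span {b}) a * E (Submodule.Quotient.mk v) =
    E (mulX N (E.symm (E (Submodule.Quotient.mk v))))
  rw [LinearEquiv.symm_apply_apply, hE, ← map_mul, ← hΦX]
  exact (hE _).symm

/-- scaling the leading coefficient -/
private lemma Recip_scale (I : Infty k O) {a : O} (ha : a ≠ 0) : ∃ a' : O, I.lc a' = 1 ∧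
    I.ord a' = I.ord a ∧ a = algebraMap k O (I.lc a) * a' ∧
    (Ideal.span {a'} : Ideal O) = Ideal.span {a} := by
  have hc := I.lc_ne a ha
  have hc1 : algebraMap k O (I.lc a) * algebraMap k O (I.lc a)⁻¹ = 1 := by
    rw [← map_mul, mul_inv_cancel₀ hc, map_one]
  have hci : algebraMap k O (I.lc a)⁻¹ ≠ 0 := by
    intro h0
    have h1 := I.lc_c (I.lc a)⁻¹
    rw [h0, I.lc_zero] at h1
    exact inv_ne_zero hc h1.symm
  refine ⟨algebraMap k O (I.lc a)⁻¹ * a, ?_, ?_, ?_, ?_⟩
  · rw [I.lc_mul, I.lc_c, inv_mul_cancel₀ hc]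
  · rw [I.ord_mul _ _ hci ha, I.ord_c, Nat.zero_add]
  · rw [← mul_assoc, hc1, one_mul]
  · apply Ideal.span_singleton_mul_left_unit
    exact ⟨⟨_, _, (mul_comm _ _).trans hc1, hc1⟩, rfl⟩

private lemma Recip_const (I : Infty k O) {a : O} (ha : a ≠ 0) (h0 : I.ord a = 0) :
    Subsingleton (O ⧸ Ideal.span {a}) ∧ a = algebraMap k O (I.lc a) := by
  obtain ⟨c, rfl⟩ := I.const a h0
  have hc := I.lc_ne _ ha
  rw [I.lc_c] at hc
  refine ⟨?_, by rw [I.lc_c]⟩
  have hu : IsUnit (algebraMap k O c) := (isUnit_iff_ne_zero.2 hc).map _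
  rw [Ideal.Quotient.subsingleton_iff, Ideal.span_singleton_eq_top]
  exact hu

theorem finrank_span (I : Infty k O) {a : O} (ha : a ≠ 0) :
    Module.Finite k (O ⧸ Ideal.span {a}) ∧ Module.finrank k (O ⧸ Ideal.span {a}) = I.ord a := by
  rcases Nat.eq_zero_or_pos (I.ord a) with h0 | hpos
  · haveI := (Recip_const I ha h0).1
    refine ⟨inferInstance, ?_⟩
    rw [h0]
    exact Module.finrank_zero_of_subsingleton
  · obtain ⟨a', h1, h2, h3, h4⟩ := Recip_scale I ha
    have hpos' : 0 < I.ord a' := by rw [h2]; exact hpos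
    obtain ⟨ω, hω⟩ := exists_bas I hpos' h1
    have h5 := nrm_base I hpos' hω (b := 1) (N := 1) (by
      intro r
      rw [one_mul, Finset.sum_eq_single r]
      · rw [Matrix.one_apply_eq, map_one, one_mul]
      · intro r' _ hne
        rw [Matrix.one_apply_ne hne.symm, map_zero, zero_mul]
      · intro hn
        exact absurd (Finset.mem_univ r) hn)
    rw [← h4, ← h2]
    exact ⟨h5.1, h5.2.1⟩

/-- Weil reciprocity. -/
theorem recip (I : Infty k O) {a b : O} (ha : a ≠ 0) (hb : b ≠ 0) :
    nrm k (Ideal.span {b}) a * I.lc b ^ I.ord a =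
      (-1) ^ (I.ord a * I.ord b) * I.lc a ^ I.ord b * nrm k (Ideal.span {a}) b := by
  obtain ⟨hfb, hrb⟩ := finrank_span I hb
  have hconst : ∀ c : k, nrm k (Ideal.span {b}) (algebraMap k O c) = c ^ I.ord b := by
    intro c
    unfold nrm
    have h1 : Ideal.Quotient.mk (Ideal.span {b}) (algebraMap k O c) =
        algebraMap k (O ⧸ Ideal.span {b}) c := rfl
    rw [h1, Algebra.norm_algebraMap, hrb]
  rcases Nat.eq_zero_or_pos (I.ord a) with h0 | hpos
  · obtain ⟨hs, ha'⟩ := Recip_const I ha h0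
    have h1 : nrm k (Ideal.span {a}) b = 1 := by
      unfold nrm
      rw [Algebra.norm_apply]
      exact LinearMap.det_eq_one_of_subsingleton _
    rw [h1, h0, Nat.zero_mul, pow_zero, pow_zero, mul_one, one_mul, mul_one]
    conv_lhs => rw [ha']
    rw [hconst]
  · obtain ⟨a', h1, h2, h3, h4⟩ := Recip_scale I ha
    have hpos' : 0 < I.ord a' := by rw [h2]; exact hpos
    obtain ⟨ω, hω⟩ := exists_bas I hpos' h1
    choose N hN using fun r => hω.span (b * ω r)
    have hbω : ∀ r, b * ω r ≠ 0 := fun r => Recip_mul_ne I hb (hω.ne r)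
    have hNr : ∀ r, N r ≠ 0 := by
      intro r h0
      apply hbω r
      rw [hN r, h0]
      simp
    have hord : ∀ r, I.ord (∑ r', aeval a' (N r r') * ω r') = I.ord b + I.ord (ω r) := by
      intro r
      rw [← hN r, I.ord_mul _ _ hb (hω.ne r)]
    have hlc : ∀ r, I.lc (∑ r', aeval a' (N r r') * ω r') = I.lc b := by
      intro r
      rw [← hN r, I.lc_mul, hω.lc, mul_one]
    obtain ⟨hdeg, hlead⟩ := det_weight hpos' (fun r => I.ord (ω r)) hω.res (Matrix.of N)
      (I.lc_ne b hb) (β := I.ord b)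
      (by
        intro r r' hne
        have h5 := (hω.top (N r) (hNr r)).2.2 r' hne
        rw [hord] at h5
        exact h5)
      (by
        intro r r' hr
        obtain ⟨r'', k1, k2, k3⟩ := (hω.top (N r) (hNr r)).2.1
        rw [hord] at k2
        rw [hlc] at k3
        have hrr : r'' = r' := by
          apply Fin.ext
          have h6 := congrArg (· % I.ord a') k2
          simp only [Nat.mul_add_mod] at h6
          rw [hω.res] at h6
          rw [h6, hr, Nat.add_mod, hω.res r, Nat.add_mod (I.ord b) r]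
          rw [Nat.mod_eq_of_lt r.2, Nat.mod_add_mod]
        rw [← hrr]
        exact ⟨k1, k2, k3⟩)
    have hdet : (Matrix.of N).det ≠ 0 := by
      intro h0
      rw [h0, leadingCoeff_zero] at hlead
      exact mul_ne_zero (pow_ne_zero _ (neg_ne_zero.2 one_ne_zero))
        (pow_ne_zero _ (I.lc_ne b hb)) hlead.symm
    have hck := (det_coker (Matrix.of N) hdet).2.2
    rw [hdeg, hlead, ← nrm_coker I hpos' hω (b := b) (N := Matrix.of N) hN,
      ← (nrm_base I hpos' hω (b := b) (N := Matrix.of N) hN).2.2, h2, h4] at hck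
    have hsp : nrm k (Ideal.span {b}) a =
        I.lc a ^ I.ord b * nrm k (Ideal.span {b}) a' := by
      conv_lhs => rw [h3]
      rw [← hconst]
      unfold nrm
      rw [map_mul, map_mul]
    have hsg : ((-1 : k) ^ ((I.ord a - 1) * I.ord b)) * (-1) ^ ((I.ord a - 1) * I.ord b) = 1 := by
      rw [← mul_pow]
      simp
    have hsg2 : ((-1 : k) ^ ((I.ord a - 1) * I.ord b)) * (-1) ^ (I.ord b) =
        (-1) ^ (I.ord a * I.ord b) := by
      rw [← pow_add]
      congr 1
      obtain ⟨m, hm⟩ : ∃ m, I.ord a = m + 1 := ⟨I.ord a - 1, by omega⟩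
      rw [hm, Nat.add_sub_cancel]
      ring
    rw [hsp, ← hsg2]
    calc I.lc a ^ I.ord b * nrm k (Ideal.span {b}) a' * I.lc b ^ I.ord a
        = I.lc a ^ I.ord b * (((-1 : k) ^ ((I.ord a - 1) * I.ord b)) *
            (-1) ^ ((I.ord a - 1) * I.ord b)) *
            (nrm k (Ideal.span {b}) a' * I.lc b ^ I.ord a) := by rw [hsg]; ring
      _ = I.lc a ^ I.ord b * (-1) ^ ((I.ord a - 1) * I.ord b) *
            (nrm k (Ideal.span {b}) a' * ((-1) ^ ((I.ord a - 1) * I.ord b) * I.lc b ^ I.ord a)) := by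
          ring
      _ = _ := by rw [hck]; ring

end Pool.Agent.PTate
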