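import Pool.Agent.PTate.RedA

/-!
# Reduction modulo `1 - z`: operators
-/

set_option autoImplicit false

noncomputable section

namespace Pool.Agent.PTate

open scoped Classical

variable {p : ℕ} [Fact p.Prime] {M : Type} [AddCommGroup M] [Module ℤ_[p] M]
  {z : Module.End ℤ_[p] M}

private theorem redB_mem {A : Module.End ℤ_[p] M} (hA : ∀ x, A (z x) = z (A x)) :
    Wl z ≤ (Wl z).comap A := by
  rw [Wl, sup_le_iff]
  constructor
  · rintro _ ⟨y, rfl⟩
    refine Submodule.mem_sup_left ⟨A y, ?_⟩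
    simp only [lam, LinearMap.sub_apply, Module.End.one_apply, map_sub, hA]
  · rintro _ ⟨y, rfl⟩
    refine Submodule.mem_sup_right ⟨A y, ?_⟩
    simp only [LinearMap.smul_apply, Module.End.one_apply, map_smul]

private theorem redB_lam (x : M) : mk z (lam z x) = 0 :=
  (mk_eq_zero_iff z _).2 (Submodule.mem_sup_left ⟨x, rfl⟩)

private theorem redB_commute {A : Module.End ℤ_[p] M} (hA : ∀ x, A (z x) = z (A x)) :
    Commute A (lam z) := by
  have h : Commute A z := LinearMap.ext hA
  exact (Commute.one_right A).sub_right h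

private theorem redB_of_commute {A : Module.End ℤ_[p] M} (h : Commute A z) :
    ∀ x, A (z x) = z (A x) := fun x => LinearMap.congr_fun h x

private theorem redB_lam_pow (n : ℕ) : Commute (lam z ^ n) z := by
  have h : Commute (lam z) z := (Commute.one_left z).sub_left (Commute.refl z)
  exact h.pow_left n

theorem exists_red {A : Module.End ℤ_[p] M} (hA : ∀ x, A (z x) = z (A x)) :
    ∃ a, Red z A a := by
  let f : M ⧸ Wl z →ₗ[ℤ_[p]] M ⧸ Wl z := (Wl z).mapQ (Wl z) A (redB_mem hA)
  let g : Vr z →+ Vr z := f.toAddMonoidHom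
  refine ⟨AddMonoidHom.toZModLinearMap p g, hA, fun x => ?_⟩
  rfl

theorem Red.unique {A : Module.End ℤ_[p] M} {a b : Module.End (ZMod p) (Vr z)}
    (h : Red z A a) (h' : Red z A b) : a = b := by
  refine LinearMap.ext fun v => ?_
  obtain ⟨x, rfl⟩ := mk_surjective z v
  rw [h.2 x, h'.2 x]

theorem Red.one : Red z (1 : Module.End ℤ_[p] M) 1 :=
  ⟨fun _ => rfl, fun _ => rfl⟩

theorem Red.add {A A' : Module.End ℤ_[p] M} {a a' : Module.End (ZMod p) (Vr z)}
    (h : Red z A a) (h' : Red z A' a') : Red z (A + A') (a + a') := by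
  refine ⟨fun x => ?_, fun x => ?_⟩
  · rw [LinearMap.add_apply, LinearMap.add_apply, h.1, h'.1, map_add]
  · rw [LinearMap.add_apply, LinearMap.add_apply, h.2, h'.2, map_add]

theorem Red.sub {A A' : Module.End ℤ_[p] M} {a a' : Module.End (ZMod p) (Vr z)}
    (h : Red z A a) (h' : Red z A' a') : Red z (A - A') (a - a') := by
  refine ⟨fun x => ?_, fun x => ?_⟩
  · rw [LinearMap.sub_apply, LinearMap.sub_apply, h.1, h'.1, map_sub]
  · rw [LinearMap.sub_apply, LinearMap.sub_apply, h.2, h'.2, map_sub]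

theorem Red.mul {A A' : Module.End ℤ_[p] M} {a a' : Module.End (ZMod p) (Vr z)}
    (h : Red z A a) (h' : Red z A' a') : Red z (A * A') (a * a') := by
  refine ⟨fun x => ?_, fun x => ?_⟩
  · rw [Module.End.mul_apply, Module.End.mul_apply, h'.1, h.1]
  · rw [Module.End.mul_apply, Module.End.mul_apply, h'.2, h.2]

theorem Red.smul {A : Module.End ℤ_[p] M} {a : Module.End (ZMod p) (Vr z)} (c : ℤ_[p])
    (h : Red z A a) : Red z (c • A) (PadicInt.toZMod c • a) := by
  refine ⟨fun x => ?_, fun x => ?_⟩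
  · rw [LinearMap.smul_apply, LinearMap.smul_apply, h.1, map_smul]
  · rw [LinearMap.smul_apply, LinearMap.smul_apply, h.2, mk_smul]

private theorem redB_zpow (n : ℕ) : Red z (z ^ n) 1 := by
  induction n with
  | zero => exact Red.one
  | succ n ih =>
    have h1 : Red z z 1 := ⟨fun _ => rfl, fun x => (mk_z x).symm⟩
    have h2 := ih.mul h1
    rwa [mul_one, ← pow_succ] at h2

/-- polynomials in `z` -/
theorem Red.aeval (q : Polynomial ℤ) :
    Red z (Polynomial.aeval z q) (((q.eval 1 : ℤ) : ZMod p) • 1) := by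
  induction q using Polynomial.induction_on' with
  | add q q' h h' =>
    rw [map_add, Polynomial.eval_add, Int.cast_add, add_smul]
    exact h.add h'
  | monomial n a =>
    have h1 := (redB_zpow (z := z) n).smul (a : ℤ_[p])
    rw [map_intCast] at h1
    have h2 : Polynomial.aeval z (Polynomial.monomial n a) = (a : ℤ_[p]) • z ^ n := by
      rw [Polynomial.aeval_monomial, Algebra.smul_def, eq_intCast]
      congr 1
      exact (map_intCast (algebraMap ℤ_[p] (Module.End ℤ_[p] M)) a).symm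
    rw [h2, Polynomial.eval_monomial, one_pow, mul_one]
    exact h1

theorem Red.lam_mul {A : Module.End ℤ_[p] M} (hA : ∀ x, A (z x) = z (A x)) :
    Red z (lam z * A) 0 := by
  refine ⟨redB_of_commute ?_, fun x => ?_⟩
  · have h : Commute A z := LinearMap.ext hA
    have h2 := redB_lam_pow (z := z) 1
    rw [pow_one] at h2
    exact h2.mul_left h
  · rw [LinearMap.zero_apply, Module.End.mul_apply, redB_lam]

theorem Red.eq_zero [Module.IsTorsionFree ℤ_[p] M]
    (hz : ∀ x, ∑ i ∈ Finset.range p, (z ^ i) x = 0) {A : Module.End ℤ_[p] M}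
    (h : Red z A 0) : ∃ A' : Module.End ℤ_[p] M, (∀ x, A' (z x) = z (A' x)) ∧
      A = lam z * A' := by
  obtain ⟨A', h1, h2⟩ := exists_div hz h.1 (k := 1) (fun x => by
    have h3 := h.2 x
    rw [LinearMap.zero_apply] at h3
    obtain ⟨y, hy⟩ := (mk_eq_zero hz (A x)).1 h3.symm
    exact ⟨y, by rw [hy, pow_one]⟩)
  exact ⟨A', h1, by rw [h2, pow_one]⟩

private theorem redB_lam_pow_mul {k : ℕ} (hk : 1 ≤ k) {A : Module.End ℤ_[p] M}
    (hA : ∀ x, A (z x) = z (A x)) : Red z (lam z ^ k * A) 0 := by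
  obtain ⟨m, rfl⟩ := Nat.exists_eq_add_of_le hk
  have h1 : Commute (lam z ^ m * A) z := (redB_lam_pow m).mul_left (LinearMap.ext hA)
  have h2 := Red.lam_mul (redB_of_commute h1)
  rwa [← mul_assoc, ← pow_succ', add_comm] at h2

/-- products of operators which are congruent to one -/
theorem Red.one_add_mul {k : ℕ} (hk : 1 ≤ k) {A A' : Module.End ℤ_[p] M}
    {a a' : Module.End (ZMod p) (Vr z)} (h : Red z A a) (h' : Red z A' a') :
    ∃ A'', Red z A'' (a + a') ∧
      (1 + lam z ^ k * A) * (1 + lam z ^ k * A') = 1 + lam z ^ k * A'' := by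
  refine ⟨A + A' + lam z ^ k * (A * A'), ?_, ?_⟩
  · have h1 := (h.add h').add (redB_lam_pow_mul hk (h.mul h').1)
    rwa [add_zero] at h1
  · have hc : A * lam z ^ k = lam z ^ k * A := ((redB_commute h.1).pow_right k).eq
    have e : lam z ^ k * A * (lam z ^ k * A') = lam z ^ k * (lam z ^ k * (A * A')) := by
      rw [mul_assoc, ← mul_assoc A, hc, mul_assoc]
    rw [add_mul, mul_add, mul_add, e]
    noncomm_ring

set_option linter.unusedVariables false in
/-- commutators of operators which are congruent to one -/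
theorem Red.commutator {k l : ℕ} (hk : 1 ≤ k) (hl : 1 ≤ l) {A A' g g' h h' : Module.End ℤ_[p] M}
    {a a' : Module.End (ZMod p) (Vr z)} (hA : Red z A a) (hA' : Red z A' a')
    (hg : g = 1 + lam z ^ k * A) (hh : h = 1 + lam z ^ l * A') (hgg : g * g' = 1)
    (hgg' : g' * g = 1) (hhh : h * h' = 1) (hhh' : h' * h = 1)
    (hgz : ∀ x, g' (z x) = z (g' x)) (hhz : ∀ x, h' (z x) = z (h' x)) :
    ∃ A'', Red z A'' (a * a' - a' * a) ∧ g * h * g' * h' = 1 + lam z ^ (k + l) * A'' := by
  have inv : ∀ {m : ℕ} (_ : 1 ≤ m) {C c c' : Module.End ℤ_[p] M}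
      (_ : ∀ x, C (z x) = z (C x)) (_ : c = 1 + lam z ^ m * C) (_ : c * c' = 1)
      (_ : ∀ x, c' (z x) = z (c' x)), Red z c' 1 := by
    intro m hm C c c' hC hc hcc hcz
    have h1 : Red z c 1 := by
      have h2 := Red.one.add (redB_lam_pow_mul hm hC)
      rwa [add_zero, ← hc] at h2
    obtain ⟨r, hr⟩ := exists_red hcz
    have h2 := h1.mul hr
    rw [hcc, one_mul] at h2
    rwa [h2.unique Red.one] at hr
  have r1 := inv hk hA.1 hg hgg hgz
  have r2 := inv hl hA'.1 hh hhh hhz
  refine ⟨(A * A' - A' * A) * g' * h', ?_, ?_⟩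
  · have h1 := (((hA.mul hA').sub (hA'.mul hA)).mul r1).mul r2
    rwa [mul_one, mul_one] at h1
  · have hc : A * lam z ^ l = lam z ^ l * A := ((redB_commute hA.1).pow_right l).eq
    have hc' : A' * lam z ^ k = lam z ^ k * A' := ((redB_commute hA'.1).pow_right k).eq
    have e1 : lam z ^ k * A * (lam z ^ l * A') = lam z ^ (k + l) * (A * A') := by
      rw [mul_assoc, ← mul_assoc A, hc, pow_add, mul_assoc, mul_assoc]
    have e2 : lam z ^ l * A' * (lam z ^ k * A) = lam z ^ (k + l) * (A' * A) := by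
      rw [mul_assoc, ← mul_assoc A', hc', add_comm, pow_add, mul_assoc, mul_assoc]
    have e3 : g * h = h * g + lam z ^ (k + l) * (A * A' - A' * A) := by
      rw [mul_sub, ← e1, ← e2, hg, hh]
      noncomm_ring
    have e4 : h * g * g' * h' = 1 := by
      rw [mul_assoc h, hgg, mul_one, hhh]
    rw [e3, add_mul, add_mul, e4]
    noncomm_ring

end Pool.Agent.PTate
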