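import Pool.Agent.PTate.Rep
import Pool.Agent.PTate.LinDefs

/-!
# Reduction modulo `1 - z`: definitions
-/

set_option autoImplicit false

noncomputable section

namespace Pool.Agent.PTate

open scoped Classical

variable {p : ℕ} [Fact p.Prime] {M : Type} [AddCommGroup M] [Module ℤ_[p] M]

/-- The submodule `(1 - z) M + p M`. -/
def Wl (z : Module.End ℤ_[p] M) : Submodule ℤ_[p] M :=
  LinearMap.range (lam z) ⊔ LinearMap.range ((p : ℤ_[p]) • (1 : Module.End ℤ_[p] M))

/-- The reduction of `M` modulo `1 - z`. -/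
def Vr (z : Module.End ℤ_[p] M) : Type := M ⧸ Wl z

instance (z : Module.End ℤ_[p] M) : AddCommGroup (Vr z) :=
  inferInstanceAs (AddCommGroup (M ⧸ Wl z))

/-- The projection. -/
def mk (z : Module.End ℤ_[p] M) : M →+ Vr z := (Wl z).mkQ.toAddMonoidHom

theorem mk_surjective (z : Module.End ℤ_[p] M) : Function.Surjective (mk z) :=
  (Wl z).mkQ_surjective

theorem mk_eq_zero_iff (z : Module.End ℤ_[p] M) (x : M) : mk z x = 0 ↔ x ∈ Wl z :=
  Submodule.Quotient.mk_eq_zero (Wl z)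

instance (z : Module.End ℤ_[p] M) : Module (ZMod p) (Vr z) :=
  AddCommGroup.zmodModule (n := p) (by
    intro v
    obtain ⟨x, rfl⟩ := mk_surjective z v
    rw [← map_nsmul, mk_eq_zero_iff]
    refine Submodule.mem_sup_right ⟨x, ?_⟩
    rw [LinearMap.smul_apply, Module.End.one_apply, Nat.cast_smul_eq_nsmul])

/-- `A` commutes with `z` and its reduction is `a`. -/
def Red (z : Module.End ℤ_[p] M) (A : Module.End ℤ_[p] M) (a : Module.End (ZMod p) (Vr z)) :
    Prop :=
  (∀ x, A (z x) = z (A x)) ∧ ∀ x, a (mk z x) = mk z (A x)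

/-- `B` is the reduction of the form `e((1 - z) ^ (p - 2) x, y)`. -/
def RedForm (z : Module.End ℤ_[p] M) (e : M →ₗ[ℤ_[p]] M →ₗ[ℤ_[p]] ℤ_[p])
    (B : Vr z →ₗ[ZMod p] Vr z →ₗ[ZMod p] ZMod p) : Prop :=
  ∀ x y, B (mk z x) (mk z y) = PadicInt.toZMod (e ((lam z ^ (p - 2)) x) y)

end Pool.Agent.PTate
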