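import Pool.Agent.PTate.RedB

/-!
# Reduction modulo `1 - z`: the form
-/

set_option autoImplicit false

noncomputable section

namespace Pool.Agent.PTate

open scoped Classical

variable {p : ℕ} [Fact p.Prime] {M : Type} [AddCommGroup M] [Module ℤ_[p] M]
  [Module.IsTorsionFree ℤ_[p] M] {z : Module.End ℤ_[p] M}
  {e : M →ₗ[ℤ_[p]] M →ₗ[ℤ_[p]] ℤ_[p]}

omit [Module.IsTorsionFree ℤ_[p] M] in
private theorem redF_lam_z (n : ℕ) : Commute (lam z ^ n) z := by
  have h : Commute (lam z) z := (Commute.one_left z).sub_left (Commute.refl z)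
  exact h.pow_left n

omit [Module.IsTorsionFree ℤ_[p] M] in
private theorem redF_A_lam {A : Module.End ℤ_[p] M} (hA : ∀ x, A (z x) = z (A x)) (n : ℕ) :
    Commute A (lam z ^ n) := by
  have h : Commute A z := LinearMap.ext hA
  exact ((Commute.one_right A).sub_right h).pow_right n

omit [Module.IsTorsionFree ℤ_[p] M] in
private theorem redF_comm {A : Module.End ℤ_[p] M} (h : Commute A z) :
    ∀ x, A (z x) = z (A x) := fun x => LinearMap.congr_fun h x

set_option linter.unusedSectionVars false in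
/-- `1 - z` can be moved to the other side -/
theorem form_lam (hz : ∀ x, ∑ i ∈ Finset.range p, (z ^ i) x = 0)
    (hi : ∀ x y, e (z x) (z y) = e x y) (x y : M) :
    e (lam z x) y = -e x ((z ^ (p - 1)) (lam z y)) := by
  have hp : p ≠ 0 := (Fact.out : p.Prime).ne_zero
  have h1 : ∀ w : M, z ((z ^ (p - 1)) w) = w := by
    intro w
    rw [← Module.End.mul_apply, ← pow_succ', Nat.sub_add_cancel (Nat.one_le_iff_ne_zero.2 hp),
      z_pow hz, Module.End.one_apply]
  have h2 : ∀ w : M, (z ^ (p - 1)) (z w) = w := by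
    intro w
    rw [← Module.End.mul_apply, ← pow_succ, Nat.sub_add_cancel (Nat.one_le_iff_ne_zero.2 hp),
      z_pow hz, Module.End.one_apply]
  have h3 : e (z x) y = e x ((z ^ (p - 1)) y) := by
    rw [← hi x, h1]
  simp only [lam, LinearMap.sub_apply, Module.End.one_apply, map_sub, h2, h3]
  ring

/-- values divisible by `p` -/
theorem form_dvd (hz : ∀ x, ∑ i ∈ Finset.range p, (z ^ i) x = 0) (x y : M) :
    (p : ℤ_[p]) ∣ e ((lam z ^ (p - 1)) x) y ∧ (p : ℤ_[p]) ∣ e x ((lam z ^ (p - 1)) y) := by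
  obtain ⟨q, q', h1, h2⟩ := exists_unit (p := p) hz
  have h3 : ∀ w : M, (lam z ^ (p - 1)) w = (p : ℤ_[p]) • (Polynomial.aeval z q' w) := by
    intro w
    have h4 : lam z ^ (p - 1) = (p : ℤ_[p]) • Polynomial.aeval z q' := by
      calc lam z ^ (p - 1) = lam z ^ (p - 1) * (Polynomial.aeval z q * Polynomial.aeval z q') := by
            rw [h1, mul_one]
        _ = (p : ℤ_[p]) • Polynomial.aeval z q' := by
            rw [← mul_assoc, ← h2, smul_mul_assoc, one_mul]
    rw [h4, LinearMap.smul_apply]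
  constructor
  · rw [h3, map_smul, LinearMap.smul_apply, smul_eq_mul]
    exact dvd_mul_right _ _
  · rw [h3, map_smul, smul_eq_mul]
    exact dvd_mul_right _ _

omit [Module.IsTorsionFree ℤ_[p] M] in
private theorem redF_toZMod {c : ℤ_[p]} (h : (p : ℤ_[p]) ∣ c) : PadicInt.toZMod c = 0 := by
  obtain ⟨d, rfl⟩ := h
  rw [map_mul, map_natCast, ZMod.natCast_self, zero_mul]

private theorem redF_p : 2 ≤ p := (Fact.out : p.Prime).two_le

omit [Module.IsTorsionFree ℤ_[p] M] in
private theorem redF_pow_lam (x : M) :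
    (lam z ^ (p - 2)) (lam z x) = (lam z ^ (p - 1)) x := by
  have h : p - 1 = (p - 2) + 1 := by
    have := redF_p (p := p)
    omega
  rw [h, pow_succ, Module.End.mul_apply]

/-- `1 - z` on the right -/
private theorem redF_right (hz : ∀ x, ∑ i ∈ Finset.range p, (z ^ i) x = 0)
    (hi : ∀ x y, e (z x) (z y) = e x y) (w y : M) :
    e w (lam z y) = -e (lam z w) (z y) := by
  have hp : p ≠ 0 := (Fact.out : p.Prime).ne_zero
  have h2 : ∀ w : M, (z ^ (p - 1)) (z w) = w := by
    intro w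
    rw [← Module.End.mul_apply, ← pow_succ, Nat.sub_add_cancel (Nat.one_le_iff_ne_zero.2 hp),
      z_pow hz, Module.End.one_apply]
  have h1 : lam z (z y) = z (lam z y) := by
    have := redF_lam_z (z := z) 1
    rw [pow_one] at this
    exact LinearMap.congr_fun this y
  rw [form_lam hz hi, h1, h2, neg_neg]

theorem exists_redForm (hz : ∀ x, ∑ i ∈ Finset.range p, (z ^ i) x = 0)
    (hi : ∀ x y, e (z x) (z y) = e x y) : ∃ B, RedForm z e B := by
  set f : M → M → ZMod p := fun x y => PadicInt.toZMod (e ((lam z ^ (p - 2)) x) y) with hf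
  have f_add : ∀ x x' y, f (x + x') y = f x y + f x' y := by
    intro x x' y
    simp only [hf, map_add, LinearMap.add_apply]
  have f_add' : ∀ x y y', f x (y + y') = f x y + f x y' := by
    intro x y y'
    simp only [hf, map_add]
  have f_sub : ∀ x x' y, f (x - x') y = f x y - f x' y := by
    intro x x' y
    simp only [hf, map_sub, LinearMap.sub_apply]
  have f_sub' : ∀ x y y', f x (y - y') = f x y - f x y' := by
    intro x y y'
    simp only [hf, map_sub]
  have f_zero : ∀ x y, mk z x = 0 → f x y = 0 := by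
    intro x y hx
    obtain ⟨x', rfl⟩ := (mk_eq_zero hz x).1 hx
    simp only [hf]
    rw [redF_pow_lam]
    exact redF_toZMod (form_dvd hz x' y).1
  have f_zero' : ∀ x y, mk z y = 0 → f x y = 0 := by
    intro x y hy
    obtain ⟨y', rfl⟩ := (mk_eq_zero hz y).1 hy
    simp only [hf]
    rw [redF_right hz hi, map_neg, neg_eq_zero, ← Module.End.mul_apply, ← pow_succ']
    have h : p - 2 + 1 = p - 1 := by
      have := redF_p (p := p)
      omega
    rw [h]
    exact redF_toZMod (form_dvd hz x (z y')).1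
  have f_congr : ∀ x x' y y', mk z x = mk z x' → mk z y = mk z y' → f x y = f x' y' := by
    intro x x' y y' hx hy
    have h1 : f (x - x') y = 0 := f_zero _ _ (by rw [map_sub, hx, sub_self])
    have h2 : f x' (y - y') = 0 := f_zero' _ _ (by rw [map_sub, hy, sub_self])
    rw [f_sub, sub_eq_zero] at h1
    rw [f_sub', sub_eq_zero] at h2
    rw [h1, h2]
  set s : Vr z → M := Function.surjInv (mk_surjective z) with hs
  have hs' : ∀ v, mk z (s v) = v := Function.surjInv_eq (mk_surjective z)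
  let g : Vr z → (Vr z →ₗ[ZMod p] ZMod p) := fun v => AddMonoidHom.toZModLinearMap p
    (AddMonoidHom.mk' (fun w => f (s v) (s w)) (by
      intro w w'
      rw [← f_add']
      exact f_congr _ _ _ _ rfl (by rw [map_add, hs', hs', hs'])))
  have hg : ∀ v w, g v w = f (s v) (s w) := fun v w => rfl
  let B : Vr z →ₗ[ZMod p] Vr z →ₗ[ZMod p] ZMod p := AddMonoidHom.toZModLinearMap p
    (AddMonoidHom.mk' g (by
      intro v v'
      refine LinearMap.ext fun w => ?_
      rw [LinearMap.add_apply, hg, hg, hg, ← f_add]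
      exact f_congr _ _ _ _ (by rw [map_add, hs', hs', hs']) rfl))
  refine ⟨B, fun x y => ?_⟩
  have h1 : B (mk z x) (mk z y) = f (s (mk z x)) (s (mk z y)) := rfl
  rw [h1]
  exact f_congr _ _ _ _ (hs' _) (hs' _)

/-- moving a power of `1 - z` to the other side -/
private theorem redF_iter (hz : ∀ x, ∑ i ∈ Finset.range p, (z ^ i) x = 0)
    (hi : ∀ x y, e (z x) (z y) = e x y) (n : ℕ) (x y : M) :
    e ((lam z ^ n) x) y = (-1) ^ n * e x (((z ^ (p - 1)) ^ n * lam z ^ n) y) := by
  induction n generalizing x with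
  | zero => simp
  | succ n ih =>
    have h1 : (lam z ^ (n + 1)) x = (lam z ^ n) (lam z x) := by
      rw [pow_succ, Module.End.mul_apply]
    have hc : Commute (lam z) ((z ^ (p - 1)) ^ n) := by
      have := (redF_lam_z (z := z) 1)
      rw [pow_one] at this
      exact (this.pow_right _).pow_right _
    have h2 : z ^ (p - 1) * (lam z * ((z ^ (p - 1)) ^ n * lam z ^ n)) =
        (z ^ (p - 1)) ^ (n + 1) * lam z ^ (n + 1) := by
      rw [← mul_assoc (lam z), hc.eq, mul_assoc, ← pow_succ', ← mul_assoc, ← pow_succ']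
    rw [h1, ih, form_lam hz hi, ← Module.End.mul_apply, ← Module.End.mul_apply,
      mul_assoc (z ^ (p - 1)), h2]
    ring

private theorem redF_inv (hz : ∀ x, ∑ i ∈ Finset.range p, (z ^ i) x = 0) (m : ℕ) (x y : M) :
    PadicInt.toZMod (e x ((z ^ m * lam z ^ (p - 2)) y)) =
      PadicInt.toZMod (e x ((lam z ^ (p - 2)) y)) := by
  induction m generalizing y with
  | zero => rw [pow_zero, one_mul]
  | succ m ih =>
    have h1 : (z ^ (m + 1) * lam z ^ (p - 2)) y = (z ^ m * lam z ^ (p - 2)) (z y) := by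
      rw [pow_succ, mul_assoc, ← (redF_lam_z (z := z) (p - 2)).eq, ← mul_assoc,
        Module.End.mul_apply _ z]
    have h2 : z y = y - lam z y := by
      simp only [lam, LinearMap.sub_apply, Module.End.one_apply]
      abel
    rw [h1, ih, h2, map_sub, redF_pow_lam, map_sub, map_sub, redF_toZMod (form_dvd hz x y).2,
      sub_zero]

private theorem redF_swap (hz : ∀ x, ∑ i ∈ Finset.range p, (z ^ i) x = 0)
    (hi : ∀ x y, e (z x) (z y) = e x y) (x y : M) :
    PadicInt.toZMod (e x ((lam z ^ (p - 2)) y)) =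
      (-1) ^ (p - 2) * PadicInt.toZMod (e ((lam z ^ (p - 2)) x) y) := by
  rw [redF_iter hz hi, map_mul, map_pow, map_neg, map_one, ← pow_mul, redF_inv hz, ← mul_assoc,
    ← mul_pow]
  simp

theorem RedForm.symm (hp : p ≠ 2) (hz : ∀ x, ∑ i ∈ Finset.range p, (z ^ i) x = 0)
    (hi : ∀ x y, e (z x) (z y) = e x y) (hs : ∀ x y, e x y = -e y x)
    {B : Vr z →ₗ[ZMod p] Vr z →ₗ[ZMod p] ZMod p} (hB : RedForm z e B) (v w : Vr z) :
    B v w = B w v := by
  obtain ⟨x, rfl⟩ := mk_surjective z v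
  obtain ⟨y, rfl⟩ := mk_surjective z w
  rw [hB, hB, hs ((lam z ^ (p - 2)) y) x, map_neg, redF_swap hz hi]
  have hodd : Odd (p - 2) := by
    have h1 := (Fact.out : p.Prime).odd_of_ne_two hp
    have h2 := redF_p (p := p)
    obtain ⟨m, hm⟩ := h1
    exact ⟨m - 1, by omega⟩
  rw [hodd.neg_one_pow]
  ring

/-- the type of the reduction of a skew operator divisible by `(1 - z) ^ k` -/
theorem RedForm.ty (hz : ∀ x, ∑ i ∈ Finset.range p, (z ^ i) x = 0)
    (hi : ∀ x y, e (z x) (z y) = e x y) {B : Vr z →ₗ[ZMod p] Vr z →ₗ[ZMod p] ZMod p}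
    (hB : RedForm z e B) {Y A : Module.End ℤ_[p] M}
    (hY : ∀ x y, e (Y x) y + e x (Y y) = 0) {k : ℕ} (hYA : Y = lam z ^ k * A)
    {a : Module.End (ZMod p) (Vr z)} (hA : Red z A a) : Ty B k a := by
  intro v w
  obtain ⟨x, rfl⟩ := mk_surjective z v
  obtain ⟨y, rfl⟩ := mk_surjective z w
  have hp0 : (p : ℤ_[p]) ≠ 0 := by
    exact_mod_cast (Fact.out : p.Prime).ne_zero
  obtain ⟨q, q', h1, h2⟩ := exists_unit (p := p) hz
  set Q : Module.End ℤ_[p] M := Polynomial.aeval z q with hQ
  have hQz : Commute Q z := by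
    have := aeval_comm (z := z) (A := z) (fun _ => rfl) q
    exact this.symm
  have hQl : ∀ n, Commute Q (lam z ^ n) := redF_A_lam (redF_comm hQz)
  have hAQ : Commute A Q := aeval_comm hA.1 q
  set j : ℕ := (p - 2) * (k + 1) with hj
  have hkj : k + j = (p - 1) * k + (p - 2) := by
    have := redF_p (p := p)
    obtain ⟨r, rfl⟩ := Nat.exists_eq_add_of_le this
    rw [hj]
    have e1 : 2 + r - 2 = r := by omega
    have e2 : 2 + r - 1 = r + 1 := by omega
    rw [e1, e2]
    ring
  -- `p ^ k` times `lam ^ (p - 2)`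
  have h3 : lam z ^ (k + j) * Q ^ k = (p : ℤ_[p]) ^ k • lam z ^ (p - 2) := by
    have h4 : (p : ℤ_[p]) ^ k • (1 : Module.End ℤ_[p] M) = (lam z ^ (p - 1)) ^ k * Q ^ k := by
      rw [← (hQl (p - 1)).symm.mul_pow, ← h2, smul_pow, one_pow]
    rw [hkj, add_comm, pow_add, pow_mul, mul_assoc, ← h4, mul_smul_comm, mul_one]
  have h5 : (Y * (lam z ^ j * Q ^ k)) = (p : ℤ_[p]) ^ k • (lam z ^ (p - 2) * A) := by
    have e1 : A * (lam z ^ j * Q ^ k) = lam z ^ j * Q ^ k * A :=
      ((redF_A_lam hA.1 j).mul_right (hAQ.pow_right k)).eq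
    rw [hYA, mul_assoc, e1, ← mul_assoc, ← mul_assoc, ← pow_add, h3, smul_mul_assoc]
  have h6 := hY x ((lam z ^ j * Q ^ k) y)
  have h7 : e x (Y ((lam z ^ j * Q ^ k) y)) =
      (p : ℤ_[p]) ^ k * e x ((lam z ^ (p - 2)) (A y)) := by
    rw [← Module.End.mul_apply, h5, LinearMap.smul_apply, map_smul, smul_eq_mul,
      Module.End.mul_apply]
  have h8 : e (Y x) ((lam z ^ j * Q ^ k) y) = (p : ℤ_[p]) ^ k * ((-1) ^ k *
      e (A x) (((z ^ (p - 1)) ^ k * lam z ^ (p - 2)) y)) := by
    rw [hYA, Module.End.mul_apply, redF_iter hz hi, ← Module.End.mul_apply, mul_assoc,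
      ← mul_assoc (lam z ^ k), ← pow_add, h3, mul_smul_comm, LinearMap.smul_apply, map_smul,
      smul_eq_mul]
    ring
  rw [h7, h8, ← mul_add] at h6
  have h9 := (mul_eq_zero.1 h6).resolve_left (pow_ne_zero _ hp0)
  have h10 := congrArg (PadicInt.toZMod (p := p)) h9
  rw [map_add, map_zero, map_mul, map_pow, map_neg, map_one, ← pow_mul, redF_inv hz,
    redF_swap hz hi, redF_swap hz hi, ← hB, ← hB, ← hA.2, ← hA.2] at h10
  have hε : ((-1 : ZMod p) ^ (p - 2)) * (-1) ^ (p - 2) = 1 := by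
    rw [← mul_pow]; simp
  have hk : ((-1 : ZMod p) ^ k) * (-1) ^ k = 1 := by
    rw [← mul_pow]; simp
  set b := B (a (mk z x)) (mk z y)
  set b' := B (mk z x) (a (mk z y))
  rw [pow_succ]
  linear_combination ((-1 : ZMod p) ^ k * (-1) ^ (p - 2)) * h10 -
    ((-1 : ZMod p) ^ k * (-1) ^ k) * b * hε - b * hk - (-1 : ZMod p) ^ k * b' * hε

end Pool.Agent.PTate
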