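import Mathlib

/-!
# The abstract data of the Galois representations
-/

set_option autoImplicit false

noncomputable section

namespace Pool.Agent.PTate

open scoped Classical

variable {p : ℕ} [Fact p.Prime] {σ ι G : Type} [Group G] {M : σ → Type}
  [∀ s, AddCommGroup (M s)] [∀ s, Module ℤ_[p] (M s)]

/-- The operator `1 - z`. -/
def lam {N : Type} [AddCommGroup N] [Module ℤ_[p] N] (z : Module.End ℤ_[p] N) :
    Module.End ℤ_[p] N := 1 - z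

/-- The operator `x ↦ e ((1 - z) ^ (p - 2) x, v) v`. -/
def nop (p : ℕ) [Fact p.Prime] {N : Type} [AddCommGroup N] [Module ℤ_[p] N]
    (z : Module.End ℤ_[p] N) (e : N →ₗ[ℤ_[p]] N →ₗ[ℤ_[p]] ℤ_[p]) (v x : N) : N :=
  e ((lam z ^ (p - 2)) x) v • v

/-- The data of the representations: `M s` is the Tate module of a curve, `z s` the automorphism of
order `p`, `e s` the Weil pairing, `P s i` the class of a fixed point, `m s i` its exponent, `ρ s`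
the representation of the Galois group, `χ` the cyclotomic character. -/
structure RepP (S : σ → Finset ι) (m : σ → ι → ℕ) (z : ∀ s, Module.End ℤ_[p] (M s))
    (e : ∀ s, M s →ₗ[ℤ_[p]] M s →ₗ[ℤ_[p]] ℤ_[p]) (P : ∀ s, ι → M s) (adj : ι → ι → Prop)
    (ρ : ∀ s, G →* Module.End ℤ_[p] (M s)) (χ : G →* ℤ_[p]ˣ) : Prop where
  two : ∀ s, 2 ≤ (S s).card
  cop : ∀ s, ∀ i ∈ S s, (m s i).Coprime p
  copM : ∀ s, (∑ i ∈ S s, m s i).Coprime p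
  nz : ∀ s, 4 ≤ (S s).card → ∃ i ∈ S s, ∃ j ∈ S s, adj i j ∧ (m s i + m s j).Coprime p
  sep : ∀ s t, s ≠ t → S s = S t → 3 ≤ (S s).card → ∃ i ∈ S s, ∃ j ∈ S s, ∃ k ∈ S s,
    ∃ l ∈ S s, adj i j ∧ adj k l ∧ ¬ ((m s i + m s j) * (m t k + m t l)) ^ 2 ≡
      ((m t i + m t j) * (m s k + m s l)) ^ 2 [MOD p]
  zeta : ∀ s x, ∑ i ∈ Finset.range p, (z s ^ i) x = 0
  inv : ∀ s x y, e s (z s x) (z s y) = e s x y
  skew : ∀ s x y, e s x y = -e s y x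
  gen : ∀ s x, ∃ (c : ι → ℕ) (y : M s), x = ∑ i ∈ S s, c i • P s i + lam (z s) y
  rel : ∀ s, ∃ y, ∑ i ∈ S s, m s i • P s i = lam (z s) y
  pair : ∀ s, ∀ i ∈ S s, ∀ j ∈ S s, ∀ m' n' : ℕ, (m s i * m') % p = 1 →
    ((∑ l ∈ S s, m s l) * n') % p = 1 →
    ∃ w, e s ((lam (z s) ^ (p - 2)) (P s i)) (P s j) = (if i = j then (m' : ℤ_[p]) else 0) -
      n' + p * w
  symm : ∀ i j, adj i j → adj j i
  conn : ∀ s, ∀ i ∈ S s, ∀ j ∈ S s,
    Relation.ReflTransGen (fun u v => u ∈ S s ∧ v ∈ S s ∧ adj u v) i j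
  sim : ∀ g s x y, e s (ρ s g x) (ρ s g y) = χ g * e s x y
  comm : ∀ g s x, ρ s g (z s x) = z s (ρ s g x)
  mod1 : ∀ g s x, ∃ y, ρ s g x = x + lam (z s) y
  chi1 : ∀ g, ∃ w, (χ g : ℤ_[p]) = 1 + p * w
  edge : ∀ i j, adj i j → i ≠ j ∧ ∃ g : G, (∃ w, (χ g : ℤ_[p]) = 1 + (p : ℤ_[p]) ^ 2 * w) ∧
    ∀ s x, ∃ y, ρ s g x = x + (if i ∈ S s ∧ j ∈ S s then
      lam (z s) ((m s i * m s j) • nop p (z s) (e s) (P s i - P s j) x) else 0) +
        (lam (z s) ^ 2) y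

/-- The Tate forms of weight `j` on the sum of `n` copies. -/
def IsTateForm (ρ : ∀ s, G →* Module.End ℤ_[p] (M s)) (χ : G →* ℤ_[p]ˣ) {n r : ℕ} (j : ℕ)
    (F : MultilinearMap ℤ_[p] (fun _ : Fin r => Fin n → ∀ s, M s) ℚ_[p]) : Prop :=
  ∃ U : Subgroup G, U.FiniteIndex ∧ ∀ g ∈ U, ∀ v : Fin r → Fin n → ∀ s, M s,
    F (fun i a s => ρ s g (v i a s)) = (((χ g : ℤ_[p]) ^ j : ℤ_[p]) : ℚ_[p]) * F v

end Pool.Agent.PTate
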