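import Pool.Agent.PTate.TLam
import Pool.Agent.PTate.TPair
import Pool.Agent.PTate.Pair

/-!
# The Weil pairing on the Tate module
-/

set_option autoImplicit false

noncomputable section

namespace Pool.Agent.PTate

open Polynomial
open scoped Classical

variable {k O : Type} [Field k] [CommRing O] [Algebra k O] {p : ℕ} {ζ : k}
  [IsDedekindDomain O] [IsAlgClosed k]

omit [IsAlgClosed k] in
private theorem TForm_neg [Fact p.Prime] {ξ : ℕ → k} (hξ : IsRoots p ξ) (n : ℕ) (x : ℤ_[p]) :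
    ξ n ^ (PadicInt.toZModPow n (-x)).val = (ξ n ^ (PadicInt.toZModPow n x).val)⁻¹ := by
  have : NeZero (p ^ n) := ⟨pow_ne_zero n (Fact.out : p.Prime).ne_zero⟩
  apply eq_inv_of_mul_eq_one_left
  rw [← pow_add, (hξ.prim n).pow_eq_one_iff_dvd, ← ZMod.natCast_eq_zero_iff, Nat.cast_add,
    ZMod.natCast_zmod_val, ZMod.natCast_zmod_val, map_neg, neg_add_cancel]

omit [IsAlgClosed k] in
private theorem TForm_inj {n : ℕ} (hn : 0 < n) (h : IsPrimitiveRoot ζ n) {a b : ℕ}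
    (hab : ζ ^ a = ζ ^ b) : a ≡ b [MOD n] := by
  rw [pow_eq_pow_mod a h.pow_eq_one, pow_eq_pow_mod b h.pow_eq_one] at hab
  exact h.pow_inj (Nat.mod_lt _ hn) (Nat.mod_lt _ hn) hab

/-- the Weil pairing on the Tate module -/
theorem exists_pairing (I : Infty k O) [Fact p.Prime] {ξ : ℕ → k} (hξ : IsRoots p ξ) :
    ∃ e : TM p (J O) →ₗ[ℤ_[p]] TM p (J O) →ₗ[ℤ_[p]] ℤ_[p],
      (∀ (t u : TM p (J O)) (n : ℕ), 1 ≤ n →
        weil I (p ^ n) ((t : ℕ → J O) n) ((u : ℕ → J O) n) =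
          ξ n ^ (PadicInt.toZModPow n (e t u)).val) ∧ ∀ t u, e t u = -e u t := by
  have hw : PairData p (fun n (a b : J O) => weil I (p ^ n) a b) :=
    { add_left := fun n a b c ha hb hc => weil_add_left I ha hb hc
      add_right := fun n a b c ha hb hc => weil_add_right I ha hb hc
      pow := fun n a b ha hb => weil_pow I ha hb
      mul := fun n a b ha hb => by
        have h1 : p ^ (n + 1) = p * p ^ n := pow_succ' p n
        rw [h1] at ha hb ⊢
        exact weil_mul I ha hb }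
  obtain ⟨e, he⟩ := exists_form hξ hw
  refine ⟨e, he, fun t u => ?_⟩
  refine eq_of_roots hξ fun n hn => ?_
  rw [TForm_neg hξ, ← he t u n hn, ← he u t n hn]
  exact weil_symm I (TM.pow_smul u n) (TM.pow_smul t n)

/-- it is invariant under the group of the covering -/
theorem Cyc.form_inv (C : Cyc k O p ζ) [Fact p.Prime] {ξ : ℕ → k} (hξ : IsRoots p ξ)
    {e : TM p (J O) →ₗ[ℤ_[p]] TM p (J O) →ₗ[ℤ_[p]] ℤ_[p]}
    (he : ∀ (t u : TM p (J O)) (n : ℕ), 1 ≤ n →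
      weil C.I (p ^ n) ((t : ℕ → J O) n) ((u : ℕ → J O) n) =
        ξ n ^ (PadicInt.toZModPow n (e t u)).val) (t u : TM p (J O)) :
    e (C.z t) (C.z u) = e t u := by
  refine eq_of_roots hξ fun n hn => ?_
  rw [← he _ _ n hn, ← he _ _ n hn]
  have h1 := weil_act C.I (n := p ^ n) C.s (RingEquiv.refl k) (fun c => C.σ.commutes c)
    (fun z hz => by
      have h2 : C.I.lc (C.s z) = ζ ^ (C.e * C.I.ord z) * C.I.lc z := C.lc_σ z
      have h3 : ζ ^ (C.e * C.I.ord z) = 1 := by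
        rw [C.prim.pow_eq_one_iff_dvd]
        exact ((dvd_pow_self p (by omega)).trans hz).mul_left _
      rw [h2, h3, one_mul]
      rfl) (TM.pow_smul t n) (TM.pow_smul u n)
  exact h1

/-- its values at the fixed points -/
theorem Cyc.form_P (C : Cyc k O p ζ) [Fact p.Prime] (hp : p ≠ 2) {ξ : ℕ → k}
    (hξ : IsRoots p ξ) (hξ1 : ξ 1 = ζ)
    {e : TM p (J O) →ₗ[ℤ_[p]] TM p (J O) →ₗ[ℤ_[p]] ℤ_[p]}
    (he : ∀ (t u : TM p (J O)) (n : ℕ), 1 ≤ n →
      weil C.I (p ^ n) ((t : ℕ → J O) n) ((u : ℕ → J O) n) =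
        ξ n ^ (PadicInt.toZModPow n (e t u)).val) {P : MaximalSpectrum O → TM p (J O)}
    (hP : ∀ Q ∈ C.F, C.D^[p - 2] ((P Q : ℕ → J O) 1) = cl Q) {Q Q' : MaximalSpectrum O}
    (hQ : Q ∈ C.F) (hQ' : Q' ∈ C.F) {m' : ℕ} (hm : (C.m Q * m') % p = 1) :
    ∃ w, e ((lam C.z ^ (p - 2)) (P Q)) (P Q') =
      (if Q = Q' then (m' : ℤ_[p]) else 0) - C.e + p * w := by
  have : NeZero (p ^ 1) := ⟨pow_ne_zero 1 (Fact.out : p.Prime).ne_zero⟩
  have h1 := he ((lam C.z ^ (p - 2)) (P Q)) (P Q') 1 le_rfl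
  rw [C.lam_pow_apply, hP Q hQ, hξ1] at h1
  have hpp : weil C.I (p ^ 1) (cl Q) ((P Q' : ℕ → J O) 1) =
      weil C.I p (cl Q) ((P Q' : ℕ → J O) 1) := by rw [pow_one]
  rw [hpp] at h1
  have hk : p • ((P Q' : ℕ → J O) 1) = 0 := by
    have := TM.pow_smul (P Q') 1
    rwa [pow_one] at this
  have h2 := C.weil_fixed hp hQ hQ' hk (hP Q' hQ') hm
  set x := e ((lam C.z ^ (p - 2)) (P Q)) (P Q') with hx
  set d : ℕ := if Q = Q' then m' else 0 with hd
  have h3 : (if Q = Q' then ζ ^ m' else 1) = ζ ^ d := by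
    rw [hd]
    split_ifs
    · rfl
    · rw [pow_zero]
  rw [h1, h3, ← pow_add] at h2
  have h4 := TForm_inj (Fact.out : p.Prime).pos C.prim h2
  have h5 : (((PadicInt.toZModPow 1 x).val + C.e : ℕ) : ZMod (p ^ 1)) = (d : ZMod (p ^ 1)) := by
    rw [ZMod.natCast_eq_natCast_iff]
    generalize (PadicInt.toZModPow 1 x).val + C.e = A at h4
    rw [pow_one]
    exact h4
  rw [Nat.cast_add, ZMod.natCast_zmod_val] at h5
  have h6 : x - ((d : ℤ_[p]) - C.e) ∈ RingHom.ker (PadicInt.toZModPow (p := p) 1) := by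
    rw [RingHom.mem_ker, map_sub, map_sub, map_natCast, map_natCast, ← h5]
    ring
  rw [PadicInt.ker_toZModPow, Ideal.mem_span_singleton, pow_one] at h6
  obtain ⟨w, hw⟩ := h6
  refine ⟨w, ?_⟩
  have h7 : (if Q = Q' then (m' : ℤ_[p]) else 0) = (d : ℤ_[p]) := by
    rw [hd]
    split_ifs
    · rfl
    · rw [Nat.cast_zero]
  rw [h7, ← hw]
  ring

end Pool.Agent.PTate
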