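import Pool.Agent.PTate.JLam
import Pool.Agent.PTate.TFin
import Pool.Agent.PTate.Rep

/-!
# The Tate module of a cyclic covering
-/

set_option autoImplicit false

noncomputable section

namespace Pool.Agent.PTate

open Polynomial
open scoped Classical

variable {k O : Type} [Field k] [CommRing O] [Algebra k O] {p : ℕ} {ζ : k}
  [IsDedekindDomain O] [IsAlgClosed k]

/-- The action of the generator `σ` of the group of the covering on the Tate module. -/
def Cyc.z (C : Cyc k O p ζ) [Fact p.Prime] : Module.End ℤ_[p] (TM p (J O)) := TM.map C.S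

omit [IsDedekindDomain O] [IsAlgClosed k] in
theorem Cyc.lam_apply (C : Cyc k O p ζ) [Fact p.Prime] (t : TM p (J O)) (n : ℕ) :
    ((lam C.z t : TM p (J O)) : ℕ → J O) n = C.D ((t : ℕ → J O) n) := rfl

omit [IsDedekindDomain O] [IsAlgClosed k] in
theorem Cyc.lam_pow_apply (C : Cyc k O p ζ) [Fact p.Prime] (t : TM p (J O)) (i n : ℕ) :
    (((lam C.z ^ i) t : TM p (J O)) : ℕ → J O) n = C.D^[i] ((t : ℕ → J O) n) := by
  induction i generalizing t with
  | zero => rfl
  | succ i ih => rw [pow_succ, Module.End.mul_apply, ih, Cyc.lam_apply, Function.iterate_succ_apply]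

theorem Cyc.finite_T (C : Cyc k O p ζ) [Fact p.Prime] (hp : p ≠ 2) :
    Module.Finite ℤ_[p] (TM p (J O)) :=
  TM.finite (C.finite_torsion hp)

omit [IsDedekindDomain O] [IsAlgClosed k] in
private theorem tlam_z_pow_apply (C : Cyc k O p ζ) [Fact p.Prime] (t : TM p (J O)) (i n : ℕ) :
    (((C.z ^ i) t : TM p (J O)) : ℕ → J O) n = C.S^[i] ((t : ℕ → J O) n) := by
  induction i generalizing t with
  | zero => rfl
  | succ i ih =>
    rw [pow_succ, Module.End.mul_apply, ih, Function.iterate_succ_apply]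
    rfl

/-- evaluation of the `n`-th component -/
private def tlam_ev {A : Type} [AddCommGroup A] (n : ℕ) : TM p A →+ A :=
  (Pi.evalAddMonoidHom (fun _ : ℕ => A) n).comp (TM p A).subtype

private theorem tlam_ev_apply {A : Type} [AddCommGroup A] (n : ℕ) (t : TM p A) :
    tlam_ev n t = (t : ℕ → A) n := rfl

theorem Cyc.zeta_T (C : Cyc k O p ζ) [Fact p.Prime] (t : TM p (J O)) :
    ∑ i ∈ Finset.range p, (C.z ^ i) t = 0 := by
  refine Subtype.ext (funext fun n => ?_)
  have h1 : ((∑ i ∈ Finset.range p, (C.z ^ i) t : TM p (J O)) : ℕ → J O) n =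
      ∑ i ∈ Finset.range p, C.S^[i] ((t : ℕ → J O) n) := by
    rw [← tlam_ev_apply, map_sum]
    exact Finset.sum_congr rfl fun i _ => tlam_z_pow_apply C t i n
  rw [h1, C.sum_act]
  rfl

private theorem tlam_sum (C : Cyc k O p ζ) [Fact p.Prime] :
    aeval C.z (∑ i ∈ Finset.range p, X ^ i : ℤ[X]) = 0 := by
  refine LinearMap.ext fun t => ?_
  rw [map_sum, LinearMap.sum_apply, LinearMap.zero_apply, ← C.zeta_T t]
  exact Finset.sum_congr rfl fun i _ => by rw [map_pow, aeval_X]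

omit [IsDedekindDomain O] [IsAlgClosed k] in
private theorem tlam_one_sub (C : Cyc k O p ζ) [Fact p.Prime] :
    aeval C.z (1 - X : ℤ[X]) = lam C.z := by
  rw [map_sub, map_one, aeval_X]
  rfl

/-- `p` is divisible by `λ ^ (p - 1)` on the Tate module -/
private theorem tlam_p (C : Cyc k O p ζ) [Fact p.Prime] :
    ∃ Q : Module.End ℤ_[p] (TM p (J O)), Commute (lam C.z) Q ∧
      ∀ v : TM p (J O), (p : ℤ_[p]) • v = (lam C.z ^ (p - 1)) (Q v) := by
  obtain ⟨q, v, h⟩ := exists_poly_two (p := p)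
  refine ⟨aeval C.z q, ?_, fun w => ?_⟩
  · rw [← tlam_one_sub]
    show aeval C.z (1 - X : ℤ[X]) * aeval C.z q = aeval C.z q * aeval C.z (1 - X : ℤ[X])
    rw [← map_mul, ← map_mul, mul_comm]
  · have h1 := congrArg (aeval C.z) h
    rw [map_add, map_mul, map_mul, tlam_sum, zero_mul, add_zero, map_pow, tlam_one_sub,
      map_natCast] at h1
    have h2 := LinearMap.congr_fun h1 w
    rw [Module.End.mul_apply] at h2
    rw [← h2]
    rw [← map_natCast (algebraMap ℤ_[p] (Module.End ℤ_[p] (TM p (J O))))]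
    rfl

private theorem tlam_inj (C : Cyc k O p ζ) [Fact p.Prime] (i : ℕ) {t : TM p (J O)}
    (h : (lam C.z ^ i) t = 0) : t = 0 := by
  have hp2 : 2 ≤ p := (Fact.out : p.Prime).two_le
  have h1 : ∀ t : TM p (J O), lam C.z t = 0 → t = 0 := by
    intro t ht
    obtain ⟨Q, hQ, hpQ⟩ := tlam_p C
    have h2 : (p : ℤ_[p]) • t = 0 := by
      rw [hpQ t, ← Module.End.mul_apply, (hQ.pow_left (p - 1)).eq, Module.End.mul_apply]
      obtain ⟨m, hm⟩ : ∃ m, p - 1 = m + 1 := ⟨p - 2, by omega⟩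
      rw [hm, pow_succ, Module.End.mul_apply, ht, map_zero, map_zero]
    rcases smul_eq_zero.1 h2 with h3 | h3
    · exact absurd h3 (by exact_mod_cast (Fact.out : p.Prime).ne_zero)
    · exact h3
  induction i with
  | zero => exact h
  | succ i ih =>
    rw [pow_succ', Module.End.mul_apply] at h
    exact ih (h1 _ h)

/-- the elements divisible by a power of `1 - z` -/
theorem Cyc.lam_dvd (C : Cyc k O p ζ) [Fact p.Prime] (hp : p ≠ 2) {i : ℕ} (hi : i ≤ p - 1)
    (t : TM p (J O)) : C.D^[p - 1 - i] ((t : ℕ → J O) 1) = 0 ↔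
      ∃ u : TM p (J O), t = (lam C.z ^ i) u := by
  constructor
  · intro h
    rw [← C.lam_pow_apply, TM.apply_eq_zero_iff] at h
    obtain ⟨v, hv⟩ := h
    obtain ⟨Q, -, hpQ⟩ := tlam_p C
    rw [pow_one, hpQ v] at hv
    refine ⟨Q v, ?_⟩
    have h1 : p - 1 = (p - 1 - i) + i := by omega
    rw [h1, pow_add, Module.End.mul_apply, ← h1, ← sub_eq_zero, ← map_sub] at hv
    exact sub_eq_zero.1 (tlam_inj C _ hv)
  · rintro ⟨u, rfl⟩
    rw [C.lam_pow_apply, ← Function.iterate_add_apply, Nat.sub_add_cancel hi,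
      ← C.smul_eq_zero_iff]
    have h1 := u.2.2 0
    rw [zero_add] at h1
    rw [h1]
    exact u.2.1

private def tlam_D (C : Cyc k O p ζ) : AddMonoid.End (J O) := C.D

omit [IsDedekindDomain O] [IsAlgClosed k] in
private theorem tlam_iterate (C : Cyc k O p ζ) (i : ℕ) (c : J O) :
    C.D^[i] c = (tlam_D C ^ i) c := by
  rw [AddMonoid.End.coe_pow]
  rfl

private theorem tlam_exists (C : Cyc k O p ζ) [Fact p.Prime] (hp : p ≠ 2) (i : ℕ) (c : J O) :
    ∃ c', C.D^[i] c' = c := by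
  induction i generalizing c with
  | zero => exact ⟨c, rfl⟩
  | succ i ih =>
    obtain ⟨c1, h1⟩ := ih c
    obtain ⟨c2, h2⟩ := C.exists_lambda hp c1
    refine ⟨c2, ?_⟩
    rw [Function.iterate_succ_apply, C.D_apply, ← h2, h1]

/-- the fixed points -/
theorem Cyc.exists_P (C : Cyc k O p ζ) [Fact p.Prime] (hp : p ≠ 2) :
    ∃ P : MaximalSpectrum O → TM p (J O),
      (∀ Q ∈ C.F, C.D^[p - 2] ((P Q : ℕ → J O) 1) = cl Q) ∧
      (∀ t : TM p (J O), ∃ (c : MaximalSpectrum O → ℕ) (u : TM p (J O)),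
        t = ∑ Q ∈ C.F, c Q • P Q + lam C.z u) ∧
      ∃ u : TM p (J O), ∑ Q ∈ C.F, C.m Q • P Q = lam C.z u := by
  have hp2 : 2 ≤ p := (Fact.out : p.Prime).two_le
  have hp1 : p - 1 = 1 + (p - 2) := by omega
  have h1 : ∀ Q : MaximalSpectrum O, ∃ t : TM p (J O),
      Q ∈ C.F → C.D^[p - 2] ((t : ℕ → J O) 1) = cl Q := by
    intro Q
    by_cases hQ : Q ∈ C.F
    · obtain ⟨c, hc⟩ := tlam_exists C hp (p - 2) (cl Q)
      have h2 : p • c = 0 := by
        rw [C.smul_eq_zero_iff, hp1, Function.iterate_add_apply, hc, Function.iterate_one,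
          C.D_apply, C.S_cl hQ, sub_self]
      obtain ⟨t, ht⟩ := TM.exists_lift (fun a => C.exists_smul hp a) h2
      exact ⟨t, fun _ => by rw [ht, hc]⟩
    · exact ⟨0, fun h => absurd h hQ⟩
  choose P hP using h1
  have h2 : ∀ n : MaximalSpectrum O → ℕ,
      C.D^[p - 2] (((∑ Q ∈ C.F, n Q • P Q : TM p (J O)) : ℕ → J O) 1) =
        ∑ Q ∈ C.F, n Q • cl Q := by
    intro n
    rw [← tlam_ev_apply, tlam_iterate, map_sum, map_sum]
    refine Finset.sum_congr rfl fun Q hQ => ?_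
    rw [map_nsmul, map_nsmul, ← tlam_iterate, tlam_ev_apply, hP Q hQ]
  have h3 : ∀ t : TM p (J O), C.D^[p - 2] ((t : ℕ → J O) 1) = 0 → ∃ u, t = lam C.z u := by
    intro t ht
    have h4 := (C.lam_dvd hp (i := 1) (by omega) t).1 (by rw [Nat.sub_sub]; exact ht)
    rw [pow_one] at h4
    exact h4
  refine ⟨P, hP, fun t => ?_, ?_⟩
  · have h4 : C.S (C.D^[p - 2] ((t : ℕ → J O) 1)) = C.D^[p - 2] ((t : ℕ → J O) 1) := by
      have h5 : C.D^[p - 1] ((t : ℕ → J O) 1) = 0 := by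
        rw [← C.smul_eq_zero_iff]
        have h6 := t.2.2 0
        rw [zero_add] at h6
        rw [h6]
        exact t.2.1
      rw [hp1, Function.iterate_add_apply, Function.iterate_one, C.D_apply, sub_eq_zero] at h5
      exact h5.symm
    obtain ⟨n, hn⟩ := C.exists_fixed hp h4
    have h5 : C.D^[p - 2] (((t - ∑ Q ∈ C.F, n Q • P Q : TM p (J O)) : ℕ → J O) 1) = 0 := by
      have h6 : ((t - ∑ Q ∈ C.F, n Q • P Q : TM p (J O)) : ℕ → J O) 1 =
          (t : ℕ → J O) 1 - ((∑ Q ∈ C.F, n Q • P Q : TM p (J O)) : ℕ → J O) 1 := rfl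
      rw [h6, tlam_iterate, map_sub, ← tlam_iterate, ← tlam_iterate, h2, hn, sub_self]
    obtain ⟨u, hu⟩ := h3 _ h5
    exact ⟨n, u, by rw [← hu, add_sub_cancel]⟩
  · refine h3 _ ?_
    rw [h2, C.sum_F]

end Pool.Agent.PTate
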