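import Mathlib

/-!
# The p-adic Tate module of an abelian group
-/

set_option autoImplicit false

noncomputable section

namespace Pool.Agent.PTate

variable (p : ℕ) (A : Type) [AddCommGroup A]

/-- The p-adic Tate module of an abelian group: the sequences `(t n)` with `t 0 = 0` and
`p t (n + 1) = t n`. -/
def TM : AddSubgroup (ℕ → A) where
  carrier := {t | t 0 = 0 ∧ ∀ n, p • t (n + 1) = t n}
  add_mem' := by
    rintro t u ⟨h1, h2⟩ ⟨g1, g2⟩
    refine ⟨by simp [h1, g1], fun n => ?_⟩
    simp only [Pi.add_apply]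
    rw [← h2 n, ← g2 n, smul_add]
  zero_mem' := ⟨rfl, fun n => by simp⟩
  neg_mem' := by
    rintro t ⟨h1, h2⟩
    refine ⟨by simp [h1], fun n => ?_⟩
    simp only [Pi.neg_apply]
    rw [← h2 n, smul_neg]

variable {p} {A}

theorem TM.pow_smul (t : TM p A) (n : ℕ) : p ^ n • (t : ℕ → A) n = 0 := by
  induction n with
  | zero => rw [pow_zero, one_smul]; exact t.2.1
  | succ n ih => rw [pow_succ, mul_smul, t.2.2 n, ih]

variable {B : Type} [AddCommGroup B]

/-- two exponents which are congruent modulo `p ^ n` -/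
theorem TM.smul_congr (t : TM p A) (n : ℕ) {a b : ℕ} (h : (a : ZMod (p ^ n)) = b) :
    a • (t : ℕ → A) n = b • (t : ℕ → A) n := by
  rw [ZMod.natCast_eq_natCast_iff] at h
  have key : ∀ c : ℕ, c • (t : ℕ → A) n = (c % p ^ n) • (t : ℕ → A) n := by
    intro c
    conv_lhs => rw [← Nat.mod_add_div c (p ^ n)]
    rw [add_smul, mul_comm (p ^ n), mul_smul, TM.pow_smul, smul_zero, add_zero]
  rw [key a, key b]
  have h1 : a % p ^ n = b % p ^ n := h
  rw [h1]

variable [Fact p.Prime]

private theorem tmod_step (z : ℤ_[p]) (n : ℕ) :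
    (((PadicInt.toZModPow (n + 1) z).val : ℕ) : ZMod (p ^ n)) =
      (((PadicInt.toZModPow n z).val : ℕ) : ZMod (p ^ n)) := by
  rw [ZMod.natCast_val, PadicInt.cast_toZModPow n (n + 1) (Nat.le_succ n), ZMod.natCast_val,
    ZMod.cast_id', id]

/-- The multiplication of `t` by a p-adic integer `z`: the `n`-th component is multiplied by `z`
modulo `p ^ n`. -/
instance : Module ℤ_[p] (TM p A) where
  smul z t := ⟨fun n => (PadicInt.toZModPow n z).val • (t : ℕ → A) n, by
    refine ⟨?_, fun n => ?_⟩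
    · have h : (t : ℕ → A) 0 = 0 := t.2.1
      simp only [h, smul_zero]
    · simp only
      rw [smul_comm, t.2.2 n]
      exact TM.smul_congr t n (tmod_step z n)⟩
  one_smul := by
    intro t
    refine Subtype.ext (funext fun n => ?_)
    change (PadicInt.toZModPow n (1 : ℤ_[p])).val • (t : ℕ → A) n = (t : ℕ → A) n
    conv_rhs => rw [← one_smul ℕ ((t : ℕ → A) n)]
    refine TM.smul_congr t n ?_
    rw [ZMod.natCast_zmod_val, map_one, Nat.cast_one]
  mul_smul := by
    intro z w t
    refine Subtype.ext (funext fun n => ?_)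
    change (PadicInt.toZModPow n (z * w)).val • (t : ℕ → A) n =
      (PadicInt.toZModPow n z).val • (PadicInt.toZModPow n w).val • (t : ℕ → A) n
    rw [← mul_smul]
    refine TM.smul_congr t n ?_
    rw [ZMod.natCast_zmod_val, map_mul, Nat.cast_mul, ZMod.natCast_zmod_val,
      ZMod.natCast_zmod_val]
  smul_zero := by
    intro z
    refine Subtype.ext (funext fun n => ?_)
    change (PadicInt.toZModPow n z).val • (0 : A) = 0
    rw [smul_zero]
  smul_add := by
    intro z t u
    refine Subtype.ext (funext fun n => ?_)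
    change (PadicInt.toZModPow n z).val • ((t : ℕ → A) n + (u : ℕ → A) n) =
      (PadicInt.toZModPow n z).val • (t : ℕ → A) n + (PadicInt.toZModPow n z).val • (u : ℕ → A) n
    rw [smul_add]
  add_smul := by
    intro z w t
    refine Subtype.ext (funext fun n => ?_)
    change (PadicInt.toZModPow n (z + w)).val • (t : ℕ → A) n =
      (PadicInt.toZModPow n z).val • (t : ℕ → A) n + (PadicInt.toZModPow n w).val • (t : ℕ → A) n
    rw [← add_smul]
    refine TM.smul_congr t n ?_
    rw [ZMod.natCast_zmod_val, map_add, Nat.cast_add, ZMod.natCast_zmod_val,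
      ZMod.natCast_zmod_val]
  zero_smul := by
    intro t
    refine Subtype.ext (funext fun n => ?_)
    change (PadicInt.toZModPow n (0 : ℤ_[p])).val • (t : ℕ → A) n = 0
    rw [map_zero, ZMod.val_zero, zero_smul]

theorem TM.smul_apply (z : ℤ_[p]) (t : TM p A) (n : ℕ) :
    ((z • t : TM p A) : ℕ → A) n = (PadicInt.toZModPow n z).val • (t : ℕ → A) n := rfl

theorem TM.nat_smul_apply (m : ℕ) (t : TM p A) (n : ℕ) :
    (((m : ℤ_[p]) • t : TM p A) : ℕ → A) n = m • (t : ℕ → A) n := by
  rw [TM.smul_apply]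
  refine TM.smul_congr t n ?_
  rw [ZMod.natCast_zmod_val, map_natCast]

/-- The map induced by a homomorphism. -/
def TM.map (φ : A →+ B) : TM p A →ₗ[ℤ_[p]] TM p B where
  toFun t := ⟨fun n => φ ((t : ℕ → A) n), by
    refine ⟨?_, fun n => ?_⟩
    · have h : (t : ℕ → A) 0 = 0 := t.2.1
      simp only [h, map_zero]
    · simp only
      rw [← map_nsmul, t.2.2 n]⟩
  map_add' := by
    intro t u
    refine Subtype.ext (funext fun n => ?_)
    change φ ((t : ℕ → A) n + (u : ℕ → A) n) = φ ((t : ℕ → A) n) + φ ((u : ℕ → A) n)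
    rw [map_add]
  map_smul' := by
    intro z t
    refine Subtype.ext (funext fun n => ?_)
    change φ ((PadicInt.toZModPow n z).val • (t : ℕ → A) n) =
      (PadicInt.toZModPow n z).val • φ ((t : ℕ → A) n)
    rw [map_nsmul]

theorem TM.map_apply (φ : A →+ B) (t : TM p A) (n : ℕ) :
    ((TM.map φ t : TM p B) : ℕ → B) n = φ ((t : ℕ → A) n) := rfl

theorem TM.map_id : TM.map (p := p) (AddMonoidHom.id A) = LinearMap.id := rfl

theorem TM.map_comp {C : Type} [AddCommGroup C] (φ : A →+ B) (ψ : B →+ C) :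
    TM.map (p := p) (ψ.comp φ) = (TM.map ψ).comp (TM.map φ) := rfl

omit [Fact p.Prime] in
private theorem tmod_shift (t : TM p A) (m n : ℕ) :
    p ^ m • (t : ℕ → A) (n + m) = (t : ℕ → A) n := by
  induction m with
  | zero => rw [pow_zero, one_smul, Nat.add_zero]
  | succ m ih =>
    have h : p • (t : ℕ → A) (n + m + 1) = (t : ℕ → A) (n + m) := t.2.2 (n + m)
    rw [pow_succ, mul_smul, ← Nat.add_assoc, h, ih]

private theorem tmod_pow_apply (t : TM p A) (m n : ℕ) :
    (((p : ℤ_[p]) ^ m • t : TM p A) : ℕ → A) n = p ^ m • (t : ℕ → A) n := by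
  have h : ((p : ℤ_[p]) ^ m) = ((p ^ m : ℕ) : ℤ_[p]) := by push_cast; rfl
  rw [h, TM.nat_smul_apply]

/-- the elements divisible by `p ^ m` -/
theorem TM.apply_eq_zero_iff (t : TM p A) (m : ℕ) :
    (t : ℕ → A) m = 0 ↔ ∃ u : TM p A, t = (p : ℤ_[p]) ^ m • u := by
  constructor
  · intro h
    refine ⟨⟨fun n => (t : ℕ → A) (n + m), ?_, fun n => ?_⟩, ?_⟩
    · simp only [Nat.zero_add]
      exact h
    · have h1 := t.2.2 (n + m)
      simp only
      rw [Nat.add_right_comm n 1 m]
      exact h1
    · refine Subtype.ext (funext fun n => ?_)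
      rw [tmod_pow_apply]
      exact (tmod_shift t m n).symm
  · rintro ⟨u, rfl⟩
    rw [tmod_pow_apply, TM.pow_smul]

instance : Module.IsTorsionFree ℤ_[p] (TM p A) := by
  refine Module.IsTorsionFree.of_smul_eq_zero fun z t h => ?_
  by_cases hz : z = 0
  · exact Or.inl hz
  · right
    have h1 : (p : ℤ_[p]) ^ z.valuation • t = 0 := by
      have h2 := PadicInt.unitCoeff_spec hz
      rw [h2, mul_smul] at h
      have h3 := congrArg (fun s => (((PadicInt.unitCoeff hz)⁻¹ : ℤ_[p]ˣ) : ℤ_[p]) • s) h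
      simp only [smul_zero, ← mul_smul] at h3
      rw [← mul_assoc, Units.inv_mul, one_mul] at h3
      exact h3
    refine Subtype.ext (funext fun n => ?_)
    have h2 : (((p : ℤ_[p]) ^ z.valuation • t : TM p A) : ℕ → A) (n + z.valuation) = 0 := by
      rw [h1]; rfl
    rw [tmod_pow_apply, tmod_shift] at h2
    exact h2

omit [Fact p.Prime] in
/-- every element of order `p` lifts, if the group is divisible -/
theorem TM.exists_lift (hA : ∀ a : A, ∃ b, p • b = a) {a : A} (ha : p • a = 0) :
    ∃ t : TM p A, (t : ℕ → A) 1 = a := by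
  choose g hg using hA
  refine ⟨⟨fun n => Nat.casesOn n 0 fun k => g^[k] a, rfl, fun n => ?_⟩, rfl⟩
  cases n with
  | zero => exact ha
  | succ n =>
    change p • g^[n + 1] a = g^[n] a
    rw [Function.iterate_succ_apply', hg]

end Pool.Agent.PTate
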