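import Pool.Agent.PTate.Ded

/-!
# Points and values
-/

set_option autoImplicit false

noncomputable section

namespace Pool.Agent.PTate

open Polynomial
open scoped Classical

variable {k O : Type} [Field k] [CommRing O] [Algebra k O] [IsDedekindDomain O]

theorem point_ne_bot (I : Infty k O) (P : MaximalSpectrum O) : P.asIdeal ≠ ⊥ := by
  intro hP
  have hmax : (⊥ : Ideal O).IsMaximal := hP ▸ P.isMaximal
  obtain ⟨N, hN⟩ := I.large
  obtain ⟨z, hz, ho⟩ := hN (N + 1) (Nat.le_succ N)
  obtain ⟨w, x, hx, hw⟩ := hmax.exists_inv (x := z) (by simpa using hz)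
  rw [Ideal.mem_bot] at hx
  rw [hx, add_zero] at hw
  have h1 : (1 : O) ≠ 0 := by
    intro h1
    exact hmax.ne_top ((Ideal.eq_top_iff_one _).2 (by rw [h1]; exact zero_mem _))
  have hw0 : w ≠ 0 := by
    rintro rfl
    rw [zero_mul] at hw
    exact h1 hw.symm
  have h2 := I.ord_mul w z hw0 hz
  have h3 := I.ord_c 1
  rw [map_one] at h3
  rw [hw, h3, ho] at h2
  omega

/-- The residue fields are `k`; the norm of the residue is the value. -/
theorem exists_val [IsAlgClosed k] (I : Infty k O) (P : MaximalSpectrum O) :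
    Module.finrank k (O ⧸ P.asIdeal) = 1 ∧ ∃ φ : O →ₐ[k] k, (∀ z, nrm k P.asIdeal z = φ z) ∧
      ∀ z, φ z = 0 ↔ z ∈ P.asIdeal := by
  have hfin : Module.Finite k (O ⧸ P.asIdeal) := finite_quot I (point_ne_bot I P)
  have hmax : P.asIdeal.IsMaximal := P.isMaximal
  let _ : Field (O ⧸ P.asIdeal) := Ideal.Quotient.field P.asIdeal
  have hbij : Function.Bijective (algebraMap k (O ⧸ P.asIdeal)) :=
    IsAlgClosed.algebraMap_bijective_of_isIntegral
  let e : k ≃ₐ[k] (O ⧸ P.asIdeal) := AlgEquiv.ofBijective (Algebra.ofId k (O ⧸ P.asIdeal)) hbij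
  have hrank : Module.finrank k (O ⧸ P.asIdeal) = 1 := by
    rw [← e.toLinearEquiv.finrank_eq, Module.finrank_self]
  refine ⟨hrank, (e.symm : (O ⧸ P.asIdeal) →ₐ[k] k).comp (Ideal.Quotient.mkₐ k P.asIdeal), ?_, ?_⟩
  · intro z
    show Algebra.norm k (Ideal.Quotient.mk P.asIdeal z) = e.symm (Ideal.Quotient.mk P.asIdeal z)
    obtain ⟨c, hc⟩ := e.surjective (Ideal.Quotient.mk P.asIdeal z)
    rw [← hc, AlgEquiv.symm_apply_apply]
    have h1 : e c = algebraMap k (O ⧸ P.asIdeal) c := rfl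
    rw [h1, Algebra.norm_algebraMap, hrank, pow_one]
  · intro z
    show e.symm (Ideal.Quotient.mk P.asIdeal z) = 0 ↔ z ∈ P.asIdeal
    rw [← Ideal.Quotient.eq_zero_iff_mem]
    exact map_eq_zero_iff e.symm e.symm.injective

/-- The value at a point. -/
def pv [IsAlgClosed k] (I : Infty k O) (P : MaximalSpectrum O) : O →ₐ[k] k :=
  (exists_val I P).2.choose

theorem pv_spec [IsAlgClosed k] (I : Infty k O) (P : MaximalSpectrum O) (z : O) :
    nrm k P.asIdeal z = pv I P z := (exists_val I P).2.choose_spec.1 z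

theorem pv_eq_zero [IsAlgClosed k] (I : Infty k O) (P : MaximalSpectrum O) (z : O) :
    pv I P z = 0 ↔ z ∈ P.asIdeal := (exists_val I P).2.choose_spec.2 z

theorem ev_eq [IsAlgClosed k] (I : Infty k O) (z : O) (s : Multiset (MaximalSpectrum O)) :
    ev k z s = (s.map fun P => pv I P z).prod := by
  unfold ev
  congr 1
  exact Multiset.map_congr rfl fun P _ => pv_spec I P z

theorem ev_add (z : O) (s t : Multiset (MaximalSpectrum O)) :
    ev k z (s + t) = ev k z s * ev k z t := by
  unfold ev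
  rw [Multiset.map_add, Multiset.prod_add]

theorem ev_nsmul (z : O) (n : ℕ) (s : Multiset (MaximalSpectrum O)) :
    ev k z (n • s) = ev k z s ^ n := by
  unfold ev
  rw [Multiset.map_nsmul, Multiset.prod_nsmul]

theorem ev_mul [IsAlgClosed k] (I : Infty k O) (z w : O) (s : Multiset (MaximalSpectrum O)) :
    ev k (z * w) s = ev k z s * ev k w s := by
  rw [ev_eq I, ev_eq I, ev_eq I, ← Multiset.prod_map_mul]
  congr 1
  exact Multiset.map_congr rfl fun P _ => map_mul _ z w

theorem ev_pow [IsAlgClosed k] (I : Infty k O) (z : O) (n : ℕ)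
    (s : Multiset (MaximalSpectrum O)) : ev k (z ^ n) s = ev k z s ^ n := by
  rw [ev_eq I, ev_eq I, ← Multiset.prod_map_pow]
  congr 1
  exact Multiset.map_congr rfl fun P _ => map_pow _ z n

theorem ev_C [IsAlgClosed k] (I : Infty k O) (c : k) (s : Multiset (MaximalSpectrum O)) :
    ev k (algebraMap k O c) s = c ^ Multiset.card s := by
  rw [ev_eq I]
  have : (s.map fun P => pv I P (algebraMap k O c)) = s.map fun _ => c :=
    Multiset.map_congr rfl fun P _ => (pv I P).commutes c
  rw [this, Multiset.map_const', Multiset.prod_replicate]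

theorem ev_eq_zero_iff [IsAlgClosed k] (I : Infty k O) (z : O)
    (s : Multiset (MaximalSpectrum O)) : ev k z s = 0 ↔ ∃ P ∈ s, z ∈ P.asIdeal := by
  rw [ev_eq I, Multiset.prod_eq_zero_iff, Multiset.mem_map]
  constructor
  · rintro ⟨P, hP, h⟩
    exact ⟨P, hP, (pv_eq_zero I P z).1 h⟩
  · rintro ⟨P, hP, h⟩
    exact ⟨P, hP, (pv_eq_zero I P z).2 h⟩

end Pool.Agent.PTate
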