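import Pool.Agent.PTate.JGrp

/-!
# The Weil pairing is well defined
-/

set_option autoImplicit false

noncomputable section

namespace Pool.Agent.PTate

open Polynomial
open scoped Classical

variable {k O : Type} [Field k] [CommRing O] [Algebra k O] [IsDedekindDomain O]
  [IsAlgClosed k]

omit [IsDedekindDomain O] in
private theorem weilDef_sum (n : ℕ) (s : Multiset (MaximalSpectrum O)) :
    ((n • s).map cl).sum = n • (s.map cl).sum := by
  rw [Multiset.map_nsmul, Multiset.sum_nsmul]

omit [IsDedekindDomain O] [IsAlgClosed k] in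
private theorem weilDef_lc_pow (I : Infty k O) (z : O) (n : ℕ) : I.lc (z ^ n) = I.lc z ^ n := by
  induction n with
  | zero =>
    have h := I.lc_c 1
    rw [map_one] at h
    rw [pow_zero, pow_zero, h]
  | succ n ih => rw [pow_succ, I.lc_mul, ih, pow_succ]

/-- the values at a disjoint divisor -/
private theorem weilDef_ev_ne (I : Infty k O) {n : ℕ} {z : O}
    {s t : Multiset (MaximalSpectrum O)} (h : Ideal.span {z} = idl (n • s))
    (hd : Disjoint s t) : ev k z t ≠ 0 := by
  intro h0
  obtain ⟨P, hP, hP'⟩ := (ev_eq_zero_iff I z t).1 h0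
  exact Multiset.disjoint_left.1 hd (Multiset.mem_of_mem_nsmul ((mem_iff I h P).2 hP')) hP

omit [IsAlgClosed k] in
/-- a principal divisor is the divisor of a function with leading coefficient `1` -/
private theorem weilDef_monic (I : Infty k O) {s : Multiset (MaximalSpectrum O)}
    (h : (s.map cl).sum = 0) : ∃ w : O, Ideal.span {w} = idl s ∧ I.lc w = 1 := by
  obtain ⟨α, hα⟩ := (sum_cl_eq_zero_iff I s).1 h
  obtain ⟨b, hb, lb⟩ := exists_monic I (ne_zero_of_span I hα)
  exact ⟨b, hb.trans hα, lb⟩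

/-- the reciprocity law for functions with leading coefficient `1` -/
private theorem weilDef_recip (I : Infty k O) {n : ℕ} {b c : O}
    {s t : Multiset (MaximalSpectrum O)} (hb : Ideal.span {b} = idl (n • s))
    (hc : Ideal.span {c} = idl t) (lb : I.lc b = 1) (lcc : I.lc c = 1) :
    ev k b t = (-1) ^ (n * (Multiset.card s * Multiset.card t)) * ev k c s ^ n := by
  have h := recip_ev I hb hc
  rw [lb, lcc, one_pow, one_pow, mul_one, mul_one, ev_nsmul, Multiset.card_nsmul,
    mul_assoc] at h
  exact h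

omit [IsAlgClosed k] in
private theorem weilDef_sq (m : ℕ) : ((-1 : k) ^ m) * (-1) ^ m = 1 := by
  rw [← mul_pow]
  simp

/-- change of the first divisor -/
private theorem weilDef_left (I : Infty k O) {n : ℕ}
    {s s₃ s' : Multiset (MaximalSpectrum O)} {a a₃ b : O}
    (hcl : (s.map cl).sum = (s₃.map cl).sum) (ha : Ideal.span {a} = idl (n • s))
    (ha₃ : Ideal.span {a₃} = idl (n • s₃)) (hb : Ideal.span {b} = idl (n • s'))
    (la : I.lc a = 1) (la₃ : I.lc a₃ = 1) (lb : I.lc b = 1) :
    ((-1) ^ (n * (Multiset.card s * Multiset.card s')) * ev k a s') * ev k b s₃ =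
      ((-1) ^ (n * (Multiset.card s₃ * Multiset.card s')) * ev k a₃ s') * ev k b s := by
  obtain ⟨u, hu, hcu⟩ := exists_avoid I (-(s.map cl).sum) s'.toFinset
  have hd : Disjoint s' u := by
    rw [Multiset.disjoint_left]
    intro P hP hP'
    exact hu P hP' (Multiset.mem_toFinset.2 hP)
  obtain ⟨c₁, hc₁, l₁⟩ := weilDef_monic I (s := s + u) (by
    rw [Multiset.map_add, Multiset.sum_add, hcu, add_neg_cancel])
  obtain ⟨c₂, hc₂, l₂⟩ := weilDef_monic I (s := s₃ + u) (by
    rw [Multiset.map_add, Multiset.sum_add, hcu, hcl, add_neg_cancel])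
  have heq : a * c₂ ^ n = a₃ * c₁ ^ n := by
    apply eq_of_span_eq I
    · rw [← Ideal.span_singleton_mul_span_singleton, ← Ideal.span_singleton_mul_span_singleton,
        ← Ideal.span_singleton_pow, ← Ideal.span_singleton_pow, ha, ha₃, hc₁, hc₂, idl_nsmul,
        idl_nsmul, idl_add, idl_add, mul_pow, mul_pow]
      exact mul_left_comm _ _ _
    · rw [I.lc_mul, I.lc_mul, weilDef_lc_pow, weilDef_lc_pow, la, la₃, l₁, l₂]
  have h1 := congrArg (fun z => ev k z s') heq
  simp only [ev_mul I, ev_pow I] at h1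
  have h2 := weilDef_recip I hb hc₁ lb l₁
  have h3 := weilDef_recip I hb hc₂ lb l₂
  rw [ev_add] at h2 h3
  have h4 : ev k b u ≠ 0 := weilDef_ev_ne I hb hd
  set p : k := (-1) ^ (n * (Multiset.card s * Multiset.card s')) with hp
  set q : k := (-1) ^ (n * (Multiset.card s₃ * Multiset.card s')) with hq
  set r : k := (-1) ^ (n * (Multiset.card s' * Multiset.card u)) with hr
  have e1 : ((-1 : k) ^ (n * (Multiset.card s' * Multiset.card (s + u)))) = p * r := by
    rw [hp, hr, Multiset.card_add, ← pow_add]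
    congr 1
    ring
  have e2 : ((-1 : k) ^ (n * (Multiset.card s' * Multiset.card (s₃ + u)))) = q * r := by
    rw [hq, hr, Multiset.card_add, ← pow_add]
    congr 1
    ring
  have pp : p * p = 1 := weilDef_sq _
  have qq : q * q = 1 := weilDef_sq _
  have rr : r * r = 1 := weilDef_sq _
  rw [e1] at h2
  rw [e2] at h3
  have hp0 : p ≠ 0 := fun h => by rw [h] at pp; simp at pp
  have hq0 : q ≠ 0 := fun h => by rw [h] at qq; simp at qq
  have hr0 : r ≠ 0 := fun h => by rw [h] at rr; simp at rr
  have f2 : ev k c₁ s' ^ n = p * r * (ev k b s * ev k b u) := by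
    rw [h2]
    linear_combination (-(r * r) * ev k c₁ s' ^ n) * pp - ev k c₁ s' ^ n * rr
  have f3 : ev k c₂ s' ^ n = q * r * (ev k b s₃ * ev k b u) := by
    rw [h3]
    linear_combination (-(r * r) * ev k c₂ s' ^ n) * qq - ev k c₂ s' ^ n * rr
  rw [f2, f3] at h1
  have h5 : (p * ev k a s' * ev k b s₃) * (r * p * q * ev k b u) =
      (q * ev k a₃ s' * ev k b s) * (r * p * q * ev k b u) := by
    linear_combination h1 + (q * r * ev k b s₃ * ev k b u * ev k a s') * pp -
      (p * r * ev k b s * ev k b u * ev k a₃ s') * qq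
  exact mul_right_cancel₀ (by positivity) h5

theorem isWeil_unique (I : Infty k O) {n : ℕ} {c c' : J O} {w w' : k}
    (h : IsWeil I n c c' w) (h' : IsWeil I n c c' w') : w = w' := by
  obtain ⟨s, s', a, b, d, cs, cs', ha, hb, la, lb, rfl⟩ := h
  obtain ⟨t, t', a', b', d', ct, ct', ha', hb', la', lb', rfl⟩ := h'
  obtain ⟨v, hv, cv⟩ := exists_avoid I c (s' + t').toFinset
  have dv1 : Disjoint s' v := by
    rw [Multiset.disjoint_left]
    intro P hP hP'
    exact hv P hP' (Multiset.mem_toFinset.2 (Multiset.mem_add.2 (Or.inl hP)))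
  have dv2 : Disjoint t' v := by
    rw [Multiset.disjoint_left]
    intro P hP hP'
    exact hv P hP' (Multiset.mem_toFinset.2 (Multiset.mem_add.2 (Or.inr hP)))
  have hc : n • c = 0 := by
    rw [← cs, ← weilDef_sum, sum_cl_eq_zero_iff I]
    exact ⟨a, ha⟩
  obtain ⟨z, hz, lz⟩ := weilDef_monic I (s := n • v) (by rw [weilDef_sum, cv, hc])
  have e1 := weilDef_left I (cs.trans cv.symm) ha hz hb la lz lb
  have e2 := weilDef_left I (cs'.trans ct'.symm) hb hb' hz lb lb' lz
  have e3 := weilDef_left I (ct.trans cv.symm) ha' hz hb' la' lz lb'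
  have n1 : ev k b s ≠ 0 := weilDef_ev_ne I hb d.symm
  have n2 : ev k b v ≠ 0 := weilDef_ev_ne I hb dv1
  have n3 : ev k b' v ≠ 0 := weilDef_ev_ne I hb' dv2
  have n4 : ev k b' t ≠ 0 := weilDef_ev_ne I hb' d'.symm
  rw [mul_comm (Multiset.card s') (Multiset.card v),
    mul_comm (Multiset.card t') (Multiset.card v)] at e2
  set p : k := (-1) ^ (n * (Multiset.card v * Multiset.card s')) with hp
  set q : k := (-1) ^ (n * (Multiset.card v * Multiset.card t')) with hq
  have pp : p * p = 1 := weilDef_sq _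
  have qq : q * q = 1 := weilDef_sq _
  rw [← mul_div_assoc, ← mul_div_assoc]
  have f1 : (-1) ^ (n * (Multiset.card s * Multiset.card s')) * ev k a s' / ev k b s =
      p * ev k z s' / ev k b v := by
    rw [div_eq_div_iff n1 n2]
    exact e1
  have f2 : p * ev k z s' / ev k b v = q * ev k z t' / ev k b' v := by
    rw [div_eq_div_iff n2 n3]
    linear_combination (-(p * q)) * e2 + (-(p * ev k z s' * ev k b' v)) * qq +
      (q * ev k z t' * ev k b v) * pp
  have f3 : q * ev k z t' / ev k b' v =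
      (-1) ^ (n * (Multiset.card t * Multiset.card t')) * ev k a' t' / ev k b' t := by
    rw [div_eq_div_iff n3 n4]
    exact e3.symm
  rw [f1, f2, f3]

theorem exists_isWeil (I : Infty k O) {n : ℕ} {c c' : J O} (hc : n • c = 0)
    (hc' : n • c' = 0) : ∃ w, IsWeil I n c c' w := by
  obtain ⟨s, -, cs⟩ := exists_avoid I c ∅
  obtain ⟨s', hs', cs'⟩ := exists_avoid I c' s.toFinset
  obtain ⟨a, ha, la⟩ := weilDef_monic I (s := n • s) (by rw [weilDef_sum, cs, hc])
  obtain ⟨b, hb, lb⟩ := weilDef_monic I (s := n • s') (by rw [weilDef_sum, cs', hc'])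
  refine ⟨_, s, s', a, b, ?_, cs, cs', ha, hb, la, lb, rfl⟩
  rw [Multiset.disjoint_left]
  intro P hP hP'
  exact hs' P hP' (Multiset.mem_toFinset.2 hP)

theorem isWeil_weil (I : Infty k O) {n : ℕ} {c c' : J O} (hc : n • c = 0)
    (hc' : n • c' = 0) : IsWeil I n c c' (weil I n c c') := by
  have h := exists_isWeil I hc hc'
  unfold weil
  rw [dif_pos h]
  exact h.choose_spec

theorem weil_eq (I : Infty k O) {n : ℕ} {c c' : J O} {w : k} (h : IsWeil I n c c' w) :
    weil I n c c' = w := by
  have h' : ∃ w, IsWeil I n c c' w := ⟨w, h⟩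
  unfold weil
  rw [dif_pos h']
  exact isWeil_unique I h'.choose_spec h

end Pool.Agent.PTate
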