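import Pool.Agent.PTate.WeilDef
import Pool.Agent.PTate.Act

/-!
# Properties of the Weil pairing
-/

set_option autoImplicit false

noncomputable section

namespace Pool.Agent.PTate

open Polynomial
open scoped Classical

variable {k O : Type} [Field k] [CommRing O] [Algebra k O] [IsDedekindDomain O]
  [IsAlgClosed k]

private theorem weilProp_ev_ne (I : Infty k O) {n : ℕ} {z : O}
    {s t : Multiset (MaximalSpectrum O)} (h : Ideal.span {z} = idl (n • s))
    (hd : Disjoint s t) : ev k z t ≠ 0 := by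
  intro h0
  obtain ⟨P, hP, hP'⟩ := (ev_eq_zero_iff I z t).1 h0
  exact Multiset.disjoint_left.1 hd (Multiset.mem_of_mem_nsmul ((mem_iff I h P).2 hP')) hP

omit [IsAlgClosed k] in
private theorem weilProp_fun (I : Infty k O) {n : ℕ} {c : J O} (hc : n • c = 0)
    {s : Multiset (MaximalSpectrum O)} (hs : (s.map cl).sum = c) :
    ∃ a : O, Ideal.span {a} = idl (n • s) ∧ I.lc a = 1 := by
  have h1 : ((n • s).map cl).sum = 0 := by
    rw [Multiset.map_nsmul, Multiset.sum_nsmul, hs, hc]
  obtain ⟨α, hα⟩ := (sum_cl_eq_zero_iff I _).1 h1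
  obtain ⟨b, hb, lb⟩ := exists_monic I (ne_zero_of_span I hα)
  exact ⟨b, hb.trans hα, lb⟩

omit [IsDedekindDomain O] [IsAlgClosed k] in
private theorem weilProp_symm (I : Infty k O) {n : ℕ} {c c' : J O} {w : k}
    (h : IsWeil I n c c' w) : IsWeil I n c' c w⁻¹ := by
  obtain ⟨s, s', a, b, h3, h4, h5, h6, h7, h8, h9, rfl⟩ := h
  refine ⟨s', s, b, a, h3.symm, h5, h4, h7, h6, h9, h8, ?_⟩
  rw [mul_inv, inv_div, mul_comm (Multiset.card s') (Multiset.card s), ← inv_pow, inv_neg,
    inv_one]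

private theorem weilProp_ne_zero (I : Infty k O) {n : ℕ} {c c' : J O} {w : k}
    (h : IsWeil I n c c' w) : w ≠ 0 := by
  obtain ⟨s, s', a, b, h3, h4, h5, h6, h7, h8, h9, rfl⟩ := h
  exact mul_ne_zero (pow_ne_zero _ (neg_ne_zero.2 one_ne_zero))
    (div_ne_zero (weilProp_ev_ne I h6 h3) (weilProp_ev_ne I h7 h3.symm))

theorem weil_symm (I : Infty k O) {n : ℕ} {c c' : J O} (hc : n • c = 0) (hc' : n • c' = 0) :
    weil I n c' c = (weil I n c c')⁻¹ :=
  weil_eq I (weilProp_symm I (isWeil_weil I hc hc'))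

theorem weil_add_left (I : Infty k O) {n : ℕ} {c d c' : J O} (hc : n • c = 0) (hd : n • d = 0)
    (hc' : n • c' = 0) : weil I n (c + d) c' = weil I n c c' * weil I n d c' := by
  obtain ⟨s, -, hs2⟩ := exists_avoid I c ∅
  obtain ⟨t, -, ht2⟩ := exists_avoid I d ∅
  obtain ⟨s', hs3, hs2'⟩ := exists_avoid I c' ((s + t).toFinset)
  obtain ⟨a, ha1, ha2⟩ := weilProp_fun I hc hs2
  obtain ⟨a', ha1', ha2'⟩ := weilProp_fun I hd ht2
  obtain ⟨b, hb1, hb2⟩ := weilProp_fun I hc' hs2'
  have hds : Disjoint (s + t) s' := by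
    rw [Multiset.disjoint_left]
    intro P hP hP'
    exact hs3 P hP' (Multiset.mem_toFinset.2 hP)
  obtain ⟨hd1, hd2⟩ := Multiset.disjoint_add_left.1 hds
  have e1 : IsWeil I n c c' _ :=
    ⟨s, s', a, b, hd1, hs2, hs2', ha1, hb1, ha2, hb2, rfl⟩
  have e2 : IsWeil I n d c' _ :=
    ⟨t, s', a', b, hd2, ht2, hs2', ha1', hb1, ha2', hb2, rfl⟩
  have e3 : IsWeil I n (c + d) c' ((-1) ^ (n * (Multiset.card (s + t) * Multiset.card s')) *
      (ev k (a * a') s' / ev k b (s + t))) := by
    refine ⟨s + t, s', a * a', b, hds, ?_, hs2', ?_, hb1, ?_, hb2, rfl⟩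
    · rw [Multiset.map_add, Multiset.sum_add, hs2, ht2]
    · rw [nsmul_add, idl_add, ← ha1, ← ha1', Ideal.span_singleton_mul_span_singleton]
    · rw [I.lc_mul, ha2, ha2', mul_one]
  rw [weil_eq I e1, weil_eq I e2, weil_eq I e3, ev_mul I, ev_add, mul_div_mul_comm,
    Multiset.card_add, add_mul, mul_add, pow_add]
  ring

theorem weil_add_right (I : Infty k O) {n : ℕ} {c d c' : J O} (hc : n • c = 0) (hd : n • d = 0)
    (hc' : n • c' = 0) : weil I n c' (c + d) = weil I n c' c * weil I n c' d := by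
  have hcd : n • (c + d) = 0 := by rw [nsmul_add, hc, hd, add_zero]
  rw [weil_symm I hcd hc', weil_symm I hc hc', weil_symm I hd hc', weil_add_left I hc hd hc',
    mul_inv]

theorem weil_pow (I : Infty k O) {n : ℕ} {c c' : J O} (hc : n • c = 0) (hc' : n • c' = 0) :
    weil I n c c' ^ n = 1 := by
  have h := isWeil_weil I hc hc'
  generalize weil I n c c' = w at h ⊢
  obtain ⟨s, s', a, b, h3, h4, h5, h6, h7, h8, h9, rfl⟩ := h
  have hb := weilProp_ev_ne I h7 h3.symm
  have h10 := recip_ev I h6 h7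
  rw [h8, h9, one_pow, one_pow, mul_one, mul_one, ev_nsmul, ev_nsmul, Multiset.card_nsmul,
    Multiset.card_nsmul] at h10
  rw [mul_pow, div_pow, h10, mul_div_assoc, div_self (pow_ne_zero _ hb), mul_one, ← pow_mul,
    ← pow_add]
  have h11 : n * (Multiset.card s * Multiset.card s') * n +
      n * Multiset.card s * (n * Multiset.card s') =
      2 * (n * n * (Multiset.card s * Multiset.card s')) := by ring
  rw [h11, pow_mul, neg_one_sq, one_pow]

theorem weil_mul (I : Infty k O) {n m : ℕ} {c c' : J O} (hc : (m * n) • c = 0)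
    (hc' : (m * n) • c' = 0) : weil I (m * n) c c' ^ m = weil I n (m • c) (m • c') := by
  have h := isWeil_weil I hc hc'
  generalize weil I (m * n) c c' = w at h ⊢
  obtain ⟨s, s', a, b, h3, h4, h5, h6, h7, h8, h9, rfl⟩ := h
  symm
  apply weil_eq I
  refine ⟨m • s, m • s', a, b, ?_, ?_, ?_, ?_, ?_, h8, h9, ?_⟩
  · rw [Multiset.disjoint_left] at h3 ⊢
    intro P hP hP'
    exact h3 (Multiset.mem_of_mem_nsmul hP) (Multiset.mem_of_mem_nsmul hP')
  · rw [Multiset.map_nsmul, Multiset.sum_nsmul, h4]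
  · rw [Multiset.map_nsmul, Multiset.sum_nsmul, h5]
  · rw [h6, smul_smul, mul_comm]
  · rw [h7, smul_smul, mul_comm]
  · rw [ev_nsmul, ev_nsmul, mul_pow, div_pow, Multiset.card_nsmul, Multiset.card_nsmul,
      ← pow_mul]
    congr 2
    ring

omit [IsDedekindDomain O] [IsAlgClosed k] in
private theorem weilProp_mv_injective (e : O ≃+* O) :
    Function.Injective (mv e : MaximalSpectrum O → MaximalSpectrum O) := by
  intro P Q h
  apply MaximalSpectrum.ext
  ext z
  rw [← mem_mv e P z, ← mem_mv e Q z, h]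

private theorem weilProp_pv (I : Infty k O) (e : O ≃+* O) (g : k ≃+* k)
    (hg : ∀ c, e (algebraMap k O c) = algebraMap k O (g c)) (P : MaximalSpectrum O) (z : O) :
    pv I (mv e P) (e z) = g (pv I P z) := by
  have h1 : z - algebraMap k O (pv I P z) ∈ P.asIdeal := by
    rw [← pv_eq_zero I P, map_sub, AlgHom.commutes]
    exact sub_self _
  rw [← mem_mv e, ← pv_eq_zero I, map_sub, hg, map_sub, AlgHom.commutes, sub_eq_zero] at h1
  exact h1

private theorem weilProp_ev (I : Infty k O) (e : O ≃+* O) (g : k ≃+* k)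
    (hg : ∀ c, e (algebraMap k O c) = algebraMap k O (g c)) (z : O)
    (s : Multiset (MaximalSpectrum O)) : ev k (e z) (s.map (mv e)) = g (ev k z s) := by
  rw [ev_eq I, ev_eq I, map_multiset_prod, Multiset.map_map, Multiset.map_map]
  congr 1
  exact Multiset.map_congr rfl fun P _ => weilProp_pv I e g hg P z

/-- An automorphism `e` over the automorphism `g` of `k`, which respects the leading coefficients
of the functions whose pole order is divisible by `n`. -/
theorem weil_act (I : Infty k O) {n : ℕ} (e : O ≃+* O) (g : k ≃+* k)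
    (hg : ∀ c, e (algebraMap k O c) = algebraMap k O (g c))
    (hl : ∀ z, n ∣ I.ord z → I.lc (e z) = g (I.lc z)) {c c' : J O} (hc : n • c = 0)
    (hc' : n • c' = 0) : weil I n (J.map e c) (J.map e c') = g (weil I n c c') := by
  have hw := isWeil_weil I hc hc'
  generalize weil I n c c' = w at hw ⊢
  obtain ⟨s, s', a, b, h3, h4, h5, h6, h7, h8, h9, rfl⟩ := hw
  apply weil_eq I
  refine ⟨s.map (mv e), s'.map (mv e), e a, e b, ?_, ?_, ?_, ?_, ?_, ?_, ?_, ?_⟩
  · rw [Multiset.disjoint_left] at h3 ⊢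
    intro P hP hP'
    obtain ⟨Q, hQ, rfl⟩ := Multiset.mem_map.1 hP
    obtain ⟨Q', hQ', hQQ⟩ := Multiset.mem_map.1 hP'
    have := weilProp_mv_injective e hQQ
    subst this
    exact h3 hQ hQ'
  · rw [← J.map_sum, h4]
  · rw [← J.map_sum, h5]
  · rw [span_mv e h6, Multiset.map_nsmul]
  · rw [span_mv e h7, Multiset.map_nsmul]
  · rw [hl a ?_, h8, map_one]
    rw [← card_eq I h6, Multiset.card_nsmul]
    exact dvd_mul_right _ _
  · rw [hl b ?_, h9, map_one]
    rw [← card_eq I h7, Multiset.card_nsmul]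
    exact dvd_mul_right _ _
  · rw [weilProp_ev I e g hg, weilProp_ev I e g hg, Multiset.card_map, Multiset.card_map,
      map_mul, map_div₀, map_pow, map_neg, map_one]

end Pool.Agent.PTate
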