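import Pool.Agent.PTate.Val

/-!
# The zeros of regular functions
-/

set_option autoImplicit false

noncomputable section

namespace Pool.Agent.PTate

open Polynomial
open scoped Classical

variable {k O : Type} [Field k] [CommRing O] [Algebra k O]

theorem idl_zero : idl (0 : Multiset (MaximalSpectrum O)) = ⊤ := by
  unfold idl
  rw [Multiset.map_zero, Multiset.prod_zero, Ideal.one_eq_top]

theorem idl_add (s t : Multiset (MaximalSpectrum O)) : idl (s + t) = idl s * idl t := by
  unfold idl
  rw [Multiset.map_add, Multiset.prod_add]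

theorem idl_cons (P : MaximalSpectrum O) (s : Multiset (MaximalSpectrum O)) :
    idl (P ::ₘ s) = P.asIdeal * idl s := by
  unfold idl
  rw [Multiset.map_cons, Multiset.prod_cons]

theorem idl_nsmul (n : ℕ) (s : Multiset (MaximalSpectrum O)) : idl (n • s) = idl s ^ n := by
  unfold idl
  rw [Multiset.map_nsmul, Multiset.prod_nsmul]

variable [IsDedekindDomain O]

theorem idl_ne_bot (I : Infty k O) (s : Multiset (MaximalSpectrum O)) : idl s ≠ ⊥ := by
  induction s using Multiset.induction_on with
  | empty =>
    rw [idl_zero]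
    exact top_ne_bot
  | cons P s ih =>
    rw [idl_cons]
    exact mul_ne_zero (point_ne_bot I P) ih

theorem idl_injective (I : Infty k O) {s t : Multiset (MaximalSpectrum O)} (h : idl s = idl t) :
    s = t := by
  have h1 : ∀ u : Multiset (MaximalSpectrum O),
      UniqueFactorizationMonoid.normalizedFactors (idl u) = u.map MaximalSpectrum.asIdeal := by
    intro u
    unfold idl
    refine UniqueFactorizationMonoid.normalizedFactors_prod_of_prime fun p hp => ?_
    obtain ⟨P, -, rfl⟩ := Multiset.mem_map.1 hp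
    exact Ideal.prime_of_isPrime (point_ne_bot I P) P.isMaximal.isPrime
  have h2 : s.map MaximalSpectrum.asIdeal = t.map MaximalSpectrum.asIdeal := by
    rw [← h1, ← h1, h]
  refine Multiset.map_injective (fun P Q hPQ => ?_) h2
  exact MaximalSpectrum.ext hPQ

theorem exists_idl (I : Infty k O) {A : Ideal O} (hA : A ≠ ⊥) :
    ∃ s : Multiset (MaximalSpectrum O), idl s = A := by
  have h1 : ∀ m : Multiset (Ideal O), (∀ p ∈ m, Prime p) →
      ∃ s : Multiset (MaximalSpectrum O), idl s = m.prod := by
    intro m
    induction m using Multiset.induction_on with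
    | empty =>
      intro _
      exact ⟨0, by rw [idl_zero, Multiset.prod_zero, Ideal.one_eq_top]⟩
    | cons p m ih =>
      intro h
      obtain ⟨s, hs⟩ := ih fun q hq => h q (Multiset.mem_cons_of_mem hq)
      have hp := h p (Multiset.mem_cons_self p m)
      have hmax : p.IsMaximal := (Ideal.isPrime_of_prime hp).isMaximal hp.ne_zero
      refine ⟨⟨p, hmax⟩ ::ₘ s, ?_⟩
      rw [idl_cons, hs, Multiset.prod_cons]
  obtain ⟨s, hs⟩ := h1 (UniqueFactorizationMonoid.normalizedFactors A)
    fun p hp => UniqueFactorizationMonoid.prime_of_normalized_factor p hp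
  refine ⟨s, ?_⟩
  rw [hs]
  exact (UniqueFactorizationMonoid.prod_normalizedFactors_eq hA).trans (normalize_eq A)

/-- `P` is a zero of `z` if and only if `z ∈ P`. -/
theorem mem_iff (I : Infty k O) {z : O} {s : Multiset (MaximalSpectrum O)}
    (h : Ideal.span {z} = idl s) (P : MaximalSpectrum O) : P ∈ s ↔ z ∈ P.asIdeal := by
  rw [← Ideal.span_singleton_le_iff_mem, h]
  constructor
  · intro hP
    rw [← Ideal.dvd_iff_le]
    exact Multiset.dvd_prod (Multiset.mem_map_of_mem MaximalSpectrum.asIdeal hP)
  · intro hle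
    unfold idl at hle
    obtain ⟨Q, hQ, hQP⟩ := (Ideal.IsPrime.multiset_prod_map_le MaximalSpectrum.asIdeal
      P.isMaximal.isPrime).1 hle
    have h1 : Q = P := MaximalSpectrum.ext (Q.isMaximal.eq_of_le P.isMaximal.ne_top hQP)
    rwa [← h1]

theorem ne_zero_of_span (I : Infty k O) {z : O} {s : Multiset (MaximalSpectrum O)}
    (h : Ideal.span {z} = idl s) : z ≠ 0 := by
  rintro rfl
  apply idl_ne_bot I s
  rw [← h, Ideal.span_singleton_eq_bot]

theorem finrank_idl [IsAlgClosed k] (I : Infty k O) (s : Multiset (MaximalSpectrum O)) :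
    Module.finrank k (O ⧸ idl s) = Multiset.card s := by
  induction s using Multiset.induction_on with
  | empty =>
    rw [idl_zero, Multiset.card_zero]
    have h1 : Subsingleton (O ⧸ (⊤ : Ideal O)) := Ideal.Quotient.subsingleton_iff.2 rfl
    exact Module.finrank_zero_of_subsingleton
  | cons P s ih =>
    rw [idl_cons, (nrm_mul I (point_ne_bot I P) (idl_ne_bot I s) 0).2, ih, (exists_val I P).1,
      Multiset.card_cons, add_comm]

theorem nrm_idl [IsAlgClosed k] (I : Infty k O) (s : Multiset (MaximalSpectrum O)) (z : O) :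
    nrm k (idl s) z = ev k z s := by
  induction s using Multiset.induction_on with
  | empty =>
    rw [idl_zero]
    have h1 : Subsingleton (O ⧸ (⊤ : Ideal O)) := Ideal.Quotient.subsingleton_iff.2 rfl
    unfold nrm ev
    rw [Algebra.norm_apply, LinearMap.det_eq_one_of_subsingleton, Multiset.map_zero,
      Multiset.prod_zero]
  | cons P s ih =>
    rw [idl_cons, (nrm_mul I (point_ne_bot I P) (idl_ne_bot I s) z).1, ih]
    unfold ev
    rw [Multiset.map_cons, Multiset.prod_cons]

theorem card_eq [IsAlgClosed k] (I : Infty k O) {z : O} {s : Multiset (MaximalSpectrum O)}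
    (h : Ideal.span {z} = idl s) : Multiset.card s = I.ord z := by
  rw [← finrank_idl I, ← h, (finrank_span I (ne_zero_of_span I h)).2]

/-- Weil reciprocity. -/
theorem recip_ev [IsAlgClosed k] (I : Infty k O) {a b : O} {s t : Multiset (MaximalSpectrum O)}
    (hs : Ideal.span {a} = idl s) (ht : Ideal.span {b} = idl t) :
    ev k a t * I.lc b ^ Multiset.card s =
      (-1) ^ (Multiset.card s * Multiset.card t) * I.lc a ^ Multiset.card t * ev k b s := by
  have h := recip I (ne_zero_of_span I hs) (ne_zero_of_span I ht)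
  rw [hs, ht, nrm_idl I, nrm_idl I, ← card_eq I hs, ← card_eq I ht] at h
  exact h

/-- The units are the constants; a function is determined by its zeros and its leading
coefficient. -/
theorem eq_of_span_eq (I : Infty k O) {a b : O} (h : Ideal.span {a} = Ideal.span {b})
    (hl : I.lc a = I.lc b) : a = b := by
  by_cases ha : a = 0
  · rw [ha, Ideal.span_singleton_eq_span_singleton] at h
    rw [ha]
    exact ((associated_zero_iff_eq_zero b).1 h.symm).symm
  · obtain ⟨u, hu⟩ := Ideal.span_singleton_eq_span_singleton.1 h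
    have h1 : I.ord ((u : O) * ((u⁻¹ : Oˣ) : O)) = I.ord (u : O) + I.ord ((u⁻¹ : Oˣ) : O) :=
      I.ord_mul _ _ u.ne_zero (u⁻¹).ne_zero
    have h2 := I.ord_c 1
    rw [map_one] at h2
    rw [Units.mul_inv, h2] at h1
    obtain ⟨c, hc⟩ := I.const (u : O) (by omega)
    have h3 : I.lc a * c = I.lc a := by
      rw [← hc] at hu
      conv_rhs => rw [hl, ← hu, I.lc_mul, I.lc_c]
    have h4 : c = 1 := mul_left_cancel₀ (I.lc_ne a ha) (h3.trans (mul_one _).symm)
    rw [← hu, ← hc, h4, map_one, mul_one]

theorem exists_monic (I : Infty k O) {a : O} (ha : a ≠ 0) :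
    ∃ b : O, Ideal.span {b} = Ideal.span {a} ∧ I.lc b = 1 := by
  refine ⟨algebraMap k O (I.lc a)⁻¹ * a, ?_, ?_⟩
  · have h1 : IsUnit (algebraMap k O (I.lc a)⁻¹) :=
      (IsUnit.mk0 _ (inv_ne_zero (I.lc_ne a ha))).map _
    exact Ideal.span_singleton_mul_left_unit h1 a
  · rw [I.lc_mul, I.lc_c, inv_mul_cancel₀ (I.lc_ne a ha)]

end Pool.Agent.PTate
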